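import Pool.Agent.LIO.Geo

/-!
# Liouville metrics: the theorem in an abstract space, from the analytic core
-/

set_option autoImplicit false

namespace Pool.Agent.LIO

open MeasureTheory Set Filter Topology Pool.Agent.XRay

namespace ABSAux

/-- the indicator of a compact set times a function continuous on it is measurable -/
theorem meas_ind {E : Type} [TopologicalSpace E] [T2Space E] [MeasurableSpace E] [BorelSpace E]
    (M : Set E) (f : E → ℝ) (hM : IsCompact M) (hf : ContinuousOn f M) :
    Measurable (M.indicator f) := by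
  classical
  have h := hf.measurable_piecewise (continuousOn_const (c := (0 : ℝ)) (s := Mᶜ))
    hM.isClosed.measurableSet
  rwa [← Set.piecewise_eq_indicator]

/-- the data of one slice -/
noncomputable def mk (F : ℝ × ℝ → ℝ) (hF : Measurable F) (C : ℝ) (hC : ∀ z, |F z| ≤ C)
    (u v : ℝ → ℝ) (a₁ B₁ a₂ B₂ : ℝ) (ha₁ : 0 < a₁) (ha₂ : 0 < a₂)
    (hu : ContDiff ℝ (⊤ : ℕ∞) u) (hv : ContDiff ℝ (⊤ : ℕ∞) v)
    (hub : ∀ x, a₁ ≤ u x ∧ u x ≤ B₁) (hvb : ∀ x, a₂ ≤ v x ∧ v x ≤ B₂) (r : ℝ) (hr : 0 < r)
    (hs : ∀ x y, r ≤ |x| ∨ r ≤ |y| → F (x, y) = 0) : LD where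
  U := u
  V := v
  φ := fun x y => F (x, y) * (u x + v y)
  R := r + 1
  r := r
  a := min a₁ a₂
  B := max (max B₁ B₂) (C * (B₁ + B₂))
  r0 := hr
  rR := by linarith
  a0 := lt_min ha₁ ha₂
  Us := hu
  Vs := hv
  Ua := fun x => (min_le_left _ _).trans (hub x).1
  Va := fun x => (min_le_right _ _).trans (hvb x).1
  UB := fun x => (hub x).2.trans ((le_max_left _ _).trans (le_max_left _ _))
  VB := fun x => (hvb x).2.trans ((le_max_right _ _).trans (le_max_left _ _))
  φm := by
    have h1 : Measurable (fun z : ℝ × ℝ => u z.1) := hu.continuous.measurable.comp measurable_fst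
    have h2 : Measurable (fun z : ℝ × ℝ => v z.2) := hv.continuous.measurable.comp measurable_snd
    exact hF.mul (h1.add h2)
  φb := fun x y => by
    refine le_trans ?_ (le_max_right _ _)
    have h1 := hub x
    have h2 := hvb y
    rw [abs_mul]
    have h3 : 0 ≤ C := (abs_nonneg _).trans (hC (x, y))
    refine mul_le_mul (hC _) ?_ (abs_nonneg _) h3
    rw [abs_of_pos (by linarith)]
    linarith
  φs := fun x y h => by
    show F (x, y) * (u x + v y) = 0
    rw [hs x y h, zero_mul]

end ABSAux

open ABSAux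

theorem abs_ (hF : Stmt_FLOW) (hL : Stmt_LINE) (hN : Stmt_NUL) (hS : Stmt_SEG) (hM : Stmt_MOD)
    (hC : Stmt_CORE) : Stmt_ABS := by
  intro E W _ _ _ _ _ _ _ _ _ _ e G U V hG hU hV hLio M f h₀ δ hMc hnull hf hδ hrg hZ
  -- the modified functions
  obtain ⟨u, a₁, B₁, ha₁, hus, hub, huM⟩ := hM U ((fun z => (e.symm z).1.1) '' M) h₀ hU
    (hMc.image (by fun_prop)) (by
      rintro x ⟨z, hz, rfl⟩
      exact (hrg z hz).2)
  obtain ⟨v, a₂, B₂, ha₂, hvs, hvb, hvM⟩ := hM V ((fun z => (e.symm z).1.2) '' M) (-h₀) hV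
    (hMc.image (by fun_prop)) (by
      rintro x ⟨z, hz, rfl⟩
      have := (hrg z hz).1
      show -h₀ < V (e.symm z).1.2
      linarith)
  -- bounds
  obtain ⟨C, hCb⟩ := hMc.exists_bound_of_continuousOn hf
  obtain ⟨r₁, hr₁⟩ := (hMc.image (f := fun z => (e.symm z).1) (by fun_prop)).isBounded.exists_norm_le
  obtain ⟨r, hr, hrM⟩ : ∃ r : ℝ, 0 < r ∧ ∀ z ∈ M, |(e.symm z).1.1| < r ∧ |(e.symm z).1.2| < r := by
    refine ⟨max r₁ 0 + 1, by positivity, fun z hz => ?_⟩
    have h1 := hr₁ (e.symm z).1 ⟨z, hz, rfl⟩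
    have h2 := norm_fst_le (e.symm z).1
    have h3 := norm_snd_le (e.symm z).1
    rw [Real.norm_eq_abs] at h2 h3
    have h4 := le_max_left r₁ 0
    constructor <;> linarith
  have hCp : 0 ≤ max C 0 := le_max_right _ _
  have hind : Measurable (M.indicator f) := meas_ind M f hMc hf
  -- the slices
  have hFm : ∀ w : W, Measurable (fun z : ℝ × ℝ => M.indicator f (e (z, w))) := fun w =>
    hind.comp (by fun_prop : Continuous fun z : ℝ × ℝ => e (z, w)).measurable
  have hFb : ∀ (w : W) (z : ℝ × ℝ), |M.indicator f (e (z, w))| ≤ max C 0 := fun w z => by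
    by_cases hz : e (z, w) ∈ M
    · rw [Set.indicator_of_mem hz]
      exact (hCb _ hz).trans (le_max_left _ _)
    · rw [Set.indicator_of_notMem hz, abs_zero]
      exact hCp
  have hFs : ∀ (w : W) (x y : ℝ), r ≤ |x| ∨ r ≤ |y| → M.indicator f (e ((x, y), w)) = 0 :=
    fun w x y hxy => by
      refine Set.indicator_of_notMem (fun hz => ?_) _
      have h1 := hrM _ hz
      rw [ContinuousLinearEquiv.symm_apply_apply] at h1
      rcases hxy with h | h
      · exact absurd h1.1 (not_lt.2 h)
      · exact absurd h1.2 (not_lt.2 h)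
  -- a.e. slice of the frontier is null
  have hfm : MeasurableSet (frontier M) := isClosed_frontier.measurableSet
  have hpm : MeasurableSet {p : (ℝ × ℝ) × W | e (p.1, p.2) ∉ frontier M} :=
    (hfm.compl).preimage (e.continuous.measurable)
  have hae : ∀ᵐ w : W, ∀ᵐ z : ℝ × ℝ, e (z, w) ∉ frontier M := by
    have h1 : ∀ᵐ p : (ℝ × ℝ) × W, e (p.1, p.2) ∉ frontier M := by
      have h2 : {p : (ℝ × ℝ) × W | ¬ e (p.1, p.2) ∉ frontier M} = e ⁻¹' frontier M := by
        ext p
        simp
      rw [ae_iff, h2]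
      exact hnull
    rw [Measure.volume_eq_prod] at h1
    exact (Measure.ae_ae_comm hpm).1 (Measure.ae_ae_of_ae_prod h1)
  -- the core
  have hcore : ∀ᵐ w : W, ∀ᵐ z : ℝ × ℝ, M.indicator f (e (z, w)) = 0 := by
    filter_upwards [hae] with w hw
    let D : LD := mk (fun z => M.indicator f (e (z, w))) (hFm w) (max C 0) (hFb w) u v a₁ B₁ a₂ B₂
      ha₁ ha₂ hus hvs hub hvb r hr (hFs w)
    have hD : D.DataZero (min δ D.a) := by
      intro h hh σ hσ ω
      have hha : |h| < D.a := hh.trans_le (min_le_right _ _)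
      have hhd : |h| < δ := hh.trans_le (min_le_left _ _)
      obtain ⟨X, Y, hXY⟩ := hF D h hha
      refine hL D h X Y hha hXY σ hσ ?_ ω
      have h1 := hN D h X Y hha hXY σ hσ {z : ℝ × ℝ | e (z, w) ∈ frontier M}
        (hfm.preimage (by fun_prop : Continuous fun z : ℝ × ℝ => e (z, w)).measurable) (by
          rw [ae_iff] at hw
          simpa using hw)
      filter_upwards [h1] with c hc
      refine hS E W e G U V hG (hU.differentiable (by simp)) (hV.differentiable (by simp)) hLio M f
        h₀ δ hMc hf hZ D h σ c X Y w hha hhd hXY hσ (fun z hz => ⟨?_, ?_⟩) ?_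
      · exact huM _ ⟨z, hz, rfl⟩
      · filter_upwards [hvM _ ⟨z, hz, rfl⟩] with t ht
        show v t = V t + h₀
        rw [ht]
        ring
      · filter_upwards [hc] with τ hτ
        exact hτ
    have h2 := hC D (min δ D.a) (lt_min hδ D.a0) hD
    filter_upwards [h2] with z hz
    have h3 : M.indicator f (e (z, w)) * (u z.1 + v z.2) = 0 := hz
    rcases mul_eq_zero.1 h3 with h4 | h4
    · exact h4
    · have h5 := (hub z.1).1
      have h6 := (hvb z.2).1
      linarith
  have hfull : ∀ᵐ p : (ℝ × ℝ) × W, M.indicator f (e (p.1, p.2)) = 0 := by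
    have hset : MeasurableSet {p : (ℝ × ℝ) × W | M.indicator f (e (p.1, p.2)) = 0} :=
      (hind.comp e.continuous.measurable) (measurableSet_singleton 0)
    rw [Measure.volume_eq_prod]
    exact (Measure.ae_prod_iff_ae_ae hset).2 ((Measure.ae_ae_comm hset).2 hcore)
  -- the interior
  have hint : EqOn (fun p => f (e p)) (fun _ => (0 : ℝ)) (e ⁻¹' interior M) := by
    refine Measure.eqOn_open_of_ae_eq (μ := (volume : Measure ((ℝ × ℝ) × W))) ?_
      (isOpen_interior.preimage e.continuous) ?_ continuousOn_const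
    · filter_upwards [ae_restrict_of_ae hfull,
        ae_restrict_mem ((isOpen_interior.preimage e.continuous).measurableSet)] with p hp hpM
      rw [Set.indicator_of_mem (interior_subset hpM)] at hp
      exact hp
    · exact (hf.mono interior_subset).comp e.continuous.continuousOn (fun p hp => hp)
  have hint' : EqOn f (fun _ => (0 : ℝ)) (interior M) := fun z hz => by
    have h1 := hint (x := e.symm z) (by
      show e (e.symm z) ∈ interior M
      rwa [ContinuousLinearEquiv.apply_symm_apply])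
    simpa using h1
  have hcl : closure (interior M) ⊆ M :=
    (closure_mono interior_subset).trans hMc.isClosed.closure_eq.subset
  have hfin := hint'.of_subset_closure (hf.mono hcl) continuousOn_const subset_closure subset_rfl
  exact fun z hz => hfin hz

end Pool.Agent.LIO
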