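import Pool.Agent.LIO.Stmts

/-!
# Liouville metrics: the elementary facts about the square roots `p_x`, `p_y`
-/

set_option autoImplicit false

namespace Pool.Agent.LIO

open Complex MeasureTheory Set Filter Topology

namespace BAS1Aux

theorem sq (z : ℂ) : Complex.sqrt z ^ 2 = z := by
  rw [Complex.sqrt]
  exact cpow_nat_inv_pow z two_ne_zero

theorem re_nonneg (z : ℂ) : 0 ≤ (Complex.sqrt z).re := by
  rw [Complex.sqrt, Complex.cpow_inv_two_re]
  exact Real.sqrt_nonneg _

theorem im_nonneg (z : ℂ) (h : 0 ≤ z.im) : 0 ≤ (Complex.sqrt z).im := by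
  rw [Complex.sqrt, Complex.cpow_inv_two_im_eq_sqrt h]
  exact Real.sqrt_nonneg _

theorem norm_eq (z : ℂ) : ‖Complex.sqrt z‖ = √‖z‖ := by
  have h : ‖Complex.sqrt z‖ ^ 2 = ‖z‖ := by rw [← norm_pow, sq]
  rw [← h, Real.sqrt_sq (norm_nonneg _)]

/-- off the cut, the square root commutes with the conjugation -/
theorem conj_conj {z : ℂ} (hz : z ∈ slitPlane) :
    (starRingEnd ℂ) (Complex.sqrt ((starRingEnd ℂ) z)) = Complex.sqrt z := by
  rw [mem_slitPlane_iff_arg] at hz
  have h2 : (starRingEnd ℂ) (2⁻¹ : ℂ) = 2⁻¹ := by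
    rw [map_inv₀, map_ofNat]
  rw [Complex.sqrt, Complex.sqrt, ← cpow_conj _ _ hz.1, h2]

/-- the inverse of the norm of a square root -/
theorem inv_le {z : ℂ} {m : ℝ} (h0 : 0 < m) (h : m ≤ ‖z‖) :
    ‖(Complex.sqrt z)⁻¹‖ ≤ (√m)⁻¹ := by
  rw [norm_inv, norm_eq]
  exact inv_anti₀ (Real.sqrt_pos.2 h0) (Real.sqrt_le_sqrt h)

theorem hd {f : ℝ → ℝ} {f' x : ℝ} (c : ℂ) (hf : HasDerivAt f f' x)
    (h : (f x : ℂ) + c ∈ slitPlane) :
    HasDerivAt (fun t : ℝ => Complex.sqrt ((f t : ℂ) + c)) ((f' : ℂ) /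
      (2 * Complex.sqrt ((f x : ℂ) + c))) x := by
  have h1 := (hasDerivAt_sqrt h).comp x ((hf.ofReal_comp).add_const c)
  refine h1.congr_deriv ?_
  rw [show (-1 / 2 : ℂ) = -(2⁻¹) by norm_num, cpow_neg, Complex.sqrt]
  rw [div_eq_mul_inv, div_eq_mul_inv, mul_inv]
  ring

end BAS1Aux

open BAS1Aux

theorem bas1 : Stmt_BAS1 := by
  intro D
  -- the arguments
  have eim : ∀ (h : ℂ) (x : ℝ), ((D.U x : ℂ) - (starRingEnd ℂ) h).im = h.im := fun h x => by simp
  have fim : ∀ (h : ℂ) (y : ℝ), ((D.V y : ℂ) + h).im = h.im := fun h x => by simp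
  have econj : ∀ (h : ℂ) (x : ℝ), (starRingEnd ℂ) ((D.U x : ℂ) - h) =
      (D.U x : ℂ) - (starRingEnd ℂ) h := fun h x => by rw [map_sub, conj_ofReal]
  have ecc : ∀ (h : ℂ) (x : ℝ), (starRingEnd ℂ) ((D.U x : ℂ) - (starRingEnd ℂ) h) =
      (D.U x : ℂ) - h := fun h x => by rw [map_sub, conj_ofReal, Complex.conj_conj]
  have px_sq : ∀ h x, D.px h x ^ 2 = (D.U x : ℂ) - h := by
    intro h x
    rw [LD.px, ← map_pow, sq, ecc]
  have py_sq : ∀ h y, D.py h y ^ 2 = (D.V y : ℂ) + h := fun h y => sq _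
  have px_re : ∀ h x, 0 ≤ (D.px h x).re := by
    intro h x
    rw [LD.px, conj_re]
    exact re_nonneg _
  have py_re : ∀ h y, 0 ≤ (D.py h y).re := fun h y => re_nonneg _
  have px_im : ∀ h x, 0 ≤ h.im → (D.px h x).im ≤ 0 := by
    intro h x hh
    rw [LD.px, conj_im]
    have := im_nonneg ((D.U x : ℂ) - (starRingEnd ℂ) h) (by rw [eim]; exact hh)
    linarith
  have py_im : ∀ h y, 0 ≤ h.im → 0 ≤ (D.py h y).im := by
    intro h y hh
    exact im_nonneg _ (by rw [fim]; exact hh)
  have pxr : ∀ h x, (D.px h x).re * (D.px h x).re - (D.px h x).im * (D.px h x).im =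
      D.U x - h.re := by
    intro h x
    have := congrArg Complex.re (px_sq h x)
    rw [pow_two, mul_re, sub_re, ofReal_re] at this
    exact this
  have pxi : ∀ h x, (D.px h x).re * (D.px h x).im + (D.px h x).im * (D.px h x).re = -h.im := by
    intro h x
    have := congrArg Complex.im (px_sq h x)
    rw [pow_two, mul_im, sub_im, ofReal_im, zero_sub] at this
    exact this
  have pyr : ∀ h y, (D.py h y).re * (D.py h y).re - (D.py h y).im * (D.py h y).im =
      D.V y + h.re := by
    intro h y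
    have := congrArg Complex.re (py_sq h y)
    rw [pow_two, mul_re, add_re, ofReal_re] at this
    exact this
  have pyi : ∀ h y, (D.py h y).re * (D.py h y).im + (D.py h y).im * (D.py h y).re = h.im := by
    intro h y
    have := congrArg Complex.im (py_sq h y)
    rw [pow_two, mul_im, add_im, ofReal_im, zero_add] at this
    exact this
  have cje : ∀ (h : ℂ) (x : ℝ), ‖(D.U x : ℂ) - (starRingEnd ℂ) h‖ = ‖(D.U x : ℂ) - h‖ := by
    intro h x
    rw [← econj, norm_conj]
  have pxn : ∀ h x, ‖D.px h x‖ = √‖(D.U x : ℂ) - h‖ := by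
    intro h x
    rw [LD.px, norm_conj, norm_eq, cje]
  have pxinv : ∀ (h : ℂ) (x m : ℝ), 0 < m → m ≤ ‖(D.U x : ℂ) - h‖ → ‖(D.px h x)⁻¹‖ ≤ (√m)⁻¹ := by
    intro h x m h0 h1
    rw [norm_inv, pxn]
    exact inv_anti₀ (Real.sqrt_pos.2 h0) (Real.sqrt_le_sqrt h1)
  have slx : ∀ (h : ℂ) (x : ℝ), (h.im ≠ 0 ∨ h.re < D.a) → (D.U x : ℂ) - h ∈ slitPlane := by
    intro h x hh
    rw [mem_slitPlane_iff]
    rcases hh with hh | hh
    · right
      rw [sub_im, ofReal_im, zero_sub]
      exact neg_ne_zero.2 hh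
    · left
      rw [sub_re, ofReal_re]
      have := D.Ua x
      linarith
  have sly : ∀ (h : ℂ) (y : ℝ), (h.im ≠ 0 ∨ -D.a < h.re) → (D.V y : ℂ) + h ∈ slitPlane := by
    intro h y hh
    rw [mem_slitPlane_iff]
    rcases hh with hh | hh
    · right
      rw [fim]
      exact hh
    · left
      rw [add_re, ofReal_re]
      have := D.Va y
      linarith
  have pxs : ∀ (h : ℂ) (x : ℝ), (h.im ≠ 0 ∨ h.re < D.a) →
      D.px h x = Complex.sqrt ((D.U x : ℂ) - h) := by
    intro h x hh
    rw [LD.px, ← econj, BAS1Aux.conj_conj (slx h x hh)]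
  have cont : ∀ z : ℝ → ℂ, Continuous z → ∀ c : ℝ, (∀ t, (z t).im = c) →
      Continuous (fun t => Complex.sqrt (z t)) := by
    intro z hz c hc
    have h1 : (fun t => Complex.sqrt (z t)) = fun t => ((√((‖z t‖ + (z t).re) / 2) : ℝ) : ℂ) +
        (if 0 ≤ c then 1 else -1) * ((√((‖z t‖ - (z t).re) / 2) : ℝ) : ℂ) * I := by
      funext t
      rw [Complex.sqrt_eq_real_add_ite, hc t]
    rw [h1]
    fun_prop
  have lim : ∀ z : ℝ → ℂ, Continuous z → (∀ t, 0 ≤ t → 0 ≤ (z t).im) →
      Tendsto (fun t => Complex.sqrt (z t)) (𝓝[>] 0) (𝓝 (Complex.sqrt (z 0))) := by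
    intro z hz hc
    have h1 : Continuous fun t => ((√((‖z t‖ + (z t).re) / 2) : ℝ) : ℂ) +
        ((√((‖z t‖ - (z t).re) / 2) : ℝ) : ℂ) * I := by fun_prop
    have h2 : ∀ t, 0 ≤ t → Complex.sqrt (z t) = ((√((‖z t‖ + (z t).re) / 2) : ℝ) : ℂ) +
        ((√((‖z t‖ - (z t).re) / 2) : ℝ) : ℂ) * I := by
      intro t ht
      rw [Complex.sqrt_eq_real_add_ite, if_pos (hc t ht), one_mul]
    rw [h2 0 le_rfl]
    refine ((h1.tendsto 0).mono_left nhdsWithin_le_nhds).congr' ?_
    filter_upwards [self_mem_nhdsWithin] with t ht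
    exact (h2 t (le_of_lt ht)).symm
  have hdU : ∀ x, HasDerivAt D.U (deriv D.U x) x := fun x =>
    (D.Us.differentiable (by simp)).differentiableAt.hasDerivAt
  have hdV : ∀ x, HasDerivAt D.V (deriv D.V x) x := fun x =>
    (D.Vs.differentiable (by simp)).differentiableAt.hasDerivAt
  have cU : Continuous D.U := D.Us.continuous
  have cV : Continuous D.V := D.Vs.continuous
  refine
    { px_sq := px_sq
      py_sq := py_sq
      px_re := px_re
      py_re := py_re
      px_im := px_im
      py_im := py_im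
      px_up := ?_
      py_up := ?_
      px_low := ?_
      py_low := ?_
      px_norm := pxn
      py_norm := fun h y => norm_eq _
      pxi_w := ?_
      pxi_im := ?_
      pyi_im := ?_
      pxi_low := ?_
      pyi_low := ?_
      px_real := ?_
      px_ev := ?_
      py_real := ?_
      px_diff := ?_
      py_diff := ?_
      px_lim := ?_
      py_lim := ?_
      px_cont := ?_
      py_cont := ?_
      px_hd := ?_
      py_hd := ?_
      px_swap := ?_
      py_swap := ?_ }
  · intro h x hh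
    have h1 := px_re h x
    have h2 := px_im h x hh.le
    have h3 := pxi h x
    constructor
    · rcases h1.lt_or_eq with h4 | h4
      · exact h4
      · rw [← h4] at h3
        linarith
    · rcases h2.lt_or_eq with h4 | h4
      · exact h4
      · rw [h4] at h3
        linarith
  · intro h y hh
    have h1 := py_re h y
    have h2 := py_im h y hh.le
    have h3 := pyi h y
    constructor
    · rcases h1.lt_or_eq with h4 | h4
      · exact h4
      · rw [← h4] at h3
        linarith
    · rcases h2.lt_or_eq with h4 | h4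
      · exact h4
      · rw [← h4] at h3
        linarith
  · intro h x hh
    have h1 := px_re h x
    have h3 := pxr h x
    have h5 := D.Ua x
    rcases h1.lt_or_eq with h4 | h4
    · exact h4
    · rw [← h4] at h3
      have := mul_self_nonneg (D.px h x).im
      linarith
  · intro h y hh
    have h1 := py_re h y
    have h3 := pyr h y
    have h5 := D.Va y
    rcases h1.lt_or_eq with h4 | h4
    · exact h4
    · rw [← h4] at h3
      have := mul_self_nonneg (D.py h y).im
      linarith
  · intro h x hh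
    refine pxinv h x _ (abs_pos.2 (sub_ne_zero.2 hh)) ?_
    have := abs_re_le_norm ((D.U x : ℂ) - h)
    rwa [sub_re, ofReal_re] at this
  · intro h x hh
    refine pxinv h x _ hh ?_
    have := abs_im_le_norm ((D.U x : ℂ) - h)
    rw [sub_im, ofReal_im, zero_sub, abs_neg] at this
    exact (le_abs_self _).trans this
  · intro h y hh
    refine inv_le hh ?_
    have := abs_im_le_norm ((D.V y : ℂ) + h)
    rw [fim] at this
    exact (le_abs_self _).trans this
  · intro h x hh
    refine pxinv h x _ (by linarith) ?_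
    have := re_le_norm ((D.U x : ℂ) - h)
    rw [sub_re, ofReal_re] at this
    have := D.Ua x
    linarith
  · intro h y hh
    refine inv_le (by linarith) ?_
    have := re_le_norm ((D.V y : ℂ) + h)
    rw [add_re, ofReal_re] at this
    have := D.Va y
    linarith
  · intro k x hk
    rw [LD.px, conj_ofReal, ← ofReal_sub, Complex.sqrt_of_nonneg (by
      rw [zero_le_real]; linarith), ofReal_re, conj_ofReal]
  · intro k x hk
    rw [LD.px, conj_ofReal, show ((D.U x : ℂ) - k) = -((k - D.U x : ℝ) : ℂ) by push_cast; ring,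
      Complex.sqrt_neg_of_nonneg (by rw [zero_le_real]; linarith), Complex.sqrt_of_nonneg (by
      rw [zero_le_real]; linarith), ofReal_re, map_mul, conj_I, conj_ofReal]
  · intro k y hk
    have := D.Va y
    rw [LD.py, ← ofReal_add, Complex.sqrt_of_nonneg (by
      rw [zero_le_real]; linarith), ofReal_re]
  · intro h x hh
    have h1 : (fun h' => D.px h' x) =ᶠ[𝓝 h] fun h' => Complex.sqrt ((D.U x : ℂ) - h') := by
      have h2 : ∀ᶠ h' : ℂ in 𝓝 h, (D.U x : ℂ) - h' ∈ slitPlane := by
        have h3 : ContinuousAt (fun h' : ℂ => (D.U x : ℂ) - h') h := by fun_prop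
        exact h3.eventually (isOpen_slitPlane.mem_nhds (slx h x hh))
      filter_upwards [h2] with h' h3
      rw [LD.px, ← econj, BAS1Aux.conj_conj h3]
    refine DifferentiableAt.congr_of_eventuallyEq ?_ h1
    exact DifferentiableAt.comp h (differentiableAt_sqrt (slx h x hh)) (by fun_prop)
  · intro h y hh
    exact DifferentiableAt.comp h (differentiableAt_sqrt (sly h y hh)) (by fun_prop)
  · intro k x
    have h1 := lim (fun ε : ℝ => (D.U x : ℂ) - (starRingEnd ℂ) ((k : ℂ) + ε * I)) (by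
      fun_prop) (by intro t ht; rw [eim]; simpa using ht)
    have h2 := (continuous_conj.tendsto _).comp h1
    simp only [ofReal_zero, zero_mul, add_zero] at h2
    exact h2
  · intro k y
    have h1 := lim (fun ε : ℝ => (D.V y : ℂ) + ((k : ℂ) + ε * I)) (by
      fun_prop) (by intro t ht; rw [fim]; simpa using ht)
    simp only [ofReal_zero, zero_mul, add_zero] at h1
    exact h1
  · intro h
    refine continuous_conj.comp (cont (fun x => (D.U x : ℂ) - (starRingEnd ℂ) h) ?_ h.im
      (fun x => eim h x))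
    fun_prop
  · intro h
    refine cont (fun y => (D.V y : ℂ) + h) ?_ h.im (fun y => fim h y)
    fun_prop
  · intro h x hh
    have h1 : (fun t : ℝ => D.px h t) = fun t : ℝ => Complex.sqrt ((D.U t : ℂ) + (-h)) := by
      funext t
      rw [pxs h t hh, sub_eq_add_neg]
    have h2 := hd (-h) (hdU x) (by rw [← sub_eq_add_neg]; exact slx h x hh)
    rw [h1, pxs h x hh, sub_eq_add_neg]
    exact h2
  · intro h y hh
    exact hd h (hdV y) (sly h y hh)
  · intro h y
    show (starRingEnd ℂ) (Complex.sqrt ((D.V y : ℂ) - (starRingEnd ℂ) (-(starRingEnd ℂ) h))) =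
      (starRingEnd ℂ) (Complex.sqrt ((D.V y : ℂ) + h))
    rw [map_neg, Complex.conj_conj, sub_neg_eq_add]
  · intro h x
    show Complex.sqrt ((D.U x : ℂ) + (-(starRingEnd ℂ) h)) =
      (starRingEnd ℂ) ((starRingEnd ℂ) (Complex.sqrt ((D.U x : ℂ) - (starRingEnd ℂ) h)))
    rw [Complex.conj_conj, sub_eq_add_neg]

end Pool.Agent.LIO
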