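import Pool.Agent.LIO.Stmts

set_option autoImplicit false

namespace Pool.Agent.LIO

open Complex MeasureTheory Set Filter Topology

namespace BAS2Aux

lemma inv_re_nonneg' {z : ℂ} (h : 0 ≤ z.re) : 0 ≤ (z⁻¹).re := by
  rw [Complex.inv_re]
  exact div_nonneg h (normSq_nonneg z)

lemma inv_im_nonneg' {z : ℂ} (h : z.im ≤ 0) : 0 ≤ (z⁻¹).im := by
  rw [Complex.inv_im]
  exact div_nonneg (by linarith) (normSq_nonneg z)

lemma inv_im_nonpos' {z : ℂ} (h : 0 ≤ z.im) : (z⁻¹).im ≤ 0 := by
  rw [Complex.inv_im]
  exact div_nonpos_of_nonpos_of_nonneg (by linarith) (normSq_nonneg z)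

lemma inv_re_pos' {z : ℂ} (h : 0 < z.re) : 0 < (z⁻¹).re := by
  have hz : z ≠ 0 := by
    rintro rfl
    simp at h
  rw [Complex.inv_re]
  exact div_pos h (normSq_pos.2 hz)

lemma inv_im_pos' {z : ℂ} (h : z.im < 0) : 0 < (z⁻¹).im := by
  have hz : z ≠ 0 := by
    rintro rfl
    simp at h
  rw [Complex.inv_im]
  exact div_pos (by linarith) (normSq_pos.2 hz)

lemma inv_im_neg' {z : ℂ} (h : 0 < z.im) : (z⁻¹).im < 0 := by
  have hz : z ≠ 0 := by
    rintro rfl
    simp at h
  rw [Complex.inv_im]
  exact div_neg_of_neg_of_pos (by linarith) (normSq_pos.2 hz)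

lemma int_re {f : ℝ → ℂ} {a b : ℝ} (hf : IntervalIntegrable f volume a b) :
    (∫ x in a..b, f x).re = ∫ x in a..b, (f x).re :=
  (Complex.reCLM.intervalIntegral_comp_comm hf).symm

lemma int_im {f : ℝ → ℂ} {a b : ℝ} (hf : IntervalIntegrable f volume a b) :
    (∫ x in a..b, f x).im = ∫ x in a..b, (f x).im :=
  (Complex.imCLM.intervalIntegral_comp_comm hf).symm

lemma ii_re {f : ℝ → ℂ} {a b : ℝ} (hf : IntervalIntegrable f volume a b) :
    IntervalIntegrable (fun x => (f x).re) volume a b :=
  ⟨hf.1.re, hf.2.re⟩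

lemma ii_im {f : ℝ → ℂ} {a b : ℝ} (hf : IntervalIntegrable f volume a b) :
    IntervalIntegrable (fun x => (f x).im) volume a b :=
  ⟨hf.1.im, hf.2.im⟩

lemma int_conj (f : ℝ → ℂ) (a b : ℝ) :
    ∫ x in a..b, (starRingEnd ℂ) (f x) = (starRingEnd ℂ) (∫ x in a..b, f x) := by
  simp only [intervalIntegral, map_sub]
  rw [integral_conj, integral_conj]

/-- lower bound of an integral of a function bounded below -/
lemma int_ge {f : ℝ → ℝ} {a b c : ℝ} (hab : a ≤ b) (hf : IntervalIntegrable f volume a b)
    (h : ∀ x ∈ Icc a b, c ≤ f x) : c * (b - a) ≤ ∫ x in a..b, f x := by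
  have h2 : ∫ x in a..b, c ≤ ∫ x in a..b, f x :=
    intervalIntegral.integral_mono_on hab intervalIntegrable_const hf h
  rw [intervalIntegral.integral_const, smul_eq_mul] at h2
  linarith

lemma cont_min {f : ℝ → ℝ} (hf : Continuous f) (hpos : ∀ x, 0 < f x) (a b : ℝ) (hab : a ≤ b) :
    ∃ c > 0, ∀ x ∈ Icc a b, c ≤ f x := by
  obtain ⟨x₀, hx₀, hm⟩ := isCompact_Icc.exists_isMinOn (nonempty_Icc.2 hab) hf.continuousOn
  exact ⟨f x₀, hpos x₀, fun x hx => hm hx⟩

end BAS2Aux

open BAS2Aux in
theorem bas2 (hB1 : Stmt_BAS1) : Stmt_BAS2 := by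
  intro D
  have hB := hB1 D
  have R0 : 0 < D.R := D.r0.trans D.rR
  -- p_x, p_y do not vanish
  have adim : ∀ h, D.Ad h → 0 ≤ h.im := by
    intro h hh
    rcases hh with hh | hh
    · exact hh.le
    · exact hh.1.ge
  have ady : ∀ h, D.Ad h → (h.im ≠ 0 ∨ -D.a < h.re) := by
    intro h hh
    rcases hh with hh | hh
    · exact Or.inl hh.ne'
    · exact Or.inr hh.2.2
  have pyne : ∀ h s, (h.im ≠ 0 ∨ -D.a < h.re) → D.py h s ≠ 0 := by
    intro h s hh h0
    have h1 := hB.py_sq h s
    rw [h0] at h1
    have h2 : ((D.V s : ℂ) + h) = 0 := by rw [← h1]; simp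
    have hr := congrArg Complex.re h2
    have hi := congrArg Complex.im h2
    simp at hr hi
    rcases hh with hh | hh
    · exact hh hi
    · have := D.Va s
      linarith
  have conty : ∀ h, (h.im ≠ 0 ∨ -D.a < h.re) → Continuous (fun s => (D.py h s)⁻¹) := by
    intro h hh
    exact (hB.py_cont h).inv₀ fun s => pyne h s hh
  have contx : ∀ h, 0 < h.im → Continuous (fun s => (D.px h s)⁻¹) := by
    intro h hh
    refine (hB.px_cont h).inv₀ fun s h0 => ?_
    have := (hB.px_up h s hh).1
    rw [h0] at this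
    simp at this
  have intx : ∀ h, D.Ad h → IntervalIntegrable (fun s => (D.px h s)⁻¹) volume (-D.R) D.R := by
    intro h hh
    rcases hh with hh | ⟨_, hg, _⟩
    · exact (contx h hh).intervalIntegrable _ _
    · refine hg.int.mono_fun' ?_ ?_
      · exact ((hB.px_cont h).measurable.inv).aestronglyMeasurable
      · have h1 := hg.ne
        rw [uIoc_of_le (by linarith : -D.R ≤ D.R)]
        have h2 := ae_restrict_of_ae_restrict_of_subset (Ioc_subset_Icc_self) h1
        filter_upwards [h2] with x hx
        exact hB.pxi_w h x hx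
  have intx' : ∀ h x x', D.Ad h → x ∈ Icc (-D.R) D.R → x' ∈ Icc (-D.R) D.R →
      IntervalIntegrable (fun s => (D.px h s)⁻¹) volume x x' := by
    intro h x x' hh hx hx'
    refine (intx h hh).mono_set ?_
    rw [uIcc_of_le (by linarith : -D.R ≤ D.R)]
    exact uIcc_subset_Icc hx hx'
  have ixre : ∀ h s, 0 ≤ ((D.px h s)⁻¹).re := fun h s => inv_re_nonneg' (hB.px_re h s)
  have ixim : ∀ h s, 0 ≤ h.im → 0 ≤ ((D.px h s)⁻¹).im :=
    fun h s hh => inv_im_nonneg' (hB.px_im h s hh)
  have iyre : ∀ h s, 0 ≤ ((D.py h s)⁻¹).re := fun h s => inv_re_nonneg' (hB.py_re h s)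
  have iyim : ∀ h s, 0 ≤ h.im → ((D.py h s)⁻¹).im ≤ 0 :=
    fun h s hh => inv_im_nonpos' (hB.py_im h s hh)
  have iyre' : ∀ h s, D.Ad h → 0 < ((D.py h s)⁻¹).re := by
    intro h s hh
    apply inv_re_pos'
    rcases hh with hh | hh
    · exact (hB.py_up h s hh).1
    · exact hB.py_low h s hh.2.2
  have inty : ∀ h a b, D.Ad h → IntervalIntegrable (fun s => (D.py h s)⁻¹) volume a b :=
    fun h a b hh => (conty h (ady h hh)).intervalIntegrable a b
  -- the forms of ga, be
  have ga_le : ∀ h x x', x ≤ x' → D.ga h x x' = ∫ s in x..x', (D.px h s)⁻¹ := by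
    intro h x x' hx
    unfold LD.ga
    rw [min_eq_left hx, max_eq_right hx]
  have ga_ge : ∀ h x x', x' ≤ x → D.ga h x x' = ∫ s in x'..x, (D.px h s)⁻¹ := by
    intro h x x' hx
    unfold LD.ga
    rw [min_eq_right hx, max_eq_left hx]
  have be_pos : ∀ h y y', D.Ad h → y' ≤ y → 0 ≤ (D.be h y y').re ∧ (D.be h y y').im ≤ 0 := by
    intro h y y' hh hy
    unfold LD.be
    rw [int_re (inty h _ _ hh), int_im (inty h _ _ hh)]
    constructor
    · exact intervalIntegral.integral_nonneg hy fun s _ => iyre h s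
    · have := intervalIntegral.integral_nonneg (f := fun s => -((D.py h s)⁻¹).im) (μ := volume) hy
        fun s _ => by
          have := iyim h s (adim h hh)
          linarith
      rw [intervalIntegral.integral_neg] at this
      linarith
  have be_symm : ∀ h y y', D.be h y y' = -D.be h y' y := by
    intro h y y'
    unfold LD.be
    rw [intervalIntegral.integral_symm]
  have be_strict : ∀ h y y', D.Ad h → y' < y → 0 < (D.be h y y').re := by
    intro h y y' hh hy
    unfold LD.be
    rw [int_re (inty h _ _ hh)]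
    exact intervalIntegral.intervalIntegral_pos_of_pos (ii_re (inty h _ _ hh))
      (fun s => iyre' h s hh) hy
  have be_neg : ∀ h y y', D.Ad h → y ≤ y' → (D.be h y y').re ≤ 0 ∧ 0 ≤ (D.be h y y').im := by
    intro h y y' hh hy
    have := be_pos h y' y hh hy
    rw [be_symm h y y']
    simp only [neg_re, neg_im]
    constructor <;> linarith [this.1, this.2]
  have ga_quad : ∀ h x x', D.Ad h → x ∈ Icc (-D.R) D.R → x' ∈ Icc (-D.R) D.R →
      0 ≤ (D.ga h x x').re ∧ 0 ≤ (D.ga h x x').im := by
    intro h x x' hh hx hx'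
    rcases le_total x x' with hle | hle
    · rw [ga_le h x x' hle, int_re (intx' h _ _ hh hx hx'), int_im (intx' h _ _ hh hx hx')]
      exact ⟨intervalIntegral.integral_nonneg hle fun s _ => ixre h s,
        intervalIntegral.integral_nonneg hle fun s _ => ixim h s (adim h hh)⟩
    · rw [ga_ge h x x' hle, int_re (intx' h _ _ hh hx' hx), int_im (intx' h _ _ hh hx' hx)]
      exact ⟨intervalIntegral.integral_nonneg hle fun s _ => ixre h s,
        intervalIntegral.integral_nonneg hle fun s _ => ixim h s (adim h hh)⟩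
  have ga_up : ∀ h x x', 0 < h.im → x ≠ x' → 0 < (D.ga h x x').re ∧ 0 < (D.ga h x x').im := by
    intro h x x' hh hne
    have key : ∀ a b, a < b → 0 < (∫ s in a..b, (D.px h s)⁻¹).re ∧
        0 < (∫ s in a..b, (D.px h s)⁻¹).im := by
      intro a b hab
      have hi := (contx h hh).intervalIntegrable (μ := volume) a b
      rw [int_re hi, int_im hi]
      exact ⟨intervalIntegral.intervalIntegral_pos_of_pos (ii_re hi)
        (fun s => inv_re_pos' (hB.px_up h s hh).1) hab,
        intervalIntegral.intervalIntegral_pos_of_pos (ii_im hi)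
        (fun s => inv_im_pos' (hB.px_up h s hh).2) hab⟩
    rcases lt_or_gt_of_ne hne with hlt | hlt
    · rw [ga_le h x x' hlt.le]
      exact key _ _ hlt
    · rw [ga_ge h x x' hlt.le]
      exact key _ _ hlt
  have be_self : ∀ h y, D.be h y y = 0 := by
    intro h y
    unfold LD.be
    exact intervalIntegral.integral_same
  refine ⟨intx, conty, ?_, ?_, ga_quad, ga_up, be_pos, be_neg, be_strict, ?_, ?_, ?_, ?_, ?_⟩
  · -- ga_eq
    intro h x x' hh hx hx' hle
    have hm : -D.R ∈ Icc (-D.R) D.R := ⟨le_refl _, by linarith⟩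
    have e : (∫ s in x..x', (D.px h s)⁻¹) = D.AA h x' - D.AA h x := by
      unfold LD.AA
      rw [intervalIntegral.integral_interval_sub_left (intx' h _ _ hh hm hx')
        (intx' h _ _ hh hm hx)]
    rw [ga_le h x x' hle, ga_ge h x' x hle, e]
    exact ⟨rfl, rfl⟩
  · -- be_eq
    intro h y y' hh
    have hi : ∀ a b, IntervalIntegrable (fun s => (D.py h s)⁻¹) volume a b :=
      fun a b => (conty h hh).intervalIntegrable a b
    unfold LD.be LD.BB
    rw [intervalIntegral.integral_interval_sub_left (hi _ _) (hi _ _)]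
  · -- mem_DD
    intro h x x' y y' τ hh hx hx' hτ
    intro h0
    have hg := ga_quad h x x' hh hx hx'
    rcases hτ with rfl | rfl
    · simp only [ofReal_one, one_mul, add_re, add_im] at h0 ⊢
      rcases le_or_gt y' y with hy | hy
      · have hb := be_pos h y y' hh hy
        rcases hy.lt_or_eq with hlt | heq
        · have := be_strict h y y' hh hlt
          linarith [hg.1]
        · rw [heq, be_self]
          simp only [zero_im, add_zero]
          exact hg.2
      · have hb := be_neg h y y' hh hy.le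
        linarith [hg.2, hb.2]
    · simp only [ofReal_neg, ofReal_one, neg_mul, one_mul, add_re, add_im, neg_re, neg_im] at h0 ⊢
      rcases le_or_gt y y' with hy | hy
      · rcases hy.lt_or_eq with hlt | heq
        · have := be_strict h y' y hh hlt
          rw [be_symm h y y'] at h0
          simp only [neg_re] at h0
          linarith [hg.1]
        · rw [heq, be_self]
          simp only [zero_im, neg_zero, add_zero]
          exact hg.2
      · have hb := be_pos h y y' hh hy.le
        linarith [hg.2, hb.2]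
  · -- mem_up
    intro h x x' y y' τ hh hne hτ
    have hg := ga_up h x x' hh hne
    have hA : D.Ad h := Or.inl hh
    rcases hτ with rfl | rfl
    · simp only [ofReal_one, one_mul, add_re, add_im]
      rcases le_total y' y with hy | hy
      · have hb := be_pos h y y' hA hy
        left
        exact ne_of_gt (by linarith [hg.1, hb.1])
      · have hb := be_neg h y y' hA hy
        right
        linarith [hg.2, hb.2]
    · simp only [ofReal_neg, ofReal_one, neg_mul, one_mul, add_re, add_im, neg_re, neg_im]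
      rcases le_total y y' with hy | hy
      · have hb := be_neg h y y' hA hy
        left
        exact ne_of_gt (by linarith [hg.1, hb.1])
      · have hb := be_pos h y y' hA hy
        right
        linarith [hg.2, hb.2]
  · -- lower
    intro h hh
    have hA : D.Ad h := Or.inl hh
    have hRR : -D.R ≤ D.R := by linarith
    have cx := contx h hh
    have cy := conty h (Or.inl hh.ne')
    obtain ⟨c1, c1p, hc1⟩ := cont_min (Complex.continuous_re.comp cx)
      (fun s => inv_re_pos' (hB.px_up h s hh).1) (-D.R) D.R hRR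
    obtain ⟨c2, c2p, hc2⟩ := cont_min (Complex.continuous_im.comp cx)
      (fun s => inv_im_pos' (hB.px_up h s hh).2) (-D.R) D.R hRR
    obtain ⟨c3, c3p, hc3⟩ := cont_min (Complex.continuous_re.comp cy)
      (fun s => inv_re_pos' (hB.py_up h s hh).1) (-D.R) D.R hRR
    obtain ⟨c4, c4p, hc4⟩ := cont_min ((Complex.continuous_im.comp cy).neg)
      (fun s => by
        have := inv_im_neg' (hB.py_up h s hh).2
        simpa using this) (-D.R) D.R hRR
    simp only [Function.comp_apply] at hc1 hc2 hc3 hc4
    set c := min (min c1 c2) (min c3 c4) with hc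
    have l1 : c ≤ c1 := (min_le_left _ _).trans (min_le_left _ _)
    have l2 : c ≤ c2 := (min_le_left _ _).trans (min_le_right _ _)
    have l3 : c ≤ c3 := (min_le_right _ _).trans (min_le_left _ _)
    have l4 : c ≤ c4 := (min_le_right _ _).trans (min_le_right _ _)
    have cp : 0 < c := lt_min (lt_min c1p c2p) (lt_min c3p c4p)
    refine ⟨c, cp, ?_⟩
    intro x x' y y' τ hx hx' hy hy' hτ
    -- bounds for ga
    have gkey : ∀ a b, a ∈ Icc (-D.R) D.R → b ∈ Icc (-D.R) D.R → a ≤ b →
        c * (b - a) ≤ (∫ s in a..b, (D.px h s)⁻¹).re ∧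
        c * (b - a) ≤ (∫ s in a..b, (D.px h s)⁻¹).im := by
      intro a b ha hb hab
      have hi := cx.intervalIntegrable (μ := volume) a b
      rw [int_re hi, int_im hi]
      exact ⟨int_ge hab (ii_re hi) fun s hs =>
          l1.trans (hc1 s ⟨ha.1.trans hs.1, hs.2.trans hb.2⟩),
        int_ge hab (ii_im hi) fun s hs =>
          l2.trans (hc2 s ⟨ha.1.trans hs.1, hs.2.trans hb.2⟩)⟩
    have bkey : ∀ a b, a ∈ Icc (-D.R) D.R → b ∈ Icc (-D.R) D.R → a ≤ b →
        c * (b - a) ≤ (∫ s in a..b, (D.py h s)⁻¹).re ∧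
        c * (b - a) ≤ -(∫ s in a..b, (D.py h s)⁻¹).im := by
      intro a b ha hb hab
      have hi := cy.intervalIntegrable (μ := volume) a b
      rw [int_re hi, int_im hi, ← intervalIntegral.integral_neg]
      exact ⟨int_ge hab (ii_re hi) fun s hs =>
          l3.trans (hc3 s ⟨ha.1.trans hs.1, hs.2.trans hb.2⟩),
        int_ge hab (ii_im hi).neg fun s hs =>
          l4.trans (hc4 s ⟨ha.1.trans hs.1, hs.2.trans hb.2⟩)⟩
    have hg : c * |x - x'| ≤ (D.ga h x x').re ∧ c * |x - x'| ≤ (D.ga h x x').im := by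
      rcases le_total x x' with hle | hle
      · rw [ga_le h x x' hle, abs_of_nonpos (by linarith : x - x' ≤ 0), neg_sub]
        exact gkey x x' hx hx' hle
      · rw [ga_ge h x x' hle, abs_of_nonneg (by linarith : 0 ≤ x - x')]
        exact gkey x' x hx' hx hle
    have re_le : ∀ ζ : ℂ, ζ.re ≤ ‖ζ‖ := fun ζ => (le_abs_self _).trans (Complex.abs_re_le_norm ζ)
    have im_le : ∀ ζ : ℂ, ζ.im ≤ ‖ζ‖ := fun ζ => (le_abs_self _).trans (Complex.abs_im_le_norm ζ)
    rcases le_total y' y with hle | hle
    · have hb : c * |y - y'| ≤ (D.be h y y').re ∧ c * |y - y'| ≤ -(D.be h y y').im := by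
        rw [abs_of_nonneg (by linarith : 0 ≤ y - y')]
        exact bkey y' y hy' hy hle
      rcases hτ with rfl | rfl
      · refine le_trans ?_ (re_le _)
        simp only [ofReal_one, one_mul, add_re]
        linarith [hg.1, hb.1]
      · refine le_trans ?_ (im_le _)
        simp only [ofReal_neg, ofReal_one, neg_mul, one_mul, add_im, neg_im]
        linarith [hg.2, hb.2]
    · have hb : c * |y - y'| ≤ -(D.be h y y').re ∧ c * |y - y'| ≤ (D.be h y y').im := by
        rw [abs_of_nonpos (by linarith : y - y' ≤ 0), neg_sub, be_symm h y y']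
        simp only [neg_re, neg_im, neg_neg]
        exact bkey y y' hy hy' hle
      rcases hτ with rfl | rfl
      · refine le_trans ?_ (im_le _)
        simp only [ofReal_one, one_mul, add_im]
        linarith [hg.2, hb.2]
      · refine le_trans ?_ (re_le _)
        simp only [ofReal_neg, ofReal_one, neg_mul, one_mul, add_re, neg_re]
        linarith [hg.1, hb.1]
  · -- ga_swap
    intro h y y' hh
    have e : ∀ a b, (∫ s in a..b, (D.swap.px (-(starRingEnd ℂ) h) s)⁻¹) =
        (starRingEnd ℂ) (∫ s in a..b, (D.py h s)⁻¹) := by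
      intro a b
      rw [← int_conj]
      refine intervalIntegral.integral_congr fun s _ => ?_
      simp only [hB.px_swap h s, map_inv₀]
    unfold LD.ga
    rw [e]
    split_ifs with hy
    · rw [min_eq_right hy, max_eq_left hy]
      rfl
    · have hy' : y ≤ y' := le_of_not_ge hy
      rw [min_eq_left hy', max_eq_right hy']
      unfold LD.be
      rw [intervalIntegral.integral_symm y' y]
  · -- be_swap
    intro h x x' hh
    have e : ∀ a b, (∫ s in a..b, (D.swap.py (-(starRingEnd ℂ) h) s)⁻¹) =
        (starRingEnd ℂ) (∫ s in a..b, (D.px h s)⁻¹) := by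
      intro a b
      rw [← int_conj]
      refine intervalIntegral.integral_congr fun s _ => ?_
      simp only [hB.py_swap h s, map_inv₀]
    unfold LD.be
    rw [e]
    split_ifs with hx
    · rw [ga_le h x x' hx, intervalIntegral.integral_symm x x']
    · rw [ga_ge h x x' (le_of_not_ge hx)]

end Pool.Agent.LIO
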