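import Pool.Agent.LIO.Stmts
import Pool.Agent.Lib_helper92.XRay.Hol

/-!
# Module BAS3: limits and holomorphy of the phases
-/

set_option autoImplicit false

namespace Pool.Agent.LIO

open Complex MeasureTheory Set Filter Topology

namespace BAS3Aux

variable {D : LD}

/-- A ball on which `U s - w` is bounded below. -/
theorem ball_x (D : LD) (h : ℂ) (hh : h.im ≠ 0 ∨ h.re < D.a) : ∃ ε > 0, ∃ c > 0,
    ∀ w ∈ Metric.ball h ε, (w.im ≠ 0 ∨ w.re < D.a) ∧ ∀ s, c ≤ ‖(D.U s : ℂ) - w‖ := by
  rcases hh with hh | hh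
  · refine ⟨|h.im| / 2, by positivity, |h.im| / 2, by positivity, fun w hw => ?_⟩
    rw [Metric.mem_ball, dist_eq_norm] at hw
    have h1 : |(w - h).im| ≤ ‖w - h‖ := Complex.abs_im_le_norm _
    rw [Complex.sub_im] at h1
    have h2 : |h.im| / 2 < |w.im| := by
      have := abs_sub_abs_le_abs_sub h.im w.im
      rw [abs_sub_comm] at this
      linarith
    refine ⟨Or.inl fun h0 => ?_, fun s => ?_⟩
    · rw [h0, abs_zero] at h2
      have : 0 < |h.im| := abs_pos.2 hh
      linarith
    · have h3 : |((D.U s : ℂ) - w).im| ≤ ‖(D.U s : ℂ) - w‖ := Complex.abs_im_le_norm _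
      rw [Complex.sub_im, Complex.ofReal_im, zero_sub, abs_neg] at h3
      linarith
  · refine ⟨(D.a - h.re) / 2, by linarith, (D.a - h.re) / 2, by linarith, fun w hw => ?_⟩
    rw [Metric.mem_ball, dist_eq_norm] at hw
    have h1 : |(w - h).re| ≤ ‖w - h‖ := Complex.abs_re_le_norm _
    rw [Complex.sub_re] at h1
    have h2 := le_abs_self (w.re - h.re)
    refine ⟨Or.inr (by linarith), fun s => ?_⟩
    have h3 : |((D.U s : ℂ) - w).re| ≤ ‖(D.U s : ℂ) - w‖ := Complex.abs_re_le_norm _
    rw [Complex.sub_re, Complex.ofReal_re] at h3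
    have h4 := le_abs_self (D.U s - w.re)
    have h5 := D.Ua s
    linarith

/-- A ball on which `V s + w` is bounded below. -/
theorem ball_y (D : LD) (h : ℂ) (hh : h.im ≠ 0 ∨ -D.a < h.re) : ∃ ε > 0, ∃ c > 0,
    ∀ w ∈ Metric.ball h ε, (w.im ≠ 0 ∨ -D.a < w.re) ∧ ∀ s, c ≤ ‖(D.V s : ℂ) + w‖ := by
  rcases hh with hh | hh
  · refine ⟨|h.im| / 2, by positivity, |h.im| / 2, by positivity, fun w hw => ?_⟩
    rw [Metric.mem_ball, dist_eq_norm] at hw
    have h1 : |(w - h).im| ≤ ‖w - h‖ := Complex.abs_im_le_norm _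
    rw [Complex.sub_im] at h1
    have h2 : |h.im| / 2 < |w.im| := by
      have := abs_sub_abs_le_abs_sub h.im w.im
      rw [abs_sub_comm] at this
      linarith
    refine ⟨Or.inl fun h0 => ?_, fun s => ?_⟩
    · rw [h0, abs_zero] at h2
      have : 0 < |h.im| := abs_pos.2 hh
      linarith
    · have h3 : |((D.V s : ℂ) + w).im| ≤ ‖(D.V s : ℂ) + w‖ := Complex.abs_im_le_norm _
      rw [Complex.add_im, Complex.ofReal_im, zero_add] at h3
      linarith
  · refine ⟨(D.a + h.re) / 2, by linarith, (D.a + h.re) / 2, by linarith, fun w hw => ?_⟩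
    rw [Metric.mem_ball, dist_eq_norm] at hw
    have h1 : |(w - h).re| ≤ ‖w - h‖ := Complex.abs_re_le_norm _
    rw [Complex.sub_re] at h1
    have h2 := neg_abs_le (w.re - h.re)
    refine ⟨Or.inr (by linarith), fun s => ?_⟩
    have h3 : |((D.V s : ℂ) + w).re| ≤ ‖(D.V s : ℂ) + w‖ := Complex.abs_re_le_norm _
    rw [Complex.add_re, Complex.ofReal_re] at h3
    have h4 := le_abs_self (D.V s + w.re)
    have h5 := D.Va s
    linarith

theorem inv_sqrt_le {c t : ℝ} (hc : 0 < c) (h : c ≤ t) : (√t)⁻¹ ≤ (√c)⁻¹ :=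
  inv_anti₀ (Real.sqrt_pos.2 hc) (Real.sqrt_le_sqrt h)

theorem px_ne (B1 : Bas1 D) {h : ℂ} {s : ℝ} (hs : 0 < ‖(D.U s : ℂ) - h‖) : D.px h s ≠ 0 := by
  rw [← norm_pos_iff, B1.px_norm]
  exact Real.sqrt_pos.2 hs

theorem py_ne (B1 : Bas1 D) {h : ℂ} {s : ℝ} (hs : 0 < ‖(D.V s : ℂ) + h‖) : D.py h s ≠ 0 := by
  rw [← norm_pos_iff, B1.py_norm]
  exact Real.sqrt_pos.2 hs

theorem minmax_mem {x x' R : ℝ} (hx : x ∈ Icc (-R) R) (hx' : x' ∈ Icc (-R) R) :
    Set.uIoc (min x x') (max x x') ⊆ Ioc (-R) R := by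
  intro s hs
  rw [Set.uIoc_of_le min_le_max] at hs
  exact ⟨lt_of_le_of_lt (le_min hx.1 hx'.1) hs.1, hs.2.trans (max_le hx.2 hx'.2)⟩

theorem ae_ne {k : ℝ} (hG : D.Gd k) : ∀ᵐ s ∂volume, s ∈ Icc (-D.R) D.R → D.U s ≠ k :=
  (ae_restrict_iff' measurableSet_Icc).1 hG.ne

theorem int_mono {k : ℝ} (hG : D.Gd k) {x x' : ℝ} (hx : x ∈ Icc (-D.R) D.R)
    (hx' : x' ∈ Icc (-D.R) D.R) :
    IntervalIntegrable (D.wU k) volume (min x x') (max x x') := by
  refine hG.int.mono_set ?_
  rw [Set.uIcc_of_le min_le_max, Set.uIcc_of_le (by linarith [hx.1, hx.2])]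
  exact Icc_subset_Icc (le_min hx.1 hx'.1) (max_le hx.2 hx'.2)

theorem re_eq (k ε : ℝ) : ((k : ℂ) + ε * I).re = k := by simp

theorem abs_minmax (x x' : ℝ) : |max x x' - min x x'| = |x - x'| := by
  rw [max_sub_min_eq_abs, abs_abs, abs_sub_comm]

end BAS3Aux

open BAS3Aux in
/-- **Module BAS3** -/
theorem bas3 (hB1 : Stmt_BAS1) (hB2 : Stmt_BAS2) : Stmt_BAS3 := by
  intro D
  have B1 := hB1 D
  have B2 := hB2 D
  have hRR : -D.R ≤ D.R := by linarith [D.r0, D.rR]
  refine ⟨?_, ?_, ?_, ?_, ?_, ?_, ?_, ?_, ?_, ?_⟩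
  · intro h x x' hh
    obtain ⟨ε, hε, c, hc, hw⟩ := ball_x D h hh
    refine XRay.differentiableAt_intervalIntegral hε (G := fun w s => (D.px w s)⁻¹)
      (B := fun _ => (√c)⁻¹) ?_ ?_ intervalIntegrable_const ?_
    · intro z hz
      exact (B1.px_cont z).measurable.inv.aestronglyMeasurable
    · refine ae_of_all _ fun s => ?_
      intro z hz
      refine ((B1.px_diff z s (hw z hz).1).inv ?_).differentiableWithinAt
      exact px_ne B1 (lt_of_lt_of_le hc ((hw z hz).2 s))
    · refine ae_of_all _ fun s => ?_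
      intro z hz
      rw [norm_inv, B1.px_norm]
      exact inv_sqrt_le hc ((hw z hz).2 s)
  · intro h y y' hh
    obtain ⟨ε, hε, c, hc, hw⟩ := ball_y D h hh
    refine XRay.differentiableAt_intervalIntegral hε (G := fun w s => (D.py w s)⁻¹)
      (B := fun _ => (√c)⁻¹) ?_ ?_ intervalIntegrable_const ?_
    · intro z hz
      exact (B1.py_cont z).measurable.inv.aestronglyMeasurable
    · refine ae_of_all _ fun s => ?_
      intro z hz
      refine ((B1.py_diff z s (hw z hz).1).inv ?_).differentiableWithinAt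
      exact py_ne B1 (lt_of_lt_of_le hc ((hw z hz).2 s))
    · refine ae_of_all _ fun s => ?_
      intro z hz
      rw [norm_inv, B1.py_norm]
      exact inv_sqrt_le hc ((hw z hz).2 s)
  · intro k x x' hG hx hx'
    unfold LD.ga
    refine intervalIntegral.tendsto_integral_filter_of_dominated_convergence (D.wU k) ?_ ?_
      (int_mono hG hx hx') ?_
    · exact Eventually.of_forall fun ε => (B1.px_cont _).measurable.inv.aestronglyMeasurable
    · refine Eventually.of_forall fun ε => ?_
      filter_upwards [ae_ne hG] with s hs hsm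
      have h1 := hs (Ioc_subset_Icc_self (minmax_mem hx hx' hsm))
      have h2 := B1.pxi_w ((k : ℂ) + ε * I) s (by rw [re_eq]; exact h1)
      rw [re_eq] at h2
      exact h2
    · filter_upwards [ae_ne hG] with s hs hsm
      have h1 := hs (Ioc_subset_Icc_self (minmax_mem hx hx' hsm))
      refine (B1.px_lim k s).inv₀ (px_ne B1 ?_)
      rw [norm_pos_iff, sub_ne_zero]
      exact_mod_cast h1
  · intro k y y' hk
    unfold LD.be
    refine intervalIntegral.tendsto_integral_filter_of_dominated_convergence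
      (fun _ => (√(D.a + k))⁻¹) ?_ ?_ intervalIntegrable_const ?_
    · exact Eventually.of_forall fun ε => (B1.py_cont _).measurable.inv.aestronglyMeasurable
    · refine Eventually.of_forall fun ε => ae_of_all _ fun s _ => ?_
      have h2 := B1.pyi_low ((k : ℂ) + ε * I) s (by rw [re_eq]; exact hk)
      rw [re_eq] at h2
      exact h2
    · refine ae_of_all _ fun s _ => ?_
      refine (B1.py_lim k s).inv₀ ?_
      intro h0
      have h1 := B1.py_low (k : ℂ) s (by rw [Complex.ofReal_re]; exact hk)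
      rw [h0] at h1
      simp at h1
  · intro h x x' hh
    unfold LD.ga
    have h1 := intervalIntegral.norm_integral_le_of_norm_le_const (a := min x x')
      (b := max x x') (f := fun s => (D.px h s)⁻¹) (C := (√h.im)⁻¹)
      (fun s _ => B1.pxi_im h s hh)
    rw [abs_minmax, mul_comm] at h1
    exact h1
  · intro h y y' hh
    unfold LD.be
    have h1 := intervalIntegral.norm_integral_le_of_norm_le_const (a := y')
      (b := y) (f := fun s => (D.py h s)⁻¹) (C := (√h.im)⁻¹)
      (fun s _ => B1.pyi_im h s hh)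
    rw [mul_comm] at h1
    exact h1
  · intro h y y' hh
    unfold LD.be
    have h1 := intervalIntegral.norm_integral_le_of_norm_le_const (a := y')
      (b := y) (f := fun s => (D.py h s)⁻¹) (C := (√(D.a + h.re))⁻¹)
      (fun s _ => B1.pyi_low h s hh)
    rw [mul_comm] at h1
    exact h1
  · intro k ε x x' hG hε hx hx'
    unfold LD.ga
    have hw0 : ∀ s, 0 ≤ D.wU k s := fun s => inv_nonneg.2 (Real.sqrt_nonneg _)
    have h1 : ‖∫ s in (min x x')..(max x x'), (D.px ((k : ℂ) + ε * I) s)⁻¹‖ ≤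
        ∫ s in (min x x')..(max x x'), D.wU k s := by
      refine intervalIntegral.norm_integral_le_of_norm_le min_le_max ?_ (int_mono hG hx hx')
      filter_upwards [ae_ne hG] with s hs hsm
      have hsm' : s ∈ Set.uIoc (min x x') (max x x') := by
        rw [Set.uIoc_of_le min_le_max]; exact hsm
      have h1 := hs (Ioc_subset_Icc_self (minmax_mem hx hx' hsm'))
      have h2 := B1.pxi_w ((k : ℂ) + ε * I) s (by rw [re_eq]; exact h1)
      rw [re_eq] at h2
      exact h2
    refine h1.trans ?_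
    exact intervalIntegral.integral_mono_interval (le_min hx.1 hx'.1) min_le_max
      (max_le hx.2 hx'.2) (ae_of_all _ hw0) hG.int
  · intro h hA
    have hint := B2.intx h hA
    have hc : ContinuousOn (D.AA h) (Icc (-D.R) D.R) := by
      have := intervalIntegral.continuousOn_primitive_interval (f := fun s => (D.px h s)⁻¹)
        (μ := volume) (a := -D.R) (b := D.R) (by
          rw [Set.uIcc_of_le hRR]
          exact (intervalIntegrable_iff_integrableOn_Icc_of_le hRR).1 hint)
      rw [Set.uIcc_of_le hRR] at this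
      exact this
    have hmeas : D.nu.prod D.nu =
        (volume : Measure (ℝ × ℝ)).restrict (Icc (-D.R) D.R ×ˢ Icc (-D.R) D.R) := by
      unfold LD.nu
      rw [Measure.prod_restrict]
      rfl
    rw [hmeas]
    have h1 : ContinuousOn (fun z : ℝ × ℝ => D.AA h (max z.1 z.2) - D.AA h (min z.1 z.2))
        (Icc (-D.R) D.R ×ˢ Icc (-D.R) D.R) := by
      refine ContinuousOn.sub (hc.comp (continuous_fst.max continuous_snd).continuousOn ?_)
        (hc.comp (continuous_fst.min continuous_snd).continuousOn ?_)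
      · rintro ⟨x, x'⟩ ⟨hx, hx'⟩
        exact ⟨hx.1.trans (le_max_left _ _), max_le hx.2 hx'.2⟩
      · rintro ⟨x, x'⟩ ⟨hx, hx'⟩
        exact ⟨le_min hx.1 hx'.1, (min_le_left _ _).trans hx.2⟩
    refine (h1.aestronglyMeasurable (measurableSet_Icc.prod measurableSet_Icc)).congr ?_
    refine (ae_restrict_iff' (measurableSet_Icc.prod measurableSet_Icc)).2 (ae_of_all _ ?_)
    rintro ⟨x, x'⟩ ⟨hx, hx'⟩
    simp only at hx hx' ⊢
    rcases le_total x x' with hle | hle
    · rw [max_eq_right hle, min_eq_left hle]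
      exact (B2.ga_eq h x x' hA hx hx' hle).1.symm
    · rw [max_eq_left hle, min_eq_right hle]
      exact (B2.ga_eq h x' x hA hx' hx hle).2.symm
  · intro h hA
    have hh : h.im ≠ 0 ∨ -D.a < h.re := by
      rcases hA with h1 | ⟨h1, h2, h3⟩
      · exact Or.inl h1.ne'
      · exact Or.inr h3
    have hc : Continuous (D.BB h) :=
      intervalIntegral.continuous_primitive (fun a b => (B2.conty h hh).intervalIntegrable a b) _
    have h1 : (fun z : ℝ × ℝ => D.be h z.1 z.2) = fun z : ℝ × ℝ => D.BB h z.1 - D.BB h z.2 := by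
      funext z
      exact B2.be_eq h z.1 z.2 hh
    rw [h1]
    exact ((hc.comp continuous_fst).sub (hc.comp continuous_snd)).measurable

end Pool.Agent.LIO
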