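import Pool.Agent.LIO.Stmts

/-!
# Liouville metrics: module CONST, the functionals do not depend on `h`
-/

set_option autoImplicit false

namespace Pool.Agent.LIO

open Complex MeasureTheory Set Filter Topology

namespace CONSTAux

theorem conj_arg (k ε : ℝ) :
    -(starRingEnd ℂ) ((k : ℂ) + ε * I) = ((-k : ℝ) : ℂ) + ε * I := by
  apply Complex.ext <;> simp

theorem key (hL : Stmt_LEV) (hG : Stmt_GLC) (D : LD) (F F' : ℂ → ℂ) (hF : FOK D F)
    (hF' : FOK D.swap F')
    (hsw : ∀ h : ℂ, 0 < h.im → F h = (starRingEnd ℂ) (F' (-(starRingEnd ℂ) h)))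
    (hr : ∀ k : ℝ, D.Gd k → -D.a < k → (F k).im = 0)
    (hr' : ∀ k : ℝ, D.swap.Gd k → -D.a < k → (F' k).im = 0) :
    ∃ c : ℝ, ∀ h : ℂ, 0 < h.im → F h = c := by
  have ha := D.a0
  have hneg : ∀ᵐ k : ℝ, D.swap.Gd (-k) :=
    (Measure.measurePreserving_neg (volume : Measure ℝ)).quasiMeasurePreserving.ae
      (hL D.swap).1
  have hsw' : ∀ k ε : ℝ, 0 < ε → F ((k : ℂ) + ε * I) =
      (starRingEnd ℂ) (F' (((-k : ℝ) : ℂ) + ε * I)) := by
    intro k ε hε
    rw [hsw _ (by simpa using hε), conj_arg]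
  have w0 : ∀ (E : LD) (k : ℝ), 0 ≤ ∫ x in (-E.R)..E.R, E.wU k x := by
    intro E k
    apply intervalIntegral.integral_nonneg
    · have := E.r0
      have := E.rR
      linarith
    · intro x _
      unfold LD.wU
      positivity
  apply hG F hF.hol
  · intro K
    obtain ⟨C, hC⟩ := hF.dom K
    obtain ⟨C', hC'⟩ := hF'.dom K
    refine ⟨fun k => |C| * (∫ x in (-D.R)..D.R, D.wU k x) +
      |C'| * (∫ x in (-D.swap.R)..D.swap.R, D.swap.wU (-k) x), ?_, ?_⟩
    · apply Integrable.add
      · exact ((hL D).2.2 K).const_mul _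
      · apply Integrable.const_mul
        have h1 := (hL D.swap).2.2 K
        have h2 := ((Measure.measurePreserving_neg (volume : Measure ℝ)).integrableOn_comp_preimage
          (MeasurableEquiv.neg ℝ).measurableEmbedding).2 h1
        have h3 : (Neg.neg : ℝ → ℝ) ⁻¹' (Icc (-K) K) = Icc (-K) K := by
          ext x
          simp only [mem_preimage, mem_Icc]
          constructor
          · rintro ⟨h, h'⟩
            constructor <;> linarith
          · rintro ⟨h, h'⟩
            constructor <;> linarith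
        rw [h3] at h2
        exact h2
    · filter_upwards [(hL D).1, hneg] with k hk hk' hkK ε hε hε1
      have hw := w0 D k
      have hw' := w0 D.swap (-k)
      by_cases hka : -D.a / 2 ≤ k
      · have h1 := hC k ε hk hka hkK.2 hε hε1
        have h2 : C * (∫ x in (-D.R)..D.R, D.wU k x) ≤ |C| * (∫ x in (-D.R)..D.R, D.wU k x) :=
          mul_le_mul_of_nonneg_right (le_abs_self C) hw
        have h3 : 0 ≤ |C'| * (∫ x in (-D.swap.R)..D.swap.R, D.swap.wU (-k) x) :=
          mul_nonneg (abs_nonneg _) hw'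
        linarith
      · have hka' : -D.swap.a / 2 ≤ -k := by
          change -D.a / 2 ≤ -k
          push Not at hka
          linarith
        have h1 := hC' (-k) ε hk' hka' (by linarith [hkK.1]) hε hε1
        have h2 : C' * (∫ x in (-D.swap.R)..D.swap.R, D.swap.wU (-k) x) ≤
            |C'| * (∫ x in (-D.swap.R)..D.swap.R, D.swap.wU (-k) x) :=
          mul_le_mul_of_nonneg_right (le_abs_self C') hw'
        have h3 : 0 ≤ |C| * (∫ x in (-D.R)..D.R, D.wU k x) :=
          mul_nonneg (abs_nonneg _) hw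
        rw [hsw' k ε hε, RCLike.norm_conj]
        linarith
  · filter_upwards [(hL D).1, hneg] with k hk hk'
    by_cases hka : -D.a < k
    · refine ⟨(F k).re, ?_⟩
      have h1 := hF.lim k hk hka
      have h2 : F k = (((F k).re : ℝ) : ℂ) := by
        apply Complex.ext
        · simp
        · simpa using hr k hk hka
      rw [← h2]
      exact h1
    · have hka' : -D.swap.a < -k := by
        change -D.a < -k
        push Not at hka
        linarith
      refine ⟨(F' ((-k : ℝ) : ℂ)).re, ?_⟩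
      have h1 := hF'.lim (-k) hk' hka'
      have h2 : F' ((-k : ℝ) : ℂ) = (((F' ((-k : ℝ) : ℂ)).re : ℝ) : ℂ) := by
        apply Complex.ext
        · simp
        · simpa using hr' (-k) hk' hka'
      have h3 : Tendsto (fun ε : ℝ => (starRingEnd ℂ) (F' (((-k : ℝ) : ℂ) + ε * I))) (𝓝[>] 0)
          (𝓝 ((starRingEnd ℂ) (F' ((-k : ℝ) : ℂ)))) :=
        (Complex.continuous_conj.tendsto _).comp h1
      have h4 : (starRingEnd ℂ) (F' ((-k : ℝ) : ℂ)) = (((F' ((-k : ℝ) : ℂ)).re : ℝ) : ℂ) := by
        rw [h2]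
        simp
      rw [h4] at h3
      refine h3.congr' ?_
      filter_upwards [self_mem_nhdsWithin] with ε hε
      exact (hsw' k ε hε).symm
  · obtain ⟨C, hC⟩ := hF.gro
    refine ⟨max (max C (2 * D.B)) 1, 1 / 4, by norm_num, by norm_num, ?_⟩
    intro h hh hb
    have h1 := hC h hh (le_trans (le_trans (le_max_right _ _) (le_max_left _ _)) hb)
      (le_trans (le_max_right _ _) hb)
    refine le_trans h1 ?_
    apply mul_le_mul_of_nonneg_right
    · exact le_trans (le_max_left _ _) (le_max_left _ _)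
    · positivity

end CONSTAux

theorem const_ (hL : Stmt_LEV) (hF : Stmt_FOK) (hS : Stmt_SWAP) (hR : Stmt_REAL)
    (hG : Stmt_GLC) (hT : Stmt_TFC) : Stmt_CONST := by
  intro D hD hD' ψ hψ
  have hψ' : TF D.swap.R (sw ψ) := (hT D.R ψ hψ).2.2.1
  constructor
  · exact CONSTAux.key hL hG D (D.FS ψ) (D.swap.FP (sw ψ)) (hF D ψ hψ).1
      (hF D.swap (sw ψ) hψ').2 (fun h hh => (hS D ψ hψ h hh).1)
      (fun k hk hka => (hR D ψ hψ k (hD k hk hka)).1)
      (fun k hk hka => (hR D.swap (sw ψ) hψ' k (hD' k hk hka)).2)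
  · exact CONSTAux.key hL hG D (D.FP ψ) (D.swap.FS (sw ψ)) (hF D ψ hψ).2
      (hF D.swap (sw ψ) hψ').1 (fun h hh => (hS D ψ hψ h hh).2)
      (fun k hk hka => (hR D ψ hψ k (hD k hk hka)).2)
      (fun k hk hka => (hR D.swap (sw ψ) hψ' k (hD' k hk hka)).1)

end Pool.Agent.LIO
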