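import Pool.Agent.LIO.Stmts

/-!
# The analytic core
-/

set_option autoImplicit false

namespace Pool.Agent.LIO

open Complex MeasureTheory Set Filter Topology

namespace COREAux

theorem swap_swap (D : LD) : D.swap.swap = D := rfl

theorem tendsto_up {F : ℂ → ℂ} {c : ℂ} (h : ∀ z : ℂ, 0 < z.im → F z = c) (k : ℝ) :
    Tendsto (fun ε : ℝ => F ((k : ℂ) + ε * I)) (𝓝[>] 0) (𝓝 c) := by
  apply tendsto_const_nhds.congr'
  filter_upwards [self_mem_nhdsWithin] with ε hε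
  rw [h]
  have : (0 : ℝ) < ε := hε
  simpa using this

theorem smoothU (D : LD) : ContDiff ℝ (⊤ : ℕ∞) (fun z : ℝ × ℝ => D.U z.1) := D.Us.comp contDiff_fst
theorem smoothV (D : LD) : ContDiff ℝ (⊤ : ℕ∞) (fun z : ℝ × ℝ => D.V z.2) := D.Vs.comp contDiff_snd

theorem Upos (D : LD) (x : ℝ) : 0 < D.U x := lt_of_lt_of_le D.a0 (D.Ua x)
theorem Vpos (D : LD) (x : ℝ) : 0 < D.V x := lt_of_lt_of_le D.a0 (D.Va x)

theorem smooth_x {R : ℝ} {ψ : ℝ → ℝ → ℝ} (h : TF R ψ) (y : ℝ) :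
    Differentiable ℝ (fun t => ψ t y) := by
  have h1 : ContDiff ℝ (⊤ : ℕ∞) (fun t : ℝ => ψ t y) :=
    h.smooth.comp (contDiff_id.prodMk contDiff_const)
  exact h1.differentiable (by simp)

theorem smooth_y {R : ℝ} {ψ : ℝ → ℝ → ℝ} (h : TF R ψ) (x : ℝ) :
    Differentiable ℝ (fun t => ψ x t) := by
  have h1 : ContDiff ℝ (⊤ : ℕ∞) (fun t : ℝ => ψ x t) :=
    h.smooth.comp (contDiff_const.prodMk contDiff_id)
  exact h1.differentiable (by simp)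

/-- The functional `FS` vanishes. -/
theorem van (hL : Stmt_LEV) (hF : Stmt_FOK) (hLin : Stmt_LIN) (hC : Stmt_CONST) (h1 : Stmt_R1)
    (hS : Stmt_SUPP) (hT : Stmt_TFC) (hP : Stmt_PRIM) (D : LD)
    (hz : ∀ k : ℝ, D.Gd k → -D.a < k → D.Lv k)
    (hzs : ∀ k : ℝ, D.swap.Gd k → -D.a < k → D.swap.Lv k) :
    ∀ ψ, TF D.R ψ → ∀ h : ℂ, (0 < h.im ∨ h = 0) → D.FS ψ h = 0 := by
  have ha := D.a0
  set F1 : (ℝ → ℝ → ℝ) → ℂ := fun ψ => D.FS ψ I with hF1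
  set F2 : (ℝ → ℝ → ℝ) → ℂ := fun ψ => D.FP ψ I with hF2
  have e1 : ∀ ψ, TF D.R ψ → ∀ h : ℂ, 0 < h.im → D.FS ψ h = F1 ψ := by
    intro ψ hψ h hh
    obtain ⟨c, hc⟩ := (hC D hz hzs ψ hψ).1
    rw [hc h hh, hF1]
    exact (hc I (by simp)).symm
  have e2 : ∀ ψ, TF D.R ψ → ∀ h : ℂ, 0 < h.im → D.FP ψ h = F2 ψ := by
    intro ψ hψ h hh
    obtain ⟨c, hc⟩ := (hC D hz hzs ψ hψ).2
    rw [hc h hh, hF2]
    exact (hc I (by simp)).symm
  have gd : ∀ k : ℝ, |k| < D.a → D.Gd k := fun k hk => (hL D).2.1 k (abs_lt.1 hk).2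
  have e3 : ∀ ψ, TF D.R ψ → ∀ k : ℝ, |k| < D.a → D.FS ψ k = F1 ψ := by
    intro ψ hψ k hk
    exact tendsto_nhds_unique ((hF D ψ hψ).1.lim k (gd k hk) (abs_lt.1 hk).1)
      (tendsto_up (e1 ψ hψ) k)
  have e4 : ∀ ψ, TF D.R ψ → ∀ k : ℝ, |k| < D.a → D.FP ψ k = F2 ψ := by
    intro ψ hψ k hk
    exact tendsto_nhds_unique ((hF D ψ hψ).2.lim k (gd k hk) (abs_lt.1 hk).1)
      (tendsto_up (e2 ψ hψ) k)
  have l1 : ∀ ψ₁ ψ₂, TF D.R ψ₁ → TF D.R ψ₂ → ∀ s t : ℝ,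
      F1 (fun x y => s * ψ₁ x y + t * ψ₂ x y) = s * F1 ψ₁ + t * F1 ψ₂ := fun ψ₁ ψ₂ g1 g2 s t =>
    (hLin D ψ₁ ψ₂ g1 g2 s t I (by simp)).1
  have l2 : ∀ ψ₁ ψ₂, TF D.R ψ₁ → TF D.R ψ₂ → ∀ s t : ℝ,
      F2 (fun x y => s * ψ₁ x y + t * ψ₂ x y) = s * F2 ψ₁ + t * F2 ψ₂ := fun ψ₁ ψ₂ g1 g2 s t =>
    (hLin D ψ₁ ψ₂ g1 g2 s t I (by simp)).2
  have tU : ∀ ψ, TF D.R ψ → TF D.R (fun x y => D.U x * ψ x y) := fun ψ hψ =>
    (hT D.R ψ hψ).2.2.2.1 (fun x _ => D.U x) (smoothU D)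
  have tV : ∀ ψ, TF D.R ψ → TF D.R (fun x y => D.V y * ψ x y) := fun ψ hψ =>
    (hT D.R ψ hψ).2.2.2.1 (fun _ y => D.V y) (smoothV D)
  have tdx : ∀ ψ, TF D.R ψ → TF D.R (dx ψ) := fun ψ hψ => (hT D.R ψ hψ).1
  have tdy : ∀ ψ, TF D.R ψ → TF D.R (dy ψ) := fun ψ hψ => (hT D.R ψ hψ).2.1
  -- the relation at the level `k`
  have r : ∀ ψ, TF D.R ψ → ∀ k : ℝ, |k| < D.a →
      F1 (dx (fun x y => D.U x * ψ x y)) + (-k : ℝ) * F1 (dx ψ) +
        (F2 (dy (fun x y => D.V y * ψ x y)) + (k : ℝ) * F2 (dy ψ)) = 0 := by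
    intro ψ hψ k hk
    have h2 := h1 D ψ hψ k hk (hz k (gd k hk) (abs_lt.1 hk).1)
    have f1 : dx (fun x y => (D.U x - k) * ψ x y) =
        fun x y => (1 : ℝ) * dx (fun x y => D.U x * ψ x y) x y + (-k) * dx ψ x y := by
      funext x y
      have d1 : DifferentiableAt ℝ (fun t => ψ t y) x := smooth_x hψ y x
      have d2 : DifferentiableAt ℝ (fun t => D.U t * ψ t y) x := smooth_x (tU ψ hψ) y x
      have f2 : (fun t => (D.U t - k) * ψ t y) = fun t => D.U t * ψ t y + (-k) * ψ t y := by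
        funext t; ring
      change deriv (fun t => (D.U t - k) * ψ t y) x = _
      rw [f2, deriv_fun_add d2 (d1.const_mul _), deriv_const_mul _ d1, one_mul]
      rfl
    have f3 : dy (fun x y => (D.V y + k) * ψ x y) =
        fun x y => (1 : ℝ) * dy (fun x y => D.V y * ψ x y) x y + k * dy ψ x y := by
      funext x y
      have d1 : DifferentiableAt ℝ (fun t => ψ x t) y := smooth_y hψ x y
      have d2 : DifferentiableAt ℝ (fun t => D.V t * ψ x t) y := smooth_y (tV ψ hψ) x y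
      have f2 : (fun t => (D.V t + k) * ψ x t) = fun t => D.V t * ψ x t + k * ψ x t := by
        funext t; ring
      change deriv (fun t => (D.V t + k) * ψ x t) y = _
      rw [f2, deriv_fun_add d2 (d1.const_mul _), deriv_const_mul _ d1, one_mul]
      rfl
    have g1 := tdx _ (tU ψ hψ)
    have g2 := tdx _ hψ
    have g3 := tdy _ (tV ψ hψ)
    have g4 := tdy _ hψ
    rw [f1, f3, e3 _ ((hT D.R _ g1).2.2.2.2 _ 1 (-k) g2) k hk,
      e4 _ ((hT D.R _ g3).2.2.2.2 _ 1 k g4) k hk, l1 _ _ g1 g2, l2 _ _ g3 g4] at h2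
    push_cast at h2 ⊢
    linear_combination h2
  have r0 : ∀ ψ, TF D.R ψ → F1 (dx (fun x y => D.U x * ψ x y)) +
      F2 (dy (fun x y => D.V y * ψ x y)) = 0 := by
    intro ψ hψ
    have := r ψ hψ 0 (by simpa using ha)
    push_cast at this
    linear_combination this
  have r1 : ∀ ψ, TF D.R ψ → F1 (dx ψ) = F2 (dy ψ) := by
    intro ψ hψ
    have h2 := r ψ hψ (D.a / 2) (by rw [abs_of_pos (by positivity)]; linarith)
    have h3 := r0 ψ hψ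
    have h4 : ((D.a / 2 : ℝ) : ℂ) * (F2 (dy ψ) - F1 (dx ψ)) = 0 := by
      push_cast at h2 ⊢
      linear_combination h2 - h3
    have h5 : ((D.a / 2 : ℝ) : ℂ) ≠ 0 := by
      exact_mod_cast (by positivity : D.a / 2 ≠ 0)
    rcases mul_eq_zero.1 h4 with h | h
    · exact absurd h h5
    · linear_combination -h
  -- the derivatives
  have r2 : ∀ χ, TF D.R χ → F1 (dx χ) = 0 := by
    intro χ hχ
    set g : ℝ → ℝ → ℝ := fun x y => (D.U x + D.V y)⁻¹ with hg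
    have hgs : ContDiff ℝ (⊤ : ℕ∞) (fun z : ℝ × ℝ => g z.1 z.2) := by
      apply ContDiff.inv ((smoothU D).add (smoothV D))
      intro z
      exact (add_pos (Upos D _) (Vpos D _)).ne'
    set ψ : ℝ → ℝ → ℝ := fun x y => g x y * χ x y with hψd
    have hψ : TF D.R ψ := (hT D.R χ hχ).2.2.2.1 g hgs
    have h2 := r0 ψ hψ
    rw [← r1 _ (tV ψ hψ)] at h2
    have f1 : dx χ = fun x y => (1 : ℝ) * dx (fun x y => D.U x * ψ x y) x y +
        (1 : ℝ) * dx (fun x y => D.V y * ψ x y) x y := by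
      funext x y
      have d1 : DifferentiableAt ℝ (fun t => D.U t * ψ t y) x := smooth_x (tU ψ hψ) y x
      have d2 : DifferentiableAt ℝ (fun t => D.V y * ψ t y) x := smooth_x (tV ψ hψ) y x
      have f2 : (fun t => χ t y) = fun t => D.U t * ψ t y + D.V y * ψ t y := by
        funext t
        have h3 : D.U t + D.V y ≠ 0 := (add_pos (Upos D _) (Vpos D _)).ne'
        rw [hψd, hg]
        field_simp
      change deriv (fun t => χ t y) x = _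
      rw [f2, deriv_fun_add d1 d2, one_mul, one_mul]
      rfl
    rw [f1, l1 _ _ (tdx _ (tU ψ hψ)) (tdx _ (tV ψ hψ))]
    push_cast
    linear_combination h2
  have r3 : ∀ ψ, TF D.R ψ → F1 ψ = 0 := by
    intro ψ hψ
    obtain ⟨χ, ψ₀, hχ, hψ₀, h0, heq⟩ := hP D.R D.r ψ D.r0 D.rR hψ
    have f1 : ψ = fun x y => (1 : ℝ) * dx χ x y + (1 : ℝ) * ψ₀ x y := by
      funext x y
      rw [heq x y]; ring
    have h2 := hS D ψ₀ hψ₀ h0 0 (hz 0 (gd 0 (by simpa using ha)) (by linarith))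
    rw [e3 ψ₀ hψ₀ 0 (by simpa using ha)] at h2
    rw [f1, l1 _ _ (tdx _ hχ) hψ₀, r2 χ hχ, h2]
    ring
  intro ψ hψ h hh
  rcases hh with hh | hh
  · rw [e1 ψ hψ h hh, r3 ψ hψ]
  · rw [hh]
    have := e3 ψ hψ 0 (by simpa using ha)
    rw [ofReal_zero] at this
    rw [this, r3 ψ hψ]

end COREAux

open COREAux in
theorem core (hL : Stmt_LEV) (hF : Stmt_FOK) (hSw : Stmt_SWAP) (hLin : Stmt_LIN) (hE : Stmt_EZ)
    (hD : Stmt_DSW) (hC : Stmt_CONST) (h1 : Stmt_R1) (h2 : Stmt_R2) (hS : Stmt_SUPP)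
    (hT : Stmt_TFC) (hP : Stmt_PRIM) (hO : Stmt_ORT) : Stmt_CORE := by
  intro D δ hδ h0
  have ha := D.a0
  have hδ' : 0 < min δ D.a := lt_min hδ ha
  have h0' : D.DataZero (min δ D.a) := fun h hh => h0 h (lt_of_lt_of_le hh (min_le_left _ _))
  have hz : ∀ k : ℝ, D.Gd k → -D.a < k → D.Lv k := hE D _ hδ' h0'
  have hzs : ∀ k : ℝ, D.swap.Gd k → -D.a < k → D.swap.Lv k :=
    hE D.swap _ hδ' (hD D _ hδ' (min_le_right _ _) h0')
  have v1 := van hL hF hLin hC h1 hS hT hP D hz hzs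
  have v2 := van hL hF hLin hC h1 hS hT hP D.swap hzs hz
  have gd : D.Gd 0 := (hL D).2.1 0 ha
  have lv : D.Lv 0 := hz 0 gd (by linarith)
  have v3 : ∀ ψ, TF D.R ψ → D.FP ψ 0 = 0 := by
    intro ψ hψ
    have h3 := (hF D ψ hψ).2.lim 0 gd (by linarith)
    rw [ofReal_zero] at h3
    refine tendsto_nhds_unique h3 ?_
    have h4 := tendsto_up (F := D.FP ψ) (c := 0) (fun z hz => by
      rw [(hSw D ψ hψ z hz).2, v2 (sw ψ) ((hT D.R ψ hψ).2.2.1) _ (Or.inl (by simpa using hz)),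
        map_zero]) 0
    rwa [ofReal_zero] at h4
  apply hO D
  intro ψ hψ
  have sV : ContDiff ℝ (⊤ : ℕ∞) (fun z : ℝ × ℝ => √(D.V z.2)) :=
    (smoothV D).sqrt (fun z => (Vpos D _).ne')
  have sU : ContDiff ℝ (⊤ : ℕ∞) (fun z : ℝ × ℝ => √(D.U z.1)) :=
    (smoothU D).sqrt (fun z => (Upos D _).ne')
  have iV : ContDiff ℝ (⊤ : ℕ∞) (fun z : ℝ × ℝ => (√(D.V z.2))⁻¹) :=
    sV.inv (fun z => (Real.sqrt_pos.2 (Vpos D _)).ne')
  have iU : ContDiff ℝ (⊤ : ℕ∞) (fun z : ℝ × ℝ => (√(D.U z.1))⁻¹) :=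
    sU.inv (fun z => (Real.sqrt_pos.2 (Upos D _)).ne')
  have t1 : TF D.R (fun x y => dy (fun x y => √(D.V y) * ψ x y) x y / √(D.V y)) := by
    have g1 := (hT D.R ψ hψ).2.2.2.1 (fun _ y => √(D.V y)) sV
    have g2 := (hT D.R _ g1).2.1
    have g3 := (hT D.R _ g2).2.2.2.1 (fun _ y => (√(D.V y))⁻¹) iV
    have g4 : (fun x y => dy (fun x y => √(D.V y) * ψ x y) x y / √(D.V y)) =
        fun x y => (√(D.V y))⁻¹ * dy (fun x y => √(D.V y) * ψ x y) x y := by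
      funext x y
      rw [div_eq_mul_inv, mul_comm]
    rw [g4]
    exact g3
  have t2 : TF D.R (fun x y => dx (fun x y => √(D.U x) * ψ x y) x y / √(D.U x)) := by
    have g1 := (hT D.R ψ hψ).2.2.2.1 (fun x _ => √(D.U x)) sU
    have g2 := (hT D.R _ g1).1
    have g3 := (hT D.R _ g2).2.2.2.1 (fun x _ => (√(D.U x))⁻¹) iU
    have g4 : (fun x y => dx (fun x y => √(D.U x) * ψ x y) x y / √(D.U x)) =
        fun x y => (√(D.U x))⁻¹ * dx (fun x y => √(D.U x) * ψ x y) x y := by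
      funext x y
      rw [div_eq_mul_inv, mul_comm]
    rw [g4]
    exact g3
  have h3 := h2 D ψ hψ lv
  rw [v1 _ t1 0 (Or.inr rfl), v3 _ t2, add_zero] at h3
  have h4 : (((∫ x in (-D.R)..D.R, ∫ y in (-D.R)..D.R, D.φ x y * ψ x y : ℝ)) : ℂ) = 0 := by
    rcases mul_eq_zero.1 h3.symm with h | h
    · norm_num at h
    · exact h
  exact_mod_cast h4

end Pool.Agent.LIO
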