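import Pool.Agent.LIO.Stmts

/-!
# Liouville metrics: decay of the transforms of the test functions (module DEC)
-/

set_option autoImplicit false

namespace Pool.Agent.LIO

open Complex MeasureTheory Set Filter Topology

namespace DECAux

theorem dx_eq {ψ : ℝ → ℝ → ℝ} (h : ContDiff ℝ (⊤ : ℕ∞) (fun z : ℝ × ℝ => ψ z.1 z.2))
    (x y : ℝ) : dx ψ x y = fderiv ℝ (fun z : ℝ × ℝ => ψ z.1 z.2) (x, y) (1, 0) := by
  have h1 : HasFDerivAt (fun z : ℝ × ℝ => ψ z.1 z.2)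
      (fderiv ℝ (fun z : ℝ × ℝ => ψ z.1 z.2) (x, y)) (x, y) :=
    ((h.differentiable (by simp)) (x, y)).hasFDerivAt
  have h2 : HasDerivAt (fun t : ℝ => ((t, y) : ℝ × ℝ)) ((1 : ℝ), (0 : ℝ)) x :=
    (hasDerivAt_id x).prodMk (hasDerivAt_const x y)
  exact (h1.comp_hasDerivAt x h2).deriv

theorem smooth_fd {F : ℝ × ℝ → ℝ} (h : ContDiff ℝ (⊤ : ℕ∞) F) (v : ℝ × ℝ) :
    ContDiff ℝ (⊤ : ℕ∞) (fun z => fderiv ℝ F z v) := by
  have h1 : ContDiff ℝ (⊤ : ℕ∞) (fderiv ℝ F) := h.fderiv_right (by simp)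
  exact h1.clm_apply contDiff_const

theorem sw_tf {R : ℝ} {ψ : ℝ → ℝ → ℝ} (h : TF R ψ) : TF R (sw ψ) := by
  obtain ⟨hs, ρ, hρ, hz⟩ := h
  refine ⟨?_, ρ, hρ, fun x y hxy => hz y x hxy.symm⟩
  exact hs.comp (contDiff_snd.prodMk contDiff_fst)

theorem dx_tf {R : ℝ} {ψ : ℝ → ℝ → ℝ} (h : TF R ψ) : TF R (dx ψ) := by
  obtain ⟨hs, ρ, hρ, hz⟩ := h
  refine ⟨?_, (ρ + R) / 2, by linarith, ?_⟩
  · have : (fun z : ℝ × ℝ => dx ψ z.1 z.2) =
        fun z => fderiv ℝ (fun z : ℝ × ℝ => ψ z.1 z.2) z (1, 0) := by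
      funext z
      exact dx_eq hs z.1 z.2
    rw [this]
    exact smooth_fd hs _
  · intro x y hxy
    unfold dx
    rcases hxy with hx | hy
    · have ho : IsOpen {t : ℝ | ρ < |t|} := isOpen_lt continuous_const continuous_abs
      have hx' : x ∈ {t : ℝ | ρ < |t|} := by
        show ρ < |x|
        linarith
      have he : (fun t => ψ t y) =ᶠ[𝓝 x] fun _ => (0 : ℝ) := by
        filter_upwards [ho.mem_nhds hx'] with t ht
        exact hz t y (Or.inl (le_of_lt ht))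
      rw [he.deriv_eq]
      simp
    · have he : (fun t => ψ t y) = fun _ => (0 : ℝ) := by
        funext t
        exact hz t y (Or.inr (by linarith))
      rw [he]
      simp

theorem dy_tf {R : ℝ} {ψ : ℝ → ℝ → ℝ} (h : TF R ψ) : TF R (dy ψ) := by
  have h1 : dy ψ = sw (dx (sw ψ)) := rfl
  rw [h1]
  exact sw_tf (dx_tf (sw_tf h))

theorem mul_tf {R : ℝ} {ψ : ℝ → ℝ → ℝ} (h : TF R ψ) {g : ℝ → ℝ}
    (hg : ContDiff ℝ (⊤ : ℕ∞) g) : TF R (fun x y => g y * ψ x y) := by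
  obtain ⟨hs, ρ, hρ, hz⟩ := h
  refine ⟨(hg.comp contDiff_snd).mul hs, ρ, hρ, fun x y hxy => ?_⟩
  rw [hz x y hxy, mul_zero]

/-- test functions are bounded -/
theorem bounded_tf {R : ℝ} {ψ : ℝ → ℝ → ℝ} (h : TF R ψ) :
    ∃ C : ℝ, 0 ≤ C ∧ ∀ x y, |ψ x y| ≤ C := by
  obtain ⟨hs, ρ, hρ, hz⟩ := h
  obtain ⟨C, hC⟩ := ((isCompact_Icc (a := -ρ) (b := ρ)).prod
    (isCompact_Icc (a := -ρ) (b := ρ))).exists_bound_of_continuousOn
      (f := fun z : ℝ × ℝ => ψ z.1 z.2) hs.continuous.continuousOn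
  refine ⟨max C 0, le_max_right _ _, fun x y => ?_⟩
  by_cases hx : ρ ≤ |x| ∨ ρ ≤ |y|
  · rw [hz x y hx, abs_zero]
    exact le_max_right _ _
  · push Not at hx
    have h1 : (x, y) ∈ Icc (-ρ) ρ ×ˢ Icc (-ρ) ρ :=
      ⟨⟨(abs_lt.1 hx.1).1.le, (abs_lt.1 hx.1).2.le⟩, ⟨(abs_lt.1 hx.2).1.le, (abs_lt.1 hx.2).2.le⟩⟩
    exact (hC (x, y) h1).trans (le_max_left _ _)

/-- the real momentum is smooth -/
theorem smooth_p (D : LD) {k : ℝ} (hk : -D.a < k) :
    ContDiff ℝ (⊤ : ℕ∞) (fun y => √(D.V y + k)) := by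
  refine ContDiff.sqrt (D.Vs.add contDiff_const) fun y => ?_
  have := D.Va y
  linarith

/-- the phase is real -/
theorem phase (hB1 : Stmt_BAS1) (D : LD) {k : ℝ} (hk : -D.a < k) (y : ℝ) :
    D.BB k y = ((∫ s in (-D.R)..y, (√(D.V s + k))⁻¹ : ℝ) : ℂ) := by
  unfold LD.BB
  rw [← intervalIntegral.integral_ofReal]
  refine intervalIntegral.integral_congr fun s _ => ?_
  show (D.py k s)⁻¹ = _
  rw [(hB1 D).py_real k s hk.le]
  push_cast
  rfl

theorem norm_phase (hB1 : Stmt_BAS1) (D : LD) {k : ℝ} (hk : -D.a < k) (ω y : ℝ) :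
    ‖cexp (I * ω * D.BB k y)‖ = 1 := by
  rw [phase hB1 D hk, Complex.norm_exp]
  simp

/-- one integration by parts -/
theorem parts (hB1 : Stmt_BAS1) (hB2 : Stmt_BAS2) (D : LD) {k : ℝ} (hk : -D.a < k)
    {g : ℝ → ℝ → ℝ} (hg : TF D.R g) (x ω : ℝ) :
    I * ω * D.c0 g k ω x = -D.c0 (dy fun x y => √(D.V y + k) * g x y) k ω x := by
  have hk' : ((k : ℂ)).im ≠ 0 ∨ -D.a < ((k : ℂ)).re := Or.inr (by simpa using hk)
  set p : ℝ → ℝ := fun y => √(D.V y + k) with hp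
  have hps := smooth_p D hk
  have hp0 : ∀ y, p y ≠ 0 := fun y => by
    have h1 := D.Va y
    exact (Real.sqrt_pos.2 (by linarith)).ne'
  set G : ℝ → ℝ → ℝ := fun x y => p y * g x y with hG
  have hGt : TF D.R G := mul_tf hg hps
  set L : ℝ → ℝ → ℝ := dy G with hL
  have hLt : TF D.R L := dy_tf hGt
  have hGd : ∀ y, HasDerivAt (fun t => G x t) (L x y) y := by
    intro y
    have h1 : ContDiff ℝ (⊤ : ℕ∞) (fun t => G x t) :=
      hGt.smooth.comp (contDiff_const.prodMk contDiff_id)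
    exact (h1.differentiable (by simp) y).hasDerivAt
  have hGd' : ∀ y, HasDerivAt (fun t => ((G x t : ℝ) : ℂ)) ((L x y : ℝ) : ℂ) y := fun y =>
    (hGd y).ofReal_comp
  have hb : ∀ y, HasDerivAt (fun t => D.BB k t) ((D.py k y)⁻¹) y := fun y =>
    (((hB2 D).conty k hk').integral_hasStrictDerivAt (-D.R) y).hasDerivAt
  set E : ℝ → ℂ := fun y => cexp (I * ω * D.BB k y) with hE
  have hEd : ∀ y, HasDerivAt E (E y * (I * ω * (D.py k y)⁻¹)) y := fun y =>
    ((hb y).const_mul (I * (ω : ℂ))).cexp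
  have hEc : Continuous E := continuous_iff_continuousAt.2 fun y => (hEd y).continuousAt
  have hpy : ∀ y, D.py k y = (p y : ℂ) := fun y => (hB1 D).py_real k y hk.le
  have cL : Continuous fun y => ((L x y : ℝ) : ℂ) * E y :=
    (Complex.continuous_ofReal.comp (hLt.smooth.continuous.comp
      (continuous_const.prodMk continuous_id))).mul hEc
  have cg : Continuous fun y => ((g x y : ℝ) : ℂ) * E y :=
    (Complex.continuous_ofReal.comp (hg.smooth.continuous.comp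
      (continuous_const.prodMk continuous_id))).mul hEc
  have key : ∀ y, HasDerivAt (fun t => ((G x t : ℝ) : ℂ) * E t)
      (((L x y : ℝ) : ℂ) * E y + I * ω * (((g x y : ℝ) : ℂ) * E y)) y := by
    intro y
    refine ((hGd' y).mul (hEd y)).congr_deriv ?_
    rw [hpy y]
    have h1 : (p y : ℂ) ≠ 0 := by exact_mod_cast hp0 y
    have h2 : ((G x y : ℝ) : ℂ) = (p y : ℂ) * ((g x y : ℝ) : ℂ) := by
      rw [hG]
      push_cast
      rfl
    rw [h2]
    field_simp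
  obtain ⟨ρ, hρ, hz⟩ := hGt.supp
  have z1 : G x D.R = 0 := hz x D.R (Or.inr (hρ.le.trans (le_abs_self _)))
  have z2 : G x (-D.R) = 0 := hz x (-D.R) (Or.inr (by
    rw [abs_neg]
    exact hρ.le.trans (le_abs_self _)))
  have cg' : Continuous fun y => I * (ω : ℂ) * (((g x y : ℝ) : ℂ) * E y) :=
    continuous_const.mul cg
  have hint : ∫ y in (-D.R)..D.R, (((L x y : ℝ) : ℂ) * E y +
      I * ω * (((g x y : ℝ) : ℂ) * E y)) = 0 := by
    rw [intervalIntegral.integral_eq_sub_of_hasDerivAt (fun y _ => key y)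
      ((cL.add cg').intervalIntegrable _ _), z1, z2]
    simp
  rw [intervalIntegral.integral_add (cL.intervalIntegrable _ _)
    (cg'.intervalIntegrable _ _), intervalIntegral.integral_const_mul] at hint
  have e1 : D.c0 g k ω x = ∫ y in (-D.R)..D.R, ((g x y : ℝ) : ℂ) * E y := rfl
  have e2 : D.c0 L k ω x = ∫ y in (-D.R)..D.R, ((L x y : ℝ) : ℂ) * E y := rfl
  rw [e1, e2]
  linear_combination hint

theorem decay (hB1 : Stmt_BAS1) (hB2 : Stmt_BAS2) (D : LD) {k : ℝ} (hk : -D.a < k) (N : ℕ) :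
    ∀ g : ℝ → ℝ → ℝ, TF D.R g → ∃ C : ℝ, ∀ x ω : ℝ,
      ‖D.c0 g k ω x‖ ≤ C / (1 + |ω|) ^ N := by
  induction N with
  | zero =>
    intro g hg
    obtain ⟨C, hC0, hC⟩ := bounded_tf hg
    refine ⟨C * |D.R - -D.R|, fun x ω => ?_⟩
    rw [pow_zero, div_one]
    refine intervalIntegral.norm_integral_le_of_norm_le_const fun y _ => ?_
    rw [norm_mul, norm_phase hB1 D hk, mul_one, Complex.norm_real, Real.norm_eq_abs]
    exact hC x y
  | succ N ih =>
    intro g hg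
    obtain ⟨C1, h1⟩ := ih g hg
    obtain ⟨C2, h2⟩ := ih _ (dy_tf (mul_tf hg (smooth_p D hk)))
    refine ⟨C1 + C2, fun x ω => ?_⟩
    have h3 := parts hB1 hB2 D hk hg x ω
    have h4 : |ω| * ‖D.c0 g k ω x‖ =
        ‖D.c0 (dy fun x y => √(D.V y + k) * g x y) k ω x‖ := by
      have h5 := congrArg norm h3
      rw [norm_neg, norm_mul, norm_mul, Complex.norm_I, one_mul, Complex.norm_real,
        Real.norm_eq_abs] at h5
      exact h5
    have hw : 0 < 1 + |ω| := by positivity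
    have h6 : (1 + |ω|) * ‖D.c0 g k ω x‖ ≤ (C1 + C2) / (1 + |ω|) ^ N := by
      rw [add_mul, one_mul, h4, add_div]
      exact add_le_add (h1 x ω) (h2 x ω)
    rw [pow_succ, ← div_div, le_div_iff₀ hw, mul_comm]
    exact h6

end DECAux

open DECAux in
theorem dec_ (hB1 : Stmt_BAS1) (hB2 : Stmt_BAS2) : Stmt_DEC := by
  intro D ψ hψ k hk N
  obtain ⟨C1, h1⟩ := decay hB1 hB2 D hk N ψ hψ
  obtain ⟨C2, h2⟩ := decay hB1 hB2 D hk N _ (mul_tf hψ (smooth_p D hk))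
  have hcS : ∀ x ω : ℝ, D.cS ψ k ω x = D.c0 (fun x y => √(D.V y + k) * ψ x y) k ω x := by
    intro x ω
    unfold LD.cS LD.c0
    refine intervalIntegral.integral_congr fun y _ => ?_
    show (ψ x y : ℂ) * D.py k y * _ = _
    rw [(hB1 D).py_real k y hk.le]
    push_cast
    ring
  refine ⟨max C1 C2, fun x ω => ?_⟩
  have hw : 0 < (1 + |ω|) ^ N := by positivity
  refine ⟨(h1 x ω).trans (div_le_div_of_nonneg_right (le_max_left _ _) hw.le), ?_⟩
  rw [hcS]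
  exact (h2 x ω).trans (div_le_div_of_nonneg_right (le_max_right _ _) hw.le)

end Pool.Agent.LIO
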