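import Pool.Agent.LIO.Stmts

/-!
# Liouville metrics: the domination of the elementary functional
-/

set_option autoImplicit false

namespace Pool.Agent.LIO

open Complex MeasureTheory Set Filter Topology

namespace DOMAux

theorem inner_bound (D : LD) (B2 : Bas2 D) (B3 : Bas3 D) (hS : Stmt_SUP)
    (m : ℝ → ℝ → ℝ) (Q : ℂ → ℝ → ℝ → ℂ) (τ : ℝ) (H : HOK D m Q τ) (K : ℝ) :
    ∃ C : ℝ, 0 ≤ C ∧ ∀ k ε : ℝ, -D.a / 2 ≤ k → k ≤ K → 0 < ε → ε ≤ 1 →
      ∀ x ∈ Icc (-D.R) D.R, ∀ x' ∈ Icc (-D.R) D.R, ∀ y' ∈ Icc (-D.R) D.R,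
      ‖∫ y in (-D.R)..D.R, Q ((k : ℂ) + ε * I) x y *
        KK (D.ga ((k : ℂ) + ε * I) x x' + τ * D.be ((k : ℂ) + ε * I) y y')‖ ≤ C := by
  have ha := D.a0
  have hR : 0 < D.R := D.r0.trans D.rR
  obtain ⟨CQ, hCQ⟩ := H.q.bdd2 (|K| + D.a + 1) (D.a / 2) (by linarith)
  obtain ⟨CS, hCS0, hCS⟩ := hS (2 * D.R * (√(D.a / 2))⁻¹)
  refine ⟨|CS * CQ * (D.R - -D.R)|, abs_nonneg _, ?_⟩
  intro k ε hk hkK hε hε1 x hx x' hx' y' hy'
  set h : ℂ := (k : ℂ) + ε * I with hh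
  have hre : h.re = k := by simp [hh]
  have him : h.im = ε := by simp [hh]
  have himp : 0 < h.im := by rw [him]; exact hε
  have hAd : D.Ad h := Or.inl himp
  have hnorm : ‖h‖ ≤ |K| + D.a + 1 := by
    have h1 : ‖h‖ ≤ ‖(k : ℂ)‖ + ‖(ε : ℂ) * I‖ := norm_add_le _ _
    have h2 : ‖(k : ℂ)‖ = |k| := by simp
    have h3 : ‖(ε : ℂ) * I‖ = |ε| := by simp
    have h4 : |k| ≤ |K| + D.a := by
      rw [abs_le]
      constructor
      · have := abs_nonneg K; linarith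
      · have := le_abs_self K; linarith
    rw [h2, h3, abs_of_pos hε] at h1
    linarith
  have hlow : -D.a < h.re := by rw [hre]; linarith
  have hbc : Continuous (fun y => D.BB h y) := by
    unfold LD.BB
    exact intervalIntegral.continuous_primitive
      (fun a b => (B2.conty h (Or.inr hlow)).intervalIntegrable a b) _
  have hβc : Continuous (fun y => (τ : ℂ) * D.be h y y') := by
    have : (fun y => (τ : ℂ) * D.be h y y') = fun y => (τ : ℂ) * (D.BB h y - D.BB h y') := by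
      funext y
      rw [B2.be_eq h y y' (Or.inr hlow)]
    rw [this]
    exact continuous_const.mul (hbc.sub continuous_const)
  have hτ : ‖(τ : ℂ)‖ = 1 := by
    rcases H.t with h | h <;> simp [h]
  have hβb : ∀ y ∈ Icc (-D.R) D.R, ‖(τ : ℂ) * D.be h y y'‖ ≤ 2 * D.R * (√(D.a / 2))⁻¹ := by
    intro y hy
    rw [norm_mul, hτ, one_mul]
    refine (B3.be_low_le h y y' hlow).trans ?_
    apply mul_le_mul
    · rw [abs_le]
      constructor <;> [linarith [hy.1, hy'.2]; linarith [hy.2, hy'.1]]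
    · apply inv_anti₀ (Real.sqrt_pos.2 (by linarith))
      apply Real.sqrt_le_sqrt
      rw [hre]; linarith
    · positivity
    · linarith
  have hq := hCS (-D.R) D.R (fun y => Q h x y) (fun y => (τ : ℂ) * D.be h y y') (D.ga h x x') CQ
    (by linarith) (H.q.contY h x himp.le (Or.inl himp)).continuousOn hβc.continuousOn hβb
    (fun y _ => hCQ h x y himp.le (by rw [hre]; linarith) hnorm)
    (B2.ga_quad h x x' hAd hx hx').1 (B2.ga_quad h x x' hAd hx hx').2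
    (H.q.mom0 h x himp.le (Or.inl himp))
    (by
      have e : ∀ y, Q h x y * ((τ : ℂ) * D.be h y y') = (τ : ℂ) * (Q h x y * D.be h y y') := by
        intro y; ring
      simp only [e]
      rw [intervalIntegral.integral_const_mul, H.q.mom1 h x y' himp.le (Or.inl himp), mul_zero])
  exact hq.trans (le_abs_self _)

end DOMAux

open DOMAux in
theorem dom (hB1 : Stmt_BAS1) (hB2 : Stmt_BAS2) (hB3 : Stmt_BAS3) (hS : Stmt_SUP)
    (hI : Stmt_INT) : Stmt_DOM := by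
  intro D m Q τ H K
  have B1 := hB1 D
  have ha := D.a0
  have hR : 0 < D.R := D.r0.trans D.rR
  have hB : 0 ≤ D.B := (abs_nonneg _).trans (D.φb 0 0)
  obtain ⟨CJ, hCJ0, hCJ⟩ := inner_bound D (hB2 D) (hB3 D) hS m Q τ H K
  set Cy : ℝ := (√(D.a / 2))⁻¹ with hCy
  have hCy0 : 0 ≤ Cy := by positivity
  refine ⟨D.B * Cy * CJ * (2 * D.R) * (2 * D.R), ?_⟩
  intro k ε hG hk hkK hε hε1
  set h : ℂ := (k : ℂ) + ε * I with hh
  have hre : h.re = k := by simp [hh]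
  have him : h.im = ε := by simp [hh]
  have himp : 0 < h.im := by rw [him]; exact hε
  have hAd : D.Ad h := Or.inl himp
  have hlow : -D.a < h.re := by rw [hre]; linarith
  rw [(hI D m Q τ H h hAd).2]
  have habs : |D.R - -D.R| = 2 * D.R := by
    rw [abs_of_pos (by linarith)]; ring
  set J : ℝ → ℝ → ℝ → ℂ := fun x x' y' => ∫ y in (-D.R)..D.R, Q h x y *
        KK (D.ga h x x' + τ * D.be h y y') with hJ
  have sub : ∀ t : ℝ, t ∈ Set.uIoc (-D.R) D.R → t ∈ Icc (-D.R) D.R := by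
    intro t ht
    rw [Set.uIoc_of_le (by linarith)] at ht
    exact ⟨ht.1.le, ht.2⟩
  have hy : ∀ y' : ℝ, ‖(D.py h y')⁻¹‖ ≤ Cy := by
    intro y'
    refine (B1.pyi_low h y' hlow).trans ?_
    rw [hCy]
    apply inv_anti₀ (Real.sqrt_pos.2 (by linarith))
    apply Real.sqrt_le_sqrt
    rw [hre]; linarith
  have step1 : ∀ x ∈ Icc (-D.R) D.R, ∀ x' ∈ Icc (-D.R) D.R,
      ‖∫ y' in (-D.R)..D.R, (D.φ x' y' : ℂ) * (D.px h x')⁻¹ * (D.py h y')⁻¹ * (m x x' : ℂ) *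
        J x x' y'‖ ≤ (D.B * ‖(D.px h x')⁻¹‖ * Cy * CJ) * (2 * D.R) := by
    intro x hx x' hx'
    rw [← habs]
    apply intervalIntegral.norm_integral_le_of_norm_le_const
    intro y' hy'
    have hJb : ‖J x x' y'‖ ≤ CJ := hCJ k ε hk hkK hε hε1 x hx x' hx' y' (sub y' hy')
    rw [norm_mul, norm_mul, norm_mul, norm_mul]
    have n1 : ‖(D.φ x' y' : ℂ)‖ ≤ D.B := by
      rw [Complex.norm_real]; exact D.φb x' y'
    have n2 : ‖(m x x' : ℂ)‖ ≤ 1 := by
      rw [Complex.norm_real]; exact H.mb x x'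
    calc ‖(D.φ x' y' : ℂ)‖ * ‖(D.px h x')⁻¹‖ * ‖(D.py h y')⁻¹‖ * ‖(m x x' : ℂ)‖ * ‖J x x' y'‖
        ≤ D.B * ‖(D.px h x')⁻¹‖ * Cy * 1 * CJ := by
          gcongr
          exact hy y'
      _ = D.B * ‖(D.px h x')⁻¹‖ * Cy * CJ := by ring
  have step2 : ∀ x ∈ Icc (-D.R) D.R,
      ‖∫ x' in (-D.R)..D.R, ∫ y' in (-D.R)..D.R, (D.φ x' y' : ℂ) * (D.px h x')⁻¹ *
        (D.py h y')⁻¹ * (m x x' : ℂ) * J x x' y'‖ ≤
        D.B * Cy * CJ * (2 * D.R) * ∫ s in (-D.R)..D.R, D.wU k s := by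
    intro x hx
    rw [← intervalIntegral.integral_const_mul]
    apply intervalIntegral.norm_integral_le_of_norm_le (by linarith)
    · have hne := hG.ne
      rw [ae_restrict_iff' measurableSet_Icc] at hne
      filter_upwards [hne] with x' hx'ne hx'I
      have hx'm : x' ∈ Icc (-D.R) D.R := ⟨hx'I.1.le, hx'I.2⟩
      refine (step1 x hx x' hx'm).trans ?_
      have hw : ‖(D.px h x')⁻¹‖ ≤ D.wU k x' := by
        have := B1.pxi_w h x' (by rw [hre]; exact hx'ne hx'm)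
        rwa [hre] at this
      calc D.B * ‖(D.px h x')⁻¹‖ * Cy * CJ * (2 * D.R)
          ≤ D.B * D.wU k x' * Cy * CJ * (2 * D.R) := by gcongr
        _ = D.B * Cy * CJ * (2 * D.R) * D.wU k x' := by ring
    · exact hG.int.const_mul _
  have step3 : ‖∫ x in (-D.R)..D.R, ∫ x' in (-D.R)..D.R, ∫ y' in (-D.R)..D.R,
      (D.φ x' y' : ℂ) * (D.px h x')⁻¹ * (D.py h y')⁻¹ * (m x x' : ℂ) * J x x' y'‖ ≤
      (D.B * Cy * CJ * (2 * D.R) * ∫ s in (-D.R)..D.R, D.wU k s) * |D.R - -D.R| := by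
    apply intervalIntegral.norm_integral_le_of_norm_le_const
    intro x hx
    exact step2 x (sub x hx)
  rw [habs] at step3
  refine step3.trans (le_of_eq ?_)
  ring

end Pool.Agent.LIO
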