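import Pool.Agent.LIO.Stmts

/-!
# DSW: the data of the problem with exchanged variables
-/

set_option autoImplicit false

namespace Pool.Agent.LIO

open Complex MeasureTheory Set Filter Topology

namespace DSWAux

variable {D : LD}

theorem px_conj (hB : Bas1 D) {k : ℝ} (hk : k < D.a) (x : ℝ) :
    (starRingEnd ℂ) (D.px k x) = D.px k x := by
  rw [hB.px_real k x (by linarith [D.Ua x])]
  exact Complex.conj_ofReal _

theorem py_conj (hB : Bas1 D) {k : ℝ} (hk : -D.a < k) (y : ℝ) :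
    (starRingEnd ℂ) (D.py k y) = D.py k y := by
  rw [hB.py_real k y hk.le]
  exact Complex.conj_ofReal _

theorem swap_px (hB : Bas1 D) {h : ℝ} (h1 : h < D.a) (y : ℝ) :
    D.swap.px h y = D.py ((-h : ℝ) : ℂ) y := by
  have h2 := hB.px_swap ((-h : ℝ) : ℂ) y
  rw [Complex.conj_ofReal, py_conj hB (by linarith)] at h2
  rw [← h2]
  congr 1
  push_cast
  ring

theorem swap_py (hB : Bas1 D) {h : ℝ} (h1 : -D.a < h) (x : ℝ) :
    D.swap.py h x = D.px ((-h : ℝ) : ℂ) x := by
  have h2 := hB.py_swap ((-h : ℝ) : ℂ) x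
  rw [Complex.conj_ofReal, px_conj hB (by linarith)] at h2
  rw [← h2]
  congr 1
  push_cast
  ring

theorem cont_pxi (hB : Bas1 D) {k : ℝ} (hk : k < D.a) : Continuous fun x => (D.px k x)⁻¹ := by
  refine (hB.px_cont k).inv₀ fun x h => ?_
  have h1 := hB.px_low k x (by simpa using hk)
  rw [h] at h1
  simp at h1

theorem cont_pyi (hB : Bas1 D) {k : ℝ} (hk : -D.a < k) : Continuous fun y => (D.py k y)⁻¹ := by
  refine (hB.py_cont k).inv₀ fun x h => ?_
  have h1 := hB.py_low k x (by simpa using hk)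
  rw [h] at h1
  simp at h1

theorem cont_AA (hB : Bas1 D) {k : ℝ} (hk : k < D.a) : Continuous fun x => D.AA k x := by
  have h1 := cont_pxi hB hk
  exact intervalIntegral.continuous_primitive (fun a b => h1.intervalIntegrable a b) _

theorem cont_BB (hB : Bas1 D) {k : ℝ} (hk : -D.a < k) : Continuous fun y => D.BB k y := by
  have h1 := cont_pyi hB hk
  exact intervalIntegral.continuous_primitive (fun a b => h1.intervalIntegrable a b) _

/-- Fubini for the product of `φ` and continuous functions. -/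
theorem fub (D : LD) {F G : ℝ → ℂ} (hF : Continuous F) (hG : Continuous G) :
    ∫ x in (-D.R)..D.R, ∫ y in (-D.R)..D.R, (D.φ x y : ℂ) * (F x * G y) =
      ∫ y in (-D.R)..D.R, ∫ x in (-D.R)..D.R, (D.φ x y : ℂ) * (F x * G y) := by
  have hR : -D.R ≤ D.R := by linarith [D.r0, D.rR]
  simp only [intervalIntegral.integral_of_le hR]
  refine integral_integral_swap ?_
  rw [Measure.prod_restrict]
  have h1 : IntegrableOn (fun z : ℝ × ℝ => F z.1 * G z.2)
      (Icc (-D.R) D.R ×ˢ Icc (-D.R) D.R) (volume.prod volume) := by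
    refine ContinuousOn.integrableOn_compact (isCompact_Icc.prod isCompact_Icc) ?_
    exact ((hF.comp continuous_fst).mul (hG.comp continuous_snd)).continuousOn
  have h2 : IntegrableOn (fun z : ℝ × ℝ => F z.1 * G z.2)
      (Ioc (-D.R) D.R ×ˢ Ioc (-D.R) D.R) (volume.prod volume) :=
    h1.mono_set (Set.prod_mono Ioc_subset_Icc_self Ioc_subset_Icc_self)
  have h3 : Measurable fun z : ℝ × ℝ => ((D.φ z.1 z.2 : ℝ) : ℂ) :=
    Complex.measurable_ofReal.comp D.φm
  have h4 := Integrable.bdd_mul (c := D.B) h2 h3.aestronglyMeasurable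
    (Filter.Eventually.of_forall fun z => by
      rw [Complex.norm_real, Real.norm_eq_abs]
      exact D.φb z.1 z.2)
  exact h4

end DSWAux

open DSWAux

theorem dsw (hB1 : Stmt_BAS1) : Stmt_DSW := by
  intro D δ hδ hδa hZ h hh σ hσ ω
  have hB := hB1 D
  have hh1 := abs_lt.1 hh
  have ha1 : h < D.a := by linarith
  have ha2 : -D.a < h := by linarith
  have ha3 : -h < D.a := by linarith
  have ha4 : -D.a < -h := by linarith
  have hz := hZ (-h) (by rw [abs_neg]; exact hh) σ hσ (-(σ * ω))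
  have hσ2 : (σ : ℂ) * σ = 1 := by
    rcases hσ with rfl | rfl
    · push_cast; ring
    · push_cast; ring
  have hAA : ∀ x, D.swap.AA h x = D.BB ((-h : ℝ) : ℂ) x := by
    intro x
    unfold LD.AA LD.BB
    change ∫ s in (-D.R)..x, (D.swap.px h s)⁻¹ = _
    simp only [swap_px hB ha1]
  have hBB : ∀ y, D.swap.BB h y = D.AA ((-h : ℝ) : ℂ) y := by
    intro x
    unfold LD.AA LD.BB
    change ∫ s in (-D.R)..x, (D.swap.py h s)⁻¹ = _
    simp only [swap_py hB ha2]
  set F : ℝ → ℂ := fun x => cexp (-(I * ω * D.AA ((-h : ℝ) : ℂ) x)) * (D.px ((-h : ℝ) : ℂ) x)⁻¹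
    with hF
  set G : ℝ → ℂ := fun y => cexp (I * ω * σ * D.BB ((-h : ℝ) : ℂ) y) * (D.py ((-h : ℝ) : ℂ) y)⁻¹
    with hG
  have hFc : Continuous F := by
    refine (Complex.continuous_exp.comp ?_).mul (cont_pxi hB ha3)
    exact (continuous_const.mul (cont_AA hB ha3)).neg
  have hGc : Continuous G := by
    refine (Complex.continuous_exp.comp ?_).mul (cont_pyi hB ha4)
    exact continuous_const.mul (cont_BB hB ha4)
  have e1 : D.EE σ ((-h : ℝ) : ℂ) ((-(σ * ω) : ℝ) : ℂ) =
      ∫ x in (-D.R)..D.R, ∫ y in (-D.R)..D.R, (D.φ x y : ℂ) * (F x * G y) := by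
    unfold LD.EE LD.Ph
    refine intervalIntegral.integral_congr fun x _ => ?_
    rw [← intervalIntegral.integral_mul_const, ← intervalIntegral.integral_mul_const]
    refine intervalIntegral.integral_congr fun y _ => ?_
    simp only [hF, hG]
    have e3 : I * ((-(σ * ω) : ℝ) : ℂ) * σ * D.AA ((-h : ℝ) : ℂ) x =
        -(I * ω * D.AA ((-h : ℝ) : ℂ) x) := by
      calc I * ((-(σ * ω) : ℝ) : ℂ) * σ * D.AA ((-h : ℝ) : ℂ) x =
          -(I * ω * D.AA ((-h : ℝ) : ℂ) x) * (σ * σ) := by push_cast; ring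
        _ = _ := by rw [hσ2, mul_one]
    have e4 : -(I * ((-(σ * ω) : ℝ) : ℂ) * D.BB ((-h : ℝ) : ℂ) y) =
        I * ω * σ * D.BB ((-h : ℝ) : ℂ) y := by
      push_cast
      ring
    rw [e3, e4]
    ring
  have e2 : D.swap.EE σ h ω =
      ∫ y in (-D.R)..D.R, ∫ x in (-D.R)..D.R, (D.φ x y : ℂ) * (F x * G y) := by
    unfold LD.EE LD.Ph
    change ∫ x in (-D.R)..D.R, (∫ y in (-D.R)..D.R, (D.φ y x : ℂ) *
      cexp (-(I * ω * D.swap.BB h y)) * (D.swap.py h y)⁻¹) * cexp (I * ω * σ * D.swap.AA h x) *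
      (D.swap.px h x)⁻¹ = _
    refine intervalIntegral.integral_congr fun x _ => ?_
    rw [← intervalIntegral.integral_mul_const, ← intervalIntegral.integral_mul_const]
    refine intervalIntegral.integral_congr fun y _ => ?_
    simp only [hF, hG]
    rw [hBB, hAA, swap_px hB ha1, swap_py hB ha2]
    ring
  rw [e2, ← fub D hFc hGc, ← e1]
  exact hz

end Pool.Agent.LIO
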