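import Pool.Agent.LIO.Stmts
import Pool.Agent.Lib_helper92.XRay.Hol

/-!
# Liouville metrics: the data vanish at all good levels
-/

set_option autoImplicit false

namespace Pool.Agent.LIO

open Complex MeasureTheory Set Filter Topology

namespace EZAux

variable {D : LD}

/-- the domain of holomorphy -/
def Om (D : LD) : Set ℂ := {h | 0 < h.im ∨ |h.re| < D.a}

theorem isOpen_Om (D : LD) : IsOpen (Om D) :=
  (isOpen_lt continuous_const continuous_im).union
    (isOpen_lt continuous_re.abs continuous_const)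

theorem zero_mem (D : LD) : (0 : ℂ) ∈ Om D := Or.inr (by simpa using D.a0)

theorem pre_Om (D : LD) : IsPreconnected (Om D) := by
  have h1 : StarConvex ℝ (0 : ℂ) (Om D) := by
    rw [starConvex_zero_iff]
    intro p hp s hs0 hs1
    rcases hs0.lt_or_eq with hs | hs
    · rcases hp with hp | hp
      · left
        rw [smul_im, smul_eq_mul]
        exact mul_pos hs hp
      · right
        rw [smul_re, smul_eq_mul, abs_mul, abs_of_pos hs]
        nlinarith [abs_nonneg p.re]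
    · right
      rw [← hs]
      simpa using D.a0
  exact (h1.isPathConnected (zero_mem D)).isConnected.isPreconnected

theorem Rpos (D : LD) : 0 < D.R := D.r0.trans D.rR

theorem le_RR (D : LD) : -D.R ≤ D.R := by
  have := Rpos D
  linarith

/-- local bounds -/
theorem loc (hB : Bas1 D) {h₀ : ℂ} (h : h₀ ∈ Om D) : ∃ ε > 0, ∃ c > 0,
    ∀ z ∈ Metric.ball h₀ ε, z ∈ Om D ∧ ∀ s, ‖(D.px z s)⁻¹‖ ≤ c ∧ ‖(D.py z s)⁻¹‖ ≤ c := by
  rcases h with h | h
  · refine ⟨h₀.im / 2, by positivity, (√(h₀.im / 2))⁻¹, by positivity, fun z hz => ?_⟩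
    rw [Metric.mem_ball, dist_eq_norm] at hz
    have h3 : |(z - h₀).im| ≤ ‖z - h₀‖ := Complex.abs_im_le_norm _
    rw [sub_im] at h3
    have h4 := (abs_lt.1 (lt_of_le_of_lt h3 hz)).1
    have h5 : h₀.im / 2 ≤ z.im := by linarith
    have h6 : 0 < z.im := by linarith
    have h7 : (√z.im)⁻¹ ≤ (√(h₀.im / 2))⁻¹ := by gcongr
    exact ⟨Or.inl h6, fun s => ⟨(hB.pxi_im z s h6).trans h7, (hB.pyi_im z s h6).trans h7⟩⟩
  · have h0 : 0 < (D.a - |h₀.re|) / 2 := by linarith
    refine ⟨(D.a - |h₀.re|) / 2, h0, (√((D.a - |h₀.re|) / 2))⁻¹, by positivity, fun z hz => ?_⟩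
    rw [Metric.mem_ball, dist_eq_norm] at hz
    have h3 : |(z - h₀).re| ≤ ‖z - h₀‖ := Complex.abs_re_le_norm _
    rw [sub_re] at h3
    have h4 := abs_lt.1 (lt_of_le_of_lt h3 hz)
    have h5 := neg_abs_le h₀.re
    have h6 := le_abs_self h₀.re
    have h7 : (D.a - |h₀.re|) / 2 ≤ D.a - z.re := by linarith [h4.2]
    have h8 : (D.a - |h₀.re|) / 2 ≤ D.a + z.re := by linarith [h4.1]
    refine ⟨Or.inr (abs_lt.2 ⟨by linarith, by linarith⟩), fun s => ⟨?_, ?_⟩⟩
    · refine (hB.pxi_low z s (by linarith)).trans ?_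
      gcongr
    · refine (hB.pyi_low z s (by linarith)).trans ?_
      gcongr

theorem om_x {h : ℂ} (hh : h ∈ Om D) : h.im ≠ 0 ∨ h.re < D.a := by
  rcases hh with hh | hh
  · exact Or.inl hh.ne'
  · exact Or.inr (abs_lt.1 hh).2

theorem om_y {h : ℂ} (hh : h ∈ Om D) : h.im ≠ 0 ∨ -D.a < h.re := by
  rcases hh with hh | hh
  · exact Or.inl hh.ne'
  · exact Or.inr (abs_lt.1 hh).1

theorem px_ne (hB : Bas1 D) {h : ℂ} (hh : h.im ≠ 0 ∨ h.re < D.a) (x : ℝ) : D.px h x ≠ 0 := by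
  intro h0
  have h1 := hB.px_sq h x
  rw [h0] at h1
  have h2 : (D.U x : ℂ) = h := by
    have : (0 : ℂ) = (D.U x : ℂ) - h := by simpa using h1
    exact (sub_eq_zero.1 this.symm)
  rcases hh with hh | hh
  · apply hh
    rw [← h2, ofReal_im]
  · rw [← h2, ofReal_re] at hh
    have := D.Ua x
    linarith

theorem py_ne (hB : Bas1 D) {h : ℂ} (hh : h.im ≠ 0 ∨ -D.a < h.re) (y : ℝ) : D.py h y ≠ 0 := by
  intro h0
  have h1 := hB.py_sq h y
  rw [h0] at h1
  have h2 : h = ((-D.V y : ℝ) : ℂ) := by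
    have h3 : (0 : ℂ) = (D.V y : ℂ) + h := by simpa using h1
    push_cast
    linear_combination -h3
  rcases hh with hh | hh
  · apply hh
    rw [h2, ofReal_im]
  · rw [h2, ofReal_re] at hh
    have := D.Va y
    linarith

theorem cont_pxi (hB : Bas1 D) {h : ℂ} (hh : h.im ≠ 0 ∨ h.re < D.a) :
    Continuous (fun x => (D.px h x)⁻¹) :=
  (hB.px_cont h).inv₀ (px_ne hB hh)

theorem cont_pyi (hB : Bas1 D) {h : ℂ} (hh : h.im ≠ 0 ∨ -D.a < h.re) :
    Continuous (fun y => (D.py h y)⁻¹) :=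
  (hB.py_cont h).inv₀ (py_ne hB hh)

theorem cont_AA (hB : Bas1 D) {h : ℂ} (hh : h.im ≠ 0 ∨ h.re < D.a) :
    Continuous (fun x => D.AA h x) :=
  intervalIntegral.continuous_primitive (fun _ _ => (cont_pxi hB hh).intervalIntegrable _ _) _

theorem cont_BB (hB : Bas1 D) {h : ℂ} (hh : h.im ≠ 0 ∨ -D.a < h.re) :
    Continuous (fun y => D.BB h y) :=
  intervalIntegral.continuous_primitive (fun _ _ => (cont_pyi hB hh).intervalIntegrable _ _) _

theorem AA_ga (h : ℂ) {x : ℝ} (hx : -D.R ≤ x) : D.AA h x = D.ga h (-D.R) x := by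
  rw [LD.AA, LD.ga, min_eq_left hx, max_eq_right hx]

theorem BB_be (h : ℂ) (y : ℝ) : D.BB h y = D.be h y (-D.R) := rfl

theorem ae_uIoc {P : ℝ → Prop} (h : ∀ y ∈ Icc (-D.R) D.R, P y) :
    ∀ᵐ s ∂(volume.restrict (uIoc (-D.R) D.R)), P s := by
  rw [uIoc_of_le (le_RR D)]
  filter_upwards [ae_restrict_mem measurableSet_Ioc] with s hs using h s (Ioc_subset_Icc_self hs)

theorem phi_meas_x (D : LD) : Measurable (fun z : ℝ × ℝ => ((D.φ z.1 z.2 : ℝ) : ℂ)) :=
  Complex.measurable_ofReal.comp D.φm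

theorem phi_meas (D : LD) (x : ℝ) : Measurable (fun y : ℝ => ((D.φ x y : ℝ) : ℂ)) :=
  (phi_meas_x D).comp (measurable_const.prodMk measurable_id)

theorem phi_norm (D : LD) (x y : ℝ) : ‖((D.φ x y : ℝ) : ℂ)‖ ≤ D.B := by
  rw [norm_real, Real.norm_eq_abs]
  exact D.φb x y

theorem B0 (D : LD) : 0 ≤ D.B := (abs_nonneg _).trans (D.φb 0 0)

theorem norm_cexp_le {z : ℂ} {C : ℝ} (h : ‖z‖ ≤ C) : ‖cexp z‖ ≤ Real.exp C := by
  rw [Complex.norm_exp]
  exact Real.exp_le_exp.2 ((re_le_norm z).trans h)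

theorem inner_meas (D : LD) {b : ℝ → ℂ} {q : ℝ → ℂ} (hb : Measurable b) (hq : Measurable q) :
    Measurable (fun x => ∫ y in (-D.R)..D.R, (D.φ x y : ℂ) * cexp (b y) * q y) := by
  have h1 : StronglyMeasurable (Function.uncurry
      (fun x y : ℝ => ((D.φ x y : ℝ) : ℂ) * cexp (b y) * q y)) := by
    apply Measurable.stronglyMeasurable
    have h2 : Measurable (fun z : ℝ × ℝ => ((D.φ z.1 z.2 : ℝ) : ℂ) * cexp (b z.2) * q z.2) :=
      ((phi_meas_x D).mul (Complex.measurable_exp.comp (hb.comp measurable_snd))).mul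
        (hq.comp measurable_snd)
    exact h2
  have h3 := (h1.integral_prod_right (ν := volume.restrict (Ioc (-D.R) D.R))).measurable
  have h4 : (fun x => ∫ y in (-D.R)..D.R, (D.φ x y : ℂ) * cexp (b y) * q y) =
      fun x => ∫ y in Ioc (-D.R) D.R, (D.φ x y : ℂ) * cexp (b y) * q y := by
    funext x
    rw [intervalIntegral.integral_of_le (le_RR D)]
  rw [h4]
  exact h3

theorem inner_norm (D : LD) {b q : ℝ → ℂ} {C : ℝ}
    (hb : ∀ y ∈ Icc (-D.R) D.R, ‖b y‖ ≤ C) (hq : ∀ y ∈ Icc (-D.R) D.R, ‖q y‖ ≤ C) (x : ℝ) :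
    ‖∫ y in (-D.R)..D.R, (D.φ x y : ℂ) * cexp (b y) * q y‖ ≤
      D.B * Real.exp C * C * (2 * D.R) := by
  have h1 : ∀ y ∈ uIoc (-D.R) D.R, ‖(D.φ x y : ℂ) * cexp (b y) * q y‖ ≤
      D.B * Real.exp C * C := by
    intro y hy
    rw [uIoc_of_le (le_RR D)] at hy
    have hy' := Ioc_subset_Icc_self hy
    rw [norm_mul, norm_mul]
    have h2 := phi_norm D x y
    have h3 := norm_cexp_le (hb y hy')
    have h4 := hq y hy'
    have h5 := B0 D
    gcongr
  have h2 := intervalIntegral.norm_integral_le_of_norm_le_const h1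
  have h3 : |D.R - -D.R| = 2 * D.R := by
    rw [abs_of_pos (by linarith [Rpos D])]
    ring
  rwa [h3] at h2

theorem inner_diff (D : LD) {b q : ℂ → ℝ → ℂ} {z₀ : ℂ} {ε C : ℝ} (hε : 0 < ε)
    (mb : ∀ z ∈ Metric.ball z₀ ε, Measurable (b z))
    (mq : ∀ z ∈ Metric.ball z₀ ε, Measurable (q z))
    (db : ∀ y ∈ Icc (-D.R) D.R, DifferentiableOn ℂ (fun z => b z y) (Metric.ball z₀ ε))
    (dq : ∀ y ∈ Icc (-D.R) D.R, DifferentiableOn ℂ (fun z => q z y) (Metric.ball z₀ ε))
    (bb : ∀ z ∈ Metric.ball z₀ ε, ∀ y ∈ Icc (-D.R) D.R, ‖b z y‖ ≤ C)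
    (bq : ∀ z ∈ Metric.ball z₀ ε, ∀ y ∈ Icc (-D.R) D.R, ‖q z y‖ ≤ C) (x : ℝ) :
    DifferentiableAt ℂ (fun z => ∫ y in (-D.R)..D.R, (D.φ x y : ℂ) * cexp (b z y) * q z y)
      z₀ := by
  apply XRay.differentiableAt_intervalIntegral hε (B := fun _ => D.B * Real.exp C * C)
  · intro z hz
    exact (((phi_meas D x).mul (Complex.measurable_exp.comp (mb z hz))).mul
      (mq z hz)).aestronglyMeasurable
  · apply ae_uIoc
    intro y hy
    exact ((differentiableOn_const _).mul (db y hy).cexp).mul (dq y hy)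
  · exact intervalIntegrable_const
  · apply ae_uIoc
    intro y hy z hz
    rw [norm_mul, norm_mul]
    have h2 := phi_norm D x y
    have h3 := norm_cexp_le (bb z hz y hy)
    have h4 := bq z hz y hy
    have h5 := B0 D
    gcongr

/-- the general double integral -/
theorem gen (D : LD) {A p b q : ℂ → ℝ → ℂ} {z₀ : ℂ} {ε C : ℝ} (hε : 0 < ε) (hC : 0 ≤ C)
    (mA : ∀ z ∈ Metric.ball z₀ ε, Measurable (A z))
    (mp : ∀ z ∈ Metric.ball z₀ ε, Measurable (p z))
    (mb : ∀ z ∈ Metric.ball z₀ ε, Measurable (b z))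
    (mq : ∀ z ∈ Metric.ball z₀ ε, Measurable (q z))
    (dA : ∀ y ∈ Icc (-D.R) D.R, DifferentiableOn ℂ (fun z => A z y) (Metric.ball z₀ ε))
    (dp : ∀ y ∈ Icc (-D.R) D.R, DifferentiableOn ℂ (fun z => p z y) (Metric.ball z₀ ε))
    (db : ∀ y ∈ Icc (-D.R) D.R, DifferentiableOn ℂ (fun z => b z y) (Metric.ball z₀ ε))
    (dq : ∀ y ∈ Icc (-D.R) D.R, DifferentiableOn ℂ (fun z => q z y) (Metric.ball z₀ ε))
    (bA : ∀ z ∈ Metric.ball z₀ ε, ∀ y ∈ Icc (-D.R) D.R, ‖A z y‖ ≤ C)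
    (bp : ∀ z ∈ Metric.ball z₀ ε, ∀ y ∈ Icc (-D.R) D.R, ‖p z y‖ ≤ C)
    (bb : ∀ z ∈ Metric.ball z₀ ε, ∀ y ∈ Icc (-D.R) D.R, ‖b z y‖ ≤ C)
    (bq : ∀ z ∈ Metric.ball z₀ ε, ∀ y ∈ Icc (-D.R) D.R, ‖q z y‖ ≤ C) :
    DifferentiableAt ℂ (fun z => ∫ x in (-D.R)..D.R,
      (∫ y in (-D.R)..D.R, (D.φ x y : ℂ) * cexp (b z y) * q z y) * cexp (A z x) * p z x) z₀ := by
  apply XRay.differentiableAt_intervalIntegral hε
    (B := fun _ => D.B * Real.exp C * C * (2 * D.R) * Real.exp C * C)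
  · intro z hz
    exact (((inner_meas D (mb z hz) (mq z hz)).mul
      (Complex.measurable_exp.comp (mA z hz))).mul (mp z hz)).aestronglyMeasurable
  · apply ae_uIoc
    intro x hx
    refine DifferentiableOn.mul (DifferentiableOn.mul ?_ (dA x hx).cexp) (dp x hx)
    intro z hz
    apply DifferentiableAt.differentiableWithinAt
    have hz' := hz
    rw [Metric.mem_ball] at hz'
    have hsub : Metric.ball z (ε - dist z z₀) ⊆ Metric.ball z₀ ε :=
      Metric.ball_subset_ball' (by linarith)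
    exact inner_diff D (by linarith) (fun w hw => mb w (hsub hw)) (fun w hw => mq w (hsub hw))
      (fun y hy => (db y hy).mono hsub) (fun y hy => (dq y hy).mono hsub)
      (fun w hw => bb w (hsub hw)) (fun w hw => bq w (hsub hw)) x
  · exact intervalIntegrable_const
  · apply ae_uIoc
    intro x hx z hz
    rw [norm_mul, norm_mul]
    have h2 := inner_norm D (bb z hz) (bq z hz) x
    have h3 := norm_cexp_le (bA z hz x hx)
    have h4 := bp z hz x hx
    have h5 := B0 D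
    have h6 := Rpos D
    gcongr

theorem AA_norm {h : ℂ} {c : ℝ} (hc : ∀ s, ‖(D.px h s)⁻¹‖ ≤ c) {x : ℝ}
    (hx : x ∈ Icc (-D.R) D.R) : ‖D.AA h x‖ ≤ c * (2 * D.R) := by
  have hc0 : 0 ≤ c := (norm_nonneg _).trans (hc 0)
  have h1 := intervalIntegral.norm_integral_le_of_norm_le_const
    (a := -D.R) (b := x) (f := fun s => (D.px h s)⁻¹) (C := c) (fun s _ => hc s)
  refine h1.trans ?_
  rw [abs_of_nonneg (by linarith [hx.1])]
  have := hx.2
  gcongr
  linarith

theorem BB_norm {h : ℂ} {c : ℝ} (hc : ∀ s, ‖(D.py h s)⁻¹‖ ≤ c) {x : ℝ}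
    (hx : x ∈ Icc (-D.R) D.R) : ‖D.BB h x‖ ≤ c * (2 * D.R) := by
  have hc0 : 0 ≤ c := (norm_nonneg _).trans (hc 0)
  have h1 := intervalIntegral.norm_integral_le_of_norm_le_const
    (a := -D.R) (b := x) (f := fun s => (D.py h s)⁻¹) (C := c) (fun s _ => hc s)
  refine h1.trans ?_
  rw [abs_of_nonneg (by linarith [hx.1])]
  have := hx.2
  gcongr
  linarith

theorem norm_ios {ω : ℂ} {σ : ℝ} (hσ : σ = 1 ∨ σ = -1) {z : ℂ} :
    ‖I * ω * σ * z‖ = ‖ω‖ * ‖z‖ := by
  rcases hσ with rfl | rfl <;> simp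

theorem norm_nio {ω z : ℂ} : ‖-(I * ω * z)‖ = ‖ω‖ * ‖z‖ := by
  simp

/-- holomorphy in the level -/
theorem diff_h (hB1 : Bas1 D) (hB3 : Bas3 D) {σ : ℝ} (hσ : σ = 1 ∨ σ = -1) (ω : ℂ) {h₀ : ℂ}
    (h0 : h₀ ∈ Om D) : DifferentiableAt ℂ (fun h => D.EE σ h ω) h₀ := by
  obtain ⟨ε, hε, c, hc, hloc⟩ := loc hB1 h0
  have hR := Rpos D
  set C : ℝ := c + ‖ω‖ * (c * (2 * D.R)) with hCdef
  have hC1 : c ≤ C := by
    rw [hCdef]
    have : 0 ≤ ‖ω‖ * (c * (2 * D.R)) := by positivity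
    linarith
  have hC2 : ‖ω‖ * (c * (2 * D.R)) ≤ C := by
    rw [hCdef]
    linarith
  have hC : 0 ≤ C := hc.le.trans hC1
  have key := gen D (A := fun h x => I * ω * σ * D.AA h x) (p := fun h x => (D.px h x)⁻¹)
    (b := fun h y => -(I * ω * D.BB h y)) (q := fun h y => (D.py h y)⁻¹) (z₀ := h₀) hε hC
    (fun z hz => (continuous_const.mul (cont_AA hB1 (om_x (hloc z hz).1))).measurable)
    (fun z hz => (cont_pxi hB1 (om_x (hloc z hz).1)).measurable)
    (fun z hz => (continuous_const.mul (cont_BB hB1 (om_y (hloc z hz).1))).neg.measurable)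
    (fun z hz => (cont_pyi hB1 (om_y (hloc z hz).1)).measurable)
    (fun y hy z hz => by
      apply DifferentiableAt.differentiableWithinAt
      apply DifferentiableAt.const_mul
      have h1 := hB3.ga_diff z (-D.R) y (om_x (hloc z hz).1)
      have h2 : (fun h => D.AA h y) = fun h => D.ga h (-D.R) y := by
        funext h
        exact AA_ga h hy.1
      rw [h2]
      exact h1)
    (fun y _ z hz => ((hB1.px_diff z y (om_x (hloc z hz).1)).inv
      (px_ne hB1 (om_x (hloc z hz).1) y)).differentiableWithinAt)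
    (fun y _ z hz => by
      apply DifferentiableAt.differentiableWithinAt
      apply DifferentiableAt.neg
      apply DifferentiableAt.const_mul
      exact hB3.be_diff z y (-D.R) (om_y (hloc z hz).1))
    (fun y _ z hz => ((hB1.py_diff z y (om_y (hloc z hz).1)).inv
      (py_ne hB1 (om_y (hloc z hz).1) y)).differentiableWithinAt)
    (fun z hz y hy => by
      rw [norm_ios hσ]
      refine le_trans ?_ hC2
      have := AA_norm (fun s => ((hloc z hz).2 s).1) hy
      gcongr)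
    (fun z hz y _ => ((hloc z hz).2 y).1.trans hC1)
    (fun z hz y hy => by
      rw [norm_nio]
      refine le_trans ?_ hC2
      have := BB_norm (fun s => ((hloc z hz).2 s).2) hy
      gcongr)
    (fun z hz y _ => ((hloc z hz).2 y).2.trans hC1)
  exact key

/-- holomorphy in the frequency -/
theorem diff_w (hB1 : Bas1 D) {σ : ℝ} (hσ : σ = 1 ∨ σ = -1) {h : ℂ}
    (h0 : h ∈ Om D) (ω₀ : ℂ) : DifferentiableAt ℂ (fun ω => D.EE σ h ω) ω₀ := by
  obtain ⟨ε, hε, c, hc, hloc⟩ := loc hB1 h0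
  have hh := (hloc h (Metric.mem_ball_self hε)).2
  have hR := Rpos D
  set C : ℝ := c + (‖ω₀‖ + 1) * (c * (2 * D.R)) with hCdef
  have hC1 : c ≤ C := by
    rw [hCdef]
    have : 0 ≤ (‖ω₀‖ + 1) * (c * (2 * D.R)) := by positivity
    linarith
  have hC2 : (‖ω₀‖ + 1) * (c * (2 * D.R)) ≤ C := by
    rw [hCdef]
    linarith
  have hC : 0 ≤ C := hc.le.trans hC1
  have hw : ∀ ω ∈ Metric.ball ω₀ 1, ‖ω‖ ≤ ‖ω₀‖ + 1 := by
    intro ω hω
    rw [Metric.mem_ball, dist_eq_norm] at hω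
    have := norm_sub_norm_le ω ω₀
    linarith
  have key := gen D (A := fun ω x => I * ω * σ * D.AA h x) (p := fun _ x => (D.px h x)⁻¹)
    (b := fun ω y => -(I * ω * D.BB h y)) (q := fun _ y => (D.py h y)⁻¹) (z₀ := ω₀) one_pos hC
    (fun z _ => (continuous_const.mul (cont_AA hB1 (om_x h0))).measurable)
    (fun z _ => (cont_pxi hB1 (om_x h0)).measurable)
    (fun z _ => (continuous_const.mul (cont_BB hB1 (om_y h0))).neg.measurable)
    (fun z _ => (cont_pyi hB1 (om_y h0)).measurable)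
    (fun y _ z _ => by fun_prop)
    (fun y _ z _ => by fun_prop)
    (fun y _ z _ => by fun_prop)
    (fun y _ z _ => by fun_prop)
    (fun z hz y hy => by
      rw [norm_ios hσ]
      refine le_trans ?_ hC2
      have := AA_norm (fun s => (hh s).1) hy
      have := hw z hz
      gcongr)
    (fun z _ y _ => (hh y).1.trans hC1)
    (fun z hz y hy => by
      rw [norm_nio]
      refine le_trans ?_ hC2
      have := BB_norm (fun s => (hh s).2) hy
      have := hw z hz
      gcongr)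
    (fun z _ y _ => (hh y).2.trans hC1)
  exact key

/-- a sequence of small positive reals -/
theorem tendsto_small {δ : ℝ} (hδ : 0 < δ) :
    Tendsto (fun n : ℕ => ((1 / (((n : ℝ) + 1)) * (δ / 2) : ℝ) : ℂ)) atTop (𝓝[≠] 0) := by
  apply tendsto_nhdsWithin_of_tendsto_nhds_of_eventually_within
  · have h5 := (tendsto_one_div_add_atTop_nhds_zero_nat (𝕜 := ℝ)).mul_const (δ / 2)
    rw [zero_mul] at h5
    exact (Complex.continuous_ofReal.tendsto 0).comp h5
  · filter_upwards with n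
    simp only [mem_compl_iff, mem_singleton_iff]
    intro h
    have h5 : (1 / (((n : ℝ) + 1)) * (δ / 2) : ℝ) = 0 := by exact_mod_cast h
    have h6 : 0 < (1 / (((n : ℝ) + 1)) * (δ / 2) : ℝ) := by positivity
    linarith

theorem small_lt {δ : ℝ} (hδ : 0 < δ) (n : ℕ) : |1 / ((n : ℝ) + 1) * (δ / 2)| < δ := by
  rw [abs_of_pos (by positivity)]
  have : 1 / ((n : ℝ) + 1) ≤ 1 := by
    rw [div_le_one (by positivity)]
    have := Nat.cast_nonneg (α := ℝ) n
    linarith
  nlinarith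

/-- the data vanish on the domain of holomorphy -/
theorem zero_Om (hB1 : Bas1 D) (hB3 : Bas3 D) {δ : ℝ} (hδ : 0 < δ) (hz : D.DataZero δ) {σ : ℝ}
    (hσ : σ = 1 ∨ σ = -1) {h : ℂ} (hh : h ∈ Om D) (ω : ℂ) : D.EE σ h ω = 0 := by
  have h1 : ∀ w : ℝ, D.EE σ h w = 0 := by
    intro w
    have han : AnalyticOnNhd ℂ (fun h => D.EE σ h w) (Om D) :=
      DifferentiableOn.analyticOnNhd
        (fun h hh => (diff_h hB1 hB3 hσ w hh).differentiableWithinAt) (isOpen_Om D)
    have hfreq : ∃ᶠ h in 𝓝[≠] (0 : ℂ), D.EE σ h w = 0 :=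
      (tendsto_small hδ).frequently (Filter.Frequently.of_forall
        (fun n => hz _ (small_lt hδ n) σ hσ w))
    exact han.eqOn_zero_of_preconnected_of_frequently_eq_zero (pre_Om D) (zero_mem D) hfreq hh
  have han : AnalyticOnNhd ℂ (fun ω => D.EE σ h ω) univ :=
    DifferentiableOn.analyticOnNhd
      (fun w _ => (diff_w hB1 hσ hh w).differentiableWithinAt) isOpen_univ
  have hfreq : ∃ᶠ w in 𝓝[≠] (0 : ℂ), D.EE σ h w = 0 :=
    (tendsto_small hδ).frequently (Filter.Frequently.of_forall (fun n => h1 _))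
  exact han.eqOn_zero_of_preconnected_of_frequently_eq_zero isPreconnected_univ
    (mem_univ (0 : ℂ)) hfreq (mem_univ ω)

/-- the Fourier integral converges to its boundary value -/
theorem lim_Ph (hB1 : Bas1 D) (hB3 : Bas3 D) (ω : ℂ) {k : ℝ} (hk : -D.a < k) (x : ℝ) :
    Tendsto (fun ε : ℝ => D.Ph ((k : ℂ) + ε * I) x ω) (𝓝[>] 0) (𝓝 (D.Ph k x ω)) := by
  have hR := Rpos D
  have hre : ∀ ε : ℝ, ((k : ℂ) + ε * I).re = k := by intro ε; simp
  have hk' : ∀ ε : ℝ, ((k : ℂ) + ε * I).im ≠ 0 ∨ -D.a < ((k : ℂ) + ε * I).re := by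
    intro ε
    right
    rw [hre]
    exact hk
  have hk0 : ((k : ℂ)).im ≠ 0 ∨ -D.a < ((k : ℂ)).re := Or.inr (by rwa [ofReal_re])
  apply intervalIntegral.tendsto_integral_filter_of_dominated_convergence
    (bound := fun _ => D.B * Real.exp (‖ω‖ * (2 * D.R * (√(D.a + k))⁻¹)) * (√(D.a + k))⁻¹)
  · apply Eventually.of_forall
    intro ε
    exact (((phi_meas D x).mul (Complex.measurable_exp.comp
      ((continuous_const.mul (cont_BB hB1 (hk' ε))).neg.measurable))).mul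
      (cont_pyi hB1 (hk' ε)).measurable).aestronglyMeasurable
  · apply Eventually.of_forall
    intro ε
    apply Eventually.of_forall
    intro y hy
    rw [uIoc_of_le (le_RR D)] at hy
    rw [norm_mul, norm_mul]
    have h1 := phi_norm D x y
    have h2 : ‖cexp (-(I * ω * D.BB ((k : ℂ) + ε * I) y))‖ ≤
        Real.exp (‖ω‖ * (2 * D.R * (√(D.a + k))⁻¹)) := by
      apply norm_cexp_le
      rw [norm_nio, BB_be]
      have h3 := hB3.be_low_le ((k : ℂ) + ε * I) y (-D.R) (by rw [hre]; exact hk)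
      rw [hre] at h3
      have h4 : |y - -D.R| ≤ 2 * D.R := by
        rw [abs_of_nonneg (by linarith [hy.1])]
        linarith [hy.2]
      have h5 : |y - -D.R| * (√(D.a + k))⁻¹ ≤ 2 * D.R * (√(D.a + k))⁻¹ := by gcongr
      gcongr
      exact h3.trans h5
    have h3 := hB1.pyi_low ((k : ℂ) + ε * I) y (by rw [hre]; exact hk)
    rw [hre] at h3
    have h5 := B0 D
    gcongr
  · exact intervalIntegrable_const
  · apply Eventually.of_forall
    intro y _
    apply Tendsto.mul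
    · apply Tendsto.const_mul
      apply (Complex.continuous_exp.tendsto _).comp
      apply Tendsto.neg
      apply Tendsto.const_mul
      exact hB3.be_lim k y (-D.R) hk
    · exact (hB1.py_lim k y).inv₀ (py_ne hB1 hk0 y)

/-- convergence to the boundary values -/
theorem lim_EE (hB1 : Bas1 D) (hB3 : Bas3 D) {σ : ℝ} (hσ : σ = 1 ∨ σ = -1) (ω : ℂ) {k : ℝ}
    (hg : D.Gd k) (hk : -D.a < k) :
    Tendsto (fun ε : ℝ => D.EE σ ((k : ℂ) + ε * I) ω) (𝓝[>] 0) (𝓝 (D.EE σ k ω)) := by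
  have hR := Rpos D
  have hre : ∀ ε : ℝ, ((k : ℂ) + ε * I).re = k := by intro ε; simp
  have him : ∀ ε : ℝ, ((k : ℂ) + ε * I).im = ε := by intro ε; simp
  have hne : ∀ᵐ x : ℝ, x ∈ Icc (-D.R) D.R → D.U x ≠ k :=
    (ae_restrict_iff' measurableSet_Icc).1 hg.ne
  set W : ℝ := ∫ s in (-D.R)..D.R, D.wU k s with hW
  set c : ℝ := (√(D.a + k))⁻¹ with hc
  set C : ℝ := c + ‖ω‖ * (2 * D.R * c) with hC
  have hc0 : 0 ≤ c := by rw [hc]; positivity
  have hC1 : c ≤ C := by
    rw [hC]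
    have : 0 ≤ ‖ω‖ * (2 * D.R * c) := by positivity
    linarith
  have hC2 : ‖ω‖ * (2 * D.R * c) ≤ C := by rw [hC]; linarith
  apply intervalIntegral.tendsto_integral_filter_of_dominated_convergence
    (bound := fun x => (D.B * Real.exp C * C * (2 * D.R) * Real.exp (‖ω‖ * W)) * D.wU k x)
  · filter_upwards [self_mem_nhdsWithin] with ε hε
    have hε' : (0 : ℝ) < ε := hε
    have hO : ((k : ℂ) + ε * I) ∈ Om D := Or.inl (by rw [him]; exact hε')
    exact (((inner_meas D ((continuous_const.mul (cont_BB hB1 (om_y hO))).neg.measurable)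
      (cont_pyi hB1 (om_y hO)).measurable).mul (Complex.measurable_exp.comp
      ((continuous_const.mul (cont_AA hB1 (om_x hO))).measurable))).mul
      (cont_pxi hB1 (om_x hO)).measurable).aestronglyMeasurable
  · filter_upwards [self_mem_nhdsWithin] with ε hε
    have hε' : (0 : ℝ) < ε := hε
    filter_upwards [hne] with x hx hxI
    rw [uIoc_of_le (le_RR D)] at hxI
    have hxI' := Ioc_subset_Icc_self hxI
    rw [norm_mul, norm_mul]
    have h1 : ‖D.Ph ((k : ℂ) + ε * I) x ω‖ ≤ D.B * Real.exp C * C * (2 * D.R) := by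
      apply inner_norm D
      · intro y hy
        rw [norm_nio, BB_be]
        refine le_trans ?_ hC2
        have h3 := hB3.be_low_le ((k : ℂ) + ε * I) y (-D.R) (by rw [hre]; exact hk)
        rw [hre, ← hc] at h3
        have h4 : |y - -D.R| ≤ 2 * D.R := by
          rw [abs_of_nonneg (by linarith [hy.1])]
          linarith [hy.2]
        have h5 : |y - -D.R| * c ≤ 2 * D.R * c := by gcongr
        gcongr
        exact h3.trans h5
      · intro y hy
        refine le_trans ?_ hC1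
        have h3 := hB1.pyi_low ((k : ℂ) + ε * I) y (by rw [hre]; exact hk)
        rwa [hre] at h3
    have h2 : ‖cexp (I * ω * σ * D.AA ((k : ℂ) + ε * I) x)‖ ≤ Real.exp (‖ω‖ * W) := by
      apply norm_cexp_le
      rw [norm_ios hσ, AA_ga _ hxI'.1]
      have h3 := hB3.ga_w_le k ε (-D.R) x hg hε'.le (left_mem_Icc.2 (le_RR D)) hxI'
      gcongr
    have h3 := hB1.pxi_w ((k : ℂ) + ε * I) x (by rw [hre]; exact hx hxI')
    rw [hre] at h3
    have h4 : 0 ≤ D.B * Real.exp C * C * (2 * D.R) := (norm_nonneg _).trans h1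
    gcongr
  · exact hg.int.const_mul _
  · filter_upwards [hne] with x hx hxI
    rw [uIoc_of_le (le_RR D)] at hxI
    have hxI' := Ioc_subset_Icc_self hxI
    have hx0 : D.px (k : ℂ) x ≠ 0 := by
      intro h0
      have h1 := hB1.px_sq k x
      rw [h0] at h1
      apply hx hxI'
      have h2 : (D.U x : ℂ) - (k : ℂ) = 0 := by
        rw [← h1]
        ring
      exact_mod_cast sub_eq_zero.1 h2
    apply Tendsto.mul
    · apply Tendsto.mul (lim_Ph hB1 hB3 ω hk x)
      apply (Complex.continuous_exp.tendsto _).comp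
      apply Tendsto.const_mul
      have h1 : ∀ h : ℂ, D.AA h x = D.ga h (-D.R) x := fun h => AA_ga h hxI'.1
      simp only [h1]
      exact hB3.ga_lim k (-D.R) x hg (left_mem_Icc.2 (le_RR D)) hxI'
    · exact (hB1.px_lim k x).inv₀ hx0

end EZAux

/-- **the data vanish at all good levels** -/
theorem ez (hB1 : Stmt_BAS1) (hB2 : Stmt_BAS2) (hB3 : Stmt_BAS3) : Stmt_EZ := by
  intro D δ hδ hz k hg hk
  refine ⟨hg, hk, fun σ hσ ω => ?_⟩
  have _ := hB2
  have h1 := EZAux.lim_EE (hB1 D) (hB3 D) hσ ω hg hk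
  have h2 : (fun ε : ℝ => D.EE σ ((k : ℂ) + ε * I) ω) =ᶠ[𝓝[>] 0] fun _ => (0 : ℂ) := by
    filter_upwards [self_mem_nhdsWithin] with ε hε
    have hε' : (0 : ℝ) < ε := hε
    exact EZAux.zero_Om (hB1 D) (hB3 D) hδ hz hσ (Or.inl (by simpa using hε')) ω
  exact tendsto_nhds_unique h1 (tendsto_const_nhds.congr' h2.symm)

end Pool.Agent.LIO
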