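import Pool.Agent.LIO.Geo

/-!
# Liouville metrics: the case of Euclidean coordinates (module FIN, helper82)
-/

set_option autoImplicit false

namespace Pool.Agent.LIO

open MeasureTheory Set Filter Topology Pool.Agent.XRay

namespace FINAux

/-- the splitting of the first two coordinates, as a linear equivalence -/
noncomputable def lin (n : ℕ) :
    ((ℝ × ℝ) × EuclideanSpace ℝ (Fin n)) ≃ₗ[ℝ] EuclideanSpace ℝ (Fin (n + 2)) where
  toFun z := WithLp.toLp 2 (Fin.cons (α := fun _ => ℝ) z.1.1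
    (Fin.cons (α := fun _ => ℝ) z.1.2 (fun i => z.2 i)))
  map_add' := by
    intro x y
    ext i
    refine Fin.cases ?_ (fun j => Fin.cases ?_ (fun k => ?_) j) i
    · simp
    · simp
    · simp
  map_smul' := by
    intro c x
    ext i
    refine Fin.cases ?_ (fun j => Fin.cases ?_ (fun k => ?_) j) i
    · simp
    · simp
    · simp
  invFun v := ((v 0, v 1), WithLp.toLp 2 (fun i => v i.succ.succ))
  left_inv := by
    intro z
    ext
    · rfl
    · rfl
    · rfl
  right_inv := by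
    intro v
    ext i
    refine Fin.cases ?_ (fun j => Fin.cases ?_ (fun k => ?_) j) i
    · rfl
    · rfl
    · rfl

/-- the splitting of the first two coordinates -/
noncomputable def ee (n : ℕ) :
    ((ℝ × ℝ) × EuclideanSpace ℝ (Fin n)) ≃L[ℝ] EuclideanSpace ℝ (Fin (n + 2)) :=
  (lin n).toContinuousLinearEquiv

lemma symm_x {n : ℕ} (z : EuclideanSpace ℝ (Fin (n + 2))) : ((ee n).symm z).1.1 = z 0 := rfl

lemma symm_y {n : ℕ} (z : EuclideanSpace ℝ (Fin (n + 2))) : ((ee n).symm z).1.2 = z 1 := rfl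

lemma symm_w {n : ℕ} (z : EuclideanSpace ℝ (Fin (n + 2))) (i : Fin n) :
    ((ee n).symm z).2 i = z i.succ.succ := rfl

lemma ee_x {n : ℕ} (z : (ℝ × ℝ) × EuclideanSpace ℝ (Fin n)) : (ee n z) 0 = z.1.1 := rfl

lemma ee_y {n : ℕ} (z : (ℝ × ℝ) × EuclideanSpace ℝ (Fin n)) : (ee n z) 1 = z.1.2 := rfl

lemma ee_w {n : ℕ} (z : (ℝ × ℝ) × EuclideanSpace ℝ (Fin n)) (i : Fin n) :
    (ee n z) i.succ.succ = z.2 i := rfl

/-- the indices that are at least two -/
lemma idx {n : ℕ} (i : Fin (n + 2)) (hi : 2 ≤ (i : ℕ)) : ∃ j : Fin n, i = j.succ.succ := by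
  obtain ⟨i, hi'⟩ := i
  obtain ⟨k, rfl⟩ : ∃ k, i = k + 2 := ⟨i - 2, by simp at hi; omega⟩
  exact ⟨⟨k, by omega⟩, rfl⟩

lemma null {n : ℕ} {S : Set (EuclideanSpace ℝ (Fin (n + 2)))} (hS : volume S = 0) :
    (volume : Measure ((ℝ × ℝ) × EuclideanSpace ℝ (Fin n))) (ee n ⁻¹' S) = 0 := by
  have h0 : (volume : Measure ((ℝ × ℝ) × EuclideanSpace ℝ (Fin n))).IsAddHaarMeasure := by
    rw [Measure.volume_eq_prod]; infer_instance
  have h1 : (Measure.map (ee n)
      (volume : Measure ((ℝ × ℝ) × EuclideanSpace ℝ (Fin n)))).IsAddHaarMeasure :=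
    (ee n).isAddHaarMeasure_map volume
  have h2 : Measure.map (ee n) (volume : Measure ((ℝ × ℝ) × EuclideanSpace ℝ (Fin n))) ≪
      (volume : Measure (EuclideanSpace ℝ (Fin (n + 2)))) :=
    Measure.absolutelyContinuous_isAddHaarMeasure _ _
  have h3 := h2 hS
  rw [← nonpos_iff_eq_zero, ← h3]
  exact Measure.le_map_apply (ee n).continuous.aemeasurable S

end FINAux

open FINAux in
theorem fin_ (hA : Stmt_ABS) : Stmt_FIN := by
  intro n U V G hU hV hG hGE M f h₀ δ hM hfr hf hδ hh hz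
  refine hA (EuclideanSpace ℝ (Fin (n + 2))) (EuclideanSpace ℝ (Fin n)) (ee n) G U V hG hU hV
    ?_ M f h₀ δ hM (null hfr) hf hδ ?_ ?_
  · intro z v w
    have h1 := hGE z (ee n (v, 0)) w (by
      intro i hi
      obtain ⟨j, rfl⟩ := idx i hi
      rw [ee_w]
      rfl)
    rw [ee_x, ee_y] at h1
    rw [symm_x, symm_y, symm_x, symm_y]
    exact h1
  · intro z hz
    rw [symm_x, symm_y]
    exact hh z hz
  · intro γ u v s t hus hst htv hγ hc hseg
    refine hz γ u v s t hus hst htv hγ ?_ hseg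
    intro τ hτ
    obtain ⟨h1, h2⟩ := hc τ hτ
    rw [symm_x, symm_y, symm_x, symm_y] at h2
    refine ⟨?_, h2⟩
    intro i hi
    obtain ⟨j, rfl⟩ := idx i hi
    rw [← symm_w, h1]
    rfl

end Pool.Agent.LIO
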