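import Pool.Agent.LIO.Geo

/-!
# Liouville metrics: the flows of the two momenta
-/

set_option autoImplicit false

namespace Pool.Agent.LIO

open MeasureTheory Set Filter Topology

namespace FLOWAux

/-- the inverse function of a primitive of a function which is bounded below -/
lemma inverse (R : ℝ) (g : ℝ → ℝ) (hg : Continuous g) (c : ℝ) (hc : 0 < c) (hcg : ∀ x, c ≤ g x) :
    ∃ X : ℝ → ℝ, (∀ s, HasDerivAt X (g (X s))⁻¹ s) ∧ (∀ x, X (∫ s in (-R)..x, g s) = x) ∧
      ∀ s, ∫ t in (-R)..(X s), g t = s := by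
  have hd : ∀ x, HasDerivAt (fun x => ∫ s in (-R)..x, g s) (g x) x := fun x =>
    intervalIntegral.integral_hasDerivAt_right (hg.intervalIntegrable _ _)
      (hg.stronglyMeasurableAtFilter _ _) hg.continuousAt
  have hcont : Continuous (fun x => ∫ s in (-R)..x, g s) :=
    continuous_iff_continuousAt.2 fun x => (hd x).continuousAt
  have hpos : ∀ x, 0 < g x := fun x => hc.trans_le (hcg x)
  have hmono : StrictMono (fun x => ∫ s in (-R)..x, g s) :=
    strictMono_of_hasDerivAt_pos hd hpos
  have hlow : ∀ x y, x ≤ y → c * (y - x) ≤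
      (∫ s in (-R)..y, g s) - ∫ s in (-R)..x, g s := by
    intro x y hxy
    rw [intervalIntegral.integral_interval_sub_left (hg.intervalIntegrable _ _)
      (hg.intervalIntegrable _ _)]
    have h1 : ∫ s in x..y, c ≤ ∫ s in x..y, g s :=
      intervalIntegral.integral_mono_on hxy intervalIntegrable_const
        (hg.intervalIntegrable _ _) fun s _ => hcg s
    rw [intervalIntegral.integral_const, smul_eq_mul] at h1
    linarith
  have htop : Tendsto (fun x => ∫ s in (-R)..x, g s) atTop atTop := by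
    have h1 : Tendsto (fun x : ℝ => c * (x - (-R))) atTop atTop :=
      (tendsto_atTop_add_const_right atTop (-(-R)) tendsto_id).const_mul_atTop hc
    refine tendsto_atTop_mono' atTop ?_ h1
    filter_upwards [eventually_ge_atTop (-R)] with x hx
    have h2 := hlow (-R) x hx
    rw [intervalIntegral.integral_same, sub_zero] at h2
    exact h2
  have hbot : Tendsto (fun x => ∫ s in (-R)..x, g s) atBot atBot := by
    have h1 : Tendsto (fun x : ℝ => c * (x - (-R))) atBot atBot :=
      (tendsto_atBot_add_const_right atBot (-(-R)) tendsto_id).const_mul_atBot hc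
    refine tendsto_atBot_mono' atBot ?_ h1
    filter_upwards [eventually_le_atBot (-R)] with x hx
    have h2 := hlow x (-R) hx
    rw [intervalIntegral.integral_same, zero_sub] at h2
    have h3 : c * (-R - x) = -(c * (x - -R)) := by ring
    rw [h3] at h2
    linarith
  have hsurj : Function.Surjective (fun x => ∫ s in (-R)..x, g s) :=
    hcont.surjective htop hbot
  let e : ℝ ≃o ℝ := hmono.orderIsoOfSurjective _ hsurj
  have he : ∀ x, e x = ∫ s in (-R)..x, g s := fun x => rfl
  have h1 : ∀ x, e.symm (∫ s in (-R)..x, g s) = x := fun x => by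
    rw [← he x, e.symm_apply_apply]
  have h2 : ∀ s, ∫ t in (-R)..(e.symm s), g t = s := fun s => by
    rw [← he, e.apply_symm_apply]
  refine ⟨fun s => e.symm s, fun s => ?_, h1, h2⟩
  exact HasDerivAt.of_local_left_inverse (e.symm.continuous.continuousAt) (hd (e.symm s))
    (hpos _).ne' (Eventually.of_forall h2)

/-- the flow of one momentum -/
lemma flow1 (R a B h : ℝ) (U : ℝ → ℝ) (hU : Continuous U) (ha : ∀ x, a ≤ U x)
    (hB : ∀ x, U x ≤ B) (hh : h < a) :
    ∃ X : ℝ → ℝ, (∀ s, HasDerivAt X (√(U (X s) - h)) s) ∧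
      (∀ x, X (∫ s in (-R)..x, (√(U s - h))⁻¹) = x) ∧
      ∀ s, ∫ t in (-R)..(X s), (√(U t - h))⁻¹ = s := by
  have hpos : ∀ x, 0 < √(U x - h) := fun x => Real.sqrt_pos.2 (by linarith [ha x])
  have hcont : Continuous (fun x => (√(U x - h))⁻¹) :=
    (Real.continuous_sqrt.comp (hU.sub continuous_const)).inv₀ fun x => (hpos x).ne'
  have hBpos : 0 < √(B - h) := Real.sqrt_pos.2 (by linarith [ha 0, hB 0])
  obtain ⟨X, h1, h2, h3⟩ := inverse R (fun x => (√(U x - h))⁻¹) hcont (√(B - h))⁻¹
    (inv_pos.2 hBpos) fun x =>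
      inv_anti₀ (hpos x) (Real.sqrt_le_sqrt (by linarith [hB x]))
  refine ⟨X, fun s => ?_, h2, h3⟩
  have h4 := h1 s
  rwa [inv_inv] at h4

end FLOWAux

/-- **the flows exist** -/
theorem flow : Stmt_FLOW := by
  intro D h hh
  have h1 := abs_lt.1 hh
  obtain ⟨X, hX1, hX2, hX3⟩ := FLOWAux.flow1 D.R D.a D.B h D.U D.Us.continuous D.Ua D.UB h1.2
  obtain ⟨Y, hY1, hY2, hY3⟩ := FLOWAux.flow1 D.R D.a D.B (-h) D.V D.Vs.continuous D.Va D.VB
    (by linarith [h1.1])
  simp only [sub_neg_eq_add] at hY1 hY2 hY3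
  exact ⟨X, Y, ⟨hX1, hY1, hX2, hX3, hY2, hY3⟩⟩

end Pool.Agent.LIO
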