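import Pool.Agent.LIO.Stmts

/-!
# Liouville metrics: the functionals `FS`, `FP` (module FOK)
-/

set_option autoImplicit false

namespace Pool.Agent.LIO

open Complex MeasureTheory Set Filter Topology

namespace FOKAux

/-- a linear combination of two functions with the four properties has the four properties -/
theorem lin {D : LD} {A B : ℂ → ℂ} (hA : FOK D A) (hB : FOK D B) (s t : ℂ) :
    FOK D (fun h => s * A h + t * B h) where
  hol := (hA.hol.const_mul s).add (hB.hol.const_mul t)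
  gro := by
    obtain ⟨C₁, h₁⟩ := hA.gro
    obtain ⟨C₂, h₂⟩ := hB.gro
    refine ⟨‖s‖ * C₁ + ‖t‖ * C₂, fun h h0 h2 h3 => ?_⟩
    refine (norm_add_le _ _).trans ?_
    rw [norm_mul, norm_mul]
    have e₁ := mul_le_mul_of_nonneg_left (h₁ h h0 h2 h3) (norm_nonneg s)
    have e₂ := mul_le_mul_of_nonneg_left (h₂ h h0 h2 h3) (norm_nonneg t)
    linarith
  dom := by
    intro K
    obtain ⟨C₁, h₁⟩ := hA.dom K
    obtain ⟨C₂, h₂⟩ := hB.dom K
    refine ⟨‖s‖ * C₁ + ‖t‖ * C₂, fun k ε hG hk hK h0 h1 => ?_⟩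
    refine (norm_add_le _ _).trans ?_
    rw [norm_mul, norm_mul]
    have e₁ := mul_le_mul_of_nonneg_left (h₁ k ε hG hk hK h0 h1) (norm_nonneg s)
    have e₂ := mul_le_mul_of_nonneg_left (h₂ k ε hG hk hK h0 h1) (norm_nonneg t)
    linarith
  lim := fun k hG hk => ((hA.lim k hG hk).const_mul s).add ((hB.lim k hG hk).const_mul t)

theorem measurable_sg : Measurable (fun z : ℝ × ℝ => sg z.1 z.2) := by
  have : MeasurableSet {z : ℝ × ℝ | z.1 < z.2} := measurableSet_lt measurable_fst measurable_snd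
  exact Measurable.ite this measurable_const measurable_const

theorem abs_sg (x x' : ℝ) : |sg x x'| ≤ 1 := by
  unfold sg
  split_ifs <;> simp

end FOKAux

open FOKAux in
theorem fok (hQ : Stmt_QOK) (hH : Stmt_HOL) (hG : Stmt_GRO) (hD : Stmt_DOM) (hL : Stmt_LIM) :
    Stmt_FOK := by
  have key : ∀ (D : LD) (m : ℝ → ℝ → ℝ) (Q : ℂ → ℝ → ℝ → ℂ) (τ : ℝ), HOK D m Q τ →
      FOK D (D.HH m Q τ) := fun D m Q τ h =>
    ⟨hH D m Q τ h, hG D m Q τ h, hD D m Q τ h, hL D m Q τ h⟩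
  intro D ψ hψ
  obtain ⟨q1, q2⟩ := hQ D ψ hψ
  have a1 : ∀ τ : ℝ, (τ = 1 ∨ τ = -1) → HOK D (fun _ _ => 1) (D.QS ψ) τ := fun τ hτ =>
    ⟨measurable_const, fun _ _ => by simp, q1, hτ⟩
  have a2 : ∀ τ : ℝ, (τ = 1 ∨ τ = -1) → HOK D sg (D.QP ψ) τ := fun τ hτ =>
    ⟨measurable_sg, abs_sg, q2, hτ⟩
  constructor
  · have := lin (key D _ _ _ (a1 1 (Or.inl rfl))) (key D _ _ _ (a1 (-1) (Or.inr rfl)))
      (-(2 * Real.pi * I)⁻¹) ((2 * Real.pi * I)⁻¹)
    have e : D.FS ψ = fun h => (-(2 * Real.pi * I)⁻¹) * D.HH (fun _ _ => 1) (D.QS ψ) 1 h +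
        (2 * Real.pi * I)⁻¹ * D.HH (fun _ _ => 1) (D.QS ψ) (-1) h := by
      funext h
      unfold LD.FS
      ring
    rw [e]
    exact this
  · have := lin (key D _ _ _ (a2 1 (Or.inl rfl))) (key D _ _ _ (a2 (-1) (Or.inr rfl)))
      (-(2 * Real.pi * I)⁻¹) (-(2 * Real.pi * I)⁻¹)
    have e : D.FP ψ = fun h => (-(2 * Real.pi * I)⁻¹) * D.HH sg (D.QP ψ) 1 h +
        (-(2 * Real.pi * I)⁻¹) * D.HH sg (D.QP ψ) (-1) h := by
      funext h
      unfold LD.FP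
      ring
    rw [e]
    exact this

end Pool.Agent.LIO
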