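import Pool.Agent.LIO.Geo

/-!
# Liouville metrics: the curves are geodesics
-/

set_option autoImplicit false

namespace Pool.Agent.LIO

open MeasureTheory Set Filter Topology Pool.Agent.XRay

namespace GEOAux

section Metric

variable {E W : Type} [NormedAddCommGroup E] [NormedSpace ℝ E] [NormedAddCommGroup W]
  [NormedSpace ℝ W]

/-- the derivative of the metric in the plane directions -/
lemma fderiv_metric (e : ((ℝ × ℝ) × W) ≃L[ℝ] E) {G : E → E →L[ℝ] E →L[ℝ] ℝ} {U V : ℝ → ℝ}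
    (hG : IsMetric G) (hU : Differentiable ℝ U) (hV : Differentiable ℝ V) (hL : LioM e G U V)
    (z v : E) (ξ : ℝ × ℝ) :
    fderiv ℝ G z v (e (ξ, 0)) (e (ξ, 0)) =
      (deriv U (e.symm z).1.1 * (e.symm v).1.1 + deriv V (e.symm z).1.2 * (e.symm v).1.2) *
        (ξ.1 * ξ.1 + ξ.2 * ξ.2) := by
  have hline : HasDerivAt (fun s : ℝ => z + s • v) v 0 := by
    have h1 : HasDerivAt (fun s : ℝ => s • v) ((1 : ℝ) • v) 0 := (hasDerivAt_id (0 : ℝ)).smul_const v
    rw [one_smul] at h1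
    exact h1.const_add z
  have h0 : z + (0 : ℝ) • v = z := by rw [zero_smul, add_zero]
  have h1 : HasDerivAt (fun s : ℝ => G (z + s • v)) (fderiv ℝ G z v) 0 := by
    have h2 : HasFDerivAt G (fderiv ℝ G z) (z + (0 : ℝ) • v) := by
      rw [h0]
      exact (hG.diff z).hasFDerivAt
    exact HasFDerivAt.comp_hasDerivAt (l := G) (f := fun s : ℝ => z + s • v) (0 : ℝ) h2 hline
  have h2 : HasDerivAt (fun s : ℝ => G (z + s • v) (e (ξ, 0)) (e (ξ, 0)))
      (fderiv ℝ G z v (e (ξ, 0)) (e (ξ, 0))) 0 := by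
    have h3 := (h1.clm_apply (hasDerivAt_const (0 : ℝ) (e (ξ, (0 : W))))).clm_apply
      (hasDerivAt_const (0 : ℝ) (e (ξ, (0 : W))))
    simpa using h3
  have h3 : (fun s : ℝ => G (z + s • v) (e (ξ, 0)) (e (ξ, 0))) = fun s : ℝ =>
      (U ((e.symm z).1.1 + s * (e.symm v).1.1) + V ((e.symm z).1.2 + s * (e.symm v).1.2)) *
        (ξ.1 * ξ.1 + ξ.2 * ξ.2) := by
    funext s
    rw [hL]
    simp [map_add, map_smul]
  rw [h3] at h2
  have hx : HasDerivAt (fun s : ℝ => (e.symm z).1.1 + s * (e.symm v).1.1) (e.symm v).1.1 0 := by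
    have := ((hasDerivAt_id (0 : ℝ)).mul_const (e.symm v).1.1).const_add (e.symm z).1.1
    simpa using this
  have hy : HasDerivAt (fun s : ℝ => (e.symm z).1.2 + s * (e.symm v).1.2) (e.symm v).1.2 0 := by
    have := ((hasDerivAt_id (0 : ℝ)).mul_const (e.symm v).1.2).const_add (e.symm z).1.2
    simpa using this
  have hUx : HasDerivAt (fun s : ℝ => U ((e.symm z).1.1 + s * (e.symm v).1.1))
      (deriv U (e.symm z).1.1 * (e.symm v).1.1) 0 := by
    have h4 : HasDerivAt U (deriv U (e.symm z).1.1) ((e.symm z).1.1 + 0 * (e.symm v).1.1) := by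
      rw [zero_mul, add_zero]
      exact (hU _).hasDerivAt
    exact h4.comp (0 : ℝ) hx
  have hVy : HasDerivAt (fun s : ℝ => V ((e.symm z).1.2 + s * (e.symm v).1.2))
      (deriv V (e.symm z).1.2 * (e.symm v).1.2) 0 := by
    have h4 : HasDerivAt V (deriv V (e.symm z).1.2) ((e.symm z).1.2 + 0 * (e.symm v).1.2) := by
      rw [zero_mul, add_zero]
      exact (hV _).hasDerivAt
    exact h4.comp (0 : ℝ) hy
  exact h2.unique ((hUx.add hVy).mul_const _)

end Metric

section Curve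

variable {D : LD} {h σ c : ℝ} {X Y T S : ℝ → ℝ}

/-- the conformal factor along the curve -/
def ww (D : LD) (σ c : ℝ) (X Y : ℝ → ℝ) (τ : ℝ) : ℝ := D.U (X (σ * (τ - c))) + D.V (Y τ)

lemma ww_pos (D : LD) (σ c : ℝ) (X Y : ℝ → ℝ) (τ : ℝ) : 0 < ww D σ c X Y τ := by
  have h1 := D.Ua (X (σ * (τ - c)))
  have h2 := D.Va (Y τ)
  have h3 := D.a0
  unfold ww
  linarith

lemma T_mono (hT : ∀ τ, HasDerivAt T (ww D σ c X Y τ) τ) : StrictMono T :=
  strictMono_of_deriv_pos fun τ => by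
    rw [(hT τ).deriv]
    exact ww_pos D σ c X Y τ

lemma S_deriv (hT : ∀ τ, HasDerivAt T (ww D σ c X Y τ) τ) (hST : ∀ τ, S (T τ) = τ)
    (hTS : ∀ t, T (S t) = t) (t : ℝ) : HasDerivAt S (ww D σ c X Y (S t))⁻¹ t := by
  have hmono := T_mono hT
  have hSm : Monotone S := by
    intro s t hst
    rw [← hmono.le_iff_le, hTS, hTS]
    exact hst
  have hSc : Continuous S := hSm.continuous_of_surjective fun τ => ⟨T τ, hST τ⟩
  exact HasDerivAt.of_local_left_inverse hSc.continuousAt (hT (S t))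
    (ww_pos D σ c X Y (S t)).ne' (Eventually.of_forall hTS)

end Curve

end GEOAux

open GEOAux in
theorem geo : Stmt_GEO := by
  intro E W _ _ _ _ e G U V hG hU hV hL D h h₀ σ c X Y T S w₀ hh hF hσ hT hST hTS a b hab hUV
  have hσ2 : σ * σ = 1 := by
    rcases hσ with rfl | rfl <;> norm_num
  have hT' : ∀ τ, HasDerivAt T (ww D σ c X Y τ) τ := hT
  have hmono := T_mono hT'
  have hS := S_deriv hT' hST hTS
  have hmem : ∀ t ∈ Ioo (T a) (T b), S t ∈ Ioo a b := by
    intro t ht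
    constructor
    · rw [← hmono.lt_iff_lt, hTS]
      exact ht.1
    · rw [← hmono.lt_iff_lt, hTS]
      exact ht.2
  -- positivity
  have hpx : ∀ x, 0 < D.U x - h := fun x => by
    have h1 := D.Ua x
    have h2 := (abs_lt.mp hh).2
    linarith
  have hpy : ∀ y, 0 < D.V y + h := fun y => by
    have h1 := D.Va y
    have h2 := (abs_lt.mp hh).1
    linarith
  -- the coordinates
  have hXd : ∀ t, HasDerivAt (fun t => X (σ * (S t - c)))
      (σ * √(D.U (X (σ * (S t - c))) - h) / ww D σ c X Y (S t)) t := by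
    intro t
    have h1 : HasDerivAt (fun t => σ * (S t - c)) (σ * (ww D σ c X Y (S t))⁻¹) t :=
      ((hS t).sub_const c).const_mul σ
    have h2 := (hF.hX (σ * (S t - c))).comp t h1
    refine h2.congr_deriv ?_
    ring
  have hYd : ∀ t, HasDerivAt (fun t => Y (S t))
      (√(D.V (Y (S t)) + h) / ww D σ c X Y (S t)) t := by
    intro t
    have h2 := (hF.hY (S t)).comp t (hS t)
    refine h2.congr_deriv ?_
    ring
  have hγd : ∀ t, HasDerivAt (fun t => cv e X Y σ c w₀ (S t))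
      (e ((σ * √(D.U (X (σ * (S t - c))) - h) / ww D σ c X Y (S t),
        √(D.V (Y (S t)) + h) / ww D σ c X Y (S t)), 0)) t := by
    intro t
    have h1 := ((hXd t).prodMk (hYd t)).prodMk (hasDerivAt_const t w₀)
    exact (e.toContinuousLinearMap.hasFDerivAt).comp_hasDerivAt t h1
  have hsymm : ∀ t, e.symm (cv e X Y σ c w₀ (S t)) = ((X (σ * (S t - c)), Y (S t)), w₀) := by
    intro t
    unfold cv
    rw [ContinuousLinearEquiv.symm_apply_apply]
  -- the conformal factor
  have hw : ∀ t ∈ Ioo (T a) (T b), U (X (σ * (S t - c))) + V (Y (S t)) = ww D σ c X Y (S t) := by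
    intro t ht
    obtain ⟨h1, h2⟩ := hUV (S t) (hmem t ht)
    have h3 := h1.self_of_nhds
    have h4 := h2.self_of_nhds
    unfold ww
    rw [h3, h4]
    ring
  have hnorm : ∀ t, (σ * √(D.U (X (σ * (S t - c))) - h) / ww D σ c X Y (S t)) *
      (σ * √(D.U (X (σ * (S t - c))) - h) / ww D σ c X Y (S t)) +
      (√(D.V (Y (S t)) + h) / ww D σ c X Y (S t)) * (√(D.V (Y (S t)) + h) / ww D σ c X Y (S t)) =
      (ww D σ c X Y (S t))⁻¹ := by
    intro t
    have h1 := (ww_pos D σ c X Y (S t)).ne'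
    have h2 := Real.mul_self_sqrt (hpx (X (σ * (S t - c)))).le
    have h3 := Real.mul_self_sqrt (hpy (Y (S t))).le
    have h4 : (σ * √(D.U (X (σ * (S t - c))) - h)) * (σ * √(D.U (X (σ * (S t - c))) - h)) +
        √(D.V (Y (S t)) + h) * √(D.V (Y (S t)) + h) = ww D σ c X Y (S t) := by
      rw [mul_mul_mul_comm, hσ2, one_mul, h2, h3]
      unfold ww
      ring
    field_simp
    rw [← h4]
    ring
  refine ⟨⟨fun t _ => (hγd t).differentiableAt, ?_, ?_⟩, fun t _ => hγd t⟩
  · intro t ht v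
    have hev : (fun s => G (cv e X Y σ c w₀ (S s)) (deriv (fun t => cv e X Y σ c w₀ (S t)) s) v)
        =ᶠ[𝓝 t] fun s => σ * √(D.U (X (σ * (S s - c))) - h) * (e.symm v).1.1 +
          √(D.V (Y (S s)) + h) * (e.symm v).1.2 := by
      filter_upwards [Ioo_mem_nhds ht.1 ht.2] with s hs
      have h1 := (ww_pos D σ c X Y (S s)).ne'
      rw [(hγd s).deriv, hL, hsymm]
      simp only
      rw [hw s hs]
      field_simp
    refine HasDerivAt.congr_of_eventuallyEq ?_ hev
    obtain ⟨h1, h2⟩ := hUV (S t) (hmem t ht)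
    have hdU : deriv U (X (σ * (S t - c))) = deriv D.U (X (σ * (S t - c))) := by
      have h3 : D.U =ᶠ[𝓝 (X (σ * (S t - c)))] fun x => U x - h₀ := h1
      rw [h3.deriv_eq, deriv_sub_const]
    have hdV : deriv V (Y (S t)) = deriv D.V (Y (S t)) := by
      have h3 : D.V =ᶠ[𝓝 (Y (S t))] fun y => V y + h₀ := h2
      rw [h3.deriv_eq, deriv_add_const]
    have hDU : HasDerivAt D.U (deriv D.U (X (σ * (S t - c)))) (X (σ * (S t - c))) :=
      ((D.Us.differentiable (by simp)) _).hasDerivAt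
    have hDV : HasDerivAt D.V (deriv D.V (Y (S t))) (Y (S t)) :=
      ((D.Vs.differentiable (by simp)) _).hasDerivAt
    have h3 : HasDerivAt (fun s => D.U (X (σ * (S s - c))) - h)
        (deriv D.U (X (σ * (S t - c))) *
          (σ * √(D.U (X (σ * (S t - c))) - h) / ww D σ c X Y (S t))) t :=
      (hDU.comp t (hXd t)).sub_const h
    have h4 : HasDerivAt (fun s => D.V (Y (S s)) + h)
        (deriv D.V (Y (S t)) * (√(D.V (Y (S t)) + h) / ww D σ c X Y (S t))) t :=
      (hDV.comp t (hYd t)).add_const h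
    have h5 := h3.sqrt (hpx _).ne'
    have h6 := h4.sqrt (hpy _).ne'
    have h7 := ((h5.const_mul σ).mul_const (e.symm v).1.1).add (h6.mul_const (e.symm v).1.2)
    refine h7.congr_deriv ?_
    rw [(hγd t).deriv, fderiv_metric e hG hU hV hL, hsymm]
    simp only
    rw [hnorm t, hdU, hdV]
    have e1 := (ww_pos D σ c X Y (S t)).ne'
    have e2 : √(D.U (X (σ * (S t - c))) - h) ≠ 0 := (Real.sqrt_pos.mpr (hpx _)).ne'
    have e3 : √(D.V (Y (S t)) + h) ≠ 0 := (Real.sqrt_pos.mpr (hpy _)).ne'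
    have e4 : σ ^ 2 = 1 := by rw [sq, hσ2]
    field_simp
    rw [e4]
    ring
  · intro t ht
    rw [(hγd t).deriv, hL, hsymm]
    simp only [ContinuousLinearEquiv.symm_apply_apply]
    rw [hw t ht, hnorm t]
    exact mul_inv_cancel₀ (ww_pos D σ c X Y (S t)).ne'

end Pool.Agent.LIO
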