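import Pool.Agent.LIO.Stmts

/-!
# Liouville metrics: the module GLC

For a point `z` of the upper half plane, the function `(F w - F z) / ((w - z) (w - conj z))` is
holomorphic; Cauchy's theorem on the rectangle `[-R, R] × [ε, R]`, `ε → 0` and then `R → ∞`, give
`F z * ∫ dk / |k - z|² = ∫ l(k) dk / |k - z|²`, so `F z` is real.
-/

set_option autoImplicit false

namespace Pool.Agent.LIO

open Complex MeasureTheory Set Filter Topology

namespace GLCAux

/-- the kernel with the removable singularity -/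
noncomputable def ph (F : ℂ → ℂ) (z w : ℂ) : ℂ := dslope F z w * (w - (starRingEnd ℂ) z)⁻¹

lemma ph_eq (F : ℂ → ℂ) {z w : ℂ} (h : w ≠ z) :
    ph F z w = (F w - F z) * ((w - z) * (w - (starRingEnd ℂ) z))⁻¹ := by
  rw [ph, dslope_of_ne _ h, slope_def_field, div_eq_mul_inv, mul_inv, mul_assoc]

lemma isOpen_up : IsOpen {h : ℂ | 0 < h.im} := isOpen_lt continuous_const Complex.continuous_im

lemma ph_diff {F : ℂ → ℂ} (hF : DifferentiableOn ℂ F {h : ℂ | 0 < h.im}) {z : ℂ} (hz : 0 < z.im) :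
    DifferentiableOn ℂ (ph F z) {h : ℂ | 0 < h.im} := by
  have h1 : DifferentiableOn ℂ (dslope F z) {h : ℂ | 0 < h.im} :=
    (Complex.differentiableOn_dslope (isOpen_up.mem_nhds hz)).mpr hF
  refine h1.mul (DifferentiableOn.inv (by fun_prop) ?_)
  intro w hw h0
  have h2 : w = (starRingEnd ℂ) z := sub_eq_zero.mp h0
  have h3 : w.im = -z.im := by rw [h2, Complex.conj_im]
  have h4 : 0 < w.im := hw
  linarith

/-- bound of the kernel far away -/
lemma ph_far {F : ℂ → ℂ} {z w : ℂ} {M R : ℝ} (hR : 2 * ‖z‖ ≤ R) (hR0 : 0 < R) (hw : R ≤ ‖w‖)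
    (hM : ‖F w‖ ≤ M) : ‖ph F z w‖ ≤ (M + ‖F z‖) * (4 / R ^ 2) := by
  have h1 : R / 2 ≤ ‖w - z‖ := by
    have := norm_sub_norm_le w z
    linarith
  have h2 : R / 2 ≤ ‖w - (starRingEnd ℂ) z‖ := by
    have := norm_sub_norm_le w ((starRingEnd ℂ) z)
    rw [Complex.norm_conj] at this
    linarith
  have h0 : w ≠ z := by
    rintro rfl
    rw [sub_self, norm_zero] at h1
    linarith
  rw [ph_eq F h0, norm_mul, norm_inv, norm_mul]
  have h3 : ‖F w - F z‖ ≤ M + ‖F z‖ := (norm_sub_le _ _).trans (by linarith)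
  have h4 : (‖w - z‖ * ‖w - (starRingEnd ℂ) z‖)⁻¹ ≤ 4 / R ^ 2 := by
    rw [inv_le_comm₀ (mul_pos (by linarith) (by linarith)) (by positivity), inv_div]
    calc R ^ 2 / 4 = (R / 2) * (R / 2) := by ring
      _ ≤ _ := mul_le_mul h1 h2 (by positivity) (by positivity)
  exact mul_le_mul h3 h4 (by positivity) ((norm_nonneg _).trans h3)

/-- bound of the kernel near the real line -/
lemma ph_near {F : ℂ → ℂ} {z w : ℂ} {M : ℝ} (hz : 0 < z.im) (hw0 : 0 < w.im)
    (hw : w.im ≤ z.im / 2) (hM : ‖F w‖ ≤ M) :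
    ‖ph F z w‖ ≤ (M + ‖F z‖) * (2 / z.im ^ 2) := by
  have h1 : z.im / 2 ≤ ‖w - z‖ := by
    have := Complex.abs_im_le_norm (w - z)
    rw [Complex.sub_im, abs_sub_comm, abs_of_nonneg (by linarith)] at this
    linarith
  have h2 : z.im ≤ ‖w - (starRingEnd ℂ) z‖ := by
    have := Complex.abs_im_le_norm (w - (starRingEnd ℂ) z)
    rw [Complex.sub_im, Complex.conj_im, sub_neg_eq_add, abs_of_nonneg (by linarith)] at this
    linarith
  have h0 : w ≠ z := by
    rintro rfl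
    linarith
  rw [ph_eq F h0, norm_mul, norm_inv, norm_mul]
  have h3 : ‖F w - F z‖ ≤ M + ‖F z‖ := (norm_sub_le _ _).trans (by linarith)
  have h4 : (‖w - z‖ * ‖w - (starRingEnd ℂ) z‖)⁻¹ ≤ 2 / z.im ^ 2 := by
    rw [inv_le_comm₀ (mul_pos (by linarith) (by linarith)) (by positivity), inv_div]
    calc z.im ^ 2 / 2 = (z.im / 2) * z.im := by ring
      _ ≤ _ := mul_le_mul h1 h2 hz.le (by linarith)
  exact mul_le_mul h3 h4 (by positivity) ((norm_nonneg _).trans h3)

lemma norm_add_im (k ε : ℝ) : ((k : ℂ) + ε * I).im = ε := by simp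

lemma norm_add_re (k ε : ℝ) : ((k : ℂ) + ε * I).re = k := by simp

/-- Cauchy's theorem on the rectangle: the bottom side is small. -/
lemma bottom {F : ℂ → ℂ} (hF : DifferentiableOn ℂ F {h : ℂ | 0 < h.im}) {z : ℂ} (hz : 0 < z.im)
    {R M ε : ℝ} (hR : 2 * ‖z‖ ≤ R) (hR0 : 0 < R) (hε : 0 < ε) (hεR : ε ≤ R)
    (hM : ∀ h : ℂ, 0 < h.im → R ≤ ‖h‖ → ‖h‖ ≤ 2 * R → ‖F h‖ ≤ M) :
    ‖∫ x in (-R)..R, ph F z ((x : ℂ) + ε * I)‖ ≤ 4 * R * ((M + ‖F z‖) * (4 / R ^ 2)) := by
  have hB : ∀ w : ℂ, 0 < w.im → R ≤ ‖w‖ → ‖w‖ ≤ 2 * R →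
      ‖ph F z w‖ ≤ (M + ‖F z‖) * (4 / R ^ 2) := fun w h1 h2 h3 =>
    ph_far hR hR0 h2 (hM w h1 h2 h3)
  have hd := ph_diff hF hz
  have key := Complex.integral_boundary_rect_eq_zero_of_differentiableOn (ph F z)
    (((-R : ℝ) : ℂ) + ε * I) ((R : ℂ) + R * I) (hd.mono (by
      intro w hw
      rw [norm_add_im, norm_add_im] at hw
      have h1 := hw.2
      rw [mem_preimage, uIcc_of_le hεR] at h1
      exact hε.trans_le h1.1))
  rw [norm_add_im, norm_add_im, norm_add_re, norm_add_re] at key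
  have hbd : ∀ x y : ℝ, |x| ≤ R → |y| ≤ R → ‖(x : ℂ) + y * I‖ ≤ 2 * R := by
    intro x y hx hy
    refine (norm_add_le _ _).trans ?_
    rw [norm_mul, Complex.norm_I, mul_one, Complex.norm_real, Complex.norm_real,
      Real.norm_eq_abs, Real.norm_eq_abs]
    linarith
  have htop : ‖∫ x in (-R)..R, ph F z ((x : ℂ) + R * I)‖ ≤
      (M + ‖F z‖) * (4 / R ^ 2) * |R - (-R)| := by
    refine intervalIntegral.norm_integral_le_of_norm_le_const fun x hx => ?_
    rw [uIoc_of_le (by linarith)] at hx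
    have hx' : |x| ≤ R := abs_le.mpr ⟨hx.1.le, hx.2⟩
    refine hB _ (by rw [norm_add_im]; exact hR0) ?_ (hbd x R hx' (abs_of_pos hR0).le)
    have := Complex.abs_im_le_norm ((x : ℂ) + R * I)
    rw [norm_add_im, abs_of_pos hR0] at this
    exact this
  have hside : ∀ c : ℝ, |c| = R → ‖∫ y in ε..R, ph F z ((c : ℂ) + y * I)‖ ≤
      (M + ‖F z‖) * (4 / R ^ 2) * |R - ε| := by
    intro c hc
    refine intervalIntegral.norm_integral_le_of_norm_le_const fun y hy => ?_
    rw [uIoc_of_le hεR] at hy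
    have hy' : |y| ≤ R := abs_le.mpr ⟨by linarith [hy.1], hy.2⟩
    refine hB _ (by rw [norm_add_im]; linarith [hy.1]) ?_ (hbd c y hc.le hy')
    have := Complex.abs_re_le_norm ((c : ℂ) + y * I)
    rw [norm_add_re, hc] at this
    exact this
  have h1 := hside R (abs_of_pos hR0)
  have h2 := hside (-R) (by rw [abs_neg, abs_of_pos hR0])
  have hA : 0 ≤ (M + ‖F z‖) * (4 / R ^ 2) := by
    have := hB ((R : ℂ) + R * I) (by rw [norm_add_im]; exact hR0) (by
      have := Complex.abs_im_le_norm ((R : ℂ) + R * I)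
      rw [norm_add_im, abs_of_pos hR0] at this
      exact this) (hbd R R (abs_of_pos hR0).le (abs_of_pos hR0).le)
    exact (norm_nonneg _).trans this
  have e1 : |R - (-R)| = 2 * R := by
    rw [abs_of_nonneg (by linarith)]
    ring
  have e2 : |R - ε| ≤ R := by
    rw [abs_of_nonneg (by linarith)]
    linarith
  rw [e1] at htop
  have h1' : ‖∫ y in ε..R, ph F z ((R : ℂ) + y * I)‖ ≤ (M + ‖F z‖) * (4 / R ^ 2) * R :=
    h1.trans (mul_le_mul_of_nonneg_left e2 hA)
  have h2' : ‖∫ y in ε..R, ph F z (((-R : ℝ) : ℂ) + y * I)‖ ≤ (M + ‖F z‖) * (4 / R ^ 2) * R :=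
    h2.trans (mul_le_mul_of_nonneg_left e2 hA)
  have h3 : (∫ x in (-R)..R, ph F z ((x : ℂ) + ε * I)) =
      (∫ x in (-R)..R, ph F z ((x : ℂ) + R * I)) -
        I • (∫ y in ε..R, ph F z ((R : ℂ) + y * I)) +
        I • (∫ y in ε..R, ph F z (((-R : ℝ) : ℂ) + y * I)) := by
    linear_combination key
  rw [h3]
  refine (norm_add_le _ _).trans ?_
  refine (add_le_add_left (norm_sub_le _ _) _).trans ?_
  rw [norm_smul, norm_smul, Complex.norm_I, one_mul, one_mul]
  linarith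

/-- The limit `ε → 0`. -/
lemma lim0 {F : ℂ → ℂ} (hF : DifferentiableOn ℂ F {h : ℂ | 0 < h.im})
    (hdom : ∀ K : ℝ, ∃ g : ℝ → ℝ, IntegrableOn g (Icc (-K) K) ∧ ∀ᵐ k : ℝ, k ∈ Icc (-K) K →
      ∀ ε : ℝ, 0 < ε → ε ≤ 1 → ‖F ((k : ℂ) + ε * I)‖ ≤ g k)
    (hlim : ∀ᵐ k : ℝ, ∃ l : ℝ, Tendsto (fun ε : ℝ => F ((k : ℂ) + ε * I)) (𝓝[>] 0) (𝓝 (l : ℂ)))
    {z : ℂ} (hz : 0 < z.im) {R : ℝ} (hR : 0 < R) :
    Tendsto (fun ε : ℝ => ∫ k in (-R)..R, (ph F z ((k : ℂ) + ε * I)).im) (𝓝[>] 0)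
      (𝓝 (∫ k in (-R)..R, -(F z).im * (Complex.normSq ((k : ℂ) - z))⁻¹)) := by
  obtain ⟨g, hg, hb⟩ := hdom R
  have hle : -R ≤ R := by linarith
  have hsmall : ∀ᶠ ε : ℝ in 𝓝[>] 0, 0 < ε ∧ ε ≤ 1 ∧ ε ≤ z.im / 2 := by
    have h1 : ∀ᶠ ε : ℝ in 𝓝[>] (0 : ℝ), ε < min 1 (z.im / 2) :=
      mem_nhdsWithin_of_mem_nhds (Iio_mem_nhds (lt_min one_pos (by linarith)))
    filter_upwards [h1, self_mem_nhdsWithin] with ε h2 h3
    exact ⟨h3, h2.le.trans (min_le_left _ _), h2.le.trans (min_le_right _ _)⟩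
  refine intervalIntegral.tendsto_integral_filter_of_dominated_convergence
    (fun k => (g k + ‖F z‖) * (2 / z.im ^ 2)) ?_ ?_ ?_ ?_
  · filter_upwards [hsmall] with ε hε
    have h1 : Continuous fun k : ℝ => ph F z ((k : ℂ) + ε * I) := by
      have h2 : ContinuousOn (ph F z) {h : ℂ | 0 < h.im} := (ph_diff hF hz).continuousOn
      refine h2.comp_continuous (by fun_prop) fun k => ?_
      show 0 < ((k : ℂ) + ε * I).im
      rw [norm_add_im]
      exact hε.1
    exact (Complex.continuous_im.comp h1).aestronglyMeasurable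
  · filter_upwards [hsmall] with ε hε
    filter_upwards [hb] with k hk hkm
    rw [uIoc_of_le hle] at hkm
    have h1 := hk ⟨hkm.1.le, hkm.2⟩ ε hε.1 hε.2.1
    rw [Real.norm_eq_abs]
    refine (Complex.abs_im_le_norm _).trans ?_
    exact ph_near hz (by rw [norm_add_im]; exact hε.1) (by rw [norm_add_im]; exact hε.2.2) h1
  · refine IntervalIntegrable.mul_const (IntervalIntegrable.add ?_ ?_) _
    · rw [intervalIntegrable_iff_integrableOn_Icc_of_le hle]
      exact hg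
    · exact intervalIntegrable_const
  · filter_upwards [hlim] with k hk _
    obtain ⟨l, hl⟩ := hk
    have hkz : (k : ℂ) - z ≠ 0 := by
      intro h
      have := congrArg Complex.im h
      rw [Complex.sub_im, Complex.ofReal_im, Complex.zero_im] at this
      linarith
    have hkz' : (k : ℂ) - (starRingEnd ℂ) z ≠ 0 := by
      intro h
      have := congrArg Complex.im h
      rw [Complex.sub_im, Complex.ofReal_im, Complex.zero_im, Complex.conj_im] at this
      linarith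
    have h0 : Tendsto (fun ε : ℝ => (k : ℂ) + ε * I) (𝓝[>] 0) (𝓝 (k : ℂ)) := by
      have h1 : Continuous fun ε : ℝ => (k : ℂ) + ε * I := by fun_prop
      have h2 := h1.tendsto 0
      rw [Complex.ofReal_zero, zero_mul, add_zero] at h2
      exact h2.mono_left nhdsWithin_le_nhds
    have h1 : Tendsto (fun ε : ℝ => (F ((k : ℂ) + ε * I) - F z) *
        ((((k : ℂ) + ε * I) - z) * (((k : ℂ) + ε * I) - (starRingEnd ℂ) z))⁻¹) (𝓝[>] 0)
        (𝓝 (((l : ℂ) - F z) * (((k : ℂ) - z) * ((k : ℂ) - (starRingEnd ℂ) z))⁻¹)) :=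
      (hl.sub_const _).mul (((h0.sub_const _).mul (h0.sub_const _)).inv₀ (mul_ne_zero hkz hkz'))
    have h2 : ((k : ℂ) - z) * ((k : ℂ) - (starRingEnd ℂ) z) =
        ((Complex.normSq ((k : ℂ) - z) : ℝ) : ℂ) := by
      rw [← Complex.mul_conj, map_sub, Complex.conj_ofReal]
    rw [h2] at h1
    have h3 : Tendsto (fun ε : ℝ => ph F z ((k : ℂ) + ε * I)) (𝓝[>] 0)
        (𝓝 (((l : ℂ) - F z) * ((Complex.normSq ((k : ℂ) - z) : ℝ) : ℂ)⁻¹)) := by
      refine h1.congr' ?_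
      filter_upwards [hsmall] with ε hε
      rw [ph_eq]
      intro h4
      have := congrArg Complex.im h4
      rw [norm_add_im] at this
      linarith [hε.2.2]
    have h4 := (Complex.continuous_im.tendsto _).comp h3
    have h5 : (((l : ℂ) - F z) * ((Complex.normSq ((k : ℂ) - z) : ℝ) : ℂ)⁻¹).im =
        -(F z).im * (Complex.normSq ((k : ℂ) - z))⁻¹ := by
      rw [← Complex.ofReal_inv, Complex.im_mul_ofReal, Complex.sub_im, Complex.ofReal_im, zero_sub]
    rw [h5] at h4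
    exact h4

/-- The values are real. -/
lemma im_zero {F : ℂ → ℂ} (hF : DifferentiableOn ℂ F {h : ℂ | 0 < h.im})
    (hdom : ∀ K : ℝ, ∃ g : ℝ → ℝ, IntegrableOn g (Icc (-K) K) ∧ ∀ᵐ k : ℝ, k ∈ Icc (-K) K →
      ∀ ε : ℝ, 0 < ε → ε ≤ 1 → ‖F ((k : ℂ) + ε * I)‖ ≤ g k)
    (hlim : ∀ᵐ k : ℝ, ∃ l : ℝ, Tendsto (fun ε : ℝ => F ((k : ℂ) + ε * I)) (𝓝[>] 0) (𝓝 (l : ℂ)))
    {C s : ℝ} (hs0 : 0 ≤ s) (hs1 : s < 1)
    (hgro : ∀ h : ℂ, 0 < h.im → C ≤ ‖h‖ → ‖F h‖ ≤ C * ‖h‖ ^ s)
    {z : ℂ} (hz : 0 < z.im) : (F z).im = 0 := by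
  set δ : ℝ := ∫ k in (-1 : ℝ)..1, (Complex.normSq ((k : ℂ) - z))⁻¹ with hδ
  have hpos : ∀ k : ℝ, 0 < Complex.normSq ((k : ℂ) - z) := by
    intro k
    rw [Complex.normSq_pos]
    intro h
    have := congrArg Complex.im h
    rw [Complex.sub_im, Complex.ofReal_im, Complex.zero_im] at this
    linarith
  have hcont : Continuous fun k : ℝ => (Complex.normSq ((k : ℂ) - z))⁻¹ :=
    (Complex.continuous_normSq.comp (by fun_prop)).inv₀ fun k => (hpos k).ne'
  have hδ0 : 0 < δ := by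
    refine intervalIntegral.intervalIntegral_pos_of_pos (hcont.intervalIntegrable _ _)
      (fun k => inv_pos.mpr (hpos k)) (by norm_num)
  set C' : ℝ := max C 0 with hC'
  have hmain : ∀ R : ℝ, max (max 1 C) (2 * ‖z‖) ≤ R →
      |(F z).im| * δ ≤ 16 * (C' * (2 * R) ^ s + ‖F z‖) / R := by
    intro R hR
    have hR1 : 1 ≤ R := ((le_max_left _ _).trans (le_max_left _ _)).trans hR
    have hRC : C ≤ R := ((le_max_right _ _).trans (le_max_left _ _)).trans hR
    have hRz : 2 * ‖z‖ ≤ R := (le_max_right _ _).trans hR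
    have hR0 : 0 < R := by linarith
    have hM : ∀ h : ℂ, 0 < h.im → R ≤ ‖h‖ → ‖h‖ ≤ 2 * R → ‖F h‖ ≤ C' * (2 * R) ^ s := by
      intro h h1 h2 h3
      refine (hgro h h1 (hRC.trans h2)).trans ?_
      exact mul_le_mul (le_max_left _ _) (Real.rpow_le_rpow (norm_nonneg _) h3 hs0)
        (Real.rpow_nonneg (norm_nonneg _) _) (le_max_right _ _)
    have hb : ∀ᶠ ε : ℝ in 𝓝[>] 0,
        |∫ k in (-R)..R, (ph F z ((k : ℂ) + ε * I)).im| ≤
          16 * (C' * (2 * R) ^ s + ‖F z‖) / R := by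
      have h1 : ∀ᶠ ε : ℝ in 𝓝[>] (0 : ℝ), ε < R :=
        mem_nhdsWithin_of_mem_nhds (Iio_mem_nhds hR0)
      filter_upwards [h1, self_mem_nhdsWithin] with ε h2 h3
      have h3' : 0 < ε := h3
      have h4 := bottom hF hz hRz hR0 h3' h2.le hM
      have h5 : Continuous fun k : ℝ => ph F z ((k : ℂ) + ε * I) := by
        have h2 : ContinuousOn (ph F z) {h : ℂ | 0 < h.im} := (ph_diff hF hz).continuousOn
        refine h2.comp_continuous (by fun_prop) fun k => ?_
        show 0 < ((k : ℂ) + ε * I).im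
        rw [norm_add_im]
        exact h3'
      have h6 : (∫ k in (-R)..R, (ph F z ((k : ℂ) + ε * I)).im) =
          (∫ k in (-R)..R, ph F z ((k : ℂ) + ε * I)).im := by
        have := Complex.imCLM.intervalIntegral_comp_comm
          (h5.intervalIntegrable (μ := volume) (-R) R)
        simpa using this
      rw [h6]
      refine (Complex.abs_im_le_norm _).trans (h4.trans (le_of_eq ?_))
      field_simp
      ring
    have h1 := le_of_tendsto (lim0 hF hdom hlim hz hR0).abs hb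
    rw [intervalIntegral.integral_const_mul, abs_mul, abs_neg] at h1
    refine le_trans ?_ h1
    refine mul_le_mul_of_nonneg_left ?_ (abs_nonneg _)
    refine le_trans ?_ (le_abs_self _)
    refine intervalIntegral.integral_mono_interval (by linarith) (by norm_num) hR1 ?_
      (hcont.intervalIntegrable _ _)
    exact Eventually.of_forall fun k => (inv_pos.mpr (hpos k)).le
  have hlimR : Tendsto (fun R : ℝ => 16 * (C' * (2 * R) ^ s + ‖F z‖) / R) atTop (𝓝 0) := by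
    have h1 : Tendsto (fun R : ℝ => (2 * R) ^ s / R) atTop (𝓝 0) := by
      have h2 : Tendsto (fun R : ℝ => 2 ^ s * R ^ (-(1 - s))) atTop (𝓝 (2 ^ s * 0)) :=
        (tendsto_rpow_neg_atTop (by linarith)).const_mul _
      rw [mul_zero] at h2
      refine h2.congr' ?_
      filter_upwards [eventually_gt_atTop 0] with R hR
      rw [Real.mul_rpow (by norm_num) hR.le, mul_div_assoc]
      congr 1
      rw [neg_sub, Real.rpow_sub hR, Real.rpow_one]
    have h2 : Tendsto (fun R : ℝ => ‖F z‖ / R) atTop (𝓝 0) :=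
      tendsto_const_nhds.div_atTop tendsto_id
    have h3 := ((h1.const_mul C').add h2).const_mul 16
    rw [mul_zero, add_zero, mul_zero] at h3
    refine h3.congr fun R => ?_
    ring
  have h1 : |(F z).im| * δ ≤ 0 := by
    refine ge_of_tendsto hlimR ?_
    filter_upwards [eventually_ge_atTop (max (max 1 C) (2 * ‖z‖))] with R hR
    exact hmain R hR
  have h2 : |(F z).im| = 0 := by
    have h3 := abs_nonneg (F z).im
    by_contra h4
    have h5 : 0 < |(F z).im| := lt_of_le_of_ne h3 (Ne.symm h4)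
    exact absurd h1 (not_le.mpr (mul_pos h5 hδ0))
  exact abs_eq_zero.mp h2

end GLCAux

open GLCAux in
theorem glc : Stmt_GLC := by
  rintro F hF hdom hlim ⟨C, s, hs0, hs1, hgro⟩
  have hconv : Convex ℝ {h : ℂ | 0 < h.im} := convex_halfSpace_im_gt 0
  have hconn : IsConnected {h : ℂ | 0 < h.im} :=
    ⟨⟨I, by simp⟩, hconv.isPreconnected⟩
  obtain ⟨c, hc⟩ := (hF.analyticOnNhd isOpen_up).eq_const_add_im_mul_I_of_re_eq_const
    (c₀ := 0) (fun z hz => im_zero hF hdom hlim hs0 hs1 hgro hz) isOpen_up hconn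
  exact ⟨c, fun h hh => by rw [hc h hh]; simp⟩

end Pool.Agent.LIO
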