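import Pool.Agent.LIO.Stmts
import Pool.Agent.Lib_helper92.XRay.Cancel

/-!
# The cancellation at a real level
-/

set_option autoImplicit false

namespace Pool.Agent.LIO

open Complex MeasureTheory Set Filter Topology

namespace GLVAux

open XRay XRay.Data

/-- below the level both differences vanish (refinement of `XRay.Data.cancel`) -/
theorem cancel_low {D : XRay.Data} {t : ℝ} (hg : D.Good t)
    (h0 : ∀ σ τ, Sgn σ τ → ∀ ξ, D.uB σ τ t ξ D.a = 0)
    (ξ : ℂ) {y : ℝ} (hy : y ∈ Ioo D.a D.b) (hyc : t * D.c y < 1) :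
    D.Df 1 t ξ y = 0 ∧ D.Df (-1) t ξ y = 0 := by
  set V : Set ℝ := {s | 1 < t * D.c s} ∩ Ioo D.a D.b with hV
  set Z : Set ℝ := closure V ∪ {D.a, D.b} with hZ
  have hyI : y ∈ Icc D.a D.b := Ioo_subset_Icc_self hy
  have hVI : closure V ⊆ Icc D.a D.b :=
    closure_minimal (fun s hs => Ioo_subset_Icc_self hs.2) isClosed_Icc
  have hV1 : closure V ⊆ {s | 1 ≤ t * D.c s} :=
    closure_minimal (fun s hs => le_of_lt (show 1 < t * D.c s from hs.1))
      (isClosed_le continuous_const (continuous_const.mul D.hc))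
  have hab := D.hab.le
  have hZI : Z ⊆ Icc D.a D.b := by
    rintro s (hs | hs)
    · exact hVI hs
    · rcases hs with rfl | hs
      · exact left_mem_Icc.2 hab
      · rw [mem_singleton_iff] at hs; rw [hs]; exact right_mem_Icc.2 hab
  have hZc : IsClosed Z := isClosed_closure.union (by simp [Set.Finite.isClosed])
  have hZ0 : ∀ ξ, ∀ w ∈ Z, D.Df 1 t ξ w + D.Df (-1) t ξ w = 0 :=
    fun ξ w hw => cancel hg h0 ξ (hZI hw)
  have hyZ : y ∉ Z := by
    rintro (hs | hs)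
    · exact absurd (hV1 hs) (not_le.2 hyc)
    · rcases hs with h | h
      · exact absurd h (ne_of_gt hy.1)
      · rw [mem_singleton_iff] at h; exact absurd h (ne_of_lt hy.2)
  -- the neighbours of `y` in `Z`
  obtain ⟨y₁, hy₁⟩ : ∃ y₁, IsGreatest (Z ∩ Icc D.a y) y₁ := by
    apply IsCompact.exists_isGreatest
    · exact isCompact_Icc.inter_left hZc
    · exact ⟨D.a, Or.inr (Or.inl rfl), le_rfl, hyI.1⟩
  obtain ⟨y₂, hy₂⟩ : ∃ y₂, IsLeast (Z ∩ Icc y D.b) y₂ := by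
    apply IsCompact.exists_isLeast
    · exact isCompact_Icc.inter_left hZc
    · exact ⟨D.b, Or.inr (Or.inr rfl), hyI.2, le_rfl⟩
  have hy₁Z := hy₁.1.1
  have hy₂Z := hy₂.1.1
  have h1 : y₁ ∈ Icc D.a D.b := hZI hy₁Z
  have h2 : y₂ ∈ Icc D.a D.b := hZI hy₂Z
  have h1y : y₁ < y := lt_of_le_of_ne hy₁.1.2.2 (fun h => hyZ (h ▸ hy₁Z))
  have hy2 : y < y₂ := lt_of_le_of_ne hy₂.1.2.1 (fun h => hyZ (h ▸ hy₂Z))
  have hO : ∀ s ∈ Ioo y₁ y₂, t * D.c s ≤ 1 := by
    intro s hs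
    by_contra hcon
    push Not at hcon
    have hsV : s ∈ Z := Or.inl (subset_closure ⟨hcon, lt_of_le_of_lt h1.1 hs.1,
      lt_of_lt_of_le hs.2 h2.2⟩)
    rcases le_total s y with hsy | hsy
    · exact absurd (hy₁.2 ⟨hsV, h1.1.trans hs.1.le, hsy⟩) (not_le.2 hs.1)
    · exact absurd (hy₂.2 ⟨hsV, hsy, hs.2.le.trans h2.2⟩) (not_le.2 hs.2)
  set K := ∫ r in y₁..y₂, D.kap t r with hK
  have h12 : y₁ < y₂ := h1y.trans hy2
  have hKpos : 0 < K := by
    rw [hK, intervalIntegral.integral_of_le h12.le]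
    have hne : ∀ᵐ s ∂(volume.restrict (Ioc y₁ y₂)), D.kap t s ≠ 0 := by
      filter_upwards [ae_sub hg.ne h1 h2] with s hs
      have h7 := D.α_pos s
      have h8 := hg.pos
      have h4 : 1 - t ^ 2 * D.c s ^ 2 ≠ 0 := by
        intro h5
        apply hs
        have h6 : (t * D.c s - 1) * (t * D.c s + 1) = 0 := by linear_combination -h5
        rcases mul_eq_zero.1 h6 with h | h
        · linarith
        · have := mul_pos h8 (D.c_pos s); linarith
      have h9 : 0 < √|1 - t ^ 2 * D.c s ^ 2| := Real.sqrt_pos.2 (abs_pos.2 h4)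
      rw [kap, wt]
      positivity
    rw [integral_pos_iff_support_of_nonneg_ae]
    · have h3 : (volume.restrict (Ioc y₁ y₂)) (Function.support (D.kap t)) =
          (volume.restrict (Ioc y₁ y₂)) univ := by
        apply measure_congr
        filter_upwards [hne] with s hs
        exact propext ⟨fun _ => trivial, fun _ => hs⟩
      rw [h3, Measure.restrict_apply_univ, Real.volume_Ioc]
      simp [h12]
    · filter_upwards with s using D.kap_nonneg hg.pos s
    · have := sub_int hg.kap_int h1 h2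
      rwa [intervalIntegrable_iff_integrableOn_Ioc_of_le h12.le] at this
  -- the difference vanishes at `y₂`
  have hD2 : ∀ ξ, (exp (I * ξ * K) - exp (-(I * ξ * K))) * D.Df 1 t ξ y₂ = 0 := by
    intro ξ
    have e1 := Df_transport hg (Or.inl rfl) ξ h1 h2 h12.le hO (σ := 1)
    have e2 := Df_transport hg (Or.inr rfl) ξ h1 h2 h12.le hO (σ := -1)
    rw [← hK] at e1 e2
    have e3 := hZ0 ξ y₁ hy₁Z
    have e4 := hZ0 ξ y₂ hy₂Z
    have e5 : I * ξ * ((1 : ℝ) : ℂ) * (K : ℂ) = I * ξ * K := by push_cast; ring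
    have e6 : I * ξ * ((-1 : ℝ) : ℂ) * (K : ℂ) = -(I * ξ * K) := by push_cast; ring
    rw [e5] at e1
    rw [e6] at e2
    linear_combination e3 - e1 - e2 - exp (-(I * ξ * K)) * e4
  have hD20 : (fun ξ => D.Df 1 t ξ y₂) = 0 := by
    have hent : Differentiable ℂ (fun ξ => D.Df 1 t ξ y₂) :=
      (hg.uB_entire ⟨Or.inl rfl, Or.inl rfl⟩ h2).sub (hg.uB_entire ⟨Or.inl rfl, Or.inr rfl⟩ h2)
    have han : AnalyticOnNhd ℂ (fun ξ => D.Df 1 t ξ y₂) univ :=
      hent.differentiableOn.analyticOnNhd isOpen_univ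
    apply han.eq_of_frequently_eq (g := 0) (z₀ := 0) (fun z _ => analyticAt_const)
    have h4 : Tendsto (fun n : ℕ => ((1 / (((n : ℝ) + 1)) * K⁻¹ : ℝ) : ℂ)) atTop (𝓝[≠] 0) := by
      apply tendsto_nhdsWithin_of_tendsto_nhds_of_eventually_within
      · have h5 := (tendsto_one_div_add_atTop_nhds_zero_nat (𝕜 := ℝ)).mul_const K⁻¹
        rw [zero_mul] at h5
        exact (Complex.continuous_ofReal.tendsto 0).comp h5
      · filter_upwards with n
        simp only [mem_compl_iff, mem_singleton_iff]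
        intro h
        have h5 : (1 / (((n : ℝ) + 1)) * K⁻¹ : ℝ) = 0 := by exact_mod_cast h
        have h6 : 0 < (1 / (((n : ℝ) + 1)) * K⁻¹ : ℝ) := by positivity
        linarith
    apply h4.frequently
    apply Filter.Frequently.of_forall
    intro n
    simp only [Pi.zero_apply]
    have h5 := hD2 ((1 / (((n : ℝ) + 1)) * K⁻¹ : ℝ) : ℂ)
    rcases mul_eq_zero.1 h5 with h6 | h6
    · exfalso
      have h7 : I * ((1 / (((n : ℝ) + 1)) * K⁻¹ : ℝ) : ℂ) * K = ((1 / ((n : ℝ) + 1) : ℝ) : ℂ) * I := by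
        push_cast
        have : (K : ℂ) ≠ 0 := by exact_mod_cast hKpos.ne'
        field_simp
      rw [h7, ← neg_mul] at h6
      have h8 : 2 * sin (((1 / ((n : ℝ) + 1) : ℝ) : ℂ)) * I = 0 := by
        rw [Complex.two_sin]
        linear_combination (-I*I) * h6
      have h9 : sin (((1 / ((n : ℝ) + 1) : ℝ) : ℂ)) = 0 := by
        simpa [I_ne_zero] using h8
      rw [← Complex.ofReal_sin] at h9
      have h10 : Real.sin (1 / ((n : ℝ) + 1)) = 0 := by exact_mod_cast h9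
      have h11 : 0 < Real.sin (1 / ((n : ℝ) + 1)) := by
        apply Real.sin_pos_of_pos_of_lt_pi (by positivity)
        have : 1 / ((n : ℝ) + 1) ≤ 1 := by
          rw [div_le_one (by positivity)]
          have := Nat.cast_nonneg (α := ℝ) n
          linarith
        linarith [Real.pi_gt_three]
      linarith
    · exact h6
  have e1 : D.Df 1 t ξ y₂ = 0 := congrFun hD20 ξ
  have e2 : D.Df (-1) t ξ y₂ = 0 := by
    have := hZ0 ξ y₂ hy₂Z
    rw [e1, zero_add] at this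
    exact this
  have hOy : ∀ s ∈ Ioo y y₂, t * D.c s ≤ 1 := fun s hs => hO s ⟨h1y.trans hs.1, hs.2⟩
  rw [Df_transport hg (Or.inl rfl) ξ hyI h2 hy2.le hOy,
    Df_transport hg (Or.inr rfl) ξ hyI h2 hy2.le hOy, e1, e2, mul_zero, mul_zero]
  exact ⟨rfl, rfl⟩

/-! ### the phases at a real level -/

variable {D : LD} {k : ℝ}

lemma Rpos (D : LD) : 0 < D.R := D.r0.trans D.rR

/-- the real phase -/
noncomputable def bb (D : LD) (k y : ℝ) : ℝ := ∫ s in (-D.R)..y, (√(D.V s + k))⁻¹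

lemma Vpos (D : LD) (hk : -D.a < k) (y : ℝ) : 0 < D.V y + k := by
  have := D.Va y; linarith

lemma py_eq (hB1 : Stmt_BAS1) (D : LD) (hk : -D.a < k) (y : ℝ) :
    D.py k y = (√(D.V y + k) : ℝ) := (hB1 D).py_real k y hk.le

lemma BB_eq (hB1 : Stmt_BAS1) (D : LD) (hk : -D.a < k) (y : ℝ) : D.BB k y = (bb D k y : ℝ) := by
  rw [LD.BB, bb, ← intervalIntegral.integral_ofReal]
  congr 1
  ext s
  rw [py_eq hB1 D hk, ofReal_inv]

lemma bb_cont (D : LD) (hk : -D.a < k) : Continuous (bb D k) := by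
  have hc : Continuous (fun s => (√(D.V s + k))⁻¹) := by
    apply Continuous.inv₀
    · exact (D.Vs.continuous.add continuous_const).sqrt
    · intro s; exact (Real.sqrt_pos.2 (Vpos D hk s)).ne'
  unfold bb
  exact intervalIntegral.continuous_primitive (fun a b => hc.intervalIntegrable a b) _

lemma bb_bound (D : LD) (hk : -D.a < k) {y : ℝ} (hy : y ∈ Icc (-D.R) D.R) :
    0 ≤ bb D k y ∧ bb D k y ≤ 2 * D.R * (√(D.a + k))⁻¹ := by
  have hR := Rpos D
  have hc : Continuous (fun s => (√(D.V s + k))⁻¹) := by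
    apply Continuous.inv₀
    · exact (D.Vs.continuous.add continuous_const).sqrt
    · intro s; exact (Real.sqrt_pos.2 (Vpos D hk s)).ne'
  have hak : 0 < D.a + k := by linarith
  constructor
  · apply intervalIntegral.integral_nonneg hy.1
    intro s _; positivity
  · have h1 : bb D k y ≤ ∫ _s in (-D.R)..y, (√(D.a + k))⁻¹ := by
      apply intervalIntegral.integral_mono_on hy.1 (hc.intervalIntegrable _ _)
        (by simp)
      intro s _
      apply inv_anti₀ (Real.sqrt_pos.2 hak)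
      apply Real.sqrt_le_sqrt
      have := D.Va s; linarith
    rw [intervalIntegral.integral_const, smul_eq_mul] at h1
    refine h1.trans ?_
    apply mul_le_mul_of_nonneg_right _ (by positivity)
    have := hy.2
    linarith

lemma conj_Ph (hB1 : Stmt_BAS1) (D : LD) (hk : -D.a < k) (x : ℝ) (ω : ℂ) :
    (starRingEnd ℂ) (D.Ph k x ω) = D.Ph k x (-(starRingEnd ℂ) ω) := by
  rw [LD.Ph, LD.Ph, ← intervalIntegral.intervalIntegral_conj]
  congr 1
  ext y
  rw [map_mul, map_mul, conj_ofReal, ← exp_conj, BB_eq hB1 D hk, py_eq hB1 D hk, map_inv₀,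
    conj_ofReal, map_neg, map_mul, map_mul, conj_I, conj_ofReal]
  congr 3
  ring

/-! ### the low levels -/

lemma conj_vv_low (hB1 : Stmt_BAS1) (D : LD) (hk : -D.a < k) (hk2 : k < D.a) (σ ω x : ℝ) :
    (starRingEnd ℂ) (D.vv σ k ω x) = D.vv σ k (-ω) x := by
  have hpx : ∀ s, (starRingEnd ℂ) (D.px k s) = D.px k s := by
    intro s
    rw [(hB1 D).px_real k s (by have := D.Ua s; linarith), conj_ofReal]
  rw [LD.vv, LD.vv, map_mul, conj_ofReal, ← intervalIntegral.intervalIntegral_conj]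
  congr 2
  ext x'
  rw [map_mul, map_mul, conj_Ph hB1 D hk, map_inv₀, hpx, ← exp_conj, conj_ofReal]
  congr 2
  rw [map_mul, map_mul, map_mul, conj_I, conj_ofReal, conj_ofReal, ← intervalIntegral.intervalIntegral_conj]
  have : (∫ s in x..x', (starRingEnd ℂ) (D.px k s)⁻¹) = ∫ s in x..x', (D.px k s)⁻¹ := by
    congr 1
    ext s
    rw [map_inv₀, hpx]
  rw [this]
  ring

/-! ### the high levels -/

lemma Ph_measurable (hB1 : Stmt_BAS1) (D : LD) (hk : -D.a < k) (ω : ℂ) :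
    Measurable (fun x => D.Ph k x ω) := by
  have hR := Rpos D
  have hbc := bb_cont D hk
  have hj : Measurable (fun z : ℝ × ℝ => (D.φ z.1 z.2 : ℂ) * cexp (-(I * ω * (bb D k z.2 : ℝ))) *
      ((√(D.V z.2 + k) : ℝ) : ℂ)⁻¹) := by
    apply Measurable.mul
    · apply Measurable.mul
      · exact Complex.measurable_ofReal.comp D.φm
      · apply Continuous.measurable
        fun_prop
    · apply Measurable.inv
      have hV := D.Vs.continuous
      apply Continuous.measurable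
      fun_prop
  have h2 : (fun x => D.Ph k x ω) = fun x => ∫ y in Ioc (-D.R) D.R,
      (D.φ x y : ℂ) * cexp (-(I * ω * (bb D k y : ℝ))) * ((√(D.V y + k) : ℝ) : ℂ)⁻¹ := by
    ext x
    rw [LD.Ph, intervalIntegral.integral_of_le (by linarith)]
    congr 1
    ext y
    rw [BB_eq hB1 D hk, py_eq hB1 D hk]
  rw [h2]
  exact (hj.stronglyMeasurable.integral_prod_right (ν := volume.restrict (Ioc (-D.R) D.R))).measurable

lemma slice_bound (D : LD) (hk : -D.a < k) (x : ℝ) (ω : ℂ) {y : ℝ} (hy : y ∈ Icc (-D.R) D.R) :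
    ‖(D.φ x y : ℂ) * cexp (-(I * ω * (bb D k y : ℝ))) * ((√(D.V y + k) : ℝ) : ℂ)⁻¹‖ ≤
      D.B * Real.exp (2 * D.R * (√(D.a + k))⁻¹ * |ω.im|) * (√(D.a + k))⁻¹ := by
  have hak : 0 < D.a + k := by linarith
  have hb := bb_bound D hk hy
  have hB : 0 ≤ D.B := (abs_nonneg _).trans (D.φb 0 0)
  rw [norm_mul, norm_mul, norm_real, Real.norm_eq_abs, norm_inv, norm_real,
    Real.norm_of_nonneg (Real.sqrt_nonneg _), Complex.norm_exp]
  have h1 : (-(I * ω * (bb D k y : ℝ))).re = ω.im * bb D k y := by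
    simp
  rw [h1]
  have h2 : Real.exp (ω.im * bb D k y) ≤ Real.exp (2 * D.R * (√(D.a + k))⁻¹ * |ω.im|) := by
    apply Real.exp_le_exp.2
    calc ω.im * bb D k y ≤ |ω.im| * bb D k y := by
          apply mul_le_mul_of_nonneg_right (le_abs_self _) hb.1
      _ ≤ |ω.im| * (2 * D.R * (√(D.a + k))⁻¹) := by gcongr; exact hb.2
      _ = _ := by ring
  have h3 : (√(D.V y + k))⁻¹ ≤ (√(D.a + k))⁻¹ := by
    apply inv_anti₀ (Real.sqrt_pos.2 hak)
    apply Real.sqrt_le_sqrt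
    have := D.Va y; linarith
  have h4 := D.φb x y
  gcongr

lemma Ph_bound (hB1 : Stmt_BAS1) (D : LD) (hk : -D.a < k) (x : ℝ) (ω : ℂ) :
    ‖D.Ph k x ω‖ ≤ (D.B * (√(D.a + k))⁻¹ * (2 * D.R)) *
      Real.exp (2 * D.R * (√(D.a + k))⁻¹ * |ω.im|) := by
  have hR := Rpos D
  have h1 : ‖D.Ph k x ω‖ ≤ D.B * Real.exp (2 * D.R * (√(D.a + k))⁻¹ * |ω.im|) *
      (√(D.a + k))⁻¹ * |D.R - (-D.R)| := by
    rw [LD.Ph]
    apply intervalIntegral.norm_integral_le_of_norm_le_const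
    intro y hy
    rw [uIoc_of_le (by linarith)] at hy
    rw [BB_eq hB1 D hk, py_eq hB1 D hk]
    exact slice_bound D hk x ω ⟨hy.1.le, hy.2⟩
  refine h1.trans (le_of_eq ?_)
  rw [abs_of_pos (show 0 < D.R - -D.R by linarith)]
  ring

lemma Ph_entire (hB1 : Stmt_BAS1) (D : LD) (hk : -D.a < k) (x : ℝ) :
    Differentiable ℂ (fun ω => D.Ph k x ω) := by
  intro ω₀
  have hR := Rpos D
  have hbc := bb_cont D hk
  have hak : 0 < D.a + k := by linarith
  have hB : 0 ≤ D.B := (abs_nonneg _).trans (D.φb 0 0)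
  have e : (fun ω => D.Ph k x ω) = fun ω => ∫ y in (-D.R)..D.R,
      (D.φ x y : ℂ) * cexp (-(I * ω * (bb D k y : ℝ))) * ((√(D.V y + k) : ℝ) : ℂ)⁻¹ := by
    ext ω
    rw [LD.Ph]
    congr 1
    ext y
    rw [BB_eq hB1 D hk, py_eq hB1 D hk]
  rw [e]
  have hφx : Measurable (fun y => D.φ x y) := D.φm.comp measurable_prodMk_left
  apply XRay.differentiableAt_intervalIntegral (ε := 1) one_pos
    (B := fun _ => D.B * Real.exp (2 * D.R * (√(D.a + k))⁻¹ * (|ω₀.im| + 1)) * (√(D.a + k))⁻¹)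
  · intro z _
    apply Measurable.aestronglyMeasurable
    apply Measurable.mul
    · apply Measurable.mul
      · exact Complex.measurable_ofReal.comp hφx
      · apply Continuous.measurable
        fun_prop
    · apply Measurable.inv
      have hV := D.Vs.continuous
      apply Continuous.measurable
      fun_prop
  · filter_upwards with y
    apply Differentiable.differentiableOn
    fun_prop
  · simp
  · filter_upwards [ae_restrict_mem measurableSet_uIoc] with y hy z hz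
    rw [uIoc_of_le (by linarith)] at hy
    refine (slice_bound D hk x z ⟨hy.1.le, hy.2⟩).trans ?_
    have h1 : |z.im| ≤ |ω₀.im| + 1 := by
      have h2 : |(z - ω₀).im| ≤ ‖z - ω₀‖ := Complex.abs_im_le_norm _
      rw [Metric.mem_ball, dist_eq_norm] at hz
      rw [sub_im] at h2
      have h3 := abs_sub_abs_le_abs_sub z.im ω₀.im
      linarith
    gcongr

/-- the transport integral with the inverse momentum `Q` -/
noncomputable def WW (D : LD) (k : ℝ) (Q : ℝ → ℂ) (σ : ℝ) (ω : ℂ) (x : ℝ) : ℂ :=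
  ∫ s in x..D.R, D.Ph k s ω * Q s * cexp (I * ω * σ * ∫ r in x..s, Q r)

lemma conj_WW (hB1 : Stmt_BAS1) (D : LD) (hk : -D.a < k) (Q : ℝ → ℂ) (σ : ℝ) (ω : ℂ) (x : ℝ) :
    (starRingEnd ℂ) (WW D k Q σ ω x) =
      WW D k (fun s => (starRingEnd ℂ) (Q s)) σ (-(starRingEnd ℂ) ω) x := by
  rw [WW, WW, ← intervalIntegral.intervalIntegral_conj]
  congr 1
  ext s
  rw [map_mul, map_mul, conj_Ph hB1 D hk, ← exp_conj, map_mul, map_mul, map_mul, conj_I,
    conj_ofReal, ← intervalIntegral.intervalIntegral_conj]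
  congr 2
  ring

lemma vv_eq (D : LD) (k σ : ℝ) (ω : ℂ) (x : ℝ) :
    D.vv σ k ω x = σ * WW D k (fun s => (D.px k s)⁻¹) σ ω x := rfl

lemma EE_eq (D : LD) (k σ : ℝ) (ω : ℂ) :
    D.EE σ k ω = WW D k (fun s => (D.px k s)⁻¹) σ ω (-D.R) := by
  rw [LD.EE, WW]
  congr 1
  ext x
  rw [LD.AA]
  ring

lemma WW_left (D : LD) (hL : D.Lv k) {σ : ℝ} (hσ : σ = 1 ∨ σ = -1) (ω : ℂ) :
    WW D k (fun s => (D.px k s)⁻¹) σ ω (-D.R) = 0 := by
  rw [← EE_eq]
  exact hL.zero σ hσ ω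

lemma WW_left' (hB1 : Stmt_BAS1) (D : LD) (hL : D.Lv k) {σ : ℝ} (hσ : σ = 1 ∨ σ = -1) (ω : ℂ) :
    WW D k (fun s => (starRingEnd ℂ) (D.px k s)⁻¹) σ ω (-D.R) = 0 := by
  have h := conj_WW hB1 D hL.low (fun s => (D.px k s)⁻¹) σ (-(starRingEnd ℂ) ω) (-D.R)
  rw [WW_left D hL hσ, map_zero, map_neg, Complex.conj_conj, neg_neg] at h
  exact h.symm

lemma Upos (D : LD) (x : ℝ) : 0 < D.U x := lt_of_lt_of_le D.a0 (D.Ua x)

lemma sU_cont (D : LD) : Continuous (fun x => (√(D.U x))⁻¹) := by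
  apply Continuous.inv₀
  · exact D.Us.continuous.sqrt
  · intro s; exact (Real.sqrt_pos.2 (Upos D s)).ne'

/-- the data of the library -/
noncomputable def dat (hB1 : Stmt_BAS1) (D : LD) (k : ℝ) (hk : -D.a < k) : XRay.Data where
  a := -D.R
  b := D.R
  hab := by have := Rpos D; linarith
  c := fun x => (√(D.U x))⁻¹
  α := fun x => (√(D.U x))⁻¹
  β := fun x => (√(D.U x))⁻¹
  hc := sU_cont D
  hα := sU_cont D
  hβ := sU_cont D
  c_pos := fun x => inv_pos.2 (Real.sqrt_pos.2 (Upos D x))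
  α_pos := fun x => inv_pos.2 (Real.sqrt_pos.2 (Upos D x))
  β_pos := fun x => inv_pos.2 (Real.sqrt_pos.2 (Upos D x))
  h := fun ξ x => D.Ph k x (ξ * (√k : ℝ))
  H := D.B * (√(D.a + k))⁻¹ * (2 * D.R)
  X := 2 * D.R * (√(D.a + k))⁻¹ * √k
  hm := fun ξ => Ph_measurable hB1 D hk _
  hd := fun x => (Ph_entire hB1 D hk x).comp (differentiable_id.mul_const _)
  hb := fun ξ x => by
    refine (Ph_bound hB1 D hk x _).trans (le_of_eq ?_)
    congr 2
    rw [im_mul_ofReal, abs_mul, abs_of_nonneg (Real.sqrt_nonneg k)]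
    ring

lemma wt_eq (D : LD) (hk0 : 0 < k) (x : ℝ) :
    XRay.wt (√k) (√(D.U x))⁻¹ = √(D.U x) * D.wU k x := by
  have hU := Upos D x
  rw [XRay.wt, LD.wU, inv_pow, Real.sq_sqrt hk0.le, Real.sq_sqrt hU.le]
  have h1 : |1 - k * (D.U x)⁻¹| = |D.U x - k| / D.U x := by
    rw [← abs_of_pos hU, ← abs_div, abs_of_pos hU]
    congr 1
    field_simp
  rw [h1, Real.sqrt_div (abs_nonneg _), inv_div, div_eq_mul_inv]

lemma lt_iff (D : LD) (x : ℝ) : √k * (√(D.U x))⁻¹ < 1 ↔ k < D.U x := by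
  have hU := Upos D x
  rw [← div_eq_mul_inv, div_lt_one (Real.sqrt_pos.2 hU), Real.sqrt_lt_sqrt_iff_of_pos hU]

lemma gt_iff (D : LD) (hk0 : 0 < k) (x : ℝ) : 1 < √k * (√(D.U x))⁻¹ ↔ D.U x < k := by
  have hU := Upos D x
  rw [← div_eq_mul_inv, one_lt_div (Real.sqrt_pos.2 hU), Real.sqrt_lt_sqrt_iff_of_pos hk0]

lemma rtB_eq (hB1 : Stmt_BAS1) (D : LD) (hk0 : 0 < k) {σ τ : ℝ} (h : σ * τ = 1) (x : ℝ) :
    ((√(D.U x) : ℝ) : ℂ) * XRay.rtB σ τ (√k) (√(D.U x))⁻¹ = D.px k x := by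
  have hU := Upos D x
  have e : √|1 - √k ^ 2 * (√(D.U x))⁻¹ ^ 2| = √|D.U x - k| / √(D.U x) := by
    rw [inv_pow, Real.sq_sqrt hk0.le, Real.sq_sqrt hU.le, ← Real.sqrt_div (abs_nonneg _)]
    congr 1
    rw [← abs_of_pos hU, ← abs_div, abs_of_pos hU]
    congr 1
    field_simp
  have hs : 0 < √(D.U x) := Real.sqrt_pos.2 hU
  rw [XRay.rtB, e]
  by_cases hlt : k < D.U x
  · rw [if_pos ((lt_iff D x).2 hlt), (hB1 D).px_real k x hlt.le, ← ofReal_mul,
      abs_of_pos (by linarith)]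
    congr 1
    field_simp
  · rw [if_neg (fun hh => hlt ((lt_iff D x).1 hh)), h, one_mul]
    have h2 : ((√(D.U x) : ℝ) : ℂ) * (-I * ((√|D.U x - k| / √(D.U x) : ℝ) : ℂ)) =
        -I * (√|D.U x - k| : ℝ) := by
      have : ((√(D.U x) : ℝ) : ℂ) ≠ 0 := by exact_mod_cast hs.ne'
      push_cast
      field_simp
    rw [h2]
    push Not at hlt
    rcases hlt.lt_or_eq with h3 | h3
    · rw [(hB1 D).px_ev k x h3, abs_of_neg (by linarith), neg_sub]
    · rw [(hB1 D).px_real k x h3.ge, h3]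
      simp

lemma rtB_eq' (hB1 : Stmt_BAS1) (D : LD) (hk0 : 0 < k) {σ τ : ℝ} (h : σ * τ = -1) (x : ℝ) :
    ((√(D.U x) : ℝ) : ℂ) * XRay.rtB σ τ (√k) (√(D.U x))⁻¹ = (starRingEnd ℂ) (D.px k x) := by
  rw [← rtB_eq hB1 D hk0 (σ := 1) (τ := 1) (by norm_num) x, map_mul, conj_ofReal]
  congr 1
  rw [XRay.rtB, XRay.rtB]
  split_ifs
  · rw [conj_ofReal]
  · rw [h, map_mul, map_neg, conj_I, conj_ofReal]
    push_cast
    ring

lemma uB_eq (hB1 : Stmt_BAS1) (D : LD) (hk : -D.a < k) {σ τ : ℝ} {Q : ℝ → ℂ}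
    (hQ : ∀ x, ((√(D.U x) : ℝ) : ℂ) * XRay.rtB σ τ (√k) (√(D.U x))⁻¹ = (Q x)⁻¹) (ξ : ℂ) (x : ℝ) :
    (dat hB1 D k hk).uB σ τ (√k) ξ x = WW D k Q σ (ξ * (√k : ℝ)) x := by
  have hom : ∀ s, (dat hB1 D k hk).omB σ τ (√k) s = Q s := by
    intro s
    have h1 : (dat hB1 D k hk).omB σ τ (√k) s =
      (((√(D.U s))⁻¹ : ℝ) : ℂ) / XRay.rtB σ τ (√k) (√(D.U s))⁻¹ := rfl
    rw [h1, ofReal_inv, div_eq_mul_inv, ← mul_inv, hQ, inv_inv]
  have hph : ∀ s, (dat hB1 D k hk).phB σ τ (√k) s = σ * (√k : ℝ) * Q s := by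
    intro s
    have h1 : (dat hB1 D k hk).phB σ τ (√k) s =
      σ * (√k : ℝ) * (dat hB1 D k hk).omB σ τ (√k) s := by
      rw [Data.phB, Data.omB]
      have : (dat hB1 D k hk).α s = (dat hB1 D k hk).β s := rfl
      rw [this]
      ring
    rw [h1, hom]
  rw [Data.uB, XRay.U, WW]
  have hb : (dat hB1 D k hk).b = D.R := rfl
  rw [hb]
  congr 1
  ext s
  rw [hom]
  have hh : (dat hB1 D k hk).h ξ s = D.Ph k s (ξ * (√k : ℝ)) := rfl
  rw [hh]
  congr 2
  simp_rw [hph]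
  rw [← intervalIntegral.integral_const_mul]
  congr 1
  ext r
  ring

lemma good (hB1 : Stmt_BAS1) (D : LD) (hL : D.Lv k) (hk0 : 0 < k) :
    (dat hB1 D k hL.low).Good (√k) where
  pos := Real.sqrt_pos.2 hk0
  int := by
    have h1 : IntervalIntegrable (fun x => √(D.U x) * D.wU k x) volume (-D.R) D.R :=
      hL.gd.int.continuousOn_mul (D.Us.continuous.sqrt).continuousOn
    have h2 : (fun y => XRay.wt (√k) ((dat hB1 D k hL.low).c y)) =
        fun x => √(D.U x) * D.wU k x := by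
      ext y
      exact wt_eq D hk0 y
    rw [h2]
    exact h1
  ne := by
    have h1 : ∀ᵐ y ∂(volume.restrict (Ioc (-D.R) D.R)), D.U y ≠ k :=
      ae_mono (Measure.restrict_mono Ioc_subset_Icc_self le_rfl) hL.gd.ne
    have h2 : ∀ᵐ y ∂(volume.restrict (Ioc (-D.R) D.R)), √k * (√(D.U y))⁻¹ ≠ 1 := by
      filter_upwards [h1] with y hy h3
      rcases lt_or_gt_of_ne hy with h | h
      · have := (gt_iff D hk0 y).2 h
        linarith
      · have := (lt_iff D y).2 h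
        linarith
    exact h2

end GLVAux

open GLVAux XRay XRay.Data in
theorem glv (hB1 : Stmt_BAS1) (hB2 : Stmt_BAS2) : Stmt_GLV := by
  clear hB2
  intro D k hL
  have hk := hL.low
  rcases lt_or_ge k D.a with hka | hka
  · filter_upwards with x ω
    have e1 := conj_vv_low hB1 D hk hka 1 ω x
    have e2 := conj_vv_low hB1 D hk hka (-1) ω x
    have e3 : (starRingEnd ℂ) (D.px k x) = D.px k x := by
      rw [(hB1 D).px_real k x (by have := D.Ua x; linarith), conj_ofReal]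
    refine ⟨?_, ?_⟩
    · rw [LD.SS, LD.SS, map_add, e1, e2]
    · rw [LD.PP, LD.PP, map_mul, map_sub, e1, e2, e3]
  · have hk0 : 0 < k := lt_of_lt_of_le D.a0 hka
    have hg := good hB1 D hL hk0
    have hsk : 0 < √k := Real.sqrt_pos.2 hk0
    set T := dat hB1 D k hL.low with hT
    -- the four functions
    have u1 : ∀ (σ τ : ℝ), σ * τ = 1 → ∀ ξ x, T.uB σ τ (√k) ξ x =
        WW D k (fun s => (D.px k s)⁻¹) σ (ξ * (√k : ℝ)) x := by
      intro σ τ h ξ x
      exact uB_eq hB1 D hk (fun x => by rw [inv_inv]; exact rtB_eq hB1 D hk0 h x) ξ x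
    have u2 : ∀ (σ τ : ℝ), σ * τ = -1 → ∀ ξ x, T.uB σ τ (√k) ξ x =
        WW D k (fun s => (starRingEnd ℂ) (D.px k s)⁻¹) σ (ξ * (√k : ℝ)) x := by
      intro σ τ h ξ x
      exact uB_eq hB1 D hk (fun x => by
        rw [map_inv₀, inv_inv]; exact rtB_eq' hB1 D hk0 h x) ξ x
    have h0 : ∀ σ τ, Sgn σ τ → ∀ ξ, T.uB σ τ (√k) ξ T.a = 0 := by
      intro σ τ hs ξ
      have ha : T.a = -D.R := rfl
      rw [ha]
      rcases hs.hσ with h1 | h1 <;> rcases hs.hτ with h2 | h2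
      · rw [u1 σ τ (by rw [h1, h2]; norm_num)]
        exact WW_left D hL (Or.inl h1) _
      · rw [u2 σ τ (by rw [h1, h2]; norm_num)]
        exact WW_left' hB1 D hL (Or.inl h1) _
      · rw [u2 σ τ (by rw [h1, h2]; norm_num)]
        exact WW_left' hB1 D hL (Or.inr h1) _
      · rw [u1 σ τ (by rw [h1, h2]; norm_num)]
        exact WW_left D hL (Or.inr h1) _
    have hends : ∀ᵐ x ∂(volume.restrict (Icc (-D.R) D.R)), x ≠ -D.R ∧ x ≠ D.R := by
      apply ae_restrict_of_ae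
      have h1 : ∀ᵐ x : ℝ, x ≠ -D.R := by simp [ae_iff]
      have h2 : ∀ᵐ x : ℝ, x ≠ D.R := by simp [ae_iff]
      filter_upwards [h1, h2] with x h3 h4 using ⟨h3, h4⟩
    filter_upwards [hL.gd.ne, hends, ae_restrict_mem measurableSet_Icc] with x hne hen hxI ω
    have hxo : x ∈ Ioo T.a T.b :=
      ⟨lt_of_le_of_ne hxI.1 (Ne.symm hen.1), lt_of_le_of_ne hxI.2 hen.2⟩
    have hxc : x ∈ Icc T.a T.b := hxI
    set ξ : ℂ := ((-ω / √k : ℝ) : ℂ) with hξ
    have hξk : ξ * (√k : ℝ) = ((-ω : ℝ) : ℂ) := by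
      rw [hξ, ← ofReal_mul, div_mul_cancel₀ _ hsk.ne']
    -- values
    have A1 : D.vv 1 k (-ω) x = T.uB 1 1 (√k) ξ x := by
      rw [u1 1 1 (by norm_num), hξk, vv_eq]
      push_cast
      rw [one_mul]
    have A2 : D.vv (-1) k (-ω) x = -T.uB (-1) (-1) (√k) ξ x := by
      rw [u1 (-1) (-1) (by norm_num), hξk, vv_eq]
      push_cast
      rw [neg_mul, one_mul]
    have A3 : (starRingEnd ℂ) (D.vv 1 k ω x) = T.uB 1 (-1) (√k) ξ x := by
      rw [u2 1 (-1) (by norm_num), hξk, vv_eq, map_mul, conj_ofReal, conj_WW hB1 D hk,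
        conj_ofReal]
      push_cast
      rw [one_mul]
    have A4 : (starRingEnd ℂ) (D.vv (-1) k ω x) = -T.uB (-1) 1 (√k) ξ x := by
      rw [u2 (-1) 1 (by norm_num), hξk, vv_eq, map_mul, conj_ofReal, conj_WW hB1 D hk,
        conj_ofReal]
      push_cast
      rw [neg_mul, one_mul]
    refine ⟨?_, ?_⟩
    · have hc := cancel hg h0 ξ hxc
      rw [Df, Df] at hc
      rw [LD.SS, LD.SS, map_add, A1, A2, A3, A4]
      linear_combination (-1 : ℂ) * hc
    · rw [LD.PP, LD.PP, map_mul, map_sub, A1, A2, A3, A4]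
      rcases lt_or_gt_of_ne hne with hlt | hgt
      · have hV : 1 < √k * T.c x := (gt_iff D hk0 x).2 hlt
        have n1 := N_eq_zero hg h0 (Or.inl rfl) ξ hxo hV (τ := 1)
        have n2 := N_eq_zero hg h0 (Or.inr rfl) ξ hxo hV (τ := -1)
        rw [N] at n1 n2
        have hp : (starRingEnd ℂ) (D.px k x) = -D.px k x := by
          rw [(hB1 D).px_ev k x hlt, map_mul, map_neg, conj_I, conj_ofReal]
          ring
        rw [hp]
        linear_combination (-D.px k x) * (n1 + n2)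
      · have hV : √k * T.c x < 1 := (lt_iff D x).2 hgt
        obtain ⟨n1, n2⟩ := cancel_low hg h0 ξ hxo hV
        rw [Df] at n1 n2
        have hp : (starRingEnd ℂ) (D.px k x) = D.px k x := by
          rw [(hB1 D).px_real k x hgt.le, conj_ofReal]
        rw [hp]
        linear_combination (-D.px k x) * n1 + (D.px k x) * n2

end Pool.Agent.LIO
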