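import Pool.Agent.LIO.Stmts

/-!
# Liouville metrics: the growth of the functionals at infinity

Proof: `Pool/Agent/LIO/PAPER.md`, section GRO.
-/

set_option autoImplicit false

namespace Pool.Agent.LIO

open Complex MeasureTheory Set Filter Topology

namespace GROAux

lemma B_pos (D : LD) : 0 < D.B := lt_of_lt_of_le D.a0 (le_trans (D.Ua 0) (D.UB 0))

lemma R_pos (D : LD) : 0 < D.R := lt_trans D.r0 D.rR

/-- far from the values of `U`, `1 / p_x` is small -/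
lemma px_inv (D : LD) (hb : Bas1 D) (h : ℂ) (hB : 2 * D.B ≤ ‖h‖) (h1 : 1 ≤ ‖h‖) (x : ℝ) :
    ‖(D.px h x)⁻¹‖ ≤ (√(‖h‖ / 2))⁻¹ := by
  rw [norm_inv, hb.px_norm]
  have hU : |D.U x| ≤ D.B := by
    rw [abs_of_nonneg (le_trans D.a0.le (D.Ua x))]
    exact D.UB x
  have h2 : ‖h‖ / 2 ≤ ‖(D.U x : ℂ) - h‖ := by
    have h3 : ‖h‖ - ‖(D.U x : ℂ)‖ ≤ ‖h - (D.U x : ℂ)‖ := norm_sub_norm_le _ _
    rw [norm_sub_rev] at h3
    rw [Complex.norm_real, Real.norm_eq_abs] at h3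
    linarith
  exact inv_anti₀ (Real.sqrt_pos.2 (by linarith)) (Real.sqrt_le_sqrt h2)

lemma py_inv (D : LD) (hb : Bas1 D) (h : ℂ) (hB : 2 * D.B ≤ ‖h‖) (h1 : 1 ≤ ‖h‖) (y : ℝ) :
    ‖(D.py h y)⁻¹‖ ≤ (√(‖h‖ / 2))⁻¹ := by
  rw [norm_inv, hb.py_norm]
  have hV : |D.V y| ≤ D.B := by
    rw [abs_of_nonneg (le_trans D.a0.le (D.Va y))]
    exact D.VB y
  have h2 : ‖h‖ / 2 ≤ ‖(D.V y : ℂ) + h‖ := by
    have h3 : ‖h‖ - ‖(-(D.V y : ℂ))‖ ≤ ‖h - (-(D.V y : ℂ))‖ := norm_sub_norm_le _ _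
    rw [norm_neg, Complex.norm_real, Real.norm_eq_abs] at h3
    rw [sub_neg_eq_add, add_comm] at h3
    linarith
  exact inv_anti₀ (Real.sqrt_pos.2 (by linarith)) (Real.sqrt_le_sqrt h2)

lemma ga_le (D : LD) (hb : Bas1 D) (h : ℂ) (hB : 2 * D.B ≤ ‖h‖) (h1 : 1 ≤ ‖h‖) (x x' : ℝ)
    (hx : x ∈ Icc (-D.R) D.R) (hx' : x' ∈ Icc (-D.R) D.R) :
    ‖D.ga h x x'‖ ≤ (√(‖h‖ / 2))⁻¹ * (2 * D.R) := by
  unfold LD.ga
  refine le_trans (intervalIntegral.norm_integral_le_of_norm_le_const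
    (C := (√(‖h‖ / 2))⁻¹) (fun s _ => px_inv D hb h hB h1 s)) ?_
  refine mul_le_mul_of_nonneg_left ?_ (by positivity)
  rw [abs_of_nonneg (sub_nonneg.2 (min_le_max))]
  rw [max_sub_min_eq_abs, abs_le]
  constructor <;> [linarith [hx.1, hx.2, hx'.1, hx'.2]; linarith [hx.1, hx.2, hx'.1, hx'.2]]

lemma be_le (D : LD) (hb : Bas1 D) (h : ℂ) (hB : 2 * D.B ≤ ‖h‖) (h1 : 1 ≤ ‖h‖) (y y' : ℝ)
    (hy : y ∈ Icc (-D.R) D.R) (hy' : y' ∈ Icc (-D.R) D.R) :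
    ‖D.be h y y'‖ ≤ (√(‖h‖ / 2))⁻¹ * (2 * D.R) := by
  unfold LD.be
  refine le_trans (intervalIntegral.norm_integral_le_of_norm_le_const
    (C := (√(‖h‖ / 2))⁻¹) (fun s _ => py_inv D hb h hB h1 s)) ?_
  refine mul_le_mul_of_nonneg_left ?_ (by positivity)
  rw [abs_le]
  constructor <;> [linarith [hy.1, hy.2, hy'.1, hy'.2]; linarith [hy.1, hy.2, hy'.1, hy'.2]]

/-- the points of the box carry the measure -/
lemma ae_box (D : LD) : ∀ᵐ z ∂D.mu, (z.1.1 ∈ Icc (-D.R) D.R ∧ z.1.2 ∈ Icc (-D.R) D.R) ∧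
    (z.2.1 ∈ Icc (-D.R) D.R ∧ z.2.2 ∈ Icc (-D.R) D.R) := by
  have hm : D.mu = ((volume.prod volume).prod (volume.prod volume)).restrict
      ((Icc (-D.R) D.R ×ˢ Icc (-D.R) D.R) ×ˢ (Icc (-D.R) D.R ×ˢ Icc (-D.R) D.R)) := by
    unfold LD.mu LD.nu
    rw [Measure.prod_restrict, Measure.prod_restrict]
  rw [hm]
  have hs : MeasurableSet ((Icc (-D.R) D.R ×ˢ Icc (-D.R) D.R) ×ˢ
      (Icc (-D.R) D.R ×ˢ Icc (-D.R) D.R)) :=
    (measurableSet_Icc.prod measurableSet_Icc).prod (measurableSet_Icc.prod measurableSet_Icc)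
  filter_upwards [ae_restrict_mem hs] with z hz
  exact ⟨⟨hz.1.1, hz.1.2⟩, ⟨hz.2.1, hz.2.2⟩⟩

instance fin_nu (D : LD) : IsFiniteMeasure D.nu := by
  unfold LD.nu
  infer_instance

instance fin_mu (D : LD) : IsFiniteMeasure D.mu := by
  unfold LD.mu
  infer_instance

end GROAux

open GROAux in
/-- **the functionals grow at most like `‖h‖ ^ (1/4)`** -/
theorem gro (hB1 : Stmt_BAS1) (hB2 : Stmt_BAS2) (hB3 : Stmt_BAS3) (hK : Stmt_KER) : Stmt_GRO := by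
  intro D m Q τ hO
  obtain ⟨C1, hC1⟩ := hO.q.grow
  obtain ⟨_, _, _, C2, hC2, hKK⟩ := hK
  have hb : Bas1 D := hB1 D
  have hBp := B_pos D
  have hRp := R_pos D
  set C3 : ℝ := C2 * (√(4 * √2 * D.R) + 32 * D.R ^ 2) with hC3
  have hC3p : 0 ≤ C3 := by positivity
  refine ⟨2 * D.B * |C1| * C3 * D.mu.real univ, ?_⟩
  intro h him hB h1
  obtain ⟨u, hu, hN, hN32, hsq⟩ : ∃ u : ℝ, 1 ≤ u ∧ ‖h‖ ^ (1 / 4 : ℝ) = u ∧
      ‖h‖ ^ (3 / 2 : ℝ) = u ^ 6 ∧ √(‖h‖ / 2) = u ^ 2 / √2 := by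
    refine ⟨‖h‖ ^ (1 / 4 : ℝ), Real.one_le_rpow h1 (by norm_num), rfl, ?_, ?_⟩
    · rw [← Real.rpow_natCast, ← Real.rpow_mul (norm_nonneg _)]
      norm_num
    · rw [Real.sqrt_div (norm_nonneg _), ← Real.rpow_natCast, ← Real.rpow_mul (norm_nonneg _),
        Real.sqrt_eq_rpow ‖h‖]
      norm_num
  have hup : 0 < u := by linarith
  set e : ℝ := (√(‖h‖ / 2))⁻¹ with he
  have he' : e = √2 / u ^ 2 := by
    rw [he, hsq, inv_div]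
  have hep : 0 ≤ e := by rw [he]; positivity
  have hee : e * e = 2 / u ^ 4 := by
    rw [he', div_mul_div_comm, Real.mul_self_sqrt (by norm_num)]
    ring_nf
  -- the kernel
  have hker : ∀ ζ : ℂ, ‖ζ‖ ≤ 4 * D.R * e → ‖KK ζ‖ ≤ C3 / u := by
    intro ζ hζ
    refine le_trans (hKK ζ) ?_
    have h2 : √‖ζ‖ ≤ √(4 * √2 * D.R) / u := by
      have h3 : √(4 * √2 * D.R) / u = √(4 * D.R * e) := by
        rw [he', show 4 * D.R * (√2 / u ^ 2) = (4 * √2 * D.R) / u ^ 2 by ring,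
          Real.sqrt_div (by positivity), Real.sqrt_sq hup.le]
      rw [h3]
      exact Real.sqrt_le_sqrt hζ
    have h4 : ‖ζ‖ ^ 2 ≤ 32 * D.R ^ 2 / u := by
      have h5 : ‖ζ‖ ^ 2 ≤ (4 * D.R * e) ^ 2 := by
        exact pow_le_pow_left₀ (norm_nonneg _) hζ 2
      have h6 : (4 * D.R * e) ^ 2 = 32 * D.R ^ 2 / u ^ 4 := by
        rw [show (4 * D.R * e) ^ 2 = 16 * D.R ^ 2 * (e * e) by ring, hee]
        ring
      rw [h6] at h5
      refine le_trans h5 ?_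
      have h7 : u ≤ u ^ 4 := by
        calc u = u ^ 1 := (pow_one u).symm
          _ ≤ u ^ 4 := pow_le_pow_right₀ hu (by norm_num)
      exact div_le_div_of_nonneg_left (by positivity) hup h7
    calc C2 * (√‖ζ‖ + ‖ζ‖ ^ 2) ≤ C2 * (√(4 * √2 * D.R) / u + 32 * D.R ^ 2 / u) :=
          mul_le_mul_of_nonneg_left (add_le_add h2 h4) hC2.le
      _ = C3 / u := by rw [hC3]; ring
  -- the integrand
  have hint : ∀ᵐ z ∂D.mu, ‖D.HI m Q τ h z‖ ≤ 2 * D.B * |C1| * C3 * u := by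
    filter_upwards [ae_box D] with z hz
    obtain ⟨⟨z1, z2⟩, ⟨z3, z4⟩⟩ := hz
    have k1 : ‖((D.φ z.1.2 z.2.2 : ℝ) : ℂ)‖ ≤ D.B := by
      rw [Complex.norm_real, Real.norm_eq_abs]
      exact D.φb _ _
    have k2 : ‖(D.px h z.1.2)⁻¹‖ ≤ e := px_inv D hb h hB h1 _
    have k3 : ‖(D.py h z.2.2)⁻¹‖ ≤ e := py_inv D hb h hB h1 _
    have k4 : ‖((m z.1.1 z.1.2 : ℝ) : ℂ)‖ ≤ 1 := by
      rw [Complex.norm_real, Real.norm_eq_abs]
      exact hO.mb _ _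
    have k5 : ‖Q h z.1.1 z.2.1‖ ≤ |C1| * u ^ 6 := by
      refine le_trans (hC1 h _ _ him hB h1) ?_
      rw [hN32]
      exact mul_le_mul_of_nonneg_right (le_abs_self _) (by positivity)
    have k6 : ‖KK (D.ga h z.1.1 z.1.2 + τ * D.be h z.2.1 z.2.2)‖ ≤ C3 / u := by
      apply hker
      have g1 := ga_le D hb h hB h1 z.1.1 z.1.2 z1 z2
      have g2 := be_le D hb h hB h1 z.2.1 z.2.2 z3 z4
      have g3 : ‖((τ : ℝ) : ℂ)‖ = 1 := by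
        rw [Complex.norm_real, Real.norm_eq_abs]
        rcases hO.t with ht | ht <;> rw [ht] <;> simp
      calc ‖D.ga h z.1.1 z.1.2 + τ * D.be h z.2.1 z.2.2‖
          ≤ ‖D.ga h z.1.1 z.1.2‖ + ‖τ * D.be h z.2.1 z.2.2‖ := norm_add_le _ _
        _ = ‖D.ga h z.1.1 z.1.2‖ + ‖D.be h z.2.1 z.2.2‖ := by rw [norm_mul, g3, one_mul]
        _ ≤ e * (2 * D.R) + e * (2 * D.R) := add_le_add g1 g2
        _ = 4 * D.R * e := by ring
    unfold LD.HI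
    rw [norm_mul, norm_mul, norm_mul, norm_mul, norm_mul]
    have hu6 : (0 : ℝ) ≤ |C1| * u ^ 6 := by positivity
    calc ‖((D.φ z.1.2 z.2.2 : ℝ) : ℂ)‖ * ‖(D.px h z.1.2)⁻¹‖ * ‖(D.py h z.2.2)⁻¹‖ *
          ‖((m z.1.1 z.1.2 : ℝ) : ℂ)‖ * ‖Q h z.1.1 z.2.1‖ *
          ‖KK (D.ga h z.1.1 z.1.2 + τ * D.be h z.2.1 z.2.2)‖
        ≤ D.B * e * e * 1 * (|C1| * u ^ 6) * (C3 / u) := by
          gcongr
      _ = D.B * (e * e) * |C1| * C3 * (u ^ 6 / u) := by ring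
      _ = 2 * D.B * |C1| * C3 * u := by
          rw [hee]
          field_simp
  unfold LD.HH
  refine le_trans (norm_integral_le_of_norm_le_const hint) ?_
  rw [hN]
  apply le_of_eq
  ring

end Pool.Agent.LIO
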