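import Pool.Agent.LIO.Stmts

/-!
# Liouville metrics: integrability of the elementary functional and the iterated integral
-/

set_option autoImplicit false

namespace Pool.Agent.LIO

open Complex MeasureTheory Set Filter Topology

namespace INTAux

variable (D : LD)

instance nu_fin : IsFiniteMeasure D.nu := by
  unfold LD.nu
  infer_instance

lemma le_RR : -D.R ≤ D.R := by
  have := D.r0
  have := D.rR
  linarith

lemma int_nu (f : ℝ → ℂ) : ∫ x, f x ∂D.nu = ∫ x in (-D.R)..D.R, f x := by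
  rw [intervalIntegral.integral_of_le (le_RR D), LD.nu, integral_Icc_eq_integral_Ioc]

lemma mu_eq : D.mu = (((volume : Measure ℝ).prod (volume : Measure ℝ)).prod
    ((volume : Measure ℝ).prod (volume : Measure ℝ))).restrict
      ((Icc (-D.R) D.R ×ˢ Icc (-D.R) D.R) ×ˢ (Icc (-D.R) D.R ×ˢ Icc (-D.R) D.R)) := by
  unfold LD.mu LD.nu
  rw [Measure.prod_restrict, Measure.prod_restrict]

lemma ae_box : ∀ᵐ z : (ℝ × ℝ) × (ℝ × ℝ) ∂D.mu, z.1.1 ∈ Icc (-D.R) D.R ∧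
    z.1.2 ∈ Icc (-D.R) D.R ∧ z.2.1 ∈ Icc (-D.R) D.R ∧ z.2.2 ∈ Icc (-D.R) D.R := by
  rw [mu_eq]
  have hms : MeasurableSet ((Icc (-D.R) D.R ×ˢ Icc (-D.R) D.R) ×ˢ
      (Icc (-D.R) D.R ×ˢ Icc (-D.R) D.R)) :=
    (measurableSet_Icc.prod measurableSet_Icc).prod (measurableSet_Icc.prod measurableSet_Icc)
  filter_upwards [ae_restrict_mem hms] with z hz
  simp only [mem_prod] at hz
  exact ⟨hz.1.1, hz.1.2, hz.2.1, hz.2.2⟩

variable {D}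

lemma Ad_im {h : ℂ} (hh : D.Ad h) : 0 ≤ h.im := by
  rcases hh with h1 | ⟨h1, -, -⟩
  · exact h1.le
  · exact h1.ge

lemma pyi_bdd (hB1 : Bas1 D) {h : ℂ} (hh : D.Ad h) :
    ∃ C : ℝ, 0 ≤ C ∧ ∀ y, ‖(D.py h y)⁻¹‖ ≤ C := by
  rcases hh with h1 | ⟨-, -, h3⟩
  · exact ⟨_, by positivity, fun y => hB1.pyi_im h y h1⟩
  · exact ⟨_, by positivity, fun y => hB1.pyi_low h y h3⟩

lemma Q_bdd {Q : ℂ → ℝ → ℝ → ℂ} (hQ : D.QOK Q) {h : ℂ} (hh : D.Ad h) :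
    ∃ C : ℝ, 0 ≤ C ∧ ∀ x y, ‖Q h x y‖ ≤ C := by
  rcases hh with h1 | ⟨h1, -, h3⟩
  · obtain ⟨C, hC⟩ := hQ.bdd1 ‖h‖ h.im h1
    exact ⟨C, le_trans (norm_nonneg _) (hC h 0 0 le_rfl le_rfl), fun x y =>
      hC h x y le_rfl le_rfl⟩
  · obtain ⟨C, hC⟩ := hQ.bdd2 ‖h‖ (h.re + D.a) (by linarith)
    exact ⟨C, le_trans (norm_nonneg _) (hC h 0 0 h1.ge (by linarith) le_rfl), fun x y =>
      hC h x y h1.ge (by linarith) le_rfl⟩

lemma ga_bdd (hB3 : Bas3 D) {h : ℂ} (hh : D.Ad h) :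
    ∃ C : ℝ, 0 ≤ C ∧ ∀ x ∈ Icc (-D.R) D.R, ∀ x' ∈ Icc (-D.R) D.R, ‖D.ga h x x'‖ ≤ C := by
  rcases hh with h1 | ⟨h1, h2, h3⟩
  · refine ⟨(2 * D.R) * (√h.im)⁻¹, ?_, ?_⟩
    · have := D.r0
      have := D.rR
      have : 0 ≤ D.R := by linarith
      positivity
    · intro x hx x' hx'
      refine (hB3.ga_im_le h x x' h1).trans ?_
      have : |x - x'| ≤ 2 * D.R := by
        rw [abs_le]
        constructor <;> linarith [hx.1, hx.2, hx'.1, hx'.2]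
      exact mul_le_mul_of_nonneg_right this (by positivity)
  · refine ⟨∫ s in (-D.R)..D.R, D.wU h.re s, ?_, ?_⟩
    · refine intervalIntegral.integral_nonneg (le_RR D) ?_
      intro s _
      unfold LD.wU
      positivity
    · intro x hx x' hx'
      have := hB3.ga_w_le h.re 0 x x' h2 le_rfl hx hx'
      have e : ((h.re : ℂ) + ((0 : ℝ) : ℂ) * I) = h := by
        apply Complex.ext <;> simp [h1]
      rwa [e] at this

lemma be_bdd (hB3 : Bas3 D) {h : ℂ} (hh : D.Ad h) :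
    ∃ C : ℝ, 0 ≤ C ∧ ∀ y ∈ Icc (-D.R) D.R, ∀ y' ∈ Icc (-D.R) D.R, ‖D.be h y y'‖ ≤ C := by
  have hR : 0 ≤ D.R := by
    have := D.r0
    have := D.rR
    linarith
  rcases hh with h1 | ⟨-, -, h3⟩
  · refine ⟨(2 * D.R) * (√h.im)⁻¹, by positivity, ?_⟩
    intro y hy y' hy'
    refine (hB3.be_im_le h y y' h1).trans ?_
    have : |y - y'| ≤ 2 * D.R := by
      rw [abs_le]
      constructor <;> linarith [hy.1, hy.2, hy'.1, hy'.2]
    exact mul_le_mul_of_nonneg_right this (by positivity)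
  · refine ⟨(2 * D.R) * (√(D.a + h.re))⁻¹, by positivity, ?_⟩
    intro y hy y' hy'
    refine (hB3.be_low_le h y y' h3).trans ?_
    have : |y - y'| ≤ 2 * D.R := by
      rw [abs_le]
      constructor <;> linarith [hy.1, hy.2, hy'.1, hy'.2]
    exact mul_le_mul_of_nonneg_right this (by positivity)

lemma KK_bdd (hB3 : Bas3 D) (hK : Stmt_KER) {τ : ℝ} (hτ : τ = 1 ∨ τ = -1) {h : ℂ}
    (hh : D.Ad h) :
    ∃ C : ℝ, 0 ≤ C ∧ ∀ x ∈ Icc (-D.R) D.R, ∀ x' ∈ Icc (-D.R) D.R, ∀ y ∈ Icc (-D.R) D.R,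
      ∀ y' ∈ Icc (-D.R) D.R, ‖KK (D.ga h x x' + τ * D.be h y y')‖ ≤ C := by
  obtain ⟨Cg, hg0, hg⟩ := ga_bdd hB3 hh
  obtain ⟨Cb, hb0, hb⟩ := be_bdd hB3 hh
  obtain ⟨-, -, -, C, hC0, hC⟩ := hK
  refine ⟨C * (√(Cg + Cb) + (Cg + Cb) ^ 2), by positivity, ?_⟩
  intro x hx x' hx' y hy y' hy'
  refine (hC _).trans ?_
  have h1 : ‖D.ga h x x' + τ * D.be h y y'‖ ≤ Cg + Cb := by
    refine (norm_add_le _ _).trans ?_
    have h2 : ‖(τ : ℂ) * D.be h y y'‖ ≤ Cb := by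
      rw [norm_mul, Complex.norm_real]
      have : ‖τ‖ = 1 := by
        rcases hτ with h | h <;> simp [h]
      rw [this, one_mul]
      exact hb y hy y' hy'
    exact add_le_add (hg x hx x' hx') h2
  have h2 : √‖D.ga h x x' + τ * D.be h y y'‖ ≤ √(Cg + Cb) := Real.sqrt_le_sqrt h1
  have h3 : ‖D.ga h x x' + τ * D.be h y y'‖ ^ 2 ≤ (Cg + Cb) ^ 2 :=
    pow_le_pow_left₀ (norm_nonneg _) h1 2
  exact mul_le_mul_of_nonneg_left (add_le_add h2 h3) hC0.le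

lemma HI_meas (hB1 : Bas1 D) (hB3 : Bas3 D) (hK : Stmt_KER) {m : ℝ → ℝ → ℝ}
    {Q : ℂ → ℝ → ℝ → ℂ} {τ : ℝ} (hO : HOK D m Q τ) {h : ℂ} (hh : D.Ad h) :
    AEStronglyMeasurable (D.HI m Q τ h) D.mu := by
  have m1 : Measurable (fun z : (ℝ × ℝ) × (ℝ × ℝ) => (D.φ z.1.2 z.2.2 : ℂ)) := by
    have := D.φm.comp (((measurable_snd.comp measurable_fst).prodMk
      (measurable_snd.comp measurable_snd) :
        Measurable (fun z : (ℝ × ℝ) × (ℝ × ℝ) => (z.1.2, z.2.2))))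
    exact Complex.measurable_ofReal.comp this
  have m2 : Measurable (fun z : (ℝ × ℝ) × (ℝ × ℝ) => (D.px h z.1.2)⁻¹) :=
    ((hB1.px_cont h).measurable.comp (measurable_snd.comp measurable_fst)).inv
  have m3 : Measurable (fun z : (ℝ × ℝ) × (ℝ × ℝ) => (D.py h z.2.2)⁻¹) :=
    ((hB1.py_cont h).measurable.comp (measurable_snd.comp measurable_snd)).inv
  have m4 : Measurable (fun z : (ℝ × ℝ) × (ℝ × ℝ) => (m z.1.1 z.1.2 : ℂ)) := by
    have := hO.mm.comp (measurable_fst : Measurable (fun z : (ℝ × ℝ) × (ℝ × ℝ) => z.1))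
    exact Complex.measurable_ofReal.comp this
  have m5 : Measurable (fun z : (ℝ × ℝ) × (ℝ × ℝ) => Q h z.1.1 z.2.1) :=
    (hO.q.meas h).comp (((measurable_fst.comp measurable_fst).prodMk
      (measurable_fst.comp measurable_snd) :
        Measurable (fun z : (ℝ × ℝ) × (ℝ × ℝ) => (z.1.1, z.2.1))))
  have m6 : AEMeasurable (fun z : (ℝ × ℝ) × (ℝ × ℝ) => D.ga h z.1.1 z.1.2) D.mu := by
    have := (hB3.ga_meas h hh).comp_fst (ν := D.nu.prod D.nu)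
    exact this.aemeasurable
  have m7 : Measurable (fun z : (ℝ × ℝ) × (ℝ × ℝ) => D.be h z.2.1 z.2.2) :=
    (hB3.be_meas h hh).comp measurable_snd
  have m8 : AEMeasurable (fun z : (ℝ × ℝ) × (ℝ × ℝ) =>
      KK (D.ga h z.1.1 z.1.2 + τ * D.be h z.2.1 z.2.2)) D.mu :=
    hK.1.comp_aemeasurable (m6.add (m7.const_mul (τ : ℂ)).aemeasurable)
  have : AEMeasurable (D.HI m Q τ h) D.mu := by
    unfold LD.HI
    exact ((((m1.mul m2).mul m3).mul m4).mul m5).aemeasurable.mul m8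
  exact this.aestronglyMeasurable

lemma px_int (hB2 : Bas2 D) {h : ℂ} (hh : D.Ad h) :
    Integrable (fun x' => ‖(D.px h x')⁻¹‖) D.nu := by
  have := (hB2.intx h hh).norm
  rw [intervalIntegrable_iff_integrableOn_Icc_of_le (le_RR D)] at this
  exact this

lemma HI_int (hB1 : Bas1 D) (hB2 : Bas2 D) (hB3 : Bas3 D) (hK : Stmt_KER) {m : ℝ → ℝ → ℝ}
    {Q : ℂ → ℝ → ℝ → ℂ} {τ : ℝ} (hO : HOK D m Q τ) {h : ℂ} (hh : D.Ad h) :
    Integrable (D.HI m Q τ h) D.mu := by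
  obtain ⟨Cp, hp0, hp⟩ := pyi_bdd hB1 hh
  obtain ⟨CQ, hq0, hq⟩ := Q_bdd hO.q hh
  obtain ⟨CK, hk0, hk⟩ := KK_bdd hB3 hK hO.t hh
  have g1 : Integrable (fun z : ℝ × ℝ => ‖(D.px h z.2)⁻¹‖) (D.nu.prod D.nu) :=
    (px_int hB2 hh).comp_snd D.nu
  have g2 : Integrable (fun z : (ℝ × ℝ) × (ℝ × ℝ) => ‖(D.px h z.1.2)⁻¹‖) D.mu :=
    g1.comp_fst (D.nu.prod D.nu)
  have g3 : Integrable (fun z : (ℝ × ℝ) × (ℝ × ℝ) => (D.B * Cp * CQ * CK) *
      ‖(D.px h z.1.2)⁻¹‖) D.mu := g2.const_mul _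
  refine g3.mono' (HI_meas hB1 hB3 hK hO hh) ?_
  filter_upwards [ae_box D] with z hz
  obtain ⟨z1, z2, z3, z4⟩ := hz
  unfold LD.HI
  rw [norm_mul, norm_mul, norm_mul, norm_mul, norm_mul]
  have n1 : ‖(D.φ z.1.2 z.2.2 : ℂ)‖ ≤ D.B := by
    rw [Complex.norm_real]
    exact D.φb _ _
  have n4 : ‖(m z.1.1 z.1.2 : ℂ)‖ ≤ 1 := by
    rw [Complex.norm_real]
    exact hO.mb _ _
  have n3 := hp z.2.2
  have n5 := hq z.1.1 z.2.1
  have n6 := hk z.1.1 z1 z.1.2 z2 z.2.1 z3 z.2.2 z4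
  have hB : 0 ≤ D.B := le_trans (norm_nonneg _) n1
  calc ‖(D.φ z.1.2 z.2.2 : ℂ)‖ * ‖(D.px h z.1.2)⁻¹‖ * ‖(D.py h z.2.2)⁻¹‖ *
        ‖(m z.1.1 z.1.2 : ℂ)‖ * ‖Q h z.1.1 z.2.1‖ *
        ‖KK (D.ga h z.1.1 z.1.2 + τ * D.be h z.2.1 z.2.2)‖
      ≤ D.B * ‖(D.px h z.1.2)⁻¹‖ * Cp * 1 * CQ * CK := by gcongr
    _ = (D.B * Cp * CQ * CK) * ‖(D.px h z.1.2)⁻¹‖ := by ring

end INTAux

open INTAux in
theorem int_ (hB1 : Stmt_BAS1) (hB2 : Stmt_BAS2) (hB3 : Stmt_BAS3) (hK : Stmt_KER) :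
    Stmt_INT := by
  intro D m Q τ hO h hh
  have hI : Integrable (D.HI m Q τ h) D.mu := HI_int (hB1 D) (hB2 D) (hB3 D) hK hO hh
  refine ⟨hI, ?_⟩
  have hI' : Integrable (D.HI m Q τ h) ((D.nu.prod D.nu).prod (D.nu.prod D.nu)) := hI
  have e1 : D.HH m Q τ h = ∫ w, ∫ v, D.HI m Q τ h (w, v) ∂(D.nu.prod D.nu)
      ∂(D.nu.prod D.nu) := by
    unfold LD.HH LD.mu
    exact integral_prod _ hI'
  have e2 : (fun w : ℝ × ℝ => ∫ v, D.HI m Q τ h (w, v) ∂(D.nu.prod D.nu))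
      =ᵐ[D.nu.prod D.nu] fun w => ∫ y', ∫ y, D.HI m Q τ h (w, (y, y')) ∂D.nu ∂D.nu := by
    filter_upwards [hI'.prod_right_ae] with w hw
    exact integral_prod_symm _ hw
  have i2 : Integrable (fun w : ℝ × ℝ => ∫ y', ∫ y, D.HI m Q τ h (w, (y, y')) ∂D.nu ∂D.nu)
      (D.nu.prod D.nu) := (hI'.integral_prod_left).congr e2
  rw [e1, integral_congr_ae e2, integral_prod _ i2]
  simp only [int_nu]
  refine intervalIntegral.integral_congr fun x _ => ?_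
  refine intervalIntegral.integral_congr fun x' _ => ?_
  refine intervalIntegral.integral_congr fun y' _ => ?_
  simp only [LD.HI, mul_assoc]
  simp only [intervalIntegral.integral_const_mul]

end Pool.Agent.LIO
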