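import Pool.Agent.LIO.Stmts

/-!
# INV: Fourier inversion in the variable `b(y)`
-/

set_option autoImplicit false

namespace Pool.Agent.LIO

open Complex MeasureTheory Set Filter Topology
open scoped FourierTransform RealInnerProductSpace

namespace INVAux

/-- Fourier inversion with the kernel `e^{iωs}`. -/
theorem inversion (g : ℝ → ℂ) (c : ℝ → ℂ) (hg : Continuous g) (hi : Integrable g)
    (hc : ∀ ω : ℝ, c ω = ∫ s : ℝ, g s * cexp (I * ω * s)) (hci : Integrable c) (s : ℝ) :
    g s = (2 * Real.pi : ℂ)⁻¹ * ∫ ω : ℝ, c ω * cexp (-(I * ω * s)) := by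
  have h1 : ∀ ξ : ℝ, 𝓕 g ξ = c (-(2 * Real.pi) * ξ) := by
    intro ξ
    rw [Real.fourier_real_eq_integral_exp_smul, hc]
    refine integral_congr_ae (Eventually.of_forall fun v => ?_)
    dsimp only
    rw [smul_eq_mul, mul_comm]
    congr 2
    push_cast
    ring
  have h2π : (-(2 * Real.pi) : ℝ) ≠ 0 := by
    have := Real.pi_pos
    linarith
  have h3 : Integrable (𝓕 g) := by
    have h4 : 𝓕 g = fun ξ => c (-(2 * Real.pi) * ξ) := funext h1
    rw [h4]
    exact hci.comp_mul_left' h2π
  have h5 := congrFun (hg.fourierInv_fourier_eq hi h3) s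
  rw [← h5, Real.fourierInv_eq']
  have h6 : (∫ v : ℝ, cexp ((↑(2 * Real.pi * ⟪v, s⟫)) * I) • 𝓕 g v) =
      ∫ v : ℝ, (fun ω : ℝ => c ω * cexp (-(I * ω * s))) (-(2 * Real.pi) * v) := by
    refine integral_congr_ae (Eventually.of_forall fun v => ?_)
    dsimp only
    rw [h1, smul_eq_mul, mul_comm]
    congr 2
    have h7 : ⟪v, s⟫ = s * v := rfl
    rw [h7]
    push_cast
    ring
  have h8 := Measure.integral_comp_mul_left
    (fun ω : ℝ => c ω * cexp (-(I * ω * s))) (-(2 * Real.pi))
  rw [h6, h8, abs_inv, abs_neg,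
    abs_of_pos (by have := Real.pi_pos; linarith), Complex.real_smul]
  push_cast
  rfl

section

variable (D : LD) (k : ℝ)

/-- the real phase -/
noncomputable def bb (y : ℝ) : ℝ := ∫ s in (-D.R)..y, (√(D.V s + k))⁻¹

variable {k}

theorem vpos (hk : -D.a < k) (y : ℝ) : 0 < D.V y + k := by
  have := D.Va y
  linarith

theorem cont_inv (hk : -D.a < k) : Continuous fun s => (√(D.V s + k))⁻¹ :=
  ((D.Vs.continuous.add continuous_const).sqrt).inv₀
    fun y => (Real.sqrt_pos.2 (vpos D hk y)).ne'

theorem bb_deriv (hk : -D.a < k) (y : ℝ) : HasDerivAt (bb D k) ((√(D.V y + k))⁻¹) y :=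
  intervalIntegral.integral_hasDerivAt_right ((cont_inv D hk).intervalIntegrable _ _)
    ((cont_inv D hk).stronglyMeasurableAtFilter _ _) (cont_inv D hk).continuousAt

theorem bb_diff (hk : -D.a < k) : Differentiable ℝ (bb D k) :=
  fun y => (bb_deriv D hk y).differentiableAt

theorem bb_mono (hk : -D.a < k) : StrictMono (bb D k) := by
  refine strictMono_of_deriv_pos fun y => ?_
  rw [(bb_deriv D hk y).deriv]
  exact inv_pos.2 (Real.sqrt_pos.2 (vpos D hk y))

theorem bb_surj (hk : -D.a < k) : Function.Surjective (bb D k) := by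
  have hBk : 0 < D.B + k := by
    have h1 := vpos D hk 0
    have h2 := D.VB 0
    linarith
  set c : ℝ := (√(D.B + k))⁻¹ with hc
  have hc0 : 0 < c := inv_pos.2 (Real.sqrt_pos.2 hBk)
  have h1 : ∀ y, c ≤ deriv (bb D k) y := by
    intro y
    rw [(bb_deriv D hk y).deriv, hc]
    refine inv_anti₀ (Real.sqrt_pos.2 (vpos D hk y)) (Real.sqrt_le_sqrt ?_)
    have h2 := D.VB y
    linarith
  have h2 : ∀ ⦃y y' : ℝ⦄, y ≤ y' → c * (y' - y) ≤ bb D k y' - bb D k y :=
    mul_sub_le_image_sub_of_le_deriv (bb_diff D hk) h1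
  refine (bb_diff D hk).continuous.surjective ?_ ?_
  · refine tendsto_atTop_mono' atTop (f₁ := fun y => bb D k 0 + c * y) ?_ ?_
    · filter_upwards [eventually_ge_atTop 0] with y hy
      have h3 := h2 hy
      rw [sub_zero] at h3
      linarith
    · exact tendsto_atTop_add_const_left _ _ (tendsto_id.const_mul_atTop hc0)
  · refine tendsto_atBot_mono' atBot (f₁ := fun y => bb D k 0 + c * y) ?_ ?_
    · filter_upwards [eventually_le_atBot 0] with y hy
      have h3 := h2 hy
      linarith
    · exact tendsto_atBot_add_const_left _ _ (tendsto_id.const_mul_atBot hc0)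

theorem BB_eq (hB : Bas1 D) (hk : -D.a < k) (y : ℝ) : D.BB k y = ((bb D k y : ℝ) : ℂ) := by
  unfold LD.BB bb
  rw [← intervalIntegral.integral_ofReal]
  congr 1
  funext s
  rw [hB.py_real k s hk.le, Complex.ofReal_inv]

end

end INVAux

open INVAux in
/-- INV: Fourier inversion in the variable `b(y)`. -/
theorem inv_ (hB1 : Stmt_BAS1) (_hB2 : Stmt_BAS2) (hDec : Stmt_DEC) : Stmt_INV := by
  intro D ψ hψ k hk x y
  have hB := hB1 D
  obtain ⟨ρ, hρR, hρ⟩ := hψ.supp
  have hψc : Continuous fun y => ψ x y := by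
    have h1 := hψ.smooth.continuous.comp (Continuous.prodMk_right x)
    exact h1
  have hbc : Continuous (bb D k) := (bb_diff D hk).continuous
  let e : ℝ ≃o ℝ := StrictMono.orderIsoOfSurjective (bb D k) (bb_mono D hk) (bb_surj D hk)
  have he : ∀ y, e y = bb D k y := fun _ => rfl
  have hYc : Continuous e.symm := e.symm.continuous
  set g : ℝ → ℂ := fun s => ((ψ x (e.symm s) * √(D.V (e.symm s) + k) : ℝ) : ℂ) with hgdef
  have hg : Continuous g := by
    refine Complex.continuous_ofReal.comp ?_
    exact (hψc.comp hYc).mul (((D.Vs.continuous.comp hYc).add continuous_const).sqrt)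
  have hsup : HasCompactSupport g := by
    refine HasCompactSupport.intro (K := Icc (bb D k (-ρ)) (bb D k ρ)) isCompact_Icc ?_
    intro s hs
    have h1 : ρ ≤ |e.symm s| := by
      rw [le_abs]
      by_contra hcon
      push Not at hcon
      apply hs
      constructor
      · rw [← he, ← e.le_symm_apply]
        linarith
      · rw [← he, ← e.symm_apply_le]
        linarith
    have h2 := hρ x (e.symm s) (Or.inr h1)
    rw [hgdef]
    dsimp only
    rw [h2, zero_mul, Complex.ofReal_zero]
  have hi : Integrable g := hg.integrable_of_hasCompactSupport hsup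
  have hbe : ∀ y, D.BB k y = ((bb D k y : ℝ) : ℂ) := BB_eq D hB hk
  have hgb : ∀ y, g (bb D k y) = (ψ x y : ℂ) * ((√(D.V y + k) : ℝ) : ℂ) := by
    intro y
    rw [hgdef]
    dsimp only
    rw [← he, e.symm_apply_apply, Complex.ofReal_mul]
  have hc : ∀ ω : ℝ, D.c0 ψ k ω x = ∫ s : ℝ, g s * cexp (I * ω * s) := by
    intro ω
    have h1 : D.c0 ψ k ω x = ∫ y : ℝ, (ψ x y : ℂ) * cexp (I * ω * D.BB k y) := by
      unfold LD.c0
      have hR := D.r0.trans D.rR
      rw [intervalIntegral.integral_of_le (by linarith)]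
      refine setIntegral_eq_integral_of_forall_compl_eq_zero fun y hy => ?_
      have h2 : ρ ≤ |y| := by
        rw [le_abs]
        by_contra hcon
        push Not at hcon
        apply hy
        constructor <;> linarith
      rw [hρ x y (Or.inr h2), Complex.ofReal_zero, zero_mul]
    have h2 := integral_image_eq_integral_abs_deriv_smul (s := univ) MeasurableSet.univ
      (f := bb D k) (fun y _ => (bb_deriv D hk y).hasDerivWithinAt)
      (bb_mono D hk).injective.injOn (fun s : ℝ => g s * cexp (I * ω * s))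
    rw [image_univ, (bb_surj D hk).range_eq, setIntegral_univ, setIntegral_univ] at h2
    rw [h1, h2]
    refine integral_congr_ae (Eventually.of_forall fun y => ?_)
    dsimp only
    have h3 : 0 < √(D.V y + k) := Real.sqrt_pos.2 (vpos D hk y)
    have h4 : ((√(D.V y + k) : ℝ) : ℂ) ≠ 0 := by
      exact_mod_cast h3.ne'
    rw [abs_of_pos (inv_pos.2 h3), hgb, hbe, Complex.real_smul, Complex.ofReal_inv]
    field_simp
  have hci : Integrable (fun ω : ℝ => D.c0 ψ k ω x) := by
    obtain ⟨C, hC⟩ := hDec D ψ hψ k hk 2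
    refine Integrable.mono' (g := fun ω : ℝ => |C| * (1 + ω ^ 2)⁻¹)
      (integrable_inv_one_add_sq.const_mul _) ?_ (Eventually.of_forall fun ω => ?_)
    · refine Continuous.aestronglyMeasurable ?_
      have h1 : (fun ω : ℝ => D.c0 ψ k ω x) = fun ω : ℝ => ∫ y in (-D.R)..D.R,
          (ψ x y : ℂ) * cexp (I * ω * ((bb D k y : ℝ) : ℂ)) := by
        funext ω
        unfold LD.c0
        congr 1
        funext y
        rw [hbe]
      rw [h1]
      refine intervalIntegral.continuous_parametric_intervalIntegral_of_continuous' ?_ _ _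
      unfold Function.uncurry
      dsimp only
      fun_prop
    · refine (hC x ω).1.trans ?_
      have h1 : 0 < 1 + ω ^ 2 := by positivity
      have h2 : 1 + ω ^ 2 ≤ (1 + |ω|) ^ 2 := by
        have h3 := abs_nonneg ω
        have h4 := sq_abs ω
        nlinarith
      rw [div_eq_mul_inv]
      refine mul_le_mul (le_abs_self C) (inv_anti₀ h1 h2) (by positivity) (abs_nonneg C)
  have h1 := inversion g (fun ω : ℝ => D.c0 ψ k ω x) hg hi hc hci (bb D k y)
  rw [hgb] at h1
  rw [hB.py_real k y hk.le, h1]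
  congr 2
  funext ω
  rw [hbe]

end Pool.Agent.LIO
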