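import Pool.Agent.LIO.Stmts

/-!
# The kernel
-/

set_option autoImplicit false

namespace Pool.Agent.LIO

open Complex MeasureTheory Set Filter Topology

namespace KERAux

lemma re_arg (ζ : ℂ) : (-(I * ζ)).re = ζ.im := by simp

lemma im_arg (ζ : ℂ) : (-(I * ζ)).im = -ζ.re := by simp

lemma slit {ζ : ℂ} (h : ζ.re ≠ 0 ∨ 0 < ζ.im) : -(I * ζ) ∈ slitPlane := by
  rw [mem_slitPlane_iff, re_arg, im_arg]
  rcases h with h | h
  · right
    exact neg_ne_zero.2 h
  · left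
    exact h

lemma ne {ζ : ℂ} (h : ζ.re ≠ 0 ∨ 0 < ζ.im) : ζ ≠ 0 := by
  rintro rfl
  rcases h with h | h
  · exact h rfl
  · exact lt_irrefl _ h

lemma dlog {ζ : ℂ} (h : ζ.re ≠ 0 ∨ 0 < ζ.im) :
    HasDerivAt (fun w => Complex.log (-(I * w))) ζ⁻¹ ζ := by
  have h1 : HasDerivAt (fun w : ℂ => -(I * w)) (-(I * 1)) ζ := ((hasDerivAt_id ζ).const_mul I).neg
  have h2 := h1.clog (slit h)
  refine h2.congr_deriv ?_
  have := ne h
  field_simp

lemma rlog {r : ℝ} (hr : 0 ≤ r) : r * |Real.log r| ≤ 2 * (√r + r ^ 2) := by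
  rcases hr.eq_or_lt with h | h
  · subst h
    simp
  rcases le_total r 1 with h1 | h1
  · have hs : 0 < √r := Real.sqrt_pos.2 h
    have e : Real.log r = -(2 * Real.log (√r)⁻¹) := by
      rw [Real.log_inv, Real.log_sqrt hr]
      ring
    have e2 : Real.log (√r)⁻¹ ≤ (√r)⁻¹ - 1 := Real.log_le_sub_one_of_pos (inv_pos.2 hs)
    have e3 : |Real.log r| ≤ 2 * (√r)⁻¹ := by
      rw [abs_of_nonpos (Real.log_nonpos hr h1), e]
      linarith
    calc r * |Real.log r| ≤ r * (2 * (√r)⁻¹) := mul_le_mul_of_nonneg_left e3 hr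
      _ = 2 * √r := by
        have e5 : r * (√r)⁻¹ = √r := by
          rw [← div_eq_mul_inv, Real.div_sqrt]
        linear_combination 2 * e5
      _ ≤ 2 * (√r + r ^ 2) := by
        have := sq_nonneg r
        linarith
  · have e2 : Real.log r ≤ r - 1 := Real.log_le_sub_one_of_pos h
    rw [abs_of_nonneg (Real.log_nonneg h1)]
    have := Real.sqrt_nonneg r
    nlinarith [sq_nonneg r]

lemma rle {r : ℝ} (hr : 0 ≤ r) : r ≤ √r + r ^ 2 := by
  rcases le_total r 1 with h1 | h1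
  · have h := Real.sqrt_le_sqrt (show r ^ 2 ≤ r by nlinarith)
    rw [Real.sqrt_sq hr] at h
    nlinarith [sq_nonneg r]
  · have := Real.sqrt_nonneg r
    nlinarith

lemma bound (ζ : ℂ) : ‖KK ζ‖ ≤ (2 + Real.pi) * (√‖ζ‖ + ‖ζ‖ ^ 2) := by
  unfold KK
  rw [norm_mul]
  have h1 : ‖Complex.log (-(I * ζ))‖ ≤ |Real.log ‖ζ‖| + Real.pi := by
    refine (Complex.norm_le_abs_re_add_abs_im _).trans ?_
    rw [Complex.log_re, Complex.log_im, norm_neg, norm_mul, Complex.norm_I, one_mul]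
    exact add_le_add le_rfl (Complex.abs_arg_le_pi _)
  have h0 := norm_nonneg ζ
  calc ‖ζ‖ * ‖Complex.log (-(I * ζ))‖ ≤ ‖ζ‖ * (|Real.log ‖ζ‖| + Real.pi) :=
        mul_le_mul_of_nonneg_left h1 h0
    _ = ‖ζ‖ * |Real.log ‖ζ‖| + Real.pi * ‖ζ‖ := by ring
    _ ≤ 2 * (√‖ζ‖ + ‖ζ‖ ^ 2) + Real.pi * (√‖ζ‖ + ‖ζ‖ ^ 2) :=
        add_le_add (rlog h0) (mul_le_mul_of_nonneg_left (rle h0) Real.pi_pos.le)
    _ = _ := by ring

end KERAux

open KERAux in
theorem ker : Stmt_KER := by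
  refine ⟨?_, ?_, ?_, 2 + Real.pi, by positivity, bound⟩
  · unfold KK
    exact measurable_id.mul (Complex.measurable_log.comp ((measurable_const.mul measurable_id).neg))
  · intro ζ h
    have hne := ne h
    have hd := dlog h
    refine ⟨?_, ?_⟩
    · have h2 := (hasDerivAt_id ζ).mul hd
      refine (h2.congr_deriv ?_)
      simp only [id]
      rw [mul_inv_cancel₀ hne]
      ring
    · simpa using hd.add_const 1
  · intro ζ hζ
    by_cases h : ζ.re ≠ 0 ∨ 0 < ζ.im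
    · have hd := dlog h
      have h2 := (hasDerivAt_id ζ).mul hd
      exact h2.continuousAt
    · push Not at h
      have h0 : ζ = 0 := by
        have := hζ h.1
        exact Complex.ext h.1 (le_antisymm h.2 this)
      subst h0
      have hK : KK 0 = 0 := by simp [KK]
      rw [ContinuousAt, hK]
      have ht : Tendsto (fun ζ : ℂ => (2 + Real.pi) * (√‖ζ‖ + ‖ζ‖ ^ 2)) (𝓝 0) (𝓝 0) := by
        have hc : Continuous (fun ζ : ℂ => (2 + Real.pi) * (√‖ζ‖ + ‖ζ‖ ^ 2)) := by fun_prop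
        have := hc.tendsto 0
        simpa using this
      exact squeeze_zero_norm bound ht

end Pool.Agent.LIO
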