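import Pool.Agent.LIO.Stmts

/-!
# The kernel in the Fourier variable
-/

set_option autoImplicit false

namespace Pool.Agent.LIO

open Complex MeasureTheory Set Filter Topology

namespace KFAux

lemma norm_exp_neg_le {z : ℂ} (hz : 0 ≤ z.re) : ‖cexp (-z)‖ ≤ 1 := by
  rw [Complex.norm_exp]
  simpa using hz

lemma exp_sub_one {z : ℂ} (hz : 0 ≤ z.re) : ‖cexp (-z) - 1‖ ≤ 2 * ‖z‖ := by
  by_cases h : ‖z‖ ≤ 1
  · have := Complex.norm_exp_sub_one_le (x := -z) (by simpa using h)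
    simpa using this
  · push Not at h
    have h1 : ‖cexp (-z) - 1‖ ≤ ‖cexp (-z)‖ + ‖(1 : ℂ)‖ := norm_sub_le _ _
    have h2 := norm_exp_neg_le hz
    rw [norm_one] at h1
    linarith

lemma exp_rem {z : ℂ} (hz : 0 ≤ z.re) : ‖cexp (-z) - 1 + z‖ ≤ 3 * ‖z‖ ^ 2 := by
  by_cases h : ‖z‖ ≤ 1
  · have := Complex.norm_exp_sub_one_sub_id_le (x := -z) (by simpa using h)
    rw [norm_neg, sub_neg_eq_add] at this
    nlinarith [norm_nonneg z]
  · push Not at h
    have h1 : ‖cexp (-z) - 1 + z‖ ≤ ‖cexp (-z)‖ + ‖(1 : ℂ)‖ + ‖z‖ :=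
      (norm_add_le _ _).trans (by gcongr; exact norm_sub_le _ _)
    have h2 := norm_exp_neg_le hz
    rw [norm_one] at h1
    nlinarith

lemma div_bound {N A B ω : ℝ} (hω : 0 < ω) (h1 : N ≤ A * ω ^ 2) (h2 : N ≤ B) :
    (ω ^ 2)⁻¹ * N ≤ (A + B) * (1 + ω ^ 2)⁻¹ := by
  have h3 : 0 < ω ^ 2 := by positivity
  have h4 : 0 < 1 + ω ^ 2 := by positivity
  rw [inv_mul_eq_div, ← div_eq_mul_inv, div_le_div_iff₀ h3 h4]
  nlinarith

/-- `ω e^{-sω} ≤ 1/s` -/
lemma mul_exp_le {s ω : ℝ} (hs : 0 < s) : ω * Real.exp (-(s * ω)) ≤ s⁻¹ := by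
  have h1 : s * ω + 1 ≤ Real.exp (s * ω) := Real.add_one_le_exp _
  rw [Real.exp_neg, ← div_eq_mul_inv, div_le_iff₀ (Real.exp_pos _), inv_mul_eq_div,
    le_div_iff₀ hs]
  nlinarith

noncomputable def g1 (p : ℂ) (ω : ℝ) : ℂ :=
  ((ω ^ 2 : ℝ) : ℂ)⁻¹ * (cexp (-(p * ω)) - 1 + p * ω * cexp (-ω))

noncomputable def g2 (p : ℂ) (ω : ℝ) : ℂ :=
  ((ω ^ 2 : ℝ) : ℂ)⁻¹ * (cexp (-(p * ω)) - 1 + p * ω * cexp (-(p * ω)))

lemma re_mul_nonneg {p : ℂ} {ω : ℝ} (hp : 0 ≤ p.re) (hω : 0 < ω) : 0 ≤ (p * ω).re := by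
  simp
  positivity

lemma norm_mul_w (p : ℂ) {ω : ℝ} (hω : 0 < ω) : ‖p * ω‖ = ‖p‖ * ω := by
  rw [norm_mul, Complex.norm_real, Real.norm_of_nonneg hω.le]

lemma norm_inv_sq (ω : ℝ) : ‖((ω ^ 2 : ℝ) : ℂ)⁻¹‖ = (ω ^ 2)⁻¹ := by
  rw [norm_inv, Complex.norm_real, Real.norm_of_nonneg (sq_nonneg ω)]

lemma g1_bound {p : ℂ} {ω : ℝ} (hp : 0 ≤ p.re) (hω : 0 < ω) :
    ‖g1 p ω‖ ≤ (3 * ‖p‖ ^ 2 + 2 * ‖p‖ + (2 + ‖p‖)) * (1 + ω ^ 2)⁻¹ := by
  unfold g1
  rw [norm_mul, norm_inv_sq]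
  have hz := re_mul_nonneg hp hω
  have hw : 0 ≤ ((ω : ℝ) : ℂ).re := by simpa using hω.le
  refine div_bound hω ?_ ?_
  · have h1 : cexp (-(p * ω)) - 1 + p * ω * cexp (-ω) =
        (cexp (-(p * ω)) - 1 + p * ω) + p * ω * (cexp (-ω) - 1) := by ring
    rw [h1]
    refine (norm_add_le _ _).trans ?_
    rw [norm_mul (p * ω)]
    have h2 := exp_rem hz
    have h3 := exp_sub_one hw
    rw [norm_mul_w p hω] at h2 ⊢
    rw [Complex.norm_real, Real.norm_of_nonneg hω.le] at h3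
    have h4 : ‖p‖ * ω * ‖cexp (-ω) - 1‖ ≤ ‖p‖ * ω * (2 * ω) := by gcongr
    nlinarith
  · refine (norm_add_le _ _).trans ?_
    rw [norm_mul (p * ω), norm_mul_w p hω]
    have h2 : ‖cexp (-(p * ω)) - 1‖ ≤ 2 := by
      refine (norm_sub_le _ _).trans ?_
      have := norm_exp_neg_le hz
      rw [norm_one]; linarith
    have h3 : ‖cexp (-(ω : ℂ))‖ = Real.exp (-(1 * ω)) := by
      rw [Complex.norm_exp]; simp
    rw [h3, mul_assoc]
    have h4 := mul_exp_le (s := 1) (ω := ω) one_pos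
    have h5 : ‖p‖ * (ω * Real.exp (-(1 * ω))) ≤ ‖p‖ * 1⁻¹ := by gcongr
    rw [inv_one, mul_one] at h5
    linarith

lemma g2_bound {p : ℂ} {ω : ℝ} (hp : 0 < p.re) (hω : 0 < ω) :
    ‖g2 p ω‖ ≤ (5 * ‖p‖ ^ 2 + (2 + ‖p‖ * p.re⁻¹)) * (1 + ω ^ 2)⁻¹ := by
  unfold g2
  rw [norm_mul, norm_inv_sq]
  have hz := re_mul_nonneg hp.le hω
  refine div_bound hω ?_ ?_
  · have h1 : cexp (-(p * ω)) - 1 + p * ω * cexp (-(p * ω)) =
        (cexp (-(p * ω)) - 1 + p * ω) + p * ω * (cexp (-(p * ω)) - 1) := by ring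
    rw [h1]
    refine (norm_add_le _ _).trans ?_
    rw [norm_mul (p * ω)]
    have h2 := exp_rem hz
    have h3 := exp_sub_one hz
    rw [norm_mul_w p hω] at h2 h3 ⊢
    have h4 : ‖p‖ * ω * ‖cexp (-(p * ω)) - 1‖ ≤ ‖p‖ * ω * (2 * (‖p‖ * ω)) := by gcongr
    nlinarith
  · refine (norm_add_le _ _).trans ?_
    rw [norm_mul (p * ω), norm_mul_w p hω]
    have h2 : ‖cexp (-(p * ω)) - 1‖ ≤ 2 := by
      refine (norm_sub_le _ _).trans ?_
      have := norm_exp_neg_le hz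
      rw [norm_one]; linarith
    have h3 : ‖cexp (-(p * ω))‖ = Real.exp (-(p.re * ω)) := by
      rw [Complex.norm_exp]; simp
    rw [h3, mul_assoc]
    have h4 := mul_exp_le (s := p.re) (ω := ω) hp
    have h5 : ‖p‖ * (ω * Real.exp (-(p.re * ω))) ≤ ‖p‖ * p.re⁻¹ := by gcongr
    linarith

lemma meas_g1 (p : ℂ) : Measurable (g1 p) := by
  unfold g1
  fun_prop

lemma meas_g2 (p : ℂ) : Measurable (g2 p) := by
  unfold g2
  fun_prop

lemma int_bound (C : ℝ) : IntegrableOn (fun ω : ℝ => C * (1 + ω ^ 2)⁻¹) (Ioi 0) :=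
  (integrable_inv_one_add_sq.const_mul C).integrableOn

lemma int_g1 {p : ℂ} (hp : 0 ≤ p.re) : IntegrableOn (g1 p) (Ioi 0) :=
  (int_bound _).mono' (meas_g1 p).aestronglyMeasurable
    ((ae_restrict_iff' measurableSet_Ioi).2 (ae_of_all _ fun _ hω => g1_bound hp hω))

lemma int_g2 {p : ℂ} (hp : 0 < p.re) : IntegrableOn (g2 p) (Ioi 0) :=
  (int_bound _).mono' (meas_g2 p).aestronglyMeasurable
    ((ae_restrict_iff' measurableSet_Ioi).2 (ae_of_all _ fun _ hω => g2_bound hp hω))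

/-- the antiderivative of `g2` -/
lemma hasDeriv_g2 (p : ℂ) {ω : ℝ} (hω : ω ≠ 0) :
    HasDerivAt (fun ω : ℝ => (1 - cexp (-(p * ω))) / ω) (g2 p ω) ω := by
  have h1 : HasDerivAt (fun ω : ℝ => (ω : ℂ)) 1 ω := Complex.ofRealCLM.hasDerivAt
  have h2 : HasDerivAt (fun ω : ℝ => 1 - cexp (-(p * ω))) (p * cexp (-(p * ω))) ω := by
    have h3 : HasDerivAt (fun ω : ℝ => -(p * (ω : ℂ))) (-(p * 1)) ω := (h1.const_mul p).neg
    have h4 := (h3.cexp.const_sub 1)
    refine h4.congr_deriv ?_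
    ring
  have h5 := h2.div h1 (by exact_mod_cast hω)
  refine h5.congr_deriv ?_
  unfold g2
  have h6 : (ω : ℂ) ≠ 0 := by exact_mod_cast hω
  push_cast
  field_simp
  ring

lemma tendsto_zero (p : ℂ) :
    Tendsto (fun ω : ℝ => (1 - cexp (-(p * ω))) / ω) (𝓝[>] 0) (𝓝 p) := by
  have h1 : HasDerivAt (fun ω : ℝ => (ω : ℂ)) 1 (0 : ℝ) := Complex.ofRealCLM.hasDerivAt
  have h2 : HasDerivAt (fun ω : ℝ => 1 - cexp (-(p * ω))) p (0 : ℝ) := by
    have h3 : HasDerivAt (fun ω : ℝ => -(p * (ω : ℂ))) (-(p * 1)) (0 : ℝ) :=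
      (h1.const_mul p).neg
    have h4 := (h3.cexp.const_sub 1)
    refine h4.congr_deriv ?_
    simp
  have h5 := h2.hasDerivWithinAt (s := Ioi 0)
  rw [hasDerivWithinAt_iff_tendsto_slope' (by simp)] at h5
  refine h5.congr' ?_
  filter_upwards [self_mem_nhdsWithin] with ω hω
  rw [slope_def_module]
  simp [div_eq_inv_mul]

lemma tendsto_top {p : ℂ} (hp : 0 < p.re) :
    Tendsto (fun ω : ℝ => (1 - cexp (-(p * ω))) / ω) atTop (𝓝 0) := by
  rw [tendsto_zero_iff_norm_tendsto_zero]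
  have h1 : Tendsto (fun ω : ℝ => 2 * ω⁻¹) atTop (𝓝 0) := by
    simpa using tendsto_inv_atTop_zero.const_mul (2 : ℝ)
  refine squeeze_zero' (Eventually.of_forall fun _ => norm_nonneg _) ?_ h1
  filter_upwards [eventually_gt_atTop 0] with ω hω
  rw [norm_div, Complex.norm_real, Real.norm_of_nonneg hω.le, div_eq_mul_inv]
  gcongr
  refine (norm_sub_le _ _).trans ?_
  have := norm_exp_neg_le (re_mul_nonneg hp.le hω)
  rw [norm_one]; linarith

lemma integral_g2 {p : ℂ} (hp : 0 < p.re) : ∫ ω in Ioi (0 : ℝ), g2 p ω = -p := by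
  have := integral_Ioi_of_hasDerivAt_of_tendsto
    (f := Function.update (fun ω : ℝ => (1 - cexp (-(p * ω))) / ω) 0 p) (f' := g2 p) (a := 0)
    (m := 0) ?_ ?_ (int_g2 hp) ?_
  · rw [this]
    simp
  · rw [continuousWithinAt_update_same, Ici_sdiff_left]
    exact tendsto_zero p
  · intro x hx
    have hx' : x ≠ 0 := (ne_of_gt hx)
    refine (hasDeriv_g2 p hx').congr_of_eventuallyEq ?_
    filter_upwards [eventually_ne_nhds hx'] with y hy
    rw [Function.update_of_ne hy]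
  · refine (tendsto_top hp).congr' ?_
    filter_upwards [eventually_gt_atTop 0] with y hy
    rw [Function.update_of_ne (ne_of_gt hy)]

/-- the integrand of Frullani's integral -/
noncomputable def fr (p : ℂ) (ω : ℝ) : ℂ := (ω : ℂ)⁻¹ * (cexp (-ω) - cexp (-(p * ω)))

lemma fr_eq (p : ℂ) {ω : ℝ} (hω : 0 < ω) : g1 p ω = g2 p ω + p * fr p ω := by
  have h6 : (ω : ℂ) ≠ 0 := by exact_mod_cast hω.ne'
  unfold g1 g2 fr
  push_cast
  field_simp
  ring

lemma meas_fr (p : ℂ) : Measurable (fr p) := by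
  unfold fr
  fun_prop

lemma int_fr {p : ℂ} (hp : 0 < p.re) : IntegrableOn (fr p) (Ioi 0) := by
  have hp0 : p ≠ 0 := by
    rintro rfl
    simp at hp
  have h1 : IntegrableOn (fun ω => p⁻¹ * (g1 p ω - g2 p ω)) (Ioi 0) :=
    ((int_g1 hp.le).sub (int_g2 hp)).const_mul p⁻¹
  refine h1.congr_fun ?_ measurableSet_Ioi
  intro ω hω
  simp only
  rw [fr_eq p hω]
  field_simp
  ring

lemma int_exp {p : ℂ} (hp : 0 < p.re) : ∫ ω in Ioi (0 : ℝ), cexp (-(p * ω)) = p⁻¹ := by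
  have h := integral_exp_mul_complex_Ioi (a := -p) (by simpa using hp) 0
  simp only [Complex.ofReal_zero, mul_zero, Complex.exp_zero] at h
  rw [show (fun ω : ℝ => cexp (-(p * ω))) = fun ω : ℝ => cexp (-p * ω) by
    ext ω; rw [neg_mul], h]
  field_simp

lemma hasDeriv_fr {p : ℂ} (hp : 0 < p.re) :
    HasDerivAt (fun p => ∫ ω in Ioi (0 : ℝ), fr p ω) p⁻¹ p := by
  have key := hasDerivAt_integral_of_dominated_loc_of_deriv_le
    (μ := volume.restrict (Ioi (0 : ℝ))) (F := fun p ω => fr p ω)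
    (F' := fun p ω => cexp (-(p * ω))) (x₀ := p) (s := Metric.ball p (p.re / 2))
    (bound := fun ω => Real.exp (-(p.re / 2) * ω)) (Metric.ball_mem_nhds p (half_pos hp))
    (Eventually.of_forall fun q => (meas_fr q).aestronglyMeasurable) (int_fr hp)
    (by
      have : Measurable (fun ω : ℝ => cexp (-(p * ω))) := by fun_prop
      exact this.aestronglyMeasurable) ?_ ?_ ?_
  · have := key.2
    rwa [int_exp hp] at this
  · refine (ae_restrict_iff' measurableSet_Ioi).2 (ae_of_all _ fun ω hω q hq => ?_)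
    rw [Complex.norm_exp, Real.exp_le_exp]
    have h1 : |(q - p).re| ≤ ‖q - p‖ := Complex.abs_re_le_norm _
    rw [Metric.mem_ball, dist_eq_norm] at hq
    have h2 := (abs_le.1 h1).1
    simp only [Complex.sub_re] at h2
    have h3 : (-(q * (ω : ℂ))).re = -(q.re * ω) := by simp
    rw [h3]
    have h4 : (0 : ℝ) < ω := hω
    nlinarith
  · exact integrableOn_exp_mul_Ioi (by linarith) 0
  · refine (ae_restrict_iff' measurableSet_Ioi).2 (ae_of_all _ fun ω hω q hq => ?_)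
    have h6 : (ω : ℂ) ≠ 0 := by exact_mod_cast (ne_of_gt hω)
    have h1 : HasDerivAt (fun q : ℂ => -(q * (ω : ℂ))) (-(1 * (ω : ℂ))) q :=
      ((hasDerivAt_id q).mul_const _).neg
    have h2 := (h1.cexp.const_sub (cexp (-ω))).const_mul ((ω : ℂ)⁻¹)
    refine h2.congr_deriv ?_
    field_simp

lemma integral_fr {p : ℂ} (hp : 0 < p.re) : ∫ ω in Ioi (0 : ℝ), fr p ω = Complex.log p := by
  have hopen : IsOpen {p : ℂ | 0 < p.re} := isOpen_lt continuous_const Complex.continuous_re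
  have hconv : Convex ℝ {p : ℂ | 0 < p.re} := convex_halfSpace_re_gt 0
  have hd : ∀ q ∈ {p : ℂ | 0 < p.re}, HasDerivAt
      (fun p => (∫ ω in Ioi (0 : ℝ), fr p ω) - Complex.log p) 0 q := by
    intro q hq
    have h1 := (hasDeriv_fr hq).sub (Complex.hasDerivAt_log (z := q) (Or.inl hq))
    rwa [sub_self] at h1
  have h2 := hopen.is_const_of_deriv_eq_zero hconv.isPreconnected
    (fun q hq => (hd q hq).differentiableAt.differentiableWithinAt)
    (fun q hq => (hd q hq).deriv) hp (y := 1) (by simp)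
  simp only [Complex.log_one, sub_zero] at h2
  have h3 : ∫ ω in Ioi (0 : ℝ), fr 1 ω = 0 := by
    have : fr 1 = fun _ => 0 := by
      ext ω
      simp [fr]
    rw [this]
    simp
  rw [h3] at h2
  exact sub_eq_zero.1 h2

lemma integral_g1_pos {p : ℂ} (hp : 0 < p.re) :
    ∫ ω in Ioi (0 : ℝ), g1 p ω = p * Complex.log p - p := by
  have h1 : ∫ ω in Ioi (0 : ℝ), g1 p ω = ∫ ω in Ioi (0 : ℝ), (g2 p ω + p * fr p ω) :=
    setIntegral_congr_fun measurableSet_Ioi fun ω hω => fr_eq p hω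
  rw [h1, integral_add (int_g2 hp) ((int_fr hp).const_mul p), integral_const_mul,
    integral_g2 hp, integral_fr hp]
  ring

lemma tendsto_g1 {p : ℂ} (hp : 0 ≤ p.re) :
    Tendsto (fun ε : ℝ => ∫ ω in Ioi (0 : ℝ), g1 (p + ε) ω) (𝓝[>] 0)
      (𝓝 (∫ ω in Ioi (0 : ℝ), g1 p ω)) := by
  refine tendsto_integral_filter_of_dominated_convergence
    (fun ω => (3 * (‖p‖ + 1) ^ 2 + 2 * (‖p‖ + 1) + (2 + (‖p‖ + 1))) * (1 + ω ^ 2)⁻¹)
    (Eventually.of_forall fun ε => (meas_g1 _).aestronglyMeasurable) ?_ (int_bound _) ?_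
  · filter_upwards [self_mem_nhdsWithin,
      mem_nhdsWithin_of_mem_nhds (Iic_mem_nhds (zero_lt_one' ℝ))] with ε hε hε1
    have hε : (0 : ℝ) < ε := hε
    have hε1 : ε ≤ 1 := hε1
    refine (ae_restrict_iff' measurableSet_Ioi).2 (ae_of_all _ fun ω hω => ?_)
    have hre : 0 ≤ (p + (ε : ℂ)).re := by
      simp only [Complex.add_re, Complex.ofReal_re]
      linarith
    refine (g1_bound hre hω).trans ?_
    have hn : ‖p + (ε : ℂ)‖ ≤ ‖p‖ + 1 := by
      refine (norm_add_le _ _).trans ?_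
      rw [Complex.norm_real, Real.norm_of_nonneg hε.le]
      linarith
    gcongr
  · refine ae_of_all _ fun ω => ?_
    have hc : Continuous fun ε : ℝ => g1 (p + ε) ω := by
      unfold g1
      fun_prop
    have := (hc.tendsto 0).mono_left (nhdsWithin_le_nhds (s := Ioi 0))
    simpa using this

lemma KK_I_mul (p : ℂ) : KK (I * p) = I * (p * Complex.log p) := by
  unfold KK
  rw [show -(I * (I * p)) = p by rw [← mul_assoc, I_mul_I]; ring]
  ring

lemma integral_g1 (hK : Stmt_KER) {p : ℂ} (hp : 0 ≤ p.re) :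
    I * ∫ ω in Ioi (0 : ℝ), g1 p ω = KK (I * p) - I * p := by
  have h1 := (tendsto_g1 hp).const_mul I
  have hD : I * p ∈ DD := by
    intro _
    simpa using hp
  have h2 : Tendsto (fun ε : ℝ => KK (I * (p + ε)) - I * (p + ε)) (𝓝[>] 0)
      (𝓝 (KK (I * p) - I * p)) := by
    have hc : Continuous fun ε : ℝ => I * (p + (ε : ℂ)) := by fun_prop
    have hc0 : Tendsto (fun ε : ℝ => I * (p + (ε : ℂ))) (𝓝[>] 0) (𝓝 (I * p)) := by
      have := (hc.tendsto 0).mono_left (nhdsWithin_le_nhds (s := Ioi 0))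
      simpa using this
    exact ((hK.2.2.1 _ hD).tendsto.comp hc0).sub hc0
  refine tendsto_nhds_unique h1 (h2.congr' ?_)
  filter_upwards [self_mem_nhdsWithin] with ε hε
  have hε : (0 : ℝ) < ε := hε
  rw [integral_g1_pos (by simp only [Complex.add_re, Complex.ofReal_re]; linarith), KK_I_mul]
  ring

/-- the kernel as a function of `ζ` -/
noncomputable def kr (ζ : ℂ) (ω : ℝ) : ℂ :=
  ((ω ^ 2 : ℝ) : ℂ)⁻¹ * (cexp (I * ω * ζ) - 1 - I * ω * ζ * cexp (-ω))

lemma kr_eq (ζ : ℂ) (ω : ℝ) : kr ζ ω = g1 (-(I * ζ)) ω := by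
  unfold kr g1
  rw [show -(-(I * ζ) * (ω : ℂ)) = I * ω * ζ by ring]
  ring

lemma integral_kr (hK : Stmt_KER) {ζ : ℂ} (hζ : 0 ≤ ζ.im) :
    I * ∫ ω in Ioi (0 : ℝ), kr ζ ω = KK ζ - ζ := by
  have hp : 0 ≤ (-(I * ζ)).re := by simpa using hζ
  have h := integral_g1 hK hp
  rw [show I * -(I * ζ) = ζ by rw [mul_neg, ← mul_assoc, I_mul_I]; ring] at h
  rw [← h]
  congr 1
  refine integral_congr_ae (ae_of_all _ fun ω => kr_eq ζ ω)

lemma kr_bound {ζ : ℂ} {ω : ℝ} (hζ : 0 ≤ ζ.im) (hω : 0 < ω) :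
    ‖kr ζ ω‖ ≤ (3 * ‖ζ‖ ^ 2 + 2 * ‖ζ‖ + (2 + ‖ζ‖)) * (1 + ω ^ 2)⁻¹ := by
  have hp : 0 ≤ (-(I * ζ)).re := by simpa using hζ
  have h := g1_bound hp hω
  rw [← kr_eq, norm_neg, norm_mul, Complex.norm_I, one_mul] at h
  exact h

lemma main (hK : Stmt_KER) (c e : ℝ) (q : ℝ → ℂ) (b : ℝ → ℝ) (ζ : ℂ) (hce : c ≤ e)
    (hq : Continuous q) (hb : Continuous b) (hζ : 0 ≤ ζ.im) (h0 : ∫ y in c..e, q y = 0)
    (h1 : ∫ y in c..e, q y * b y = 0) :
    IntegrableOn (fun ω : ℝ => ((ω ^ 2 : ℝ) : ℂ)⁻¹ * (∫ y in c..e, q y * cexp (I * ω * b y)) *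
      cexp (I * ω * ζ)) (Ioi 0) ∧
    ∫ y in c..e, q y * KK (b y + ζ) = I * ∫ ω in Ioi (0 : ℝ),
      ((ω ^ 2 : ℝ) : ℂ)⁻¹ * (∫ y in c..e, q y * cexp (I * ω * b y)) * cexp (I * ω * ζ) := by
  have hint : ∀ g : ℝ → ℂ, Continuous g → IntervalIntegrable g volume c e :=
    fun g hg => hg.intervalIntegrable c e
  -- the integrand
  have hin : ∀ ω : ℝ, ((ω ^ 2 : ℝ) : ℂ)⁻¹ * (∫ y in c..e, q y * cexp (I * ω * b y)) *
      cexp (I * ω * ζ) = ∫ y in c..e, q y * kr (b y + ζ) ω := by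
    intro ω
    have e1 : ∀ y, q y * kr (b y + ζ) ω = ((ω ^ 2 : ℝ) : ℂ)⁻¹ * cexp (I * ω * ζ) *
        (q y * cexp (I * ω * b y)) - ((ω ^ 2 : ℝ) : ℂ)⁻¹ * (1 + I * ω * ζ * cexp (-ω)) * q y
        - ((ω ^ 2 : ℝ) : ℂ)⁻¹ * (I * ω * cexp (-ω)) * (q y * b y) := by
      intro y
      unfold kr
      rw [show I * (ω : ℂ) * ((b y : ℂ) + ζ) = I * ω * b y + I * ω * ζ by ring, Complex.exp_add]
      ring
    simp only [e1]
    rw [intervalIntegral.integral_sub, intervalIntegral.integral_sub,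
      intervalIntegral.integral_const_mul, intervalIntegral.integral_const_mul,
      intervalIntegral.integral_const_mul, h0, h1]
    · ring
    all_goals
      apply Continuous.intervalIntegrable
      fun_prop
  -- the product integrand
  obtain ⟨Mq, hMq⟩ := (isCompact_Icc (a := c) (b := e)).exists_bound_of_continuousOn
    hq.continuousOn
  obtain ⟨Mb, hMb⟩ := (isCompact_Icc (a := c) (b := e)).exists_bound_of_continuousOn
    hb.continuousOn
  have hprod : Integrable (fun z : ℝ × ℝ => q z.2 * kr (b z.2 + ζ) z.1)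
      ((volume.restrict (Ioi (0 : ℝ))).prod (volume.restrict (Ioc c e))) := by
    have hmeas : Measurable (fun z : ℝ × ℝ => q z.2 * kr (b z.2 + ζ) z.1) := by
      unfold kr
      have := hq.measurable
      have := hb.measurable
      fun_prop
    have hbd : Integrable (fun z : ℝ × ℝ => (|Mq| *
        (3 * (|Mb| + ‖ζ‖) ^ 2 + 2 * (|Mb| + ‖ζ‖) + (2 + (|Mb| + ‖ζ‖))) * (1 + z.1 ^ 2)⁻¹) *
        (1 : ℝ)) ((volume.restrict (Ioi (0 : ℝ))).prod (volume.restrict (Ioc c e))) :=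
      (int_bound _).mul_prod (integrable_const (1 : ℝ))
    refine hbd.mono' hmeas.aestronglyMeasurable ?_
    rw [Measure.prod_restrict, ae_restrict_iff' (measurableSet_Ioi.prod measurableSet_Ioc)]
    refine ae_of_all _ fun z hz => ?_
    obtain ⟨hz1, hz2⟩ := hz
    have hz3 : z.2 ∈ Icc c e := Ioc_subset_Icc_self hz2
    rw [norm_mul, mul_one, mul_assoc]
    have him : 0 ≤ ((b z.2 : ℂ) + ζ).im := by simpa using hζ
    have hk := kr_bound him hz1
    have hn : ‖(b z.2 : ℂ) + ζ‖ ≤ |Mb| + ‖ζ‖ := by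
      refine (norm_add_le _ _).trans ?_
      rw [Complex.norm_real]
      gcongr
      exact (hMb _ hz3).trans (le_abs_self _)
    have hq1 : ‖q z.2‖ ≤ |Mq| := (hMq _ hz3).trans (le_abs_self _)
    refine mul_le_mul hq1 (hk.trans ?_) (norm_nonneg _) (abs_nonneg _)
    gcongr
  constructor
  · simp only [hin]
    simp only [intervalIntegral.integral_of_le hce]
    exact hprod.integral_prod_left
  · simp only [hin]
    simp only [intervalIntegral.integral_of_le hce]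
    rw [integral_integral_swap hprod]
    have h2 : ∀ y, ∫ ω in Ioi (0 : ℝ), q y * kr (b y + ζ) ω =
        q y * (-I * (KK (b y + ζ) - (b y + ζ))) := by
      intro y
      rw [integral_const_mul, ← integral_kr hK (ζ := b y + ζ) (by simpa using hζ)]
      rw [← mul_assoc (-I), neg_mul, I_mul_I]
      ring
    simp only [h2]
    rw [← intervalIntegral.integral_of_le hce, ← intervalIntegral.integral_of_le hce]
    have h3 : ∀ y, q y * (-I * (KK (b y + ζ) - (b y + ζ))) = -I * (q y * KK (b y + ζ)) +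
        (I * ζ * q y + I * (q y * b y)) := by
      intro y; ring
    simp only [h3]
    have hKc : Continuous fun y => KK ((b y : ℂ) + ζ) := by
      rw [continuous_iff_continuousAt]
      intro y
      have hD : ((b y : ℂ) + ζ) ∈ DD := by
        intro _
        simpa using hζ
      have hc : Continuous fun y => (b y : ℂ) + ζ := by fun_prop
      exact ContinuousAt.comp (f := fun y => (b y : ℂ) + ζ) (g := KK) (hK.2.2.1 _ hD)
        hc.continuousAt
    rw [intervalIntegral.integral_add, intervalIntegral.integral_add,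
      intervalIntegral.integral_const_mul, intervalIntegral.integral_const_mul,
      intervalIntegral.integral_const_mul, h0, h1]
    · rw [mul_zero, mul_zero, add_zero, add_zero, ← mul_assoc, mul_neg, I_mul_I]
      ring
    all_goals
      apply Continuous.intervalIntegrable
      fun_prop

end KFAux

open KFAux in
theorem kf (hK : Stmt_KER) (_hS : Stmt_SUP) : Stmt_KF := by
  intro c e q b ζ hce hq hb hζ h0 h1
  set q' : ℝ → ℂ := IccExtend hce ((Icc c e).domRestrict q) with hq'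
  set b' : ℝ → ℝ := IccExtend hce ((Icc c e).domRestrict b) with hb'
  have hqc : Continuous q' := (continuousOn_iff_continuous_domRestrict.1 hq).Icc_extend'
  have hbc : Continuous b' := (continuousOn_iff_continuous_domRestrict.1 hb).Icc_extend'
  have eq1 : ∀ y ∈ uIcc c e, q' y = q y := by
    intro y hy
    rw [uIcc_of_le hce] at hy
    rw [hq', IccExtend_of_mem _ _ hy]
    rfl
  have eb1 : ∀ y ∈ uIcc c e, b' y = b y := by
    intro y hy
    rw [uIcc_of_le hce] at hy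
    rw [hb', IccExtend_of_mem _ _ hy]
    rfl
  have h0' : ∫ y in c..e, q' y = 0 := by
    rw [← h0]
    exact intervalIntegral.integral_congr fun y hy => eq1 y hy
  have h1' : ∫ y in c..e, q' y * b' y = 0 := by
    rw [← h1]
    refine intervalIntegral.integral_congr fun y hy => ?_
    simp only [eq1 y hy, eb1 y hy]
  have key := main hK c e q' b' ζ hce hqc hbc hζ h0' h1'
  have hi : ∀ ω : ℝ, ∫ y in c..e, q' y * cexp (I * ω * b' y) =
      ∫ y in c..e, q y * cexp (I * ω * b y) := by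
    intro ω
    refine intervalIntegral.integral_congr fun y hy => ?_
    simp only [eq1 y hy, eb1 y hy]
  have hj : ∫ y in c..e, q' y * KK (b' y + ζ) = ∫ y in c..e, q y * KK (b y + ζ) := by
    refine intervalIntegral.integral_congr fun y hy => ?_
    simp only [eq1 y hy, eb1 y hy]
  simp only [hi, hj] at key
  exact key

end Pool.Agent.LIO
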