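import Pool.Agent.LIO.Stmts
import Pool.Agent.Lib_helper92.XRay.Level

/-!
# The levels of `U`
-/

set_option autoImplicit false

namespace Pool.Agent.LIO

open Complex MeasureTheory Set Filter Topology

namespace LEVAux

variable (D : LD)

lemma wU_nonneg (k x : ℝ) : 0 ≤ D.wU k x := inv_nonneg.2 (Real.sqrt_nonneg _)

lemma wU_meas : Measurable (fun z : ℝ × ℝ => D.wU z.1 z.2) := by
  unfold LD.wU
  have hU : Continuous D.U := D.Us.continuous
  have h : Continuous (fun z : ℝ × ℝ => √|D.U z.2 - z.1|) := by fun_prop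
  exact h.measurable.inv

lemma Rpos : 0 < D.R := D.r0.trans D.rR

/-- the bound of the integral over the levels -/
lemma level_bound (K : ℝ) (hK : 0 ≤ K) (x : ℝ) :
    IntervalIntegrable (fun k => D.wU k x) volume (-K) K ∧
    ∫ k in (-K)..K, D.wU k x ≤ ∫ s in (-K)..(D.B + K), (√|s|)⁻¹ := by
  have hUa := D.Ua x
  have hUB := D.UB x
  have ha := D.a0
  have e1 : (fun k => D.wU k x) = fun k => (fun s : ℝ => (√|s|)⁻¹) (D.U x - k) := rfl
  constructor
  · have h1 := (XRay.intervalIntegrable_inv_sqrt_abs (D.U x + K) (D.U x - K)).comp_sub_left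
      (D.U x)
    have e2 : D.U x - (D.U x + K) = -K := by ring
    have e3 : D.U x - (D.U x - K) = K := by ring
    rw [e2, e3] at h1
    exact h1
  · rw [e1, intervalIntegral.integral_comp_sub_left (fun s => (√|s|)⁻¹) (D.U x)]
    apply intervalIntegral.integral_mono_interval (by linarith) (by linarith) (by linarith)
    · filter_upwards with s
      simp only [Pi.zero_apply]
      positivity
    · exact XRay.intervalIntegrable_inv_sqrt_abs _ _

lemma prod_int (K : ℝ) (hK : 0 ≤ K) : Integrable (fun z : ℝ × ℝ => D.wU z.1 z.2)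
    ((volume.restrict (Ioc (-K) K)).prod (volume.restrict (Ioc (-D.R) D.R))) := by
  have hm := wU_meas D
  rw [integrable_prod_iff' hm.aestronglyMeasurable]
  constructor
  · filter_upwards with x
    have h := (level_bound D K hK x).1
    rw [intervalIntegrable_iff_integrableOn_Ioc_of_le (by linarith)] at h
    exact h
  · have hfin : IsFiniteMeasure (volume.restrict (Ioc (-D.R) D.R)) :=
      ⟨by rw [Measure.restrict_apply_univ]; exact measure_Ioc_lt_top⟩
    apply (integrable_const (∫ s in (-K)..(D.B + K), (√|s|)⁻¹)).mono'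
    · exact (hm.norm.stronglyMeasurable.integral_prod_left'
        (μ := volume.restrict (Ioc (-K) K))).aestronglyMeasurable
    · filter_upwards with x
      have h1 := (level_bound D K hK x).2
      rw [intervalIntegral.integral_of_le (by linarith)] at h1
      rw [Real.norm_of_nonneg (integral_nonneg fun k => norm_nonneg _)]
      have h2 : ∀ k : ℝ, ‖D.wU k x‖ = D.wU k x := fun k => Real.norm_of_nonneg (wU_nonneg D k x)
      simp only [h2]
      exact h1

lemma ae_int (K : ℝ) (hK : 0 ≤ K) : ∀ᵐ k ∂(volume.restrict (Ioc (-K) K)),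
    IntervalIntegrable (D.wU k) volume (-D.R) D.R := by
  filter_upwards [(prod_int D K hK).prod_right_ae] with k hk
  rw [intervalIntegrable_iff_integrableOn_Ioc_of_le (by linarith [Rpos D])]
  exact hk

lemma ae_ne : ∀ᵐ k : ℝ, ∀ᵐ x ∂(volume.restrict (Icc (-D.R) D.R)), D.U x ≠ k := by
  have hms : MeasurableSet {z : ℝ × ℝ | D.U z.2 ≠ z.1} := by
    have hU : Continuous D.U := D.Us.continuous
    have h1 : Measurable (fun z : ℝ × ℝ => D.U z.2 - z.1) :=
      (by fun_prop : Continuous (fun z : ℝ × ℝ => D.U z.2 - z.1)).measurable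
    have h2 : {z : ℝ × ℝ | D.U z.2 ≠ z.1} = ((fun z : ℝ × ℝ => D.U z.2 - z.1) ⁻¹' {0})ᶜ := by
      ext z
      simp only [mem_compl_iff, mem_preimage, mem_singleton_iff, sub_eq_zero]
      rfl
    rw [h2]
    exact (h1 (measurableSet_singleton 0)).compl
  rw [Measure.ae_ae_comm hms]
  filter_upwards with x
  have h1 : ∀ᵐ k : ℝ, k ≠ D.U x := by simp [ae_iff, measure_singleton]
  filter_upwards [h1] with k hk h
  exact hk h.symm

end LEVAux

open LEVAux in
/-- the levels of `U` -/
theorem lev : Stmt_LEV := by
  intro D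
  have hR := Rpos D
  refine ⟨?_, ?_, ?_⟩
  · have h1 : ∀ᵐ k : ℝ, ∀ n : ℕ, k ∈ Ioc (-(n : ℝ)) n →
        IntervalIntegrable (D.wU k) volume (-D.R) D.R := by
      rw [ae_all_iff]
      intro n
      exact (ae_restrict_iff' measurableSet_Ioc).1 (ae_int D n (Nat.cast_nonneg n))
    filter_upwards [h1, ae_ne D] with k hk1 hk2
    obtain ⟨n, hn⟩ := exists_nat_gt |k|
    obtain ⟨h3, h4⟩ := abs_lt.1 hn
    exact ⟨hk1 n ⟨h3, h4.le⟩, hk2⟩
  · intro k hk
    constructor
    · apply Continuous.intervalIntegrable
      have hU : Continuous D.U := D.Us.continuous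
      unfold LD.wU
      apply Continuous.inv₀
      · fun_prop
      · intro x
        have h1 := D.Ua x
        have h2 : 0 < |D.U x - k| := abs_pos.2 (by linarith)
        exact (Real.sqrt_pos.2 h2).ne'
    · filter_upwards with x h
      have h1 := D.Ua x
      linarith
  · intro K
    rcases le_or_gt 0 K with hK | hK
    · have h1 := (prod_int D K hK).integral_prod_left
      rw [integrableOn_Icc_iff_integrableOn_Ioc]
      refine h1.congr ?_
      filter_upwards with k
      rw [intervalIntegral.integral_of_le (by linarith)]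
    · rw [Icc_eq_empty (by linarith)]
      exact integrableOn_empty

end Pool.Agent.LIO
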