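import Pool.Agent.LIO.Stmts

/-!
# Liouville metrics: boundary values of the elementary functional
-/

set_option autoImplicit false

namespace Pool.Agent.LIO

open Complex MeasureTheory Set Filter Topology

namespace LIMAux

instance (D : LD) : IsFiniteMeasure D.nu := by
  unfold LD.nu; infer_instance

theorem q11 (D : LD) : Measure.QuasiMeasurePreserving
    (fun z : (ℝ × ℝ) × (ℝ × ℝ) => z.1.1) D.mu D.nu :=
  Measure.quasiMeasurePreserving_fst.comp Measure.quasiMeasurePreserving_fst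

theorem q12 (D : LD) : Measure.QuasiMeasurePreserving
    (fun z : (ℝ × ℝ) × (ℝ × ℝ) => z.1.2) D.mu D.nu :=
  Measure.quasiMeasurePreserving_snd.comp Measure.quasiMeasurePreserving_fst

theorem q21 (D : LD) : Measure.QuasiMeasurePreserving
    (fun z : (ℝ × ℝ) × (ℝ × ℝ) => z.2.1) D.mu D.nu :=
  Measure.quasiMeasurePreserving_fst.comp Measure.quasiMeasurePreserving_snd

theorem q22 (D : LD) : Measure.QuasiMeasurePreserving
    (fun z : (ℝ × ℝ) × (ℝ × ℝ) => z.2.2) D.mu D.nu :=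
  Measure.quasiMeasurePreserving_snd.comp Measure.quasiMeasurePreserving_snd

/-- the points of the box at which `U x' ≠ k` -/
theorem box (D : LD) (k : ℝ) (hk : D.Gd k) : ∀ᵐ z ∂D.mu,
    z.1.1 ∈ Icc (-D.R) D.R ∧ z.1.2 ∈ Icc (-D.R) D.R ∧ z.2.1 ∈ Icc (-D.R) D.R ∧
      z.2.2 ∈ Icc (-D.R) D.R ∧ D.U z.1.2 ≠ k := by
  have h1 : ∀ᵐ x ∂D.nu, x ∈ Icc (-D.R) D.R := ae_restrict_mem measurableSet_Icc
  have h2 : ∀ᵐ x ∂D.nu, D.U x ≠ k := hk.ne
  filter_upwards [(q11 D).ae h1, (q12 D).ae h1, (q21 D).ae h1, (q22 D).ae h1, (q12 D).ae h2]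
    with z a b c d e
  exact ⟨a, b, c, d, e⟩

theorem wint (D : LD) (k : ℝ) (hk : D.Gd k) : Integrable (fun z : (ℝ × ℝ) × (ℝ × ℝ) =>
    D.wU k z.1.2) D.mu := by
  have h1 : Integrable (D.wU k) D.nu := by
    have hR : -D.R ≤ D.R := by linarith [D.r0, D.rR]
    have := (intervalIntegrable_iff_integrableOn_Icc_of_le hR).1 hk.int
    exact this
  have h2 : Integrable (fun z : ℝ × ℝ => D.wU k z.2) (D.nu.prod D.nu) := h1.comp_snd D.nu
  exact h2.comp_fst (D.nu.prod D.nu)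

theorem Ad_up (k ε : ℝ) (D : LD) (h : 0 < ε) : D.Ad ((k : ℂ) + ε * I) := by
  left; simpa using h

theorem re_up (k ε : ℝ) : ((k : ℂ) + ε * I).re = k := by simp

theorem im_up (k ε : ℝ) : ((k : ℂ) + ε * I).im = ε := by simp

end LIMAux

open LIMAux

theorem lim (hB1 : Stmt_BAS1) (hB2 : Stmt_BAS2) (hB3 : Stmt_BAS3) (hK : Stmt_KER)
    (hI : Stmt_INT) : Stmt_LIM := by
  intro D m Q τ hok k hk hak
  obtain ⟨-, -, hKc, CK, hCK, hKb⟩ := hK
  have b1 := hB1 D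
  have b2 := hB2 D
  have b3 := hB3 D
  have hR : 0 < D.R := lt_trans D.r0 D.rR
  obtain ⟨CQ, hCQ⟩ := hok.q.bdd2 (|k| + 1) (D.a + k) (by linarith)
  have hCQ0 : 0 ≤ CQ := le_trans (norm_nonneg _)
    (hCQ (k : ℂ) 0 0 (by simp) (by simp) (by
      rw [Complex.norm_real, Real.norm_eq_abs]; linarith [abs_nonneg k]))
  have hB0 : 0 ≤ D.B := le_trans (abs_nonneg _) (D.φb 0 0)
  set W : ℝ := ∫ s in (-D.R)..D.R, D.wU k s with hW
  set s0 : ℝ := (√(D.a + k))⁻¹ with hs0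
  have hs00 : 0 ≤ s0 := by rw [hs0]; positivity
  set Z : ℝ := W + 2 * D.R * s0 with hZ
  have hτ : ‖(τ : ℂ)‖ = 1 := by
    rcases hok.t with h | h <;> simp [h]
  -- the bound for the kernel
  have hζ : ∀ ε : ℝ, 0 ≤ ε → ∀ x x' y y' : ℝ, x ∈ Icc (-D.R) D.R → x' ∈ Icc (-D.R) D.R →
      y ∈ Icc (-D.R) D.R → y' ∈ Icc (-D.R) D.R →
      ‖D.ga ((k : ℂ) + ε * I) x x' + τ * D.be ((k : ℂ) + ε * I) y y'‖ ≤ Z := by
    intro ε hε x x' y y' hx hx' hy hy'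
    have e1 := b3.ga_w_le k ε x x' hk hε hx hx'
    have e2 := b3.be_low_le ((k : ℂ) + ε * I) y y' (by rw [re_up]; linarith)
    rw [re_up] at e2
    have e3 : |y - y'| ≤ 2 * D.R := by
      rw [abs_le]; constructor <;> linarith [hy.1, hy.2, hy'.1, hy'.2]
    calc ‖D.ga ((k : ℂ) + ε * I) x x' + τ * D.be ((k : ℂ) + ε * I) y y'‖
        ≤ ‖D.ga ((k : ℂ) + ε * I) x x'‖ + ‖(τ : ℂ)‖ * ‖D.be ((k : ℂ) + ε * I) y y'‖ := by
          rw [← norm_mul]; exact norm_add_le _ _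
      _ ≤ W + 1 * (2 * D.R * s0) := by
          rw [hτ]
          refine add_le_add e1 ?_
          refine mul_le_mul_of_nonneg_left ?_ zero_le_one
          exact e2.trans (mul_le_mul_of_nonneg_right e3 hs00)
      _ = Z := by rw [hZ]; ring
  have hZ0 : 0 ≤ Z := le_trans (norm_nonneg _) (hζ 0 le_rfl 0 0 0 0
    ⟨by linarith, hR.le⟩ ⟨by linarith, hR.le⟩ ⟨by linarith, hR.le⟩ ⟨by linarith, hR.le⟩)
  set M : ℝ := CK * (√Z + Z ^ 2) with hM
  have hM0 : 0 ≤ M := by rw [hM]; positivity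
  have hKK : ∀ ζ : ℂ, ‖ζ‖ ≤ Z → ‖KK ζ‖ ≤ M := by
    intro ζ h
    refine (hKb ζ).trans ?_
    rw [hM]
    refine mul_le_mul_of_nonneg_left ?_ hCK.le
    refine add_le_add (Real.sqrt_le_sqrt h) ?_
    exact pow_le_pow_left₀ (norm_nonneg _) h 2
  unfold LD.HH
  refine tendsto_integral_filter_of_dominated_convergence
    (fun z => (D.B * s0 * CQ * M) * D.wU k z.1.2) ?_ ?_ ?_ ?_
  · filter_upwards [self_mem_nhdsWithin] with ε hε
    exact (hI D m Q τ hok _ (Ad_up k ε D hε)).1.aestronglyMeasurable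
  · have hlt : ∀ᶠ ε : ℝ in 𝓝[>] 0, ε < 1 :=
      mem_nhdsWithin_of_mem_nhds (Iio_mem_nhds zero_lt_one)
    filter_upwards [self_mem_nhdsWithin, hlt] with ε hε hε1
    have hε0 : 0 < ε := hε
    filter_upwards [box D k hk] with z hz
    obtain ⟨z1, z2, z3, z4, z5⟩ := hz
    have f1 : ‖(D.φ z.1.2 z.2.2 : ℂ)‖ ≤ D.B := by
      rw [Complex.norm_real, Real.norm_eq_abs]; exact D.φb _ _
    have f2 : ‖(D.px ((k : ℂ) + ε * I) z.1.2)⁻¹‖ ≤ D.wU k z.1.2 := by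
      have := b1.pxi_w ((k : ℂ) + ε * I) z.1.2 (by rw [re_up]; exact z5)
      rwa [re_up] at this
    have f3 : ‖(D.py ((k : ℂ) + ε * I) z.2.2)⁻¹‖ ≤ s0 := by
      have := b1.pyi_low ((k : ℂ) + ε * I) z.2.2 (by rw [re_up]; exact hak)
      rwa [re_up] at this
    have f4 : ‖(m z.1.1 z.1.2 : ℂ)‖ ≤ 1 := by
      rw [Complex.norm_real, Real.norm_eq_abs]; exact hok.mb _ _
    have f5 : ‖Q ((k : ℂ) + ε * I) z.1.1 z.2.1‖ ≤ CQ := by
      refine hCQ _ _ _ (by rw [im_up]; exact hε0.le) (by rw [re_up]; linarith) ?_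
      refine (norm_add_le _ _).trans ?_
      rw [Complex.norm_real, Real.norm_eq_abs, norm_mul, Complex.norm_real, Complex.norm_I,
        Real.norm_eq_abs, abs_of_pos hε0]
      linarith
    have f6 := hKK _ (hζ ε hε0.le _ _ _ _ z1 z2 z3 z4)
    have w0 : 0 ≤ D.wU k z.1.2 := by unfold LD.wU; positivity
    unfold LD.HI
    rw [norm_mul, norm_mul, norm_mul, norm_mul, norm_mul]
    calc ‖(D.φ z.1.2 z.2.2 : ℂ)‖ * ‖(D.px ((k : ℂ) + ε * I) z.1.2)⁻¹‖ *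
          ‖(D.py ((k : ℂ) + ε * I) z.2.2)⁻¹‖ * ‖(m z.1.1 z.1.2 : ℂ)‖ *
          ‖Q ((k : ℂ) + ε * I) z.1.1 z.2.1‖ *
          ‖KK (D.ga ((k : ℂ) + ε * I) z.1.1 z.1.2 + τ * D.be ((k : ℂ) + ε * I) z.2.1 z.2.2)‖
        ≤ D.B * D.wU k z.1.2 * s0 * 1 * CQ * M := by gcongr
      _ = (D.B * s0 * CQ * M) * D.wU k z.1.2 := by ring
  · exact (wint D k hk).const_mul _
  · filter_upwards [box D k hk] with z hz
    obtain ⟨z1, z2, z3, z4, z5⟩ := hz
    have hAk : D.Ad (k : ℂ) := Or.inr ⟨by simp, by simpa using hk, by simpa using hak⟩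
    have px0 : D.px (k : ℂ) z.1.2 ≠ 0 := by
      intro h
      have := b1.px_sq (k : ℂ) z.1.2
      rw [h] at this
      have h2 : ((D.U z.1.2 : ℂ)) = (k : ℂ) := by
        have h3 : (D.U z.1.2 : ℂ) - k = 0 := by rw [← this]; ring
        exact sub_eq_zero.1 h3
      exact z5 (by exact_mod_cast h2)
    have py0 : D.py (k : ℂ) z.2.2 ≠ 0 := by
      intro h
      have := b1.py_low (k : ℂ) z.2.2 (by simpa using hak)
      rw [h] at this
      simp at this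
    have t1 : Tendsto (fun ε : ℝ => (D.px ((k : ℂ) + ε * I) z.1.2)⁻¹) (𝓝[>] 0)
        (𝓝 (D.px (k : ℂ) z.1.2)⁻¹) := (b1.px_lim k z.1.2).inv₀ px0
    have t2 : Tendsto (fun ε : ℝ => (D.py ((k : ℂ) + ε * I) z.2.2)⁻¹) (𝓝[>] 0)
        (𝓝 (D.py (k : ℂ) z.2.2)⁻¹) := (b1.py_lim k z.2.2).inv₀ py0
    have t3 := hok.q.lim k z.1.1 z.2.1 hak
    have t4 : Tendsto (fun ε : ℝ => D.ga ((k : ℂ) + ε * I) z.1.1 z.1.2 +
        τ * D.be ((k : ℂ) + ε * I) z.2.1 z.2.2) (𝓝[>] 0)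
        (𝓝 (D.ga (k : ℂ) z.1.1 z.1.2 + τ * D.be (k : ℂ) z.2.1 z.2.2)) :=
      (b3.ga_lim k _ _ hk z1 z2).add ((b3.be_lim k _ _ hak).const_mul _)
    have hc : ContinuousAt KK (D.ga (k : ℂ) z.1.1 z.1.2 + τ * D.be (k : ℂ) z.2.1 z.2.2) :=
      hKc _ (b2.mem_DD _ _ _ _ _ τ hAk z1 z2 hok.t)
    have t5 := hc.tendsto.comp t4
    unfold LD.HI
    exact ((((tendsto_const_nhds.mul t1).mul t2).mul tendsto_const_nhds).mul t3).mul t5

end Pool.Agent.LIO
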