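import Pool.Agent.LIO.Stmts

/-!
# Linearity of the functionals
-/

set_option autoImplicit false

namespace Pool.Agent.LIO

open Complex MeasureTheory Set Filter Topology

namespace LINAux

lemma sm {R : ℝ} {ψ : ℝ → ℝ → ℝ} (h : TF R ψ) (x : ℝ) : ContDiff ℝ (⊤ : ℕ∞) (fun t => ψ x t) :=
  h.smooth.comp (contDiff_prodMk_right x)

lemma dsm {R : ℝ} {ψ : ℝ → ℝ → ℝ} (h : TF R ψ) (x : ℝ) :
    Differentiable ℝ (fun t => ψ x t) := (sm h x).differentiable (by simp)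

lemma dsm' {R : ℝ} {ψ : ℝ → ℝ → ℝ} (h : TF R ψ) (x : ℝ) :
    Differentiable ℝ (fun t => dy ψ x t) := by
  have h1 : ContDiff ℝ (⊤ : ℕ∞) (deriv (fun t => ψ x t)) := by
    have := sm h x
    rw [contDiff_infty_iff_deriv] at this
    exact this.2
  exact h1.differentiable (by simp)

lemma dy_lin {R : ℝ} {ψ₁ ψ₂ : ℝ → ℝ → ℝ} (h1 : TF R ψ₁) (h2 : TF R ψ₂) (s t x y : ℝ) :
    dy (fun x y => s * ψ₁ x y + t * ψ₂ x y) x y = s * dy ψ₁ x y + t * dy ψ₂ x y := by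
  have e1 := ((dsm h1 x y).hasDerivAt.const_mul s).add ((dsm h2 x y).hasDerivAt.const_mul t)
  exact e1.deriv

lemma dy_lin2 {R : ℝ} {ψ₁ ψ₂ : ℝ → ℝ → ℝ} (h1 : TF R ψ₁) (h2 : TF R ψ₂) (s t x y : ℝ) :
    dy (dy (fun x y => s * ψ₁ x y + t * ψ₂ x y)) x y =
      s * dy (dy ψ₁) x y + t * dy (dy ψ₂) x y := by
  have e0 : dy (fun x y => s * ψ₁ x y + t * ψ₂ x y) =
      fun x y => s * dy ψ₁ x y + t * dy ψ₂ x y := by
    funext x y; exact dy_lin h1 h2 s t x y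
  rw [e0]
  have e1 := ((dsm' h1 x y).hasDerivAt.const_mul s).add ((dsm' h2 x y).hasDerivAt.const_mul t)
  exact e1.deriv

lemma QS_lin (D : LD) {ψ₁ ψ₂ : ℝ → ℝ → ℝ} (h1 : TF D.R ψ₁) (h2 : TF D.R ψ₂) (s t : ℝ) (h : ℂ)
    (x y : ℝ) : D.QS (fun x y => s * ψ₁ x y + t * ψ₂ x y) h x y =
      s * D.QS ψ₁ h x y + t * D.QS ψ₂ h x y := by
  unfold LD.QS
  rw [dy_lin h1 h2, dy_lin2 h1 h2]
  push_cast
  ring

lemma QP_lin (D : LD) {ψ₁ ψ₂ : ℝ → ℝ → ℝ} (h1 : TF D.R ψ₁) (h2 : TF D.R ψ₂) (s t : ℝ) (h : ℂ)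
    (x y : ℝ) : D.QP (fun x y => s * ψ₁ x y + t * ψ₂ x y) h x y =
      s * D.QP ψ₁ h x y + t * D.QP ψ₂ h x y := by
  unfold LD.QP
  rw [dy_lin h1 h2, dy_lin2 h1 h2]
  push_cast
  ring

lemma HH_lin (D : LD) (m : ℝ → ℝ → ℝ) (Q Q₁ Q₂ : ℂ → ℝ → ℝ → ℂ) (τ : ℝ) (h : ℂ) (s t : ℝ)
    (hQ : ∀ x y, Q h x y = s * Q₁ h x y + t * Q₂ h x y)
    (i1 : Integrable (D.HI m Q₁ τ h) D.mu) (i2 : Integrable (D.HI m Q₂ τ h) D.mu) :
    D.HH m Q τ h = s * D.HH m Q₁ τ h + t * D.HH m Q₂ τ h := by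
  unfold LD.HH
  rw [← integral_const_mul, ← integral_const_mul, ← integral_add (i1.const_mul _) (i2.const_mul _)]
  refine integral_congr_ae (Filter.Eventually.of_forall fun z => ?_)
  simp only [LD.HI, hQ]
  ring

lemma hok_one (D : LD) (Q : ℂ → ℝ → ℝ → ℂ) (hQ : D.QOK Q) (τ : ℝ) (ht : τ = 1 ∨ τ = -1) :
    HOK D (fun _ _ => 1) Q τ := ⟨measurable_const, fun _ _ => by simp, hQ, ht⟩

lemma hok_sg (D : LD) (Q : ℂ → ℝ → ℝ → ℂ) (hQ : D.QOK Q) (τ : ℝ) (ht : τ = 1 ∨ τ = -1) :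
    HOK D sg Q τ := by
  refine ⟨?_, fun x x' => ?_, hQ, ht⟩
  · unfold sg
    exact Measurable.ite (measurableSet_lt measurable_fst measurable_snd) measurable_const
      measurable_const
  · unfold sg
    split_ifs <;> simp

end LINAux

open LINAux in
theorem lin (hQ : Stmt_QOK) (hI : Stmt_INT) : Stmt_LIN := by
  intro D ψ₁ ψ₂ h1 h2 s t h hh
  have had : D.Ad h := Or.inl hh
  obtain ⟨q1S, q1P⟩ := hQ D ψ₁ h1
  obtain ⟨q2S, q2P⟩ := hQ D ψ₂ h2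
  have ts : ∀ τ : ℝ, (τ = 1 ∨ τ = -1) →
      D.HH (fun _ _ => 1) (D.QS (fun x y => s * ψ₁ x y + t * ψ₂ x y)) τ h =
      s * D.HH (fun _ _ => 1) (D.QS ψ₁) τ h + t * D.HH (fun _ _ => 1) (D.QS ψ₂) τ h := by
    intro τ hτ
    exact HH_lin D _ _ _ _ τ h s t (fun x y => QS_lin D h1 h2 s t h x y)
      (hI D _ _ τ (hok_one D _ q1S τ hτ) h had).1 (hI D _ _ τ (hok_one D _ q2S τ hτ) h had).1
  have tp : ∀ τ : ℝ, (τ = 1 ∨ τ = -1) →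
      D.HH sg (D.QP (fun x y => s * ψ₁ x y + t * ψ₂ x y)) τ h =
      s * D.HH sg (D.QP ψ₁) τ h + t * D.HH sg (D.QP ψ₂) τ h := by
    intro τ hτ
    exact HH_lin D _ _ _ _ τ h s t (fun x y => QP_lin D h1 h2 s t h x y)
      (hI D _ _ τ (hok_sg D _ q1P τ hτ) h had).1 (hI D _ _ τ (hok_sg D _ q2P τ hτ) h had).1
  constructor
  · unfold LD.FS
    rw [ts 1 (Or.inl rfl), ts (-1) (Or.inr rfl)]
    ring
  · unfold LD.FP
    rw [tp 1 (Or.inl rfl), tp (-1) (Or.inr rfl)]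
    ring

end Pool.Agent.LIO
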