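import Pool.Agent.LIO.Geo

/-!
# Liouville metrics: the data from the integrals along the lines
-/

set_option autoImplicit false

namespace Pool.Agent.LIO

open Complex MeasureTheory Set Filter Topology

namespace LINEAux

/-- Substitution along a bijective flow. -/
theorem subst {X A p : ℝ → ℝ} (hX : ∀ s, HasDerivAt X (p (X s)) s) (hp : ∀ x, 0 < p x)
    (h1 : ∀ x, X (A x) = x) (h2 : ∀ s, A (X s) = s) (g : ℝ → ℂ) :
    ∫ x, g x = ∫ s, (p (X s) : ℂ) * g (X s) := by
  have h3 := integral_image_eq_integral_abs_deriv_smul (s := univ) (f := X)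
    (f' := fun s => p (X s)) MeasurableSet.univ (fun x _ => (hX x).hasDerivWithinAt)
    (fun a _ b _ h => by rw [← h2 a, h, h2 b]) g
  have h4 : range X = univ := eq_univ_of_forall fun x => ⟨A x, h1 x⟩
  rw [image_univ, h4, Measure.restrict_univ] at h3
  rw [h3]
  refine integral_congr_ae (Eventually.of_forall fun s => ?_)
  change |p (X s)| • g (X s) = (p (X s) : ℂ) * g (X s)
  rw [abs_of_pos (hp _), Complex.real_smul]

/-- Bounded measurable functions with bounded support are integrable. -/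
theorem integrable_box {F : ℝ × ℝ → ℂ} (hF : Measurable F) {C L : ℝ} (hC : ∀ z, ‖F z‖ ≤ C)
    (hL : ∀ z : ℝ × ℝ, F z ≠ 0 → |z.1| ≤ L ∧ |z.2| ≤ L) :
    Integrable F (volume.prod volume) := by
  have h1 : Function.support F ⊆ Icc (-L) L ×ˢ Icc (-L) L := by
    intro z hz
    obtain ⟨h2, h3⟩ := hL z hz
    exact ⟨abs_le.1 h2, abs_le.1 h3⟩
  rw [← integrableOn_iff_integrable_of_support_subset h1]
  refine Measure.integrableOn_of_bounded (M := C) ?_ hF.aestronglyMeasurable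
    (Eventually.of_forall fun z => hC z)
  rw [Measure.prod_prod]
  exact (ENNReal.mul_lt_top measure_Icc_lt_top measure_Icc_lt_top).ne

theorem norm_le_box {φ : ℝ → ℝ → ℝ} {B : ℝ} (hφ : ∀ x y, |φ x y| ≤ B) (x y : ℝ) (a b : ℝ) :
    ‖(φ x y : ℂ) * cexp (-(I * a)) * cexp (I * b)‖ ≤ B := by
  rw [norm_mul, norm_mul, Complex.norm_real, Real.norm_eq_abs,
    show -(I * (a : ℂ)) = ((-a : ℝ) : ℂ) * I by push_cast; ring,
    show (I * (b : ℂ)) = (b : ℂ) * I by ring, Complex.norm_exp_ofReal_mul_I,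
    Complex.norm_exp_ofReal_mul_I, mul_one, mul_one]
  exact hφ x y

theorem subst_line (σ : ℝ) (hσ : σ = 1 ∨ σ = -1) (τ : ℝ) (g : ℝ → ℂ) :
    ∫ c, g (σ * (τ - c)) = ∫ s, g s := by
  rcases hσ with rfl | rfl
  · simp only [one_mul]
    exact integral_sub_left_eq_self g volume τ
  · have : (fun c : ℝ => g (-1 * (τ - c))) = fun c => g (c - τ) := by
      funext c
      congr 1
      ring
    rw [this]
    exact integral_sub_right_eq_self g τ

end LINEAux

open LINEAux in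
theorem line (hB1 : Stmt_BAS1) : Stmt_LINE := by
  intro D h X Y hh hFl σ hσ hz ω
  have hb := hB1 D
  have hh1 := abs_lt.1 hh
  -- the real functions
  obtain ⟨p, hp⟩ : ∃ p : ℝ → ℝ, p = fun x => √(D.U x - h) := ⟨_, rfl⟩
  obtain ⟨q, hq⟩ : ∃ q : ℝ → ℝ, q = fun y => √(D.V y + h) := ⟨_, rfl⟩
  have hU : ∀ x, 0 < D.a - h ∧ D.a - h ≤ D.U x - h := fun x =>
    ⟨by linarith [hh1.2], by linarith [D.Ua x]⟩
  have hV : ∀ y, 0 < D.a + h ∧ D.a + h ≤ D.V y + h := fun y =>
    ⟨by linarith [hh1.1], by linarith [D.Va y]⟩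
  have hp0 : ∀ x, 0 < p x := fun x => by
    rw [hp]
    exact Real.sqrt_pos.2 ((hU x).1.trans_le (hU x).2)
  have hq0 : ∀ y, 0 < q y := fun y => by
    rw [hq]
    exact Real.sqrt_pos.2 ((hV y).1.trans_le (hV y).2)
  have hpx : ∀ x, D.px h x = (p x : ℂ) := fun x => by
    rw [hb.px_real h x (by linarith [(hU x).1, (hU x).2]), hp]
  have hqy : ∀ y, D.py h y = (q y : ℂ) := fun y => by
    rw [hb.py_real h y (by linarith [hh1.1]), hq]
  obtain ⟨A, hA⟩ : ∃ A : ℝ → ℝ, A = fun x => ∫ s in (-D.R)..x, (p s)⁻¹ := ⟨_, rfl⟩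
  obtain ⟨Q, hQ⟩ : ∃ Q : ℝ → ℝ, Q = fun y => ∫ s in (-D.R)..y, (q s)⁻¹ := ⟨_, rfl⟩
  have hAA : ∀ x, D.AA h x = (A x : ℂ) := fun x => by
    rw [hA]
    unfold LD.AA
    rw [← intervalIntegral.integral_ofReal]
    refine intervalIntegral.integral_congr fun s _ => ?_
    change (D.px h s)⁻¹ = (((p s)⁻¹ : ℝ) : ℂ)
    rw [hpx, Complex.ofReal_inv]
  have hBB : ∀ y, D.BB h y = (Q y : ℂ) := fun y => by
    rw [hQ]
    unfold LD.BB
    rw [← intervalIntegral.integral_ofReal]
    refine intervalIntegral.integral_congr fun s _ => ?_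
    change (D.py h s)⁻¹ = (((q s)⁻¹ : ℝ) : ℂ)
    rw [hqy, Complex.ofReal_inv]
  have hX : ∀ s, HasDerivAt X (p (X s)) s := fun s => by
    rw [hp]
    exact hFl.hX s
  have hY : ∀ s, HasDerivAt Y (q (Y s)) s := fun s => by
    rw [hq]
    exact hFl.hY s
  have hXA : ∀ x, X (A x) = x := fun x => by
    rw [hA, hp]
    exact hFl.X_inv x
  have hAX : ∀ s, A (X s) = s := fun s => by
    rw [hA, hp]
    exact hFl.inv_X s
  have hYQ : ∀ y, Y (Q y) = y := fun y => by
    rw [hQ, hq]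
    exact hFl.Y_inv y
  have hQY : ∀ s, Q (Y s) = s := fun s => by
    rw [hQ, hq]
    exact hFl.inv_Y s
  -- bounds for the phases
  obtain ⟨L, hL⟩ : ∃ L : ℝ, L = max ((√(D.a - h))⁻¹ * (2 * D.R)) ((√(D.a + h))⁻¹ * (2 * D.R)) :=
    ⟨_, rfl⟩
  have hR := D.rR
  have hr := D.r0
  have hAL : ∀ x, |x| < D.r → |A x| ≤ L := by
    intro x hx
    rw [hA, hL]
    refine le_trans ?_ (le_max_left _ _)
    have h1 := intervalIntegral.norm_integral_le_of_norm_le_const (a := -D.R) (b := x)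
      (f := fun s => (p s)⁻¹) (C := (√(D.a - h))⁻¹) (fun s _ => by
        rw [Real.norm_eq_abs, abs_of_pos (inv_pos.2 (hp0 s)), hp]
        exact inv_anti₀ (Real.sqrt_pos.2 (hU s).1) (Real.sqrt_le_sqrt (hU s).2))
    rw [Real.norm_eq_abs] at h1
    refine h1.trans (mul_le_mul_of_nonneg_left ?_ (inv_nonneg.2 (Real.sqrt_nonneg _)))
    rw [abs_lt] at hx
    rw [abs_le]
    constructor <;> linarith
  have hQL : ∀ y, |y| < D.r → |Q y| ≤ L := by
    intro x hx
    rw [hQ, hL]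
    refine le_trans ?_ (le_max_right _ _)
    have h1 := intervalIntegral.norm_integral_le_of_norm_le_const (a := -D.R) (b := x)
      (f := fun s => (q s)⁻¹) (C := (√(D.a + h))⁻¹) (fun s _ => by
        rw [Real.norm_eq_abs, abs_of_pos (inv_pos.2 (hq0 s)), hq]
        exact inv_anti₀ (Real.sqrt_pos.2 (hV s).1) (Real.sqrt_le_sqrt (hV s).2))
    rw [Real.norm_eq_abs] at h1
    refine h1.trans (mul_le_mul_of_nonneg_left ?_ (inv_nonneg.2 (Real.sqrt_nonneg _)))
    rw [abs_lt] at hx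
    rw [abs_le]
    constructor <;> linarith
  have hsup : ∀ s τ, D.φ (X s) (Y τ) ≠ 0 → |s| ≤ L ∧ |τ| ≤ L := by
    intro s τ h1
    constructor
    · rw [← hAX s]
      refine hAL _ ?_
      by_contra h2
      exact h1 (D.φs _ _ (Or.inl (not_lt.1 h2)))
    · rw [← hQY τ]
      refine hQL _ ?_
      by_contra h2
      exact h1 (D.φs _ _ (Or.inr (not_lt.1 h2)))
  have hXc : Continuous X := continuous_iff_continuousAt.2 fun s => (hX s).continuousAt
  have hYc : Continuous Y := continuous_iff_continuousAt.2 fun s => (hY s).continuousAt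
  -- the slice transform
  have hPh : ∀ x, D.Ph h x ω = ∫ y, (D.φ x y : ℂ) * cexp (-(I * ω * Q y)) * ((q y : ℂ))⁻¹ := by
    intro x
    unfold LD.Ph
    rw [intervalIntegral.integral_of_le (by linarith)]
    rw [setIntegral_eq_integral_of_forall_compl_eq_zero]
    · refine integral_congr_ae (Eventually.of_forall fun y => ?_)
      change (D.φ x y : ℂ) * cexp (-(I * ω * D.BB h y)) * (D.py h y)⁻¹ = _
      rw [hBB, hqy]
    · intro y hy
      have h1 : D.r ≤ |y| := by
        rw [mem_Ioc, not_and_or, not_lt, not_le] at hy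
        rcases hy with hy | hy
        · rw [le_abs]
          right
          linarith
        · rw [le_abs]
          left
          linarith
      rw [D.φs x y (Or.inr h1)]
      simp
  have hPh2 : ∀ x, D.Ph h x ω = ∫ τ, (D.φ x (Y τ) : ℂ) * cexp (-(I * (ω * τ : ℝ))) := by
    intro x
    rw [hPh, subst hY hq0 hYQ hQY]
    refine integral_congr_ae (Eventually.of_forall fun τ => ?_)
    change (q (Y τ) : ℂ) * ((D.φ x (Y τ) : ℂ) * cexp (-(I * ω * Q (Y τ))) * ((q (Y τ) : ℂ))⁻¹) = _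
    have h1 : (q (Y τ) : ℂ) ≠ 0 := by exact_mod_cast (hq0 _).ne'
    rw [hQY]
    have h2 : (q (Y τ) : ℂ) * ((D.φ x (Y τ) : ℂ) * cexp (-(I * ω * τ)) * ((q (Y τ) : ℂ))⁻¹) =
        (D.φ x (Y τ) : ℂ) * cexp (-(I * ω * τ)) := by
      field_simp
    rw [h2]
    congr 3
    push_cast
    ring
  have hEE : D.EE σ h ω = ∫ s, ∫ τ, (D.φ (X s) (Y τ) : ℂ) * cexp (-(I * (ω * τ : ℝ))) *
      cexp (I * (ω * σ * s : ℝ)) := by
    have h1 : D.EE σ h ω = ∫ x, D.Ph h x ω * cexp (I * ω * σ * A x) * ((p x : ℂ))⁻¹ := by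
      unfold LD.EE
      rw [intervalIntegral.integral_of_le (by linarith)]
      rw [setIntegral_eq_integral_of_forall_compl_eq_zero]
      · refine integral_congr_ae (Eventually.of_forall fun x => ?_)
        change D.Ph h x ω * cexp (I * ω * σ * D.AA h x) * (D.px h x)⁻¹ = _
        rw [hAA, hpx]
      · intro x hx
        have h1 : D.r ≤ |x| := by
          rw [mem_Ioc, not_and_or, not_lt, not_le] at hx
          rcases hx with hx | hx
          · rw [le_abs]
            right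
            linarith
          · rw [le_abs]
            left
            linarith
        have h2 : D.Ph h x ω = 0 := by
          rw [hPh]
          refine integral_eq_zero_of_ae (Eventually.of_forall fun y => ?_)
          change (D.φ x y : ℂ) * cexp (-(I * ω * Q y)) * ((q y : ℂ))⁻¹ = 0
          rw [D.φs x y (Or.inl h1)]
          simp
        rw [h2]
        simp
    rw [h1, subst hX hp0 hXA hAX]
    refine integral_congr_ae (Eventually.of_forall fun s => ?_)
    change (p (X s) : ℂ) * (D.Ph h (X s) ω * cexp (I * ω * σ * A (X s)) * ((p (X s) : ℂ))⁻¹) =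
      ∫ τ, (D.φ (X s) (Y τ) : ℂ) * cexp (-(I * (ω * τ : ℝ))) * cexp (I * (ω * σ * s : ℝ))
    have h2 : (p (X s) : ℂ) ≠ 0 := by exact_mod_cast (hp0 _).ne'
    rw [hAX, integral_mul_const, ← hPh2]
    have h3 : (p (X s) : ℂ) * (D.Ph h (X s) ω * cexp (I * ω * σ * s) * ((p (X s) : ℂ))⁻¹) =
        D.Ph h (X s) ω * cexp (I * ω * σ * s) := by
      field_simp
    rw [h3]
    congr 2
    push_cast
    ring
  rw [hEE]
  -- measurability
  have hm : Measurable (fun z : ℝ × ℝ => (D.φ (X z.1) (Y z.2) : ℂ)) := by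
    have h1 : Measurable (fun z : ℝ × ℝ => (X z.1, Y z.2)) :=
      ((hXc.comp continuous_fst).prodMk (hYc.comp continuous_snd)).measurable
    exact Complex.measurable_ofReal.comp (D.φm.comp h1)
  have hm2 : Measurable (fun z : ℝ × ℝ => (D.φ (X z.1) (Y z.2) : ℂ) *
      cexp (-(I * (ω * z.2 : ℝ))) * cexp (I * (ω * σ * z.1 : ℝ))) := by
    refine (hm.mul ?_).mul ?_
    · exact (Continuous.measurable (by fun_prop))
    · exact (Continuous.measurable (by fun_prop))
  have hi1 : Integrable (fun z : ℝ × ℝ => (D.φ (X z.1) (Y z.2) : ℂ) *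
      cexp (-(I * (ω * z.2 : ℝ))) * cexp (I * (ω * σ * z.1 : ℝ))) (volume.prod volume) := by
    refine integrable_box hm2 (C := D.B) (L := L) (fun z => ?_) fun z hz => ?_
    · exact norm_le_box D.φb _ _ _ _
    · refine hsup z.1 z.2 fun h1 => hz ?_
      change (D.φ (X z.1) (Y z.2) : ℂ) * cexp (-(I * (ω * z.2 : ℝ))) *
        cexp (I * (ω * σ * z.1 : ℝ)) = 0
      rw [h1]
      simp
  have hi2 : Integrable (fun z : ℝ × ℝ => (D.φ (X (σ * (z.1 - z.2))) (Y z.1) : ℂ) *
      cexp (-(I * (ω * z.1 : ℝ))) * cexp (I * (ω * σ * (σ * (z.1 - z.2)) : ℝ)))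
      (volume.prod volume) := by
    refine integrable_box (C := D.B) (L := L + L) ?_ (fun z => ?_) fun z hz => ?_
    · have h1 : Measurable (fun z : ℝ × ℝ => (σ * (z.1 - z.2), z.1)) :=
        Continuous.measurable (by fun_prop)
      exact hm2.comp h1
    · exact norm_le_box D.φb _ _ _ _
    · obtain ⟨h1, h2⟩ := hsup (σ * (z.1 - z.2)) z.1 (fun h1 => hz (by
        change (D.φ (X (σ * (z.1 - z.2))) (Y z.1) : ℂ) * cexp (-(I * (ω * z.1 : ℝ))) *
          cexp (I * (ω * σ * (σ * (z.1 - z.2)) : ℝ)) = 0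
        rw [h1]
        simp))
      have h3 : |z.1 - z.2| ≤ L := by
        rcases hσ with rfl | rfl
        · rw [one_mul] at h1
          exact h1
        · rw [neg_one_mul, abs_neg] at h1
          exact h1
      rw [abs_le] at h2 h3
      refine ⟨abs_le.2 ⟨?_, ?_⟩, abs_le.2 ⟨?_, ?_⟩⟩ <;> linarith [h2.1, h2.2, h3.1, h3.2]
  rw [integral_integral_swap hi1]
  have h1 : ∀ τ : ℝ, ∫ s, (D.φ (X s) (Y τ) : ℂ) * cexp (-(I * (ω * τ : ℝ))) *
      cexp (I * (ω * σ * s : ℝ)) = ∫ c, (D.φ (X (σ * (τ - c))) (Y τ) : ℂ) *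
        cexp (-(I * (ω * τ : ℝ))) * cexp (I * (ω * σ * (σ * (τ - c)) : ℝ)) := fun τ =>
    (subst_line σ hσ τ (fun s => (D.φ (X s) (Y τ) : ℂ) * cexp (-(I * (ω * τ : ℝ))) *
      cexp (I * (ω * σ * s : ℝ)))).symm
  rw [integral_congr_ae (Eventually.of_forall h1), integral_integral_swap hi2]
  refine integral_eq_zero_of_ae ?_
  filter_upwards [hz] with c hc
  have h2 : ∀ τ : ℝ, (D.φ (X (σ * (τ - c))) (Y τ) : ℂ) * cexp (-(I * (ω * τ : ℝ))) *
      cexp (I * (ω * σ * (σ * (τ - c)) : ℝ)) =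
      (D.φ (X (σ * (τ - c))) (Y τ) : ℂ) * cexp (-(I * (ω * c : ℝ))) := by
    intro τ
    rw [mul_assoc, ← Complex.exp_add]
    congr 2
    have h3 : σ * σ = 1 := by rcases hσ with rfl | rfl <;> norm_num
    have h4 : (ω * σ * (σ * (τ - c)) : ℝ) = ω * (τ - c) := by
      rw [show ω * σ * (σ * (τ - c)) = ω * (σ * σ) * (τ - c) by ring, h3, mul_one]
    rw [h4]
    push_cast
    ring
  change ∫ τ, (D.φ (X (σ * (τ - c))) (Y τ) : ℂ) * cexp (-(I * (ω * τ : ℝ))) *
      cexp (I * (ω * σ * (σ * (τ - c)) : ℝ)) = 0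
  rw [integral_congr_ae (Eventually.of_forall h2), integral_mul_const,
    show (∫ τ, (D.φ (X (σ * (τ - c))) (Y τ) : ℂ)) = ((∫ τ, D.φ (X (σ * (τ - c))) (Y τ) : ℝ) : ℂ) from
      integral_complex_ofReal, hc]
  simp

end Pool.Agent.LIO
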