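import Pool.Agent.LIO.Geo

/-!
# Modification of a smooth function away from a compact set
-/

set_option autoImplicit false

namespace Pool.Agent.LIO

open MeasureTheory Set Filter Topology
open scoped Manifold ContDiff

theorem mod_ : Stmt_MOD := by
  intro U K c hU hK hc
  rcases K.eq_empty_or_nonempty with rfl | hne
  · exact ⟨fun _ => 1, 1, 1, one_pos, contDiff_const, fun x => ⟨le_rfl, le_rfl⟩,
      fun x hx => hx.elim⟩
  obtain ⟨x₀, hx₀, hmin⟩ := hK.exists_isMinOn hne hU.continuous.continuousOn
  have hm : 0 < U x₀ - c := sub_pos.2 (hc x₀ hx₀)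
  set a : ℝ := (U x₀ - c) / 2 with ha
  have ha0 : 0 < a := by rw [ha]; linarith
  have hKa : ∀ x ∈ K, c + a < U x := by
    intro x hx
    have : U x₀ ≤ U x := hmin hx
    rw [ha]
    linarith
  set O : Set ℝ := {x | c + a < U x} ∩ Metric.thickening 1 K with hO
  have hOo : IsOpen O := (isOpen_lt continuous_const hU.continuous).inter Metric.isOpen_thickening
  have hKO : K ⊆ O := fun x hx => ⟨hKa x hx, Metric.self_subset_thickening one_pos K hx⟩
  obtain ⟨ε, hε, hεO⟩ := hK.exists_cthickening_subset_open hOo hKO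
  obtain ⟨χ, h0, h1, h01⟩ := exists_contMDiffMap_zero_one_of_isClosed (n := (⊤ : ℕ∞)) 𝓘(ℝ, ℝ)
    hOo.isClosed_compl (Metric.isClosed_cthickening (δ := ε) (E := K))
    (disjoint_left.2 fun x hx hx' => hx (hεO hx'))
  have hχ : ContDiff ℝ (⊤ : ℕ∞) (fun x => χ x) := χ.contMDiff.contDiff
  obtain ⟨B₀, hB₀⟩ : ∃ B₀, ∀ x ∈ Metric.cthickening 1 K, U x - c ≤ B₀ := by
    obtain ⟨B₀, h⟩ := (hK.cthickening (r := 1)).exists_bound_of_continuousOn
      (f := fun x => U x - c) (hU.continuous.sub continuous_const).continuousOn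
    exact ⟨B₀, fun x hx => (le_abs_self _).trans (h x hx)⟩
  refine ⟨fun x => χ x * (U x - c) + (1 - χ x) * a, a, max B₀ a, ha0,
    (hχ.mul (hU.sub contDiff_const)).add ((contDiff_const.sub hχ).mul contDiff_const), ?_, ?_⟩
  · intro x
    have hx01 := h01 x
    by_cases hx : x ∈ O
    · have hx1 : c + a < U x := hx.1
      have hx2 : U x - c ≤ B₀ := hB₀ x (Metric.thickening_subset_cthickening 1 K hx.2)
      have e1 : 0 ≤ χ x * (U x - c - a) := mul_nonneg hx01.1 (by linarith)
      have e2 : 0 ≤ χ x * (max B₀ a - (U x - c)) :=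
        mul_nonneg hx01.1 (by linarith [le_max_left B₀ a])
      have e3 : 0 ≤ (1 - χ x) * (max B₀ a - a) :=
        mul_nonneg (by linarith [hx01.2]) (by linarith [le_max_right B₀ a])
      constructor
      · nlinarith
      · nlinarith
    · have : χ x = 0 := h0 hx
      constructor
      · simp [this]
      · simp [this]
  · intro x hx
    have hx' : Metric.cthickening ε K ∈ 𝓝 x :=
      mem_of_superset (Metric.isOpen_thickening.mem_nhds (Metric.self_subset_thickening hε K hx))
        (Metric.thickening_subset_cthickening ε K)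
    filter_upwards [hx'] with t ht
    have : χ t = 1 := h1 ht
    rw [this]
    ring

end Pool.Agent.LIO
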