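import Pool.Agent.LIO.Geo

set_option autoImplicit false

open MeasureTheory Set Filter Topology

namespace Pool.Agent.LIO

namespace NULAux

theorem prim_diff {g : ℝ → ℝ} (hg : Continuous g) (a : ℝ) :
    Differentiable ℝ (fun x => ∫ s in a..x, g s) := fun x =>
  (intervalIntegral.integral_hasDerivAt_right (hg.intervalIntegrable _ _)
    (hg.stronglyMeasurableAtFilter _ _) hg.continuousAt).differentiableAt

end NULAux

theorem nul : Stmt_NUL := by
  intro D h X Y hh hFl σ hσ N hNm hN
  have h1 := abs_lt.1 hh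
  have hσ2 : σ * σ = 1 := by rcases hσ with rfl | rfl <;> norm_num
  have cA : Continuous (fun s => (√(D.U s - h))⁻¹) := by
    refine Continuous.inv₀ ((D.Us.continuous.sub continuous_const).sqrt) (fun s => ?_)
    have := D.Ua s
    exact (Real.sqrt_pos.2 (by linarith)).ne'
  have cB : Continuous (fun s => (√(D.V s + h))⁻¹) := by
    refine Continuous.inv₀ ((D.Vs.continuous.add continuous_const).sqrt) (fun s => ?_)
    have := D.Va s
    exact (Real.sqrt_pos.2 (by linarith)).ne'
  set A : ℝ → ℝ := fun x => ∫ s in (-D.R)..x, (√(D.U s - h))⁻¹ with hA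
  set B : ℝ → ℝ := fun x => ∫ s in (-D.R)..x, (√(D.V s + h))⁻¹ with hB
  have dA : Differentiable ℝ A := NULAux.prim_diff cA _
  have dB : Differentiable ℝ B := NULAux.prim_diff cB _
  set g : ℝ × ℝ → ℝ × ℝ := fun p => (B p.2 - σ * A p.1, B p.2) with hg
  have dg : DifferentiableOn ℝ g N := by
    apply Differentiable.differentiableOn
    exact ((dB.comp differentiable_snd).sub ((dA.comp differentiable_fst).const_mul σ)).prodMk
      (dB.comp differentiable_snd)
  have hnull : volume (g '' N) = 0 :=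
    addHaar_image_eq_zero_of_differentiableOn_of_addHaar_eq_zero volume dg hN
  have hsub : {p : ℝ × ℝ | ¬ (X (σ * (p.2 - p.1)), Y p.2) ∉ N} ⊆ g '' N := by
    intro p hp
    simp only [mem_setOf_eq, not_not] at hp
    refine ⟨_, hp, ?_⟩
    have e1 : A (X (σ * (p.2 - p.1))) = σ * (p.2 - p.1) := hFl.inv_X _
    have e2 : B (Y p.2) = p.2 := hFl.inv_Y _
    simp only [hg, e1, e2]
    ext
    · show p.2 - σ * (σ * (p.2 - p.1)) = p.1
      rw [← mul_assoc, hσ2]
      ring
    · rfl
  have hae : ∀ᵐ p : ℝ × ℝ, (X (σ * (p.2 - p.1)), Y p.2) ∉ N :=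
    measure_mono_null hsub hnull
  exact Measure.ae_ae_of_ae_prod hae

end Pool.Agent.LIO
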