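import Pool.Agent.LIO.Stmts

/-!
# Module ORT: a function which is orthogonal to all test functions vanishes
-/

set_option autoImplicit false

namespace Pool.Agent.LIO

open Complex MeasureTheory Set Filter Topology

namespace ORTAux

/-- A smooth function with compact support in the open box is a test function. -/
theorem tf_of_tsupport {R : ℝ} {g : ℝ × ℝ → ℝ} (hg : ContDiff ℝ (⊤ : ℕ∞) g)
    (hc : HasCompactSupport g) (hs : tsupport g ⊆ Ioo (-R) R ×ˢ Ioo (-R) R) :
    TF R (fun x y => g (x, y)) := by
  refine ⟨hg, ?_⟩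
  rcases (tsupport g).eq_empty_or_nonempty with he | hne
  · refine ⟨R - 1, by linarith, fun x y _ => ?_⟩
    apply image_eq_zero_of_notMem_tsupport
    rw [he]
    exact notMem_empty _
  · obtain ⟨z₀, hz₀, hmax⟩ := IsCompact.exists_isMaxOn (f := fun z : ℝ × ℝ => max |z.1| |z.2|) hc hne
      (by fun_prop)
    have h0 := hs hz₀
    have hM : max |z₀.1| |z₀.2| < R := by
      rw [max_lt_iff, abs_lt, abs_lt]
      exact ⟨⟨h0.1.1, h0.1.2⟩, ⟨h0.2.1, h0.2.2⟩⟩
    refine ⟨(max |z₀.1| |z₀.2| + R) / 2, by linarith, fun x y hxy => ?_⟩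
    apply image_eq_zero_of_notMem_tsupport
    intro hmem
    have h1 : max |x| |y| ≤ max |z₀.1| |z₀.2| := hmax hmem
    have h2 := (le_max_left |x| |y|).trans h1
    have h3 := (le_max_right |x| |y|).trans h1
    rcases hxy with h | h <;> linarith

end ORTAux

/-- **ORT.** -/
theorem ort : Stmt_ORT := by
  intro D h
  have hmeas := D.φm
  have hloc : LocallyIntegrable (fun z : ℝ × ℝ => D.φ z.1 z.2) := by
    have h1 : LocallyIntegrable (fun _ : ℝ × ℝ => D.B) := locallyIntegrable_const _
    refine h1.mono hmeas.aestronglyMeasurable (ae_of_all _ fun z => ?_)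
    rw [Real.norm_eq_abs, Real.norm_eq_abs]
    exact (D.φb z.1 z.2).trans (le_abs_self _)
  have hR : 0 < D.R := D.r0.trans D.rR
  have hU : IsOpen (Ioo (-D.R) D.R ×ˢ Ioo (-D.R) D.R : Set (ℝ × ℝ)) := isOpen_Ioo.prod isOpen_Ioo
  have key := hU.ae_eq_zero_of_integral_contDiff_smul_eq_zero (μ := volume)
    (f := fun z : ℝ × ℝ => D.φ z.1 z.2) (hloc.locallyIntegrableOn _) (by
      intro g hg hc hs
      have hT := ORTAux.tf_of_tsupport hg hc hs
      have hz : ∀ x y, x ∉ Ioo (-D.R) D.R ∨ y ∉ Ioo (-D.R) D.R → g (x, y) = 0 := by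
        intro x y hxy
        apply image_eq_zero_of_notMem_tsupport
        intro hmem
        have := hs hmem
        rcases hxy with h | h
        · exact h this.1
        · exact h this.2
      have hint : Integrable (fun z : ℝ × ℝ => g z • D.φ z.1 z.2) := by
        have h1 : Integrable g := hg.continuous.integrable_of_hasCompactSupport hc
        refine (h1.norm.mul_const D.B).mono
          (hg.continuous.measurable.mul hmeas).aestronglyMeasurable (ae_of_all _ fun z => ?_)
        have hB : 0 ≤ D.B := (abs_nonneg _).trans (D.φb z.1 z.2)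
        rw [smul_eq_mul, norm_mul, norm_mul, norm_norm, Real.norm_eq_abs (D.φ _ _),
          Real.norm_eq_abs D.B, abs_of_nonneg hB]
        exact mul_le_mul_of_nonneg_left (D.φb z.1 z.2) (norm_nonneg _)
      rw [Measure.volume_eq_prod] at hint ⊢
      rw [integral_prod _ hint, ← h _ hT]
      rw [intervalIntegral.integral_eq_integral_of_support_subset]
      · refine integral_congr_ae (ae_of_all _ fun x => ?_)
        dsimp only
        rw [intervalIntegral.integral_eq_integral_of_support_subset]
        · refine integral_congr_ae (ae_of_all _ fun y => ?_)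
          dsimp only
          rw [smul_eq_mul, mul_comm]
        · intro y hy
          by_contra hn
          apply hy
          dsimp only
          rw [hz x y (Or.inr fun hm => hn ⟨hm.1, hm.2.le⟩), mul_zero]
      · intro x hx
        by_contra hn
        apply hx
        dsimp only
        have : ∀ y, D.φ x y * g (x, y) = 0 := fun y => by
          rw [hz x y (Or.inl fun hm => hn ⟨hm.1, hm.2.le⟩), mul_zero]
        simp only [this, intervalIntegral.integral_zero])
  filter_upwards [key] with z hz
  by_cases hm : z ∈ (Ioo (-D.R) D.R ×ˢ Ioo (-D.R) D.R : Set (ℝ × ℝ))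
  · exact hz hm
  · apply D.φs
    by_contra hc
    push Not at hc
    apply hm
    have h1 := abs_lt.1 (hc.1.trans D.rR)
    have h2 := abs_lt.1 (hc.2.trans D.rR)
    exact ⟨⟨h1.1, h1.2⟩, ⟨h2.1, h2.2⟩⟩

end Pool.Agent.LIO
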