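import Pool.Agent.LIO.Stmts

/-!
# Liouville metrics, module PRIM

A test function is the `x`-derivative of a test function, up to a test function which is supported
in `x < -r`.
-/

set_option autoImplicit false

namespace Pool.Agent.LIO

open Complex MeasureTheory Set Filter Topology

namespace PRIMAux

/-- the Heaviside function -/
noncomputable def H : ℝ → ℝ := (Ici (0 : ℝ)).indicator (fun _ => 1)

lemma H_loc : LocallyIntegrable H volume :=
  (locallyIntegrable_const (1 : ℝ)).indicator measurableSet_Ici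

/-- primitives of smooth functions with compact support in `x` -/
lemma prim_smooth (f : ℝ → ℝ → ℝ) (R : ℝ)
    (hf : ContDiff ℝ (⊤ : ℕ∞) (fun z : ℝ × ℝ => f z.1 z.2))
    (hs : ∀ x y, R ≤ |x| → f x y = 0) :
    ContDiff ℝ (⊤ : ℕ∞) (fun z : ℝ × ℝ => ∫ s in (-R)..z.1, f s z.2) := by
  have hcont : ∀ y, Continuous (fun s => f s y) := fun y =>
    hf.continuous.comp (by fun_prop : Continuous (fun s : ℝ => ((s, y) : ℝ × ℝ)))
  have hk : IsCompact (Icc (-R) R) := isCompact_Icc
  have hcs : ∀ y, HasCompactSupport (fun s => f s y) := by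
    intro y
    refine HasCompactSupport.intro hk ?_
    intro x hx
    apply hs
    by_contra h
    push Not at h
    exact hx ⟨(abs_lt.1 h).1.le, (abs_lt.1 h).2.le⟩
  have hint : ∀ y, Integrable (fun s => f s y) := fun y =>
    (hcont y).integrable_of_hasCompactSupport (hcs y)
  have hconv := contDiffOn_convolution_right_with_param (𝕜 := ℝ) (μ := volume) (n := (⊤ : ℕ∞))
    (ContinuousLinearMap.mul ℝ ℝ) (f := H) (g := fun (p : ℝ) (x : ℝ) => f x p)
    (s := (univ : Set ℝ)) (k := Icc (-R) R) isOpen_univ hk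
    (by
      intro p x _ hx
      apply hs
      by_contra h
      push Not at h
      exact hx ⟨(abs_lt.1 h).1.le, (abs_lt.1 h).2.le⟩)
    H_loc
    (by
      refine ContDiff.contDiffOn ?_
      exact hf.comp (contDiff_snd.prodMk contDiff_fst))
  rw [univ_prod_univ, contDiffOn_univ] at hconv
  have h2 : ContDiff ℝ (⊤ : ℕ∞) (fun z : ℝ × ℝ =>
      (MeasureTheory.convolution H (fun x => f x z.2) (ContinuousLinearMap.mul ℝ ℝ) volume) z.1) :=
    hconv.comp (contDiff_snd.prodMk contDiff_fst)
  convert h2 using 1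
  funext z
  obtain ⟨x, y⟩ := z
  simp only [MeasureTheory.convolution, ContinuousLinearMap.mul_apply']
  have e1 : ∫ t, H t * f (x - t) y = ∫ s, H (x - s) * f s y := by
    have := MeasureTheory.integral_sub_left_eq_self (fun s => H (x - s) * f s y) volume x
    simpa using this
  rw [e1]
  have e2 : (fun s => H (x - s) * f s y) = (Iic x).indicator (fun s => f s y) := by
    funext s
    simp only [H, indicator, mem_Ici, mem_Iic, sub_nonneg]
    split_ifs <;> simp
  rw [e2, MeasureTheory.integral_indicator measurableSet_Iic,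
    ← intervalIntegral.integral_Iic_sub_Iic (hint y).integrableOn (hint y).integrableOn]
  have e3 : ∫ s in Iic (-R), f s y = 0 := by
    apply MeasureTheory.setIntegral_eq_zero_of_forall_eq_zero
    intro s hs'
    apply hs
    have : s ≤ -R := hs'
    exact (by linarith : R ≤ -s).trans (neg_le_abs s)
  rw [e3, sub_zero]

/-- a smooth function supported in `(-R, -r)` with integral `1` -/
lemma exists_bump (R r : ℝ) (hr : 0 < r) (hR : r < R) :
    ∃ θ : ℝ → ℝ, ContDiff ℝ (⊤ : ℕ∞) θ ∧ (∀ x, -r ≤ x → θ x = 0) ∧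
      (∀ x, (3 * R + r) / 4 ≤ |x| → θ x = 0) ∧ ∫ x in (-R)..R, θ x = 1 := by
  let b : ContDiffBump (-(R + r) / 2 : ℝ) := ⟨(R - r) / 8, (R - r) / 4, by linarith, by linarith⟩
  have hsup : ∀ x, x ∉ Metric.ball (-(R + r) / 2 : ℝ) ((R - r) / 4) → b.normed volume x = 0 := by
    intro x hx
    have := b.support_normed_eq (μ := volume)
    by_contra h
    exact hx (this ▸ (Function.mem_support.2 h))
  refine ⟨b.normed volume, b.contDiff_normed, ?_, ?_, ?_⟩
  · intro x hx
    apply hsup
    rw [Metric.mem_ball, Real.dist_eq]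
    intro h
    have := (abs_lt.1 h).2
    linarith
  · intro x hx
    apply hsup
    rw [Metric.mem_ball, Real.dist_eq]
    intro h
    obtain ⟨h1, h2⟩ := abs_lt.1 h
    rcases le_abs.1 hx with h3 | h3 <;> linarith
  · rw [intervalIntegral.integral_eq_integral_of_support_subset]
    · exact b.integral_normed
    · rw [b.support_normed_eq]
      intro x hx
      rw [Metric.mem_ball, Real.dist_eq] at hx
      obtain ⟨h1, h2⟩ := abs_lt.1 hx
      have e : b.rOut = (R - r) / 4 := rfl
      rw [e] at h1 h2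
      constructor <;> linarith

end PRIMAux

open PRIMAux in
theorem prim : Stmt_PRIM := by
  intro R r ψ hr hR hψ
  obtain ⟨hsm, ρ, hρ, hz⟩ := hψ
  obtain ⟨θ, hθ, hθ1, hθ2, hθ3⟩ := exists_bump R r hr hR
  set ρ₁ := max ρ ((3 * R + r) / 4) with hρ₁
  have hρ₁R : ρ₁ < R := max_lt hρ (by linarith)
  have hρ₁0 : 0 < ρ₁ := lt_max_of_lt_right (by linarith)
  have hcont : ∀ y, Continuous (fun s => ψ s y) := fun y =>
    hsm.continuous.comp (by fun_prop : Continuous (fun s : ℝ => ((s, y) : ℝ × ℝ)))
  -- the marginal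
  set m : ℝ → ℝ := fun y => ∫ s in (-R)..R, ψ s y with hm
  have hmsm : ContDiff ℝ (⊤ : ℕ∞) m := by
    have := prim_smooth ψ R hsm (fun x y hx => hz x y (Or.inl (hρ.le.trans hx)))
    exact this.comp ((contDiff_const (c := R)).prodMk contDiff_id)
  have hm0 : ∀ y, ρ ≤ |y| → m y = 0 := by
    intro y hy
    simp only [hm]
    have : (fun s => ψ s y) = fun _ => 0 := by
      funext s
      exact hz s y (Or.inr hy)
    rw [this]
    simp
  set ψ₀ : ℝ → ℝ → ℝ := fun x y => θ x * m y with hψ₀
  have hψ₀sm : ContDiff ℝ (⊤ : ℕ∞) (fun z : ℝ × ℝ => ψ₀ z.1 z.2) :=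
    (hθ.comp contDiff_fst).mul (hmsm.comp contDiff_snd)
  have hψ₀z : ∀ x y, ρ₁ ≤ |x| ∨ ρ₁ ≤ |y| → ψ₀ x y = 0 := by
    intro x y h
    rcases h with h | h
    · simp only [hψ₀]
      rw [hθ2 x ((le_max_right _ _).trans h), zero_mul]
    · simp only [hψ₀]
      rw [hm0 y ((le_max_left _ _).trans h), mul_zero]
  have hψz : ∀ x y, ρ₁ ≤ |x| ∨ ρ₁ ≤ |y| → ψ x y = 0 := fun x y h =>
    hz x y (h.imp (fun h => (le_max_left _ _).trans h) (fun h => (le_max_left _ _).trans h))
  have hcont₀ : ∀ y, Continuous (fun s => ψ₀ s y) := fun y =>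
    hψ₀sm.continuous.comp (by fun_prop : Continuous (fun s : ℝ => ((s, y) : ℝ × ℝ)))
  set g : ℝ → ℝ → ℝ := fun x y => ψ x y - ψ₀ x y with hg
  have hgsm : ContDiff ℝ (⊤ : ℕ∞) (fun z : ℝ × ℝ => g z.1 z.2) := hsm.sub hψ₀sm
  have hgz : ∀ x y, ρ₁ ≤ |x| ∨ ρ₁ ≤ |y| → g x y = 0 := fun x y h => by
    simp only [hg]
    rw [hψz x y h, hψ₀z x y h, sub_zero]
  have hgcont : ∀ y, Continuous (fun s => g s y) := fun y => (hcont y).sub (hcont₀ y)
  have hgint : ∀ y, ∫ s in (-R)..R, g s y = 0 := by
    intro y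
    simp only [hg]
    rw [intervalIntegral.integral_sub ((hcont y).intervalIntegrable _ _)
      ((hcont₀ y).intervalIntegrable _ _)]
    simp only [hψ₀]
    rw [intervalIntegral.integral_mul_const, hθ3, one_mul]
    simp only [hm, sub_self]
  refine ⟨fun x y => ∫ s in (-R)..x, g s y, ψ₀, ⟨?_, ρ₁, hρ₁R, ?_⟩, ⟨hψ₀sm, ρ₁, hρ₁R, hψ₀z⟩, ?_, ?_⟩
  · exact prim_smooth g R hgsm (fun x y hx => hgz x y (Or.inl (hρ₁R.le.trans hx)))
  · intro x y h
    show ∫ s in (-R)..x, g s y = 0
    have key : ∀ a b : ℝ, (∀ s ∈ uIcc a b, g s y = 0) → ∫ s in a..b, g s y = 0 := by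
      intro a b hab
      rw [intervalIntegral.integral_congr (g := fun _ => (0 : ℝ)) (fun s hs => hab s hs)]
      simp
    rcases h with h | h
    · rcases le_abs.1 h with h1 | h1
      · rw [← intervalIntegral.integral_add_adjacent_intervals
          ((hgcont y).intervalIntegrable (-R) R) ((hgcont y).intervalIntegrable R x), hgint y,
          zero_add]
        apply key
        intro s hs
        apply hgz
        left
        have : min R x ≤ s := hs.1
        exact ((le_min hρ₁R.le h1).trans this).trans (le_abs_self s)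
      · apply key
        intro s hs
        apply hgz
        left
        have h2 : s ≤ max (-R) x := hs.2
        have h3 : max (-R) x ≤ -ρ₁ := max_le (by linarith) (by linarith)
        have : ρ₁ ≤ -s := by linarith
        exact this.trans (neg_le_abs s)
    · apply key
      intro s _
      exact hgz s y (Or.inr h)
  · intro x y hx
    simp only [hψ₀]
    rw [hθ1 x hx, zero_mul]
  · intro x y
    have hd : dx (fun x y => ∫ s in (-R)..x, g s y) x y = g x y := by
      unfold dx
      exact Continuous.deriv_integral (fun s => g s y) (hgcont y) (-R) x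
    rw [hd]
    simp only [hg]
    ring

end Pool.Agent.LIO
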