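import Pool.Agent.LIO.Stmts

/-!
# Liouville metrics: two integrations by parts at a real level (module QF)
-/

set_option autoImplicit false

namespace Pool.Agent.LIO

open Complex MeasureTheory Set Filter Topology

namespace QFAux

/-- the general computation: `p² = W`, `b' = 1/p`, `(p A')' = Q` -/
theorem two_parts {R ω : ℝ} {p A A1 Q b E : ℝ → ℂ} (hp : ∀ y, p y ≠ 0)
    (hpc : Continuous p) (hA : ∀ y, HasDerivAt A (A1 y) y)
    (hQ : ∀ y, HasDerivAt (fun t => p t * A1 t) (Q y) y) (hQc : Continuous Q)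
    (hb : ∀ y, HasDerivAt b ((p y)⁻¹) y) (hE : ∀ y, E y = cexp (I * ω * b y))
    (h1 : A R = 0) (h2 : A (-R) = 0) (h3 : A1 R = 0) (h4 : A1 (-R) = 0) :
    ∫ y in (-R)..R, Q y * E y = -(ω : ℂ) ^ 2 * ∫ y in (-R)..R, A y * (p y)⁻¹ * E y := by
  have hEd : ∀ y, HasDerivAt E (E y * (I * ω * (p y)⁻¹)) y := by
    intro y
    have h : HasDerivAt (fun y => cexp (I * ω * b y)) (cexp (I * ω * b y) * (I * ω * (p y)⁻¹)) y :=
      ((hb y).const_mul (I * (ω : ℂ))).cexp
    have h' : E = fun y => cexp (I * ω * b y) := funext hE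
    rw [h']
    exact h
  have hEc : Continuous E := continuous_iff_continuousAt.2 fun y => (hEd y).continuousAt
  have hAc : Continuous A := continuous_iff_continuousAt.2 fun y => (hA y).continuousAt
  have hpi : Continuous fun y => (p y)⁻¹ := hpc.inv₀ hp
  have key : ∀ y, HasDerivAt (fun t => (p t * A1 t - I * ω * A t) * E t)
      (Q y * E y + (ω : ℂ) ^ 2 * (A y * (p y)⁻¹ * E y)) y := by
    intro y
    have h := ((hQ y).sub ((hA y).const_mul (I * (ω : ℂ)))).mul (hEd y)
    refine h.congr_deriv ?_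
    have e1 : p y * (p y)⁻¹ = 1 := mul_inv_cancel₀ (hp y)
    have e2 : (I : ℂ) * I = -1 := Complex.I_mul_I
    simp only [Pi.sub_apply]
    linear_combination (I * ω * A1 y * E y) * e1 - ((ω : ℂ) ^ 2 * A y * (p y)⁻¹ * E y) * e2
  have hint : ∫ y in (-R)..R, (Q y * E y + (ω : ℂ) ^ 2 * (A y * (p y)⁻¹ * E y)) = 0 := by
    rw [intervalIntegral.integral_eq_sub_of_hasDerivAt (fun y _ => key y)
      (((hQc.mul hEc).add (continuous_const.mul ((hAc.mul hpi).mul hEc))).intervalIntegrable _ _)]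
    rw [h1, h2, h3, h4]
    simp
  have c1 : Continuous fun y => Q y * E y := hQc.mul hEc
  have c2 : Continuous fun y => (ω : ℂ) ^ 2 * (A y * (p y)⁻¹ * E y) :=
    continuous_const.mul ((hAc.mul hpi).mul hEc)
  rw [intervalIntegral.integral_add (c1.intervalIntegrable _ _) (c2.intervalIntegrable _ _),
    intervalIntegral.integral_const_mul] at hint
  linear_combination hint

/-- derivatives of smooth functions of one variable -/
theorem smooth_hd {g : ℝ → ℝ} (hg : ContDiff ℝ (⊤ : ℕ∞) g) :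
    (∀ y, HasDerivAt g (deriv g y) y) ∧ (∀ y, HasDerivAt (deriv g) (deriv (deriv g) y) y) ∧
      Continuous g ∧ Continuous (deriv g) ∧ Continuous (deriv (deriv g)) := by
  have h1 : ContDiff ℝ (⊤ : ℕ∞) (deriv g) := by
    have h := (contDiff_infty_iff_deriv.1 hg).2
    exact h
  have h2 : ContDiff ℝ (⊤ : ℕ∞) (deriv (deriv g)) := (contDiff_infty_iff_deriv.1 h1).2
  exact ⟨fun y => (hg.differentiable (by simp) y).hasDerivAt,
    fun y => (h1.differentiable (by simp) y).hasDerivAt, hg.continuous, h1.continuous,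
    h2.continuous⟩

/-- the slices of a test function -/
theorem slice {R : ℝ} {ψ : ℝ → ℝ → ℝ} (hψ : TF R ψ) (x : ℝ) :
    ContDiff ℝ (⊤ : ℕ∞) (fun t => ψ x t) ∧ ψ x R = 0 ∧ ψ x (-R) = 0 ∧
      deriv (fun t => ψ x t) R = 0 ∧ deriv (fun t => ψ x t) (-R) = 0 := by
  obtain ⟨ρ, hρ, hs⟩ := hψ.supp
  have hsm : ContDiff ℝ (⊤ : ℕ∞) (fun t => ψ x t) :=
    hψ.smooth.comp (contDiff_const.prodMk contDiff_id)
  have e1 : (fun t => ψ x t) =ᶠ[𝓝 R] fun _ => 0 := by
    filter_upwards [lt_mem_nhds hρ] with t ht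
    exact hs x t (Or.inr (ht.le.trans (le_abs_self t)))
  have e2 : (fun t => ψ x t) =ᶠ[𝓝 (-R)] fun _ => 0 := by
    filter_upwards [gt_mem_nhds (show -R < -ρ by linarith)] with t ht
    refine hs x t (Or.inr ?_)
    have := neg_le_abs t
    linarith
  refine ⟨hsm, e1.eq_of_nhds, e2.eq_of_nhds, ?_, ?_⟩
  · rw [e1.deriv_eq]
    simp
  · rw [e2.deriv_eq]
    simp

end QFAux

open QFAux in
theorem qf (hB1 : Stmt_BAS1) (hB2 : Stmt_BAS2) : Stmt_QF := by
  intro D ψ hψ k ω x hk
  have B1 := hB1 D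
  have B2 := hB2 D
  have hk' : ((k : ℂ)).im ≠ 0 ∨ -D.a < ((k : ℂ)).re := Or.inr (by simpa using hk)
  obtain ⟨hf, f1, f2, f3, f4⟩ := slice hψ x
  set f : ℝ → ℝ := fun t => ψ x t with hfdef
  obtain ⟨d1, d2, c1, c2, c3⟩ := smooth_hd hf
  obtain ⟨v1, v2, w1, w2, w3⟩ := smooth_hd D.Vs
  set p : ℝ → ℂ := fun y => D.py k y with hpdef
  have hp : ∀ y, p y ≠ 0 := by
    intro y h
    have h1 := B1.py_low k y (by simpa using hk)
    have h2 : D.py k y = 0 := h
    rw [h2] at h1
    simp at h1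
  have hpc : Continuous p := B1.py_cont k
  have hpd : ∀ y, HasDerivAt p (((deriv D.V y : ℝ) : ℂ) / (2 * p y)) y := fun y =>
    B1.py_hd k y hk'
  have hp2 : ∀ y, p y ^ 2 = (D.V y : ℂ) + k := fun y => B1.py_sq k y
  have hb : ∀ y, HasDerivAt (fun t => D.BB k t) ((p y)⁻¹) y := fun y =>
    ((B2.conty k hk').integral_hasStrictDerivAt (-D.R) y).hasDerivAt
  have hfd : ∀ y, HasDerivAt (fun t => (f t : ℂ)) ((deriv f y : ℝ) : ℂ) y := fun y =>
    (d1 y).ofReal_comp
  have hfd2 : ∀ y, HasDerivAt (fun t => ((deriv f t : ℝ) : ℂ)) ((deriv (deriv f) y : ℝ) : ℂ) y :=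
    fun y => (d2 y).ofReal_comp
  have hvd : ∀ y, HasDerivAt (fun t => (D.V t : ℂ)) ((deriv D.V y : ℝ) : ℂ) y := fun y =>
    (v1 y).ofReal_comp
  have hvd2 : ∀ y, HasDerivAt (fun t => ((deriv D.V t : ℝ) : ℂ))
      ((deriv (deriv D.V) y : ℝ) : ℂ) y := fun y => (v2 y).ofReal_comp
  have cf : Continuous fun t => (f t : ℂ) := Complex.continuous_ofReal.comp c1
  have cf1 : Continuous fun t => ((deriv f t : ℝ) : ℂ) := Complex.continuous_ofReal.comp c2
  have cf2 : Continuous fun t => ((deriv (deriv f) t : ℝ) : ℂ) := Complex.continuous_ofReal.comp c3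
  have cv : Continuous fun t => (D.V t : ℂ) := Complex.continuous_ofReal.comp w1
  have cv1 : Continuous fun t => ((deriv D.V t : ℝ) : ℂ) := Complex.continuous_ofReal.comp w2
  have cv2 : Continuous fun t => ((deriv (deriv D.V) t : ℝ) : ℂ) :=
    Complex.continuous_ofReal.comp w3
  have hpi : Continuous fun y => (p y)⁻¹ := hpc.inv₀ hp
  have hpi2 : Continuous fun y => (2 * p y)⁻¹ :=
    (continuous_const.mul hpc).inv₀ fun y => mul_ne_zero two_ne_zero (hp y)
  have hdy : ∀ y, dy ψ x y = deriv f y := fun y => rfl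
  have hdyy : ∀ y, dy (dy ψ) x y = deriv (deriv f) y := fun y => rfl
  constructor
  · -- the amplitude for `ψ p_y`
    have hQS : ∀ y, D.QS ψ k x y = ((deriv D.V y : ℝ) : ℂ) ^ 2 * (f y : ℂ) * (2 * p y)⁻¹ + p y *
        (((deriv (deriv D.V) y : ℝ) : ℂ) * (f y : ℂ) + (5 / 2 : ℂ) * ((deriv D.V y : ℝ) : ℂ) *
          ((deriv f y : ℝ) : ℂ) + ((D.V y : ℂ) + k) * ((deriv (deriv f) y : ℝ) : ℂ)) := by
      intro y
      unfold LD.QS
      rw [hdy, hdyy, div_eq_mul_inv]
      push_cast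
      rfl
    have h := two_parts (R := D.R) (ω := ω) (p := p)
      (A := fun t => (f t : ℂ) * ((D.V t : ℂ) + k))
      (A1 := fun t => ((deriv f t : ℝ) : ℂ) * ((D.V t : ℂ) + k) +
        (f t : ℂ) * ((deriv D.V t : ℝ) : ℂ))
      (Q := fun y => D.QS ψ k x y) (b := fun t => D.BB k t)
      (E := fun y => cexp (I * ω * D.BB k y)) hp hpc
      (fun y => (hfd y).mul ((hvd y).add_const (k : ℂ))) ?_ ?_ hb (fun y => rfl)
      (by simp [show f D.R = 0 from f1]) (by simp [show f (-D.R) = 0 from f2])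
      (by simp [show f D.R = 0 from f1, show deriv f D.R = 0 from f3])
      (by simp [show f (-D.R) = 0 from f2, show deriv f (-D.R) = 0 from f4])
    · rw [h]
      congr 1
      unfold LD.cS
      refine intervalIntegral.integral_congr fun y _ => ?_
      have e0 := hp2 y
      have := hp y
      change (f y : ℂ) * ((D.V y : ℂ) + k) * (p y)⁻¹ * _ = (f y : ℂ) * p y * _
      rw [← e0]
      congr 1
      field_simp
    · intro y
      have h1 := (hpd y).mul (((hfd2 y).mul ((hvd y).add_const (k : ℂ))).add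
        ((hfd y).mul (hvd2 y)))
      refine h1.congr_deriv ?_
      rw [hQS]
      have e1 : p y * (2 * p y)⁻¹ = 1 / 2 := by
        have := hp y
        field_simp
      have e2 := hp2 y
      simp only [Pi.add_apply, Pi.mul_apply, div_eq_mul_inv]
      have e3 : ((D.V y : ℂ) + k) * (2 * p y)⁻¹ = 1 / 2 * p y := by
        rw [← e2]
        linear_combination (p y) * e1
      linear_combination (((deriv D.V y : ℝ) : ℂ) * ((deriv f y : ℝ) : ℂ)) * e3
    · have : (fun y => D.QS ψ k x y) = fun y => ((deriv D.V y : ℝ) : ℂ) ^ 2 * (f y : ℂ) *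
          (2 * p y)⁻¹ + p y *
        (((deriv (deriv D.V) y : ℝ) : ℂ) * (f y : ℂ) + (5 / 2 : ℂ) * ((deriv D.V y : ℝ) : ℂ) *
          ((deriv f y : ℝ) : ℂ) + ((D.V y : ℂ) + k) * ((deriv (deriv f) y : ℝ) : ℂ)) := funext hQS
      rw [this]
      exact (((cv1.pow 2).mul cf).mul hpi2).add (hpc.mul (((cv2.mul cf).add
        ((continuous_const.mul cv1).mul cf1)).add ((cv.add continuous_const).mul cf2)))
  · -- the amplitude for `ψ p_x`
    have hQP : ∀ y, D.QP ψ k x y = D.px k x * ((1 / 2 : ℂ) * ((deriv (deriv D.V) y : ℝ) : ℂ) *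
        (f y : ℂ) + (3 / 2 : ℂ) * ((deriv D.V y : ℝ) : ℂ) * ((deriv f y : ℝ) : ℂ) +
          ((D.V y : ℂ) + k) * ((deriv (deriv f) y : ℝ) : ℂ)) := by
      intro y
      unfold LD.QP
      rw [hdy, hdyy]
      push_cast
      congr 1
      congr 1
      congr 1
      change _ / 2 * (f y : ℂ) = _
      ring
    have h := two_parts (R := D.R) (ω := ω) (p := p)
      (A := fun t => D.px k x * ((f t : ℂ) * p t))
      (A1 := fun t => D.px k x * (((deriv f t : ℝ) : ℂ) * p t +
        (f t : ℂ) * (((deriv D.V t : ℝ) : ℂ) / (2 * p t))))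
      (Q := fun y => D.QP ψ k x y) (b := fun t => D.BB k t)
      (E := fun y => cexp (I * ω * D.BB k y)) hp hpc
      (fun y => ((hfd y).mul (hpd y)).const_mul (D.px k x)) ?_ ?_ hb (fun y => rfl)
      (by simp [show f D.R = 0 from f1]) (by simp [show f (-D.R) = 0 from f2])
      (by simp [show f D.R = 0 from f1, show deriv f D.R = 0 from f3])
      (by simp [show f (-D.R) = 0 from f2, show deriv f (-D.R) = 0 from f4])
    · rw [h]
      congr 1
      unfold LD.c0
      rw [← intervalIntegral.integral_const_mul]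
      refine intervalIntegral.integral_congr fun y _ => ?_
      have e1 : p y * (p y)⁻¹ = 1 := mul_inv_cancel₀ (hp y)
      change D.px k x * ((f y : ℂ) * p y) * (p y)⁻¹ * _ = D.px k x * ((f y : ℂ) * _)
      linear_combination (D.px k x * (f y : ℂ) * cexp (I * ω * D.BB k y)) * e1
    · intro y
      have hfun : (fun t => p t * (D.px k x * (((deriv f t : ℝ) : ℂ) * p t +
          (f t : ℂ) * (((deriv D.V t : ℝ) : ℂ) / (2 * p t))))) = fun t => D.px k x *
          (((deriv f t : ℝ) : ℂ) * ((D.V t : ℂ) + k) +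
            (1 / 2 : ℂ) * ((f t : ℂ) * ((deriv D.V t : ℝ) : ℂ))) := by
        funext t
        have e1 := hp2 t
        have e2 : p t * (p t)⁻¹ = 1 := mul_inv_cancel₀ (hp t)
        rw [← e1, div_eq_mul_inv, mul_inv]
        linear_combination (1 / 2 * D.px k x * (f t : ℂ) * ((deriv D.V t : ℝ) : ℂ)) * e2
      rw [hfun]
      have h1 := (((hfd2 y).mul ((hvd y).add_const (k : ℂ))).add
        (((hfd y).mul (hvd2 y)).const_mul (1 / 2 : ℂ))).const_mul (D.px k x)
      refine h1.congr_deriv ?_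
      rw [hQP]
      ring
    · have : (fun y => D.QP ψ k x y) = fun y => D.px k x * ((1 / 2 : ℂ) *
        ((deriv (deriv D.V) y : ℝ) : ℂ) *
        (f y : ℂ) + (3 / 2 : ℂ) * ((deriv D.V y : ℝ) : ℂ) * ((deriv f y : ℝ) : ℂ) +
          ((D.V y : ℂ) + k) * ((deriv (deriv f) y : ℝ) : ℂ)) := funext hQP
      rw [this]
      exact continuous_const.mul ((((continuous_const.mul cv2).mul cf).add
        ((continuous_const.mul cv1).mul cf1)).add ((cv.add continuous_const).mul cf2))

end Pool.Agent.LIO
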