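import Pool.Agent.LIO.Stmts

/-!
# Liouville metrics: two integrations by parts, complex level
-/

set_option autoImplicit false

namespace Pool.Agent.LIO

open Complex MeasureTheory Set Filter Topology

namespace QIAux

/-- the slices of a test function -/
lemma slice (R : ℝ) (ψ : ℝ → ℝ → ℝ) (hψ : TF R ψ) (x : ℝ) :
    ContDiff ℝ (⊤ : ℕ∞) (fun y => ψ x y) := by
  have h1 : ContDiff ℝ (⊤ : ℕ∞) (fun y : ℝ => ((x, y) : ℝ × ℝ)) :=
    contDiff_const.prodMk contDiff_id
  exact hψ.smooth.comp h1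

lemma zero_near (R : ℝ) (ψ : ℝ → ℝ → ℝ) (hψ : TF R ψ) (x y : ℝ) (hy : R ≤ |y|) :
    (fun t => ψ x t) =ᶠ[𝓝 y] fun _ => (0 : ℝ) := by
  obtain ⟨ρ, hρ, hs⟩ := hψ.supp
  have h1 : ∀ᶠ t in 𝓝 y, ρ < |t| :=
    (continuous_abs.tendsto y).eventually (lt_mem_nhds (lt_of_lt_of_le hρ hy))
  filter_upwards [h1] with t ht
  exact hs x t (Or.inr ht.le)

/-- integration by parts without boundary terms -/
lemma ibp (a b : ℝ) (u v u' v' : ℝ → ℂ) (hu : ∀ y, HasDerivAt u (u' y) y)
    (hv : ∀ y, HasDerivAt v (v' y) y) (cu : Continuous u') (cv : Continuous v')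
    (ha : v a = 0) (hb : v b = 0) :
    ∫ y in a..b, u y * v' y = -∫ y in a..b, u' y * v y := by
  have h := intervalIntegral.integral_mul_deriv_eq_deriv_mul (u := u) (v := v) (u' := u')
    (v' := v') (a := a) (b := b) (fun y _ => hu y) (fun y _ => hv y)
    (cu.intervalIntegrable _ _) (cv.intervalIntegrable _ _)
  rw [h, ha, hb]
  ring

end QIAux

open QIAux in
theorem qi (hB1 : Stmt_BAS1) (hB2 : Stmt_BAS2) (hK : Stmt_KER) : Stmt_QI := by
  intro D ψ hψ h x x' y' τ hh hx hτ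
  have B1 := hB1 D
  have B2 := hB2 D
  have hKd := hK.2.1
  -- the slice of the test function
  set g : ℝ → ℝ := fun y => ψ x y with hg
  have hgs : ContDiff ℝ (⊤ : ℕ∞) g := slice D.R ψ hψ x
  have hg1s : ContDiff ℝ (⊤ : ℕ∞) (deriv g) := by
    have := contDiff_infty_iff_deriv.1 hgs
    exact this.2
  have hg2s : ContDiff ℝ (⊤ : ℕ∞) (deriv (deriv g)) := by
    have := contDiff_infty_iff_deriv.1 hg1s
    exact this.2
  have hV1s : ContDiff ℝ (⊤ : ℕ∞) (deriv D.V) := by
    have := contDiff_infty_iff_deriv.1 D.Vs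
    exact this.2
  have hV2s : ContDiff ℝ (⊤ : ℕ∞) (deriv (deriv D.V)) := by
    have := contDiff_infty_iff_deriv.1 hV1s
    exact this.2
  have dne : ((⊤ : ℕ∞) : WithTop ℕ∞) ≠ 0 := by simp
  have dg : ∀ y, HasDerivAt g (deriv g y) y := fun y =>
    (hgs.differentiable dne y).hasDerivAt
  have dg1 : ∀ y, HasDerivAt (deriv g) (deriv (deriv g) y) y := fun y =>
    (hg1s.differentiable dne y).hasDerivAt
  have dV : ∀ y, HasDerivAt D.V (deriv D.V y) y := fun y =>
    (D.Vs.differentiable dne y).hasDerivAt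
  have dV1 : ∀ y, HasDerivAt (deriv D.V) (deriv (deriv D.V) y) y := fun y =>
    (hV1s.differentiable dne y).hasDerivAt
  have cg : Continuous g := hgs.continuous
  have cg1 : Continuous (deriv g) := hg1s.continuous
  have cg2 : Continuous (deriv (deriv g)) := hg2s.continuous
  have cV : Continuous D.V := D.Vs.continuous
  have cV1 : Continuous (deriv D.V) := hV1s.continuous
  have cV2 : Continuous (deriv (deriv D.V)) := hV2s.continuous
  have hdy : ∀ y, dy ψ x y = deriv g y := fun y => rfl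
  have hdyy : ∀ y, dy (dy ψ) x y = deriv (deriv g) y := fun y => rfl
  -- boundary values
  have hR : 0 < D.R := D.r0.trans D.rR
  have hz : ∀ y, D.R ≤ |y| → g y = 0 ∧ deriv g y = 0 := by
    intro y hy
    have h1 := zero_near D.R ψ hψ x y hy
    refine ⟨h1.self_of_nhds, ?_⟩
    rw [Filter.EventuallyEq.deriv_eq h1]
    simp
  have hzR := hz D.R (le_abs_self _)
  have hzL := hz (-D.R) (by rw [abs_neg]; exact le_abs_self _)
  -- the square root
  set p : ℝ → ℂ := fun y => D.py h y with hp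
  have pre : ∀ y, 0 < (p y).re := fun y => (B1.py_up h y hh).1
  have pne : ∀ y, p y ≠ 0 := by
    intro y h0
    have := pre y
    rw [h0] at this
    simp at this
  have psq : ∀ y, p y ^ 2 = (D.V y : ℂ) + h := fun y => B1.py_sq h y
  have pd : ∀ y, HasDerivAt p (((deriv D.V y : ℝ) : ℂ) / (2 * p y)) y := fun y =>
    B1.py_hd h y (Or.inl hh.ne')
  have cp : Continuous p := B1.py_cont h
  have cpi : Continuous (fun y => (p y)⁻¹) := cp.inv₀ pne
  -- the phase
  set ζ : ℝ → ℂ := fun y => D.ga h x x' + τ * D.be h y y' with hζ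
  have hbe : ∀ y, HasDerivAt (fun y => D.be h y y') ((p y)⁻¹) y := by
    intro y
    exact intervalIntegral.integral_hasDerivAt_right (cpi.intervalIntegrable _ _)
      (cpi.stronglyMeasurableAtFilter _ _) cpi.continuousAt
  have hζd : ∀ y, HasDerivAt ζ (τ * (p y)⁻¹) y := fun y =>
    ((hbe y).const_mul (τ : ℂ)).const_add _
  have hdom : ∀ y, (ζ y).re ≠ 0 ∨ 0 < (ζ y).im := fun y =>
    B2.mem_up h x x' y y' τ hh hx hτ
  have hζne : ∀ y, ζ y ≠ 0 := by
    intro y h0
    rcases hdom y with h1 | h1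
    · rw [h0] at h1
      simp at h1
    · rw [h0] at h1
      simp at h1
  have cζ : Continuous ζ := continuous_iff_continuousAt.2 fun y => (hζd y).continuousAt
  have cζi : Continuous (fun y => (ζ y)⁻¹) := cζ.inv₀ hζne
  set F : ℝ → ℂ := fun y => KK (ζ y) with hF
  set G : ℝ → ℂ := fun y => Complex.log (-(I * ζ y)) + 1 with hG
  have hFd : ∀ y, HasDerivAt F (G y * (τ * (p y)⁻¹)) y := fun y =>
    HasDerivAt.comp y (hKd (ζ y) (hdom y)).1 (hζd y)
  have hGd : ∀ y, HasDerivAt G ((ζ y)⁻¹ * (τ * (p y)⁻¹)) y := fun y =>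
    HasDerivAt.comp y (hKd (ζ y) (hdom y)).2 (hζd y)
  have cG : Continuous G := continuous_iff_continuousAt.2 fun y => (hGd y).continuousAt
  have cF' : Continuous (fun y => G y * (τ * (p y)⁻¹)) := cG.mul (continuous_const.mul cpi)
  have cG' : Continuous (fun y => (ζ y)⁻¹ * (τ * (p y)⁻¹)) :=
    cζi.mul (continuous_const.mul cpi)
  have hτ2 : (τ : ℂ) * τ = 1 := by
    rcases hτ with h1 | h1 <;> simp [h1]
  -- derivatives of the real functions as complex functions
  have eg : ∀ y, HasDerivAt (fun t => (g t : ℂ)) ((deriv g y : ℝ) : ℂ) y := fun y =>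
    (dg y).ofReal_comp
  have eg1 : ∀ y, HasDerivAt (fun t => ((deriv g t : ℝ) : ℂ)) ((deriv (deriv g) y : ℝ) : ℂ) y :=
    fun y => (dg1 y).ofReal_comp
  have eV : ∀ y, HasDerivAt (fun t => (D.V t : ℂ) + h) ((deriv D.V y : ℝ) : ℂ) y := fun y =>
    ((dV y).ofReal_comp).add_const _
  have eV1 : ∀ y, HasDerivAt (fun t => ((deriv D.V t : ℝ) : ℂ)) ((deriv (deriv D.V) y : ℝ) : ℂ) y :=
    fun y => (dV1 y).ofReal_comp
  have ccg : Continuous (fun y => (g y : ℂ)) := continuous_ofReal.comp cg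
  have ccg1 : Continuous (fun y => ((deriv g y : ℝ) : ℂ)) := continuous_ofReal.comp cg1
  have ccg2 : Continuous (fun y => ((deriv (deriv g) y : ℝ) : ℂ)) := continuous_ofReal.comp cg2
  have ccV : Continuous (fun y => (D.V y : ℂ) + h) :=
    (continuous_ofReal.comp cV).add continuous_const
  have ccV1 : Continuous (fun y => ((deriv D.V y : ℝ) : ℂ)) := continuous_ofReal.comp cV1
  have ccV2 : Continuous (fun y => ((deriv (deriv D.V) y : ℝ) : ℂ)) := continuous_ofReal.comp cV2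
  constructor
  · -- first identity
    have hA : ∀ y, HasDerivAt
        (fun t => p t * (((deriv D.V t : ℝ) : ℂ) * (g t : ℂ) + ((D.V t : ℂ) + h) * ((deriv g t : ℝ) : ℂ)))
        (D.QS ψ h x y) y := by
      intro y
      have h1 : HasDerivAt
          (fun t => p t * (((deriv D.V t : ℝ) : ℂ) * (g t : ℂ) +
            ((D.V t : ℂ) + h) * ((deriv g t : ℝ) : ℂ)))
          (((deriv D.V y : ℝ) : ℂ) / (2 * p y) * (((deriv D.V y : ℝ) : ℂ) * (g y : ℂ) +
            ((D.V y : ℂ) + h) * ((deriv g y : ℝ) : ℂ)) +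
            p y * ((((deriv (deriv D.V) y : ℝ) : ℂ) * (g y : ℂ) +
              ((deriv D.V y : ℝ) : ℂ) * ((deriv g y : ℝ) : ℂ)) +
              (((deriv D.V y : ℝ) : ℂ) * ((deriv g y : ℝ) : ℂ) +
                ((D.V y : ℂ) + h) * ((deriv (deriv g) y : ℝ) : ℂ)))) y :=
        (pd y).mul (((eV1 y).mul (eg y)).add ((eV y).mul (eg1 y)))
      refine h1.congr_deriv ?_
      simp only [LD.QS, hdy, hdyy]
      have e1 := psq y
      have e2 := pne y
      rw [← e1]
      change _ = _ / (2 * p y) + p y * _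
      rw [show (ψ x y) = g y from rfl]
      push_cast
      field_simp
      ring
    have cA : Continuous (fun y => D.QS ψ h x y) := by
      have h1 : (fun y => D.QS ψ h x y) = fun y =>
          (((deriv D.V y : ℝ) : ℂ) ^ 2 * (g y : ℂ)) * (2⁻¹ * (p y)⁻¹) + p y * (((deriv (deriv D.V) y : ℝ) : ℂ) *
          (g y : ℂ) + (5 / 2 * ((deriv D.V y : ℝ) : ℂ)) * ((deriv g y : ℝ) : ℂ) +
          ((D.V y : ℂ) + h) * ((deriv (deriv g) y : ℝ) : ℂ)) := by
        funext y
        simp only [LD.QS, hdy, hdyy]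
        rw [show (ψ x y) = g y from rfl]
        push_cast
        rw [div_eq_mul_inv, mul_inv]
      rw [h1]
      fun_prop
    have i1 := ibp (-D.R) D.R F
      (fun t => p t * (((deriv D.V t : ℝ) : ℂ) * (g t : ℂ) + ((D.V t : ℂ) + h) * ((deriv g t : ℝ) : ℂ)))
      (fun y => G y * (τ * (p y)⁻¹)) (fun y => D.QS ψ h x y) hFd hA cF' cA
      (by simp [hzL.1, hzL.2]) (by simp [hzR.1, hzR.2])
    have hC : ∀ y, HasDerivAt (fun t => ((D.V t : ℂ) + h) * (g t : ℂ))
        (((deriv D.V y : ℝ) : ℂ) * (g y : ℂ) + ((D.V y : ℂ) + h) * ((deriv g y : ℝ) : ℂ)) y := fun y =>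
      (eV y).mul (eg y)
    have cC : Continuous
        (fun y => ((deriv D.V y : ℝ) : ℂ) * (g y : ℂ) + ((D.V y : ℂ) + h) * ((deriv g y : ℝ) : ℂ)) :=
      (ccV1.mul ccg).add (ccV.mul ccg1)
    have i2 := ibp (-D.R) D.R G (fun t => ((D.V t : ℂ) + h) * (g t : ℂ))
      (fun y => (ζ y)⁻¹ * (τ * (p y)⁻¹))
      (fun y => ((deriv D.V y : ℝ) : ℂ) * (g y : ℂ) + ((D.V y : ℂ) + h) * ((deriv g y : ℝ) : ℂ)) hGd hC cG'
      cC (by simp [hzL.1]) (by simp [hzR.1])
    calc ∫ y in (-D.R)..D.R, D.QS ψ h x y * KK (D.ga h x x' + τ * D.be h y y')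
        = ∫ y in (-D.R)..D.R, F y * D.QS ψ h x y := by
          refine intervalIntegral.integral_congr fun y _ => ?_
          exact mul_comm _ _
      _ = -∫ y in (-D.R)..D.R, (G y * (τ * (p y)⁻¹)) *
            (p y * (((deriv D.V y : ℝ) : ℂ) * (g y : ℂ) + ((D.V y : ℂ) + h) * ((deriv g y : ℝ) : ℂ))) := i1
      _ = -∫ y in (-D.R)..D.R, (τ : ℂ) * (G y *
            (((deriv D.V y : ℝ) : ℂ) * (g y : ℂ) + ((D.V y : ℂ) + h) * ((deriv g y : ℝ) : ℂ))) := by
          congr 1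
          refine intervalIntegral.integral_congr fun y _ => ?_
          have := pne y
          field_simp
      _ = -((τ : ℂ) * ∫ y in (-D.R)..D.R, G y *
            (((deriv D.V y : ℝ) : ℂ) * (g y : ℂ) + ((D.V y : ℂ) + h) * ((deriv g y : ℝ) : ℂ))) := by
          rw [intervalIntegral.integral_const_mul]
      _ = (τ : ℂ) * ∫ y in (-D.R)..D.R,
            ((ζ y)⁻¹ * (τ * (p y)⁻¹)) * (((D.V y : ℂ) + h) * (g y : ℂ)) := by
          rw [i2]
          ring
      _ = ∫ y in (-D.R)..D.R, (τ : ℂ) * (((ζ y)⁻¹ * (τ * (p y)⁻¹)) *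
            (((D.V y : ℂ) + h) * (g y : ℂ))) := by
          rw [intervalIntegral.integral_const_mul]
      _ = ∫ y in (-D.R)..D.R, (ψ x y : ℂ) * D.py h y *
            (D.ga h x x' + τ * D.be h y y')⁻¹ := by
          refine intervalIntegral.integral_congr fun y _ => ?_
          have e1 := psq y
          have e2 := pne y
          rw [← e1]
          change _ = (g y : ℂ) * p y * (ζ y)⁻¹
          have e3 : (p y)⁻¹ * p y ^ 2 = p y := by
            field_simp
          calc (τ : ℂ) * (((ζ y)⁻¹ * (τ * (p y)⁻¹)) * (p y ^ 2 * (g y : ℂ)))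
              = ((τ : ℂ) * τ) * ((ζ y)⁻¹ * ((p y)⁻¹ * p y ^ 2) * (g y : ℂ)) := by ring
            _ = (g y : ℂ) * p y * (ζ y)⁻¹ := by
                rw [hτ2, e3]
                ring
  · -- second identity
    set P : ℂ := D.px h x with hP
    have hA : ∀ y, HasDerivAt
        (fun t => ((deriv D.V t : ℝ) : ℂ) * 2⁻¹ * (g t : ℂ) + ((D.V t : ℂ) + h) * ((deriv g t : ℝ) : ℂ))
        (((deriv (deriv D.V) y : ℝ) : ℂ) * 2⁻¹ * (g y : ℂ) + ((deriv D.V y : ℝ) : ℂ) * 2⁻¹ * ((deriv g y : ℝ) : ℂ) +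
          (((deriv D.V y : ℝ) : ℂ) * ((deriv g y : ℝ) : ℂ) + ((D.V y : ℂ) + h) * ((deriv (deriv g) y : ℝ) : ℂ)))
        y := fun y =>
      (((eV1 y).mul_const _).mul (eg y)).add ((eV y).mul (eg1 y))
    have cA : Continuous (fun y =>
        ((deriv (deriv D.V) y : ℝ) : ℂ) * 2⁻¹ * (g y : ℂ) + ((deriv D.V y : ℝ) : ℂ) * 2⁻¹ * ((deriv g y : ℝ) : ℂ) +
          (((deriv D.V y : ℝ) : ℂ) * ((deriv g y : ℝ) : ℂ) +
            ((D.V y : ℂ) + h) * ((deriv (deriv g) y : ℝ) : ℂ))) := by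
      fun_prop
    have i1 := ibp (-D.R) D.R F
      (fun t => ((deriv D.V t : ℝ) : ℂ) * 2⁻¹ * (g t : ℂ) + ((D.V t : ℂ) + h) * ((deriv g t : ℝ) : ℂ))
      (fun y => G y * (τ * (p y)⁻¹)) _ hFd hA cF' cA
      (by simp [hzL.1, hzL.2]) (by simp [hzR.1, hzR.2])
    have hC : ∀ y, HasDerivAt (fun t => p t * (g t : ℂ))
        (((deriv D.V y : ℝ) : ℂ) / (2 * p y) * (g y : ℂ) + p y * ((deriv g y : ℝ) : ℂ)) y := fun y =>
      (pd y).mul (eg y)
    have cC : Continuous (fun y =>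
        ((deriv D.V y : ℝ) : ℂ) / (2 * p y) * (g y : ℂ) + p y * ((deriv g y : ℝ) : ℂ)) := by
      have h2 : ∀ y, 2 * p y ≠ 0 := fun y => mul_ne_zero two_ne_zero (pne y)
      exact ((ccV1.div (continuous_const.mul cp) h2).mul ccg).add (cp.mul ccg1)
    have i2 := ibp (-D.R) D.R G (fun t => p t * (g t : ℂ))
      (fun y => (ζ y)⁻¹ * (τ * (p y)⁻¹)) _ hGd hC cG' cC (by simp [hzL.1]) (by simp [hzR.1])
    calc ∫ y in (-D.R)..D.R, D.QP ψ h x y * KK (D.ga h x x' + τ * D.be h y y')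
        = ∫ y in (-D.R)..D.R, P * (F y * (((deriv (deriv D.V) y : ℝ) : ℂ) * 2⁻¹ * (g y : ℂ) +
            ((deriv D.V y : ℝ) : ℂ) * 2⁻¹ * ((deriv g y : ℝ) : ℂ) +
            (((deriv D.V y : ℝ) : ℂ) * ((deriv g y : ℝ) : ℂ) +
              ((D.V y : ℂ) + h) * ((deriv (deriv g) y : ℝ) : ℂ)))) := by
          refine intervalIntegral.integral_congr fun y _ => ?_
          simp only [LD.QP, hdy, hdyy, hF, hζ]
          rw [show (ψ x y) = g y from rfl]
          push_cast
          ring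
      _ = P * ∫ y in (-D.R)..D.R, F y * (((deriv (deriv D.V) y : ℝ) : ℂ) * 2⁻¹ * (g y : ℂ) +
            ((deriv D.V y : ℝ) : ℂ) * 2⁻¹ * ((deriv g y : ℝ) : ℂ) +
            (((deriv D.V y : ℝ) : ℂ) * ((deriv g y : ℝ) : ℂ) +
              ((D.V y : ℂ) + h) * ((deriv (deriv g) y : ℝ) : ℂ))) := by
          rw [intervalIntegral.integral_const_mul]
      _ = P * -∫ y in (-D.R)..D.R, (G y * (τ * (p y)⁻¹)) *
            (((deriv D.V y : ℝ) : ℂ) * 2⁻¹ * (g y : ℂ) + ((D.V y : ℂ) + h) * ((deriv g y : ℝ) : ℂ)) := by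
          rw [i1]
      _ = P * -∫ y in (-D.R)..D.R, (τ : ℂ) * (G y *
            (((deriv D.V y : ℝ) : ℂ) / (2 * p y) * (g y : ℂ) + p y * ((deriv g y : ℝ) : ℂ))) := by
          congr 2
          refine intervalIntegral.integral_congr fun y _ => ?_
          have e1 := psq y
          have e2 := pne y
          rw [← e1]
          field_simp
      _ = P * -((τ : ℂ) * ∫ y in (-D.R)..D.R, G y *
            (((deriv D.V y : ℝ) : ℂ) / (2 * p y) * (g y : ℂ) + p y * ((deriv g y : ℝ) : ℂ))) := by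
          rw [intervalIntegral.integral_const_mul]
      _ = P * ((τ : ℂ) * ∫ y in (-D.R)..D.R,
            ((ζ y)⁻¹ * (τ * (p y)⁻¹)) * (p y * (g y : ℂ))) := by
          rw [i2]
          ring
      _ = ∫ y in (-D.R)..D.R, P * ((τ : ℂ) * (((ζ y)⁻¹ * (τ * (p y)⁻¹)) *
            (p y * (g y : ℂ)))) := by
          rw [intervalIntegral.integral_const_mul, intervalIntegral.integral_const_mul]
      _ = ∫ y in (-D.R)..D.R, (ψ x y : ℂ) * D.px h x *
            (D.ga h x x' + τ * D.be h y y')⁻¹ := by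
          refine intervalIntegral.integral_congr fun y _ => ?_
          have e2 := pne y
          change _ = (g y : ℂ) * P * (ζ y)⁻¹
          have e3 : (p y)⁻¹ * p y = 1 := by
            field_simp
          calc P * ((τ : ℂ) * (((ζ y)⁻¹ * (τ * (p y)⁻¹)) * (p y * (g y : ℂ))))
              = ((τ : ℂ) * τ) * (P * (ζ y)⁻¹ * ((p y)⁻¹ * p y) * (g y : ℂ)) := by ring
            _ = (g y : ℂ) * P * (ζ y)⁻¹ := by
                rw [hτ2, e3]
                ring

end Pool.Agent.LIO
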