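import Pool.Agent.LIO.Stmts

/-!
# Test functions
-/

set_option autoImplicit false

namespace Pool.Agent.LIO

open Complex MeasureTheory Set Filter Topology

namespace TFCAux

theorem dx_eq {ψ : ℝ → ℝ → ℝ} (h : ContDiff ℝ (⊤ : ℕ∞) (fun z : ℝ × ℝ => ψ z.1 z.2))
    (x y : ℝ) : dx ψ x y = fderiv ℝ (fun z : ℝ × ℝ => ψ z.1 z.2) (x, y) (1, 0) := by
  have h1 : HasFDerivAt (fun z : ℝ × ℝ => ψ z.1 z.2)
      (fderiv ℝ (fun z : ℝ × ℝ => ψ z.1 z.2) (x, y)) (x, y) :=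
    ((h.differentiable (by simp)) (x, y)).hasFDerivAt
  have h2 : HasDerivAt (fun t : ℝ => ((t, y) : ℝ × ℝ)) ((1 : ℝ), (0 : ℝ)) x :=
    (hasDerivAt_id x).prodMk (hasDerivAt_const x y)
  exact (h1.comp_hasDerivAt x h2).deriv

theorem dy_eq {ψ : ℝ → ℝ → ℝ} (h : ContDiff ℝ (⊤ : ℕ∞) (fun z : ℝ × ℝ => ψ z.1 z.2))
    (x y : ℝ) : dy ψ x y = fderiv ℝ (fun z : ℝ × ℝ => ψ z.1 z.2) (x, y) (0, 1) := by
  have h1 : HasFDerivAt (fun z : ℝ × ℝ => ψ z.1 z.2)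
      (fderiv ℝ (fun z : ℝ × ℝ => ψ z.1 z.2) (x, y)) (x, y) :=
    ((h.differentiable (by simp)) (x, y)).hasFDerivAt
  have h2 : HasDerivAt (fun t : ℝ => ((x, t) : ℝ × ℝ)) ((0 : ℝ), (1 : ℝ)) y :=
    (hasDerivAt_const y x).prodMk (hasDerivAt_id y)
  exact (h1.comp_hasDerivAt y h2).deriv

theorem smooth_fd {F : ℝ × ℝ → ℝ} (h : ContDiff ℝ (⊤ : ℕ∞) F) (v : ℝ × ℝ) :
    ContDiff ℝ (⊤ : ℕ∞) (fun z => fderiv ℝ F z v) := by
  have h1 : ContDiff ℝ (⊤ : ℕ∞) (fderiv ℝ F) := h.fderiv_right (by simp)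
  exact h1.clm_apply contDiff_const

theorem sw_tf {R : ℝ} {ψ : ℝ → ℝ → ℝ} (h : TF R ψ) : TF R (sw ψ) := by
  obtain ⟨hs, ρ, hρ, hz⟩ := h
  refine ⟨?_, ρ, hρ, fun x y hxy => hz y x hxy.symm⟩
  exact hs.comp (contDiff_snd.prodMk contDiff_fst)

theorem dx_tf {R : ℝ} {ψ : ℝ → ℝ → ℝ} (h : TF R ψ) : TF R (dx ψ) := by
  obtain ⟨hs, ρ, hρ, hz⟩ := h
  refine ⟨?_, (ρ + R) / 2, by linarith, ?_⟩
  · have : (fun z : ℝ × ℝ => dx ψ z.1 z.2) =
        fun z => fderiv ℝ (fun z : ℝ × ℝ => ψ z.1 z.2) z (1, 0) := by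
      funext z
      exact dx_eq hs z.1 z.2
    rw [this]
    exact smooth_fd hs _
  · intro x y hxy
    unfold dx
    rcases hxy with hx | hy
    · have ho : IsOpen {t : ℝ | ρ < |t|} := isOpen_lt continuous_const continuous_abs
      have hx' : x ∈ {t : ℝ | ρ < |t|} := by
        show ρ < |x|
        linarith
      have he : (fun t => ψ t y) =ᶠ[𝓝 x] fun _ => (0 : ℝ) := by
        filter_upwards [ho.mem_nhds hx'] with t ht
        exact hz t y (Or.inl (le_of_lt ht))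
      rw [he.deriv_eq]
      simp
    · have he : (fun t => ψ t y) = fun _ => (0 : ℝ) := by
        funext t
        exact hz t y (Or.inr (by linarith))
      rw [he]
      simp

theorem dy_tf {R : ℝ} {ψ : ℝ → ℝ → ℝ} (h : TF R ψ) : TF R (dy ψ) := by
  have h1 : dy ψ = sw (dx (sw ψ)) := rfl
  rw [h1]
  exact sw_tf (dx_tf (sw_tf h))

end TFCAux

theorem tfc : Stmt_TFC := by
  intro R ψ h
  refine ⟨TFCAux.dx_tf h, TFCAux.dy_tf h, TFCAux.sw_tf h, ?_, ?_⟩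
  · intro g hg
    obtain ⟨hs, ρ, hρ, hz⟩ := h
    refine ⟨hg.mul hs, ρ, hρ, fun x y hxy => ?_⟩
    rw [hz x y hxy, mul_zero]
  · intro ψ' s t h'
    obtain ⟨hs, ρ, hρ, hz⟩ := h
    obtain ⟨hs', ρ', hρ', hz'⟩ := h'
    refine ⟨(contDiff_const.mul hs).add (contDiff_const.mul hs'), max ρ ρ', max_lt hρ hρ',
      fun x y hxy => ?_⟩
    have h1 : ρ ≤ |x| ∨ ρ ≤ |y| :=
      hxy.imp (fun h => (le_max_left _ _).trans h) (fun h => (le_max_left _ _).trans h)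
    have h2 : ρ' ≤ |x| ∨ ρ' ≤ |y| :=
      hxy.imp (fun h => (le_max_right _ _).trans h) (fun h => (le_max_right _ _).trans h)
    rw [hz x y h1, hz' x y h2]
    ring

end Pool.Agent.LIO
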