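import Pool.Agent.LIO.Stmts
import Pool.Agent.LIO.Tfc

/-!
# The amplitudes are admissible
-/

set_option autoImplicit false

namespace Pool.Agent.LIO

open Complex MeasureTheory Set Filter Topology

namespace QOKAux

/-- two moments vanish -/
theorem mom {R : ℝ} {H E p Q b : ℝ → ℂ} (hH : ∀ y, HasDerivAt H (E y) y)
    (hG : ∀ y, HasDerivAt (fun y => p y * E y) (Q y) y) (hb : ∀ y, HasDerivAt b (p y)⁻¹ y)
    (hp : ∀ y, p y ≠ 0) (cQ : Continuous Q)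
    (h1 : H R = 0) (h2 : H (-R) = 0) (h3 : E R = 0) (h4 : E (-R) = 0) :
    ∫ y in (-R)..R, Q y = 0 ∧ ∫ y in (-R)..R, Q y * b y = 0 := by
  have cb : Continuous b := continuous_iff_continuousAt.2 fun y => (hb y).continuousAt
  constructor
  · rw [intervalIntegral.integral_eq_sub_of_hasDerivAt (fun y _ => hG y)
      (cQ.intervalIntegrable _ _)]
    rw [h3, h4]
    ring
  · have hd : ∀ y, HasDerivAt (fun y => (p y * E y) * b y - H y) (Q y * b y) y := by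
      intro y
      have h := ((hG y).mul (hb y)).sub (hH y)
      refine h.congr_deriv ?_
      have := hp y
      field_simp
      ring
    rw [intervalIntegral.integral_eq_sub_of_hasDerivAt (fun y _ => hd y)
      ((cQ.mul cb).intervalIntegrable _ _)]
    rw [h1, h2, h3, h4]
    ring

theorem bd {R : ℝ} {ψ : ℝ → ℝ → ℝ} (h : TF R ψ) : ∃ C, 0 ≤ C ∧ ∀ x y, |ψ x y| ≤ C := by
  obtain ⟨hs, ρ, hρ, hz⟩ := h
  obtain ⟨C, hC⟩ := (isCompact_Icc (a := -R) (b := R)).prod (isCompact_Icc (a := -R) (b := R))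
    |>.exists_bound_of_continuousOn hs.continuous.continuousOn
  refine ⟨max C 0, le_max_right _ _, fun x y => ?_⟩
  by_cases hx : ρ ≤ |x|
  · rw [hz x y (Or.inl hx), abs_zero]
    exact le_max_right _ _
  by_cases hy : ρ ≤ |y|
  · rw [hz x y (Or.inr hy), abs_zero]
    exact le_max_right _ _
  push Not at hx hy
  have h1 := hC (x, y) ⟨abs_le.1 (hx.le.trans hρ.le), abs_le.1 (hy.le.trans hρ.le)⟩
  exact h1.trans (le_max_left _ _)

theorem vanish {R : ℝ} {ψ : ℝ → ℝ → ℝ} (h : TF R ψ) (hR : 0 < R) (x : ℝ) :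
    ψ x R = 0 ∧ ψ x (-R) = 0 := by
  obtain ⟨hs, ρ, hρ, hz⟩ := h
  exact ⟨hz x R (Or.inr (by rw [abs_of_pos hR]; exact hρ.le)),
    hz x (-R) (Or.inr (by rw [abs_neg, abs_of_pos hR]; exact hρ.le))⟩

theorem hd {R : ℝ} {ψ : ℝ → ℝ → ℝ} (h : TF R ψ) (x y : ℝ) :
    HasDerivAt (fun t => ψ x t) (dy ψ x y) y := by
  have h1 : HasFDerivAt (fun z : ℝ × ℝ => ψ z.1 z.2)
      (fderiv ℝ (fun z : ℝ × ℝ => ψ z.1 z.2) (x, y)) (x, y) :=
    ((h.smooth.differentiable (by simp)) (x, y)).hasFDerivAt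
  have h2 : HasDerivAt (fun t : ℝ => ((x, t) : ℝ × ℝ)) ((0 : ℝ), (1 : ℝ)) y :=
    (hasDerivAt_const y x).prodMk (hasDerivAt_id y)
  have h3 := h1.comp_hasDerivAt y h2
  exact h3.differentiableAt.hasDerivAt

theorem hdc {R : ℝ} {ψ : ℝ → ℝ → ℝ} (h : TF R ψ) (x y : ℝ) :
    HasDerivAt (fun t => ((ψ x t : ℝ) : ℂ)) ((dy ψ x y : ℝ) : ℂ) y := (hd h x y).ofReal_comp

theorem cont2 {R : ℝ} {ψ : ℝ → ℝ → ℝ} (h : TF R ψ) :
    Continuous (fun z : ℝ × ℝ => ψ z.1 z.2) := h.smooth.continuous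

theorem contx {R : ℝ} {ψ : ℝ → ℝ → ℝ} (h : TF R ψ) (x : ℝ) : Continuous (fun y => ψ x y) :=
  (cont2 h).comp (Continuous.prodMk_right x)

section

variable (D : LD)

theorem V1 (y : ℝ) : HasDerivAt D.V (deriv D.V y) y :=
  ((D.Vs.differentiable (by simp)) y).hasDerivAt

theorem Vs1 : ContDiff ℝ (⊤ : ℕ∞) (deriv D.V) := by
  have h := D.Vs
  rw [show ((⊤ : ℕ∞) : WithTop ℕ∞) = ((⊤ : ℕ∞) : WithTop ℕ∞) + 1 by simp] at h
  exact (contDiff_succ_iff_deriv.1 h).2.2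

theorem Vs2 : ContDiff ℝ (⊤ : ℕ∞) (deriv (deriv D.V)) := by
  have h := Vs1 D
  rw [show ((⊤ : ℕ∞) : WithTop ℕ∞) = ((⊤ : ℕ∞) : WithTop ℕ∞) + 1 by simp] at h
  exact (contDiff_succ_iff_deriv.1 h).2.2

theorem V2 (y : ℝ) : HasDerivAt (deriv D.V) (deriv (deriv D.V) y) y :=
  (((Vs1 D).differentiable (by simp)) y).hasDerivAt

theorem V1c (y : ℝ) : HasDerivAt (fun t => ((D.V t : ℝ) : ℂ)) ((deriv D.V y : ℝ) : ℂ) y :=
  (V1 D y).ofReal_comp

theorem V2c (y : ℝ) : HasDerivAt (fun t => ((deriv D.V t : ℝ) : ℂ))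
    ((deriv (deriv D.V) y : ℝ) : ℂ) y := (V2 D y).ofReal_comp

theorem Bnn : 0 ≤ D.B := (D.a0.le.trans (D.Va 0)).trans (D.VB 0)

theorem Vn (y : ℝ) : ‖((D.V y : ℝ) : ℂ)‖ ≤ D.B := by
  rw [Complex.norm_real, Real.norm_eq_abs, abs_of_nonneg (D.a0.le.trans (D.Va y))]
  exact D.VB y

theorem Un (x : ℝ) : ‖((D.U x : ℝ) : ℂ)‖ ≤ D.B := by
  rw [Complex.norm_real, Real.norm_eq_abs, abs_of_nonneg (D.a0.le.trans (D.Ua x))]
  exact D.UB x

theorem Vh (h : ℂ) (y : ℝ) : ‖((D.V y : ℝ) : ℂ) + h‖ ≤ D.B + ‖h‖ :=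
  (norm_add_le _ _).trans (add_le_add_left (Vn D y) _)

theorem pyn (B1 : Bas1 D) (h : ℂ) (y : ℝ) : ‖D.py h y‖ ≤ √(D.B + ‖h‖) := by
  rw [B1.py_norm]
  exact Real.sqrt_le_sqrt (Vh D h y)

theorem pxn (B1 : Bas1 D) (h : ℂ) (x : ℝ) : ‖D.px h x‖ ≤ √(D.B + ‖h‖) := by
  rw [B1.px_norm]
  exact Real.sqrt_le_sqrt ((norm_sub_le _ _).trans (add_le_add_left (Un D x) _))

theorem py_ne (B1 : Bas1 D) {h : ℂ} (hh : 0 < h.im ∨ -D.a < h.re) (y : ℝ) : D.py h y ≠ 0 := by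
  have : 0 < (D.py h y).re := by
    rcases hh with hh | hh
    · exact (B1.py_up h y hh).1
    · exact B1.py_low h y hh
  intro h0
  rw [h0] at this
  simp at this

theorem be_hd (B2 : Bas2 D) {h : ℂ} (hh : h.im ≠ 0 ∨ -D.a < h.re) (y y' : ℝ) :
    HasDerivAt (fun y => D.be h y y') (D.py h y)⁻¹ y := by
  have hc := B2.conty h hh
  exact intervalIntegral.integral_hasDerivAt_right (hc.intervalIntegrable _ _)
    (hc.stronglyMeasurableAtFilter _ _) hc.continuousAt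

/-- the common bound -/
theorem nb {A1 A2 A3 A4 C1 C2 C3 C4 B h : ℝ} {t1 t2 t3 t4 : ℝ} {p q w : ℂ} (hA : ‖q‖ ≤ A1)
    (hA2 : ‖p‖ ≤ A2) (h1 : |t1| ≤ C1) (h2 : |t2| ≤ C2) (h3 : |t3| ≤ C3) (h4 : |t4| ≤ C4)
    (hw : ‖w‖ ≤ B + h) (hA3 : A3 = C2 + C3 + (B + h) * C4) (hA4 : A4 = C1 * A1 + A2 * A3)
    (hB : 0 ≤ B + h) (hA20 : 0 ≤ A2) (hC1 : 0 ≤ C1) :
    ‖(t1 : ℂ) * q + p * ((t2 : ℂ) + (t3 : ℂ) + w * (t4 : ℂ))‖ ≤ A4 := by
  have e1 : ‖(t1 : ℂ)‖ ≤ C1 := by rw [Complex.norm_real]; exact h1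
  have e2 : ‖(t2 : ℂ)‖ ≤ C2 := by rw [Complex.norm_real]; exact h2
  have e3 : ‖(t3 : ℂ)‖ ≤ C3 := by rw [Complex.norm_real]; exact h3
  have e4 : ‖(t4 : ℂ)‖ ≤ C4 := by rw [Complex.norm_real]; exact h4
  calc ‖(t1 : ℂ) * q + p * ((t2 : ℂ) + (t3 : ℂ) + w * (t4 : ℂ))‖
      ≤ ‖(t1 : ℂ) * q‖ + ‖p * ((t2 : ℂ) + (t3 : ℂ) + w * (t4 : ℂ))‖ := norm_add_le _ _
    _ = ‖(t1 : ℂ)‖ * ‖q‖ + ‖p‖ * ‖(t2 : ℂ) + (t3 : ℂ) + w * (t4 : ℂ)‖ := by
        rw [norm_mul, norm_mul]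
    _ ≤ C1 * A1 + A2 * A3 := by
        refine add_le_add (mul_le_mul e1 hA (norm_nonneg _) hC1) ?_
        refine mul_le_mul hA2 ?_ (norm_nonneg _) hA20
        rw [hA3]
        refine (norm_add_le _ _).trans (add_le_add ((norm_add_le _ _).trans (add_le_add e2 e3)) ?_)
        rw [norm_mul]
        exact mul_le_mul hw e4 (norm_nonneg _) hB
    _ = A4 := hA4.symm

/-- growth -/
theorem gr {B N : ℝ} (hB : 0 ≤ B) (h1 : 2 * B ≤ N) (h2 : 1 ≤ N) {C1 C2 C3 C4 : ℝ} (c1 : 0 ≤ C1)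
    (c2 : 0 ≤ C2) (c3 : 0 ≤ C3) (c4 : 0 ≤ C4) :
    C1 * 2 + √(B + N) * (C2 + C3 + (B + N) * C4) ≤
      (2 * C1 + 2 * C2 + 2 * C3 + 4 * C4) * N ^ (3 / 2 : ℝ) := by
  have hN : 0 < N := by linarith
  have e : N ^ (3 / 2 : ℝ) = N * √N := by
    rw [show (3 / 2 : ℝ) = 1 + 1 / 2 by norm_num, Real.rpow_add hN, Real.rpow_one,
      Real.sqrt_eq_rpow]
  rw [e]
  have s1 : 1 ≤ √N := by
    rw [show (1 : ℝ) = √1 by simp]
    exact Real.sqrt_le_sqrt h2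
  have s2 : √(B + N) ≤ 2 * √N := by
    rw [Real.sqrt_le_left (by positivity)]
    rw [mul_pow, Real.sq_sqrt hN.le]
    linarith
  have s3 : 1 ≤ N * √N := by nlinarith
  have s4 : √N ≤ N * √N := by nlinarith
  have s5 : √(B + N) * (C2 + C3 + (B + N) * C4) ≤ 2 * √N * (C2 + C3 + 2 * N * C4) := by
    refine mul_le_mul s2 ?_ (by positivity) (by positivity)
    have : (B + N) * C4 ≤ 2 * N * C4 := mul_le_mul_of_nonneg_right (by linarith) c4
    linarith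
  have s6 : C1 * 2 ≤ 2 * C1 * (N * √N) := by nlinarith
  have s7 : √N * C2 ≤ C2 * (N * √N) := by nlinarith
  have s8 : √N * C3 ≤ C3 * (N * √N) := by nlinarith
  nlinarith

theorem py_inv_grow (B1 : Bas1 D) {h : ℂ} (h1 : 2 * D.B ≤ ‖h‖) (h2 : 1 ≤ ‖h‖) (y : ℝ) :
    ‖(D.py h y)⁻¹‖ ≤ 2 := by
  rw [norm_inv, B1.py_norm]
  have e1 : 1 / 2 ≤ ‖((D.V y : ℝ) : ℂ) + h‖ := by
    have e2 : ‖h‖ ≤ ‖((D.V y : ℝ) : ℂ) + h‖ + ‖((D.V y : ℝ) : ℂ)‖ := by
      calc ‖h‖ = ‖(((D.V y : ℝ) : ℂ) + h) - ((D.V y : ℝ) : ℂ)‖ := by congr 1; ring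
        _ ≤ _ := norm_sub_le _ _
    have e3 := Vn D y
    linarith
  have e4 : 1 / 2 ≤ √‖((D.V y : ℝ) : ℂ) + h‖ := by
    refine Real.le_sqrt_of_sq_le ?_
    norm_num
    linarith
  calc (√‖((D.V y : ℝ) : ℂ) + h‖)⁻¹ ≤ (1 / 2 : ℝ)⁻¹ := inv_anti₀ (by norm_num) e4
    _ = 2 := by norm_num

end

/-- the terms -/
structure Tm (D : LD) (ψ : ℝ → ℝ → ℝ) (C : ℝ) : Prop where
  nn : 0 ≤ C
  t0 : ∀ x y, |ψ x y| ≤ C
  t1 : ∀ x y, |1 / 2 * (deriv D.V y ^ 2 * ψ x y)| ≤ C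
  t2 : ∀ x y, |deriv (deriv D.V) y * ψ x y| ≤ C
  t2' : ∀ x y, |deriv (deriv D.V) y / 2 * ψ x y| ≤ C
  t3 : ∀ x y, |5 / 2 * deriv D.V y * dy ψ x y| ≤ C
  t3' : ∀ x y, |3 / 2 * deriv D.V y * dy ψ x y| ≤ C
  t4 : ∀ x y, |dy (dy ψ) x y| ≤ C

theorem tm (D : LD) {ψ : ℝ → ℝ → ℝ} (h : TF D.R ψ) : ∃ C, Tm D ψ C := by
  have hdy := (tfc D.R ψ h).2.1
  have hdd := (tfc D.R _ hdy).2.1
  have g1 : ContDiff ℝ (⊤ : ℕ∞) (fun z : ℝ × ℝ => 1 / 2 * (deriv D.V z.2) ^ 2) :=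
    contDiff_const.mul (((Vs1 D).comp contDiff_snd).pow 2)
  have g2 : ContDiff ℝ (⊤ : ℕ∞) (fun z : ℝ × ℝ => deriv (deriv D.V) z.2) :=
    (Vs2 D).comp contDiff_snd
  have g2' : ContDiff ℝ (⊤ : ℕ∞) (fun z : ℝ × ℝ => deriv (deriv D.V) z.2 / 2) :=
    g2.div_const 2
  have g3 : ContDiff ℝ (⊤ : ℕ∞) (fun z : ℝ × ℝ => 5 / 2 * deriv D.V z.2) :=
    contDiff_const.mul ((Vs1 D).comp contDiff_snd)
  have g3' : ContDiff ℝ (⊤ : ℕ∞) (fun z : ℝ × ℝ => 3 / 2 * deriv D.V z.2) :=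
    contDiff_const.mul ((Vs1 D).comp contDiff_snd)
  obtain ⟨C0, c0, H0⟩ := bd h
  obtain ⟨C1, c1, H1⟩ := bd ((tfc D.R ψ h).2.2.2.1 (fun _ y => 1 / 2 * (deriv D.V y) ^ 2) g1)
  obtain ⟨C2, c2, H2⟩ := bd ((tfc D.R ψ h).2.2.2.1 (fun _ y => deriv (deriv D.V) y) g2)
  obtain ⟨C2', c2', H2'⟩ := bd ((tfc D.R ψ h).2.2.2.1 (fun _ y => deriv (deriv D.V) y / 2) g2')
  obtain ⟨C3, c3, H3⟩ := bd ((tfc D.R _ hdy).2.2.2.1 (fun _ y => 5 / 2 * deriv D.V y) g3)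
  obtain ⟨C3', c3', H3'⟩ := bd ((tfc D.R _ hdy).2.2.2.1 (fun _ y => 3 / 2 * deriv D.V y) g3')
  obtain ⟨C4, c4, H4⟩ := bd hdd
  refine ⟨C0 + C1 + C2 + C2' + C3 + C3' + C4, by positivity, ?_, ?_, ?_, ?_, ?_, ?_, ?_⟩
  · intro x y
    have := H0 x y
    linarith
  · intro x y
    have := H1 x y
    rw [show 1 / 2 * (deriv D.V y ^ 2 * ψ x y) = 1 / 2 * (deriv D.V y) ^ 2 * ψ x y by ring]
    linarith
  · intro x y
    have := H2 x y
    linarith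
  · intro x y
    have := H2' x y
    linarith
  · intro x y
    have := H3 x y
    linarith
  · intro x y
    have := H3' x y
    linarith
  · intro x y
    have := H4 x y
    linarith

theorem QS_eq (D : LD) (ψ : ℝ → ℝ → ℝ) (h : ℂ) (x y : ℝ) : D.QS ψ h x y =
    ((1 / 2 * (deriv D.V y ^ 2 * ψ x y) : ℝ) : ℂ) * (D.py h y)⁻¹ + D.py h y *
      (((deriv (deriv D.V) y * ψ x y : ℝ) : ℂ) + ((5 / 2 * deriv D.V y * dy ψ x y : ℝ) : ℂ) +
        ((D.V y : ℂ) + h) * (dy (dy ψ) x y : ℝ)) := by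
  unfold LD.QS
  push_cast
  rw [div_eq_mul_inv, mul_inv]
  ring

theorem QP_eq (D : LD) (ψ : ℝ → ℝ → ℝ) (h : ℂ) (x y : ℝ) : D.QP ψ h x y =
    ((0 : ℝ) : ℂ) * (D.py h y)⁻¹ + D.px h x *
      (((deriv (deriv D.V) y / 2 * ψ x y : ℝ) : ℂ) + ((3 / 2 * deriv D.V y * dy ψ x y : ℝ) : ℂ) +
        ((D.V y : ℂ) + h) * (dy (dy ψ) x y : ℝ)) := by
  unfold LD.QP
  push_cast
  ring

section

variable {D : LD} {ψ : ℝ → ℝ → ℝ}

/-- continuity of the real coefficients -/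
theorem creal (hψ : TF D.R ψ) :
    Continuous (fun z : ℝ × ℝ => 1 / 2 * (deriv D.V z.2 ^ 2 * ψ z.1 z.2)) ∧
    Continuous (fun z : ℝ × ℝ => deriv (deriv D.V) z.2 * ψ z.1 z.2) ∧
    Continuous (fun z : ℝ × ℝ => deriv (deriv D.V) z.2 / 2 * ψ z.1 z.2) ∧
    Continuous (fun z : ℝ × ℝ => 5 / 2 * deriv D.V z.2 * dy ψ z.1 z.2) ∧
    Continuous (fun z : ℝ × ℝ => 3 / 2 * deriv D.V z.2 * dy ψ z.1 z.2) ∧
    Continuous (fun z : ℝ × ℝ => dy (dy ψ) z.1 z.2) := by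
  have hdy := (tfc D.R ψ hψ).2.1
  have hdd := (tfc D.R _ hdy).2.1
  have v1 : Continuous (fun z : ℝ × ℝ => deriv D.V z.2) :=
    (Vs1 D).continuous.comp continuous_snd
  have v2 : Continuous (fun z : ℝ × ℝ => deriv (deriv D.V) z.2) :=
    (Vs2 D).continuous.comp continuous_snd
  have p0 := cont2 hψ
  have p1 := cont2 hdy
  have p2 := cont2 hdd
  exact ⟨continuous_const.mul ((v1.pow 2).mul p0), v2.mul p0, (v2.div_const 2).mul p0,
    (continuous_const.mul v1).mul p1, (continuous_const.mul v1).mul p1, p2⟩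

theorem cc {f : ℝ × ℝ → ℝ} (hf : Continuous f) : Measurable (fun z => ((f z : ℝ) : ℂ)) :=
  Complex.measurable_ofReal.comp hf.measurable

theorem cx {f : ℝ × ℝ → ℝ} (hf : Continuous f) (x : ℝ) :
    Continuous (fun y => ((f (x, y) : ℝ) : ℂ)) :=
  Complex.continuous_ofReal.comp (hf.comp (Continuous.prodMk_right x))

theorem vh_meas (h : ℂ) : Measurable (fun z : ℝ × ℝ => (D.V z.2 : ℂ) + h) :=
  (cc (f := fun z => D.V z.2) (D.Vs.continuous.comp continuous_snd)).add_const h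

theorem vh_cont (h : ℂ) : Continuous (fun y : ℝ => (D.V y : ℂ) + h) :=
  (Complex.continuous_ofReal.comp D.Vs.continuous).add continuous_const

theorem qs (B1 : Bas1 D) (B2 : Bas2 D) (hψ : TF D.R ψ) : D.QOK (D.QS ψ) := by
  have hdy := (tfc D.R ψ hψ).2.1
  have hR : 0 < D.R := D.r0.trans D.rR
  obtain ⟨C, T⟩ := tm D hψ
  obtain ⟨k1, k2, -, k3, -, k4⟩ := creal hψ
  have hB := Bnn D
  have hmom : ∀ (h : ℂ) (x : ℝ), 0 ≤ h.im → (0 < h.im ∨ -D.a < h.re) → ∀ y' : ℝ,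
      ∫ y in (-D.R)..D.R, D.QS ψ h x y = 0 ∧
        ∫ y in (-D.R)..D.R, D.QS ψ h x y * D.be h y y' = 0 := by
    intro h x _ hh y'
    have hh' : h.im ≠ 0 ∨ -D.a < h.re := hh.imp (fun h => h.ne') id
    have hne := py_ne D B1 hh
    have hV := V1c D
    have hH : ∀ y, HasDerivAt (fun y => ((D.V y : ℂ) + h) * ((ψ x y : ℝ) : ℂ))
        (((deriv D.V y : ℝ) : ℂ) * ((ψ x y : ℝ) : ℂ) + ((D.V y : ℂ) + h) *
          ((dy ψ x y : ℝ) : ℂ)) y := fun y =>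
      ((hV y).add_const h).mul (hdc hψ x y)
    have hG : ∀ y, HasDerivAt (fun y => D.py h y * (((deriv D.V y : ℝ) : ℂ) * ((ψ x y : ℝ) : ℂ) +
        ((D.V y : ℂ) + h) * ((dy ψ x y : ℝ) : ℂ))) (D.QS ψ h x y) y := by
      intro y
      have e := (B1.py_hd h y hh').mul ((((V2c D y).mul (hdc hψ x y))).add
        (((hV y).add_const h).mul (hdc hdy x y)))
      refine e.congr_deriv ?_
      simp only [Pi.add_apply, Pi.mul_apply]
      have hsq := B1.py_sq h y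
      have hn := hne y
      rw [← hsq]
      unfold LD.QS
      rw [← hsq]
      push_cast
      field_simp
      ring
    obtain ⟨v1, v2⟩ := vanish hψ hR x
    obtain ⟨v3, v4⟩ := vanish hdy hR x
    refine mom hH hG (fun y => be_hd D B2 hh' y y') hne ?_ ?_ ?_ ?_ ?_
    · have e : D.QS ψ h x = fun y => ((1 / 2 * (deriv D.V y ^ 2 * ψ x y) : ℝ) : ℂ) *
          (D.py h y)⁻¹ + D.py h y * (((deriv (deriv D.V) y * ψ x y : ℝ) : ℂ) +
          ((5 / 2 * deriv D.V y * dy ψ x y : ℝ) : ℂ) +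
          ((D.V y : ℂ) + h) * (dy (dy ψ) x y : ℝ)) := funext fun y => QS_eq D ψ h x y
      rw [e]
      exact ((cx k1 x).mul ((B1.py_cont h).inv₀ hne)).add ((B1.py_cont h).mul
        (((cx k2 x).add (cx k3 x)).add ((vh_cont h).mul (cx k4 x))))
    · simp [v1]
    · simp [v2]
    · simp [v1, v3]
    · simp [v2, v4]
  refine ⟨?_, ?_, ?_, ?_, ?_, ?_, ?_, ?_, ?_⟩
  · -- measurability
    intro h
    simp only [QS_eq]
    have hp : Measurable (fun z : ℝ × ℝ => D.py h z.2) :=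
      (B1.py_cont h).measurable.comp measurable_snd
    exact ((cc k1).mul hp.inv).add (hp.mul (((cc k2).add (cc k3)).add ((vh_meas h).mul (cc k4))))
  · intro h x _ hh
    have hne := py_ne D B1 hh
    have e : (fun y => D.QS ψ h x y) = fun y => ((1 / 2 * (deriv D.V y ^ 2 * ψ x y) : ℝ) : ℂ) *
          (D.py h y)⁻¹ + D.py h y * (((deriv (deriv D.V) y * ψ x y : ℝ) : ℂ) +
          ((5 / 2 * deriv D.V y * dy ψ x y : ℝ) : ℂ) +
          ((D.V y : ℂ) + h) * (dy (dy ψ) x y : ℝ)) := funext fun y => QS_eq D ψ h x y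
    rw [e]
    exact ((cx k1 x).mul ((B1.py_cont h).inv₀ hne)).add ((B1.py_cont h).mul
      (((cx k2 x).add (cx k3 x)).add ((vh_cont h).mul (cx k4 x))))
  · intro h x y hh
    have hne := py_ne D B1 (Or.inl hh) y
    have hp := B1.py_diff h y (Or.inl hh.ne')
    simp only [QS_eq]
    exact ((differentiableAt_const _).mul (hp.inv hne)).add (hp.mul
      ((differentiableAt_const _).add (((differentiableAt_const _).add differentiableAt_id).mul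
        (differentiableAt_const _))))
  · intro k x y hk
    have hne : D.py k y ≠ 0 := py_ne D B1 (Or.inr (by simpa using hk)) y
    have hp := B1.py_lim k y
    have hk' : Tendsto (fun ε : ℝ => (k : ℂ) + ε * I) (𝓝[>] 0) (𝓝 (k : ℂ)) := by
      have h1 : Continuous (fun ε : ℝ => (k : ℂ) + ε * I) := by fun_prop
      have h2 := h1.tendsto 0
      simp only [Complex.ofReal_zero, zero_mul, add_zero] at h2
      exact h2.mono_left nhdsWithin_le_nhds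
    simp only [QS_eq]
    exact ((tendsto_const_nhds.mul (hp.inv₀ hne))).add (hp.mul (tendsto_const_nhds.add
      ((tendsto_const_nhds.add hk').mul tendsto_const_nhds)))
  · intro K η hη
    refine ⟨C * (√η)⁻¹ + √(D.B + K) * (C + C + (D.B + K) * C), ?_⟩
    intro h x y hh hK
    rw [QS_eq]
    have hn := norm_nonneg h
    have e1 : ‖(D.py h y)⁻¹‖ ≤ (√η)⁻¹ :=
      (B1.pyi_im h y (hη.trans_le hh)).trans
        (inv_anti₀ (Real.sqrt_pos.2 hη) (Real.sqrt_le_sqrt hh))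
    have e2 : ‖D.py h y‖ ≤ √(D.B + K) :=
      (pyn D B1 h y).trans (Real.sqrt_le_sqrt (by linarith))
    exact nb e1 e2 (T.t1 x y) (T.t2 x y) (T.t3 x y) (T.t4 x y)
      ((Vh D h y).trans (by linarith)) rfl rfl (by linarith) (Real.sqrt_nonneg _) T.nn
  · intro K η hη
    refine ⟨C * (√η)⁻¹ + √(D.B + K) * (C + C + (D.B + K) * C), ?_⟩
    intro h x y _ hh hK
    rw [QS_eq]
    have hn := norm_nonneg h
    have e1 : ‖(D.py h y)⁻¹‖ ≤ (√η)⁻¹ :=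
      (B1.pyi_low h y (by linarith)).trans
        (inv_anti₀ (Real.sqrt_pos.2 hη) (Real.sqrt_le_sqrt (by linarith)))
    have e2 : ‖D.py h y‖ ≤ √(D.B + K) :=
      (pyn D B1 h y).trans (Real.sqrt_le_sqrt (by linarith))
    exact nb e1 e2 (T.t1 x y) (T.t2 x y) (T.t3 x y) (T.t4 x y)
      ((Vh D h y).trans (by linarith)) rfl rfl (by linarith) (Real.sqrt_nonneg _) T.nn
  · refine ⟨2 * C + 2 * C + 2 * C + 4 * C, ?_⟩
    intro h x y _ h1 h2
    rw [QS_eq]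
    exact (nb (py_inv_grow D B1 h1 h2 y) (pyn D B1 h y) (T.t1 x y) (T.t2 x y) (T.t3 x y)
      (T.t4 x y) (Vh D h y) rfl rfl (by linarith) (Real.sqrt_nonneg _) T.nn).trans
      (gr hB h1 h2 T.nn T.nn T.nn T.nn)
  · intro h x h0 hh
    exact (hmom h x h0 hh 0).1
  · intro h x y' h0 hh
    exact (hmom h x h0 hh y').2

theorem qp (B1 : Bas1 D) (B2 : Bas2 D) (hψ : TF D.R ψ) : D.QOK (D.QP ψ) := by
  have hdy := (tfc D.R ψ hψ).2.1
  have hR : 0 < D.R := D.r0.trans D.rR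
  obtain ⟨C, T⟩ := tm D hψ
  obtain ⟨k1, -, k2, -, k3, k4⟩ := creal hψ
  have hB := Bnn D
  have h0C : |(0 : ℝ)| ≤ C := by rw [abs_zero]; exact T.nn
  have hcont : ∀ (h : ℂ) (x : ℝ), Continuous (fun y => D.QP ψ h x y) := by
    intro h x
    have e : (fun y => D.QP ψ h x y) = fun y => ((0 : ℝ) : ℂ) *
          (D.py h y)⁻¹ + D.px h x * (((deriv (deriv D.V) y / 2 * ψ x y : ℝ) : ℂ) +
          ((3 / 2 * deriv D.V y * dy ψ x y : ℝ) : ℂ) +
          ((D.V y : ℂ) + h) * (dy (dy ψ) x y : ℝ)) := funext fun y => QP_eq D ψ h x y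
    rw [e]
    simp only [Complex.ofReal_zero, zero_mul, zero_add]
    exact continuous_const.mul
      (((cx k2 x).add (cx k3 x)).add ((vh_cont h).mul (cx k4 x)))
  have hmom : ∀ (h : ℂ) (x : ℝ), 0 ≤ h.im → (0 < h.im ∨ -D.a < h.re) → ∀ y' : ℝ,
      ∫ y in (-D.R)..D.R, D.QP ψ h x y = 0 ∧
        ∫ y in (-D.R)..D.R, D.QP ψ h x y * D.be h y y' = 0 := by
    intro h x _ hh y'
    have hh' : h.im ≠ 0 ∨ -D.a < h.re := hh.imp (fun h => h.ne') id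
    have hne := py_ne D B1 hh
    have hV := V1c D
    have hH : ∀ y, HasDerivAt (fun y => D.px h x * (D.py h y * ((ψ x y : ℝ) : ℂ)))
        (D.px h x * (((deriv D.V y : ℝ) : ℂ) / (2 * D.py h y) * ((ψ x y : ℝ) : ℂ) + D.py h y *
          ((dy ψ x y : ℝ) : ℂ))) y := fun y =>
      ((B1.py_hd h y hh').mul (hdc hψ x y)).const_mul _
    have hG : ∀ y, HasDerivAt (fun y => D.py h y * (D.px h x * (((deriv D.V y : ℝ) : ℂ) /
        (2 * D.py h y) * ((ψ x y : ℝ) : ℂ) + D.py h y * ((dy ψ x y : ℝ) : ℂ))))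
        (D.QP ψ h x y) y := by
      intro y
      have e1 : (fun y => D.py h y * (D.px h x * (((deriv D.V y : ℝ) : ℂ) /
          (2 * D.py h y) * ((ψ x y : ℝ) : ℂ) + D.py h y * ((dy ψ x y : ℝ) : ℂ)))) =
          fun y => D.px h x * (((deriv D.V y : ℝ) : ℂ) * ((ψ x y : ℝ) : ℂ) / 2 +
            ((D.V y : ℂ) + h) * ((dy ψ x y : ℝ) : ℂ)) := by
        funext y
        have hsq := B1.py_sq h y
        have hn := hne y
        rw [← hsq]
        field_simp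
      rw [e1]
      have e := ((((V2c D y).mul (hdc hψ x y)).div_const 2).add
        (((hV y).add_const h).mul (hdc hdy x y))).const_mul (D.px h x)
      refine e.congr_deriv ?_
      try simp only [Pi.add_apply, Pi.mul_apply]
      unfold LD.QP
      push_cast
      ring
    obtain ⟨v1, v2⟩ := vanish hψ hR x
    obtain ⟨v3, v4⟩ := vanish hdy hR x
    refine mom hH hG (fun y => be_hd D B2 hh' y y') hne (hcont h x) ?_ ?_ ?_ ?_
    · simp [v1]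
    · simp [v2]
    · simp [v1, v3]
    · simp [v2, v4]
  refine ⟨?_, ?_, ?_, ?_, ?_, ?_, ?_, ?_, ?_⟩
  · -- measurability
    intro h
    simp only [QP_eq]
    have hp : Measurable (fun z : ℝ × ℝ => D.py h z.2) :=
      (B1.py_cont h).measurable.comp measurable_snd
    have hq : Measurable (fun z : ℝ × ℝ => D.px h z.1) :=
      (B1.px_cont h).measurable.comp measurable_fst
    exact (measurable_const.mul hp.inv).add
      (hq.mul (((cc k2).add (cc k3)).add ((vh_meas h).mul (cc k4))))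
  · intro h x _ _
    exact hcont h x
  · intro h x y hh
    have hp := B1.px_diff h x (Or.inl hh.ne')
    simp only [QP_eq, Complex.ofReal_zero, zero_mul, zero_add]
    exact hp.mul
      ((differentiableAt_const _).add (((differentiableAt_const _).add differentiableAt_id).mul
        (differentiableAt_const _)))
  · intro k x y hk
    have hp := B1.px_lim k x
    have hk' : Tendsto (fun ε : ℝ => (k : ℂ) + ε * I) (𝓝[>] 0) (𝓝 (k : ℂ)) := by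
      have h1 : Continuous (fun ε : ℝ => (k : ℂ) + ε * I) := by fun_prop
      have h2 := h1.tendsto 0
      simp only [Complex.ofReal_zero, zero_mul, add_zero] at h2
      exact h2.mono_left nhdsWithin_le_nhds
    simp only [QP_eq, Complex.ofReal_zero, zero_mul, zero_add]
    exact hp.mul (tendsto_const_nhds.add
      ((tendsto_const_nhds.add hk').mul tendsto_const_nhds))
  · intro K η hη
    refine ⟨C * (√η)⁻¹ + √(D.B + K) * (C + C + (D.B + K) * C), ?_⟩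
    intro h x y hh hK
    rw [QP_eq]
    have hn := norm_nonneg h
    have e1 : ‖(D.py h y)⁻¹‖ ≤ (√η)⁻¹ :=
      (B1.pyi_im h y (hη.trans_le hh)).trans
        (inv_anti₀ (Real.sqrt_pos.2 hη) (Real.sqrt_le_sqrt hh))
    have e2 : ‖D.px h x‖ ≤ √(D.B + K) :=
      (pxn D B1 h x).trans (Real.sqrt_le_sqrt (by linarith))
    exact nb e1 e2 h0C (T.t2' x y) (T.t3' x y) (T.t4 x y)
      ((Vh D h y).trans (by linarith)) rfl rfl (by linarith) (Real.sqrt_nonneg _) T.nn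
  · intro K η hη
    refine ⟨C * (√η)⁻¹ + √(D.B + K) * (C + C + (D.B + K) * C), ?_⟩
    intro h x y _ hh hK
    rw [QP_eq]
    have hn := norm_nonneg h
    have e1 : ‖(D.py h y)⁻¹‖ ≤ (√η)⁻¹ :=
      (B1.pyi_low h y (by linarith)).trans
        (inv_anti₀ (Real.sqrt_pos.2 hη) (Real.sqrt_le_sqrt (by linarith)))
    have e2 : ‖D.px h x‖ ≤ √(D.B + K) :=
      (pxn D B1 h x).trans (Real.sqrt_le_sqrt (by linarith))
    exact nb e1 e2 h0C (T.t2' x y) (T.t3' x y) (T.t4 x y)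
      ((Vh D h y).trans (by linarith)) rfl rfl (by linarith) (Real.sqrt_nonneg _) T.nn
  · refine ⟨2 * C + 2 * C + 2 * C + 4 * C, ?_⟩
    intro h x y _ h1 h2
    rw [QP_eq]
    exact (nb (py_inv_grow D B1 h1 h2 y) (pxn D B1 h x) h0C (T.t2' x y) (T.t3' x y)
      (T.t4 x y) (Vh D h y) rfl rfl (by linarith) (Real.sqrt_nonneg _) T.nn).trans
      (gr hB h1 h2 T.nn T.nn T.nn T.nn)
  · intro h x h0 hh
    exact (hmom h x h0 hh 0).1
  · intro h x y' h0 hh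
    exact (hmom h x h0 hh y').2

end

end QOKAux

theorem qok (hB1 : Stmt_BAS1) (hB2 : Stmt_BAS2) (hB3 : Stmt_BAS3) : Stmt_QOK := by
  intro D ψ hψ
  clear hB3
  exact ⟨QOKAux.qs (hB1 D) (hB2 D) hψ, QOKAux.qp (hB1 D) (hB2 D) hψ⟩

end Pool.Agent.LIO
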