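import Pool.Agent.LIO.Stmts

/-!
# The first relation between the functionals
-/

set_option autoImplicit false

namespace Pool.Agent.LIO

open Complex MeasureTheory Set Filter Topology

namespace R1Aux

/-- derivative of a smooth function of two variables in the first variable -/
lemma hasDerivAt_dx {χ : ℝ → ℝ → ℝ} (hχ : ContDiff ℝ (⊤ : ℕ∞) (fun z : ℝ × ℝ => χ z.1 z.2))
    (x y : ℝ) : HasDerivAt (fun t => χ t y) (dx χ x y) x := by
  have h1 : Differentiable ℝ (fun t : ℝ => χ t y) := by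
    have h2 : ContDiff ℝ (⊤ : ℕ∞) (fun t : ℝ => χ t y) :=
      hχ.comp (contDiff_id.prodMk contDiff_const)
    exact h2.differentiable (by simp)
  exact (h1 x).hasDerivAt

lemma hasDerivAt_dy {χ : ℝ → ℝ → ℝ} (hχ : ContDiff ℝ (⊤ : ℕ∞) (fun z : ℝ × ℝ => χ z.1 z.2))
    (x y : ℝ) : HasDerivAt (fun t => χ x t) (dy χ x y) y := by
  have h1 : Differentiable ℝ (fun t : ℝ => χ x t) := by
    have h2 : ContDiff ℝ (⊤ : ℕ∞) (fun t : ℝ => χ x t) :=
      hχ.comp (contDiff_const.prodMk contDiff_id)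
    exact h2.differentiable (by simp)
  exact (h1 y).hasDerivAt

/-- differentiation under the integral sign -/
lemma hasDerivAt_int {χ : ℝ → ℝ → ℝ} (hχ : ContDiff ℝ (⊤ : ℕ∞) (fun z : ℝ × ℝ => χ z.1 z.2))
    (hdx : Continuous (fun z : ℝ × ℝ => dx χ z.1 z.2)) {w : ℝ → ℂ} (hw : Continuous w) (R x : ℝ) :
    HasDerivAt (fun t => ∫ y in (-R)..R, (χ t y : ℂ) * w y)
      (∫ y in (-R)..R, (dx χ x y : ℂ) * w y) x := by
  have hcχ : Continuous (fun z : ℝ × ℝ => χ z.1 z.2) := hχ.continuous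
  have hc1 : ∀ t, Continuous (fun y => (χ t y : ℂ) * w y) := fun t =>
    (continuous_ofReal.comp (hcχ.comp (continuous_const.prodMk continuous_id))).mul hw
  have hc2 : ∀ t, Continuous (fun y => (dx χ t y : ℂ) * w y) := fun t =>
    (continuous_ofReal.comp (hdx.comp (continuous_const.prodMk continuous_id))).mul hw
  have hc3 : Continuous (fun z : ℝ × ℝ => (dx χ z.1 z.2 : ℂ) * w z.2) :=
    (continuous_ofReal.comp hdx).mul (hw.comp continuous_snd)
  obtain ⟨C, hC⟩ := ((isCompact_closedBall x 1).prod (isCompact_uIcc (a := -R)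
    (b := R))).exists_bound_of_continuousOn hc3.continuousOn
  refine (intervalIntegral.hasDerivAt_integral_of_dominated_loc_of_deriv_le
    (F := fun t y => (χ t y : ℂ) * w y) (F' := fun t y => (dx χ t y : ℂ) * w y)
    (bound := fun _ => C) (s := Metric.ball x 1) (Metric.ball_mem_nhds x one_pos) ?_ ?_ ?_ ?_ ?_
    ?_).2
  · exact Eventually.of_forall fun t => (hc1 t).aestronglyMeasurable
  · exact (hc1 x).intervalIntegrable _ _
  · exact (hc2 x).aestronglyMeasurable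
  · refine Eventually.of_forall fun y hy t ht => ?_
    exact hC (t, y) ⟨Metric.ball_subset_closedBall ht, uIoc_subset_uIcc hy⟩
  · exact intervalIntegrable_const
  · refine Eventually.of_forall fun y _ t _ => ?_
    exact ((hasDerivAt_dx hχ t y).ofReal_comp).mul_const (w y)

variable (D : LD)

section Level

variable {k : ℝ}

lemma px_cont (hB1 : Stmt_BAS1) : Continuous (fun x => D.px (k : ℂ) x) := (hB1 D).px_cont _

lemma px_ne (hB1 : Stmt_BAS1) (hk : |k| < D.a) (x : ℝ) : D.px (k : ℂ) x ≠ 0 := by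
  intro h
  have h1 := (hB1 D).px_low (k : ℂ) x (by simpa using (abs_lt.mp hk).2)
  rw [h] at h1
  simp at h1

lemma py_ne (hB1 : Stmt_BAS1) (hk : |k| < D.a) (y : ℝ) : D.py (k : ℂ) y ≠ 0 := by
  intro h
  have h1 := (hB1 D).py_low (k : ℂ) y (by simpa using (abs_lt.mp hk).1)
  rw [h] at h1
  simp at h1

lemma pxi_cont (hB1 : Stmt_BAS1) (hk : |k| < D.a) : Continuous (fun x => (D.px (k : ℂ) x)⁻¹) :=
  ((hB1 D).px_cont _).inv₀ (px_ne D hB1 hk)

lemma pyi_cont (hB1 : Stmt_BAS1) (hk : |k| < D.a) : Continuous (fun y => (D.py (k : ℂ) y)⁻¹) :=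
  ((hB1 D).py_cont _).inv₀ (py_ne D hB1 hk)

lemma BB_hd (hB1 : Stmt_BAS1) (hk : |k| < D.a) (y : ℝ) :
    HasDerivAt (fun t => D.BB (k : ℂ) t) (D.py (k : ℂ) y)⁻¹ y :=
  ((pyi_cont D hB1 hk).integral_hasStrictDerivAt (-D.R) y).hasDerivAt

lemma AA_hd (hB1 : Stmt_BAS1) (hk : |k| < D.a) (x : ℝ) :
    HasDerivAt (fun t => D.AA (k : ℂ) t) (D.px (k : ℂ) x)⁻¹ x :=
  ((pxi_cont D hB1 hk).integral_hasStrictDerivAt (-D.R) x).hasDerivAt

lemma BB_cont (hB1 : Stmt_BAS1) (hk : |k| < D.a) : Continuous (fun y => D.BB (k : ℂ) y) :=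
  continuous_iff_continuousAt.mpr fun y => (BB_hd D hB1 hk y).continuousAt

lemma AA_cont (hB1 : Stmt_BAS1) (hk : |k| < D.a) : Continuous (fun x => D.AA (k : ℂ) x) :=
  continuous_iff_continuousAt.mpr fun x => (AA_hd D hB1 hk x).continuousAt

lemma AA_sub (hB1 : Stmt_BAS1) (hk : |k| < D.a) (x x' : ℝ) :
    ∫ s in x..x', (D.px (k : ℂ) s)⁻¹ = D.AA (k : ℂ) x' - D.AA (k : ℂ) x := by
  have hc := pxi_cont D hB1 hk
  rw [LD.AA, LD.AA, intervalIntegral.integral_interval_sub_left (hc.intervalIntegrable _ _)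
    (hc.intervalIntegrable _ _)]

/-- the weight in `cS` -/
lemma w_cont (hB1 : Stmt_BAS1) (hk : |k| < D.a) (ω : ℝ) :
    Continuous (fun y => D.py (k : ℂ) y * cexp (I * ω * D.BB (k : ℂ) y)) :=
  ((hB1 D).py_cont _).mul (continuous_exp.comp (continuous_const.mul (BB_cont D hB1 hk)))

/-- `c0[∂_y((V+k)ψ)] = -iω cS[ψ]` -/
lemma c0_dy (hB1 : Stmt_BAS1) (hT : Stmt_TFC) (hk : |k| < D.a) {ψ : ℝ → ℝ → ℝ} (hψ : TF D.R ψ)
    (ω x : ℝ) : D.c0 (dy (fun x y => (D.V y + k) * ψ x y)) k ω x = -(I * ω * D.cS ψ k ω x) := by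
  have hχ : TF D.R (fun x y => (D.V y + k) * ψ x y) :=
    (hT D.R ψ hψ).2.2.2.1 (fun _ y => D.V y + k)
      ((D.Vs.comp contDiff_snd).add contDiff_const)
  have hdχ := (hT D.R _ hχ).2.1
  set χ : ℝ → ℝ → ℝ := fun x y => (D.V y + k) * ψ x y with hχdef
  have hu : ∀ y, HasDerivAt (fun t => ((χ x t : ℝ) : ℂ)) ((dy χ x y : ℝ) : ℂ) y := fun y =>
    (hasDerivAt_dy hχ.smooth x y).ofReal_comp
  have hv : ∀ y, HasDerivAt (fun t => cexp (I * ω * D.BB (k : ℂ) t))
      (cexp (I * ω * D.BB (k : ℂ) y) * (I * ω * (D.py (k : ℂ) y)⁻¹)) y := fun y =>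
    ((BB_hd D hB1 hk y).const_mul (I * (ω : ℂ))).cexp
  have hc1 : Continuous (fun y => ((dy χ x y : ℝ) : ℂ)) :=
    continuous_ofReal.comp (hdχ.smooth.continuous.comp (continuous_const.prodMk continuous_id))
  have hc2 : Continuous (fun y => cexp (I * ω * D.BB (k : ℂ) y) *
      (I * ω * (D.py (k : ℂ) y)⁻¹)) :=
    (continuous_exp.comp (continuous_const.mul (BB_cont D hB1 hk))).mul
      (continuous_const.mul (pyi_cont D hB1 hk))
  have hib := intervalIntegral.integral_deriv_mul_eq_sub (a := -D.R) (b := D.R)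
    (fun y _ => hu y) (fun y _ => hv y) (hc1.intervalIntegrable _ _) (hc2.intervalIntegrable _ _)
  obtain ⟨ρ, hρ, hsupp⟩ := hχ.supp
  have e1 : χ x D.R = 0 := hsupp x D.R (Or.inr (by
    have := le_abs_self D.R
    linarith))
  have e2 : χ x (-D.R) = 0 := hsupp x (-D.R) (Or.inr (by
    rw [abs_neg]
    have := le_abs_self D.R
    linarith))
  rw [e1, e2] at hib
  simp only [ofReal_zero, zero_mul, sub_zero] at hib
  have hc3 : Continuous (fun y => ((dy χ x y : ℝ) : ℂ) * cexp (I * ω * D.BB (k : ℂ) y)) :=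
    hc1.mul (continuous_exp.comp (continuous_const.mul (BB_cont D hB1 hk)))
  have hc4 : Continuous (fun y => ((χ x y : ℝ) : ℂ) * (cexp (I * ω * D.BB (k : ℂ) y) *
      (I * ω * (D.py (k : ℂ) y)⁻¹))) :=
    (continuous_ofReal.comp (hχ.smooth.continuous.comp
      (continuous_const.prodMk continuous_id))).mul hc2
  rw [intervalIntegral.integral_add (hc3.intervalIntegrable _ _) (hc4.intervalIntegrable _ _)]
    at hib
  rw [LD.c0, eq_neg_of_add_eq_zero_left hib, LD.cS, ← intervalIntegral.integral_const_mul]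
  congr 1
  refine intervalIntegral.integral_congr fun y _ => ?_
  have h1 := (hB1 D).py_sq (k : ℂ) y
  have h2 := py_ne D hB1 hk y
  have h3 : ((D.V y : ℂ) + k) * (D.py (k : ℂ) y)⁻¹ = D.py (k : ℂ) y := by
    rw [← h1, sq, mul_assoc, mul_inv_cancel₀ h2, mul_one]
  simp only [hχdef]
  push_cast
  calc ((D.V y : ℂ) + k) * (ψ x y : ℂ) * (cexp (I * ω * D.BB (k : ℂ) y) *
        (I * ω * (D.py (k : ℂ) y)⁻¹))
      = I * ω * ((ψ x y : ℂ) * (((D.V y : ℂ) + k) * (D.py (k : ℂ) y)⁻¹) *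
          cexp (I * ω * D.BB (k : ℂ) y)) := by ring
    _ = _ := by rw [h3]

/-! #### Measurability -/

lemma R_le : -D.R ≤ D.R := by
  have h1 := D.r0
  have h2 := D.rR
  linarith

lemma Ph_meas (hB1 : Stmt_BAS1) (hk : |k| < D.a) :
    StronglyMeasurable (fun p : ℝ × ℝ => D.Ph (k : ℂ) p.1 (p.2 : ℂ)) := by
  have h1 : Measurable (fun z : (ℝ × ℝ) × ℝ => (D.φ z.1.1 z.2 : ℂ) *
      cexp (-(I * (z.1.2 : ℂ) * D.BB (k : ℂ) z.2)) * (D.py (k : ℂ) z.2)⁻¹) := by
    refine (((measurable_ofReal.comp (D.φm.comp (measurable_fst.fst.prodMk measurable_snd))).mul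
      (measurable_exp.comp ?_))).mul ((pyi_cont D hB1 hk).measurable.comp measurable_snd)
    exact ((measurable_const.mul (measurable_ofReal.comp measurable_fst.snd)).mul
      ((BB_cont D hB1 hk).measurable.comp measurable_snd)).neg
  have h2 := h1.stronglyMeasurable.integral_prod_right' (ν := volume.restrict (Ioc (-D.R) D.R))
  convert h2 using 2 with p
  rw [LD.Ph, intervalIntegral.integral_of_le (R_le D)]

/-- the integrand of the transport solution -/
noncomputable def G (k σ : ℝ) (z : (ℝ × ℝ) × ℝ) : ℂ :=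
  D.Ph (k : ℂ) z.2 (z.1.2 : ℂ) * (D.px (k : ℂ) z.2)⁻¹ *
    cexp (I * (z.1.2 : ℂ) * σ * (D.AA (k : ℂ) z.2 - D.AA (k : ℂ) z.1.1))

lemma G_meas (hB1 : Stmt_BAS1) (hk : |k| < D.a) (σ : ℝ) : Measurable (G D k σ) := by
  refine (((Ph_meas D hB1 hk).measurable.comp (measurable_snd.prodMk measurable_fst.snd)).mul
    ((pxi_cont D hB1 hk).measurable.comp measurable_snd)).mul (measurable_exp.comp ?_)
  exact ((measurable_const.mul (measurable_ofReal.comp measurable_fst.snd)).mul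
    measurable_const).mul (((AA_cont D hB1 hk).measurable.comp measurable_snd).sub
      ((AA_cont D hB1 hk).measurable.comp measurable_fst.fst))

/-- a measurable version of the transport solution -/
noncomputable def vM (k σ : ℝ) (p : ℝ × ℝ) : ℂ :=
  σ * ∫ x' in Ioc (-D.R) D.R, {z : (ℝ × ℝ) × ℝ | z.1.1 < z.2}.indicator (G D k σ) (p, x')

lemma vM_meas (hB1 : Stmt_BAS1) (hk : |k| < D.a) (σ : ℝ) : StronglyMeasurable (vM D k σ) := by
  have h1 : Measurable ({z : (ℝ × ℝ) × ℝ | z.1.1 < z.2}.indicator (G D k σ)) :=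
    (G_meas D hB1 hk σ).indicator (measurableSet_lt measurable_fst.fst measurable_snd)
  exact (h1.stronglyMeasurable.integral_prod_right' (ν := volume.restrict
    (Ioc (-D.R) D.R))).const_mul (σ : ℂ)

lemma vv_eq (hB1 : Stmt_BAS1) (hk : |k| < D.a) (σ ω x : ℝ) (hx : x ∈ Icc (-D.R) D.R) :
    D.vv σ (k : ℂ) (ω : ℂ) x = vM D k σ (x, ω) := by
  rw [LD.vv, vM]
  congr 1
  have h1 : ∀ x', {z : (ℝ × ℝ) × ℝ | z.1.1 < z.2}.indicator (G D k σ) ((x, ω), x') =
      (Ioi x).indicator (fun x' => G D k σ ((x, ω), x')) x' := by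
    intro x'
    by_cases h : x < x'
    · rw [indicator_of_mem (by exact h), indicator_of_mem (by exact h)]
    · rw [indicator_of_notMem (by exact h), indicator_of_notMem (by exact h)]
  simp only [h1]
  rw [setIntegral_indicator measurableSet_Ioi, intervalIntegral.integral_of_le hx.2]
  have h2 : Ioc (-D.R) D.R ∩ Ioi x = Ioc x D.R := by
    ext t
    simp only [mem_inter_iff, mem_Ioc, mem_Ioi]
    constructor
    · rintro ⟨⟨-, h3⟩, h4⟩
      exact ⟨h4, h3⟩
    · rintro ⟨h3, h4⟩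
      exact ⟨⟨by linarith [hx.1], h4⟩, h3⟩
  rw [h2]
  refine setIntegral_congr_fun measurableSet_Ioc fun x' _ => ?_
  simp only [G]
  rw [AA_sub D hB1 hk]

/-- `Ph` is bounded for fixed `ω` -/
lemma Ph_bdd (hB1 : Stmt_BAS1) (hk : |k| < D.a) (ω : ℝ) :
    ∃ C, ∀ x, ‖D.Ph (k : ℂ) x (ω : ℂ)‖ ≤ C := by
  have hc : Continuous (fun y => cexp (-(I * ω * D.BB (k : ℂ) y)) * (D.py (k : ℂ) y)⁻¹) :=
    (continuous_exp.comp (continuous_const.mul (BB_cont D hB1 hk)).neg).mul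
      (pyi_cont D hB1 hk)
  obtain ⟨C, hC⟩ := (isCompact_uIcc (a := -D.R) (b := D.R)).exists_bound_of_continuousOn
    hc.continuousOn
  refine ⟨D.B * C * |D.R - -D.R|, fun x => ?_⟩
  refine intervalIntegral.norm_integral_le_of_norm_le_const fun y hy => ?_
  rw [mul_assoc, norm_mul]
  refine mul_le_mul ?_ (hC y (uIoc_subset_uIcc hy)) (norm_nonneg _) ?_
  · simpa using D.φb x y
  · exact (abs_nonneg _).trans (D.φb x y)

/-- bounded measurable functions are interval integrable -/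
lemma ii_of_bdd {f : ℝ → ℂ} {C : ℝ}
    (hm : AEStronglyMeasurable f (volume.restrict (uIoc (-D.R) D.R)))
    (hb : ∀ x ∈ Icc (-D.R) D.R, ‖f x‖ ≤ C) : IntervalIntegrable f volume (-D.R) D.R := by
  rw [intervalIntegrable_iff, IntegrableOn]
  rw [uIoc_of_le (R_le D)] at hm ⊢
  refine Integrable.of_bound hm C ?_
  rw [ae_restrict_iff' measurableSet_Ioc]
  exact Eventually.of_forall fun x hx => hb x (Ioc_subset_Icc_self hx)

lemma vv_aesm (hB1 : Stmt_BAS1) (hk : |k| < D.a) (σ ω : ℝ) :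
    AEStronglyMeasurable (fun x => D.vv σ (k : ℂ) (ω : ℂ) x)
      (volume.restrict (uIoc (-D.R) D.R)) := by
  have h1 : StronglyMeasurable (fun x => vM D k σ (x, ω)) :=
    (vM_meas D hB1 hk σ).comp_measurable (measurable_id.prodMk measurable_const)
  refine h1.aestronglyMeasurable.congr ?_
  rw [EventuallyEq, ae_restrict_iff' measurableSet_uIoc]
  refine Eventually.of_forall fun x hx => ?_
  rw [uIoc_of_le (R_le D)] at hx
  exact (vv_eq D hB1 hk σ ω x (Ioc_subset_Icc_self hx)).symm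

/-- the transport equation, summed over the two signs -/
lemma transport (hB1 : Stmt_BAS1) (hT : Stmt_TFC) (hV : Stmt_VB) (hTr : Stmt_TRA)
    (hk : |k| < D.a) (hL : D.Lv k) {ψ : ℝ → ℝ → ℝ} (hψ : TF D.R ψ) (ω : ℝ) :
    ∫ x in (-D.R)..D.R, D.cS (dx (fun x y => (D.U x - k) * ψ x y)) k ω x * D.SS k ω x =
      -∫ x in (-D.R)..D.R, D.px k x * D.c0 (dy (fun x y => (D.V y + k) * ψ x y)) k ω x *
        D.PP k ω x := by
  have hχ : TF D.R (fun x y => (D.U x - k) * ψ x y) :=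
    (hT D.R ψ hψ).2.2.2.1 (fun x _ => D.U x - k)
      ((D.Us.comp contDiff_fst).sub contDiff_const)
  have hdχ := (hT D.R _ hχ).1
  set χ : ℝ → ℝ → ℝ := fun x y => (D.U x - k) * ψ x y with hχdef
  set w : ℝ → ℂ := fun y => D.py (k : ℂ) y * cexp (I * ω * D.BB (k : ℂ) y) with hwdef
  have hw : Continuous w := w_cont D hB1 hk ω
  set κ : ℝ → ℂ := fun x => ∫ y in (-D.R)..D.R, (χ x y : ℂ) * w y with hκdef
  set κ' : ℝ → ℂ := fun x => ∫ y in (-D.R)..D.R, (dx χ x y : ℂ) * w y with hκ'def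
  have hκd : ∀ x, HasDerivAt κ (κ' x) x := fun x =>
    hasDerivAt_int hχ.smooth hdχ.smooth.continuous hw D.R x
  have hκ'c : Continuous κ' := by
    refine intervalIntegral.continuous_parametric_intervalIntegral_of_continuous'
      (f := fun x y => (dx χ x y : ℂ) * w y) ?_ _ _
    exact (continuous_ofReal.comp hdχ.smooth.continuous).mul (hw.comp continuous_snd)
  have hκc : Continuous κ := continuous_iff_continuousAt.mpr fun x => (hκd x).continuousAt
  obtain ⟨ρ, hρ, hsupp⟩ := hχ.supp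
  have hκ0 : κ (-D.R) = 0 := by
    have h1 : ∀ y, χ (-D.R) y = 0 := fun y => hsupp (-D.R) y (Or.inl (by
      rw [abs_neg]
      have := le_abs_self D.R
      linarith))
    simp only [hκdef, h1, ofReal_zero, zero_mul, intervalIntegral.integral_zero]
  have e1 : ∀ x, D.cS (dx χ) k ω x = κ' x := by
    intro x
    simp only [LD.cS, hκ'def, hwdef]
    refine intervalIntegral.integral_congr fun y _ => ?_
    ring
  have e2 : ∀ x, κ x * (D.px (k : ℂ) x)⁻¹ = D.px (k : ℂ) x * D.cS ψ k ω x := by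
    intro x
    have h1 := (hB1 D).px_sq (k : ℂ) x
    have h2 := px_ne D hB1 hk x
    have h3 : κ x = ((D.U x : ℂ) - k) * D.cS ψ k ω x := by
      simp only [LD.cS, hκdef, hwdef, hχdef]
      rw [← intervalIntegral.integral_const_mul]
      refine intervalIntegral.integral_congr fun y _ => ?_
      push_cast
      ring
    rw [h3, ← h1]
    field_simp
  have hpx := px_cont D (k := k) hB1
  obtain ⟨Cv, hCv⟩ := hV D k hL
  obtain ⟨Cp, hCp⟩ := Ph_bdd D hB1 hk ω
  have hq : Continuous (fun x => κ x * (D.px (k : ℂ) x)⁻¹) := hκc.mul (pxi_cont D hB1 hk)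
  obtain ⟨C1, hC1⟩ := (isCompact_Icc (a := -D.R) (b := D.R)).exists_bound_of_continuousOn
    hκ'c.continuousOn
  obtain ⟨C2, hC2⟩ := (isCompact_Icc (a := -D.R) (b := D.R)).exists_bound_of_continuousOn
    hq.continuousOn
  have hvm := fun σ => vv_aesm D hB1 hk σ ω
  have hPm : AEStronglyMeasurable (fun x => D.Ph (k : ℂ) x (ω : ℂ))
      (volume.restrict (uIoc (-D.R) D.R)) :=
    ((Ph_meas D hB1 hk).comp_measurable
      (measurable_id.prodMk measurable_const)).aestronglyMeasurable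
  have i1 : ∀ σ : ℝ, (σ = 1 ∨ σ = -1) →
      IntervalIntegrable (fun x => κ' x * D.vv σ k ω x) volume (-D.R) D.R := by
    intro σ hσ
    refine ii_of_bdd D (C := C1 * Cv) (hκ'c.aestronglyMeasurable.mul (hvm σ)) fun x hx => ?_
    rw [norm_mul]
    exact mul_le_mul (hC1 x hx) (hCv σ hσ ω x hx) (norm_nonneg _)
      ((norm_nonneg _).trans (hC1 x hx))
  have i2 : ∀ σ : ℝ, (σ = 1 ∨ σ = -1) →
      IntervalIntegrable (fun x => κ x * (D.px (k : ℂ) x)⁻¹ *
        (σ * D.Ph k x ω + I * ω * σ * D.vv σ k ω x)) volume (-D.R) D.R := by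
    intro σ hσ
    refine ii_of_bdd D (C := C2 * (‖(σ : ℂ)‖ * Cp + ‖I * ω * σ‖ * Cv))
      (hq.aestronglyMeasurable.mul ((hPm.const_mul _).add ((hvm σ).const_mul _))) fun x hx => ?_
    rw [norm_mul]
    refine mul_le_mul (hC2 x hx) ?_ (norm_nonneg _) ((norm_nonneg _).trans (hC2 x hx))
    refine (norm_add_le _ _).trans (add_le_add ?_ ?_)
    · rw [norm_mul]
      exact mul_le_mul_of_nonneg_left (hCp x) (norm_nonneg _)
    · rw [norm_mul]
      exact mul_le_mul_of_nonneg_left (hCv σ hσ ω x hx) (norm_nonneg _)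
  have t1 := hTr D k 1 ω κ κ' hk (Or.inl rfl) hκd hκ'c hκ0
  have t2 := hTr D k (-1) ω κ κ' hk (Or.inr rfl) hκd hκ'c hκ0
  calc ∫ x in (-D.R)..D.R, D.cS (dx χ) k ω x * D.SS k ω x
      = ∫ x in (-D.R)..D.R, (κ' x * D.vv 1 k ω x + κ' x * D.vv (-1) k ω x) := by
        refine intervalIntegral.integral_congr fun x _ => ?_
        simp only [e1, LD.SS]
        ring
    _ = (∫ x in (-D.R)..D.R, κ' x * D.vv 1 k ω x) +
          ∫ x in (-D.R)..D.R, κ' x * D.vv (-1) k ω x :=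
        intervalIntegral.integral_add (i1 1 (Or.inl rfl)) (i1 (-1) (Or.inr rfl))
    _ = ∫ x in (-D.R)..D.R, (κ x * (D.px (k : ℂ) x)⁻¹ *
          ((1 : ℝ) * D.Ph k x ω + I * ω * (1 : ℝ) * D.vv 1 k ω x) +
          κ x * (D.px (k : ℂ) x)⁻¹ *
          ((-1 : ℝ) * D.Ph k x ω + I * ω * (-1 : ℝ) * D.vv (-1) k ω x)) := by
        rw [t1, t2]
        exact (intervalIntegral.integral_add (i2 1 (Or.inl rfl)) (i2 (-1) (Or.inr rfl))).symm
    _ = ∫ x in (-D.R)..D.R, -(D.px k x * D.c0 (dy (fun x y => (D.V y + k) * ψ x y)) k ω x *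
          D.PP k ω x) := by
        refine intervalIntegral.integral_congr fun x _ => ?_
        simp only [c0_dy D hB1 hT hk hψ, LD.PP, e2]
        push_cast
        ring
    _ = _ := intervalIntegral.integral_neg

lemma joint_int {c v : ℝ → ℝ → ℂ} {vm : ℝ × ℝ → ℂ} {C Cv : ℝ}
    (hc : Continuous (fun p : ℝ × ℝ => c p.1 p.2)) (hvm : StronglyMeasurable vm)
    (hv : ∀ x ∈ Icc (-D.R) D.R, ∀ ω, v x ω = vm (x, ω))
    (hcb : ∀ x ∈ Icc (-D.R) D.R, ∀ ω, ‖c x ω‖ ≤ C / (1 + |ω|) ^ 2)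
    (hvb : ∀ x ∈ Icc (-D.R) D.R, ∀ ω, ‖v x ω‖ ≤ Cv) :
    Integrable (Function.uncurry fun x ω => c x ω * v x ω)
      ((volume.restrict (uIoc (-D.R) D.R)).prod volume) := by
  rw [uIoc_of_le (R_le D)]
  have hmem : ∀ᵐ p : ℝ × ℝ ∂((volume.restrict (Ioc (-D.R) D.R)).prod volume),
      p.1 ∈ Ioc (-D.R) D.R :=
    Measure.quasiMeasurePreserving_fst.ae (ae_restrict_mem measurableSet_Ioc)
  have hg : Integrable (fun p : ℝ × ℝ => |C| * |Cv| * (1 + p.2 ^ 2)⁻¹)
      ((volume.restrict (Ioc (-D.R) D.R)).prod volume) :=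
    (integrable_inv_one_add_sq.const_mul (|C| * |Cv|)).comp_snd _
  refine hg.mono' ?_ ?_
  · refine (hc.aestronglyMeasurable).mul (hvm.aestronglyMeasurable.congr ?_)
    filter_upwards [hmem] with p hp
    exact (hv p.1 (Ioc_subset_Icc_self hp) p.2).symm
  · filter_upwards [hmem] with p hp
    have hp' := Ioc_subset_Icc_self hp
    have h1 := hcb p.1 hp' p.2
    have h2 := hvb p.1 hp' p.2
    have h3 : C / (1 + |p.2|) ^ 2 ≤ |C| * (1 + p.2 ^ 2)⁻¹ := by
      rw [div_eq_mul_inv]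
      refine mul_le_mul (le_abs_self C) ?_ (by positivity) (abs_nonneg _)
      refine inv_anti₀ (by positivity) ?_
      have h4 := abs_nonneg p.2
      have h5 := sq_abs p.2
      nlinarith
    calc ‖Function.uncurry (fun x ω => c x ω * v x ω) p‖ = ‖c p.1 p.2‖ * ‖v p.1 p.2‖ :=
          norm_mul _ _
      _ ≤ (|C| * (1 + p.2 ^ 2)⁻¹) * |Cv| :=
          mul_le_mul (h1.trans h3) (h2.trans (le_abs_self _)) (norm_nonneg _) (by positivity)
      _ = |C| * |Cv| * (1 + p.2 ^ 2)⁻¹ := by ring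

lemma cS_cont (hB1 : Stmt_BAS1) (hk : |k| < D.a) {ψ : ℝ → ℝ → ℝ} (hψ : TF D.R ψ) :
    Continuous (fun p : ℝ × ℝ => D.cS ψ k p.2 p.1) := by
  refine intervalIntegral.continuous_parametric_intervalIntegral_of_continuous'
    (f := fun (p : ℝ × ℝ) y => (ψ p.1 y : ℂ) * D.py k y * cexp (I * p.2 * D.BB k y)) ?_ _ _
  refine ((continuous_ofReal.comp (hψ.smooth.continuous.comp
    (continuous_fst.fst.prodMk continuous_snd))).mul
      (((hB1 D).py_cont _).comp continuous_snd)).mul (continuous_exp.comp ?_)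
  exact (continuous_const.mul (continuous_ofReal.comp continuous_fst.snd)).mul
    ((BB_cont D hB1 hk).comp continuous_snd)

lemma c0_cont (hB1 : Stmt_BAS1) (hk : |k| < D.a) {ψ : ℝ → ℝ → ℝ} (hψ : TF D.R ψ) :
    Continuous (fun p : ℝ × ℝ => D.c0 ψ k p.2 p.1) := by
  refine intervalIntegral.continuous_parametric_intervalIntegral_of_continuous'
    (f := fun (p : ℝ × ℝ) y => (ψ p.1 y : ℂ) * cexp (I * p.2 * D.BB k y)) ?_ _ _
  refine (continuous_ofReal.comp (hψ.smooth.continuous.comp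
    (continuous_fst.fst.prodMk continuous_snd))).mul (continuous_exp.comp ?_)
  exact (continuous_const.mul (continuous_ofReal.comp continuous_fst.snd)).mul
    ((BB_cont D hB1 hk).comp continuous_snd)

end Level

end R1Aux

open R1Aux in
/-- the first relation -/
theorem r1 (hB1 : Stmt_BAS1) (hB2 : Stmt_BAS2) (hT : Stmt_TFC) (hDec : Stmt_DEC)
    (hV : Stmt_VB) (hTr : Stmt_TRA) (hSt : Stmt_STAR) : Stmt_R1 := by
  have _ := hB2
  intro D ψ hψ k hk hL
  have hk1 : -D.a < k := (abs_lt.mp hk).1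
  have hψ1 : TF D.R (dx (fun x y => (D.U x - k) * ψ x y)) :=
    (hT D.R _ ((hT D.R ψ hψ).2.2.2.1 (fun x _ => D.U x - k)
      ((D.Us.comp contDiff_fst).sub contDiff_const))).1
  have hψ2 : TF D.R (dy (fun x y => (D.V y + k) * ψ x y)) :=
    (hT D.R _ ((hT D.R ψ hψ).2.2.2.1 (fun _ y => D.V y + k)
      ((D.Vs.comp contDiff_snd).add contDiff_const))).2.1
  have s1 := (hSt D _ hψ1 k hL).1
  have s2 := (hSt D _ hψ2 k hL).2
  have tr := fun ω : ℝ => transport D hB1 hT hV hTr hk hL hψ ω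
  set ψ₁ := dx (fun x y => (D.U x - k) * ψ x y) with hψ1def
  set ψ₂ := dy (fun x y => (D.V y + k) * ψ x y) with hψ2def
  obtain ⟨Cv, hCv⟩ := hV D k hL
  obtain ⟨C1, hC1⟩ := hDec D ψ₁ hψ1 k hk1 2
  obtain ⟨C2, hC2⟩ := hDec D ψ₂ hψ2 k hk1 2
  obtain ⟨C3, hC3⟩ := (isCompact_Icc (a := -D.R) (b := D.R)).exists_bound_of_continuousOn
    (px_cont D (k := k) hB1).continuousOn
  have hSS : ∀ x ∈ Icc (-D.R) D.R, ∀ ω : ℝ, ‖D.SS k ω x‖ ≤ Cv + Cv := fun x hx ω =>
    (norm_add_le _ _).trans (add_le_add (hCv 1 (Or.inl rfl) ω x hx)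
      (hCv (-1) (Or.inr rfl) ω x hx))
  have hPP : ∀ x ∈ Icc (-D.R) D.R, ∀ ω : ℝ, ‖D.PP k ω x‖ ≤ Cv + Cv := fun x hx ω =>
    (norm_sub_le _ _).trans (add_le_add (hCv 1 (Or.inl rfl) ω x hx)
      (hCv (-1) (Or.inr rfl) ω x hx))
  have j1 := joint_int D (c := fun x ω => D.cS ψ₁ k ω x) (v := fun x ω => D.SS k ω x)
    (vm := fun p => vM D k 1 p + vM D k (-1) p) (C := C1) (Cv := Cv + Cv)
    (cS_cont D hB1 hk hψ1) ((vM_meas D hB1 hk 1).add (vM_meas D hB1 hk (-1)))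
    (fun x hx ω => by
      simp only [LD.SS]
      rw [← vv_eq D hB1 hk 1 ω x hx, ← vv_eq D hB1 hk (-1) ω x hx])
    (fun x _ ω => (hC1 x ω).2) hSS
  have j2 := joint_int D (c := fun x ω => D.px k x * D.c0 ψ₂ k ω x)
    (v := fun x ω => D.PP k ω x)
    (vm := fun p => vM D k 1 p - vM D k (-1) p) (C := C3 * C2) (Cv := Cv + Cv)
    (((px_cont D (k := k) hB1).comp continuous_fst).mul (c0_cont D hB1 hk hψ2))
    ((vM_meas D hB1 hk 1).sub (vM_meas D hB1 hk (-1)))
    (fun x hx ω => by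
      simp only [LD.PP]
      rw [← vv_eq D hB1 hk 1 ω x hx, ← vv_eq D hB1 hk (-1) ω x hx])
    (fun x hx ω => by
      rw [norm_mul, mul_div_assoc]
      exact mul_le_mul (hC3 x hx) (hC2 x ω).1 (norm_nonneg _)
        ((norm_nonneg _).trans (hC3 x hx))) hPP
  rw [s1, s2, intervalIntegral_integral_swap j1, intervalIntegral_integral_swap j2,
    ← mul_add]
  have h0 : (∫ ω : ℝ, ∫ x in (-D.R)..D.R, D.cS ψ₁ k ω x * D.SS k ω x) =
      -∫ ω : ℝ, ∫ x in (-D.R)..D.R, D.px k x * D.c0 ψ₂ k ω x * D.PP k ω x := by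
    rw [← integral_neg]
    exact integral_congr_ae (Eventually.of_forall tr)
  rw [h0, neg_add_cancel, mul_zero]

end Pool.Agent.LIO
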