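import Pool.Agent.LIO.Stmts

/-!
# Liouville metrics: the second relation (module R2)
-/

set_option autoImplicit false

namespace Pool.Agent.LIO

open Complex MeasureTheory Set Filter Topology

namespace R2Aux

/-! ### Level `0` -/

theorem px0 {D : LD} (hB : Bas1 D) (x : ℝ) : D.px 0 x = (√(D.U x) : ℝ) := by
  have := hB.px_real 0 x (D.a0.le.trans (D.Ua x))
  simpa using this

theorem py0 {D : LD} (hB : Bas1 D) (y : ℝ) : D.py 0 y = (√(D.V y) : ℝ) := by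
  have := hB.py_real 0 y (by linarith [D.a0])
  simpa using this

theorem sU_pos (D : LD) (x : ℝ) : 0 < √(D.U x) := Real.sqrt_pos.2 (D.a0.trans_le (D.Ua x))

theorem sV_pos (D : LD) (x : ℝ) : 0 < √(D.V x) := Real.sqrt_pos.2 (D.a0.trans_le (D.Va x))

theorem sU_smooth (D : LD) : ContDiff ℝ (⊤ : ℕ∞) (fun x => √(D.U x)) :=
  D.Us.sqrt (fun x => (D.a0.trans_le (D.Ua x)).ne')

theorem sV_smooth (D : LD) : ContDiff ℝ (⊤ : ℕ∞) (fun x => √(D.V x)) :=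
  D.Vs.sqrt (fun x => (D.a0.trans_le (D.Va x)).ne')

theorem R_pos (D : LD) : 0 < D.R := D.r0.trans D.rR

/-- the real phase in `y` -/
noncomputable def bb (D : LD) (y : ℝ) : ℝ := ∫ s in (-D.R)..y, (√(D.V s))⁻¹

/-- the real phase in `x` -/
noncomputable def aa (D : LD) (x : ℝ) : ℝ := ∫ s in (-D.R)..x, (√(D.U s))⁻¹

theorem cont_iV (D : LD) : Continuous (fun s => (√(D.V s))⁻¹) :=
  (sV_smooth D).continuous.inv₀ (fun x => (sV_pos D x).ne')

theorem cont_iU (D : LD) : Continuous (fun s => (√(D.U s))⁻¹) :=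
  (sU_smooth D).continuous.inv₀ (fun x => (sU_pos D x).ne')

theorem bb_hd (D : LD) (y : ℝ) : HasDerivAt (bb D) ((√(D.V y))⁻¹) y :=
  intervalIntegral.integral_hasDerivAt_right ((cont_iV D).intervalIntegrable _ _)
    ((cont_iV D).stronglyMeasurableAtFilter _ _) (cont_iV D).continuousAt

theorem aa_hd (D : LD) (y : ℝ) : HasDerivAt (aa D) ((√(D.U y))⁻¹) y :=
  intervalIntegral.integral_hasDerivAt_right ((cont_iU D).intervalIntegrable _ _)
    ((cont_iU D).stronglyMeasurableAtFilter _ _) (cont_iU D).continuousAt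

theorem bb_cont (D : LD) : Continuous (bb D) :=
  continuous_iff_continuousAt.2 (fun y => (bb_hd D y).continuousAt)

theorem aa_cont (D : LD) : Continuous (aa D) :=
  continuous_iff_continuousAt.2 (fun y => (aa_hd D y).continuousAt)

theorem BB0 {D : LD} (hB : Bas1 D) (y : ℝ) : D.BB 0 y = (bb D y : ℂ) := by
  unfold LD.BB bb
  rw [← intervalIntegral.integral_ofReal]
  congr 1
  funext s
  rw [py0 hB, Complex.ofReal_inv]

theorem phase {D : LD} (hB : Bas1 D) (x x' : ℝ) :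
    ∫ s in x..x', (D.px 0 s)⁻¹ = ((aa D x' - aa D x : ℝ) : ℂ) := by
  have : aa D x' - aa D x = ∫ s in x..x', (√(D.U s))⁻¹ := by
    unfold aa
    rw [sub_eq_iff_eq_add, add_comm]
    exact (intervalIntegral.integral_add_adjacent_intervals
      ((cont_iU D).intervalIntegrable _ _) ((cont_iU D).intervalIntegrable _ _)).symm
  rw [this, ← intervalIntegral.integral_ofReal]
  congr 1
  funext s
  rw [px0 hB, Complex.ofReal_inv]

/-- the exponential `e^{iωb(y)}` -/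
noncomputable def ee (D : LD) (ω y : ℝ) : ℂ := cexp (I * ω * bb D y)

theorem norm_ee (D : LD) (ω y : ℝ) : ‖ee D ω y‖ = 1 := by
  unfold ee
  rw [show I * (ω : ℂ) * (bb D y : ℂ) = ((ω * bb D y : ℝ) : ℂ) * I by push_cast; ring]
  exact Complex.norm_exp_ofReal_mul_I _

theorem ee_cont (D : LD) : Continuous (fun z : ℝ × ℝ => ee D z.1 z.2) := by
  unfold ee
  have := (bb_cont D)
  fun_prop

theorem ee_hd (D : LD) (ω y : ℝ) :
    HasDerivAt (ee D ω) (I * ω * (((√(D.V y))⁻¹ : ℝ) : ℂ) * ee D ω y) y := by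
  have h1 : HasDerivAt (fun y => (bb D y : ℂ)) (((√(D.V y))⁻¹ : ℝ) : ℂ) y :=
    (bb_hd D y).ofReal_comp
  have h2 := ((h1.const_mul (I * ω)).cexp)
  refine h2.congr_deriv ?_
  unfold ee
  ring

/-! ### Test functions -/

theorem TF.cont {R : ℝ} {ψ : ℝ → ℝ → ℝ} (h : TF R ψ) :
    Continuous (fun z : ℝ × ℝ => ψ z.1 z.2) := h.smooth.continuous

theorem TF.hdx {R : ℝ} {ψ : ℝ → ℝ → ℝ} (h : TF R ψ) (x y : ℝ) :
    HasDerivAt (fun t => ψ t y) (dx ψ x y) x := by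
  have : DifferentiableAt ℝ (fun t => ψ t y) x := by
    have h1 : DifferentiableAt ℝ (fun z : ℝ × ℝ => ψ z.1 z.2) (x, y) :=
      (h.smooth.differentiable (by simp)) _
    exact h1.comp x (f := fun t => (t, y)) (by fun_prop)
  exact this.hasDerivAt

theorem TF.hdy {R : ℝ} {ψ : ℝ → ℝ → ℝ} (h : TF R ψ) (x y : ℝ) :
    HasDerivAt (fun t => ψ x t) (dy ψ x y) y := by
  have : DifferentiableAt ℝ (fun t => ψ x t) y := by
    have h1 : DifferentiableAt ℝ (fun z : ℝ × ℝ => ψ z.1 z.2) (x, y) :=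
      (h.smooth.differentiable (by simp)) _
    exact h1.comp y (f := fun t => (x, t)) (by fun_prop)
  exact this.hasDerivAt

theorem TF.bdd {R : ℝ} {ψ : ℝ → ℝ → ℝ} (h : TF R ψ) : ∃ C, ∀ x y, |ψ x y| ≤ C := by
  obtain ⟨ρ, -, hs⟩ := h.supp
  obtain ⟨C, hC⟩ := (isCompact_Icc (a := (-ρ, -ρ)) (b := (ρ, ρ))).exists_bound_of_continuousOn
    (TF.cont h).continuousOn
  refine ⟨max C 0, fun x y => ?_⟩
  by_cases hx : ρ ≤ |x| ∨ ρ ≤ |y|
  · rw [hs x y hx]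
    simp
  · push Not at hx
    have h1 := abs_lt.1 hx.1
    have h2 := abs_lt.1 hx.2
    exact (hC (x, y) ⟨⟨h1.1.le, h2.1.le⟩, ⟨h1.2.le, h2.2.le⟩⟩).trans (le_max_left _ _)

theorem TF.zx {R : ℝ} {ψ : ℝ → ℝ → ℝ} (h : TF R ψ) (x y : ℝ) (hx : R ≤ |x|) : ψ x y = 0 := by
  obtain ⟨ρ, hρ, hs⟩ := h.supp
  exact hs x y (Or.inl (hρ.le.trans hx))

theorem TF.zy {R : ℝ} {ψ : ℝ → ℝ → ℝ} (h : TF R ψ) (x y : ℝ) (hx : R ≤ |y|) : ψ x y = 0 := by
  obtain ⟨ρ, hρ, hs⟩ := h.supp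
  exact hs x y (Or.inr (hρ.le.trans hx))

/-! ### The transforms of the test functions -/

theorem c0_eq {D : LD} (hB : Bas1 D) (ψ : ℝ → ℝ → ℝ) (ω x : ℝ) :
    D.c0 ψ 0 ω x = ∫ y in (-D.R)..D.R, (ψ x y : ℂ) * ee D ω y := by
  unfold LD.c0 ee
  congr 1
  funext y
  rw [BB0 hB]

theorem c0_cont {D : LD} (hB : Bas1 D) {ψ : ℝ → ℝ → ℝ} (h : TF D.R ψ) :
    Continuous (fun z : ℝ × ℝ => D.c0 ψ 0 (z.2 : ℂ) z.1) := by
  have e : (fun z : ℝ × ℝ => D.c0 ψ 0 (z.2 : ℂ) z.1) =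
      fun z => ∫ y in (-D.R)..D.R, (ψ z.1 y : ℂ) * ee D z.2 y := by
    funext z
    exact c0_eq hB ψ z.2 z.1
  rw [e]
  refine intervalIntegral.continuous_parametric_intervalIntegral_of_continuous'
    (f := fun (z : ℝ × ℝ) y => (ψ z.1 y : ℂ) * ee D z.2 y) ?_ _ _
  have h1 : Continuous (fun p : (ℝ × ℝ) × ℝ => (ψ p.1.1 p.2 : ℂ)) :=
    Complex.continuous_ofReal.comp ((TF.cont h).comp (by fun_prop : Continuous
      (fun p : (ℝ × ℝ) × ℝ => (p.1.1, p.2))))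
  have h2 : Continuous (fun p : (ℝ × ℝ) × ℝ => ee D p.1.2 p.2) :=
    (ee_cont D).comp (by fun_prop : Continuous (fun p : (ℝ × ℝ) × ℝ => (p.1.2, p.2)))
  exact h1.mul h2

theorem c0_hd {D : LD} (hB : Bas1 D) {ψ : ℝ → ℝ → ℝ} (h : TF D.R ψ) (h' : TF D.R (dx ψ))
    (ω x : ℝ) : HasDerivAt (fun x => D.c0 ψ 0 ω x) (D.c0 (dx ψ) 0 ω x) x := by
  have e : (fun x => D.c0 ψ 0 ω x) = fun x => ∫ y in (-D.R)..D.R, (ψ x y : ℂ) * ee D ω y := by
    funext x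
    exact c0_eq hB ψ ω x
  rw [e, c0_eq hB]
  obtain ⟨C, hC⟩ := TF.bdd h'
  have ce : Continuous (ee D ω) := (ee_cont D).comp (by fun_prop : Continuous (fun y => (ω, y)))
  have c1 : ∀ x, Continuous (fun y => (ψ x y : ℂ) * ee D ω y) := fun x =>
    (Complex.continuous_ofReal.comp ((TF.cont h).comp (by fun_prop : Continuous
      (fun y : ℝ => (x, y))))).mul ce
  have c2 : ∀ x, Continuous (fun y => (dx ψ x y : ℂ) * ee D ω y) := fun x =>
    (Complex.continuous_ofReal.comp ((TF.cont h').comp (by fun_prop : Continuous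
      (fun y : ℝ => (x, y))))).mul ce
  refine (intervalIntegral.hasDerivAt_integral_of_dominated_loc_of_deriv_le (s := univ)
    (F := fun x y => (ψ x y : ℂ) * ee D ω y) (F' := fun x y => (dx ψ x y : ℂ) * ee D ω y)
    (bound := fun _ => C) Filter.univ_mem ?_ ((c1 x).intervalIntegrable _ _)
    (c2 x).aestronglyMeasurable ?_ intervalIntegrable_const ?_).2
  · exact Filter.Eventually.of_forall (fun x => (c1 x).aestronglyMeasurable)
  · refine Filter.Eventually.of_forall (fun y _ x _ => ?_)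
    rw [norm_mul, norm_ee, mul_one, Complex.norm_real]
    exact hC x y
  · refine Filter.Eventually.of_forall (fun y _ x _ => ?_)
    exact ((TF.hdx h x y).ofReal_comp).mul_const _

/-- integration by parts in `y` -/
theorem cS_ibp {D : LD} (hB : Bas1 D) {ψ : ℝ → ℝ → ℝ}
    (hV : TF D.R (fun x y => √(D.V y) * ψ x y))
    (hV' : TF D.R (dy (fun x y => √(D.V y) * ψ x y))) (ω x : ℝ) :
    D.cS (fun x y => dy (fun x y => √(D.V y) * ψ x y) x y / √(D.V y)) 0 ω x =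
      -(I * ω) * D.c0 ψ 0 ω x := by
  have e1 : D.cS (fun x y => dy (fun x y => √(D.V y) * ψ x y) x y / √(D.V y)) 0 ω x =
      ∫ y in (-D.R)..D.R, (dy (fun x y => √(D.V y) * ψ x y) x y : ℂ) * ee D ω y := by
    unfold LD.cS ee
    congr 1
    funext y
    rw [BB0 hB, py0 hB]
    have := (sV_pos D y).ne'
    rw [← Complex.ofReal_mul, div_mul_cancel₀ _ this]
  rw [e1, c0_eq hB]
  have ce : Continuous (ee D ω) := (ee_cont D).comp (by fun_prop : Continuous (fun y => (ω, y)))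
  have ce' : Continuous (fun y => I * ω * (((√(D.V y))⁻¹ : ℝ) : ℂ) * ee D ω y) :=
    (continuous_const.mul (Complex.continuous_ofReal.comp (cont_iV D))).mul ce
  have cu' : Continuous (fun y => (dy (fun x y => √(D.V y) * ψ x y) x y : ℂ)) :=
    Complex.continuous_ofReal.comp ((TF.cont hV').comp (by fun_prop : Continuous
      (fun y : ℝ => (x, y))))
  have key := intervalIntegral.integral_deriv_mul_eq_sub (a := -D.R) (b := D.R)
    (u := fun y => ((√(D.V y) * ψ x y : ℝ) : ℂ)) (v := ee D ω)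
    (u' := fun y => (dy (fun x y => √(D.V y) * ψ x y) x y : ℂ))
    (v' := fun y => I * ω * (((√(D.V y))⁻¹ : ℝ) : ℂ) * ee D ω y)
    (fun y _ => (TF.hdy hV x y).ofReal_comp) (fun y _ => ee_hd D ω y)
    (cu'.intervalIntegrable _ _) (ce'.intervalIntegrable _ _)
  have z1 : √(D.V D.R) * ψ x D.R = 0 := TF.zy hV x D.R (le_abs_self _)
  have z2 : √(D.V (-D.R)) * ψ x (-D.R) = 0 := TF.zy hV x (-D.R) (by
    rw [abs_neg]
    exact le_abs_self _)
  rw [z1, z2] at key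
  simp only [Complex.ofReal_zero, zero_mul, sub_self] at key
  have cu : Continuous (fun y => ((√(D.V y) * ψ x y : ℝ) : ℂ)) :=
    Complex.continuous_ofReal.comp ((TF.cont hV).comp (by fun_prop : Continuous
      (fun y : ℝ => (x, y))))
  have hadd := intervalIntegral.integral_add (μ := volume) (a := -D.R) (b := D.R)
    (f := fun y => (dy (fun x y => √(D.V y) * ψ x y) x y : ℂ) * ee D ω y)
    (g := fun y => ((√(D.V y) * ψ x y : ℝ) : ℂ) * (I * ω * (((√(D.V y))⁻¹ : ℝ) : ℂ) * ee D ω y))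
    ((cu'.mul ce).intervalIntegrable _ _) ((cu.mul ce').intervalIntegrable _ _)
  beta_reduce at hadd
  rw [hadd] at key
  rw [eq_neg_of_add_eq_zero_left key, neg_mul, ← intervalIntegral.integral_const_mul]
  congr 2
  funext y
  have := (sV_pos D y).ne'
  have h' : ((√(D.V y) : ℝ) : ℂ) ≠ 0 := by exact_mod_cast this
  push_cast
  field_simp

/-- the transform of `∂_x (√U ψ) / √U` -/
theorem c0_dx {D : LD} (hB : Bas1 D) (ψ : ℝ → ℝ → ℝ) (ω x : ℝ) :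
    D.px 0 x * D.c0 (fun x y => dx (fun x y => √(D.U x) * ψ x y) x y / √(D.U x)) 0 ω x =
      D.c0 (dx (fun x y => √(D.U x) * ψ x y)) 0 ω x := by
  rw [c0_eq hB, c0_eq hB, px0 hB, ← intervalIntegral.integral_const_mul]
  congr 1
  funext y
  have := (sU_pos D x).ne'
  have h' : ((√(D.U x) : ℝ) : ℂ) ≠ 0 := by exact_mod_cast this
  push_cast
  field_simp

theorem c0_U {D : LD} (hB : Bas1 D) (ψ : ℝ → ℝ → ℝ) (ω x : ℝ) :
    D.c0 (fun x y => √(D.U x) * ψ x y) 0 ω x = D.px 0 x * D.c0 ψ 0 ω x := by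
  rw [c0_eq hB, c0_eq hB, px0 hB, ← intervalIntegral.integral_const_mul]
  congr 1
  funext y
  push_cast
  ring

/-! ### The test functions which occur -/

theorem tf_V {D : LD} (hT : Stmt_TFC) {ψ : ℝ → ℝ → ℝ} (h : TF D.R ψ) :
    TF D.R (fun x y => √(D.V y) * ψ x y) :=
  (hT D.R ψ h).2.2.2.1 (fun _ y => √(D.V y)) ((sV_smooth D).comp contDiff_snd)

theorem tf_U {D : LD} (hT : Stmt_TFC) {ψ : ℝ → ℝ → ℝ} (h : TF D.R ψ) :
    TF D.R (fun x y => √(D.U x) * ψ x y) :=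
  (hT D.R ψ h).2.2.2.1 (fun x _ => √(D.U x)) ((sU_smooth D).comp contDiff_fst)

theorem tf_V' {D : LD} (hT : Stmt_TFC) {ψ : ℝ → ℝ → ℝ} (h : TF D.R ψ) :
    TF D.R (fun x y => dy (fun x y => √(D.V y) * ψ x y) x y / √(D.V y)) := by
  have h1 := (hT D.R _ (tf_V hT h)).2.1
  have h2 := (hT D.R _ h1).2.2.2.1 (fun _ y => (√(D.V y))⁻¹)
    (((sV_smooth D).inv (fun x => (sV_pos D x).ne')).comp contDiff_snd)
  have e : (fun x y => dy (fun x y => √(D.V y) * ψ x y) x y / √(D.V y)) =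
      fun x y => (√(D.V y))⁻¹ * dy (fun x y => √(D.V y) * ψ x y) x y := by
    funext x y
    rw [div_eq_inv_mul]
  rw [e]
  exact h2

theorem tf_U' {D : LD} (hT : Stmt_TFC) {ψ : ℝ → ℝ → ℝ} (h : TF D.R ψ) :
    TF D.R (fun x y => dx (fun x y => √(D.U x) * ψ x y) x y / √(D.U x)) := by
  have h1 := (hT D.R _ (tf_U hT h)).1
  have h2 := (hT D.R _ h1).2.2.2.1 (fun x _ => (√(D.U x))⁻¹)
    (((sU_smooth D).inv (fun x => (sU_pos D x).ne')).comp contDiff_fst)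
  have e : (fun x y => dx (fun x y => √(D.U x) * ψ x y) x y / √(D.U x)) =
      fun x y => (√(D.U x))⁻¹ * dx (fun x y => √(D.U x) * ψ x y) x y := by
    funext x y
    rw [div_eq_inv_mul]
  rw [e]
  exact h2

/-! ### Measurability and bounds -/

theorem iV_le (D : LD) (y : ℝ) : (√(D.V y))⁻¹ ≤ (√D.a)⁻¹ :=
  inv_anti₀ (Real.sqrt_pos.2 D.a0) (Real.sqrt_le_sqrt (D.Va y))

theorem Ph_eq {D : LD} (hB : Bas1 D) (ω x : ℝ) :
    D.Ph 0 x ω = ∫ y in (-D.R)..D.R,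
      (D.φ x y : ℂ) * ee D (-ω) y * (((√(D.V y))⁻¹ : ℝ) : ℂ) := by
  unfold LD.Ph ee
  congr 1
  funext y
  rw [BB0 hB, py0 hB]
  push_cast
  ring_nf

theorem sm_phi (D : LD) : Measurable (fun p : (ℝ × ℝ) × ℝ =>
    (D.φ p.1.1 p.2 : ℂ) * ee D (-p.1.2) p.2 * (((√(D.V p.2))⁻¹ : ℝ) : ℂ)) := by
  have h1 : Measurable (fun p : (ℝ × ℝ) × ℝ => D.φ p.1.1 p.2) :=
    D.φm.comp (by fun_prop : Measurable (fun p : (ℝ × ℝ) × ℝ => (p.1.1, p.2)))
  have h2 : Measurable (fun p : (ℝ × ℝ) × ℝ => ee D (-p.1.2) p.2) :=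
    (ee_cont D).measurable.comp (by fun_prop : Measurable
      (fun p : (ℝ × ℝ) × ℝ => (-p.1.2, p.2)))
  have h3 : Measurable (fun p : (ℝ × ℝ) × ℝ => (√(D.V p.2))⁻¹) :=
    (cont_iV D).measurable.comp measurable_snd
  exact ((Complex.measurable_ofReal.comp h1).mul h2).mul (Complex.measurable_ofReal.comp h3)

theorem Ph_sm {D : LD} (hB : Bas1 D) :
    StronglyMeasurable (fun z : ℝ × ℝ => D.Ph 0 z.1 (z.2 : ℂ)) := by
  have e : (fun z : ℝ × ℝ => D.Ph 0 z.1 (z.2 : ℂ)) = fun z : ℝ × ℝ =>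
      ∫ y, (D.φ z.1 y : ℂ) * ee D (-z.2) y * (((√(D.V y))⁻¹ : ℝ) : ℂ)
        ∂(volume.restrict (Ioc (-D.R) D.R)) := by
    funext z
    rw [Ph_eq hB, intervalIntegral.integral_of_le (by linarith [R_pos D])]
  rw [e]
  exact StronglyMeasurable.integral_prod_right' (sm_phi D).stronglyMeasurable

theorem Ph_bd {D : LD} (hB : Bas1 D) : ∃ C, ∀ x ω : ℝ, ‖D.Ph 0 x ω‖ ≤ C := by
  refine ⟨D.B * 1 * (√D.a)⁻¹ * |D.R - -D.R|, fun x ω => ?_⟩
  rw [Ph_eq hB]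
  refine intervalIntegral.norm_integral_le_of_norm_le_const (fun y _ => ?_)
  rw [norm_mul, norm_mul, norm_ee, Complex.norm_real, Complex.norm_real, Real.norm_eq_abs,
    Real.norm_eq_abs, abs_of_pos (inv_pos.2 (sV_pos D y))]
  have h0 : 0 ≤ D.B := (abs_nonneg _).trans (D.φb x y)
  have h1 := D.φb x y
  have h2 := iV_le D y
  have h3 : 0 ≤ (√(D.V y))⁻¹ := (inv_pos.2 (sV_pos D y)).le
  gcongr

/-- the transport solutions with an indicator function -/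
noncomputable def v' (D : LD) (σ : ℝ) (z : ℝ × ℝ) : ℂ :=
  σ * ∫ x', (if z.1 < x' ∧ x' ≤ D.R then D.Ph 0 x' (z.2 : ℂ) * (((√(D.U x'))⁻¹ : ℝ) : ℂ) *
    cexp (I * z.2 * σ * ((aa D x' - aa D z.1 : ℝ) : ℂ)) else 0)

theorem v'_sm {D : LD} (hB : Bas1 D) (σ : ℝ) : StronglyMeasurable (v' D σ) := by
  have h1 : Measurable (fun p : (ℝ × ℝ) × ℝ => D.Ph 0 p.2 (p.1.2 : ℂ)) :=
    (Ph_sm hB).measurable.comp (by fun_prop : Measurable (fun p : (ℝ × ℝ) × ℝ => (p.2, p.1.2)))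
  have h2 : Measurable (fun p : (ℝ × ℝ) × ℝ => (((√(D.U p.2))⁻¹ : ℝ) : ℂ)) :=
    Complex.measurable_ofReal.comp ((cont_iU D).measurable.comp measurable_snd)
  have h3 : Continuous (fun p : (ℝ × ℝ) × ℝ =>
      cexp (I * p.1.2 * σ * ((aa D p.2 - aa D p.1.1 : ℝ) : ℂ))) := by
    have := aa_cont D
    fun_prop
  have h4 : MeasurableSet {p : (ℝ × ℝ) × ℝ | p.1.1 < p.2 ∧ p.2 ≤ D.R} := by
    have a1 : MeasurableSet {p : (ℝ × ℝ) × ℝ | p.1.1 < p.2} :=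
      measurableSet_lt (by fun_prop) (by fun_prop)
    have a2 : MeasurableSet {p : (ℝ × ℝ) × ℝ | p.2 ≤ D.R} :=
      measurableSet_le (by fun_prop) (by fun_prop)
    exact a1.inter a2
  have h5 : Measurable (fun p : (ℝ × ℝ) × ℝ => if p.1.1 < p.2 ∧ p.2 ≤ D.R then
      D.Ph 0 p.2 (p.1.2 : ℂ) * (((√(D.U p.2))⁻¹ : ℝ) : ℂ) *
        cexp (I * p.1.2 * σ * ((aa D p.2 - aa D p.1.1 : ℝ) : ℂ)) else 0) :=
    Measurable.ite h4 ((h1.mul h2).mul h3.measurable) measurable_const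
  exact (StronglyMeasurable.integral_prod_right' h5.stronglyMeasurable).const_mul _

theorem vv_eq {D : LD} (hB : Bas1 D) (σ ω x : ℝ) (hx : x ≤ D.R) :
    D.vv σ 0 ω x = v' D σ (x, ω) := by
  unfold LD.vv v'
  rw [intervalIntegral.integral_of_le hx, ← integral_indicator measurableSet_Ioc]
  congr 2
  funext x'
  rw [indicator_apply]
  simp only [mem_Ioc]
  split_ifs with h
  · rw [px0 hB, phase hB, Complex.ofReal_inv]
  · rfl

/-! ### The Fubini argument -/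

/-- the measure of the strip -/
noncomputable def MM (D : LD) : Measure (ℝ × ℝ) :=
  (volume.restrict (Ioc (-D.R) D.R)).prod volume

theorem integ {D : LD} {f : ℝ × ℝ → ℂ} (hm : StronglyMeasurable f) (C : ℝ)
    (hb : ∀ x ∈ Ioc (-D.R) D.R, ∀ ω, ‖f (x, ω)‖ ≤ C * (1 + ω ^ 2)⁻¹) :
    Integrable f (MM D) := by
  have g : Integrable (fun z : ℝ × ℝ => C * (1 + z.2 ^ 2)⁻¹) (MM D) :=
    (integrable_inv_one_add_sq.const_mul C).comp_snd _
  refine g.mono' hm.aestronglyMeasurable ?_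
  have : ∀ᵐ z ∂(MM D), z.1 ∈ Ioc (-D.R) D.R :=
    (Measure.quasiMeasurePreserving_fst).ae (ae_restrict_mem measurableSet_Ioc)
  filter_upwards [this] with z hz
  exact hb z.1 hz z.2

theorem integ1 {D : LD} {f : ℝ → ℂ} (hm : StronglyMeasurable f) (C : ℝ)
    (hb : ∀ x ∈ Ioc (-D.R) D.R, ‖f x‖ ≤ C) :
    Integrable f (volume.restrict (Ioc (-D.R) D.R)) := by
  refine (integrable_const C).mono' hm.aestronglyMeasurable ?_
  filter_upwards [ae_restrict_mem measurableSet_Ioc] with x hx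
  exact hb x hx

theorem pow2_le (ω : ℝ) : ((1 + |ω|) ^ 2)⁻¹ ≤ (1 + ω ^ 2)⁻¹ := by
  apply inv_anti₀ (by positivity)
  have h1 := abs_nonneg ω
  have h2 := sq_abs ω
  nlinarith

theorem pow3_le (ω : ℝ) : ((1 + |ω|) ^ 3)⁻¹ ≤ (1 + ω ^ 2)⁻¹ := by
  refine le_trans (inv_anti₀ (by positivity) ?_) (pow2_le ω)
  have h1 : 1 ≤ 1 + |ω| := by linarith [abs_nonneg ω]
  exact pow_le_pow_right₀ h1 (by norm_num)

theorem pow3_le' (ω : ℝ) : |ω| * ((1 + |ω|) ^ 3)⁻¹ ≤ (1 + ω ^ 2)⁻¹ := by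
  refine le_trans ?_ (pow2_le ω)
  have h0 : 0 < 1 + |ω| := by linarith [abs_nonneg ω]
  rw [pow_succ, mul_inv, mul_comm, mul_assoc]
  refine mul_le_of_le_one_right (by positivity) ?_
  rw [inv_mul_le_iff₀ h0]
  linarith

/-- everything which is needed about the functions at level `0` -/
structure Pack (D : LD) (ψ : ℝ → ℝ → ℝ) : Prop where
  B : Bas1 D
  tf : TF D.R ψ
  tfU : TF D.R (fun x y => √(D.U x) * ψ x y)
  tfU' : TF D.R (dx (fun x y => √(D.U x) * ψ x y))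
  bv : ∃ C, 0 ≤ C ∧ ∀ σ : ℝ, (σ = 1 ∨ σ = -1) → ∀ x ∈ Ioc (-D.R) D.R, ∀ ω : ℝ,
    ‖v' D σ (x, ω)‖ ≤ C
  bA : ∃ C, 0 ≤ C ∧ ∀ x ω : ℝ, ‖D.c0 ψ 0 ω x‖ ≤ C * ((1 + |ω|) ^ 3)⁻¹
  bK : ∃ C, 0 ≤ C ∧ ∀ x ω : ℝ,
    ‖D.c0 (dx (fun x y => √(D.U x) * ψ x y)) 0 ω x‖ ≤ C * ((1 + |ω|) ^ 3)⁻¹

theorem mkPack {D : LD} (hB1 : Stmt_BAS1) (hT : Stmt_TFC) (hDec : Stmt_DEC) (hV : Stmt_VB)
    {ψ : ℝ → ℝ → ℝ} (h : TF D.R ψ) (hL : D.Lv 0) : Pack D ψ := by
  have hU := tf_U hT h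
  have hU' := (hT D.R _ hU).1
  have dec : ∀ χ : ℝ → ℝ → ℝ, TF D.R χ →
      ∃ C, 0 ≤ C ∧ ∀ x ω : ℝ, ‖D.c0 χ 0 ω x‖ ≤ C * ((1 + |ω|) ^ 3)⁻¹ := by
    intro χ hχ
    obtain ⟨C, hC⟩ := hDec D χ hχ 0 (by linarith [D.a0]) 3
    refine ⟨max C 0, le_max_right _ _, fun x ω => ?_⟩
    have := (hC x ω).1
    rw [Complex.ofReal_zero, div_eq_mul_inv] at this
    refine this.trans (mul_le_mul_of_nonneg_right (le_max_left _ _) ?_)
    have := abs_nonneg ω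
    positivity
  refine ⟨hB1 D, h, hU, hU', ?_, dec _ h, dec _ hU'⟩
  obtain ⟨C, hC⟩ := hV D 0 hL
  refine ⟨max C 0, le_max_right _ _, fun σ hσ x hx ω => ?_⟩
  have := hC σ hσ ω x ⟨hx.1.le, hx.2⟩
  rw [Complex.ofReal_zero, vv_eq (hB1 D) σ ω x hx.2] at this
  exact this.trans (le_max_left _ _)

/-- the transform of `ψ` -/
noncomputable def Af (D : LD) (ψ : ℝ → ℝ → ℝ) (z : ℝ × ℝ) : ℂ := D.c0 ψ 0 (z.2 : ℂ) z.1

noncomputable def Kf (D : LD) (ψ : ℝ → ℝ → ℝ) (z : ℝ × ℝ) : ℂ :=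
  D.c0 (dx (fun x y => √(D.U x) * ψ x y)) 0 (z.2 : ℂ) z.1

noncomputable def Pf (D : LD) (z : ℝ × ℝ) : ℂ := D.Ph 0 z.1 (z.2 : ℂ)

theorem Af_sm {D : LD} {ψ : ℝ → ℝ → ℝ} (h : Pack D ψ) : StronglyMeasurable (Af D ψ) :=
  (c0_cont h.B h.tf).stronglyMeasurable

theorem Kf_sm {D : LD} {ψ : ℝ → ℝ → ℝ} (h : Pack D ψ) : StronglyMeasurable (Kf D ψ) :=
  (c0_cont h.B h.tfU').stronglyMeasurable

theorem Pf_sm {D : LD} {ψ : ℝ → ℝ → ℝ} (h : Pack D ψ) : StronglyMeasurable (Pf D) :=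
  Ph_sm h.B

theorem slice {f : ℝ × ℝ → ℂ} (h : StronglyMeasurable f) (ω : ℝ) :
    StronglyMeasurable (fun x => f (x, ω)) :=
  h.comp_measurable (by fun_prop : Measurable (fun x : ℝ => (x, ω)))

/-- the transport equation at frequency `ω` -/
theorem transport {D : LD} {ψ : ℝ → ℝ → ℝ} (h : Pack D ψ) (hTr : Stmt_TRA) (σ : ℝ)
    (hσ : σ = 1 ∨ σ = -1) (ω : ℝ) :
    ∫ x in Ioc (-D.R) D.R, Kf D ψ (x, ω) * v' D σ (x, ω) =
      ∫ x in Ioc (-D.R) D.R, Af D ψ (x, ω) * (σ * Pf D (x, ω) + I * ω * σ * v' D σ (x, ω)) := by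
  have key := hTr D 0 σ ω (fun x => D.c0 (fun x y => √(D.U x) * ψ x y) 0 ω x)
    (fun x => D.c0 (dx (fun x y => √(D.U x) * ψ x y)) 0 ω x) (by simpa using D.a0) hσ
    (fun x => c0_hd h.B h.tfU h.tfU' ω x)
    ((c0_cont h.B h.tfU').comp (by fun_prop : Continuous (fun x : ℝ => (x, ω)))) (by
      rw [c0_eq h.B]
      have : ∀ y, √(D.U (-D.R)) * ψ (-D.R) y = 0 := fun y =>
        TF.zx h.tfU (-D.R) y (by
          rw [abs_neg]
          exact le_abs_self _)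
      simp only [this, Complex.ofReal_zero, zero_mul, intervalIntegral.integral_zero])
  rw [Complex.ofReal_zero, intervalIntegral.integral_of_le (by linarith [R_pos D]),
    intervalIntegral.integral_of_le (by linarith [R_pos D])] at key
  have e1 : ∫ x in Ioc (-D.R) D.R, Kf D ψ (x, ω) * v' D σ (x, ω) =
      ∫ x in Ioc (-D.R) D.R, D.c0 (dx (fun x y => √(D.U x) * ψ x y)) 0 ω x * D.vv σ 0 ω x := by
    refine setIntegral_congr_fun measurableSet_Ioc (fun x hx => ?_)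
    rw [← vv_eq h.B σ ω x hx.2]
    rfl
  rw [e1, key]
  refine setIntegral_congr_fun measurableSet_Ioc (fun x hx => ?_)
  rw [c0_U h.B, vv_eq h.B σ ω x hx.2]
  have hp : D.px 0 x ≠ 0 := by
    rw [px0 h.B]
    exact_mod_cast (sU_pos D x).ne'
  rw [mul_comm (D.px 0 x), mul_assoc (D.c0 ψ 0 ω x), mul_inv_cancel₀ hp, mul_one]
  rfl

theorem int_AP {D : LD} {ψ : ℝ → ℝ → ℝ} (h : Pack D ψ) :
    Integrable (fun z => Af D ψ z * Pf D z) (MM D) := by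
  obtain ⟨CA, hA0, hA⟩ := h.bA
  obtain ⟨CP, hP⟩ := Ph_bd h.B
  refine integ ((Af_sm h).mul (Pf_sm h)) (CA * CP) (fun x hx ω => ?_)
  have h1 : ‖Af D ψ (x, ω)‖ ≤ CA * ((1 + |ω|) ^ 3)⁻¹ := hA x ω
  have h2 : ‖Pf D (x, ω)‖ ≤ CP := hP x ω
  have h3 := pow3_le ω
  have h4 : 0 ≤ CP := (norm_nonneg _).trans h2
  have h5 : 0 ≤ ((1 + |ω|) ^ 3)⁻¹ := by
    have := abs_nonneg ω
    positivity
  rw [norm_mul]
  calc ‖Af D ψ (x, ω)‖ * ‖Pf D (x, ω)‖ ≤ (CA * ((1 + |ω|) ^ 3)⁻¹) * CP := by gcongr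
    _ = CA * CP * ((1 + |ω|) ^ 3)⁻¹ := by ring
    _ ≤ CA * CP * (1 + ω ^ 2)⁻¹ := by gcongr

theorem int_AV {D : LD} {ψ : ℝ → ℝ → ℝ} (h : Pack D ψ) (σ : ℝ) (hσ : σ = 1 ∨ σ = -1) :
    Integrable (fun z : ℝ × ℝ => I * z.2 * Af D ψ z * v' D σ z) (MM D) := by
  obtain ⟨CA, hA0, hA⟩ := h.bA
  obtain ⟨Cv, hv0, hv⟩ := h.bv
  have m1 : StronglyMeasurable (fun z : ℝ × ℝ => I * (z.2 : ℂ)) :=
    (by fun_prop : Continuous (fun z : ℝ × ℝ => I * (z.2 : ℂ))).stronglyMeasurable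
  refine integ ((m1.mul (Af_sm h)).mul (v'_sm h.B σ)) (CA * Cv) (fun x hx ω => ?_)
  have h1 : ‖Af D ψ (x, ω)‖ ≤ CA * ((1 + |ω|) ^ 3)⁻¹ := hA x ω
  have h2 : ‖v' D σ (x, ω)‖ ≤ Cv := hv σ hσ x hx ω
  have h3 := pow3_le' ω
  have h5 := abs_nonneg ω
  rw [norm_mul, norm_mul, norm_mul, Complex.norm_I, one_mul, Complex.norm_real,
    Real.norm_eq_abs]
  calc |ω| * ‖Af D ψ (x, ω)‖ * ‖v' D σ (x, ω)‖ ≤ |ω| * (CA * ((1 + |ω|) ^ 3)⁻¹) * Cv := by gcongr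
    _ = CA * Cv * (|ω| * ((1 + |ω|) ^ 3)⁻¹) := by ring
    _ ≤ CA * Cv * (1 + ω ^ 2)⁻¹ := by gcongr

theorem int_KV {D : LD} {ψ : ℝ → ℝ → ℝ} (h : Pack D ψ) (σ : ℝ) (hσ : σ = 1 ∨ σ = -1) :
    Integrable (fun z : ℝ × ℝ => Kf D ψ z * v' D σ z) (MM D) := by
  obtain ⟨CA, hA0, hA⟩ := h.bK
  obtain ⟨Cv, hv0, hv⟩ := h.bv
  refine integ ((Kf_sm h).mul (v'_sm h.B σ)) (CA * Cv) (fun x hx ω => ?_)
  have h1 : ‖Kf D ψ (x, ω)‖ ≤ CA * ((1 + |ω|) ^ 3)⁻¹ := hA x ω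
  have h2 : ‖v' D σ (x, ω)‖ ≤ Cv := hv σ hσ x hx ω
  have h3 := pow3_le ω
  have h5 := abs_nonneg ω
  rw [norm_mul]
  calc ‖Kf D ψ (x, ω)‖ * ‖v' D σ (x, ω)‖ ≤ (CA * ((1 + |ω|) ^ 3)⁻¹) * Cv := by gcongr
    _ = CA * Cv * ((1 + |ω|) ^ 3)⁻¹ := by ring
    _ ≤ CA * Cv * (1 + ω ^ 2)⁻¹ := by gcongr

/-- integrability of the slices -/
theorem int_slices {D : LD} {ψ : ℝ → ℝ → ℝ} (h : Pack D ψ) (σ : ℝ) (hσ : σ = 1 ∨ σ = -1)
    (ω : ℝ) :
    Integrable (fun x => Kf D ψ (x, ω) * v' D σ (x, ω)) (volume.restrict (Ioc (-D.R) D.R)) ∧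
    Integrable (fun x => Af D ψ (x, ω) * (σ * Pf D (x, ω) + I * ω * σ * v' D σ (x, ω)))
      (volume.restrict (Ioc (-D.R) D.R)) := by
  obtain ⟨CA, hA0, hA⟩ := h.bA
  obtain ⟨CK, hK0, hK⟩ := h.bK
  obtain ⟨Cv, hv0, hv⟩ := h.bv
  obtain ⟨CP, hP⟩ := Ph_bd h.B
  have hn : ‖(σ : ℂ)‖ = 1 := by
    rcases hσ with rfl | rfl <;> simp
  constructor
  · refine integ1 ((slice (Kf_sm h) ω).mul (slice (v'_sm h.B σ) ω))
      (CK * ((1 + |ω|) ^ 3)⁻¹ * Cv) (fun x hx => ?_)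
    have h1 : ‖Kf D ψ (x, ω)‖ ≤ CK * ((1 + |ω|) ^ 3)⁻¹ := hK x ω
    have h2 : ‖v' D σ (x, ω)‖ ≤ Cv := hv σ hσ x hx ω
    rw [norm_mul]
    have h5 := abs_nonneg ω
    gcongr
  · refine integ1 ((slice (Af_sm h) ω).mul (((slice (Pf_sm h) ω).const_mul (σ : ℂ)).add
      ((slice (v'_sm h.B σ) ω).const_mul (I * ω * σ))))
      (CA * ((1 + |ω|) ^ 3)⁻¹ * (CP + |ω| * Cv)) (fun x hx => ?_)
    have h1 : ‖Af D ψ (x, ω)‖ ≤ CA * ((1 + |ω|) ^ 3)⁻¹ := hA x ω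
    have h2 : ‖v' D σ (x, ω)‖ ≤ Cv := hv σ hσ x hx ω
    have h3 : ‖Pf D (x, ω)‖ ≤ CP := hP x ω
    have h5 := abs_nonneg ω
    rw [norm_mul]
    refine mul_le_mul h1 ?_ (norm_nonneg _) (by positivity)
    refine (norm_add_le _ _).trans ?_
    rw [norm_mul, norm_mul, norm_mul, norm_mul, hn, Complex.norm_I, Complex.norm_real,
      Real.norm_eq_abs, one_mul, one_mul, mul_one]
    gcongr

/-- the exchange for the term with `P` -/
theorem swap_K {D : LD} {ψ : ℝ → ℝ → ℝ} (h : Pack D ψ) (hTr : Stmt_TRA) :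
    ∫ z, Kf D ψ z * (v' D 1 z - v' D (-1) z) ∂(MM D) =
      ∫ z : ℝ × ℝ, (2 * (Af D ψ z * Pf D z) + I * z.2 * Af D ψ z *
        (v' D 1 z + v' D (-1) z)) ∂(MM D) := by
  have i1 : Integrable (fun z => Kf D ψ z * (v' D 1 z - v' D (-1) z)) (MM D) := by
    refine ((int_KV h 1 (Or.inl rfl)).sub (int_KV h (-1) (Or.inr rfl))).congr
      (Filter.Eventually.of_forall (fun z => ?_))
    simp only [Pi.sub_apply]
    ring
  have i2 : Integrable (fun z : ℝ × ℝ => 2 * (Af D ψ z * Pf D z) + I * z.2 * Af D ψ z *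
      (v' D 1 z + v' D (-1) z)) (MM D) := by
    refine (((int_AP h).const_mul 2).add ((int_AV h 1 (Or.inl rfl)).add
      (int_AV h (-1) (Or.inr rfl)))).congr (Filter.Eventually.of_forall (fun z => ?_))
    simp only [Pi.add_apply]
    ring
  unfold MM at i1 i2 ⊢
  rw [integral_prod_symm _ i1, integral_prod_symm _ i2]
  congr 1
  funext ω
  have t1 := transport h hTr 1 (Or.inl rfl) ω
  have t2 := transport h hTr (-1) (Or.inr rfl) ω
  have s1 := int_slices h 1 (Or.inl rfl) ω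
  have s2 := int_slices h (-1) (Or.inr rfl) ω
  have e1 : ∫ x in Ioc (-D.R) D.R, Kf D ψ (x, ω) * (v' D 1 (x, ω) - v' D (-1) (x, ω)) =
      (∫ x in Ioc (-D.R) D.R, Kf D ψ (x, ω) * v' D 1 (x, ω)) -
        ∫ x in Ioc (-D.R) D.R, Kf D ψ (x, ω) * v' D (-1) (x, ω) := by
    rw [← integral_sub s1.1 s2.1]
    congr 1
    funext x
    ring
  rw [e1, t1, t2, ← integral_sub s1.2 s2.2]
  congr 1
  funext x
  push_cast
  ring

/-- Fourier inversion -/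
theorem inner_AP {D : LD} {ψ : ℝ → ℝ → ℝ} (h : Pack D ψ) (hInv : Stmt_INV) (x : ℝ) :
    ∫ ω : ℝ, Af D ψ (x, ω) * Pf D (x, ω) =
      (2 * Real.pi : ℂ) * ∫ y in (-D.R)..D.R, ((D.φ x y * ψ x y : ℝ) : ℂ) := by
  obtain ⟨CA, hA0, hA⟩ := h.bA
  have hR : -D.R ≤ D.R := by linarith [R_pos D]
  set f : ℝ → ℝ → ℂ := fun ω y => Af D ψ (x, ω) *
    ((D.φ x y : ℂ) * ee D (-ω) y * (((√(D.V y))⁻¹ : ℝ) : ℂ)) with hf
  have e1 : ∫ ω : ℝ, Af D ψ (x, ω) * Pf D (x, ω) =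
      ∫ ω : ℝ, ∫ y in Ioc (-D.R) D.R, f ω y := by
    congr 1
    funext ω
    rw [hf]
    simp only
    rw [integral_const_mul]
    congr 1
    change D.Ph 0 x ω = _
    rw [Ph_eq h.B, intervalIntegral.integral_of_le hR]
  have m0 : StronglyMeasurable (fun ω : ℝ => Af D ψ (x, ω)) :=
    (Af_sm h).comp_measurable (by fun_prop : Measurable (fun ω : ℝ => (x, ω)))
  have m1 : StronglyMeasurable (Function.uncurry f) := by
    have a1 : StronglyMeasurable (fun p : ℝ × ℝ => Af D ψ (x, p.1)) :=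
      m0.comp_measurable measurable_fst
    have a2 : Measurable (fun p : ℝ × ℝ => (D.φ x p.2 : ℂ) * ee D (-p.1) p.2 *
        (((√(D.V p.2))⁻¹ : ℝ) : ℂ)) :=
      (sm_phi D).comp (by fun_prop : Measurable (fun p : ℝ × ℝ => (((x, p.1) : ℝ × ℝ), p.2)))
    exact a1.mul a2.stronglyMeasurable
  have hB0 : 0 ≤ D.B := (abs_nonneg _).trans (D.φb 0 0)
  have i1 : Integrable (Function.uncurry f) (volume.prod (volume.restrict (Ioc (-D.R) D.R))) := by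
    have g : Integrable (fun z : ℝ × ℝ => (CA * (D.B * 1 * (√D.a)⁻¹)) * (1 + z.1 ^ 2)⁻¹)
        (volume.prod (volume.restrict (Ioc (-D.R) D.R))) :=
      (integrable_inv_one_add_sq.const_mul _).comp_fst _
    refine g.mono' m1.aestronglyMeasurable (Filter.Eventually.of_forall (fun z => ?_))
    change ‖Af D ψ (x, z.1) * ((D.φ x z.2 : ℂ) * ee D (-z.1) z.2 *
      (((√(D.V z.2))⁻¹ : ℝ) : ℂ))‖ ≤ _
    have h1 : ‖Af D ψ (x, z.1)‖ ≤ CA * ((1 + |z.1|) ^ 3)⁻¹ := hA x z.1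
    have h2 := pow3_le z.1
    rw [norm_mul, norm_mul, norm_mul, norm_ee, Complex.norm_real, Complex.norm_real,
      Real.norm_eq_abs, Real.norm_eq_abs, abs_of_pos (inv_pos.2 (sV_pos D z.2))]
    have h3 := D.φb x z.2
    have h4 := iV_le D z.2
    have h5 : 0 ≤ (√(D.V z.2))⁻¹ := (inv_pos.2 (sV_pos D z.2)).le
    have h6 : 0 ≤ (√D.a)⁻¹ := h5.trans h4
    calc ‖Af D ψ (x, z.1)‖ * (|D.φ x z.2| * 1 * (√(D.V z.2))⁻¹) ≤
        (CA * (1 + z.1 ^ 2)⁻¹) * (D.B * 1 * (√D.a)⁻¹) := by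
          refine mul_le_mul (h1.trans (by gcongr)) (by gcongr) (by positivity) (by positivity)
      _ = _ := by ring
  rw [e1, integral_integral_swap i1, intervalIntegral.integral_of_le hR, ← integral_const_mul]
  congr 1
  funext y
  have e2 : ∫ ω : ℝ, f ω y = ((D.φ x y : ℂ) * (((√(D.V y))⁻¹ : ℝ) : ℂ)) *
      ∫ ω : ℝ, D.c0 ψ 0 ω x * ee D (-ω) y := by
    rw [← integral_const_mul]
    congr 1
    funext ω
    rw [hf]
    simp only [Af]
    ring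
  have e3 : (∫ ω : ℝ, D.c0 ψ 0 ω x * ee D (-ω) y) =
      (2 * Real.pi : ℂ) * ((ψ x y : ℂ) * (√(D.V y) : ℝ)) := by
    have := hInv D ψ h.tf 0 (by linarith [D.a0]) x y
    rw [Complex.ofReal_zero, py0 h.B] at this
    rw [this, ← mul_assoc, mul_inv_cancel₀ (by
      have := Real.pi_ne_zero
      exact_mod_cast mul_ne_zero two_ne_zero this), one_mul]
    congr 1
    funext ω
    unfold ee
    rw [BB0 h.B]
    push_cast
    ring_nf
  rw [e2, e3]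
  have hv : ((√(D.V y) : ℝ) : ℂ) ≠ 0 := by exact_mod_cast (sV_pos D y).ne'
  push_cast
  field_simp

end R2Aux

open R2Aux in
theorem r2 (hB1 : Stmt_BAS1) (_hB2 : Stmt_BAS2) (hT : Stmt_TFC) (hDec : Stmt_DEC) (hV : Stmt_VB)
    (hTr : Stmt_TRA) (hSt : Stmt_STAR) (hInv : Stmt_INV) : Stmt_R2 := by
  intro D ψ hψ hL
  have hB := hB1 D
  have h := mkPack hB1 hT hDec hV hψ hL
  have hR : -D.R ≤ D.R := by linarith [R_pos D]
  have f1 := (hSt D _ (tf_V' hT hψ) 0 hL).1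
  have f2 := (hSt D _ (tf_U' hT hψ) 0 hL).2
  rw [Complex.ofReal_zero] at f1 f2
  rw [f1, f2]
  -- the first functional
  have g1 : ∫ x in (-D.R)..D.R, ∫ ω : ℝ,
      D.cS (fun x y => dy (fun x y => √(D.V y) * ψ x y) x y / √(D.V y)) 0 ω x * D.SS 0 ω x =
      -∫ z : ℝ × ℝ, I * z.2 * Af D ψ z * (v' D 1 z + v' D (-1) z) ∂(MM D) := by
    have i : Integrable (fun z : ℝ × ℝ => I * z.2 * Af D ψ z * (v' D 1 z + v' D (-1) z))
        (MM D) := by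
      refine ((int_AV h 1 (Or.inl rfl)).add (int_AV h (-1) (Or.inr rfl))).congr
        (Filter.Eventually.of_forall (fun z => ?_))
      simp only [Pi.add_apply]
      ring
    unfold MM at i ⊢
    rw [integral_prod _ i, intervalIntegral.integral_of_le hR, ← integral_neg]
    refine setIntegral_congr_fun measurableSet_Ioc (fun x hx => ?_)
    simp only
    rw [← integral_neg]
    congr 1
    funext ω
    rw [cS_ibp hB (tf_V hT hψ) (hT D.R _ (tf_V hT hψ)).2.1]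
    unfold LD.SS
    have v1 := vv_eq hB 1 ω x hx.2
    have v2 := vv_eq hB (-1) ω x hx.2
    rw [v1, v2]
    unfold Af
    ring
  have g2 : ∫ x in (-D.R)..D.R, ∫ ω : ℝ, D.px 0 x *
      D.c0 (fun x y => dx (fun x y => √(D.U x) * ψ x y) x y / √(D.U x)) 0 ω x * D.PP 0 ω x =
      ∫ z, Kf D ψ z * (v' D 1 z - v' D (-1) z) ∂(MM D) := by
    have i : Integrable (fun z => Kf D ψ z * (v' D 1 z - v' D (-1) z)) (MM D) := by
      refine ((int_KV h 1 (Or.inl rfl)).sub (int_KV h (-1) (Or.inr rfl))).congr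
        (Filter.Eventually.of_forall (fun z => ?_))
      simp only [Pi.sub_apply]
      ring
    unfold MM at i ⊢
    rw [integral_prod _ i, intervalIntegral.integral_of_le hR]
    refine setIntegral_congr_fun measurableSet_Ioc (fun x hx => ?_)
    congr 1
    funext ω
    rw [c0_dx hB]
    unfold LD.PP
    have v1 := vv_eq hB 1 ω x hx.2
    have v2 := vv_eq hB (-1) ω x hx.2
    rw [v1, v2]
    rfl
  rw [g1, g2, swap_K h hTr]
  have i3 : Integrable (fun z : ℝ × ℝ => I * z.2 * Af D ψ z * (v' D 1 z + v' D (-1) z))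
      (MM D) := by
    refine ((int_AV h 1 (Or.inl rfl)).add (int_AV h (-1) (Or.inr rfl))).congr
      (Filter.Eventually.of_forall (fun z => ?_))
    simp only [Pi.add_apply]
    ring
  have i4 : Integrable (fun z : ℝ × ℝ => 2 * (Af D ψ z * Pf D z)) (MM D) :=
    (int_AP h).const_mul 2
  rw [integral_add i4 i3, ← mul_add, neg_add_cancel_comm_assoc]
  unfold MM at i4 ⊢
  rw [integral_prod _ i4]
  have e5 : ∀ x : ℝ, ∫ ω : ℝ, 2 * (Af D ψ (x, ω) * Pf D (x, ω)) =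
      2 * ((2 * Real.pi : ℂ) * ∫ y in (-D.R)..D.R, ((D.φ x y * ψ x y : ℝ) : ℂ)) := by
    intro x
    rw [integral_const_mul, inner_AP h hInv]
  simp only [e5]
  rw [integral_const_mul, integral_const_mul, ← intervalIntegral.integral_of_le hR,
    ← intervalIntegral.integral_ofReal]
  have hp : (2 * Real.pi : ℂ) ≠ 0 := by
    have := Real.pi_ne_zero
    exact_mod_cast mul_ne_zero two_ne_zero this
  simp only [← intervalIntegral.integral_ofReal]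
  field_simp

end Pool.Agent.LIO
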