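import Pool.Agent.LIO.Geo
import Pool.Agent.Lib_helper92.XRay.Comp

/-!
# Liouville metrics: the integrals along the curves vanish (module SEG)
-/

set_option autoImplicit false

namespace Pool.Agent.LIO

open MeasureTheory Set Filter Topology Pool.Agent.XRay

namespace SEGAux

theorem grow_right {g g' : ℝ → ℝ} (hg : ∀ t, HasDerivAt g (g' t) t) {κ : ℝ}
    (hκ : ∀ t, κ ≤ g' t) {s t : ℝ} (hst : s ≤ t) : g s + κ * (t - s) ≤ g t := by
  have h1 : MonotoneOn (fun t => g t - κ * t) univ := by
    apply monotoneOn_of_deriv_nonneg convex_univ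
    · apply Continuous.continuousOn
      have : Continuous g := continuous_iff_continuousAt.2 fun t => (hg t).continuousAt
      fun_prop
    · intro x _
      exact ((hg x).sub ((hasDerivAt_id x).const_mul κ)).differentiableAt.differentiableWithinAt
    · intro x _
      have h2 : HasDerivAt (fun t => g t - κ * t) (g' x - κ * 1) x :=
        (hg x).sub ((hasDerivAt_id x).const_mul κ)
      rw [h2.deriv]
      linarith [hκ x]
  have h3 := h1 (mem_univ s) (mem_univ t) hst
  simp only at h3
  linarith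

theorem exists_inv {g g' : ℝ → ℝ} (hg : ∀ t, HasDerivAt g (g' t) t) {κ : ℝ} (hκ0 : 0 < κ)
    (hκ : ∀ t, κ ≤ g' t) : StrictMono g ∧ ∃ S : ℝ → ℝ, (∀ t, S (g t) = t) ∧ ∀ t, g (S t) = t := by
  have hmono : StrictMono g := by
    intro s t hst
    have h1 := grow_right hg hκ hst.le
    nlinarith [mul_pos hκ0 (sub_pos.2 hst)]
  refine ⟨hmono, ?_⟩
  have hc : Continuous g := continuous_iff_continuousAt.2 fun t => (hg t).continuousAt
  have hsurj : Function.Surjective g := by
    intro u
    set L := |u - g 0| / κ with hL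
    have hL0 : 0 ≤ L := by positivity
    have hκL : κ * L = |u - g 0| := by rw [hL]; field_simp
    have h1 := grow_right hg hκ hL0
    have h2 := grow_right hg hκ (neg_nonpos.2 hL0)
    have h3 : u ∈ Icc (g (-L)) (g L) := by
      constructor
      · have := neg_abs_le (u - g 0)
        nlinarith
      · have := le_abs_self (u - g 0)
        nlinarith
    obtain ⟨x, _, hx⟩ := intermediate_value_Icc (neg_le_self hL0) hc.continuousOn h3
    exact ⟨x, hx⟩
  choose S hS using hsurj
  exact ⟨S, fun t => hmono.injective (hS (g t)), hS⟩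

end SEGAux

open SEGAux in
theorem seg (hG : Stmt_GEO) : Stmt_SEG := by
  intro E W _ _ _ _ _ _ e G U V hGm hU hV hLM M f h₀ δ hM hf hZ D h σ c X Y w₀ hha hhδ hFl hσ
    hloc hfr
  have hXc : Continuous X := continuous_iff_continuousAt.2 fun t => (hFl.hX t).continuousAt
  have hYc : Continuous Y := continuous_iff_continuousAt.2 fun t => (hFl.hY t).continuousAt
  have hDU : Continuous D.U := D.Us.continuous
  have hDV : Continuous D.V := D.Vs.continuous
  set w : ℝ → ℝ := fun τ => D.U (X (σ * (τ - c))) + D.V (Y τ) with hwdef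
  have hw : Continuous w := by rw [hwdef]; fun_prop
  have hw0 : ∀ τ, D.a + D.a ≤ w τ := fun τ => add_le_add (D.Ua _) (D.Va _)
  have ha0 := D.a0
  have hcv : Continuous (cv e X Y σ c w₀) := by
    unfold cv
    fun_prop
  set T : ℝ → ℝ := fun τ => ∫ s in (0 : ℝ)..τ, w s with hTdef
  have hTd : ∀ τ, HasDerivAt T (w τ) τ := fun τ =>
    intervalIntegral.integral_hasDerivAt_right (hw.intervalIntegrable _ _)
      (hw.stronglyMeasurableAtFilter _ _) hw.continuousAt
  obtain ⟨hT, S, hST, hTS⟩ := exists_inv hTd (by linarith : 0 < D.a + D.a) hw0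
  have hTc : Continuous T := continuous_iff_continuousAt.2 fun t => (hTd t).continuousAt
  -- the curve leaves `M`
  obtain ⟨Cf, hCf⟩ := hM.exists_bound_of_continuousOn hf
  have hce : Continuous (fun z : E => (e.symm z).1.2) := by fun_prop
  obtain ⟨L₀, hL₀⟩ := hM.exists_bound_of_continuousOn hce.continuousOn
  have hκ0 : 0 < √(D.a - |h|) := Real.sqrt_pos.2 (by linarith)
  set κ := √(D.a - |h|) with hκdef
  have hκ : ∀ t, κ ≤ √(D.V (Y t) + h) := by
    intro t
    apply Real.sqrt_le_sqrt
    have := D.Va (Y t)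
    have := neg_abs_le h
    linarith
  set L := (|L₀| + |Y 0| + 1) / κ with hLdef
  have hL0 : 0 ≤ L := by positivity
  have hκL : κ * L = |L₀| + |Y 0| + 1 := by rw [hLdef]; field_simp
  have hout : ∀ τ, L ≤ |τ| → cv e X Y σ c w₀ τ ∉ M := by
    intro τ hτ hmem
    have h1 := hL₀ _ hmem
    have h2 : (e.symm (cv e X Y σ c w₀ τ)).1.2 = Y τ := by
      simp [cv]
    simp only [h2, Real.norm_eq_abs] at h1
    have h4 := le_abs_self L₀
    rcases le_total 0 τ with h0 | h0
    · rw [abs_of_nonneg h0] at hτ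
      have h3 := grow_right hFl.hY hκ h0
      have h5 := neg_abs_le (Y 0)
      have h6 := le_abs_self (Y τ)
      have h7 := mul_le_mul_of_nonneg_left hτ hκ0.le
      nlinarith
    · rw [abs_of_nonpos h0] at hτ
      have h3 := grow_right hFl.hY hκ h0
      have h5 := le_abs_self (Y 0)
      have h6 := neg_abs_le (Y τ)
      have h7 := mul_le_mul_of_nonneg_left hτ hκ0.le
      nlinarith
  have hsupp : Function.support (fun τ => M.indicator f (cv e X Y σ c w₀ τ) *
      (D.U (X (σ * (τ - c))) + D.V (Y τ))) ⊆ Ioc (-L) L := by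
    intro τ hτ
    have h1 : cv e X Y σ c w₀ τ ∈ M := by
      by_contra hcon
      apply hτ
      simp only [indicator_of_notMem hcon, zero_mul]
    have h2 : ¬ L ≤ |τ| := fun h2 => hout τ h2 h1
    have h3 := abs_lt.1 (not_le.1 h2)
    exact ⟨h3.1, h3.2.le⟩
  rw [← intervalIntegral.integral_eq_integral_of_support_subset hsupp]
  have hLL : -L ≤ L := neg_le_self hL0
  refine integral_eq_zero_of_segments hM.isClosed hf (Cf := Cf) hCf hLL hcv
    (hout _ (by rw [abs_neg]; exact le_abs_self L)) (hout _ (le_abs_self L)) hw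
    (ae_restrict_of_ae hfr) ?_
  intro y₁ y₂ _ h12 _ hmem hl hr
  -- the open set where the hypotheses of `GEO` hold
  set O : Set ℝ := {τ | (∀ᶠ x in 𝓝 (X (σ * (τ - c))), D.U x = U x - h₀) ∧
    ∀ᶠ y in 𝓝 (Y τ), D.V y = V y + h₀} with hOdef
  have hOo : IsOpen O := by
    have h1 : IsOpen {x : ℝ | ∀ᶠ x' in 𝓝 x, D.U x' = U x' - h₀} := isOpen_setOfPred_eventually_nhds
    have h2 : IsOpen {y : ℝ | ∀ᶠ y' in 𝓝 y, D.V y' = V y' + h₀} := isOpen_setOfPred_eventually_nhds
    have h3 : Continuous (fun τ => X (σ * (τ - c))) := by fun_prop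
    exact (h1.preimage h3).inter (h2.preimage hYc)
  have hIO : ∀ y ∈ Icc y₁ y₂, y ∈ O := by
    intro y hy
    have h1 := hloc _ (hmem y hy)
    have h2 : e.symm (cv e X Y σ c w₀ y) = ((X (σ * (y - c)), Y y), w₀) := by simp [cv]
    rw [h2] at h1
    exact h1
  obtain ⟨η₁, hη₁, hb1⟩ := Metric.isOpen_iff.1 hOo y₁ (hIO _ (left_mem_Icc.2 h12.le))
  obtain ⟨η₂, hη₂, hb2⟩ := Metric.isOpen_iff.1 hOo y₂ (hIO _ (right_mem_Icc.2 h12.le))
  set a := y₁ - η₁ with hadef
  set b := y₂ + η₂ with hbdef
  have ha1 : a < y₁ := by linarith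
  have hb1' : y₂ < b := by linarith
  have hOab : ∀ τ ∈ Ioo a b, τ ∈ O := by
    intro τ hτ
    rcases lt_or_ge τ y₁ with h1 | h1
    · apply hb1
      rw [Metric.mem_ball, Real.dist_eq, abs_sub_lt_iff]
      constructor <;> linarith [hτ.1]
    · rcases le_or_gt τ y₂ with h2 | h2
      · exact hIO τ ⟨h1, h2⟩
      · apply hb2
        rw [Metric.mem_ball, Real.dist_eq, abs_sub_lt_iff]
        constructor <;> linarith [hτ.2]
  obtain ⟨hgeo, hder⟩ := hG E W e G U V hGm hU hV hLM D h h₀ σ c X Y T S w₀ hha hFl hσ hTd hST hTS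
    a b (by linarith) hOab
  set γ : ℝ → E := fun t => cv e X Y σ c w₀ (S t) with hγdef
  have hγT : ∀ y, γ (T y) = cv e X Y σ c w₀ y := by
    intro y; simp only [hγdef, hST]
  have hmax : MaximalSegment M γ (T y₁) (T y₂) := by
    refine ⟨?_, ?_, ?_⟩
    · intro τ hτ
      rw [← hTS τ] at hτ ⊢
      rw [hγT]
      exact hmem _ ⟨hT.le_iff_le.1 hτ.1, hT.le_iff_le.1 hτ.2⟩
    · intro ε hε
      obtain ⟨ε', hε', hc⟩ := Metric.continuous_iff.1 hTc y₁ ε hε
      obtain ⟨y, hy, hyM⟩ := hl ε' hε'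
      refine ⟨T y, ⟨?_, hT hy.2⟩, by rw [hγT]; exact hyM⟩
      have h3 := hc y (by rw [Real.dist_eq, abs_sub_lt_iff]; constructor <;> linarith [hy.1, hy.2])
      rw [Real.dist_eq, abs_sub_lt_iff] at h3
      linarith [h3.2]
    · intro ε hε
      obtain ⟨ε', hε', hc⟩ := Metric.continuous_iff.1 hTc y₂ ε hε
      obtain ⟨y, hy, hyM⟩ := hr ε' hε'
      refine ⟨T y, ⟨hT hy.1, ?_⟩, by rw [hγT]; exact hyM⟩
      have h3 := hc y (by rw [Real.dist_eq, abs_sub_lt_iff]; constructor <;> linarith [hy.1, hy.2])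
      rw [Real.dist_eq, abs_sub_lt_iff] at h3
      linarith [h3.1]
  have hz := hZ γ (T a) (T b) (T y₁) (T y₂) (hT ha1) (hT h12) (hT hb1') hgeo (by
    intro t ht
    have hd := (hder t ht).deriv
    have hSt : S t ∈ Ioo a b := by
      rw [← hTS t] at ht
      exact ⟨hT.lt_iff_lt.1 ht.1, hT.lt_iff_lt.1 ht.2⟩
    have hOt := hOab _ hSt
    have e1 : D.U (X (σ * (S t - c))) = U (X (σ * (S t - c))) - h₀ := hOt.1.self_of_nhds
    have e2 : D.V (Y (S t)) = V (Y (S t)) + h₀ := hOt.2.self_of_nhds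
    have hγt : e.symm (γ t) = ((X (σ * (S t - c)), Y (S t)), w₀) := by
      simp [hγdef, cv]
    rw [hd, hγt, ContinuousLinearEquiv.symm_apply_apply]
    refine ⟨rfl, ?_⟩
    simp only
    have hwt : 0 < D.U (X (σ * (S t - c))) + D.V (Y (S t)) := by
      have := hw0 (S t)
      simp only [hwdef] at this
      linarith
    have hs1 : √(D.U (X (σ * (S t - c))) - h) ^ 2 = D.U (X (σ * (S t - c))) - h := by
      apply Real.sq_sqrt
      have := D.Ua (X (σ * (S t - c)))
      have := le_abs_self h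
      linarith
    have hs2 : √(D.V (Y (S t)) + h) ^ 2 = D.V (Y (S t)) + h := by
      apply Real.sq_sqrt
      have := D.Va (Y (S t))
      have := neg_abs_le h
      linarith
    have hσ2 : σ ^ 2 = 1 := by rcases hσ with h | h <;> rw [h] <;> norm_num
    have hU' : U (X (σ * (S t - c))) = D.U (X (σ * (S t - c))) + h₀ := by linarith
    have hV' : V (Y (S t)) = D.V (Y (S t)) - h₀ := by linarith
    rw [hU', hV', div_pow, div_pow, mul_pow, hσ2, hs1, hs2, one_mul]
    set u := D.U (X (σ * (S t - c))) with hu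
    set v := D.V (Y (S t)) with hv
    have key : (u + h₀ + (v - h₀)) * ((u + h₀) * ((v + h) / (u + v) ^ 2) -
        (v - h₀) * ((u - h) / (u + v) ^ 2)) - h₀ = h := by
      have : u + v ≠ 0 := hwt.ne'
      field_simp
      ring
    rw [key]
    exact hhδ) hmax
  rw [← hz]
  have hScont : Continuous S := by
    have hiso : StrictMono S := by
      intro s t hst
      rw [← hT.lt_iff_lt, hTS, hTS]
      exact hst
    have hsur : Function.Surjective S := fun y => ⟨T y, hST y⟩
    exact hiso.monotone.continuous_of_surjective hsur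
  have hcvar := intervalIntegral.integral_comp_mul_deriv'' (a := y₁) (b := y₂) (f := T) (f' := w)
    (g := fun τ => f (γ τ)) hTc.continuousOn (fun y _ => (hTd y).hasDerivWithinAt)
    hw.continuousOn (by
      apply hf.comp
      · exact (hcv.comp hScont).continuousOn
      · rintro _ ⟨y, hy, rfl⟩
        rw [uIcc_of_le h12.le] at hy
        rw [hγT]
        exact hmem y hy)
  rw [← hcvar]
  apply intervalIntegral.integral_congr
  intro y _
  simp only [Function.comp]
  rw [hγT]

end Pool.Agent.LIO
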