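import Pool.Agent.LIO.Stmts

/-!
# Liouville metrics: the functionals in the Fourier variable (module STAR)
-/

set_option autoImplicit false

namespace Pool.Agent.LIO

open Complex MeasureTheory Set Filter Topology

namespace STARAux

/-- measurability of the interval integral in the end points -/
lemma meas_ii (f : ℝ → ℂ) (hf : Measurable f) :
    Measurable (fun z : ℝ × ℝ => ∫ s in z.1..z.2, f s) := by
  have h : ∀ (g1 g2 : ℝ × ℝ → ℝ), Measurable g1 → Measurable g2 →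
      Measurable (fun z : ℝ × ℝ => ∫ s in Ioc (g1 z) (g2 z), f s) := by
    intro g1 g2 h1 h2
    have h0 : StronglyMeasurable (fun p : (ℝ × ℝ) × ℝ =>
        (if g1 p.1 < p.2 ∧ p.2 ≤ g2 p.1 then f p.2 else 0 : ℂ)) := by
      apply Measurable.stronglyMeasurable
      refine Measurable.ite ?_ (hf.comp measurable_snd) measurable_const
      exact (measurableSet_lt (h1.comp measurable_fst) measurable_snd).inter
        (measurableSet_le measurable_snd (h2.comp measurable_fst))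
    have h3 := (h0.integral_prod_right' (ν := volume)).measurable
    have h4 : (fun z : ℝ × ℝ => ∫ s in Ioc (g1 z) (g2 z), f s) =
        fun z => ∫ s, (if g1 z < s ∧ s ≤ g2 z then f s else 0 : ℂ) := by
      funext z
      rw [← integral_indicator measurableSet_Ioc]
      congr 1
      funext s
      simp only [indicator, mem_Ioc]
    rw [h4]
    exact h3
  simp only [intervalIntegral]
  exact (h _ _ measurable_fst measurable_snd).sub (h _ _ measurable_snd measurable_fst)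

lemma ad (D : LD) (k : ℝ) (hl : D.Lv k) : D.Ad (k : ℂ) :=
  Or.inr ⟨by simp, by simpa using hl.gd, by simpa using hl.low⟩

/-- the phase `b` is real -/
lemma BB_real (hB1 : Stmt_BAS1) (D : LD) (k : ℝ) (hk : -D.a < k) :
    ∃ b : ℝ → ℝ, Continuous b ∧ ∀ y, D.BB k y = (b y : ℂ) := by
  refine ⟨fun y => ∫ s in (-D.R)..y, (√(D.V s + k))⁻¹, ?_, ?_⟩
  · have hc : Continuous (fun s => (√(D.V s + k))⁻¹) := by
      refine Continuous.inv₀ ((D.Vs.continuous.add continuous_const).sqrt) ?_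
      intro s
      have := D.Va s
      exact (Real.sqrt_pos.mpr (by linarith)).ne'
    exact intervalIntegral.continuous_primitive (fun a b => hc.intervalIntegrable a b) _
  · intro y
    unfold LD.BB
    rw [← intervalIntegral.integral_ofReal]
    refine intervalIntegral.integral_congr (fun s _ => ?_)
    simp only [(hB1 D).py_real k s hk.le, Complex.ofReal_inv]

instance instFinNu (D : LD) : IsFiniteMeasure D.nu := by
  unfold LD.nu
  infer_instance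

lemma ii_eq (D : LD) (f : ℝ → ℂ) : ∫ x in (-D.R)..D.R, f x = ∫ x, f x ∂D.nu := by
  have : -D.R ≤ D.R := by have := D.r0; have := D.rR; linarith
  rw [intervalIntegral.integral_of_le this, LD.nu, integral_Icc_eq_integral_Ioc]

lemma pxi_meas (hB1 : Stmt_BAS1) (D : LD) (h : ℂ) : Measurable (fun x => (D.px h x)⁻¹) :=
  ((hB1 D).px_cont h).measurable.inv

lemma pyi_meas (hB1 : Stmt_BAS1) (D : LD) (h : ℂ) : Measurable (fun x => (D.py h x)⁻¹) :=
  ((hB1 D).py_cont h).measurable.inv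

lemma ga_meas (hB1 : Stmt_BAS1) (D : LD) (h : ℂ) :
    Measurable (fun z : ℝ × ℝ => D.ga h z.1 z.2) :=
  (meas_ii _ (pxi_meas hB1 D h)).comp
    ((measurable_fst.min measurable_snd).prodMk (measurable_fst.max measurable_snd))

/-- joint measurability of `Ph` -/
lemma Ph_meas (hB1 : Stmt_BAS1) (D : LD) (k : ℝ) (hk : -D.a < k) :
    Measurable (fun z : ℝ × ℝ => D.Ph k z.1 z.2) := by
  obtain ⟨b, hb, hbe⟩ := BB_real hB1 D k hk
  have h1 : (fun z : ℝ × ℝ => D.Ph k z.1 z.2) = fun z : ℝ × ℝ => ∫ y, (D.φ z.1 y : ℂ) *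
      cexp (-(I * (z.2 : ℂ) * (b y : ℂ))) * (D.py k y)⁻¹ ∂D.nu := by
    funext z
    simp only [LD.Ph, hbe]
    exact ii_eq D _
  rw [h1]
  have h2 : StronglyMeasurable (fun p : (ℝ × ℝ) × ℝ => (D.φ p.1.1 p.2 : ℂ) *
      cexp (-(I * (p.1.2 : ℂ) * (b p.2 : ℂ))) * (D.py k p.2)⁻¹) := by
    apply Measurable.stronglyMeasurable
    refine Measurable.mul (Measurable.mul ?_ ?_) ?_
    · exact Complex.measurable_ofReal.comp
        (D.φm.comp ((measurable_fst.comp measurable_fst).prodMk measurable_snd))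
    · refine Complex.measurable_exp.comp (Measurable.neg ?_)
      refine Measurable.mul (Measurable.mul measurable_const ?_) ?_
      · exact Complex.measurable_ofReal.comp (measurable_snd.comp measurable_fst)
      · exact Complex.measurable_ofReal.comp (hb.measurable.comp measurable_snd)
    · exact (pyi_meas hB1 D k).comp measurable_snd
  exact (h2.integral_prod_right' (ν := D.nu)).measurable

lemma norm_exp_real (t : ℝ) : ‖cexp (-(I * (t : ℂ)))‖ = 1 := by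
  rw [Complex.norm_exp]
  simp

lemma pyi_bdd (hB1 : Stmt_BAS1) (D : LD) (k : ℝ) (hk : -D.a < k) (y : ℝ) :
    ‖(D.py k y)⁻¹‖ ≤ (√(D.a + k))⁻¹ := by
  have := (hB1 D).pyi_low (k : ℂ) y (by simpa using hk)
  simpa using this

lemma Ph_bdd (hB1 : Stmt_BAS1) (D : LD) (k : ℝ) (hk : -D.a < k) :
    ∃ C : ℝ, 0 ≤ C ∧ ∀ x ω : ℝ, ‖D.Ph k x ω‖ ≤ C := by
  obtain ⟨b, hb, hbe⟩ := BB_real hB1 D k hk
  have hB0 : 0 ≤ D.B := le_trans (abs_nonneg _) (D.φb 0 0)
  refine ⟨D.B * (√(D.a + k))⁻¹ * |D.R - -D.R|, by positivity, fun x ω => ?_⟩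
  unfold LD.Ph
  refine intervalIntegral.norm_integral_le_of_norm_le_const (fun y _ => ?_)
  have h1 : ‖cexp (-(I * (ω : ℂ) * D.BB k y))‖ = 1 := by
    rw [hbe, show I * (ω : ℂ) * (b y : ℂ) = I * ((ω * b y : ℝ) : ℂ) by push_cast; ring]
    exact norm_exp_real _
  rw [norm_mul, norm_mul, h1, mul_one, Complex.norm_real]
  exact mul_le_mul (D.φb x y) (pyi_bdd hB1 D k hk y) (norm_nonneg _) hB0

/-- the integrand `Ph / p_x` -/
noncomputable def Pr (D : LD) (k ξ x' : ℝ) : ℂ := D.Ph k x' ξ * (D.px k x')⁻¹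

lemma R_le (D : LD) : -D.R ≤ D.R := by
  have := D.r0
  have := D.rR
  linarith

lemma Pr_ii (hB1 : Stmt_BAS1) (hB2 : Stmt_BAS2) (D : LD) (k : ℝ) (hl : D.Lv k) (ξ : ℝ) :
    IntervalIntegrable (Pr D k ξ) volume (-D.R) D.R := by
  obtain ⟨C, hC0, hC⟩ := Ph_bdd hB1 D k hl.low
  have h1 := (hB2 D).intx k (ad D k hl)
  rw [intervalIntegrable_iff] at h1 ⊢
  refine (h1.norm.const_mul C).mono' ?_ ?_
  · refine Measurable.aestronglyMeasurable ?_
    exact ((Ph_meas hB1 D k hl.low).comp (measurable_id.prodMk measurable_const)).mul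
      (pxi_meas hB1 D k)
  · refine Filter.Eventually.of_forall (fun x => ?_)
    unfold Pr
    rw [norm_mul]
    exact mul_le_mul_of_nonneg_right (hC x ξ) (norm_nonneg _)

lemma AA_cont (hB2 : Stmt_BAS2) (D : LD) (k : ℝ) (hl : D.Lv k) :
    ContinuousOn (fun x => D.AA k x) (uIcc (-D.R) D.R) :=
  intervalIntegral.continuousOn_primitive_interval' ((hB2 D).intx k (ad D k hl)) left_mem_uIcc

/-- the basic integral -/
noncomputable def J (D : LD) (k ξ : ℝ) (ω : ℂ) (u v : ℝ) : ℂ :=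
  ∫ x' in u..v, Pr D k ξ x' * cexp (I * ω * D.AA k x')

lemma J_ii (hB1 : Stmt_BAS1) (hB2 : Stmt_BAS2) (D : LD) (k : ℝ) (hl : D.Lv k) (ξ : ℝ) (ω : ℂ) :
    IntervalIntegrable (fun x' => Pr D k ξ x' * cexp (I * ω * D.AA k x')) volume (-D.R) D.R := by
  refine (Pr_ii hB1 hB2 D k hl ξ).mul_continuousOn ?_
  exact (continuousOn_const.mul (AA_cont hB2 D k hl)).cexp

lemma sub_uIcc {a b u v : ℝ} (hab : a ≤ b) (hu : u ∈ Icc a b) (hv : v ∈ Icc a b) :
    uIcc u v ⊆ uIcc a b := by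
  rw [uIcc_of_le hab]
  exact uIcc_subset_Icc hu hv

lemma J_add (hB1 : Stmt_BAS1) (hB2 : Stmt_BAS2) (D : LD) (k : ℝ) (hl : D.Lv k) (ξ : ℝ) (ω : ℂ)
    (x : ℝ) (hx : x ∈ Icc (-D.R) D.R) :
    J D k ξ ω (-D.R) x + J D k ξ ω x D.R = J D k ξ ω (-D.R) D.R := by
  have hi := J_ii hB1 hB2 D k hl ξ ω
  have hR := R_le D
  exact intervalIntegral.integral_add_adjacent_intervals
    (hi.mono_set (sub_uIcc hR (left_mem_Icc.mpr hR) hx))
    (hi.mono_set (sub_uIcc hR hx (right_mem_Icc.mpr hR)))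

lemma J_zero (D : LD) (k : ℝ) (hl : D.Lv k) (ξ σ : ℝ) (hσ : σ = 1 ∨ σ = -1) :
    J D k ξ ((σ : ℂ) * ξ) (-D.R) D.R = 0 := by
  have h := hl.zero σ hσ (ξ : ℂ)
  unfold LD.EE at h
  unfold J
  rw [← h]
  refine intervalIntegral.integral_congr (fun x _ => ?_)
  simp only [Pr]
  rw [show I * ((σ : ℂ) * ξ) * D.AA k x = I * ξ * σ * D.AA k x by ring]
  ring

lemma AA_sub (hB2 : Stmt_BAS2) (D : LD) (k : ℝ) (hl : D.Lv k) (x x' : ℝ)
    (hx : x ∈ Icc (-D.R) D.R) (hx' : x' ∈ Icc (-D.R) D.R) :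
    ∫ s in x..x', (D.px k s)⁻¹ = D.AA k x' - D.AA k x := by
  have hi := (hB2 D).intx k (ad D k hl)
  have hR := R_le D
  unfold LD.AA
  rw [intervalIntegral.integral_interval_sub_left]
  · exact hi.mono_set (sub_uIcc hR (left_mem_Icc.mpr hR) hx')
  · exact hi.mono_set (sub_uIcc hR (left_mem_Icc.mpr hR) hx)

lemma vv_eq (hB2 : Stmt_BAS2) (D : LD) (k : ℝ) (hl : D.Lv k) (ξ σ x : ℝ)
    (hx : x ∈ Icc (-D.R) D.R) :
    D.vv σ k ξ x = σ * (cexp (-(I * ((σ : ℂ) * ξ) * D.AA k x)) *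
      J D k ξ ((σ : ℂ) * ξ) x D.R) := by
  unfold LD.vv J
  congr 1
  rw [← intervalIntegral.integral_const_mul]
  refine intervalIntegral.integral_congr (fun x' hx' => ?_)
  have hx1 : x' ∈ Icc (-D.R) D.R := by
    rw [uIcc_of_le hx.2] at hx'
    exact ⟨hx.1.trans hx'.1, hx'.2⟩
  simp only [Pr]
  rw [AA_sub hB2 D k hl x x' hx hx1,
    show I * (ξ : ℂ) * σ * (D.AA k x' - D.AA k x) = -(I * ((σ : ℂ) * ξ) * D.AA k x) +
      I * ((σ : ℂ) * ξ) * D.AA k x' by ring, Complex.exp_add]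
  ring

lemma L_eq (hB2 : Stmt_BAS2) (D : LD) (k : ℝ) (hl : D.Lv k) (ξ x : ℝ) (ω : ℂ)
    (hx : x ∈ Icc (-D.R) D.R) :
    ∫ x' in x..D.R, Pr D k ξ x' * cexp (I * ω * D.ga k x x') =
      cexp (-(I * ω * D.AA k x)) * J D k ξ ω x D.R := by
  unfold J
  rw [← intervalIntegral.integral_const_mul]
  refine intervalIntegral.integral_congr (fun x' hx' => ?_)
  rw [uIcc_of_le hx.2] at hx'
  have hx1 : x' ∈ Icc (-D.R) D.R := ⟨hx.1.trans hx'.1, hx'.2⟩
  rw [((hB2 D).ga_eq k x x' (ad D k hl) hx hx1 hx'.1).1,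
    show I * ω * (D.AA k x' - D.AA k x) = -(I * ω * D.AA k x) +
      I * ω * D.AA k x' by ring, Complex.exp_add]
  ring

lemma M_eq (hB2 : Stmt_BAS2) (D : LD) (k : ℝ) (hl : D.Lv k) (ξ x : ℝ) (ω : ℂ)
    (hx : x ∈ Icc (-D.R) D.R) :
    ∫ x' in (-D.R)..x, Pr D k ξ x' * cexp (I * ω * D.ga k x x') =
      cexp (I * ω * D.AA k x) * J D k ξ (-ω) (-D.R) x := by
  unfold J
  rw [← intervalIntegral.integral_const_mul]
  refine intervalIntegral.integral_congr (fun x' hx' => ?_)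
  rw [uIcc_of_le hx.1] at hx'
  have hx1 : x' ∈ Icc (-D.R) D.R := ⟨hx'.1, hx'.2.trans hx.2⟩
  rw [((hB2 D).ga_eq k x' x (ad D k hl) hx1 hx hx'.2).2,
    show I * ω * (D.AA k x - D.AA k x') = I * ω * D.AA k x +
      I * (-ω) * D.AA k x' by ring, Complex.exp_add]
  ring

lemma L_vv (hB2 : Stmt_BAS2) (D : LD) (k : ℝ) (hl : D.Lv k) (ξ σ x : ℝ)
    (hσ : σ = 1 ∨ σ = -1) (hx : x ∈ Icc (-D.R) D.R) :
    ∫ x' in x..D.R, Pr D k ξ x' * cexp (I * ((σ : ℂ) * ξ) * D.ga k x x') =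
      σ * D.vv σ k ξ x := by
  rw [L_eq hB2 D k hl ξ x _ hx, vv_eq hB2 D k hl ξ σ x hx]
  have h3 : (σ : ℂ) * σ = 1 := by rcases hσ with h | h <;> subst h <;> norm_num
  linear_combination (-(cexp (-(I * ((σ : ℂ) * ξ) * D.AA k x)) *
    J D k ξ ((σ : ℂ) * ξ) x D.R)) * h3

lemma M_vv (hB1 : Stmt_BAS1) (hB2 : Stmt_BAS2) (D : LD) (k : ℝ) (hl : D.Lv k) (ξ σ x : ℝ)
    (hσ : σ = 1 ∨ σ = -1) (hx : x ∈ Icc (-D.R) D.R) :
    ∫ x' in (-D.R)..x, Pr D k ξ x' * cexp (I * ((σ : ℂ) * ξ) * D.ga k x x') =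
      σ * D.vv (-σ) k ξ x := by
  rw [M_eq hB2 D k hl ξ x _ hx, vv_eq hB2 D k hl ξ (-σ) x hx]
  have h1 : -((σ : ℂ) * ξ) = ((-σ : ℝ) : ℂ) * ξ := by push_cast; ring
  have h2 := J_add hB1 hB2 D k hl ξ (((-σ : ℝ) : ℂ) * ξ) x hx
  rw [J_zero D k hl ξ (-σ) (by rcases hσ with h | h <;> subst h <;> norm_num)] at h2
  rw [h1, eq_neg_of_add_eq_zero_left h2]
  have h3 : (σ : ℂ) * ((-σ : ℝ) : ℂ) = -1 := by
    rcases hσ with h | h <;> subst h <;> norm_num
  rw [show I * ((σ : ℂ) * ξ) * D.AA k x = -(I * (((-σ : ℝ) : ℂ) * ξ) * D.AA k x) by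
    push_cast; ring]
  linear_combination (-(cexp (-(I * (((-σ : ℝ) : ℂ) * ξ) * D.AA k x)) *
    J D k ξ (((-σ : ℝ) : ℂ) * ξ) x D.R)) * h3

/-- the inner integral -/
noncomputable def WW (D : LD) (m : ℝ → ℝ → ℝ) (k ξ : ℝ) (ω : ℂ) (x : ℝ) : ℂ :=
  ∫ x' in (-D.R)..D.R, (m x x' : ℂ) * (Pr D k ξ x' * cexp (I * ω * D.ga k x x'))

lemma ga_ii (hB1 : Stmt_BAS1) (hB2 : Stmt_BAS2) (D : LD) (k : ℝ) (hl : D.Lv k) (ξ x : ℝ) (ω : ℂ)
    (hx : x ∈ Icc (-D.R) D.R) :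
    IntervalIntegrable (fun x' => Pr D k ξ x' * cexp (I * ω * D.ga k x x')) volume (-D.R) x ∧
    IntervalIntegrable (fun x' => Pr D k ξ x' * cexp (I * ω * D.ga k x x')) volume x D.R := by
  have hR := R_le D
  constructor
  · have h1 := ((J_ii hB1 hB2 D k hl ξ (-ω)).mono_set
      (sub_uIcc hR (left_mem_Icc.mpr hR) hx)).const_mul (cexp (I * ω * D.AA k x))
    refine h1.congr (fun x' hx' => ?_)
    rw [uIoc_of_le hx.1] at hx'
    have hx1 : x' ∈ Icc (-D.R) D.R := ⟨hx'.1.le, hx'.2.trans hx.2⟩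
    rw [((hB2 D).ga_eq k x' x (ad D k hl) hx1 hx hx'.2).2,
      show I * ω * (D.AA k x - D.AA k x') = I * ω * D.AA k x +
        I * (-ω) * D.AA k x' by ring, Complex.exp_add]
    ring
  · have h1 := ((J_ii hB1 hB2 D k hl ξ ω).mono_set
      (sub_uIcc hR hx (right_mem_Icc.mpr hR))).const_mul (cexp (-(I * ω * D.AA k x)))
    refine h1.congr (fun x' hx' => ?_)
    rw [uIoc_of_le hx.2] at hx'
    have hx1 : x' ∈ Icc (-D.R) D.R := ⟨hx.1.trans hx'.1.le, hx'.2⟩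
    rw [((hB2 D).ga_eq k x x' (ad D k hl) hx hx1 hx'.1.le).1,
      show I * ω * (D.AA k x' - D.AA k x) = -(I * ω * D.AA k x) +
        I * ω * D.AA k x' by ring, Complex.exp_add]
    ring

lemma WW_one (hB1 : Stmt_BAS1) (hB2 : Stmt_BAS2) (D : LD) (k : ℝ) (hl : D.Lv k) (ξ σ x : ℝ)
    (hσ : σ = 1 ∨ σ = -1) (hx : x ∈ Icc (-D.R) D.R) :
    WW D (fun _ _ => 1) k ξ ((σ : ℂ) * ξ) x = σ * D.SS k ξ x := by
  obtain ⟨h1, h2⟩ := ga_ii hB1 hB2 D k hl ξ x ((σ : ℂ) * ξ) hx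
  unfold WW
  simp only [Complex.ofReal_one, one_mul]
  rw [← intervalIntegral.integral_add_adjacent_intervals h1 h2, L_vv hB2 D k hl ξ σ x hσ hx,
    M_vv hB1 hB2 D k hl ξ σ x hσ hx]
  unfold LD.SS
  rcases hσ with h | h <;> subst h <;> norm_num <;> ring

lemma WW_sg (hB1 : Stmt_BAS1) (hB2 : Stmt_BAS2) (D : LD) (k : ℝ) (hl : D.Lv k) (ξ σ x : ℝ)
    (hσ : σ = 1 ∨ σ = -1) (hx : x ∈ Icc (-D.R) D.R) :
    WW D sg k ξ ((σ : ℂ) * ξ) x = D.PP k ξ x := by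
  obtain ⟨h1, h2⟩ := ga_ii hB1 hB2 D k hl ξ x ((σ : ℂ) * ξ) hx
  have e1 : ∀ x' ∈ uIoc (-D.R) x, (sg x x' : ℂ) * (Pr D k ξ x' *
      cexp (I * ((σ : ℂ) * ξ) * D.ga k x x')) = -(Pr D k ξ x' *
      cexp (I * ((σ : ℂ) * ξ) * D.ga k x x')) := by
    intro x' hx'
    rw [uIoc_of_le hx.1] at hx'
    have : sg x x' = -1 := by unfold sg; rw [if_neg (not_lt.mpr hx'.2)]
    rw [this]
    push_cast
    ring
  have e2 : ∀ x' ∈ uIoc x D.R, (sg x x' : ℂ) * (Pr D k ξ x' *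
      cexp (I * ((σ : ℂ) * ξ) * D.ga k x x')) = Pr D k ξ x' *
      cexp (I * ((σ : ℂ) * ξ) * D.ga k x x') := by
    intro x' hx'
    rw [uIoc_of_le hx.2] at hx'
    have : sg x x' = 1 := by unfold sg; rw [if_pos hx'.1]
    rw [this]
    push_cast
    ring
  unfold WW
  rw [← intervalIntegral.integral_add_adjacent_intervals
    (h1.neg.congr (fun x' hx' => (e1 x' hx').symm)) (h2.congr (fun x' hx' => (e2 x' hx').symm)),
    intervalIntegral.integral_congr_ae (Filter.Eventually.of_forall e1),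
    intervalIntegral.integral_congr_ae (Filter.Eventually.of_forall e2),
    intervalIntegral.integral_neg, L_vv hB2 D k hl ξ σ x hσ hx, M_vv hB1 hB2 D k hl ξ σ x hσ hx]
  unfold LD.PP
  rcases hσ with h | h <;> subst h <;> norm_num <;> ring

/-- the measure on the half line -/
noncomputable def mo : Measure ℝ := volume.restrict (Ioi 0)

instance instSFmo : SFinite mo := by
  unfold mo
  infer_instance

/-- the integrand of the fourfold integral, `w = ((x', y'), ω)` -/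
noncomputable def G (D : LD) (m : ℝ → ℝ → ℝ) (k τ : ℝ) (c : ℝ → ℝ → ℂ) (b : ℝ → ℝ)
    (x : ℝ) (w : (ℝ × ℝ) × ℝ) : ℂ :=
  ((c (τ * w.2) x) * (m x w.1.1 : ℂ) * cexp (I * (w.2 : ℂ) * D.ga k x w.1.1)) *
    ((D.φ w.1.1 w.1.2 : ℂ) * cexp (-(I * ((τ * w.2 : ℝ) : ℂ) * (b w.1.2 : ℂ))) *
      (D.py k w.1.2)⁻¹ * (D.px k w.1.1)⁻¹)

lemma G_meas (hB1 : Stmt_BAS1) (D : LD) (m : ℝ → ℝ → ℝ) (k τ : ℝ) (c : ℝ → ℝ → ℂ) (b : ℝ → ℝ)
    (hm : Measurable (fun z : ℝ × ℝ => m z.1 z.2))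
    (hc : Measurable (fun z : ℝ × ℝ => c z.1 z.2)) (hb : Continuous b) :
    Measurable (fun z : ℝ × ((ℝ × ℝ) × ℝ) => G D m k τ c b z.1 z.2) := by
  unfold G
  have mx : Measurable (fun z : ℝ × ((ℝ × ℝ) × ℝ) => z.1) := measurable_fst
  have mx' : Measurable (fun z : ℝ × ((ℝ × ℝ) × ℝ) => z.2.1.1) :=
    measurable_fst.comp (measurable_fst.comp measurable_snd)
  have my' : Measurable (fun z : ℝ × ((ℝ × ℝ) × ℝ) => z.2.1.2) :=
    measurable_snd.comp (measurable_fst.comp measurable_snd)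
  have mw : Measurable (fun z : ℝ × ((ℝ × ℝ) × ℝ) => z.2.2) :=
    measurable_snd.comp measurable_snd
  refine Measurable.mul (Measurable.mul (Measurable.mul ?_ ?_) ?_)
    (Measurable.mul (Measurable.mul (Measurable.mul ?_ ?_) ?_) ?_)
  · exact hc.comp ((mw.const_mul τ).prodMk mx)
  · exact Complex.measurable_ofReal.comp (hm.comp (mx.prodMk mx'))
  · exact Complex.measurable_exp.comp ((measurable_const.mul
      (Complex.measurable_ofReal.comp mw)).mul ((ga_meas hB1 D k).comp (mx.prodMk mx')))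
  · exact Complex.measurable_ofReal.comp (D.φm.comp (mx'.prodMk my'))
  · exact Complex.measurable_exp.comp ((measurable_const.mul
      (Complex.measurable_ofReal.comp (mw.const_mul τ))).mul
      (Complex.measurable_ofReal.comp (hb.measurable.comp my'))).neg
  · exact (pyi_meas hB1 D k).comp my'
  · exact (pxi_meas hB1 D k).comp mx'

lemma mo_int (C : ℝ) : Integrable (fun w : ℝ => C / (1 + |w|) ^ 2) mo := by
  have h := integrable_one_add_norm (E := ℝ) (μ := volume) (r := 2) (by simp)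
  have h2 : Integrable (fun w : ℝ => C / (1 + |w|) ^ 2) volume := by
    refine (h.const_mul C).congr (Filter.Eventually.of_forall (fun w => ?_))
    simp only [Real.norm_eq_abs]
    rw [Real.rpow_neg (by positivity), div_eq_mul_inv]
    norm_num
  exact h2.restrict

lemma ae_nu (D : LD) : ∀ᵐ x ∂D.nu, x ∈ Icc (-D.R) D.R := by
  unfold LD.nu
  exact ae_restrict_mem measurableSet_Icc

lemma ae_mo : ∀ᵐ w ∂mo, 0 < w := by
  unfold mo
  exact ae_restrict_mem measurableSet_Ioi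

lemma G_int (hB1 : Stmt_BAS1) (hB2 : Stmt_BAS2) (D : LD) (m : ℝ → ℝ → ℝ) (k τ : ℝ)
    (c : ℝ → ℝ → ℂ) (b : ℝ → ℝ) (hl : D.Lv k)
    (hm : Measurable (fun z : ℝ × ℝ => m z.1 z.2)) (hm1 : ∀ x x', |m x x'| ≤ 1)
    (hc : Measurable (fun z : ℝ × ℝ => c z.1 z.2)) (hb : Continuous b) (hτ : τ = 1 ∨ τ = -1)
    (C : ℝ) (hC : ∀ ω x, ‖c ω x‖ ≤ C / (1 + |ω|) ^ 2) :
    Integrable (fun z : ℝ × ((ℝ × ℝ) × ℝ) => G D m k τ c b z.1 z.2)
      (D.nu.prod ((D.nu.prod D.nu).prod mo)) := by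
  have hB0 : 0 ≤ D.B := le_trans (abs_nonneg _) (D.φb 0 0)
  have hr : Integrable (fun x' => (D.px k x')⁻¹) D.nu := by
    have h1 := (hB2 D).intx k (ad D k hl)
    rw [intervalIntegrable_iff_integrableOn_Icc_of_le (R_le D)] at h1
    exact h1
  have h1 : Integrable (fun z : ℝ × ((ℝ × ℝ) × ℝ) => (1 : ℝ) *
      (((D.B * (√(D.a + k))⁻¹ * ‖(D.px k z.2.1.1)⁻¹‖) * (1 : ℝ)) * (C / (1 + |z.2.2|) ^ 2)))
      (D.nu.prod ((D.nu.prod D.nu).prod mo)) := by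
    have h2 : Integrable (fun z : ℝ × ℝ => (D.B * (√(D.a + k))⁻¹ * ‖(D.px k z.1)⁻¹‖) * (1 : ℝ))
        (D.nu.prod D.nu) :=
      Integrable.mul_prod (f := fun x' => D.B * (√(D.a + k))⁻¹ * ‖(D.px k x')⁻¹‖)
        (g := fun _ => (1 : ℝ)) (hr.norm.const_mul _) (integrable_const _)
    have h3 := h2.mul_prod (mo_int C)
    exact Integrable.mul_prod (f := fun _ : ℝ => (1 : ℝ))
      (g := fun z : (ℝ × ℝ) × ℝ => (D.B * (√(D.a + k))⁻¹ * ‖(D.px k z.1.1)⁻¹‖ * 1) *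
        (C / (1 + |z.2|) ^ 2)) (integrable_const _) h3
  refine h1.mono' (G_meas hB1 D m k τ c b hm hc hb).aestronglyMeasurable ?_
  have a1 : ∀ᵐ z ∂(D.nu.prod ((D.nu.prod D.nu).prod mo)), z.1 ∈ Icc (-D.R) D.R :=
    Measure.quasiMeasurePreserving_fst.ae (ae_nu D)
  have a2 : ∀ᵐ z ∂(D.nu.prod ((D.nu.prod D.nu).prod mo)), z.2.1.1 ∈ Icc (-D.R) D.R :=
    Measure.quasiMeasurePreserving_snd.ae
      (Measure.quasiMeasurePreserving_fst.ae (Measure.quasiMeasurePreserving_fst.ae (ae_nu D)))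
  have a3 : ∀ᵐ z ∂(D.nu.prod ((D.nu.prod D.nu).prod mo)), 0 < z.2.2 :=
    Measure.quasiMeasurePreserving_snd.ae (Measure.quasiMeasurePreserving_snd.ae ae_mo)
  filter_upwards [a1, a2, a3] with z hz1 hz2 hz3
  unfold G
  have e1 : ‖cexp (I * (z.2.2 : ℂ) * D.ga k z.1 z.2.1.1)‖ ≤ 1 := by
    rw [Complex.norm_exp]
    apply Real.exp_le_one_iff.mpr
    have := ((hB2 D).ga_quad k z.1 z.2.1.1 (ad D k hl) hz1 hz2).2
    have h5 : (I * (z.2.2 : ℂ) * D.ga k z.1 z.2.1.1).re = -(z.2.2 * (D.ga k z.1 z.2.1.1).im) := by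
      simp [Complex.mul_re, Complex.mul_im]
    rw [h5]
    have := mul_nonneg hz3.le this
    linarith
  have e2 : ‖cexp (-(I * ((τ * z.2.2 : ℝ) : ℂ) * (b z.2.1.2 : ℂ)))‖ = 1 := by
    rw [show I * ((τ * z.2.2 : ℝ) : ℂ) * (b z.2.1.2 : ℂ) =
      I * ((τ * z.2.2 * b z.2.1.2 : ℝ) : ℂ) by push_cast; ring]
    exact norm_exp_real _
  have e3 : |τ * z.2.2| = |z.2.2| := by
    rcases hτ with h | h <;> subst h <;> simp
  have e4 := hC (τ * z.2.2) z.1
  rw [e3] at e4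
  have e5 := pyi_bdd hB1 D k hl.low z.2.1.2
  have e6 : ‖((m z.1 z.2.1.1 : ℝ) : ℂ)‖ ≤ 1 := by
    rw [Complex.norm_real]
    exact hm1 _ _
  have e7 : ‖((D.φ z.2.1.1 z.2.1.2 : ℝ) : ℂ)‖ ≤ D.B := by
    rw [Complex.norm_real]
    exact D.φb _ _
  have hC0 : 0 ≤ C / (1 + |z.2.2|) ^ 2 := le_trans (norm_nonneg _) e4
  rw [norm_mul, norm_mul, norm_mul, norm_mul, norm_mul, norm_mul, e2]
  have f1 : ‖c (τ * z.2.2) z.1‖ * ‖((m z.1 z.2.1.1 : ℝ) : ℂ)‖ *
      ‖cexp (I * (z.2.2 : ℂ) * D.ga k z.1 z.2.1.1)‖ ≤ C / (1 + |z.2.2|) ^ 2 * 1 * 1 :=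
    mul_le_mul (mul_le_mul e4 e6 (norm_nonneg _) hC0) e1 (norm_nonneg _) (by positivity)
  have f2 : ‖((D.φ z.2.1.1 z.2.1.2 : ℝ) : ℂ)‖ * 1 * ‖(D.py k z.2.1.2)⁻¹‖ *
      ‖(D.px k z.2.1.1)⁻¹‖ ≤ D.B * 1 * (√(D.a + k))⁻¹ * ‖(D.px k z.2.1.1)⁻¹‖ := by
    gcongr
  refine (mul_le_mul f1 f2 (by positivity) (by positivity)).trans (le_of_eq ?_)
  ring

lemma G_inner (D : LD) (m : ℝ → ℝ → ℝ) (k τ : ℝ) (c : ℝ → ℝ → ℂ) (b : ℝ → ℝ)
    (hbe : ∀ y, D.BB k y = (b y : ℂ)) (x w : ℝ) :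
    ∫ x', ∫ y', G D m k τ c b x ((x', y'), w) ∂D.nu ∂D.nu =
      c (τ * w) x * WW D m k (τ * w) w x := by
  unfold WW
  rw [ii_eq D, ← integral_const_mul]
  refine integral_congr_ae (Filter.Eventually.of_forall (fun x' => ?_))
  simp only [G]
  rw [integral_const_mul, integral_mul_const]
  have h1 : ∫ y', (D.φ x' y' : ℂ) * cexp (-(I * ((τ * w : ℝ) : ℂ) * (b y' : ℂ))) *
      (D.py k y')⁻¹ ∂D.nu = D.Ph k x' ((τ * w : ℝ) : ℂ) := by
    unfold LD.Ph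
    rw [ii_eq D]
    simp only [hbe]
  rw [h1]
  unfold Pr
  ring

lemma G_fub (D : LD) (m : ℝ → ℝ → ℝ) (k τ : ℝ) (c : ℝ → ℝ → ℂ) (b : ℝ → ℝ)
    (hbe : ∀ y, D.BB k y = (b y : ℂ))
    (hG : Integrable (fun z : ℝ × ((ℝ × ℝ) × ℝ) => G D m k τ c b z.1 z.2)
      (D.nu.prod ((D.nu.prod D.nu).prod mo))) :
    (∫ x, ∫ x', ∫ y', ∫ w, G D m k τ c b x ((x', y'), w) ∂mo ∂D.nu ∂D.nu ∂D.nu) =
      ∫ x, (∫ w, c (τ * w) x * WW D m k (τ * w) w x ∂mo) ∂D.nu ∧
    Integrable (fun x => ∫ w, c (τ * w) x * WW D m k (τ * w) w x ∂mo) D.nu ∧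
    ∀ᵐ x ∂D.nu, Integrable (fun w : ℝ => c (τ * w) x * WW D m k (τ * w) w x) mo := by
  have hT := hG.integral_prod_left
  have hx := hG.prod_right_ae
  have key : ∀ᵐ x ∂D.nu,
      (∫ x', ∫ y', ∫ w, G D m k τ c b x ((x', y'), w) ∂mo ∂D.nu ∂D.nu) =
        (∫ u, G D m k τ c b x u ∂((D.nu.prod D.nu).prod mo)) ∧
      (∫ w, c (τ * w) x * WW D m k (τ * w) w x ∂mo) =
        (∫ u, G D m k τ c b x u ∂((D.nu.prod D.nu).prod mo)) ∧
      Integrable (fun w : ℝ => c (τ * w) x * WW D m k (τ * w) w x) mo := by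
    filter_upwards [hx] with x hgx
    have h1 := hgx.integral_prod_left
    have h2 := hgx.integral_prod_right
    have h3 := hgx.prod_left_ae
    have h4 : ∀ᵐ w ∂mo, ∫ z, G D m k τ c b x (z, w) ∂(D.nu.prod D.nu) =
        c (τ * w) x * WW D m k (τ * w) w x := by
      filter_upwards [h3] with w hw
      rw [integral_prod _ hw]
      exact G_inner D m k τ c b hbe x w
    refine ⟨?_, ?_, ?_⟩
    · rw [integral_prod _ hgx, integral_prod _ h1]
    · rw [integral_prod_symm _ hgx]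
      exact (integral_congr_ae h4).symm
    · exact h2.congr h4
  refine ⟨?_, ?_, key.mono (fun x h => h.2.2)⟩
  · refine integral_congr_ae (key.mono (fun x h => ?_))
    simp only
    rw [h.1, h.2.1]
  · exact hT.congr (key.mono (fun x h => h.2.1.symm))

/-- the inner integral over `y` -/
lemma inner_y (hKF : Stmt_KF) (hB2 : Stmt_BAS2) (D : LD)
    (Q : ℂ → ℝ → ℝ → ℂ) (hQ : D.QOK Q) (k τ : ℝ) (hτ : τ = 1 ∨ τ = -1) (hl : D.Lv k)
    (c : ℝ → ℝ → ℂ) (b : ℝ → ℝ) (hb : Continuous b) (hbe : ∀ y, D.BB k y = (b y : ℂ))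
    (hcF : ∀ ω x : ℝ, ∫ y in (-D.R)..D.R, Q k x y * cexp (I * ω * D.BB k y) =
      -(ω : ℂ) ^ 2 * c ω x) (x x' y' : ℝ) (hx : x ∈ Icc (-D.R) D.R) (hx' : x' ∈ Icc (-D.R) D.R) :
    ∫ y in (-D.R)..D.R, Q k x y * KK (D.ga k x x' + τ * D.be k y y') =
      -I * ∫ w, c (τ * w) x * cexp (I * (w : ℂ) * D.ga k x x') *
        cexp (-(I * ((τ * w : ℝ) : ℂ) * (b y' : ℂ))) ∂mo := by
  have hlow : ((k : ℂ).im ≠ 0 ∨ -D.a < (k : ℂ).re) := Or.inr (by simpa using hl.low)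
  have hlow2 : (0 < (k : ℂ).im ∨ -D.a < (k : ℂ).re) := Or.inr (by simpa using hl.low)
  have him : 0 ≤ (k : ℂ).im := by simp
  have hqc : Continuous (fun y => Q k x y) := hQ.contY k x him hlow2
  have hm0 := hQ.mom0 k x him hlow2
  have hm1 := hQ.mom1 k x 0 him hlow2
  have hbi : IntervalIntegrable (fun y => Q k x y * (b y : ℂ)) volume (-D.R) D.R :=
    (hqc.mul (Complex.continuous_ofReal.comp hb)).intervalIntegrable _ _
  have hqi : IntervalIntegrable (fun y => Q k x y * (b 0 : ℂ)) volume (-D.R) D.R :=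
    (hqc.mul continuous_const).intervalIntegrable _ _
  have hm2 : ∫ y in (-D.R)..D.R, Q k x y * (b y : ℂ) = 0 := by
    have h1 : (fun y => Q k x y * D.be k y 0) = fun y => Q k x y * (b y : ℂ) -
        Q k x y * (b 0 : ℂ) := by
      funext y
      rw [(hB2 D).be_eq k y 0 hlow, hbe, hbe]
      ring
    rw [h1, intervalIntegral.integral_sub hbi hqi, intervalIntegral.integral_mul_const, hm0,
      zero_mul, sub_zero] at hm1
    exact hm1
  have hm3 : ∫ y in (-D.R)..D.R, Q k x y * ((τ * b y : ℝ) : ℂ) = 0 := by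
    have h1 : (fun y => Q k x y * ((τ * b y : ℝ) : ℂ)) = fun y => (τ : ℂ) *
        (Q k x y * (b y : ℂ)) := by
      funext y
      push_cast
      ring
    rw [h1, intervalIntegral.integral_const_mul, hm2, mul_zero]
  have hζ : 0 ≤ (D.ga k x x' - ((τ * b y' : ℝ) : ℂ)).im := by
    rw [Complex.sub_im, Complex.ofReal_im, sub_zero]
    exact ((hB2 D).ga_quad k x x' (ad D k hl) hx hx').2
  have hk := (hKF (-D.R) D.R (fun y => Q k x y) (fun y => τ * b y)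
    (D.ga k x x' - ((τ * b y' : ℝ) : ℂ)) (R_le D) hqc.continuousOn
    (continuous_const.mul hb).continuousOn hζ hm0 hm3).2
  have h1 : (fun y => Q k x y * KK (D.ga k x x' + τ * D.be k y y')) =
      fun y => Q k x y * KK (((τ * b y : ℝ) : ℂ) + (D.ga k x x' - ((τ * b y' : ℝ) : ℂ))) := by
    funext y
    rw [(hB2 D).be_eq k y y' hlow, hbe, hbe]
    congr 2
    push_cast
    ring
  rw [h1, hk, neg_mul, ← mul_neg, ← integral_neg]
  congr 1
  unfold mo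
  refine setIntegral_congr_fun measurableSet_Ioi (fun w hw => ?_)
  have hw0 : (w : ℂ) ≠ 0 := by
    have : (w : ℝ) ≠ 0 := ne_of_gt hw
    exact_mod_cast this
  have h2 : ∫ y in (-D.R)..D.R, Q k x y * cexp (I * (w : ℂ) * ((τ * b y : ℝ) : ℂ)) =
      -(((τ * w : ℝ) : ℂ)) ^ 2 * c (τ * w) x := by
    rw [← hcF (τ * w) x]
    refine intervalIntegral.integral_congr (fun y _ => ?_)
    rw [hbe]
    congr 2
    push_cast
    ring
  rw [h2]
  have h3 : (τ : ℂ) ^ 2 = 1 := by rcases hτ with h | h <;> subst h <;> norm_num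
  have h4 : cexp (I * (w : ℂ) * (D.ga k x x' - ((τ * b y' : ℝ) : ℂ))) =
      cexp (I * (w : ℂ) * D.ga k x x') * cexp (-(I * ((τ * w : ℝ) : ℂ) * (b y' : ℂ))) := by
    rw [← Complex.exp_add]
    congr 1
    push_cast
    ring
  rw [h4]
  push_cast
  rw [show -((τ : ℂ) * w) ^ 2 = -(w : ℂ) ^ 2 by rw [mul_pow, h3, one_mul]]
  field_simp

lemma HH_eq (hB1 : Stmt_BAS1) (hB2 : Stmt_BAS2) (hKF : Stmt_KF) (hI : Stmt_INT) (D : LD)
    (m : ℝ → ℝ → ℝ) (Q : ℂ → ℝ → ℝ → ℂ) (τ : ℝ) (hH : HOK D m Q τ) (k : ℝ) (hl : D.Lv k)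
    (c : ℝ → ℝ → ℂ) (hc : Measurable (fun z : ℝ × ℝ => c z.1 z.2))
    (hcF : ∀ ω x : ℝ, ∫ y in (-D.R)..D.R, Q k x y * cexp (I * ω * D.BB k y) =
      -(ω : ℂ) ^ 2 * c ω x) (C : ℝ) (hC : ∀ ω x, ‖c ω x‖ ≤ C / (1 + |ω|) ^ 2) :
    D.HH m Q τ k = -I * ∫ x, (∫ w, c (τ * w) x * WW D m k (τ * w) w x ∂mo) ∂D.nu ∧
    Integrable (fun x => ∫ w, c (τ * w) x * WW D m k (τ * w) w x ∂mo) D.nu ∧
    ∀ᵐ x ∂D.nu, Integrable (fun w : ℝ => c (τ * w) x * WW D m k (τ * w) w x) mo := by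
  obtain ⟨b, hb, hbe⟩ := BB_real hB1 D k hl.low
  have hG := G_int hB1 hB2 D m k τ c b hl hH.mm hH.mb hc hb hH.t C hC
  obtain ⟨g1, g2, g3⟩ := G_fub D m k τ c b hbe hG
  refine ⟨?_, g2, g3⟩
  rw [← g1, (hI D m Q τ hH k (ad D k hl)).2, ii_eq D, ← integral_const_mul]
  refine integral_congr_ae ((ae_nu D).mono (fun x hx => ?_))
  simp only
  rw [ii_eq D, ← integral_const_mul]
  refine integral_congr_ae ((ae_nu D).mono (fun x' hx' => ?_))
  simp only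
  rw [ii_eq D, ← integral_const_mul]
  refine integral_congr_ae (Filter.Eventually.of_forall (fun y' => ?_))
  simp only
  rw [inner_y hKF hB2 D Q hH.q k τ hH.t hl c b hb hbe hcF x x' y' hx hx', mul_left_comm]
  congr 1
  rw [← integral_const_mul]
  refine integral_congr_ae (Filter.Eventually.of_forall (fun w => ?_))
  simp only [G]
  ring

lemma split_line (F : ℝ → ℂ) (h1 : Integrable F mo) (h2 : Integrable (fun w => F (-w)) mo) :
    ∫ ω, F ω = (∫ w, F w ∂mo) + ∫ w, F (-w) ∂mo := by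
  have h3 : IntegrableOn F (Iic 0) := by
    have h4 := (Measure.measurePreserving_neg (volume : Measure ℝ)).integrableOn_comp_preimage
      (Homeomorph.neg ℝ).isClosedEmbedding.measurableEmbedding (f := F) (s := Iio 0)
    have h5 : (Neg.neg ⁻¹' (Iio (0 : ℝ))) = Ioi 0 := by
      ext t
      simp
    rw [h5] at h4
    exact (integrableOn_Iic_iff_integrableOn_Iio).mpr (h4.mp h2)
  have h6 : IntegrableOn F (Ioi 0) := h1
  have h7 : Integrable F volume := by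
    rw [← integrableOn_univ, ← Iic_union_Ioi (a := (0 : ℝ))]
    exact h3.union h6
  have e : ∫ w, F (-w) ∂mo = ∫ ω in Iic (0 : ℝ), F ω := by
    have h8 := integral_comp_neg_Iic 0 (fun w => F (-w))
    simp only [neg_neg, neg_zero] at h8
    exact h8.symm
  rw [e]
  have h9 := integral_add_compl (measurableSet_Ioi (a := (0 : ℝ))) h7
  rw [compl_Ioi] at h9
  exact h9.symm

lemma fin_S (hB1 : Stmt_BAS1) (hB2 : Stmt_BAS2) (D : LD) (k : ℝ) (hl : D.Lv k)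
    (c : ℝ → ℝ → ℂ) (x : ℝ) (hx : x ∈ Icc (-D.R) D.R)
    (h1 : Integrable (fun w : ℝ => c (1 * w) x * WW D (fun _ _ => 1) k (1 * w) w x) mo)
    (h2 : Integrable (fun w : ℝ => c (-1 * w) x * WW D (fun _ _ => 1) k (-1 * w) w x) mo) :
    (∫ w, c (1 * w) x * WW D (fun _ _ => 1) k (1 * w) w x ∂mo) -
      (∫ w, c (-1 * w) x * WW D (fun _ _ => 1) k (-1 * w) w x ∂mo) =
      ∫ ω : ℝ, c ω x * D.SS k ω x := by
  have e1 : (fun w : ℝ => c (1 * w) x * WW D (fun _ _ => 1) k (1 * w) w x) =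
      fun w : ℝ => c w x * D.SS k w x := by
    funext w
    have := WW_one hB1 hB2 D k hl w 1 x (Or.inl rfl) hx
    simp only [Complex.ofReal_one, one_mul] at this ⊢
    rw [this]
  have e2 : (fun w : ℝ => c (-1 * w) x * WW D (fun _ _ => 1) k (-1 * w) w x) =
      fun w : ℝ => -(c (-w) x * D.SS k ((-w : ℝ) : ℂ) x) := by
    funext w
    have := WW_one hB1 hB2 D k hl (-w) (-1) x (Or.inr rfl) hx
    rw [show (((-1 : ℝ) : ℂ) * ((-w : ℝ) : ℂ)) = (w : ℂ) by push_cast; ring] at this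
    rw [neg_one_mul, this]
    push_cast
    ring
  rw [e1] at h1 ⊢
  rw [e2] at h2 ⊢
  rw [integral_neg, sub_neg_eq_add]
  have h3 : Integrable (fun w : ℝ => c (-w) x * D.SS k ((-w : ℝ) : ℂ) x) mo := by
    have := h2.neg
    refine this.congr (Filter.Eventually.of_forall (fun w => ?_))
    simp
  exact (split_line (fun w => c w x * D.SS k w x) h1 h3).symm

lemma fin_P (hB1 : Stmt_BAS1) (hB2 : Stmt_BAS2) (D : LD) (k : ℝ) (hl : D.Lv k)
    (c : ℝ → ℝ → ℂ) (x : ℝ) (hx : x ∈ Icc (-D.R) D.R)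
    (h1 : Integrable (fun w : ℝ => c (1 * w) x * WW D sg k (1 * w) w x) mo)
    (h2 : Integrable (fun w : ℝ => c (-1 * w) x * WW D sg k (-1 * w) w x) mo) :
    (∫ w, c (1 * w) x * WW D sg k (1 * w) w x ∂mo) +
      (∫ w, c (-1 * w) x * WW D sg k (-1 * w) w x ∂mo) =
      ∫ ω : ℝ, c ω x * D.PP k ω x := by
  have e1 : (fun w : ℝ => c (1 * w) x * WW D sg k (1 * w) w x) =
      fun w : ℝ => c w x * D.PP k w x := by
    funext w
    have := WW_sg hB1 hB2 D k hl w 1 x (Or.inl rfl) hx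
    simp only [Complex.ofReal_one, one_mul] at this ⊢
    rw [this]
  have e2 : (fun w : ℝ => c (-1 * w) x * WW D sg k (-1 * w) w x) =
      fun w : ℝ => c (-w) x * D.PP k ((-w : ℝ) : ℂ) x := by
    funext w
    have := WW_sg hB1 hB2 D k hl (-w) (-1) x (Or.inr rfl) hx
    rw [show (((-1 : ℝ) : ℂ) * ((-w : ℝ) : ℂ)) = (w : ℂ) by push_cast; ring] at this
    rw [neg_one_mul, this]
  rw [e1] at h1 ⊢
  rw [e2] at h2 ⊢
  exact (split_line (fun w => c w x * D.PP k w x) h1 h2).symm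

lemma sg_meas : Measurable (fun z : ℝ × ℝ => sg z.1 z.2) := by
  unfold sg
  exact Measurable.ite (measurableSet_lt measurable_fst measurable_snd) measurable_const
    measurable_const

lemma sg_abs (x x' : ℝ) : |sg x x'| ≤ 1 := by
  unfold sg
  split_ifs <;> norm_num

/-- joint measurability of the transforms of the test functions -/
lemma c_meas (hB1 : Stmt_BAS1) (D : LD) (k : ℝ) (hk : -D.a < k) (ψ : ℝ → ℝ → ℝ)
    (hψ : TF D.R ψ) :
    Measurable (fun z : ℝ × ℝ => D.cS ψ k z.1 z.2) ∧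
    Measurable (fun z : ℝ × ℝ => D.c0 ψ k z.1 z.2) := by
  obtain ⟨b, hb, hbe⟩ := BB_real hB1 D k hk
  have mω : Measurable (fun p : (ℝ × ℝ) × ℝ => p.1.1) := measurable_fst.comp measurable_fst
  have mx : Measurable (fun p : (ℝ × ℝ) × ℝ => p.1.2) := measurable_snd.comp measurable_fst
  have my : Measurable (fun p : (ℝ × ℝ) × ℝ => p.2) := measurable_snd
  have mψ : Measurable (fun p : (ℝ × ℝ) × ℝ => (ψ p.1.2 p.2 : ℂ)) :=
    Complex.measurable_ofReal.comp (hψ.smooth.continuous.measurable.comp (mx.prodMk my))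
  have me : Measurable (fun p : (ℝ × ℝ) × ℝ => cexp (I * (p.1.1 : ℂ) * (b p.2 : ℂ))) :=
    Complex.measurable_exp.comp ((measurable_const.mul (Complex.measurable_ofReal.comp mω)).mul
      (Complex.measurable_ofReal.comp (hb.measurable.comp my)))
  have mp : Measurable (fun p : (ℝ × ℝ) × ℝ => D.py k p.2) :=
    ((hB1 D).py_cont k).measurable.comp my
  constructor
  · have h1 : (fun z : ℝ × ℝ => D.cS ψ k z.1 z.2) = fun z : ℝ × ℝ => ∫ y, (ψ z.2 y : ℂ) *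
        D.py k y * cexp (I * (z.1 : ℂ) * (b y : ℂ)) ∂D.nu := by
      funext z
      simp only [LD.cS, hbe]
      exact ii_eq D _
    rw [h1]
    exact (((mψ.mul mp).mul me).stronglyMeasurable.integral_prod_right' (ν := D.nu)).measurable
  · have h1 : (fun z : ℝ × ℝ => D.c0 ψ k z.1 z.2) = fun z : ℝ × ℝ => ∫ y, (ψ z.2 y : ℂ) *
        cexp (I * (z.1 : ℂ) * (b y : ℂ)) ∂D.nu := by
      funext z
      simp only [LD.c0, hbe]
      exact ii_eq D _
    rw [h1]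
    exact ((mψ.mul me).stronglyMeasurable.integral_prod_right' (ν := D.nu)).measurable

lemma pref (X Y : ℂ) : -(2 * (Real.pi : ℂ) * I)⁻¹ * (-I * X - -I * Y) =
    (2 * Real.pi : ℂ)⁻¹ * (X - Y) := by
  have h1 : (Real.pi : ℂ) ≠ 0 := by exact_mod_cast Real.pi_ne_zero
  field_simp
  ring

lemma px_bdd (hB1 : Stmt_BAS1) (D : LD) (k x : ℝ) : ‖D.px k x‖ ≤ √(D.B + |k|) := by
  rw [(hB1 D).px_norm]
  apply Real.sqrt_le_sqrt
  rw [← Complex.ofReal_sub, Complex.norm_real, Real.norm_eq_abs]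
  have h1 := D.Ua x
  have h2 := D.UB x
  have h3 := D.a0
  refine (abs_sub _ _).trans ?_
  rw [abs_of_nonneg (by linarith : 0 ≤ D.U x)]
  linarith

end STARAux

open STARAux in
/-- **the functionals in the Fourier variable** -/
theorem star_ (hB1 : Stmt_BAS1) (hB2 : Stmt_BAS2) (hB3 : Stmt_BAS3) (hKF : Stmt_KF)
    (hQ : Stmt_QOK) (hQF : Stmt_QF) (hI : Stmt_INT) (hV : Stmt_VB) (hDec : Stmt_DEC) :
    Stmt_STAR := by
  intro D ψ hψ k hl
  obtain ⟨hQS, hQP⟩ := hQ D ψ hψ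
  obtain ⟨C, hC⟩ := hDec D ψ hψ k hl.low 2
  obtain ⟨mS, m0⟩ := c_meas hB1 D k hl.low ψ hψ
  constructor
  · have H : ∀ τ : ℝ, (τ = 1 ∨ τ = -1) → _ := fun τ hτ =>
      HH_eq hB1 hB2 hKF hI D (fun _ _ => 1) (D.QS ψ) τ
        ⟨measurable_const, fun _ _ => by simp, hQS, hτ⟩ k hl (fun ω x => D.cS ψ k ω x) mS
        (fun ω x => (hQF D ψ hψ k ω x hl.low).1) C (fun ω x => (hC x ω).2)
    obtain ⟨a1, a2, a3⟩ := H 1 (Or.inl rfl)
    obtain ⟨b1, b2, b3⟩ := H (-1) (Or.inr rfl)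
    unfold LD.FS
    rw [a1, b1, pref, ← integral_sub a2 b2, ii_eq D]
    congr 1
    refine integral_congr_ae ?_
    filter_upwards [ae_nu D, a3, b3] with x hx i1 i2
    exact fin_S hB1 hB2 D k hl (fun ω x => D.cS ψ k ω x) x hx i1 i2
  · have H : ∀ τ : ℝ, (τ = 1 ∨ τ = -1) → _ := fun τ hτ =>
      HH_eq hB1 hB2 hKF hI D sg (D.QP ψ) τ
        ⟨sg_meas, sg_abs, hQP, hτ⟩ k hl (fun ω x => D.px k x * D.c0 ψ k ω x)
        ((((hB1 D).px_cont k).measurable.comp measurable_snd).mul m0)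
        (fun ω x => (hQF D ψ hψ k ω x hl.low).2) (√(D.B + |k|) * C) (fun ω x => by
          rw [norm_mul, mul_div_assoc]
          exact mul_le_mul (px_bdd hB1 D k x) (hC x ω).1 (norm_nonneg _) (Real.sqrt_nonneg _))
    obtain ⟨a1, a2, a3⟩ := H 1 (Or.inl rfl)
    obtain ⟨b1, b2, b3⟩ := H (-1) (Or.inr rfl)
    unfold LD.FP
    have h5 : ∀ X Y : ℂ, -(2 * (Real.pi : ℂ) * I)⁻¹ * (-I * X + -I * Y) =
        (2 * Real.pi : ℂ)⁻¹ * (X + Y) := by
      intro X Y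
      have := pref X (-Y)
      rw [sub_neg_eq_add] at this
      rw [← this]
      ring
    rw [a1, b1, h5, ← integral_add a2 b2, ii_eq D]
    congr 1
    refine integral_congr_ae ?_
    filter_upwards [ae_nu D, a3, b3] with x hx i1 i2
    exact fin_P hB1 hB2 D k hl (fun ω x => D.px k x * D.c0 ψ k ω x) x hx i1 i2

end Pool.Agent.LIO
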