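import Pool.Agent.LIO.Stmts

/-!
# Liouville metrics: the bound which is uniform in the constant `d`
-/

set_option autoImplicit false

namespace Pool.Agent.LIO

open Complex MeasureTheory Set Filter Topology

namespace SUPAux

/-- the remainder -/
noncomputable def rr (d β : ℂ) : ℂ :=
  d * ((1 + β / d) * Complex.log (1 + β / d) - β / d)

theorem log_split (d w : ℂ) (hd : d ≠ 0) (hre : 0 ≤ d.re) (him : 0 ≤ d.im) (hw : ‖w‖ ≤ 1 / 2) :
    Complex.log (-(I * d) * (1 + w)) = Complex.log (-(I * d)) + Complex.log (1 + w) := by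
  have hw1 : 0 < (1 + w).re := by
    have h1 : |w.re| ≤ ‖w‖ := Complex.abs_re_le_norm w
    have h2 := (abs_le.mp (h1.trans hw)).1
    simp only [add_re, one_re]
    linarith
  have h0 : -(I * d) ≠ 0 := neg_ne_zero.mpr (mul_ne_zero I_ne_zero hd)
  have h1 : (1 : ℂ) + w ≠ 0 := by
    intro h
    rw [h] at hw1
    simp at hw1
  rw [Complex.log_mul_eq_add_log_iff h0 h1]
  have hr : (-(I * d)).re = d.im := by simp
  have hi : (-(I * d)).im = -d.re := by simp
  have ha1 : |(-(I * d)).arg| ≤ Real.pi / 2 := by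
    rw [Complex.abs_arg_le_pi_div_two_iff, hr]
    exact him
  have ha2 : |(1 + w).arg| < Real.pi / 2 := by
    rw [Complex.abs_arg_lt_pi_div_two_iff]
    exact Or.inl hw1
  have b1 := abs_le.mp ha1
  have b2 := abs_lt.mp ha2
  constructor
  · linarith [b1.1, b2.1]
  · linarith [b1.2, b2.2]

theorem KK_split (d β : ℂ) (hd : d ≠ 0) (hre : 0 ≤ d.re) (him : 0 ≤ d.im)
    (hw : ‖β / d‖ ≤ 1 / 2) :
    KK (d + β) = d * Complex.log (-(I * d)) + (Complex.log (-(I * d)) + 1) * β + rr d β := by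
  have h1 : -(I * (d + β)) = -(I * d) * (1 + β / d) := by
    field_simp
  have h2 : β = d * (β / d) := by field_simp
  unfold KK rr
  rw [h1, log_split d (β / d) hd hre him hw]
  generalize hz : β / d = w at *
  rw [h2]
  ring

theorem rr_le (d β : ℂ) (hd : d ≠ 0) (hw : ‖β / d‖ ≤ 1 / 2) (hd1 : 1 ≤ ‖d‖) :
    ‖rr d β‖ ≤ 5 / 2 * ‖β‖ ^ 2 := by
  have hdp : 0 < ‖d‖ := by linarith
  have hb : ‖β‖ = ‖d‖ * ‖β / d‖ := by
    rw [norm_div]
    field_simp
  unfold rr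
  generalize hz : β / d = w at *
  have h1 : ‖Complex.log (1 + w) - w‖ ≤ ‖w‖ ^ 2 := by
    have h := Complex.norm_log_one_add_sub_self_le (z := w) (by linarith)
    refine h.trans ?_
    have h2 : (1 - ‖w‖)⁻¹ ≤ 2 := by
      rw [inv_le_comm₀ (by linarith) (by norm_num)]
      linarith
    have h3 : ‖w‖ ^ 2 * (1 - ‖w‖)⁻¹ ≤ ‖w‖ ^ 2 * 2 :=
      mul_le_mul_of_nonneg_left h2 (by positivity)
    linarith
  have h2 : (1 + w) * Complex.log (1 + w) - w = (1 + w) * (Complex.log (1 + w) - w) + w ^ 2 := by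
    ring
  have h3 : ‖1 + w‖ ≤ 3 / 2 := by
    have := norm_add_le (1 : ℂ) w
    rw [norm_one] at this
    linarith
  have h4 : ‖(1 + w) * Complex.log (1 + w) - w‖ ≤ 5 / 2 * ‖w‖ ^ 2 := by
    rw [h2]
    refine (norm_add_le _ _).trans ?_
    rw [norm_mul, norm_pow]
    have := mul_le_mul h3 h1 (norm_nonneg _) (by norm_num)
    linarith
  rw [norm_mul, hb]
  have h5 : ‖d‖ ≤ ‖d‖ ^ 2 := by nlinarith
  calc ‖d‖ * ‖(1 + w) * Complex.log (1 + w) - w‖ ≤ ‖d‖ ^ 2 * (5 / 2 * ‖w‖ ^ 2) :=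
        mul_le_mul h5 h4 (norm_nonneg _) (by positivity)
    _ = 5 / 2 * (‖d‖ * ‖w‖) ^ 2 := by ring

theorem rr_cont (c e : ℝ) (β : ℝ → ℂ) (d : ℂ) (hβ : ContinuousOn β (Icc c e))
    (hw : ∀ y ∈ Icc c e, ‖β y / d‖ ≤ 1 / 2) :
    ContinuousOn (fun y => rr d (β y)) (Icc c e) := by
  have h1 : ContinuousOn (fun y => β y / d) (Icc c e) := hβ.div_const d
  have h2 : ContinuousOn (fun y => 1 + β y / d) (Icc c e) := continuousOn_const.add h1
  have h3 : ContinuousOn (fun y => Complex.log (1 + β y / d)) (Icc c e) := by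
    apply ContinuousOn.clog h2
    intro y hy
    left
    have h1 : |(β y / d).re| ≤ ‖β y / d‖ := Complex.abs_re_le_norm _
    have h2 := (abs_le.mp (h1.trans (hw y hy))).1
    simp only [add_re, one_re]
    linarith
  exact continuousOn_const.mul ((h2.mul h3).sub h1)

theorem big (S : ℝ) (c e : ℝ) (q β : ℝ → ℂ) (d : ℂ) (M : ℝ) (hce : c ≤ e)
    (hq : ContinuousOn q (Icc c e)) (hβ : ContinuousOn β (Icc c e))
    (hβS : ∀ y ∈ Icc c e, ‖β y‖ ≤ S) (hqM : ∀ y ∈ Icc c e, ‖q y‖ ≤ M)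
    (hre : 0 ≤ d.re) (him : 0 ≤ d.im) (h0 : ∫ y in c..e, q y = 0)
    (h1 : ∫ y in c..e, q y * β y = 0) (hd : 2 * S + 1 < ‖d‖) :
    ‖∫ y in c..e, q y * KK (d + β y)‖ ≤ 5 / 2 * S ^ 2 * M * (e - c) := by
  have hS : 0 ≤ S := (norm_nonneg _).trans (hβS c ⟨le_rfl, hce⟩)
  have hM : 0 ≤ M := (norm_nonneg _).trans (hqM c ⟨le_rfl, hce⟩)
  have hdp : 0 < ‖d‖ := by linarith
  have hd0 : d ≠ 0 := norm_pos_iff.mp hdp
  have hw : ∀ y ∈ Icc c e, ‖β y / d‖ ≤ 1 / 2 := by
    intro y hy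
    rw [norm_div, div_le_iff₀ hdp]
    have := hβS y hy
    linarith
  have hI : Set.uIcc c e = Icc c e := Set.uIcc_of_le hce
  have hcr := rr_cont c e β d hβ hw
  have i0 : IntervalIntegrable (fun y => d * Complex.log (-(I * d)) * q y) volume c e :=
    ContinuousOn.intervalIntegrable (by rw [hI]; exact continuousOn_const.mul hq)
  have i1 : IntervalIntegrable (fun y => (Complex.log (-(I * d)) + 1) * (q y * β y))
      volume c e :=
    ContinuousOn.intervalIntegrable (by rw [hI]; exact continuousOn_const.mul (hq.mul hβ))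
  have i2 : IntervalIntegrable (fun y => q y * rr d (β y)) volume c e :=
    ContinuousOn.intervalIntegrable (by rw [hI]; exact hq.mul hcr)
  have key : ∫ y in c..e, q y * KK (d + β y) = ∫ y in c..e, q y * rr d (β y) := by
    have e1 : ∫ y in c..e, q y * KK (d + β y) =
        ∫ y in c..e, (d * Complex.log (-(I * d)) * q y +
          (Complex.log (-(I * d)) + 1) * (q y * β y)) + q y * rr d (β y) := by
      apply intervalIntegral.integral_congr
      intro y hy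
      rw [hI] at hy
      show q y * KK (d + β y) = _
      rw [KK_split d (β y) hd0 hre him (hw y hy)]
      ring
    rw [e1, intervalIntegral.integral_add (i0.add i1) i2, intervalIntegral.integral_add i0 i1,
      intervalIntegral.integral_const_mul, intervalIntegral.integral_const_mul, h0, h1]
    simp
  rw [key]
  have hb : ∀ y ∈ Set.uIoc c e, ‖q y * rr d (β y)‖ ≤ 5 / 2 * S ^ 2 * M := by
    intro y hy
    rw [Set.uIoc_of_le hce] at hy
    have hy' : y ∈ Icc c e := Ioc_subset_Icc_self hy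
    have a1 := rr_le d (β y) hd0 (hw y hy') (by linarith)
    have a2 := hβS y hy'
    have a3 := hqM y hy'
    have a4 : ‖β y‖ ^ 2 ≤ S ^ 2 := pow_le_pow_left₀ (norm_nonneg _) a2 2
    rw [norm_mul]
    calc ‖q y‖ * ‖rr d (β y)‖ ≤ M * (5 / 2 * S ^ 2) :=
          mul_le_mul a3 (by linarith) (norm_nonneg _) hM
      _ = 5 / 2 * S ^ 2 * M := by ring
  have := intervalIntegral.norm_integral_le_of_norm_le_const hb
  rwa [abs_of_nonneg (by linarith)] at this

theorem small (S C : ℝ) (hC : 0 < C) (hK : ∀ ζ, ‖KK ζ‖ ≤ C * (√‖ζ‖ + ‖ζ‖ ^ 2))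
    (c e : ℝ) (q β : ℝ → ℂ) (d : ℂ) (M : ℝ) (hce : c ≤ e)
    (hβS : ∀ y ∈ Icc c e, ‖β y‖ ≤ S) (hqM : ∀ y ∈ Icc c e, ‖q y‖ ≤ M)
    (hd : ‖d‖ ≤ 2 * S + 1) :
    ‖∫ y in c..e, q y * KK (d + β y)‖ ≤
      C * (√(3 * S + 1) + (3 * S + 1) ^ 2) * M * (e - c) := by
  have hM : 0 ≤ M := (norm_nonneg _).trans (hqM c ⟨le_rfl, hce⟩)
  have hb : ∀ y ∈ Set.uIoc c e, ‖q y * KK (d + β y)‖ ≤
      C * (√(3 * S + 1) + (3 * S + 1) ^ 2) * M := by
    intro y hy
    rw [Set.uIoc_of_le hce] at hy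
    have hy' : y ∈ Icc c e := Ioc_subset_Icc_self hy
    have a1 : ‖d + β y‖ ≤ 3 * S + 1 := by
      have := norm_add_le d (β y)
      have := hβS y hy'
      linarith
    have a2 : √‖d + β y‖ ≤ √(3 * S + 1) := Real.sqrt_le_sqrt a1
    have a3 : ‖d + β y‖ ^ 2 ≤ (3 * S + 1) ^ 2 := pow_le_pow_left₀ (norm_nonneg _) a1 2
    have a4 : ‖KK (d + β y)‖ ≤ C * (√(3 * S + 1) + (3 * S + 1) ^ 2) :=
      (hK _).trans (mul_le_mul_of_nonneg_left (by linarith) hC.le)
    rw [norm_mul]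
    calc ‖q y‖ * ‖KK (d + β y)‖ ≤ M * (C * (√(3 * S + 1) + (3 * S + 1) ^ 2)) :=
          mul_le_mul (hqM y hy') a4 (norm_nonneg _) hM
      _ = _ := by ring
  have := intervalIntegral.norm_integral_le_of_norm_le_const hb
  rwa [abs_of_nonneg (by linarith)] at this

end SUPAux

theorem sup_bound (hK : Stmt_KER) : Stmt_SUP := by
  obtain ⟨_, _, _, C, hC, hKb⟩ := hK
  intro S
  refine ⟨5 / 2 * S ^ 2 + C * (√(3 * S + 1) + (3 * S + 1) ^ 2), by positivity, ?_⟩
  intro c e q β d M hce hq hβ hβS hqM hre him h0 h1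
  have hM : 0 ≤ M := (norm_nonneg _).trans (hqM c ⟨le_rfl, hce⟩)
  have hMe : 0 ≤ M * (e - c) := mul_nonneg hM (by linarith)
  have p1 : 0 ≤ 5 / 2 * S ^ 2 * (M * (e - c)) := mul_nonneg (by positivity) hMe
  have p2 : 0 ≤ C * (√(3 * S + 1) + (3 * S + 1) ^ 2) * (M * (e - c)) :=
    mul_nonneg (by positivity) hMe
  rcases le_or_gt ‖d‖ (2 * S + 1) with hd | hd
  · have := SUPAux.small S C hC hKb c e q β d M hce hβS hqM hd
    nlinarith
  · have := SUPAux.big S c e q β d M hce hq hβ hβS hqM hre him h0 h1 hd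
    nlinarith

end Pool.Agent.LIO
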