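import Pool.Agent.LIO.Stmts

/-!
# SUPP: the functional `FS` vanishes on the test functions supported to the left of the data
-/

set_option autoImplicit false

namespace Pool.Agent.LIO

open Complex MeasureTheory Set Filter Topology

namespace SUPPAux

theorem Ph_zero (D : LD) (h : ℂ) (ω : ℂ) {x : ℝ} (hx : D.r ≤ |x|) : D.Ph h x ω = 0 := by
  unfold LD.Ph
  have : ∀ y : ℝ, (D.φ x y : ℂ) * cexp (-(I * ω * D.BB h y)) * (D.py h y)⁻¹ = 0 := by
    intro y
    rw [D.φs x y (Or.inl hx)]
    simp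
  simp only [this]
  exact intervalIntegral.integral_zero

theorem phase (D : LD) (hB2 : Stmt_BAS2) {k : ℝ} (hk : D.Lv k) {x x' : ℝ}
    (hx : x ∈ Icc (-D.R) D.R) (hx' : x' ∈ Icc (-D.R) D.R) :
    ∫ s in x..x', (D.px k s)⁻¹ = D.AA k x' - D.AA k x := by
  have had : D.Ad (k : ℂ) := by
    refine Or.inr ⟨Complex.ofReal_im k, ?_, ?_⟩
    · rw [Complex.ofReal_re]
      exact hk.gd
    · rw [Complex.ofReal_re]
      exact hk.low
  have hint := (hB2 D).intx (k : ℂ) had
  have hR : -D.R ≤ D.R := by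
    have := D.r0
    have := D.rR
    linarith
  unfold LD.AA
  rw [intervalIntegral.integral_interval_sub_left]
  · refine hint.mono_set ?_
    rw [uIcc_of_le hx'.1, uIcc_of_le hR]
    exact Icc_subset_Icc le_rfl hx'.2
  · refine hint.mono_set ?_
    rw [uIcc_of_le hx.1, uIcc_of_le hR]
    exact Icc_subset_Icc le_rfl hx.2

theorem vv_zero (D : LD) (hB2 : Stmt_BAS2) {k : ℝ} (hk : D.Lv k) {σ : ℝ} (hσ : σ = 1 ∨ σ = -1)
    (ω : ℂ) {x : ℝ} (hx : x ∈ Icc (-D.R) D.R) (hxr : x < -D.r) : D.vv σ k ω x = 0 := by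
  have hR : -D.R ≤ D.R := by
    have := D.r0
    have := D.rR
    linarith
  have hr := D.r0
  unfold LD.vv
  have key : ∫ x' in x..D.R, D.Ph k x' ω * (D.px k x')⁻¹ *
      cexp (I * ω * σ * ∫ s in x..x', (D.px k s)⁻¹) =
      D.EE σ k ω * cexp (-(I * ω * σ * D.AA k x)) := by
    unfold LD.EE
    rw [intervalIntegral.integral_of_le hx.2, intervalIntegral.integral_of_le hR,
      ← MeasureTheory.integral_mul_const]
    symm
    rw [MeasureTheory.setIntegral_eq_of_subset_of_forall_sdiff_eq_zero (s := Ioc x D.R)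
      measurableSet_Ioc (Ioc_subset_Ioc_left hx.1)]
    · refine MeasureTheory.setIntegral_congr_fun measurableSet_Ioc ?_
      intro x' hx'
      have hx'' : x' ∈ Icc (-D.R) D.R := ⟨le_trans hx.1 hx'.1.le, hx'.2⟩
      beta_reduce
      rw [phase D hB2 hk hx hx'', mul_sub, sub_eq_add_neg, Complex.exp_add]
      ring
    · intro x' hx'
      have h1 : x' ≤ x := by
        by_contra hcon
        rw [not_le] at hcon
        exact hx'.2 ⟨hcon, hx'.1.2⟩
      have h2 : D.r ≤ |x'| := by
        rw [abs_of_neg (by linarith)]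
        linarith
      rw [Ph_zero D k ω h2]
      simp
  rw [key, hk.zero σ hσ ω]
  simp

end SUPPAux

open SUPPAux in
theorem supp_ (_hB1 : Stmt_BAS1) (hB2 : Stmt_BAS2) (hSt : Stmt_STAR) : Stmt_SUPP := by
  intro D ψ hψ hz k hk
  have hR : -D.R ≤ D.R := by
    have := D.r0
    have := D.rR
    linarith
  rw [(hSt D ψ hψ k hk).1]
  have hin : ∫ x in (-D.R)..D.R, ∫ ω : ℝ, D.cS ψ k ω x * D.SS k ω x =
      ∫ _x in (-D.R)..D.R, (0 : ℂ) := by
    refine intervalIntegral.integral_congr ?_
    intro x hx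
    rw [uIcc_of_le hR] at hx
    have hw : ∀ ω : ℝ, D.cS ψ k ω x * D.SS k ω x = 0 := by
      intro ω
      rcases lt_or_ge x (-D.r) with h | h
      · unfold LD.SS
        rw [vv_zero D hB2 hk (Or.inl rfl) _ hx h, vv_zero D hB2 hk (Or.inr rfl) _ hx h]
        simp
      · have : D.cS ψ k ω x = 0 := by
          unfold LD.cS
          have h0 : ∀ y : ℝ, (ψ x y : ℂ) * D.py k y * cexp (I * ω * D.BB k y) = 0 := by
            intro y
            rw [hz x y h]
            simp
          simp only [h0]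
          exact intervalIntegral.integral_zero
        rw [this, zero_mul]
    simp only [hw]
    exact MeasureTheory.integral_zero _ _
  rw [hin, intervalIntegral.integral_zero, mul_zero]

end Pool.Agent.LIO
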