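import Pool.Agent.LIO.Stmts
import Pool.Agent.Lib_helper92.XRay.Level

/-!
# Exchange of the variables
-/

set_option autoImplicit false

namespace Pool.Agent.LIO

open Complex MeasureTheory Set Filter Topology

namespace SWAPAux

/-- the diagonal singularity is integrable -/
theorem int_w (R : ℝ) : Integrable (fun p : ℝ × ℝ => (√|p.1 - p.2|)⁻¹)
    ((volume.restrict (Icc (-R) R)).prod (volume.restrict (Icc (-R) R))) := by
  have hm : Measurable (fun p : ℝ × ℝ => (√|p.1 - p.2|)⁻¹) :=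
    (by fun_prop : Measurable (fun p : ℝ × ℝ => √|p.1 - p.2|)).inv
  have hsl : ∀ x : ℝ, IntervalIntegrable (fun y : ℝ => (√|x - y|)⁻¹) volume (-R) R := by
    intro x
    have h := (XRay.intervalIntegrable_inv_sqrt_abs (x - -R) (x - R)).comp_sub_left x
    simpa using h
  rcases le_or_gt (-R) R with hR | hR
  · rw [integrable_prod_iff hm.aestronglyMeasurable]
    constructor
    · refine Eventually.of_forall fun x => ?_
      have h := hsl x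
      rw [intervalIntegrable_iff_integrableOn_Icc_of_le hR] at h
      exact h
    · have hb : ∀ᵐ x ∂(volume.restrict (Icc (-R) R)),
          ‖∫ y, ‖(√|x - y|)⁻¹‖ ∂(volume.restrict (Icc (-R) R))‖ ≤
            ∫ u in (-(2 * R))..(2 * R), (√|u|)⁻¹ := by
        refine (ae_restrict_iff' measurableSet_Icc).2 (Eventually.of_forall fun x hx => ?_)
        have h0 : ∀ y : ℝ, ‖(√|x - y|)⁻¹‖ = (√|x - y|)⁻¹ := fun y =>
          Real.norm_of_nonneg (inv_nonneg.2 (Real.sqrt_nonneg _))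
        simp only [h0]
        rw [integral_Icc_eq_integral_Ioc, ← intervalIntegral.integral_of_le hR,
          intervalIntegral.integral_comp_sub_left (fun u => (√|u|)⁻¹) x]
        rw [Real.norm_of_nonneg (intervalIntegral.integral_nonneg (by linarith)
          fun u _ => inv_nonneg.2 (Real.sqrt_nonneg _))]
        refine intervalIntegral.integral_mono_interval (by linarith [hx.1]) (by linarith)
          (by linarith [hx.2]) ?_ (XRay.intervalIntegrable_inv_sqrt_abs _ _)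
        exact Eventually.of_forall fun u => inv_nonneg.2 (Real.sqrt_nonneg _)
      refine Integrable.mono' (integrable_const (∫ u in (-(2 * R))..(2 * R), (√|u|)⁻¹)) ?_ hb
      exact (hm.norm.aestronglyMeasurable (μ := (volume.restrict (Icc (-R) R)).prod
        (volume.restrict (Icc (-R) R)))).integral_prod_right'
  · rw [Icc_eq_empty (not_le.2 hR)]
    simp

theorem ae_ne (D : LD) : ∀ᵐ p : ℝ × ℝ ∂(D.nu.prod D.nu), p.1 ≠ p.2 := by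
  have hms : MeasurableSet {p : ℝ × ℝ | p.1 = p.2} := measurableSet_eq_fun measurable_fst measurable_snd
  have h : (D.nu.prod D.nu) {p : ℝ × ℝ | p.1 = p.2} = 0 := by
    have : SFinite D.nu := by unfold LD.nu; infer_instance
    rw [Measure.measure_prod_null hms]
    refine Eventually.of_forall fun x => ?_
    have : Prod.mk x ⁻¹' {p : ℝ × ℝ | p.1 = p.2} = {x} := by
      ext y; simp [eq_comm]
    simp only [this]
    unfold LD.nu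
    simp
  rw [ae_iff]
  simpa using h

instance (D : LD) : IsFiniteMeasure D.nu := by
  unfold LD.nu; infer_instance

theorem ae_nu (D : LD) : ∀ᵐ x ∂D.nu, x ∈ Icc (-D.R) D.R := by
  unfold LD.nu
  exact ae_restrict_mem measurableSet_Icc

theorem ae_nunu (D : LD) : ∀ᵐ p : ℝ × ℝ ∂(D.nu.prod D.nu),
    (p.1 ∈ Icc (-D.R) D.R ∧ p.2 ∈ Icc (-D.R) D.R) ∧ p.1 ≠ p.2 := by
  have h1 : ∀ᵐ p : ℝ × ℝ ∂(D.nu.prod D.nu), p.1 ∈ Icc (-D.R) D.R :=
    Measure.quasiMeasurePreserving_fst.ae (ae_nu D)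
  have h2 : ∀ᵐ p : ℝ × ℝ ∂(D.nu.prod D.nu), p.2 ∈ Icc (-D.R) D.R :=
    Measure.quasiMeasurePreserving_snd.ae (ae_nu D)
  filter_upwards [h1, h2, ae_ne D] with p a b c using ⟨⟨a, b⟩, c⟩

theorem ae_mu (D : LD) : ∀ᵐ z : (ℝ × ℝ) × (ℝ × ℝ) ∂D.mu,
    ((z.1.1 ∈ Icc (-D.R) D.R ∧ z.1.2 ∈ Icc (-D.R) D.R) ∧ z.1.1 ≠ z.1.2) ∧
    ((z.2.1 ∈ Icc (-D.R) D.R ∧ z.2.2 ∈ Icc (-D.R) D.R) ∧ z.2.1 ≠ z.2.2) := by
  have h1 := (Measure.quasiMeasurePreserving_fst (μ := D.nu.prod D.nu)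
    (ν := D.nu.prod D.nu)).ae (ae_nunu D)
  have h2 := (Measure.quasiMeasurePreserving_snd (μ := D.nu.prod D.nu)
    (ν := D.nu.prod D.nu)).ae (ae_nunu D)
  unfold LD.mu
  filter_upwards [h1, h2] with z a b using ⟨a, b⟩

/-- the integrand after the integration by parts -/
noncomputable def GI (D : LD) (m : ℝ → ℝ → ℝ) (P : ℝ → ℝ → ℂ) (τ : ℝ) (h : ℂ)
    (z : (ℝ × ℝ) × (ℝ × ℝ)) : ℂ :=
  (D.φ z.1.2 z.2.2 : ℂ) * (D.px h z.1.2)⁻¹ * (D.py h z.2.2)⁻¹ *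
    (m z.1.1 z.1.2 : ℂ) * (P z.1.1 z.2.1 *
    (D.ga h z.1.1 z.1.2 + τ * D.be h z.2.1 z.2.2)⁻¹)

theorem gi_int (hB1 : Stmt_BAS1) (hB2 : Stmt_BAS2) (hB3 : Stmt_BAS3) (D : LD)
    (m : ℝ → ℝ → ℝ) (P : ℝ → ℝ → ℂ) (τ : ℝ) (h : ℂ) (hh : 0 < h.im)
    (hm : Measurable (fun z : ℝ × ℝ => m z.1 z.2)) (hmb : ∀ x x', |m x x'| ≤ 1)
    (hP : Measurable (fun z : ℝ × ℝ => P z.1 z.2)) (CP : ℝ) (hPb : ∀ x y, ‖P x y‖ ≤ CP)
    (hτ : τ = 1 ∨ τ = -1) : Integrable (GI D m P τ h) D.mu := by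
  have hAd : D.Ad h := Or.inl hh
  obtain ⟨c, hc, hlow⟩ := (hB2 D).lower h hh
  have hCP : 0 ≤ CP := (norm_nonneg _).trans (hPb 0 0)
  have hB : 0 ≤ D.B := (abs_nonneg _).trans (D.φb 0 0)
  -- measurability
  have hga : AEMeasurable (fun z : (ℝ × ℝ) × (ℝ × ℝ) => D.ga h z.1.1 z.1.2) D.mu := by
    unfold LD.mu
    exact ((hB3 D).ga_meas h hAd).aemeasurable.comp_quasiMeasurePreserving
      Measure.quasiMeasurePreserving_fst
  have hbe : Measurable (fun z : (ℝ × ℝ) × (ℝ × ℝ) => D.be h z.2.1 z.2.2) :=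
    ((hB3 D).be_meas h hAd).comp measurable_snd
  have hφ : Measurable (fun z : (ℝ × ℝ) × (ℝ × ℝ) => (D.φ z.1.2 z.2.2 : ℂ)) :=
    Complex.measurable_ofReal.comp (D.φm.comp
      ((measurable_snd.comp measurable_fst).prodMk (measurable_snd.comp measurable_snd)))
  have hpx : Measurable (fun z : (ℝ × ℝ) × (ℝ × ℝ) => (D.px h z.1.2)⁻¹) :=
    (((hB1 D).px_cont h).measurable.comp (measurable_snd.comp measurable_fst)).inv
  have hpy : Measurable (fun z : (ℝ × ℝ) × (ℝ × ℝ) => (D.py h z.2.2)⁻¹) :=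
    (((hB1 D).py_cont h).measurable.comp (measurable_snd.comp measurable_snd)).inv
  have hm' : Measurable (fun z : (ℝ × ℝ) × (ℝ × ℝ) => (m z.1.1 z.1.2 : ℂ)) :=
    Complex.measurable_ofReal.comp (hm.comp measurable_fst)
  have hP' : Measurable (fun z : (ℝ × ℝ) × (ℝ × ℝ) => P z.1.1 z.2.1) :=
    hP.comp ((measurable_fst.comp measurable_fst).prodMk (measurable_fst.comp measurable_snd))
  have hmeas : AEStronglyMeasurable (GI D m P τ h) D.mu := by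
    apply AEMeasurable.aestronglyMeasurable
    unfold GI
    exact ((((hφ.aemeasurable.mul hpx.aemeasurable).mul hpy.aemeasurable).mul
      hm'.aemeasurable).mul (hP'.aemeasurable.mul
        ((hga.add (hbe.const_mul _).aemeasurable).inv)))
  -- the bound
  have hw : Integrable (fun z : (ℝ × ℝ) × (ℝ × ℝ) => (√|z.1.1 - z.1.2|)⁻¹ *
      (√|z.2.1 - z.2.2|)⁻¹) D.mu := by
    unfold LD.mu LD.nu
    exact (int_w D.R).mul_prod (int_w D.R)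
  refine Integrable.mono' (hw.const_mul (D.B * (√h.im)⁻¹ * (√h.im)⁻¹ * (CP * (2 * c)⁻¹))) hmeas ?_
  filter_upwards [ae_mu D] with z hz
  obtain ⟨⟨⟨hx, hx'⟩, hne⟩, ⟨⟨hy, hy'⟩, hne'⟩⟩ := hz
  have h1 : ‖(D.φ z.1.2 z.2.2 : ℂ)‖ ≤ D.B := by
    rw [Complex.norm_real]; exact D.φb _ _
  have h2 := (hB1 D).pxi_im h z.1.2 hh
  have h3 := (hB1 D).pyi_im h z.2.2 hh
  have h4 : ‖(m z.1.1 z.1.2 : ℂ)‖ ≤ 1 := by
    rw [Complex.norm_real]; exact hmb _ _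
  have h5 := hPb z.1.1 z.2.1
  have hpos1 : 0 < √|z.1.1 - z.1.2| := Real.sqrt_pos.2 (abs_pos.2 (sub_ne_zero.2 hne))
  have hpos2 : 0 < √|z.2.1 - z.2.2| := Real.sqrt_pos.2 (abs_pos.2 (sub_ne_zero.2 hne'))
  have h6 : ‖(D.ga h z.1.1 z.1.2 + τ * D.be h z.2.1 z.2.2)⁻¹‖ ≤
      (2 * c)⁻¹ * ((√|z.1.1 - z.1.2|)⁻¹ * (√|z.2.1 - z.2.2|)⁻¹) := by
    have h7 := hlow z.1.1 z.1.2 z.2.1 z.2.2 τ hx hx' hy hy' hτ
    have h8 : 2 * c * (√|z.1.1 - z.1.2| * √|z.2.1 - z.2.2|) ≤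
        ‖D.ga h z.1.1 z.1.2 + τ * D.be h z.2.1 z.2.2‖ := by
      refine le_trans ?_ h7
      have h9 := Real.sq_sqrt (abs_nonneg (z.1.1 - z.1.2))
      have h10 := Real.sq_sqrt (abs_nonneg (z.2.1 - z.2.2))
      have h11 := sq_nonneg (√|z.1.1 - z.1.2| - √|z.2.1 - z.2.2|)
      have h12 : 2 * (√|z.1.1 - z.1.2| * √|z.2.1 - z.2.2|) ≤
          |z.1.1 - z.1.2| + |z.2.1 - z.2.2| := by nlinarith
      calc 2 * c * (√|z.1.1 - z.1.2| * √|z.2.1 - z.2.2|) =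
          c * (2 * (√|z.1.1 - z.1.2| * √|z.2.1 - z.2.2|)) := by ring
        _ ≤ _ := mul_le_mul_of_nonneg_left h12 hc.le
    rw [norm_inv, ← mul_inv, ← mul_inv]
    exact inv_anti₀ (by positivity) h8
  unfold GI
  rw [norm_mul, norm_mul, norm_mul, norm_mul, norm_mul]
  calc ‖(D.φ z.1.2 z.2.2 : ℂ)‖ * ‖(D.px h z.1.2)⁻¹‖ * ‖(D.py h z.2.2)⁻¹‖ *
        ‖(m z.1.1 z.1.2 : ℂ)‖ * (‖P z.1.1 z.2.1‖ *
        ‖(D.ga h z.1.1 z.1.2 + τ * D.be h z.2.1 z.2.2)⁻¹‖)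
      ≤ D.B * (√h.im)⁻¹ * (√h.im)⁻¹ * 1 * (CP * ((2 * c)⁻¹ *
        ((√|z.1.1 - z.1.2|)⁻¹ * (√|z.2.1 - z.2.2|)⁻¹))) := by
        gcongr
    _ = _ := by ring

/-- the elementary functional as an integral of `GI` -/
theorem hh_eq (hB1 : Stmt_BAS1) (hB2 : Stmt_BAS2) (hB3 : Stmt_BAS3) (hI : Stmt_INT) (D : LD)
    (m : ℝ → ℝ → ℝ) (Q : ℂ → ℝ → ℝ → ℂ) (P : ℝ → ℝ → ℂ) (τ : ℝ) (h : ℂ) (hh : 0 < h.im)
    (hok : HOK D m Q τ)
    (hP : Measurable (fun z : ℝ × ℝ => P z.1 z.2)) (CP : ℝ) (hPb : ∀ x y, ‖P x y‖ ≤ CP)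
    (hQ : ∀ x x' y' : ℝ, x ≠ x' →
      ∫ y in (-D.R)..D.R, Q h x y * KK (D.ga h x x' + τ * D.be h y y') =
        ∫ y in (-D.R)..D.R, P x y * (D.ga h x x' + τ * D.be h y y')⁻¹) :
    D.HH m Q τ h = ∫ z, GI D m P τ h z ∂D.mu := by
  have hR : -D.R ≤ D.R := by linarith [D.r0, D.rR]
  have hint := gi_int hB1 hB2 hB3 D m P τ h hh hok.mm hok.mb hP CP hPb hok.t
  have hconv : ∀ f : ℝ → ℂ, ∫ x in (-D.R)..D.R, f x = ∫ x, f x ∂D.nu := by
    intro f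
    rw [intervalIntegral.integral_of_le hR, ← integral_Icc_eq_integral_Ioc]
    rfl
  rw [(hI D m Q τ hok h (Or.inl hh)).2]
  simp only [hconv] at hQ ⊢
  have hint' : Integrable (GI D m P τ h) ((D.nu.prod D.nu).prod (D.nu.prod D.nu)) := hint
  have e1 : ∫ z, GI D m P τ h z ∂D.mu = ∫ p : ℝ × ℝ, ∫ w : ℝ × ℝ, GI D m P τ h (p, w)
      ∂(D.nu.prod D.nu) ∂(D.nu.prod D.nu) := by
    unfold LD.mu
    exact integral_prod _ hint'
  have e2 : ∫ p : ℝ × ℝ, ∫ w : ℝ × ℝ, GI D m P τ h (p, w) ∂(D.nu.prod D.nu) ∂(D.nu.prod D.nu) =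
      ∫ x, ∫ x', ∫ w : ℝ × ℝ, GI D m P τ h ((x, x'), w) ∂(D.nu.prod D.nu) ∂D.nu ∂D.nu :=
    integral_prod _ hint'.integral_prod_left
  have h3 : ∀ᵐ p : ℝ × ℝ ∂(D.nu.prod D.nu), Integrable (fun w => GI D m P τ h (p, w))
      (D.nu.prod D.nu) := hint'.prod_right_ae
  have h4 : ∀ᵐ p : ℝ × ℝ ∂(D.nu.prod D.nu), ∫ w : ℝ × ℝ, GI D m P τ h (p, w) ∂(D.nu.prod D.nu) =
      ∫ y', (D.φ p.2 y' : ℂ) * (D.px h p.2)⁻¹ * (D.py h y')⁻¹ * (m p.1 p.2 : ℂ) *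
        ∫ y, Q h p.1 y * KK (D.ga h p.1 p.2 + τ * D.be h y y') ∂D.nu ∂D.nu := by
    filter_upwards [h3, ae_ne D] with p hp hne
    rw [integral_prod_symm _ hp]
    refine integral_congr_ae (Eventually.of_forall fun y' => ?_)
    simp only [GI]
    rw [hQ p.1 p.2 y' hne, integral_const_mul]
  rw [e1, e2]
  have h5 := Measure.ae_ae_of_ae_prod h4
  refine (integral_congr_ae ?_).symm
  filter_upwards [h5] with x hx
  refine integral_congr_ae ?_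
  filter_upwards [hx] with x' hx'
  exact hx'

theorem sw_tf (D : LD) (ψ : ℝ → ℝ → ℝ) (h : TF D.R ψ) : TF D.swap.R (sw ψ) := by
  refine ⟨?_, ?_⟩
  · exact h.smooth.comp (contDiff_snd.prodMk contDiff_fst)
  · obtain ⟨ρ, hρ, h1⟩ := h.supp
    exact ⟨ρ, hρ, fun x y hxy => h1 y x hxy.symm⟩

theorem sg_meas : Measurable (fun z : ℝ × ℝ => sg z.1 z.2) := by
  unfold sg
  exact Measurable.ite (measurableSet_lt measurable_fst measurable_snd) measurable_const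
    measurable_const

theorem sg_le (x x' : ℝ) : |sg x x'| ≤ 1 := by
  unfold sg; split_ifs <;> norm_num

/-- a test function times a continuous function of one variable is bounded and measurable -/
theorem tf_bd (D : LD) (ψ : ℝ → ℝ → ℝ) (hψ : TF D.R ψ) (P : ℝ → ℝ → ℂ)
    (hc : Continuous (fun z : ℝ × ℝ => P z.1 z.2)) (h0 : ∀ x y, ψ x y = 0 → P x y = 0) :
    ∃ C, ∀ x y, ‖P x y‖ ≤ C := by
  obtain ⟨ρ, hρ, h1⟩ := hψ.supp
  have hcs : HasCompactSupport (fun z : ℝ × ℝ => P z.1 z.2) := by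
    apply HasCompactSupport.intro (isCompact_Icc.prod isCompact_Icc : IsCompact
      ((Icc (-ρ) ρ) ×ˢ (Icc (-ρ) ρ)))
    intro z hz
    apply h0
    apply h1
    by_contra hcon
    push Not at hcon
    apply hz
    rw [Set.mem_prod]
    exact ⟨abs_le.1 hcon.1.le, abs_le.1 hcon.2.le⟩
  obtain ⟨C, hC⟩ := hcs.exists_bound_of_continuous hc
  exact ⟨C, fun x y => hC (x, y)⟩

theorem fs_eq (hB1 : Stmt_BAS1) (hB2 : Stmt_BAS2) (hB3 : Stmt_BAS3) (hQ : Stmt_QOK)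
    (hQI : Stmt_QI) (hI : Stmt_INT) (D : LD) (ψ : ℝ → ℝ → ℝ) (hψ : TF D.R ψ) (h : ℂ)
    (hh : 0 < h.im) :
    D.FS ψ h = -(2 * Real.pi * I)⁻¹ * ∫ z, (GI D (fun _ _ => 1)
      (fun x y => (ψ x y : ℂ) * D.py h y) 1 h z - GI D (fun _ _ => 1)
      (fun x y => (ψ x y : ℂ) * D.py h y) (-1) h z) ∂D.mu := by
  have hc : Continuous (fun z : ℝ × ℝ => (ψ z.1 z.2 : ℂ) * D.py h z.2) :=
    (Complex.continuous_ofReal.comp hψ.smooth.continuous).mul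
      (((hB1 D).py_cont h).comp continuous_snd)
  obtain ⟨C, hC⟩ := tf_bd D ψ hψ (fun x y => (ψ x y : ℂ) * D.py h y) hc
    (fun x y hxy => by simp [hxy])
  have hok : ∀ τ : ℝ, (τ = 1 ∨ τ = -1) → HOK D (fun _ _ => 1) (D.QS ψ) τ := fun τ hτ =>
    ⟨measurable_const, fun _ _ => by norm_num, (hQ D ψ hψ).1, hτ⟩
  have e : ∀ τ : ℝ, (τ = 1 ∨ τ = -1) → D.HH (fun _ _ => 1) (D.QS ψ) τ h =
      ∫ z, GI D (fun _ _ => 1) (fun x y => (ψ x y : ℂ) * D.py h y) τ h z ∂D.mu := fun τ hτ =>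
    hh_eq hB1 hB2 hB3 hI D _ _ _ τ h hh (hok τ hτ) hc.measurable C hC
      (fun x x' y' hne => (hQI D ψ hψ h x x' y' τ hh hne hτ).1)
  have i : ∀ τ : ℝ, (τ = 1 ∨ τ = -1) → Integrable (GI D (fun _ _ => 1)
      (fun x y => (ψ x y : ℂ) * D.py h y) τ h) D.mu := fun τ hτ =>
    gi_int hB1 hB2 hB3 D _ _ τ h hh measurable_const (fun _ _ => by norm_num) hc.measurable C hC hτ
  unfold LD.FS
  rw [e 1 (Or.inl rfl), e (-1) (Or.inr rfl),
    ← integral_sub (i 1 (Or.inl rfl)) (i (-1) (Or.inr rfl))]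

theorem fp_eq (hB1 : Stmt_BAS1) (hB2 : Stmt_BAS2) (hB3 : Stmt_BAS3) (hQ : Stmt_QOK)
    (hQI : Stmt_QI) (hI : Stmt_INT) (D : LD) (ψ : ℝ → ℝ → ℝ) (hψ : TF D.R ψ) (h : ℂ)
    (hh : 0 < h.im) :
    D.FP ψ h = -(2 * Real.pi * I)⁻¹ * ∫ z, (GI D sg
      (fun x y => (ψ x y : ℂ) * D.px h x) 1 h z + GI D sg
      (fun x y => (ψ x y : ℂ) * D.px h x) (-1) h z) ∂D.mu := by
  have hc : Continuous (fun z : ℝ × ℝ => (ψ z.1 z.2 : ℂ) * D.px h z.1) :=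
    (Complex.continuous_ofReal.comp hψ.smooth.continuous).mul
      (((hB1 D).px_cont h).comp continuous_fst)
  obtain ⟨C, hC⟩ := tf_bd D ψ hψ (fun x y => (ψ x y : ℂ) * D.px h x) hc
    (fun x y hxy => by simp [hxy])
  have hok : ∀ τ : ℝ, (τ = 1 ∨ τ = -1) → HOK D sg (D.QP ψ) τ := fun τ hτ =>
    ⟨sg_meas, sg_le, (hQ D ψ hψ).2, hτ⟩
  have e : ∀ τ : ℝ, (τ = 1 ∨ τ = -1) → D.HH sg (D.QP ψ) τ h =
      ∫ z, GI D sg (fun x y => (ψ x y : ℂ) * D.px h x) τ h z ∂D.mu := fun τ hτ =>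
    hh_eq hB1 hB2 hB3 hI D _ _ _ τ h hh (hok τ hτ) hc.measurable C hC
      (fun x x' y' hne => (hQI D ψ hψ h x x' y' τ hh hne hτ).2)
  have i : ∀ τ : ℝ, (τ = 1 ∨ τ = -1) → Integrable (GI D sg
      (fun x y => (ψ x y : ℂ) * D.px h x) τ h) D.mu := fun τ hτ =>
    gi_int hB1 hB2 hB3 D _ _ τ h hh sg_meas sg_le hc.measurable C hC hτ
  unfold LD.FP
  rw [e 1 (Or.inl rfl), e (-1) (Or.inr rfl),
    ← integral_add (i 1 (Or.inl rfl)) (i (-1) (Or.inr rfl))]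

theorem ker (g b : ℂ) (s t : ℝ) (hs : s = 1 ∨ s = -1) (ht : t = 1 ∨ t = -1) :
    -(t : ℂ) * ((t * b - s * g)⁻¹ + (t * b + s * g)⁻¹) = (g - b)⁻¹ - (g + b)⁻¹ := by
  have e1 : (-b - g)⁻¹ = -(g + b)⁻¹ := by rw [← inv_neg]; congr 1; ring
  have e2 : (b - g)⁻¹ = -(g - b)⁻¹ := by rw [← inv_neg]; congr 1; ring
  rcases hs with rfl | rfl <;> rcases ht with rfl | rfl
  · push_cast
    rw [show (1 : ℂ) * b - 1 * g = b - g by ring, show (1 : ℂ) * b + 1 * g = g + b by ring, e2]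
    ring
  · push_cast
    rw [show (-1 : ℂ) * b - 1 * g = -b - g by ring, show (-1 : ℂ) * b + 1 * g = g - b by ring, e1]
    ring
  · push_cast
    rw [show (1 : ℂ) * b - -1 * g = g + b by ring, show (1 : ℂ) * b + -1 * g = b - g by ring, e2]
    ring
  · push_cast
    rw [show (-1 : ℂ) * b - -1 * g = g - b by ring, show (-1 : ℂ) * b + -1 * g = -b - g by ring, e1]
    ring

theorem pw (hB1 : Stmt_BAS1) (hB2 : Stmt_BAS2) (D : LD) (ψ : ℝ → ℝ → ℝ) (h : ℂ)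
    (hh : 0 < h.im) (z : (ℝ × ℝ) × (ℝ × ℝ)) :
    GI D (fun _ _ => 1) (fun x y => (ψ x y : ℂ) * D.py h y) 1 h z -
      GI D (fun _ _ => 1) (fun x y => (ψ x y : ℂ) * D.py h y) (-1) h z =
    -(starRingEnd ℂ) (GI D.swap sg (fun x y => (sw ψ x y : ℂ) *
      D.swap.px (-(starRingEnd ℂ) h) x) 1 (-(starRingEnd ℂ) h) z.swap +
      GI D.swap sg (fun x y => (sw ψ x y : ℂ) * D.swap.px (-(starRingEnd ℂ) h) x) (-1)
      (-(starRingEnd ℂ) h) z.swap) := by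
  obtain ⟨⟨x, x'⟩, ⟨y, y'⟩⟩ := z
  have hg := (hB2 D).ga_swap h y y' hh
  have hb := (hB2 D).be_swap h x x' hh
  have hp1 := (hB1 D).px_swap h
  have hp2 := (hB1 D).py_swap h
  simp only [GI, Prod.swap, sw]
  rw [hg, hb, hp1, hp1, hp2]
  have hφ : D.swap.φ y' x' = D.φ x' y' := rfl
  rw [hφ]
  set g := D.ga h x x' with hgdef
  set b := D.be h y y' with hbdef
  -- signs
  obtain ⟨s, hs, hse⟩ : ∃ s : ℝ, (s = 1 ∨ s = -1) ∧
      (if x ≤ x' then -g else g) = -(s : ℂ) * g := by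
    by_cases hx : x ≤ x'
    · exact ⟨1, Or.inl rfl, by rw [if_pos hx]; push_cast; ring⟩
    · exact ⟨-1, Or.inr rfl, by rw [if_neg hx]; push_cast; ring⟩
  obtain ⟨t, ht, hte, hsg⟩ : ∃ t : ℝ, (t = 1 ∨ t = -1) ∧
      (if y' ≤ y then b else -b) = (t : ℂ) * b ∧ sg y y' = -t := by
    unfold sg
    by_cases hy : y' ≤ y
    · exact ⟨1, Or.inl rfl, by rw [if_pos hy]; push_cast; ring, by rw [if_neg (not_lt.2 hy)]⟩
    · exact ⟨-1, Or.inr rfl, by rw [if_neg hy]; push_cast; ring, by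
        rw [if_pos (not_le.1 hy)]; norm_num⟩
  rw [hse, hte, hsg]
  have hk := ker g b s t hs ht
  simp only [map_add, map_mul, map_inv₀, Complex.conj_conj, Complex.conj_ofReal, map_neg]
  have k1 : ((t : ℂ) * b + (1 : ℝ) * (-(s : ℂ) * g)) = t * b - s * g := by push_cast; ring
  have k2 : ((t : ℂ) * b + ((-1 : ℝ) : ℂ) * (-(s : ℂ) * g)) = t * b + s * g := by
    push_cast; ring
  have k3 : (g + ((1 : ℝ) : ℂ) * b) = g + b := by push_cast; ring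
  have k4 : (g + ((-1 : ℝ) : ℂ) * b) = g - b := by push_cast; ring
  rw [k1, k2, k3, k4]
  have k5 : ((-t : ℝ) : ℂ) = -(t : ℂ) := by push_cast; ring
  rw [k5]
  push_cast
  linear_combination (D.φ x' y' : ℂ) * (D.px h x')⁻¹ * (D.py h y')⁻¹ * ((ψ x y : ℂ) * D.py h y) * hk

theorem first (hB1 : Stmt_BAS1) (hB2 : Stmt_BAS2) (hB3 : Stmt_BAS3) (hQ : Stmt_QOK)
    (hQI : Stmt_QI) (hI : Stmt_INT) (D : LD) (ψ : ℝ → ℝ → ℝ) (hψ : TF D.R ψ) (h : ℂ)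
    (hh : 0 < h.im) :
    D.FS ψ h = (starRingEnd ℂ) (D.swap.FP (sw ψ) (-(starRingEnd ℂ) h)) := by
  have hh' : 0 < (-(starRingEnd ℂ) h).im := by simpa using hh
  rw [fs_eq hB1 hB2 hB3 hQ hQI hI D ψ hψ h hh,
    fp_eq hB1 hB2 hB3 hQ hQI hI D.swap (sw ψ) (sw_tf D ψ hψ) _ hh']
  set F : (ℝ × ℝ) × (ℝ × ℝ) → ℂ := fun z =>
    GI D.swap sg (fun x y => (sw ψ x y : ℂ) * D.swap.px (-(starRingEnd ℂ) h) x) 1
      (-(starRingEnd ℂ) h) z + GI D.swap sg (fun x y => (sw ψ x y : ℂ) *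
      D.swap.px (-(starRingEnd ℂ) h) x) (-1) (-(starRingEnd ℂ) h) z with hF
  have hmu : ∫ z, F z ∂D.swap.mu = ∫ z, F z.swap ∂D.mu := by
    have : D.swap.mu = D.mu := rfl
    rw [this]
    unfold LD.mu
    exact (integral_prod_swap F).symm
  change _ = (starRingEnd ℂ) (-(2 * Real.pi * I)⁻¹ * ∫ z, F z ∂D.swap.mu)
  rw [hmu, map_mul, ← integral_conj]
  have hcst : (starRingEnd ℂ) (-(2 * Real.pi * I)⁻¹) = -(-(2 * Real.pi * I)⁻¹) := by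
    rw [map_neg, map_inv₀, map_mul, map_mul, Complex.conj_I, Complex.conj_ofReal]
    have : (starRingEnd ℂ) 2 = 2 := Complex.conj_ofNat 2
    rw [this, mul_neg, inv_neg]
  rw [hcst]
  suffices hsuff : ∀ A B : ℂ, A = -B → -(2 * Real.pi * I)⁻¹ * A = -(-(2 * Real.pi * I)⁻¹) * B by
    apply hsuff
    rw [← integral_neg]
    refine integral_congr_ae (Eventually.of_forall fun z => ?_)
    exact pw hB1 hB2 D ψ h hh z
  intro A B hAB
  rw [hAB]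
  ring
end SWAPAux

open SWAPAux in
theorem swap_ (hB1 : Stmt_BAS1) (hB2 : Stmt_BAS2) (hB3 : Stmt_BAS3) (hQ : Stmt_QOK)
    (hQI : Stmt_QI) (hI : Stmt_INT) : Stmt_SWAP := by
  intro D ψ hψ h hh
  refine ⟨first hB1 hB2 hB3 hQ hQI hI D ψ hψ h hh, ?_⟩
  have hh' : 0 < (-(starRingEnd ℂ) h).im := by simpa using hh
  have h1 := first hB1 hB2 hB3 hQ hQI hI D.swap (sw ψ) (sw_tf D ψ hψ) _ hh'
  have h2 : D.swap.swap.FP (sw (sw ψ)) (-(starRingEnd ℂ) (-(starRingEnd ℂ) h)) = D.FP ψ h := by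
    have e1 : D.swap.swap = D := rfl
    have e2 : sw (sw ψ) = ψ := rfl
    rw [e1, e2, map_neg, Complex.conj_conj, neg_neg]
  rw [h2] at h1
  rw [h1, Complex.conj_conj]

end Pool.Agent.LIO
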