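import Pool.Agent.LIO.Stmts

/-!
# TRA: the transport equation in weak form
-/

set_option autoImplicit false

namespace Pool.Agent.LIO

open Complex MeasureTheory Set Filter Topology

namespace TRAAux

/-- exchange of the integrals over a triangle -/
theorem tri {a b : ℝ} (hab : a ≤ b) {u g : ℝ → ℂ} (hu : Continuous u)
    (hg : IntervalIntegrable g volume a b) :
    ∫ x in a..b, u x * (∫ y in x..b, g y) = ∫ y in a..b, (∫ x in a..y, u x) * g y := by
  set μ : Measure ℝ := volume.restrict (Ioc a b) with hμ
  have hg' : Integrable g μ := (intervalIntegrable_iff_integrableOn_Ioc_of_le hab).1 hg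
  have hu' : Integrable u μ :=
    (intervalIntegrable_iff_integrableOn_Ioc_of_le hab).1 (hu.intervalIntegrable a b)
  set T : Set (ℝ × ℝ) := {z | z.1 < z.2} with hT
  have hTm : MeasurableSet T := measurableSet_lt measurable_fst measurable_snd
  set F : ℝ → ℝ → ℂ := fun x y => T.indicator (fun z => u z.1 * g z.2) (x, y) with hF
  have hFi : Integrable (Function.uncurry F) (μ.prod μ) :=
    (hu'.mul_prod hg').indicator hTm
  have h1 : ∀ x ∈ Ioc a b, u x * (∫ y in x..b, g y) = ∫ y, F x y ∂μ := by
    intro x hx
    have e1 : (fun y => F x y) = (Ioi x).indicator (fun y => u x * g y) := by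
      funext y
      by_cases h : x < y
      · rw [indicator_of_mem (show y ∈ Ioi x from h), hF]
        exact indicator_of_mem (show (x, y) ∈ T from h) _
      · rw [indicator_of_notMem (show y ∉ Ioi x from h), hF]
        exact indicator_of_notMem (show (x, y) ∉ T from h) _
    rw [e1, integral_indicator measurableSet_Ioi, hμ, Measure.restrict_restrict measurableSet_Ioi,
      intervalIntegral.integral_of_le hx.2, ← integral_const_mul]
    congr 2
    ext y
    simp only [mem_inter_iff, mem_Ioc, mem_Ioi]
    constructor
    · rintro ⟨h2, h3⟩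
      exact ⟨h2, hx.1.trans h2, h3⟩
    · rintro ⟨h2, _, h3⟩
      exact ⟨h2, h3⟩
  have h2 : ∀ y ∈ Ioc a b, (∫ x in a..y, u x) * g y = ∫ x, F x y ∂μ := by
    intro y hy
    have e1 : (fun x => F x y) = (Iio y).indicator (fun x => u x * g y) := by
      funext x
      by_cases h : x < y
      · rw [indicator_of_mem (show x ∈ Iio y from h), hF]
        exact indicator_of_mem (show (x, y) ∈ T from h) _
      · rw [indicator_of_notMem (show x ∉ Iio y from h), hF]
        exact indicator_of_notMem (show (x, y) ∉ T from h) _
    rw [e1, integral_indicator measurableSet_Iio, hμ, Measure.restrict_restrict measurableSet_Iio,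
      intervalIntegral.integral_of_le hy.1.le, ← integral_mul_const, integral_Ioc_eq_integral_Ioo]
    congr 2
    ext x
    simp only [mem_inter_iff, mem_Ioc, mem_Ioo, mem_Iio]
    constructor
    · rintro ⟨h3, h4⟩
      exact ⟨h4, h3, h4.le.trans hy.2⟩
    · rintro ⟨h4, h3, _⟩
      exact ⟨h3, h4⟩
  rw [intervalIntegral.integral_of_le hab, intervalIntegral.integral_of_le hab,
    setIntegral_congr_fun measurableSet_Ioc h1, setIntegral_congr_fun measurableSet_Ioc h2]
  exact integral_integral_swap hFi

end TRAAux

open TRAAux in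
/-- TRA: the transport equation in weak form -/
theorem tra (hB1 : Stmt_BAS1) (hB2 : Stmt_BAS2) : Stmt_TRA := by
  have _ := hB2
  intro D k σ ω κ κ' hk _ hκ hκ' hκ0
  have B1 := hB1 D
  have hR : 0 < D.R := D.r0.trans D.rR
  have hRR : -D.R ≤ D.R := by linarith
  have hk1 : k < D.a := (abs_lt.1 hk).2
  have hk2 : -D.a < k := (abs_lt.1 hk).1
  set r : ℝ → ℂ := fun s => (D.px k s)⁻¹ with hr
  have hrc : Continuous r := (B1.px_cont k).inv₀ fun s h0 => by
    have h1 := B1.px_low k s (by rw [ofReal_re]; exact hk1)
    rw [h0, zero_re] at h1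
    exact lt_irrefl _ h1
  set q : ℝ → ℂ := fun s => (D.py k s)⁻¹ with hq
  have hqc : Continuous q := (B1.py_cont k).inv₀ fun s h0 => by
    have h1 := B1.py_low k s (by rw [ofReal_re]; exact hk2)
    rw [h0, zero_re] at h1
    exact lt_irrefl _ h1
  set A : ℝ → ℂ := fun x => ∫ s in (-D.R)..x, r s with hA
  have hAd : ∀ x, HasDerivAt A (r x) x := fun x =>
    intervalIntegral.integral_hasDerivAt_right (hrc.intervalIntegrable _ _)
      (hrc.stronglyMeasurableAtFilter _ _) hrc.continuousAt
  have hAc : Continuous A := continuous_iff_continuousAt.2 fun x => (hAd x).continuousAt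
  have hBc : Continuous fun y => D.BB k y :=
    continuous_iff_continuousAt.2 fun x =>
      (intervalIntegral.integral_hasDerivAt_right (hqc.intervalIntegrable (-D.R) x)
        (hqc.stronglyMeasurableAtFilter _ _) hqc.continuousAt).continuousAt
  -- the slice transform is bounded and measurable
  set P : ℝ → ℂ := fun x => D.Ph k x ω with hP
  set w : ℝ → ℂ := fun y => cexp (-(I * ω * D.BB k y)) * q y with hw
  have hwc : Continuous w := by
    rw [hw]
    exact (continuous_exp.comp (continuous_const.mul hBc).neg).mul hqc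
  have hPw : ∀ x, P x = ∫ y in (-D.R)..D.R, (D.φ x y : ℂ) * w y := by
    intro x
    rw [hP]
    simp only [LD.Ph]
    refine intervalIntegral.integral_congr fun y _ => ?_
    simp only [hw, hq]
    ring
  obtain ⟨C, hC⟩ : ∃ C, ∀ y ∈ Icc (-D.R) D.R, ‖w y‖ ≤ C :=
    isCompact_Icc.exists_bound_of_continuousOn hwc.continuousOn
  have hPb : ∀ x, ‖P x‖ ≤ D.B * C * |D.R - -D.R| := by
    intro x
    rw [hPw]
    refine intervalIntegral.norm_integral_le_of_norm_le_const fun y hy => ?_
    rw [uIoc_of_le hRR] at hy
    have h1 := hC y (Ioc_subset_Icc_self hy)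
    have h2 := D.φb x y
    rw [norm_mul, norm_real, Real.norm_eq_abs]
    have h3 : 0 ≤ D.B := (abs_nonneg _).trans h2
    gcongr
  have hPm : StronglyMeasurable P := by
    have h1 : P = fun x => ∫ y in Ioc (-D.R) D.R, (D.φ x y : ℂ) * w y := by
      funext x
      rw [hPw, intervalIntegral.integral_of_le hRR]
    rw [h1]
    have h2 : Measurable fun z : ℝ × ℝ => (D.φ z.1 z.2 : ℂ) * w z.2 :=
      (measurable_ofReal.comp D.φm).mul (hwc.measurable.comp measurable_snd)
    exact h2.stronglyMeasurable.integral_prod_right
  set c : ℂ := I * ω * σ with hc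
  set g : ℝ → ℂ := fun y => P y * (r y * cexp (c * A y)) with hg
  have hgc : Continuous fun y => r y * cexp (c * A y) :=
    hrc.mul (continuous_exp.comp (continuous_const.mul hAc))
  have hPi : IntervalIntegrable P volume (-D.R) D.R := by
    rw [intervalIntegrable_iff]
    refine Measure.integrableOn_of_bounded (M := D.B * C * |D.R - -D.R|) ?_
      hPm.aestronglyMeasurable (Eventually.of_forall hPb)
    exact measure_Ioc_lt_top.ne
  have hgi : IntervalIntegrable g volume (-D.R) D.R := hPi.mul_continuousOn hgc.continuousOn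
  set J : ℝ → ℂ := fun x => ∫ y in x..D.R, g y with hJ
  have hJc : ContinuousOn J (uIcc (-D.R) D.R) := by
    refine intervalIntegral.continuousOn_primitive_interval_left ?_
    rw [← intervalIntegrable_iff'] 
    exact hgi
  -- the transport solution
  have hv : ∀ x, D.vv σ k ω x = σ * cexp (-(c * A x)) * J x := by
    intro x
    have h2 : ∫ y in x..D.R, D.Ph k y ω * (D.px k y)⁻¹ *
        cexp (I * ω * σ * ∫ s in x..y, (D.px k s)⁻¹) = cexp (-(c * A x)) * J x := by
      simp only [hJ]
      rw [← intervalIntegral.integral_const_mul]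
      refine intervalIntegral.integral_congr fun y _ => ?_
      have h1 : ∫ s in x..y, (D.px k s)⁻¹ = A y - A x :=
        (intervalIntegral.integral_interval_sub_left (hrc.intervalIntegrable _ _)
          (hrc.intervalIntegrable _ _)).symm
      rw [h1, ← hc, show c * (A y - A x) = -(c * A x) + c * A y by ring, Complex.exp_add]
      simp only [hg, hP, hr]
      ring
    have h3 : D.vv σ k ω x = σ * ∫ y in x..D.R, D.Ph k y ω * (D.px k y)⁻¹ *
        cexp (I * ω * σ * ∫ s in x..y, (D.px k s)⁻¹) := rfl
    rw [h3, h2]
    ring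
  set V : ℝ → ℂ := fun x => D.vv σ k ω x with hV
  have hVc : ContinuousOn V (uIcc (-D.R) D.R) := by
    have h1 : V = fun x => σ * cexp (-(c * A x)) * J x := funext hv
    rw [h1]
    exact ((continuous_const.mul (continuous_exp.comp
      (continuous_const.mul hAc).neg)).continuousOn).mul hJc
  have hκc : Continuous κ := continuous_iff_continuousAt.2 fun x => (hκ x).continuousAt
  -- the test function
  set u : ℝ → ℂ := fun x => κ x * (σ * cexp (-(c * A x))) with hu
  set u' : ℝ → ℂ := fun x => κ' x * (σ * cexp (-(c * A x))) +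
    κ x * (σ * (cexp (-(c * A x)) * (-(c * r x)))) with hu'
  have hud : ∀ x, HasDerivAt u (u' x) x := by
    intro x
    have h1 : HasDerivAt (fun x => -(c * A x)) (-(c * r x)) x := ((hAd x).const_mul c).neg
    exact (hκ x).mul (h1.cexp.const_mul _)
  have hu'c : Continuous u' := by
    have h1 : Continuous fun x => cexp (-(c * A x)) :=
      continuous_exp.comp (continuous_const.mul hAc).neg
    exact (hκ'.mul (continuous_const.mul h1)).add
      (hκc.mul (continuous_const.mul (h1.mul (continuous_const.mul hrc).neg)))
  have hu0 : u (-D.R) = 0 := by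
    rw [hu]
    simp only
    rw [hκ0, zero_mul]
  have hint : ∀ y, ∫ x in (-D.R)..y, u' x = u y := by
    intro y
    rw [intervalIntegral.integral_eq_sub_of_hasDerivAt (fun x _ => hud x)
      (hu'c.intervalIntegrable _ _), hu0, sub_zero]
  have hkey := tri hRR hu'c hgi
  simp only [hint] at hkey
  have huc : Continuous u := continuous_iff_continuousAt.2 fun x => (hud x).continuousAt
  have i1 : IntervalIntegrable (fun x => u' x * J x) volume (-D.R) D.R :=
    (hu'c.continuousOn.mul hJc).intervalIntegrable
  have i2 : IntervalIntegrable (fun x => u x * g x) volume (-D.R) D.R :=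
    hgi.continuousOn_mul huc.continuousOn
  have i3 : IntervalIntegrable (fun x => κ x * r x * c * V x) volume (-D.R) D.R :=
    (((hκc.mul hrc).mul continuous_const).continuousOn.mul hVc).intervalIntegrable
  have e1 : ∀ x, κ' x * V x = u' x * J x + κ x * r x * c * V x := by
    intro x
    simp only [hV, hu']
    rw [hv x]
    ring
  have e2 : ∀ x, κ x * (D.px k x)⁻¹ * (σ * D.Ph k x ω + c * V x) =
      u x * g x + κ x * r x * c * V x := by
    intro x
    have h1 : cexp (-(c * A x)) * cexp (c * A x) = 1 := by
      rw [← Complex.exp_add, neg_add_cancel, Complex.exp_zero]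
    have h2 : u x * g x = κ x * r x * (σ * P x) * (cexp (-(c * A x)) * cexp (c * A x)) := by
      simp only [hu, hg]
      ring
    rw [h2, h1]
    simp only [hP, hr]
    ring
  calc ∫ x in (-D.R)..D.R, κ' x * D.vv σ k ω x
      = ∫ x in (-D.R)..D.R, (u' x * J x + κ x * r x * c * V x) :=
        intervalIntegral.integral_congr fun x _ => e1 x
    _ = (∫ x in (-D.R)..D.R, u x * g x) + ∫ x in (-D.R)..D.R, κ x * r x * c * V x := by
        rw [intervalIntegral.integral_add i1 i3, hkey]
    _ = ∫ x in (-D.R)..D.R, (u x * g x + κ x * r x * c * V x) :=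
        (intervalIntegral.integral_add i2 i3).symm
    _ = _ := intervalIntegral.integral_congr fun x _ => (e2 x).symm

end Pool.Agent.LIO
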