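import Pool.Agent.LIO.Stmts

/-!
# Liouville metrics: the transport solutions are bounded
-/

set_option autoImplicit false

namespace Pool.Agent.LIO

open Complex MeasureTheory Set Filter Topology

namespace VBAux

variable {D : LD}

theorem BB_im (h1 : Bas1 D) {k : ℝ} (hk : -D.a < k) (y : ℝ) : (D.BB k y).im = 0 := by
  have h : D.BB k y = ((∫ s in (-D.R)..y, (√(D.V s + k))⁻¹ : ℝ) : ℂ) := by
    rw [← intervalIntegral.integral_ofReal]
    unfold LD.BB
    congr 1
    funext s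
    rw [h1.py_real k s hk.le]
    push_cast
    rfl
  rw [h, Complex.ofReal_im]

theorem R_pos (D : LD) : 0 < D.R := D.r0.trans D.rR

theorem B_nonneg (D : LD) : 0 ≤ D.B := (abs_nonneg _).trans (D.φb 0 0)

theorem norm_cexp (ω : ℝ) {b : ℂ} (hb : b.im = 0) : ‖cexp (-(I * ω * b))‖ = 1 := by
  rw [Complex.norm_exp]
  have h : (-(I * (ω : ℂ) * b)).re = 0 := by
    simp [Complex.mul_re, Complex.mul_im, hb]
  rw [h, Real.exp_zero]

/-- the bound for `Ph` -/
noncomputable def CC (D : LD) (k : ℝ) : ℝ := D.B * (√(D.a + k))⁻¹ * (2 * D.R)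

theorem CC_nonneg (D : LD) (k : ℝ) : 0 ≤ CC D k :=
  mul_nonneg (mul_nonneg (B_nonneg D) (inv_nonneg.2 (Real.sqrt_nonneg _)))
    (by have := R_pos D; positivity)

theorem norm_Ph (h1 : Bas1 D) {k : ℝ} (hk : -D.a < k) (ω x : ℝ) :
    ‖D.Ph k x ω‖ ≤ CC D k := by
  unfold LD.Ph CC
  have hR := R_pos D
  have e : |D.R - -D.R| = 2 * D.R := by
    rw [abs_of_pos (by linarith)]
    ring
  rw [← e]
  refine intervalIntegral.norm_integral_le_of_norm_le_const ?_
  intro y _
  rw [norm_mul, norm_mul, norm_cexp ω (BB_im h1 hk y), mul_one]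
  have h2 : ‖((D.φ x y : ℝ) : ℂ)‖ ≤ D.B := by
    rw [Complex.norm_real]
    exact D.φb x y
  have h3 := h1.pyi_low (k : ℂ) y (by simpa using hk)
  rw [Complex.ofReal_re] at h3
  exact mul_le_mul h2 h3 (norm_nonneg _) (B_nonneg D)

theorem meas_Ph (h2 : Bas2 D) {k : ℝ} (hk : -D.a < k) (ω : ℝ) :
    Measurable (fun x => D.Ph k x ω) := by
  have hR := R_pos D
  have e : (fun x => D.Ph k x ω) = fun x => ∫ y in Ioc (-D.R) D.R,
      (D.φ x y : ℂ) * cexp (-(I * ω * D.BB k y)) * (D.py k y)⁻¹ := by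
    funext x
    unfold LD.Ph
    rw [intervalIntegral.integral_of_le (by linarith)]
  rw [e]
  have hc : Continuous (fun s => (D.py k s)⁻¹) := h2.conty (k : ℂ) (Or.inr (by simpa using hk))
  have hBB : Continuous (fun y => D.BB k y) :=
    intervalIntegral.continuous_primitive (fun a b => hc.intervalIntegrable a b) _
  have hm : Measurable (fun z : ℝ × ℝ =>
      (D.φ z.1 z.2 : ℂ) * cexp (-(I * ω * D.BB k z.2)) * (D.py k z.2)⁻¹) := by
    refine Measurable.mul (Measurable.mul ?_ ?_) ?_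
    · exact Complex.measurable_ofReal.comp D.φm
    · have h3 : Continuous (fun y : ℝ => cexp (-(I * ω * D.BB k y))) := by fun_prop
      exact h3.measurable.comp measurable_snd
    · exact hc.measurable.comp measurable_snd
  exact (StronglyMeasurable.integral_prod_right (f := fun x y =>
    (D.φ x y : ℂ) * cexp (-(I * ω * D.BB k y)) * (D.py k y)⁻¹) hm.stronglyMeasurable).measurable

theorem norm_pxi (h1 : Bas1 D) (k x : ℝ) : ‖(D.px k x)⁻¹‖ = D.wU k x := by
  rw [norm_inv, h1.px_norm]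
  unfold LD.wU
  congr 2
  rw [← Complex.ofReal_sub, Complex.norm_real, Real.norm_eq_abs]

theorem wU_nonneg (k x : ℝ) : 0 ≤ D.wU k x := inv_nonneg.2 (Real.sqrt_nonneg _)

theorem main (h1 : Bas1 D) (h2 : Bas2 D) {k : ℝ} (hL : D.Lv k) (σ : ℝ) (hσ : σ = 1 ∨ σ = -1)
    (ω x : ℝ) (hx : x ∈ Icc (-D.R) D.R) :
    ‖D.vv σ k ω x‖ ≤ CC D k * ∫ s in (-D.R)..D.R, D.wU k s := by
  have hR := R_pos D
  have hk := hL.low
  have hAd : D.Ad (k : ℂ) := Or.inr ⟨Complex.ofReal_im k, by simpa using hL.gd, by simpa using hk⟩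
  have hint : IntervalIntegrable (fun s => (D.px k s)⁻¹) volume (-D.R) D.R := h2.intx _ hAd
  have hw : IntervalIntegrable (D.wU k) volume (-D.R) D.R := hL.gd.int
  have hsub : ∀ {c d : ℝ}, c ∈ Icc (-D.R) D.R → d ∈ Icc (-D.R) D.R → uIcc c d ⊆ uIcc (-D.R) D.R := by
    intro c d hc hd
    refine uIcc_subset_uIcc ?_ ?_
    · rw [uIcc_of_le (by linarith)]
      exact hc
    · rw [uIcc_of_le (by linarith)]
      exact hd
  have hRm : -D.R ∈ Icc (-D.R) D.R := ⟨le_rfl, by linarith⟩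
  have hRp : D.R ∈ Icc (-D.R) D.R := ⟨by linarith, le_rfl⟩
  have hgaq : ∀ c d : ℝ, c ∈ Icc (-D.R) D.R → d ∈ Icc (-D.R) D.R → c ≤ d →
      0 ≤ (∫ s in c..d, (D.px k s)⁻¹).im := by
    intro c d hc hd hcd
    have h := (h2.ga_quad k c d hAd hc hd).2
    unfold LD.ga at h
    rwa [min_eq_left hcd, max_eq_right hcd] at h
  have hσn : ‖(σ : ℂ)‖ = 1 := by
    rcases hσ with h | h <;> simp [h]
  have hσa : |σ| = 1 := by
    rcases hσ with h | h <;> simp [h]
  have hexp : ∀ (z : ℂ), 0 ≤ ω * σ * z.im → ‖cexp (I * ω * σ * z)‖ ≤ 1 := by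
    intro z hz
    rw [Complex.norm_exp]
    have h : (I * (ω : ℂ) * (σ : ℂ) * z).re = -(ω * σ * z.im) := by
      simp [Complex.mul_re, Complex.mul_im]
    rw [h]
    exact Real.exp_le_one_iff.2 (by linarith)
  have hwle : ∀ c d : ℝ, c ∈ Icc (-D.R) D.R → d ∈ Icc (-D.R) D.R → c ≤ d →
      ∫ s in c..d, D.wU k s ≤ ∫ s in (-D.R)..D.R, D.wU k s := by
    intro c d hc hd hcd
    exact intervalIntegral.integral_mono_interval hc.1 hcd hd.2
      (Eventually.of_forall fun s => wU_nonneg k s) hw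
  -- the estimate of an integral
  have hest : ∀ (c d : ℝ) (E : ℝ → ℂ), c ∈ Icc (-D.R) D.R → d ∈ Icc (-D.R) D.R → c ≤ d →
      (∀ s ∈ Icc c d, ‖E s‖ ≤ 1) →
      ‖∫ s in c..d, D.Ph k s ω * (D.px k s)⁻¹ * E s‖ ≤ CC D k * ∫ s in (-D.R)..D.R, D.wU k s := by
    intro c d E hc hd hcd hE
    have h3 : ‖∫ s in c..d, D.Ph k s ω * (D.px k s)⁻¹ * E s‖ ≤ ∫ s in c..d, CC D k * D.wU k s := by
      refine intervalIntegral.norm_integral_le_of_norm_le hcd ?_ ?_
      · refine Eventually.of_forall fun s hs => ?_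
        rw [norm_mul, norm_mul, norm_pxi h1]
        have h4 : ‖D.Ph k s ω‖ * D.wU k s ≤ CC D k * D.wU k s :=
          mul_le_mul_of_nonneg_right (norm_Ph h1 hk ω s) (wU_nonneg k s)
        calc ‖D.Ph k s ω‖ * D.wU k s * ‖E s‖ ≤ ‖D.Ph k s ω‖ * D.wU k s * 1 :=
              mul_le_mul_of_nonneg_left (hE s ⟨hs.1.le, hs.2⟩)
                (mul_nonneg (norm_nonneg _) (wU_nonneg k s))
          _ ≤ CC D k * D.wU k s := by rw [mul_one]; exact h4
      · exact (hw.mono_set (hsub hc hd)).const_mul _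
    refine h3.trans ?_
    rw [intervalIntegral.integral_const_mul]
    exact mul_le_mul_of_nonneg_left (hwle c d hc hd hcd) (CC_nonneg D k)
  by_cases hs : 0 ≤ ω * σ
  · unfold LD.vv
    rw [norm_mul, hσn, one_mul]
    refine hest x D.R (fun x' => cexp (I * ω * σ * ∫ s in x..x', (D.px k s)⁻¹)) hx hRp hx.2 ?_
    intro s hs'
    have hsR : s ∈ Icc (-D.R) D.R := ⟨hx.1.trans hs'.1, hs'.2⟩
    exact hexp _ (mul_nonneg hs (hgaq x s hx hsR hs'.1))
  · push Not at hs
    -- the integral over `[-R, x]`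
    have hAA : ∀ c d : ℝ, c ∈ Icc (-D.R) D.R → d ∈ Icc (-D.R) D.R →
        ∫ s in c..d, (D.px k s)⁻¹ = D.AA k d - D.AA k c := by
      intro c d hc hd
      unfold LD.AA
      rw [← intervalIntegral.integral_add_adjacent_intervals
        (hint.mono_set (hsub hRm hc)) (hint.mono_set (hsub hc hd))]
      ring
    have hAc : ContinuousOn (fun s => D.AA k s) (Icc (-D.R) D.R) := by
      have h3 := intervalIntegral.continuousOn_primitive_interval' hint (a := -D.R)
        (by rw [uIcc_of_le (by linarith)]; exact hRm)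
      rw [uIcc_of_le (by linarith)] at h3
      exact h3
    have hgi : IntervalIntegrable (fun s => D.Ph k s ω * cexp (I * ω * σ * D.AA k s) *
        (D.px k s)⁻¹) volume (-D.R) D.R := by
      have hEc : ContinuousOn (fun s => cexp (I * ω * σ * D.AA k s)) (Icc (-D.R) D.R) :=
        (continuousOn_const.mul hAc).cexp
      obtain ⟨M, hM⟩ := isCompact_Icc.exists_bound_of_continuousOn hEc
      rw [intervalIntegrable_iff_integrableOn_Ioc_of_le (by linarith)] at hw ⊢
      refine Integrable.mono' (hw.const_mul (CC D k * M)) ?_ ?_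
      · refine AEStronglyMeasurable.mul (AEStronglyMeasurable.mul ?_ ?_) ?_
        · exact (meas_Ph h2 hk ω).aestronglyMeasurable
        · exact (hEc.mono Ioc_subset_Icc_self).aestronglyMeasurable measurableSet_Ioc
        · exact (h1.px_cont k).measurable.inv.aestronglyMeasurable
      · refine (ae_restrict_iff' measurableSet_Ioc).2 (Eventually.of_forall fun s hs' => ?_)
        rw [norm_mul, norm_mul, norm_pxi h1]
        refine mul_le_mul_of_nonneg_right ?_ (wU_nonneg k s)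
        exact mul_le_mul (norm_Ph h1 hk ω s) (hM s ⟨hs'.1.le, hs'.2⟩) (norm_nonneg _)
          (CC_nonneg D k)
    have hzero := hL.zero σ hσ ω
    unfold LD.EE at hzero
    rw [← intervalIntegral.integral_add_adjacent_intervals (hgi.mono_set (hsub hRm hx))
      (hgi.mono_set (hsub hx hRp))] at hzero
    have hneg : ∫ s in x..D.R, D.Ph k s ω * cexp (I * ω * σ * D.AA k s) * (D.px k s)⁻¹ =
        -∫ s in (-D.R)..x, D.Ph k s ω * cexp (I * ω * σ * D.AA k s) * (D.px k s)⁻¹ := by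
      rw [eq_neg_iff_add_eq_zero, add_comm]
      exact hzero
    have hpt : ∀ s ∈ Icc (-D.R) D.R, D.Ph k s ω * (D.px k s)⁻¹ *
        cexp (I * ω * σ * ∫ t in x..s, (D.px k t)⁻¹) =
        cexp (-(I * ω * σ * D.AA k x)) *
          (D.Ph k s ω * cexp (I * ω * σ * D.AA k s) * (D.px k s)⁻¹) := by
      intro s hs'
      rw [hAA x s hx hs']
      have h4 : I * (ω : ℂ) * (σ : ℂ) * (D.AA k s - D.AA k x) =
          -(I * ω * σ * D.AA k x) + I * ω * σ * D.AA k s := by ring
      rw [h4, Complex.exp_add]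
      ring
    have hv : D.vv σ k ω x = -(σ * ∫ s in (-D.R)..x, D.Ph k s ω * (D.px k s)⁻¹ *
        cexp (I * ω * σ * ∫ t in x..s, (D.px k t)⁻¹)) := by
      unfold LD.vv
      have e1 : ∫ s in x..D.R, D.Ph k s ω * (D.px k s)⁻¹ *
          cexp (I * ω * σ * ∫ t in x..s, (D.px k t)⁻¹) =
          ∫ s in x..D.R, cexp (-(I * ω * σ * D.AA k x)) *
            (D.Ph k s ω * cexp (I * ω * σ * D.AA k s) * (D.px k s)⁻¹) := by
        refine intervalIntegral.integral_congr fun s hs' => ?_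
        rw [uIcc_of_le hx.2] at hs'
        exact hpt s ⟨hx.1.trans hs'.1, hs'.2⟩
      have e2 : ∫ s in (-D.R)..x, D.Ph k s ω * (D.px k s)⁻¹ *
          cexp (I * ω * σ * ∫ t in x..s, (D.px k t)⁻¹) =
          ∫ s in (-D.R)..x, cexp (-(I * ω * σ * D.AA k x)) *
            (D.Ph k s ω * cexp (I * ω * σ * D.AA k s) * (D.px k s)⁻¹) := by
        refine intervalIntegral.integral_congr fun s hs' => ?_
        rw [uIcc_of_le hx.1] at hs'
        exact hpt s ⟨hs'.1, hs'.2.trans hx.2⟩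
      rw [e1, e2, intervalIntegral.integral_const_mul, intervalIntegral.integral_const_mul, hneg]
      ring
    rw [hv, norm_neg, norm_mul, hσn, one_mul]
    refine hest (-D.R) x (fun s => cexp (I * ω * σ * ∫ t in x..s, (D.px k t)⁻¹)) hRm hx hx.1 ?_
    intro s hs'
    have hsR : s ∈ Icc (-D.R) D.R := ⟨hs'.1, hs'.2.trans hx.2⟩
    refine hexp _ ?_
    rw [intervalIntegral.integral_symm, Complex.neg_im, mul_neg, ← neg_mul]
    exact mul_nonneg (by linarith) (hgaq s x hsR hx hs'.2)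

end VBAux

/-- the transport solutions are bounded -/
theorem vb (hB1 : Stmt_BAS1) (hB2 : Stmt_BAS2) : Stmt_VB := by
  intro D k hL
  refine ⟨VBAux.CC D k * ∫ s in (-D.R)..D.R, D.wU k s, ?_⟩
  intro σ hσ ω x hx
  exact VBAux.main (hB1 D) (hB2 D) hL σ hσ ω x hx

end Pool.Agent.LIO
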