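import Pool.Agent.LIO.Abs
import Pool.Agent.LIO.Bas1
import Pool.Agent.LIO.Bas2
import Pool.Agent.LIO.Bas3
import Pool.Agent.LIO.Const
import Pool.Agent.LIO.Core
import Pool.Agent.LIO.Dec
import Pool.Agent.LIO.Dom
import Pool.Agent.LIO.Dsw
import Pool.Agent.LIO.Ez
import Pool.Agent.LIO.Fin
import Pool.Agent.LIO.Flow
import Pool.Agent.LIO.Fok
import Pool.Agent.LIO.GeoM
import Pool.Agent.LIO.Glc
import Pool.Agent.LIO.Glv
import Pool.Agent.LIO.Gro
import Pool.Agent.LIO.Hol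
import Pool.Agent.LIO.Int
import Pool.Agent.LIO.Inv
import Pool.Agent.LIO.Ker
import Pool.Agent.LIO.Kf
import Pool.Agent.LIO.Lev
import Pool.Agent.LIO.Lim
import Pool.Agent.LIO.Lin
import Pool.Agent.LIO.Line
import Pool.Agent.LIO.Mod
import Pool.Agent.LIO.NulSet
import Pool.Agent.LIO.Ort
import Pool.Agent.LIO.Prim
import Pool.Agent.LIO.Qf
import Pool.Agent.LIO.Qi
import Pool.Agent.LIO.Qok
import Pool.Agent.LIO.R1
import Pool.Agent.LIO.R2
import Pool.Agent.LIO.Real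
import Pool.Agent.LIO.Seg
import Pool.Agent.LIO.Star
import Pool.Agent.LIO.Sup
import Pool.Agent.LIO.Supp
import Pool.Agent.LIO.Swap
import Pool.Agent.LIO.Tfc
import Pool.Agent.LIO.Tra
import Pool.Agent.LIO.Vb

/-!
# Liouville metrics: assembly
-/

set_option autoImplicit false

namespace Pool.Agent.LIO.All

theorem B1 : Stmt_BAS1 := bas1
theorem B2 : Stmt_BAS2 := bas2 B1
theorem B3 : Stmt_BAS3 := bas3 B1 B2
theorem L : Stmt_LEV := lev
theorem K : Stmt_KER := ker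
theorem S : Stmt_SUP := sup_bound K
theorem KFs : Stmt_KF := kf K S
theorem G : Stmt_GLC := glc
theorem Qs : Stmt_QOK := qok B1 B2 B3
theorem QFs : Stmt_QF := qf B1 B2
theorem QIs : Stmt_QI := qi B1 B2 K
theorem Is : Stmt_INT := int_ B1 B2 B3 K
theorem H : Stmt_HOL := hol B1 B2 B3 K Is
theorem Gs : Stmt_GRO := gro B1 B2 B3 K
theorem Ds : Stmt_DOM := dom B1 B2 B3 S Is
theorem Ls : Stmt_LIM := lim B1 B2 B3 K Is
theorem Fs : Stmt_FOK := fok Qs H Gs Ds Ls
theorem SW : Stmt_SWAP := swap_ B1 B2 B3 Qs QIs Is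
theorem LI : Stmt_LIN := lin Qs Is
theorem EZs : Stmt_EZ := ez B1 B2 B3
theorem DS : Stmt_DSW := dsw B1
theorem V : Stmt_VB := vb B1 B2
theorem GLs : Stmt_GLV := glv B1 B2
theorem DE : Stmt_DEC := dec_ B1 B2
theorem ST : Stmt_STAR := star_ B1 B2 B3 KFs Qs QFs Is V DE
theorem RE : Stmt_REAL := real_ B1 B2 ST GLs
theorem TF : Stmt_TFC := tfc
theorem CO : Stmt_CONST := const_ L Fs SW RE G TF
theorem IN : Stmt_INV := inv_ B1 B2 DE
theorem TR : Stmt_TRA := tra B1 B2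
theorem R1s : Stmt_R1 := r1 B1 B2 TF DE V TR ST
theorem R2s : Stmt_R2 := r2 B1 B2 TF DE V TR ST IN
theorem SU : Stmt_SUPP := supp_ B1 B2 ST
theorem CORE : Stmt_CORE := core L Fs SW LI EZs DS CO R1s R2s SU TF prim ort
theorem ABS : Stmt_ABS := abs_ flow (line B1) nul (seg geo) mod_ CORE
theorem FIN : Stmt_FIN := fin_ ABS

end Pool.Agent.LIO.All
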