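import Mathlib
import Pool.Agent.Lib_helper92.XRay.GeoDefs

/-!
# Liouville metrics: definitions of the analytic core

`D : LD` are the data of the two dimensional problem: the metric is `(U x + V y)(dx² + dy²)` and
`φ = f (U + V)` is the density, supported in the box `|x|, |y| ≤ r < R`. The parameter `h` is the
constant of the Liouville first integral. Everything is written in such a way that the formulas
have the correct boundary values on the closed upper half plane `0 ≤ h.im`.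
-/

set_option autoImplicit false

namespace Pool.Agent.LIO

open Complex MeasureTheory Set Filter Topology

/-- the data of the two dimensional problem -/
structure LD where
  U : ℝ → ℝ
  V : ℝ → ℝ
  φ : ℝ → ℝ → ℝ
  R : ℝ
  r : ℝ
  a : ℝ
  B : ℝ
  r0 : 0 < r
  rR : r < R
  a0 : 0 < a
  Us : ContDiff ℝ (⊤ : ℕ∞) U
  Vs : ContDiff ℝ (⊤ : ℕ∞) V
  Ua : ∀ x, a ≤ U x
  Va : ∀ y, a ≤ V y
  UB : ∀ x, U x ≤ B
  VB : ∀ y, V y ≤ B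
  φm : Measurable (fun z : ℝ × ℝ => φ z.1 z.2)
  φb : ∀ x y, |φ x y| ≤ B
  φs : ∀ x y, r ≤ |x| ∨ r ≤ |y| → φ x y = 0

/-- test functions: smooth, with compact support in the open box `(-R, R)²` -/
structure TF (R : ℝ) (ψ : ℝ → ℝ → ℝ) : Prop where
  smooth : ContDiff ℝ (⊤ : ℕ∞) (fun z : ℝ × ℝ => ψ z.1 z.2)
  supp : ∃ ρ < R, ∀ x y, ρ ≤ |x| ∨ ρ ≤ |y| → ψ x y = 0

/-- exchange of the variables -/
def sw (ψ : ℝ → ℝ → ℝ) : ℝ → ℝ → ℝ := fun x y => ψ y x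

/-- `∂ψ/∂x`, `∂ψ/∂y` -/
noncomputable def dx (ψ : ℝ → ℝ → ℝ) : ℝ → ℝ → ℝ := fun x y => deriv (fun t => ψ t y) x

noncomputable def dy (ψ : ℝ → ℝ → ℝ) : ℝ → ℝ → ℝ := fun x y => deriv (fun t => ψ x t) y

/-- the kernel `ζ log (-i ζ)`; its second derivative is `1/ζ`. It is holomorphic off the closed
negative imaginary axis and continuous at `0`. -/
noncomputable def KK (ζ : ℂ) : ℂ := ζ * Complex.log (-(I * ζ))

/-- the sign `sgn (x' - x)` -/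
noncomputable def sg (x x' : ℝ) : ℝ := if x < x' then 1 else -1

/-- the points where the kernel `KK` is continuous -/
def DD : Set ℂ := {ζ | ζ.re = 0 → 0 ≤ ζ.im}

namespace LD

/-- exchange of the variables -/
def swap (D : LD) : LD where
  U := D.V
  V := D.U
  φ := fun x y => D.φ y x
  R := D.R
  r := D.r
  a := D.a
  B := D.B
  r0 := D.r0
  rR := D.rR
  a0 := D.a0
  Us := D.Vs
  Vs := D.Us
  Ua := D.Va
  Va := D.Ua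
  UB := D.VB
  VB := D.UB
  φm := D.φm.comp measurable_swap
  φb := fun x y => D.φb y x
  φs := fun x y h => D.φs y x h.symm

variable (D : LD)

/-- `√(U x - h)`, the branch which is continuous on `0 ≤ Im h`; there `0 ≤ Re`, `Im ≤ 0` -/
noncomputable def px (h : ℂ) (x : ℝ) : ℂ :=
  (starRingEnd ℂ) (Complex.sqrt ((D.U x : ℂ) - (starRingEnd ℂ) h))

/-- `√(V y + h)`; for `0 ≤ Im h`: `0 ≤ Re`, `0 ≤ Im` -/
noncomputable def py (h : ℂ) (y : ℝ) : ℂ := Complex.sqrt ((D.V y : ℂ) + h)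

/-- `∫_{-R}^x ds / p_x(s)` -/
noncomputable def AA (h : ℂ) (x : ℝ) : ℂ := ∫ s in (-D.R)..x, (D.px h s)⁻¹

/-- `∫_{-R}^y ds / p_y(s)` -/
noncomputable def BB (h : ℂ) (y : ℝ) : ℂ := ∫ s in (-D.R)..y, (D.py h s)⁻¹

/-- `∫ ds / p_x` from the smaller to the larger one of `x`, `x'` -/
noncomputable def ga (h : ℂ) (x x' : ℝ) : ℂ := ∫ s in (min x x')..(max x x'), (D.px h s)⁻¹

/-- `∫_{y'}^y ds / p_y` -/
noncomputable def be (h : ℂ) (y y' : ℝ) : ℂ := ∫ s in y'..y, (D.py h s)⁻¹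

/-- the slice transform `∫ φ(x, y) e^{-iωb(y)} dy / p_y` -/
noncomputable def Ph (h : ℂ) (x : ℝ) (ω : ℂ) : ℂ :=
  ∫ y in (-D.R)..D.R, (D.φ x y : ℂ) * cexp (-(I * ω * D.BB h y)) * (D.py h y)⁻¹

/-- the data: `∫∫ φ e^{iω(σ a(x) - b(y))} / (p_x p_y)` -/
noncomputable def EE (σ : ℝ) (h ω : ℂ) : ℂ :=
  ∫ x in (-D.R)..D.R, D.Ph h x ω * cexp (I * ω * σ * D.AA h x) * (D.px h x)⁻¹

/-- the data vanish for real `h` near `0` and real `ω` -/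
def DataZero (δ : ℝ) : Prop :=
  ∀ h : ℝ, |h| < δ → ∀ σ : ℝ, (σ = 1 ∨ σ = -1) → ∀ ω : ℝ, D.EE σ h ω = 0

/-- the transport solutions in the Fourier variable, `σ = 1`: `v₁`, `σ = -1`: `v₂` -/
noncomputable def vv (σ : ℝ) (h ω : ℂ) (x : ℝ) : ℂ :=
  σ * ∫ x' in x..D.R, D.Ph h x' ω * (D.px h x')⁻¹ *
    cexp (I * ω * σ * ∫ s in x..x', (D.px h s)⁻¹)

/-- `v₁ + v₂` -/
noncomputable def SS (h ω : ℂ) (x : ℝ) : ℂ := D.vv 1 h ω x + D.vv (-1) h ω x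

/-- `v₁ - v₂` -/
noncomputable def PP (h ω : ℂ) (x : ℝ) : ℂ := D.vv 1 h ω x - D.vv (-1) h ω x

/-- the singular weight -/
noncomputable def wU (k x : ℝ) : ℝ := (√|D.U x - k|)⁻¹

/-- a good real level `k` -/
structure Gd (k : ℝ) : Prop where
  int : IntervalIntegrable (D.wU k) volume (-D.R) D.R
  ne : ∀ᵐ x ∂(volume.restrict (Icc (-D.R) D.R)), D.U x ≠ k

/-- a real level at which everything is defined and the data vanish -/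
structure Lv (k : ℝ) : Prop where
  gd : D.Gd k
  low : -D.a < k
  zero : ∀ σ : ℝ, (σ = 1 ∨ σ = -1) → ∀ ω : ℂ, D.EE σ k ω = 0

/-- admissible parameters: the open upper half plane, and the good real levels `k > -a` -/
def Ad (h : ℂ) : Prop := 0 < h.im ∨ (h.im = 0 ∧ D.Gd h.re ∧ -D.a < h.re)

/-- the measure of the box, `z = ((x, x'), (y, y'))` -/
noncomputable def nu : Measure ℝ := volume.restrict (Icc (-D.R) D.R)

noncomputable def mu : Measure ((ℝ × ℝ) × (ℝ × ℝ)) := (D.nu.prod D.nu).prod (D.nu.prod D.nu)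

/-- the amplitude for the test function `ψ p_x`:
`∂_y (p_y ∂_y (p_y (p_x ψ)))` -/
noncomputable def QP (ψ : ℝ → ℝ → ℝ) (h : ℂ) (x y : ℝ) : ℂ :=
  D.px h x * ((deriv (deriv D.V) y / 2 : ℝ) * (ψ x y : ℝ) + (3 / 2 * deriv D.V y : ℝ) *
    (dy ψ x y : ℝ) + ((D.V y : ℂ) + h) * (dy (dy ψ) x y : ℝ))

/-- the amplitude for the test function `ψ p_y`:
`∂_y (p_y ∂_y (p_y (p_y ψ)))` -/
noncomputable def QS (ψ : ℝ → ℝ → ℝ) (h : ℂ) (x y : ℝ) : ℂ :=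
  (deriv D.V y ^ 2 * ψ x y : ℝ) / (2 * D.py h y) + D.py h y * ((deriv (deriv D.V) y : ℝ) *
    (ψ x y : ℝ) + (5 / 2 * deriv D.V y : ℝ) * (dy ψ x y : ℝ) + ((D.V y : ℂ) + h) *
    (dy (dy ψ) x y : ℝ))

/-- the integrand of the elementary functional -/
noncomputable def HI (m : ℝ → ℝ → ℝ) (Q : ℂ → ℝ → ℝ → ℂ) (τ : ℝ) (h : ℂ)
    (z : (ℝ × ℝ) × (ℝ × ℝ)) : ℂ :=
  (D.φ z.1.2 z.2.2 : ℂ) * (D.px h z.1.2)⁻¹ * (D.py h z.2.2)⁻¹ *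
    (m z.1.1 z.1.2 : ℂ) * Q h z.1.1 z.2.1 *
    KK (D.ga h z.1.1 z.1.2 + τ * D.be h z.2.1 z.2.2)

/-- the elementary functional -/
noncomputable def HH (m : ℝ → ℝ → ℝ) (Q : ℂ → ℝ → ℝ → ℂ) (τ : ℝ) (h : ℂ) : ℂ :=
  ∫ z : (ℝ × ℝ) × (ℝ × ℝ), D.HI m Q τ h z ∂D.mu

/-- `∫∫ S p_y ψ`, `S = u₁ + u₂` -/
noncomputable def FS (ψ : ℝ → ℝ → ℝ) (h : ℂ) : ℂ :=
  -(2 * Real.pi * I)⁻¹ * (D.HH (fun _ _ => 1) (D.QS ψ) 1 h - D.HH (fun _ _ => 1) (D.QS ψ) (-1) h)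

/-- `∫∫ P p_x ψ`, `P = u₁ - u₂` -/
noncomputable def FP (ψ : ℝ → ℝ → ℝ) (h : ℂ) : ℂ :=
  -(2 * Real.pi * I)⁻¹ * (D.HH sg (D.QP ψ) 1 h + D.HH sg (D.QP ψ) (-1) h)

/-- `∫ ψ p_y e^{iωb(y)} dy` -/
noncomputable def cS (ψ : ℝ → ℝ → ℝ) (h ω : ℂ) (x : ℝ) : ℂ :=
  ∫ y in (-D.R)..D.R, (ψ x y : ℂ) * D.py h y * cexp (I * ω * D.BB h y)

/-- `∫ ψ e^{iωb(y)} dy` -/
noncomputable def c0 (ψ : ℝ → ℝ → ℝ) (h ω : ℂ) (x : ℝ) : ℂ :=
  ∫ y in (-D.R)..D.R, (ψ x y : ℂ) * cexp (I * ω * D.BB h y)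

/-- admissible amplitudes -/
structure QOK (Q : ℂ → ℝ → ℝ → ℂ) : Prop where
  meas : ∀ h, Measurable (fun z : ℝ × ℝ => Q h z.1 z.2)
  contY : ∀ h x, 0 ≤ h.im → (0 < h.im ∨ -D.a < h.re) → Continuous (fun y => Q h x y)
  diff : ∀ h x y, 0 < h.im → DifferentiableAt ℂ (fun h' => Q h' x y) h
  lim : ∀ (k x y : ℝ), -D.a < k →
    Tendsto (fun ε : ℝ => Q ((k : ℂ) + ε * I) x y) (𝓝[>] 0) (𝓝 (Q k x y))
  bdd1 : ∀ K η : ℝ, 0 < η → ∃ C, ∀ (h : ℂ) (x y : ℝ), η ≤ h.im → ‖h‖ ≤ K → ‖Q h x y‖ ≤ C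
  bdd2 : ∀ K η : ℝ, 0 < η → ∃ C, ∀ (h : ℂ) (x y : ℝ), 0 ≤ h.im → -D.a + η ≤ h.re → ‖h‖ ≤ K →
    ‖Q h x y‖ ≤ C
  grow : ∃ C, ∀ (h : ℂ) (x y : ℝ), 0 < h.im → 2 * D.B ≤ ‖h‖ → 1 ≤ ‖h‖ →
    ‖Q h x y‖ ≤ C * ‖h‖ ^ (3 / 2 : ℝ)
  mom0 : ∀ h x, 0 ≤ h.im → (0 < h.im ∨ -D.a < h.re) → ∫ y in (-D.R)..D.R, Q h x y = 0
  mom1 : ∀ h x y', 0 ≤ h.im → (0 < h.im ∨ -D.a < h.re) →
    ∫ y in (-D.R)..D.R, Q h x y * D.be h y y' = 0

end LD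

end Pool.Agent.LIO
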