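import Pool.Agent.LIO.Stmts

/-!
# Liouville metrics: the geometric part, definitions and statements
-/

set_option autoImplicit false

namespace Pool.Agent.LIO

open MeasureTheory Set Filter Topology Pool.Agent.XRay

/-- The space `E` is split by `e` into the plane of the variables `x`, `y` and the space `W` of the
other variables. The metric `G` is, on the plane, `(U x + V y)(dx² + dy²)`, and the plane is
orthogonal to `W`; nothing is assumed on the values `G z w w'` for `w`, `w'` in `W`. -/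
def LioM {E W : Type} [NormedAddCommGroup E] [NormedSpace ℝ E] [NormedAddCommGroup W]
    [NormedSpace ℝ W] (e : ((ℝ × ℝ) × W) ≃L[ℝ] E) (G : E → E →L[ℝ] E →L[ℝ] ℝ) (U V : ℝ → ℝ) :
    Prop :=
  ∀ (z : E) (v : ℝ × ℝ) (w : E), G z (e (v, 0)) w =
    (U (e.symm z).1.1 + V (e.symm z).1.2) * (v.1 * (e.symm w).1.1 + v.2 * (e.symm w).1.2)

/-- The integrals of `f` vanish along the maximal segments in `M` of the unit speed geodesics which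
are contained in the planes `w = const` and whose Liouville integral
`(U + V)(U y'² - V x'²)` differs from `h₀` by less than `δ`. -/
def LioZ {E W : Type} [NormedAddCommGroup E] [NormedSpace ℝ E] [NormedAddCommGroup W]
    [NormedSpace ℝ W] (e : ((ℝ × ℝ) × W) ≃L[ℝ] E) (G : E → E →L[ℝ] E →L[ℝ] ℝ) (U V : ℝ → ℝ)
    (M : Set E) (f : E → ℝ) (h₀ δ : ℝ) : Prop :=
  ∀ (γ : ℝ → E) (u v s t : ℝ), u < s → s < t → t < v → UnitGeodesicOn G γ (Ioo u v) →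
    (∀ τ ∈ Ioo u v, (e.symm (deriv γ τ)).2 = 0 ∧
      |(U (e.symm (γ τ)).1.1 + V (e.symm (γ τ)).1.2) *
        (U (e.symm (γ τ)).1.1 * (e.symm (deriv γ τ)).1.2 ^ 2 -
          V (e.symm (γ τ)).1.2 * (e.symm (deriv γ τ)).1.1 ^ 2) - h₀| < δ) →
    MaximalSegment M γ s t → ∫ τ in s..t, f (γ τ) = 0

/-- `X`, `Y` are the flows of `p_x`, `p_y` (as functions of the two phases) at the real level `h` -/
structure Flow (D : LD) (h : ℝ) (X Y : ℝ → ℝ) : Prop where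
  hX : ∀ s, HasDerivAt X (√(D.U (X s) - h)) s
  hY : ∀ s, HasDerivAt Y (√(D.V (Y s) + h)) s
  X_inv : ∀ x, X (∫ s in (-D.R)..x, (√(D.U s - h))⁻¹) = x
  inv_X : ∀ s, ∫ s in (-D.R)..(X s), (√(D.U s - h))⁻¹ = s
  Y_inv : ∀ y, Y (∫ s in (-D.R)..y, (√(D.V s + h))⁻¹) = y
  inv_Y : ∀ s, ∫ s in (-D.R)..(Y s), (√(D.V s + h))⁻¹ = s

def Stmt_FLOW : Prop := ∀ (D : LD) (h : ℝ), |h| < D.a → ∃ X Y, Flow D h X Y

/-- the data from the integrals along the lines -/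
def Stmt_LINE : Prop := ∀ (D : LD) (h : ℝ) (X Y : ℝ → ℝ), |h| < D.a → Flow D h X Y →
  ∀ σ : ℝ, (σ = 1 ∨ σ = -1) →
    (∀ᵐ c : ℝ, ∫ τ : ℝ, D.φ (X (σ * (τ - c))) (Y τ) = 0) → ∀ ω : ℝ, D.EE σ h ω = 0

/-- null sets along the lines -/
def Stmt_NUL : Prop := ∀ (D : LD) (h : ℝ) (X Y : ℝ → ℝ), |h| < D.a → Flow D h X Y →
  ∀ σ : ℝ, (σ = 1 ∨ σ = -1) → ∀ N : Set (ℝ × ℝ), MeasurableSet N → volume N = 0 →
    ∀ᵐ c : ℝ, ∀ᵐ τ : ℝ, (X (σ * (τ - c)), Y τ) ∉ N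

/-- the curve `τ ↦ (X (σ (τ - c)), Y τ)` in the plane `w = w₀` -/
noncomputable def cv {E W : Type} [NormedAddCommGroup E] [NormedSpace ℝ E] [NormedAddCommGroup W]
    [NormedSpace ℝ W] (e : ((ℝ × ℝ) × W) ≃L[ℝ] E) (X Y : ℝ → ℝ) (σ c : ℝ) (w₀ : W) (τ : ℝ) : E :=
  e ((X (σ * (τ - c)), Y τ), w₀)

/-- **the curves are geodesics** -/
def Stmt_GEO : Prop := ∀ (E W : Type) [NormedAddCommGroup E] [NormedSpace ℝ E]
  [NormedAddCommGroup W] [NormedSpace ℝ W] (e : ((ℝ × ℝ) × W) ≃L[ℝ] E)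
  (G : E → E →L[ℝ] E →L[ℝ] ℝ) (U V : ℝ → ℝ), IsMetric G → Differentiable ℝ U →
  Differentiable ℝ V → LioM e G U V → ∀ (D : LD) (h h₀ σ c : ℝ) (X Y T S : ℝ → ℝ) (w₀ : W),
  |h| < D.a → Flow D h X Y → (σ = 1 ∨ σ = -1) →
  (∀ τ, HasDerivAt T (D.U (X (σ * (τ - c))) + D.V (Y τ)) τ) → (∀ τ, S (T τ) = τ) →
  (∀ t, T (S t) = t) → ∀ a b : ℝ, a < b →
  (∀ τ ∈ Ioo a b, (∀ᶠ x in 𝓝 (X (σ * (τ - c))), D.U x = U x - h₀) ∧
    ∀ᶠ y in 𝓝 (Y τ), D.V y = V y + h₀) →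
  UnitGeodesicOn G (fun t => cv e X Y σ c w₀ (S t)) (Ioo (T a) (T b)) ∧
  ∀ t ∈ Ioo (T a) (T b), HasDerivAt (fun t => cv e X Y σ c w₀ (S t))
      (e ((σ * √(D.U (X (σ * (S t - c))) - h) / (D.U (X (σ * (S t - c))) + D.V (Y (S t))),
        √(D.V (Y (S t)) + h) / (D.U (X (σ * (S t - c))) + D.V (Y (S t)))), 0)) t

/-- **the integrals along the curves vanish** -/
def Stmt_SEG : Prop := ∀ (E W : Type) [NormedAddCommGroup E] [NormedSpace ℝ E]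
  [MeasurableSpace E] [BorelSpace E] [NormedAddCommGroup W] [NormedSpace ℝ W]
  (e : ((ℝ × ℝ) × W) ≃L[ℝ] E) (G : E → E →L[ℝ] E →L[ℝ] ℝ) (U V : ℝ → ℝ), IsMetric G →
  Differentiable ℝ U → Differentiable ℝ V → LioM e G U V → ∀ (M : Set E) (f : E → ℝ)
  (h₀ δ : ℝ), IsCompact M → ContinuousOn f M → LioZ e G U V M f h₀ δ →
  ∀ (D : LD) (h σ c : ℝ) (X Y : ℝ → ℝ) (w₀ : W), |h| < D.a → |h| < δ → Flow D h X Y →
  (σ = 1 ∨ σ = -1) →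
  (∀ z ∈ M, (∀ᶠ x in 𝓝 (e.symm z).1.1, D.U x = U x - h₀) ∧
    ∀ᶠ y in 𝓝 (e.symm z).1.2, D.V y = V y + h₀) →
  (∀ᵐ τ : ℝ, cv e X Y σ c w₀ τ ∉ frontier M) →
  ∫ τ : ℝ, M.indicator f (cv e X Y σ c w₀ τ) * (D.U (X (σ * (τ - c))) + D.V (Y τ)) = 0

/-- modification of a smooth function away from a compact set -/
def Stmt_MOD : Prop := ∀ (U : ℝ → ℝ) (K : Set ℝ) (c : ℝ), ContDiff ℝ (⊤ : ℕ∞) U → IsCompact K →
  (∀ x ∈ K, c < U x) → ∃ (u : ℝ → ℝ) (a B : ℝ), 0 < a ∧ ContDiff ℝ (⊤ : ℕ∞) u ∧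
    (∀ x, a ≤ u x ∧ u x ≤ B) ∧ ∀ x ∈ K, ∀ᶠ t in 𝓝 x, u t = U t - c

/-- **the theorem in an abstract space** -/
def Stmt_ABS : Prop := ∀ (E W : Type) [NormedAddCommGroup E] [NormedSpace ℝ E]
  [FiniteDimensional ℝ E] [MeasurableSpace E] [BorelSpace E] [NormedAddCommGroup W]
  [InnerProductSpace ℝ W] [FiniteDimensional ℝ W] [MeasurableSpace W] [BorelSpace W]
  (e : ((ℝ × ℝ) × W) ≃L[ℝ] E) (G : E → E →L[ℝ] E →L[ℝ] ℝ) (U V : ℝ → ℝ), IsMetric G →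
  ContDiff ℝ (⊤ : ℕ∞) U → ContDiff ℝ (⊤ : ℕ∞) V → LioM e G U V → ∀ (M : Set E) (f : E → ℝ)
  (h₀ δ : ℝ), IsCompact M → (volume : Measure ((ℝ × ℝ) × W)) (e ⁻¹' frontier M) = 0 →
  ContinuousOn f M → 0 < δ →
  (∀ z ∈ M, -V (e.symm z).1.2 < h₀ ∧ h₀ < U (e.symm z).1.1) → LioZ e G U V M f h₀ δ →
  ∀ z ∈ closure (interior M), f z = 0

/-- the case of `ℝ^{n+2}` -/
def Stmt_FIN : Prop := ∀ (n : ℕ) (U V : ℝ → ℝ) (G : EuclideanSpace ℝ (Fin (n + 2)) →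
    EuclideanSpace ℝ (Fin (n + 2)) →L[ℝ] EuclideanSpace ℝ (Fin (n + 2)) →L[ℝ] ℝ),
  ContDiff ℝ (⊤ : ℕ∞) U → ContDiff ℝ (⊤ : ℕ∞) V → IsMetric G →
  (∀ z v w : EuclideanSpace ℝ (Fin (n + 2)), (∀ i : Fin (n + 2), 2 ≤ (i : ℕ) → v i = 0) →
    G z v w = (U (z 0) + V (z 1)) * (v 0 * w 0 + v 1 * w 1)) →
  ∀ (M : Set (EuclideanSpace ℝ (Fin (n + 2)))) (f : EuclideanSpace ℝ (Fin (n + 2)) → ℝ)
    (h₀ δ : ℝ), IsCompact M → volume (frontier M) = 0 → ContinuousOn f M → 0 < δ →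
    (∀ z ∈ M, -V (z 1) < h₀ ∧ h₀ < U (z 0)) →
    (∀ (γ : ℝ → EuclideanSpace ℝ (Fin (n + 2))) (u v s t : ℝ), u < s → s < t → t < v →
      UnitGeodesicOn G γ (Ioo u v) →
      (∀ τ ∈ Ioo u v, (∀ i : Fin (n + 2), 2 ≤ (i : ℕ) → deriv γ τ i = 0) ∧
        |(U (γ τ 0) + V (γ τ 1)) * (U (γ τ 0) * deriv γ τ 1 ^ 2 - V (γ τ 1) * deriv γ τ 0 ^ 2)
          - h₀| < δ) →
      MaximalSegment M γ s t → ∫ τ in s..t, f (γ τ) = 0) →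
    ∀ z ∈ closure (interior M), f z = 0

end Pool.Agent.LIO
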