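import Pool.Agent.LIO.Stmts
import Pool.Agent.Lib_helper92.XRay.Hol

/-!
# Liouville metrics: the elementary functional is holomorphic in the upper half plane
-/

set_option autoImplicit false

namespace Pool.Agent.LIO

open Complex MeasureTheory Set Filter Topology

namespace HOLAux

variable (D : LD)

instance nu_fin : IsFiniteMeasure D.nu := by
  unfold LD.nu
  infer_instance

instance nu_noAtoms : NullSingletonClass D.nu := by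
  unfold LD.nu
  infer_instance

instance mu_fin : IsFiniteMeasure D.mu := by
  unfold LD.mu
  infer_instance

lemma mu_eq : D.mu = (((volume : Measure ℝ).prod (volume : Measure ℝ)).prod
    ((volume : Measure ℝ).prod (volume : Measure ℝ))).restrict
      ((Icc (-D.R) D.R ×ˢ Icc (-D.R) D.R) ×ˢ (Icc (-D.R) D.R ×ˢ Icc (-D.R) D.R)) := by
  unfold LD.mu LD.nu
  rw [Measure.prod_restrict, Measure.prod_restrict]

lemma ae_box : ∀ᵐ z : (ℝ × ℝ) × (ℝ × ℝ) ∂D.mu, z.1.1 ∈ Icc (-D.R) D.R ∧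
    z.1.2 ∈ Icc (-D.R) D.R ∧ z.2.1 ∈ Icc (-D.R) D.R ∧ z.2.2 ∈ Icc (-D.R) D.R := by
  rw [mu_eq]
  have hms : MeasurableSet ((Icc (-D.R) D.R ×ˢ Icc (-D.R) D.R) ×ˢ
      (Icc (-D.R) D.R ×ˢ Icc (-D.R) D.R)) :=
    (measurableSet_Icc.prod measurableSet_Icc).prod (measurableSet_Icc.prod measurableSet_Icc)
  filter_upwards [ae_restrict_mem hms] with z hz
  simp only [mem_prod] at hz
  exact ⟨hz.1.1, hz.1.2, hz.2.1, hz.2.2⟩

lemma ae_ne2 : ∀ᵐ w : ℝ × ℝ ∂(D.nu.prod D.nu), w.1 ≠ w.2 := by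
  have hms : MeasurableSet {w : ℝ × ℝ | w.1 ≠ w.2} :=
    (isOpen_ne_fun continuous_fst continuous_snd).measurableSet
  rw [Measure.ae_prod_iff_ae_ae hms]
  refine Filter.Eventually.of_forall fun x => ?_
  have h1 : D.nu {x} = 0 := measure_singleton x
  have h2 : ({x} : Set ℝ)ᶜ ∈ ae D.nu := compl_mem_ae_iff.2 h1
  filter_upwards [h2] with y hy h3
  exact hy h3.symm

lemma ae_off : ∀ᵐ z : (ℝ × ℝ) × (ℝ × ℝ) ∂D.mu, z.1.1 ≠ z.1.2 := by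
  unfold LD.mu
  exact Measure.quasiMeasurePreserving_fst.ae (ae_ne2 D)

variable {D}

/-- the bound on a ball -/
lemma bound (hB1 : Bas1 D) (hB3 : Bas3 D) (hK : Stmt_KER) {m : ℝ → ℝ → ℝ}
    {Q : ℂ → ℝ → ℝ → ℂ} {τ : ℝ} (hO : HOK D m Q τ) {K η : ℝ} (hη : 0 < η) :
    ∃ C : ℝ, ∀ h : ℂ, η ≤ h.im → ‖h‖ ≤ K → ∀ z : (ℝ × ℝ) × (ℝ × ℝ),
      z.1.1 ∈ Icc (-D.R) D.R → z.1.2 ∈ Icc (-D.R) D.R → z.2.1 ∈ Icc (-D.R) D.R →
      z.2.2 ∈ Icc (-D.R) D.R → ‖D.HI m Q τ h z‖ ≤ C := by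
  obtain ⟨CQ, hCQ⟩ := hO.q.bdd1 K η hη
  obtain ⟨-, -, -, C, hC0, hC⟩ := hK
  have hR : 0 ≤ D.R := by
    have := D.r0
    have := D.rR
    linarith
  have hB0 : 0 ≤ D.B := (abs_nonneg _).trans (D.φb 0 0)
  have hτ : ‖(τ : ℂ)‖ = 1 := by
    rcases hO.t with h | h <;> simp [h]
  refine ⟨D.B * (√η)⁻¹ * (√η)⁻¹ * 1 * CQ * (C * (√(4 * D.R * (√η)⁻¹) +
    (4 * D.R * (√η)⁻¹) ^ 2)), ?_⟩
  intro h hh hhK z h1 h2 h3 h4
  have him : 0 < h.im := lt_of_lt_of_le hη hh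
  have hs : (√h.im)⁻¹ ≤ (√η)⁻¹ := by
    apply inv_anti₀ (Real.sqrt_pos.2 hη)
    exact Real.sqrt_le_sqrt hh
  have e1 : ‖(D.φ z.1.2 z.2.2 : ℂ)‖ ≤ D.B := by
    rw [Complex.norm_real]
    exact D.φb _ _
  have e2 : ‖(D.px h z.1.2)⁻¹‖ ≤ (√η)⁻¹ := (hB1.pxi_im h _ him).trans hs
  have e3 : ‖(D.py h z.2.2)⁻¹‖ ≤ (√η)⁻¹ := (hB1.pyi_im h _ him).trans hs
  have e4 : ‖(m z.1.1 z.1.2 : ℂ)‖ ≤ 1 := by
    rw [Complex.norm_real]
    exact hO.mb _ _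
  have e5 : ‖Q h z.1.1 z.2.1‖ ≤ CQ := hCQ h _ _ hh hhK
  have habs : ∀ u v : ℝ, u ∈ Icc (-D.R) D.R → v ∈ Icc (-D.R) D.R → |u - v| ≤ 2 * D.R := by
    intro u v hu hv
    rw [abs_le]
    constructor <;> linarith [hu.1, hu.2, hv.1, hv.2]
  have hsp : 0 ≤ (√h.im)⁻¹ := by positivity
  have e6 : ‖D.ga h z.1.1 z.1.2 + τ * D.be h z.2.1 z.2.2‖ ≤ 4 * D.R * (√η)⁻¹ := by
    have a1 : ‖D.ga h z.1.1 z.1.2‖ ≤ 2 * D.R * (√η)⁻¹ :=
      (hB3.ga_im_le h _ _ him).trans (mul_le_mul (habs _ _ h1 h2) hs hsp (by linarith))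
    have a2 : ‖(τ : ℂ) * D.be h z.2.1 z.2.2‖ ≤ 2 * D.R * (√η)⁻¹ := by
      rw [norm_mul, hτ, one_mul]
      exact (hB3.be_im_le h _ _ him).trans (mul_le_mul (habs _ _ h3 h4) hs hsp (by linarith))
    calc _ ≤ ‖D.ga h z.1.1 z.1.2‖ + ‖(τ : ℂ) * D.be h z.2.1 z.2.2‖ := norm_add_le _ _
      _ ≤ 2 * D.R * (√η)⁻¹ + 2 * D.R * (√η)⁻¹ := add_le_add a1 a2
      _ = 4 * D.R * (√η)⁻¹ := by ring
  have e7 : ‖KK (D.ga h z.1.1 z.1.2 + τ * D.be h z.2.1 z.2.2)‖ ≤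
      C * (√(4 * D.R * (√η)⁻¹) + (4 * D.R * (√η)⁻¹) ^ 2) := by
    refine (hC _).trans ?_
    refine mul_le_mul_of_nonneg_left ?_ hC0.le
    exact add_le_add (Real.sqrt_le_sqrt e6) (pow_le_pow_left₀ (norm_nonneg _) e6 2)
  have hCQ0 : 0 ≤ CQ := (norm_nonneg _).trans e5
  have hs0 : 0 ≤ (√η)⁻¹ := by positivity
  unfold LD.HI
  rw [norm_mul, norm_mul, norm_mul, norm_mul, norm_mul]
  have f1 := mul_le_mul e1 e2 (norm_nonneg _) hB0
  have f2 := mul_le_mul f1 e3 (norm_nonneg _) (by positivity)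
  have f3 := mul_le_mul f2 e4 (norm_nonneg _) (by positivity)
  have f4 := mul_le_mul f3 e5 (norm_nonneg _) (by positivity)
  exact mul_le_mul f4 e7 (norm_nonneg _) (by positivity)

/-- the integrand is holomorphic off the diagonal -/
lemma diff (hB1 : Bas1 D) (hB2 : Bas2 D) (hB3 : Bas3 D) (hK : Stmt_KER) {m : ℝ → ℝ → ℝ}
    {Q : ℂ → ℝ → ℝ → ℂ} {τ : ℝ} (hO : HOK D m Q τ) {z : (ℝ × ℝ) × (ℝ × ℝ)} (hz : z.1.1 ≠ z.1.2)
    {h : ℂ} (hh : 0 < h.im) : DifferentiableAt ℂ (fun h' => D.HI m Q τ h' z) h := by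
  have hne : h.im ≠ 0 := hh.ne'
  have p0 : D.px h z.1.2 ≠ 0 := by
    intro h0
    have := (hB1.px_up h z.1.2 hh).1
    rw [h0] at this
    simp at this
  have q0 : D.py h z.2.2 ≠ 0 := by
    intro h0
    have := (hB1.py_up h z.2.2 hh).1
    rw [h0] at this
    simp at this
  have d1 := (hB1.px_diff h z.1.2 (Or.inl hne)).inv p0
  have d2 := (hB1.py_diff h z.2.2 (Or.inl hne)).inv q0
  have d3 := hO.q.diff h z.1.1 z.2.1 hh
  have d4 := hB3.ga_diff h z.1.1 z.1.2 (Or.inl hne)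
  have d5 := hB3.be_diff h z.2.1 z.2.2 (Or.inl hne)
  have d6 := (hK.2.1 _ (hB2.mem_up h z.1.1 z.1.2 z.2.1 z.2.2 τ hh hz hO.t)).1.differentiableAt
  have d7 : DifferentiableAt ℂ (fun h' => D.ga h' z.1.1 z.1.2 + τ * D.be h' z.2.1 z.2.2) h :=
    d4.add (d5.const_mul _)
  have d8 : DifferentiableAt ℂ (fun h' => KK (D.ga h' z.1.1 z.1.2 + τ * D.be h' z.2.1 z.2.2)) h :=
    DifferentiableAt.comp (g := KK)
      (f := fun h' => D.ga h' z.1.1 z.1.2 + τ * D.be h' z.2.1 z.2.2) h d6 d7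
  unfold LD.HI
  exact (((((differentiableAt_const _).mul d1).mul d2).mul (differentiableAt_const _)).mul d3).mul d8

end HOLAux

open HOLAux in
theorem hol (hB1 : Stmt_BAS1) (hB2 : Stmt_BAS2) (hB3 : Stmt_BAS3) (hK : Stmt_KER)
    (hI : Stmt_INT) : Stmt_HOL := by
  intro D m Q τ hO h₀ hh₀
  have hh₀' : 0 < h₀.im := hh₀
  have hball : ∀ z ∈ Metric.ball h₀ (h₀.im / 2), h₀.im / 2 ≤ z.im ∧ ‖z‖ ≤ ‖h₀‖ + h₀.im / 2 := by
    intro z hz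
    rw [mem_ball_iff_norm] at hz
    have h1 : |(z - h₀).im| ≤ ‖z - h₀‖ := Complex.abs_im_le_norm _
    rw [Complex.sub_im, abs_le] at h1
    refine ⟨by linarith [h1.1], ?_⟩
    have h2 : ‖z‖ ≤ ‖z - h₀‖ + ‖h₀‖ := by
      have := norm_add_le (z - h₀) h₀
      rwa [sub_add_cancel] at this
    linarith
  obtain ⟨C, hC⟩ := bound (hB1 D) (hB3 D) hK hO (K := ‖h₀‖ + h₀.im / 2) (η := h₀.im / 2)
    (by linarith)
  have key : DifferentiableAt ℂ (fun h => ∫ z : (ℝ × ℝ) × (ℝ × ℝ), D.HI m Q τ h z ∂D.mu) h₀ := by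
    refine Pool.Agent.XRay.differentiableAt_integral (ε := h₀.im / 2) (B := fun _ => C)
      (by linarith) ?_ ?_ (integrable_const C) ?_
    · intro z hz
      have := (hball z hz).1
      exact (hI D m Q τ hO z (Or.inl (by linarith))).1.aestronglyMeasurable
    · filter_upwards [ae_off D] with y hy z hz
      have := (hball z hz).1
      exact (diff (hB1 D) (hB2 D) (hB3 D) hK hO hy (by linarith)).differentiableWithinAt
    · filter_upwards [ae_box D] with y hy w hw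
      have := hball w hw
      exact hC w this.1 this.2 y hy.1 hy.2.1 hy.2.2.1 hy.2.2.2
  exact key.differentiableWithinAt

end Pool.Agent.LIO
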