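import Pool.Agent.LIO.Geo

/-!
# Null sets along the lines
-/

set_option autoImplicit false

namespace Pool.Agent.LIO

open MeasureTheory Set Filter Topology

namespace NULAux

/-- a primitive of the inverse square root is differentiable -/
theorem diff_prim (g : ℝ → ℝ) (hg : Continuous g) (hpos : ∀ s, 0 < g s) (x₀ : ℝ) :
    Differentiable ℝ (fun x : ℝ => ∫ s in x₀..x, (√(g s))⁻¹) := by
  have hc : Continuous (fun s => (√(g s))⁻¹) :=
    (Real.continuous_sqrt.comp hg).inv₀ (fun s => (Real.sqrt_pos.2 (hpos s)).ne')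
  intro x
  exact (hc.integral_hasStrictDerivAt x₀ x).hasDerivAt.differentiableAt

end NULAux

theorem nul : Stmt_NUL := by
  intro D h X Y hh hF σ hσ N _ hN0
  have hh' := abs_lt.1 hh
  have hσ2 : σ * σ = 1 := by rcases hσ with rfl | rfl <;> norm_num
  set A : ℝ → ℝ := fun x => ∫ s in (-D.R)..x, (√(D.U s - h))⁻¹ with hA
  set B : ℝ → ℝ := fun y => ∫ s in (-D.R)..y, (√(D.V s + h))⁻¹ with hB
  have dA : Differentiable ℝ A := NULAux.diff_prim (fun s => D.U s - h)
    (D.Us.continuous.sub continuous_const) (fun s => by have := D.Ua s; show 0 < D.U s - h; linarith [hh'.2])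
    (-D.R)
  have dB : Differentiable ℝ B := NULAux.diff_prim (fun s => D.V s + h)
    (D.Vs.continuous.add continuous_const) (fun s => by have := D.Va s; show 0 < D.V s + h; linarith [hh'.1])
    (-D.R)
  let Ψ : ℝ × ℝ → ℝ × ℝ := fun z => (B z.2 - σ * A z.1, B z.2)
  have dΨ : Differentiable ℝ Ψ := by
    have h1 : Differentiable ℝ (fun z : ℝ × ℝ => A z.1) := dA.comp differentiable_fst
    have h2 : Differentiable ℝ (fun z : ℝ × ℝ => B z.2) := dB.comp differentiable_snd
    exact (h2.sub (h1.const_mul σ)).prodMk h2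
  have hnull : (volume : Measure (ℝ × ℝ)) (Ψ '' N) = 0 :=
    addHaar_image_eq_zero_of_differentiableOn_of_addHaar_eq_zero volume dΨ.differentiableOn hN0
  have hsub : {z : ℝ × ℝ | (X (σ * (z.2 - z.1)), Y z.2) ∈ N} ⊆ Ψ '' N := by
    intro z hz
    refine ⟨_, hz, ?_⟩
    have e1 : A (X (σ * (z.2 - z.1))) = σ * (z.2 - z.1) := hF.inv_X _
    have e2 : B (Y z.2) = z.2 := hF.inv_Y _
    show (B (Y z.2) - σ * A (X (σ * (z.2 - z.1))), B (Y z.2)) = z
    rw [e1, e2, ← mul_assoc, hσ2]
    ext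
    · simp
    · rfl
  have hz : ∀ᵐ z : ℝ × ℝ, (X (σ * (z.2 - z.1)), Y z.2) ∉ N := by
    rw [ae_iff]
    refine measure_mono_null ?_ hnull
    intro z hz
    exact hsub (by simpa using hz)
  rw [Measure.volume_eq_prod] at hz
  exact Measure.ae_ae_of_ae_prod hz

end Pool.Agent.LIO
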