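import Pool.Agent.LIO.Geo
import Pool.Agent.Lib_helper92.XRay.Dom

/-!
# Injectivity of the geodesic X-ray transform for Liouville metrics

Let `N = n + 2 ≥ 2` and let `G` be a Riemannian metric on `ℝ^N` such that on the planes
`z_2 = const, ..., z_{N-1} = const` it is the Liouville metric `(U(z_0) + V(z_1))(dz_0² + dz_1²)`, and
these planes are orthogonal to the last `n` directions; otherwise `G` is arbitrary. (For `n = 0`: `G` is
an arbitrary Liouville metric on the plane.) Let `M` be a compact set with Lebesgue null frontier and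
`f` a continuous function on `M`. If the integral of `f` vanishes along the maximal segments in `M`
of all unit speed geodesics contained in one of these planes, then `f = 0` on the closure of the
interior of `M`; in particular `f = 0` on `M` if `M = {ρ ≥ 0}` is a regular domain of class `C¹`. It is
enough to know this for the geodesics along which the Liouville integral is close to a suitable
constant `h₀`.

There is no hypothesis on conjugate points or on the convexity of the boundary, and no foliation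
condition.
-/

set_option autoImplicit false

open MeasureTheory Set Pool.Agent.XRay

namespace Pool.Agent.LIO

/-- the classical first integral of the Liouville metric at the tangent vector `v` at `z` -/
noncomputable def lio {n : ℕ} (U V : ℝ → ℝ) (z v : EuclideanSpace ℝ (Fin (n + 2))) : ℝ :=
  (U (z 0) + V (z 1)) * (U (z 0) * v 1 ^ 2 - V (z 1) * v 0 ^ 2)

/-- The integrals of `f` vanish along the maximal segments in `M` of the unit speed geodesics
contained in a plane `z_2 = const, ..., z_{n+1} = const` and satisfying the condition `P`. -/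
def PlaneZero {n : ℕ} (G : EuclideanSpace ℝ (Fin (n + 2)) →
    EuclideanSpace ℝ (Fin (n + 2)) →L[ℝ] EuclideanSpace ℝ (Fin (n + 2)) →L[ℝ] ℝ)
    (M : Set (EuclideanSpace ℝ (Fin (n + 2)))) (f : EuclideanSpace ℝ (Fin (n + 2)) → ℝ)
    (P : EuclideanSpace ℝ (Fin (n + 2)) → EuclideanSpace ℝ (Fin (n + 2)) → Prop) : Prop :=
  ∀ (γ : ℝ → EuclideanSpace ℝ (Fin (n + 2))) (u v s t : ℝ), u < s → s < t → t < v →
    UnitGeodesicOn G γ (Ioo u v) →
    (∀ τ ∈ Ioo u v, (∀ i : Fin (n + 2), 2 ≤ (i : ℕ) → deriv γ τ i = 0) ∧ P (γ τ) (deriv γ τ)) →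
    MaximalSegment M γ s t → ∫ τ in s..t, f (γ τ) = 0

theorem preview (hFin : Stmt_FIN) (n : ℕ) (U V : ℝ → ℝ)
    (hU : ContDiff ℝ (⊤ : ℕ∞) U) (hV : ContDiff ℝ (⊤ : ℕ∞) V)
    (G : EuclideanSpace ℝ (Fin (n + 2)) →
      EuclideanSpace ℝ (Fin (n + 2)) →L[ℝ] EuclideanSpace ℝ (Fin (n + 2)) →L[ℝ] ℝ)
    (hG : IsMetric G)
    (hL : ∀ z v w : EuclideanSpace ℝ (Fin (n + 2)), (∀ i : Fin (n + 2), 2 ≤ (i : ℕ) → v i = 0) →
      G z v w = (U (z 0) + V (z 1)) * (v 0 * w 0 + v 1 * w 1)) :
    (∀ (M : Set (EuclideanSpace ℝ (Fin (n + 2)))) (f : EuclideanSpace ℝ (Fin (n + 2)) → ℝ)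
      (h₀ δ : ℝ), IsCompact M → volume (frontier M) = 0 → ContinuousOn f M → 0 < δ →
      (∀ z ∈ M, -V (z 1) < h₀ ∧ h₀ < U (z 0)) →
      PlaneZero G M f (fun z v => |lio U V z v - h₀| < δ) →
      ∀ z ∈ closure (interior M), f z = 0) ∧
    (∀ (M : Set (EuclideanSpace ℝ (Fin (n + 2)))) (f : EuclideanSpace ℝ (Fin (n + 2)) → ℝ),
      IsCompact M → volume (frontier M) = 0 → ContinuousOn f M →
      PlaneZero G M f (fun _ _ => True) → ∀ z ∈ closure (interior M), f z = 0) ∧
    (∀ ρ f : EuclideanSpace ℝ (Fin (n + 2)) → ℝ, ContDiff ℝ 1 ρ →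
      (∀ z, ρ z = 0 → fderiv ℝ ρ z ≠ 0) → IsCompact {z | 0 ≤ ρ z} →
      ContinuousOn f {z | 0 ≤ ρ z} → PlaneZero G {z | 0 ≤ ρ z} f (fun _ _ => True) →
      ∀ z, 0 ≤ ρ z → f z = 0) := by
  have p1 : ∀ (M : Set (EuclideanSpace ℝ (Fin (n + 2)))) (f : EuclideanSpace ℝ (Fin (n + 2)) → ℝ)
      (h₀ δ : ℝ), IsCompact M → volume (frontier M) = 0 → ContinuousOn f M → 0 < δ →
      (∀ z ∈ M, -V (z 1) < h₀ ∧ h₀ < U (z 0)) →
      PlaneZero G M f (fun z v => |lio U V z v - h₀| < δ) →
      ∀ z ∈ closure (interior M), f z = 0 := by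
    intro M f h₀ δ hM hfr hf hδ hb h0
    exact hFin n U V G hU hV hG hL M f h₀ δ hM hfr hf hδ hb h0
  have hpos : ∀ x y : ℝ, 0 < U x + V y := by
    intro x y
    set z : EuclideanSpace ℝ (Fin (n + 2)) :=
      x • EuclideanSpace.single 0 1 + y • EuclideanSpace.single 1 1 with hz
    have z0 : z 0 = x := by simp [hz]
    have z1 : z 1 = y := by simp [hz]
    set v : EuclideanSpace ℝ (Fin (n + 2)) := EuclideanSpace.single 0 1 with hv
    have v0 : v 0 = 1 := by simp [hv]
    have v1 : v 1 = 0 := by simp [hv]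
    have hv' : v ≠ 0 := by
      intro h
      rw [h] at v0
      simp at v0
    have h1 := hG.pos z v hv'
    rw [hL z v v, v0, v1, z0, z1] at h1
    · linarith
    · intro i hi
      have : i ≠ 0 := by
        rintro rfl
        simp at hi
      simp [hv, this]
  have p2 : ∀ (M : Set (EuclideanSpace ℝ (Fin (n + 2))))
      (f : EuclideanSpace ℝ (Fin (n + 2)) → ℝ),
      IsCompact M → volume (frontier M) = 0 → ContinuousOn f M →
      PlaneZero G M f (fun _ _ => True) → ∀ z ∈ closure (interior M), f z = 0 := by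
    intro M f hM hfr hf h0 z hz
    have hne : M.Nonempty := by
      by_contra hcon
      rw [Set.not_nonempty_iff_eq_empty] at hcon
      rw [hcon] at hz
      simp at hz
    have c0 : Continuous (fun z : EuclideanSpace ℝ (Fin (n + 2)) => U (z 0)) :=
      hU.continuous.comp (by fun_prop)
    have c1 : Continuous (fun z : EuclideanSpace ℝ (Fin (n + 2)) => V (z 1)) :=
      hV.continuous.comp (by fun_prop)
    obtain ⟨z₁, hz₁, m₁⟩ := hM.exists_isMinOn hne c0.continuousOn
    obtain ⟨z₂, hz₂, m₂⟩ := hM.exists_isMinOn hne c1.continuousOn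
    have h3 := hpos (z₁ 0) (z₂ 1)
    apply p1 M f ((U (z₁ 0) - V (z₂ 1)) / 2) 1 hM hfr hf one_pos _ _ z hz
    · intro w hw
      have h4 : U (z₁ 0) ≤ U (w 0) := m₁ hw
      have h5 : V (z₂ 1) ≤ V (w 1) := m₂ hw
      constructor <;> linarith
    · intro γ u v s t hus hst htv hγ hP hseg
      exact h0 γ u v s t hus hst htv hγ (fun τ hτ => ⟨(hP τ hτ).1, trivial⟩) hseg
  refine ⟨p1, p2, ?_⟩
  intro ρ f hρ hd hM hf h0 z hz
  exact p2 _ f hM (regular_null hρ hd volume) hf h0 z (regular_closure hρ hd hz)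

end Pool.Agent.LIO
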