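import Pool.Agent.LIO.Stmts

/-!
# REAL: the functionals are real at the good real levels
-/

set_option autoImplicit false

namespace Pool.Agent.LIO

open Complex MeasureTheory Set Filter Topology

namespace REALAux

variable {D : LD}

/-- an interval integral of a function with symmetric real part is real -/
theorem conj_interval {a b : ℝ} (hab : a ≤ b) (f : ℝ → ℂ) :
    (starRingEnd ℂ) (∫ x in a..b, f x) = ∫ x in a..b, (starRingEnd ℂ) (f x) := by
  rw [intervalIntegral.integral_of_le hab, intervalIntegral.integral_of_le hab, integral_conj]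

theorem rr (D : LD) : -D.R ≤ D.R := by
  have := D.r0
  have := D.rR
  linarith

theorem conj_py (hB1 : Stmt_BAS1) {k : ℝ} (hk : -D.a < k) (y : ℝ) :
    (starRingEnd ℂ) (D.py k y) = D.py k y := by
  rw [(hB1 D).py_real k y hk.le, conj_ofReal]

theorem BB_real (hB1 : Stmt_BAS1) {k : ℝ} (hk : -D.a < k) (y : ℝ) :
    (starRingEnd ℂ) (D.BB k y) = D.BB k y := by
  have h : D.BB k y = ((∫ s in (-D.R)..y, (√(D.V s + k))⁻¹ : ℝ) : ℂ) := by
    unfold LD.BB
    rw [← intervalIntegral.integral_ofReal]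
    refine intervalIntegral.integral_congr fun s _ => ?_
    simp only [(hB1 D).py_real k s hk.le, ofReal_inv]
  rw [h, conj_ofReal]

theorem conj_exp (hB1 : Stmt_BAS1) {k : ℝ} (hk : -D.a < k) (ω y : ℝ) :
    (starRingEnd ℂ) (cexp (I * ω * D.BB k y)) = cexp (I * ((-ω : ℝ) : ℂ) * D.BB k y) := by
  rw [← exp_conj, map_mul, map_mul, conj_I, conj_ofReal, BB_real hB1 hk]
  congr 1
  push_cast
  ring

theorem conj_cS (hB1 : Stmt_BAS1) (ψ : ℝ → ℝ → ℝ) {k : ℝ} (hk : -D.a < k) (ω x : ℝ) :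
    (starRingEnd ℂ) (D.cS ψ k ω x) = D.cS ψ k ((-ω : ℝ) : ℂ) x := by
  unfold LD.cS
  rw [conj_interval (rr D)]
  refine intervalIntegral.integral_congr fun y _ => ?_
  simp only [map_mul, conj_ofReal, conj_py hB1 hk]
  rw [conj_exp hB1 hk]

theorem conj_c0 (hB1 : Stmt_BAS1) (ψ : ℝ → ℝ → ℝ) {k : ℝ} (hk : -D.a < k) (ω x : ℝ) :
    (starRingEnd ℂ) (D.c0 ψ k ω x) = D.c0 ψ k ((-ω : ℝ) : ℂ) x := by
  unfold LD.c0
  rw [conj_interval (rr D)]
  refine intervalIntegral.integral_congr fun y _ => ?_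
  simp only [map_mul, conj_ofReal]
  rw [conj_exp hB1 hk]

/-- an integral over the line of a function with `conj (g ω) = g (-ω)` is real -/
theorem conj_line (g : ℝ → ℂ) (hg : ∀ ω : ℝ, (starRingEnd ℂ) (g ω) = g (-ω)) :
    (starRingEnd ℂ) (∫ ω : ℝ, g ω) = ∫ ω : ℝ, g ω := by
  rw [← integral_conj]
  calc ∫ ω : ℝ, (starRingEnd ℂ) (g ω) = ∫ ω : ℝ, g (-ω) := by simp only [hg]
    _ = ∫ ω : ℝ, g ω := integral_neg_eq_self g volume

/-- the conclusion for both functionals -/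
theorem im_zero (F : ℝ → ℝ → ℂ)
    (hF : ∀ᵐ x ∂(volume.restrict (Icc (-D.R) D.R)), ∀ ω : ℝ,
      (starRingEnd ℂ) (F x ω) = F x (-ω)) :
    ((2 * Real.pi : ℂ)⁻¹ * ∫ x in (-D.R)..D.R, ∫ ω : ℝ, F x ω).im = 0 := by
  rw [← conj_eq_iff_im, map_mul, map_inv₀, map_mul, conj_ofReal, conj_interval (rr D)]
  congr 1
  · rw [map_ofNat]
  · rw [intervalIntegral.integral_of_le (rr D), intervalIntegral.integral_of_le (rr D)]
    refine integral_congr_ae ?_
    have h1 : ∀ᵐ x ∂(volume.restrict (Ioc (-D.R) D.R)), ∀ ω : ℝ,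
        (starRingEnd ℂ) (F x ω) = F x (-ω) :=
      ae_mono (Measure.restrict_mono Ioc_subset_Icc_self le_rfl) hF
    filter_upwards [h1] with x hx
    exact conj_line _ hx

end REALAux

open REALAux in
theorem real_ (hB1 : Stmt_BAS1) (_hB2 : Stmt_BAS2) (hSt : Stmt_STAR) (hGl : Stmt_GLV) :
    Stmt_REAL := by
  intro D ψ hψ k hk
  have hlow := hk.low
  obtain ⟨h1, h2⟩ := hSt D ψ hψ k hk
  have hG := hGl D k hk
  refine ⟨?_, ?_⟩
  · rw [h1]
    refine im_zero (fun x ω => D.cS ψ k ω x * D.SS k ω x) ?_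
    filter_upwards [hG] with x hx
    intro ω
    rw [map_mul, conj_cS hB1 ψ hlow, (hx ω).1]
    push_cast
    rfl
  · rw [h2]
    refine im_zero (fun x ω => D.px k x * D.c0 ψ k ω x * D.PP k ω x) ?_
    filter_upwards [hG] with x hx
    intro ω
    have e : D.px k x * D.c0 ψ k ω x * D.PP k ω x =
        D.c0 ψ k ω x * (D.px k x * D.PP k ω x) := by ring
    rw [e, map_mul, conj_c0 hB1 ψ hlow, (hx ω).2]
    push_cast
    ring

end Pool.Agent.LIO
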