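import Pool.Agent.LIO.Defs

/-!
# Liouville metrics: the statements of the modules

The paper proofs are in `Pool/Agent/LIO/PAPER.md`, one section per module.
-/

set_option autoImplicit false

namespace Pool.Agent.LIO

open Complex MeasureTheory Set Filter Topology

/-! ### Foundations -/

/-- the elementary facts about `p_x`, `p_y` -/
structure Bas1 (D : LD) : Prop where
  px_sq : ∀ h x, D.px h x ^ 2 = (D.U x : ℂ) - h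
  py_sq : ∀ h y, D.py h y ^ 2 = (D.V y : ℂ) + h
  px_re : ∀ h x, 0 ≤ (D.px h x).re
  py_re : ∀ h y, 0 ≤ (D.py h y).re
  px_im : ∀ h x, 0 ≤ h.im → (D.px h x).im ≤ 0
  py_im : ∀ h y, 0 ≤ h.im → 0 ≤ (D.py h y).im
  px_up : ∀ h x, 0 < h.im → 0 < (D.px h x).re ∧ (D.px h x).im < 0
  py_up : ∀ h y, 0 < h.im → 0 < (D.py h y).re ∧ 0 < (D.py h y).im
  px_low : ∀ h x, h.re < D.a → 0 < (D.px h x).re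
  py_low : ∀ h y, -D.a < h.re → 0 < (D.py h y).re
  px_norm : ∀ h x, ‖D.px h x‖ = √‖(D.U x : ℂ) - h‖
  py_norm : ∀ h y, ‖D.py h y‖ = √‖(D.V y : ℂ) + h‖
  pxi_w : ∀ h x, D.U x ≠ h.re → ‖(D.px h x)⁻¹‖ ≤ D.wU h.re x
  pxi_im : ∀ h x, 0 < h.im → ‖(D.px h x)⁻¹‖ ≤ (√h.im)⁻¹
  pyi_im : ∀ h y, 0 < h.im → ‖(D.py h y)⁻¹‖ ≤ (√h.im)⁻¹
  pxi_low : ∀ h x, h.re < D.a → ‖(D.px h x)⁻¹‖ ≤ (√(D.a - h.re))⁻¹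
  pyi_low : ∀ h y, -D.a < h.re → ‖(D.py h y)⁻¹‖ ≤ (√(D.a + h.re))⁻¹
  px_real : ∀ (k x : ℝ), k ≤ D.U x → D.px k x = (√(D.U x - k) : ℝ)
  px_ev : ∀ (k x : ℝ), D.U x < k → D.px k x = -I * (√(k - D.U x) : ℝ)
  py_real : ∀ (k y : ℝ), -D.a ≤ k → D.py k y = (√(D.V y + k) : ℝ)
  px_diff : ∀ h x, (h.im ≠ 0 ∨ h.re < D.a) → DifferentiableAt ℂ (fun h' => D.px h' x) h
  py_diff : ∀ h y, (h.im ≠ 0 ∨ -D.a < h.re) → DifferentiableAt ℂ (fun h' => D.py h' y) h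
  px_lim : ∀ k x : ℝ, Tendsto (fun ε : ℝ => D.px ((k : ℂ) + ε * I) x) (𝓝[>] 0) (𝓝 (D.px k x))
  py_lim : ∀ k y : ℝ, Tendsto (fun ε : ℝ => D.py ((k : ℂ) + ε * I) y) (𝓝[>] 0) (𝓝 (D.py k y))
  px_cont : ∀ h, Continuous (fun x => D.px h x)
  py_cont : ∀ h, Continuous (fun y => D.py h y)
  px_hd : ∀ h x, (h.im ≠ 0 ∨ h.re < D.a) →
    HasDerivAt (fun t : ℝ => D.px h t) (((deriv D.U x : ℝ) : ℂ) / (2 * D.px h x)) x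
  py_hd : ∀ h y, (h.im ≠ 0 ∨ -D.a < h.re) →
    HasDerivAt (fun t : ℝ => D.py h t) (((deriv D.V y : ℝ) : ℂ) / (2 * D.py h y)) y
  px_swap : ∀ h y, D.swap.px (-(starRingEnd ℂ) h) y = (starRingEnd ℂ) (D.py h y)
  py_swap : ∀ h x, D.swap.py (-(starRingEnd ℂ) h) x = (starRingEnd ℂ) (D.px h x)

def Stmt_BAS1 : Prop := ∀ D : LD, Bas1 D

/-- the elementary facts about the phases -/
structure Bas2 (D : LD) : Prop where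
  intx : ∀ h, D.Ad h → IntervalIntegrable (fun s => (D.px h s)⁻¹) volume (-D.R) D.R
  conty : ∀ h, (h.im ≠ 0 ∨ -D.a < h.re) → Continuous (fun s => (D.py h s)⁻¹)
  ga_eq : ∀ h x x', D.Ad h → x ∈ Icc (-D.R) D.R → x' ∈ Icc (-D.R) D.R → x ≤ x' →
    D.ga h x x' = D.AA h x' - D.AA h x ∧ D.ga h x' x = D.AA h x' - D.AA h x
  be_eq : ∀ h y y', (h.im ≠ 0 ∨ -D.a < h.re) → D.be h y y' = D.BB h y - D.BB h y'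
  ga_quad : ∀ h x x', D.Ad h → x ∈ Icc (-D.R) D.R → x' ∈ Icc (-D.R) D.R →
    0 ≤ (D.ga h x x').re ∧ 0 ≤ (D.ga h x x').im
  ga_up : ∀ h x x', 0 < h.im → x ≠ x' → 0 < (D.ga h x x').re ∧ 0 < (D.ga h x x').im
  be_pos : ∀ h y y', D.Ad h → y' ≤ y → 0 ≤ (D.be h y y').re ∧ (D.be h y y').im ≤ 0
  be_neg : ∀ h y y', D.Ad h → y ≤ y' → (D.be h y y').re ≤ 0 ∧ 0 ≤ (D.be h y y').im
  be_strict : ∀ h y y', D.Ad h → y' < y → 0 < (D.be h y y').re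
  mem_DD : ∀ h x x' y y' (τ : ℝ), D.Ad h → x ∈ Icc (-D.R) D.R → x' ∈ Icc (-D.R) D.R →
    (τ = 1 ∨ τ = -1) → D.ga h x x' + τ * D.be h y y' ∈ DD
  mem_up : ∀ h x x' y y' (τ : ℝ), 0 < h.im → x ≠ x' → (τ = 1 ∨ τ = -1) →
    ((D.ga h x x' + τ * D.be h y y').re ≠ 0 ∨ 0 < (D.ga h x x' + τ * D.be h y y').im)
  lower : ∀ h, 0 < h.im → ∃ c > 0, ∀ x x' y y' (τ : ℝ), x ∈ Icc (-D.R) D.R →
    x' ∈ Icc (-D.R) D.R → y ∈ Icc (-D.R) D.R → y' ∈ Icc (-D.R) D.R → (τ = 1 ∨ τ = -1) →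
    c * (|x - x'| + |y - y'|) ≤ ‖D.ga h x x' + τ * D.be h y y'‖
  ga_swap : ∀ h y y', 0 < h.im →
    D.swap.ga (-(starRingEnd ℂ) h) y y' = (starRingEnd ℂ) (if y' ≤ y then D.be h y y' else
      -D.be h y y')
  be_swap : ∀ h x x', 0 < h.im →
    D.swap.be (-(starRingEnd ℂ) h) x x' = (starRingEnd ℂ) (if x ≤ x' then -D.ga h x x' else
      D.ga h x x')

def Stmt_BAS2 : Prop := ∀ D : LD, Bas2 D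

/-- limits and holomorphy of the phases -/
structure Bas3 (D : LD) : Prop where
  ga_diff : ∀ h x x', (h.im ≠ 0 ∨ h.re < D.a) → DifferentiableAt ℂ (fun h' => D.ga h' x x') h
  be_diff : ∀ h y y', (h.im ≠ 0 ∨ -D.a < h.re) → DifferentiableAt ℂ (fun h' => D.be h' y y') h
  ga_lim : ∀ k x x' : ℝ, D.Gd k → x ∈ Icc (-D.R) D.R → x' ∈ Icc (-D.R) D.R →
    Tendsto (fun ε : ℝ => D.ga ((k : ℂ) + ε * I) x x') (𝓝[>] 0) (𝓝 (D.ga k x x'))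
  be_lim : ∀ k y y' : ℝ, -D.a < k →
    Tendsto (fun ε : ℝ => D.be ((k : ℂ) + ε * I) y y') (𝓝[>] 0) (𝓝 (D.be k y y'))
  ga_im_le : ∀ h x x', 0 < h.im → ‖D.ga h x x'‖ ≤ |x - x'| * (√h.im)⁻¹
  be_im_le : ∀ h y y', 0 < h.im → ‖D.be h y y'‖ ≤ |y - y'| * (√h.im)⁻¹
  be_low_le : ∀ h y y', -D.a < h.re → ‖D.be h y y'‖ ≤ |y - y'| * (√(D.a + h.re))⁻¹
  ga_w_le : ∀ (k ε x x' : ℝ), D.Gd k → 0 ≤ ε → x ∈ Icc (-D.R) D.R → x' ∈ Icc (-D.R) D.R →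
    ‖D.ga ((k : ℂ) + ε * I) x x'‖ ≤ ∫ s in (-D.R)..D.R, D.wU k s
  ga_meas : ∀ h, D.Ad h → AEStronglyMeasurable (fun z : ℝ × ℝ => D.ga h z.1 z.2) (D.nu.prod D.nu)
  be_meas : ∀ h, D.Ad h → Measurable (fun z : ℝ × ℝ => D.be h z.1 z.2)

def Stmt_BAS3 : Prop := ∀ D : LD, Bas3 D

/-- the levels of `U` -/
def Stmt_LEV : Prop := ∀ D : LD, (∀ᵐ k : ℝ, D.Gd k) ∧ (∀ k, k < D.a → D.Gd k) ∧
  ∀ K : ℝ, IntegrableOn (fun k => ∫ x in (-D.R)..D.R, D.wU k x) (Icc (-K) K)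

/-- the kernel -/
def Stmt_KER : Prop := Measurable KK ∧
  (∀ ζ : ℂ, (ζ.re ≠ 0 ∨ 0 < ζ.im) → HasDerivAt KK (Complex.log (-(I * ζ)) + 1) ζ ∧
    HasDerivAt (fun w => Complex.log (-(I * w)) + 1) ζ⁻¹ ζ) ∧
  (∀ ζ ∈ DD, ContinuousAt KK ζ) ∧
  ∃ C : ℝ, 0 < C ∧ ∀ ζ, ‖KK ζ‖ ≤ C * (√‖ζ‖ + ‖ζ‖ ^ 2)

/-- the bound which is uniform in `d` -/
def Stmt_SUP : Prop := ∀ S : ℝ, ∃ C : ℝ, 0 ≤ C ∧ ∀ (c e : ℝ) (q β : ℝ → ℂ) (d : ℂ) (M : ℝ),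
  c ≤ e → ContinuousOn q (Icc c e) → ContinuousOn β (Icc c e) → (∀ y ∈ Icc c e, ‖β y‖ ≤ S) →
  (∀ y ∈ Icc c e, ‖q y‖ ≤ M) → 0 ≤ d.re → 0 ≤ d.im → ∫ y in c..e, q y = 0 →
  ∫ y in c..e, q y * β y = 0 → ‖∫ y in c..e, q y * KK (d + β y)‖ ≤ C * M * (e - c)

/-- the kernel in the Fourier variable -/
def Stmt_KF : Prop := ∀ (c e : ℝ) (q : ℝ → ℂ) (b : ℝ → ℝ) (ζ : ℂ), c ≤ e →
  ContinuousOn q (Icc c e) → ContinuousOn b (Icc c e) → 0 ≤ ζ.im → ∫ y in c..e, q y = 0 →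
  ∫ y in c..e, q y * b y = 0 →
  IntegrableOn (fun ω : ℝ => ((ω ^ 2 : ℝ) : ℂ)⁻¹ * (∫ y in c..e, q y * cexp (I * ω * b y)) *
    cexp (I * ω * ζ)) (Ioi 0) ∧
  ∫ y in c..e, q y * KK (b y + ζ) = I * ∫ ω in Ioi (0 : ℝ),
    ((ω ^ 2 : ℝ) : ℂ)⁻¹ * (∫ y in c..e, q y * cexp (I * ω * b y)) * cexp (I * ω * ζ)

/-- **Gluing.** A holomorphic function on the upper half plane with real boundary values almost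
everywhere, locally dominated by integrable functions and of sublinear growth, is constant. -/
def Stmt_GLC : Prop := ∀ F : ℂ → ℂ, DifferentiableOn ℂ F {h : ℂ | 0 < h.im} →
  (∀ K : ℝ, ∃ g : ℝ → ℝ, IntegrableOn g (Icc (-K) K) ∧ ∀ᵐ k : ℝ, k ∈ Icc (-K) K →
    ∀ ε : ℝ, 0 < ε → ε ≤ 1 → ‖F ((k : ℂ) + ε * I)‖ ≤ g k) →
  (∀ᵐ k : ℝ, ∃ l : ℝ, Tendsto (fun ε : ℝ => F ((k : ℂ) + ε * I)) (𝓝[>] 0) (𝓝 (l : ℂ))) →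
  (∃ C s : ℝ, 0 ≤ s ∧ s < 1 ∧ ∀ h : ℂ, 0 < h.im → C ≤ ‖h‖ → ‖F h‖ ≤ C * ‖h‖ ^ s) →
  ∃ c : ℝ, ∀ h : ℂ, 0 < h.im → F h = c

/-! ### The functionals -/

def Stmt_QOK : Prop := ∀ (D : LD) (ψ : ℝ → ℝ → ℝ), TF D.R ψ → D.QOK (D.QS ψ) ∧ D.QOK (D.QP ψ)

/-- two integrations by parts, real level -/
def Stmt_QF : Prop := ∀ (D : LD) (ψ : ℝ → ℝ → ℝ), TF D.R ψ → ∀ k ω x : ℝ, -D.a < k →
  ∫ y in (-D.R)..D.R, D.QS ψ k x y * cexp (I * ω * D.BB k y) = -(ω : ℂ) ^ 2 * D.cS ψ k ω x ∧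
  ∫ y in (-D.R)..D.R, D.QP ψ k x y * cexp (I * ω * D.BB k y) =
    -(ω : ℂ) ^ 2 * (D.px k x * D.c0 ψ k ω x)

/-- two integrations by parts, complex level -/
def Stmt_QI : Prop := ∀ (D : LD) (ψ : ℝ → ℝ → ℝ), TF D.R ψ → ∀ (h : ℂ) (x x' y' τ : ℝ),
  0 < h.im → x ≠ x' → (τ = 1 ∨ τ = -1) →
  ∫ y in (-D.R)..D.R, D.QS ψ h x y * KK (D.ga h x x' + τ * D.be h y y') =
    ∫ y in (-D.R)..D.R, (ψ x y : ℂ) * D.py h y * (D.ga h x x' + τ * D.be h y y')⁻¹ ∧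
  ∫ y in (-D.R)..D.R, D.QP ψ h x y * KK (D.ga h x x' + τ * D.be h y y') =
    ∫ y in (-D.R)..D.R, (ψ x y : ℂ) * D.px h x * (D.ga h x x' + τ * D.be h y y')⁻¹

/-- the hypotheses on the multiplier, the amplitude and the sign in the functional `HH` -/
structure HOK (D : LD) (m : ℝ → ℝ → ℝ) (Q : ℂ → ℝ → ℝ → ℂ) (τ : ℝ) : Prop where
  mm : Measurable (fun z : ℝ × ℝ => m z.1 z.2)
  mb : ∀ x x', |m x x'| ≤ 1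
  q : D.QOK Q
  t : τ = 1 ∨ τ = -1

/-- integrability; the iterated integrals in the order `x, x', y'`, and then `y` -/
def Stmt_INT : Prop := ∀ (D : LD) (m : ℝ → ℝ → ℝ) (Q : ℂ → ℝ → ℝ → ℂ) (τ : ℝ), HOK D m Q τ →
  ∀ h : ℂ, D.Ad h → Integrable (D.HI m Q τ h) D.mu ∧
    D.HH m Q τ h = ∫ x in (-D.R)..D.R, ∫ x' in (-D.R)..D.R, ∫ y' in (-D.R)..D.R,
      (D.φ x' y' : ℂ) * (D.px h x')⁻¹ * (D.py h y')⁻¹ * (m x x' : ℂ) *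
        ∫ y in (-D.R)..D.R, Q h x y * KK (D.ga h x x' + τ * D.be h y y')

def Stmt_HOL : Prop := ∀ (D : LD) (m : ℝ → ℝ → ℝ) (Q : ℂ → ℝ → ℝ → ℂ) (τ : ℝ), HOK D m Q τ →
  DifferentiableOn ℂ (D.HH m Q τ) {h : ℂ | 0 < h.im}

def Stmt_GRO : Prop := ∀ (D : LD) (m : ℝ → ℝ → ℝ) (Q : ℂ → ℝ → ℝ → ℂ) (τ : ℝ), HOK D m Q τ →
  ∃ C : ℝ, ∀ h : ℂ, 0 < h.im → 2 * D.B ≤ ‖h‖ → 1 ≤ ‖h‖ →
    ‖D.HH m Q τ h‖ ≤ C * ‖h‖ ^ (1 / 4 : ℝ)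

def Stmt_DOM : Prop := ∀ (D : LD) (m : ℝ → ℝ → ℝ) (Q : ℂ → ℝ → ℝ → ℂ) (τ : ℝ), HOK D m Q τ →
  ∀ K : ℝ, ∃ C : ℝ, ∀ k ε : ℝ, D.Gd k → -D.a / 2 ≤ k → k ≤ K → 0 < ε → ε ≤ 1 →
    ‖D.HH m Q τ ((k : ℂ) + ε * I)‖ ≤ C * ∫ x in (-D.R)..D.R, D.wU k x

def Stmt_LIM : Prop := ∀ (D : LD) (m : ℝ → ℝ → ℝ) (Q : ℂ → ℝ → ℝ → ℂ) (τ : ℝ), HOK D m Q τ →
  ∀ k : ℝ, D.Gd k → -D.a < k →
    Tendsto (fun ε : ℝ => D.HH m Q τ ((k : ℂ) + ε * I)) (𝓝[>] 0) (𝓝 (D.HH m Q τ k))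

/-- the properties of the functionals `FS`, `FP` -/
structure FOK (D : LD) (F : ℂ → ℂ) : Prop where
  hol : DifferentiableOn ℂ F {h : ℂ | 0 < h.im}
  gro : ∃ C : ℝ, ∀ h : ℂ, 0 < h.im → 2 * D.B ≤ ‖h‖ → 1 ≤ ‖h‖ → ‖F h‖ ≤ C * ‖h‖ ^ (1 / 4 : ℝ)
  dom : ∀ K : ℝ, ∃ C : ℝ, ∀ k ε : ℝ, D.Gd k → -D.a / 2 ≤ k → k ≤ K → 0 < ε → ε ≤ 1 →
    ‖F ((k : ℂ) + ε * I)‖ ≤ C * ∫ x in (-D.R)..D.R, D.wU k x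
  lim : ∀ k : ℝ, D.Gd k → -D.a < k →
    Tendsto (fun ε : ℝ => F ((k : ℂ) + ε * I)) (𝓝[>] 0) (𝓝 (F k))

def Stmt_FOK : Prop := ∀ (D : LD) (ψ : ℝ → ℝ → ℝ), TF D.R ψ → FOK D (D.FS ψ) ∧ FOK D (D.FP ψ)

/-- exchange of the variables -/
def Stmt_SWAP : Prop := ∀ (D : LD) (ψ : ℝ → ℝ → ℝ), TF D.R ψ → ∀ h : ℂ, 0 < h.im →
  D.FS ψ h = (starRingEnd ℂ) (D.swap.FP (sw ψ) (-(starRingEnd ℂ) h)) ∧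
  D.FP ψ h = (starRingEnd ℂ) (D.swap.FS (sw ψ) (-(starRingEnd ℂ) h))

/-- linearity -/
def Stmt_LIN : Prop := ∀ (D : LD) (ψ₁ ψ₂ : ℝ → ℝ → ℝ), TF D.R ψ₁ → TF D.R ψ₂ →
  ∀ (s t : ℝ) (h : ℂ), 0 < h.im →
  D.FS (fun x y => s * ψ₁ x y + t * ψ₂ x y) h = s * D.FS ψ₁ h + t * D.FS ψ₂ h ∧
  D.FP (fun x y => s * ψ₁ x y + t * ψ₂ x y) h = s * D.FP ψ₁ h + t * D.FP ψ₂ h

/-! ### The data -/

def Stmt_EZ : Prop := ∀ (D : LD) (δ : ℝ), 0 < δ → D.DataZero δ →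
  ∀ k : ℝ, D.Gd k → -D.a < k → D.Lv k

def Stmt_DSW : Prop := ∀ (D : LD) (δ : ℝ), 0 < δ → δ ≤ D.a → D.DataZero δ → D.swap.DataZero δ

/-- the transport solutions are bounded -/
def Stmt_VB : Prop := ∀ (D : LD) (k : ℝ), D.Lv k → ∃ C : ℝ, ∀ (σ : ℝ), (σ = 1 ∨ σ = -1) →
  ∀ ω : ℝ, ∀ x ∈ Icc (-D.R) D.R, ‖D.vv σ k ω x‖ ≤ C

/-- **the cancellation at a real level** -/
def Stmt_GLV : Prop := ∀ (D : LD) (k : ℝ), D.Lv k →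
  ∀ᵐ x ∂(volume.restrict (Icc (-D.R) D.R)), ∀ ω : ℝ,
    (starRingEnd ℂ) (D.SS k ω x) = D.SS k (-ω) x ∧
    (starRingEnd ℂ) (D.px k x * D.PP k ω x) = D.px k x * D.PP k (-ω) x

/-- decay of the transforms of the test functions -/
def Stmt_DEC : Prop := ∀ (D : LD) (ψ : ℝ → ℝ → ℝ), TF D.R ψ → ∀ k : ℝ, -D.a < k → ∀ N : ℕ,
  ∃ C : ℝ, ∀ x ω : ℝ, ‖D.c0 ψ k ω x‖ ≤ C / (1 + |ω|) ^ N ∧ ‖D.cS ψ k ω x‖ ≤ C / (1 + |ω|) ^ N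

/-- **the functionals in the Fourier variable** -/
def Stmt_STAR : Prop := ∀ (D : LD) (ψ : ℝ → ℝ → ℝ), TF D.R ψ → ∀ k : ℝ, D.Lv k →
  D.FS ψ k = (2 * Real.pi : ℂ)⁻¹ * ∫ x in (-D.R)..D.R, ∫ ω : ℝ, D.cS ψ k ω x * D.SS k ω x ∧
  D.FP ψ k = (2 * Real.pi : ℂ)⁻¹ * ∫ x in (-D.R)..D.R, ∫ ω : ℝ,
    D.px k x * D.c0 ψ k ω x * D.PP k ω x

def Stmt_REAL : Prop := ∀ (D : LD) (ψ : ℝ → ℝ → ℝ), TF D.R ψ → ∀ k : ℝ, D.Lv k →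
  (D.FS ψ k).im = 0 ∧ (D.FP ψ k).im = 0

/-- **the functionals do not depend on `h`** -/
def Stmt_CONST : Prop := ∀ D : LD, (∀ k : ℝ, D.Gd k → -D.a < k → D.Lv k) →
  (∀ k : ℝ, D.swap.Gd k → -D.a < k → D.swap.Lv k) → ∀ ψ : ℝ → ℝ → ℝ, TF D.R ψ →
  (∃ c : ℝ, ∀ h : ℂ, 0 < h.im → D.FS ψ h = c) ∧ ∃ c : ℝ, ∀ h : ℂ, 0 < h.im → D.FP ψ h = c

/-! ### The two relations -/

/-- Fourier inversion in the variable `b(y)` -/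
def Stmt_INV : Prop := ∀ (D : LD) (ψ : ℝ → ℝ → ℝ), TF D.R ψ → ∀ k : ℝ, -D.a < k →
  ∀ x y : ℝ, (ψ x y : ℂ) * D.py k y =
    (2 * Real.pi : ℂ)⁻¹ * ∫ ω : ℝ, D.c0 ψ k ω x * cexp (-(I * ω * D.BB k y))

/-- the transport equation in weak form -/
def Stmt_TRA : Prop := ∀ (D : LD) (k σ ω : ℝ) (κ κ' : ℝ → ℂ), |k| < D.a → (σ = 1 ∨ σ = -1) →
  (∀ x, HasDerivAt κ (κ' x) x) → Continuous κ' → κ (-D.R) = 0 →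
  ∫ x in (-D.R)..D.R, κ' x * D.vv σ k ω x =
    ∫ x in (-D.R)..D.R, κ x * (D.px k x)⁻¹ * (σ * D.Ph k x ω + I * ω * σ * D.vv σ k ω x)

def Stmt_R1 : Prop := ∀ (D : LD) (ψ : ℝ → ℝ → ℝ), TF D.R ψ → ∀ k : ℝ, |k| < D.a → D.Lv k →
  D.FS (dx (fun x y => (D.U x - k) * ψ x y)) k + D.FP (dy (fun x y => (D.V y + k) * ψ x y)) k = 0

def Stmt_R2 : Prop := ∀ (D : LD) (ψ : ℝ → ℝ → ℝ), TF D.R ψ → D.Lv 0 →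
  D.FS (fun x y => dy (fun x y => √(D.V y) * ψ x y) x y / √(D.V y)) 0 +
    D.FP (fun x y => dx (fun x y => √(D.U x) * ψ x y) x y / √(D.U x)) 0 =
    2 * ((∫ x in (-D.R)..D.R, ∫ y in (-D.R)..D.R, D.φ x y * ψ x y : ℝ) : ℂ)

def Stmt_SUPP : Prop := ∀ (D : LD) (ψ : ℝ → ℝ → ℝ), TF D.R ψ → (∀ x y, -D.r ≤ x → ψ x y = 0) →
  ∀ k : ℝ, D.Lv k → D.FS ψ k = 0

/-! ### Test functions -/

def Stmt_TFC : Prop := ∀ (R : ℝ) (ψ : ℝ → ℝ → ℝ), TF R ψ → TF R (dx ψ) ∧ TF R (dy ψ) ∧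
  TF R (sw ψ) ∧ (∀ g : ℝ → ℝ → ℝ, ContDiff ℝ (⊤ : ℕ∞) (fun z : ℝ × ℝ => g z.1 z.2) →
    TF R (fun x y => g x y * ψ x y)) ∧ ∀ (ψ' : ℝ → ℝ → ℝ) (s t : ℝ), TF R ψ' →
    TF R (fun x y => s * ψ x y + t * ψ' x y)

def Stmt_PRIM : Prop := ∀ (R r : ℝ) (ψ : ℝ → ℝ → ℝ), 0 < r → r < R → TF R ψ →
  ∃ χ ψ₀ : ℝ → ℝ → ℝ, TF R χ ∧ TF R ψ₀ ∧ (∀ x y, -r ≤ x → ψ₀ x y = 0) ∧
    ∀ x y, ψ x y = dx χ x y + ψ₀ x y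

/-- **the analytic core** -/
def Stmt_CORE : Prop := ∀ (D : LD) (δ : ℝ), 0 < δ → D.DataZero δ →
  ∀ᵐ z : ℝ × ℝ, D.φ z.1 z.2 = 0

/-- a function which is orthogonal to all test functions vanishes -/
def Stmt_ORT : Prop := ∀ D : LD, (∀ ψ : ℝ → ℝ → ℝ, TF D.R ψ →
  ∫ x in (-D.R)..D.R, ∫ y in (-D.R)..D.R, D.φ x y * ψ x y = 0) → ∀ᵐ z : ℝ × ℝ, D.φ z.1 z.2 = 0

end Pool.Agent.LIO
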